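import Pool.Agent.MP_8c549f_pr.L2.Basic

/-! PROJECT L2: exponential decay of the exit probability in the mean (Agmon estimate). -/

noncomputable section

namespace Pool.Agent.MP_8c549f_pr.L2

open MeasureTheory Finset Real Classical S3

namespace Agm

variable {D : ℕ}

theorem quarter_le {n : ℕ} (hn : 2 ≤ n) : (1 : ℝ) / 4 ≤ (1 - 1 / (n : ℝ)) ^ n := by
  have h2 : (2 : ℝ) ≤ n := by exact_mod_cast hn
  have hpos : (0 : ℝ) < n := by linarith
  -- two halves, Bernoulli on the square root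
  have hq : (0 : ℝ) ≤ 1 - 1 / (n : ℝ) := by
    rw [sub_nonneg, div_le_one hpos]; linarith
  have hb : ∀ j : ℕ, 1 - (j : ℝ) / n ≤ (1 - 1 / (n : ℝ)) ^ j := fun j => by
    have := one_add_mul_le_pow (a := -(1 / (n : ℝ))) (by linarith) j
    calc 1 - (j : ℝ) / n = 1 + (j : ℝ) * -(1 / (n : ℝ)) := by ring
      _ ≤ (1 + -(1 / (n : ℝ))) ^ j := this
      _ = _ := by ring
  rcases Nat.even_or_odd' n with ⟨j, hj | hj⟩
  · have e : (j : ℝ) / n = 1 / 2 := by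
      have : (n : ℝ) = 2 * j := by exact_mod_cast hj
      rw [div_eq_iff hpos.ne', this]; ring
    have h1 := hb j
    rw [e] at h1
    have e2 : (1 - 1 / (n : ℝ)) ^ n = (1 - 1 / (n : ℝ)) ^ j * (1 - 1 / (n : ℝ)) ^ j := by
      rw [← pow_add]; congr 1; omega
    rw [e2]; nlinarith
  · have hn' : (n : ℝ) = 2 * j + 1 := by exact_mod_cast hj
    have hj1 : (1 : ℝ) ≤ j := by
      have : 1 ≤ j := by omega
      exact_mod_cast this
    have h1 := hb j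
    have e2 : (1 - 1 / (n : ℝ)) ^ n =
        (1 - 1 / (n : ℝ)) ^ j * (1 - 1 / (n : ℝ)) ^ j * (1 - 1 / (n : ℝ)) := by
      rw [← pow_add, ← pow_succ]; congr 1; omega
    have h3 : 0 ≤ 1 - (j : ℝ) / n := by
      rw [sub_nonneg, div_le_one hpos]; linarith
    have h4 : (1 - (j : ℝ) / n) * (1 - (j : ℝ) / n) ≤
        (1 - 1 / (n : ℝ)) ^ j * (1 - 1 / (n : ℝ)) ^ j := mul_self_le_mul_self h3 h1
    have h5 : (1 : ℝ) / 4 ≤ (1 - (j : ℝ) / n) * (1 - (j : ℝ) / n) * (1 - 1 / (n : ℝ)) := by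
      have e : (1 - (j : ℝ) / n) * (1 - (j : ℝ) / n) * (1 - 1 / (n : ℝ)) =
          ((j : ℝ) + 1) * ((j : ℝ) + 1) * (2 * j) / (n : ℝ) ^ 3 := by
        field_simp
        rw [hn']; ring
      rw [e, div_le_div_iff₀ (by norm_num) (by positivity), hn']
      nlinarith [mul_nonneg (sub_nonneg.2 hj1) (sub_nonneg.2 hj1)]
    rw [e2]
    exact h5.trans (mul_le_mul_of_nonneg_right h4 hq)

/-- the discounted exit probability -/
def ph (lam : ℝ) (ω : Cfg D) (U : Set (V D)) (θ : ℝ) (n : ℕ) (y : V D) : ℝ :=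
  ∑ j ∈ range n, θ ^ j * Pk lam ω U j (chi Uᶜ) y

variable {lam : ℝ} {ω : Cfg D} {U : Set (V D)} {θ : ℝ}

theorem ph_nonneg (h0 : 0 ≤ θ) (n : ℕ) (y : V D) : 0 ≤ ph lam ω U θ n y :=
  sum_nonneg fun j _ => mul_nonneg (pow_nonneg h0 j) (Pk_nonneg (chi_nonneg _) j y)

theorem ph_le_one (h0 : 0 ≤ θ) (h1 : θ ≤ 1) (n : ℕ) (y : V D) : ph lam ω U θ n y ≤ 1 := by
  refine le_trans ?_ (Gs_chi_le_one (lam := lam) (ω := ω) (U := U) disjoint_compl_right n y)
  exact sum_le_sum fun j _ =>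
    mul_le_of_le_one_left (Pk_nonneg (chi_nonneg _) j y) (pow_le_one₀ h0 h1)

theorem Gs_le_ph (h0 : 0 ≤ θ) (h1 : θ ≤ 1) {n : ℕ} (hq : (1 : ℝ) / 4 ≤ θ ^ n) (y : V D) :
    Gs lam ω U (n + 1) (chi Uᶜ) y ≤ 4 * ph lam ω U θ (n + 1) y := by
  rw [Gs, ph, mul_sum]
  refine sum_le_sum fun j hj => ?_
  have h2 : θ ^ n ≤ θ ^ j := pow_le_pow_of_le_one h0 h1 (by have := mem_range.1 hj; omega)
  have h3 := Pk_nonneg (lam := lam) (ω := ω) (U := U) (chi_nonneg Uᶜ) j y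
  nlinarith

theorem ph_sub (h0 : 0 ≤ θ) (n : ℕ) {y : V D} (hy : y ∈ U) :
    ph lam ω U θ (n + 1) y ≤ θ * Pf lam ω (ph lam ω U θ (n + 1)) y := by
  have e1 : ph lam ω U θ (n + 1) y = θ * Pf lam ω (ph lam ω U θ n) y := by
    have := Pf_sum (lam := lam) (ω := ω) (range n)
      (fun j z => θ ^ j * Pk lam ω U j (chi Uᶜ) z) y
    rw [ph, sum_range_succ', Pk_zero, chi_of_not (by simpa using hy), mul_zero, add_zero]
    rw [show ph lam ω U θ n = fun z => ∑ j ∈ range n, θ ^ j * Pk lam ω U j (chi Uᶜ) z from rfl,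
      this, mul_sum]
    refine sum_congr rfl fun j _ => ?_
    rw [Pf_mul, Pk_succ_mem hy]; ring
  rw [e1]
  refine mul_le_mul_of_nonneg_left (Pf_mono (fun z => ?_) y) h0
  rw [ph, ph, sum_range_succ]
  exact le_add_of_nonneg_right (mul_nonneg (pow_nonneg h0 n) (Pk_nonneg (chi_nonneg _) n z))

/-- the weight -/
def eta (ξ : ℝ) (x : V D) (r : ℕ) (y : V D) : ℝ := exp (ξ * ((r + 1 - nrm (y - x) : ℕ) : ℝ)) - 1

theorem eta_mem {ξ : ℝ} {x : V D} {r : ℕ} {y : V D} (h : eta ξ x r y ≠ 0) : y ∈ ball x r := by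
  rw [mem_ball]
  by_contra c
  apply h
  rw [eta, show r + 1 - nrm (y - x) = 0 by omega]
  simp

theorem nrm_step' (y x : V D) (s : Step D) : nrm (y - x) ≤ nrm (y + vec s - x) + 1 := by
  have := nrm_step (y + vec s) x (rev s)
  rwa [vec_rev, add_neg_cancel_right] at this

theorem eta_close {ξ : ℝ} (h0 : 0 ≤ ξ) (h1 : ξ ≤ 1) (x : V D) (r : ℕ) (y : V D) (s : Step D) :
    (eta ξ x r (y + vec s) - eta ξ x r y) ^ 2 ≤ 8 * ξ ^ 2 * (eta ξ x r y ^ 2 + 1) := by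
  set a : ℕ := r + 1 - nrm (y - x) with ha
  set b : ℕ := r + 1 - nrm (y + vec s - x) with hb
  have a1 : (b : ℝ) ≤ a + 1 := by
    have := nrm_step' y x s
    exact_mod_cast (show b ≤ a + 1 by omega)
  have a2 : (a : ℝ) ≤ b + 1 := by
    have := nrm_step y x s
    exact_mod_cast (show a ≤ b + 1 by omega)
  have t0 : |ξ * b - ξ * a| ≤ ξ := abs_le.2 ⟨by nlinarith, by nlinarith⟩
  have t1 := Real.abs_exp_sub_one_le (t0.trans h1)
  have e : eta ξ x r (y + vec s) - eta ξ x r y =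
      (eta ξ x r y + 1) * (exp (ξ * b - ξ * a) - 1) := by
    rw [eta, eta, ← ha, ← hb, exp_sub]
    have := exp_ne_zero (ξ * a)
    field_simp
    ring
  have t2 : (exp (ξ * b - ξ * a) - 1) ^ 2 ≤ (2 * ξ) ^ 2 := by
    rw [← sq_abs]
    exact pow_le_pow_left₀ (abs_nonneg _) (by linarith) 2
  rw [e, mul_pow]
  have t3 : (eta ξ x r y + 1) ^ 2 ≤ 2 * (eta ξ x r y ^ 2 + 1) := by
    nlinarith [sq_nonneg (eta ξ x r y - 1)]
  calc _ ≤ 2 * (eta ξ x r y ^ 2 + 1) * (2 * ξ) ^ 2 :=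
        mul_le_mul t3 t2 (sq_nonneg _) (by positivity)
    _ = _ := by ring

theorem eta_low {ξ : ℝ} (h0 : 0 ≤ ξ) {x : V D} {r k : ℕ} (hk : 1 ≤ k) {y : V D}
    (hy : y ∈ ball x ((r + 1) / 2)) : (ξ * r / 2) ^ k / k.factorial ≤ eta ξ x r y := by
  have h1 := mem_ball.1 hy
  have h2 : (r : ℝ) ≤ 2 * ((r + 1 - nrm (y - x) : ℕ) : ℝ) := by
    exact_mod_cast (show r ≤ 2 * (r + 1 - nrm (y - x)) by omega)
  have h3 : ξ * r / 2 ≤ ξ * ((r + 1 - nrm (y - x) : ℕ) : ℝ) := by nlinarith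
  have h4 : 0 ≤ ξ * r / 2 := by positivity
  have h5 := Real.sum_le_exp_of_nonneg h4 (k + 1)
  have h6 : ∑ i ∈ ({0, k} : Finset ℕ), (ξ * r / 2) ^ i / i.factorial ≤
      ∑ i ∈ range (k + 1), (ξ * r / 2) ^ i / i.factorial := by
    refine sum_le_sum_of_subset_of_nonneg (fun i hi => ?_) fun i _ _ => by positivity
    simp only [mem_insert, mem_singleton] at hi
    rcases hi with rfl | rfl <;> simp
  rw [sum_pair (by omega)] at h6
  simp only [pow_zero, Nat.factorial_zero, Nat.cast_one, div_one] at h6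
  have h7 := exp_le_exp.2 h3
  rw [eta]; linarith

/-- the weighted energy estimate -/
theorem weighted (hI : IDStmt) (lam : ℝ) (ω : Cfg D) (x : V D) (r : ℕ) {ξ μ : ℝ} (h0 : 0 ≤ ξ)
    (h1 : ξ ≤ 1) (hμ : 0 < μ) (hμ1 : μ ≤ 1) (he : 8 * ξ ^ 2 = μ) (φ : V D → ℝ) (p0 : ∀ y, 0 ≤ φ y)
    (p1 : ∀ y, φ y ≤ 1) (ps : ∀ y ∈ ball x r, φ y ≤ (1 - μ) * Pf lam ω φ y) :
    ∑ y ∈ ball x (r + 1), pim lam ω y * (eta ξ x r y * φ y) ^ 2 ≤
      ∑ y ∈ ball x (r + 1), pim lam ω y := by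
  obtain ⟨i1, -, -, i4⟩ := hI D lam ω (ball x (r + 1))
  set Q := ball x (r + 1) with hQ
  set η := eta ξ x r with hη
  have m1 : ∀ y, η y ≠ 0 → y ∈ Q ∧ ∀ s, y + vec s ∈ Q := fun y hy => by
    have := mem_ball.1 (eta_mem hy)
    exact ⟨mem_ball.2 (by omega), fun s => mem_ball.2 ((nrm_step y x s).trans (by omega))⟩
  have s1 : Sup (fun y => η y ^ 2 * φ y) Q := fun y hy =>
    m1 y (pow_ne_zero_iff two_ne_zero |>.1 (left_ne_zero_of_mul hy))
  have e1 := i1 _ φ s1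
  have e2 := i4 (fun a b => φ a ^ 2 * (η b - η a) ^ 2) fun y s hy => by
    have h2 : η (y + vec s) - η y ≠ 0 := pow_ne_zero_iff two_ne_zero |>.1 (right_ne_zero_of_mul hy)
    by_cases c : η y = 0
    · have c' : η (y + vec s) ≠ 0 := fun h => h2 (by rw [h, c, sub_zero])
      have := (m1 _ c').2 (rev s)
      rw [vec_rev, add_neg_cancel_right] at this
      exact ⟨this, (m1 _ c').1⟩
    · exact ⟨(m1 _ c).1, (m1 _ c).2 s⟩
  set X := ∑ y ∈ Q, pim lam ω y * (η y * φ y) ^ 2 with hX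
  set T := ∑ y ∈ Q, ∑ s, cnd lam ω y s * (φ y ^ 2 * (η (y + vec s) - η y) ^ 2) with hT
  have T0 : 0 ≤ T := sum_nonneg fun y _ => sum_nonneg fun s _ =>
    mul_nonneg (cnd_nonneg y s) (by positivity)
  -- the left side
  have b1 : (1 - μ) * ∑ y ∈ Q, pim lam ω y * (η y ^ 2 * φ y) * (φ y - Pf lam ω φ y) ≤ -(μ * X) := by
    rw [hX, mul_sum, mul_sum, ← sum_neg_distrib]
    refine sum_le_sum fun y _ => ?_
    by_cases c : η y = 0
    · simp [c]
    · have h2 := ps y (eta_mem c)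
      have h3 : 0 ≤ pim lam ω y * (η y ^ 2 * φ y) :=
        mul_nonneg (pim_nonneg lam ω y) (mul_nonneg (sq_nonneg _) (p0 y))
      have h4 := mul_le_mul_of_nonneg_left h2 h3
      nlinarith
  -- the right side
  have b2 : -T ≤ ∑ y ∈ Q, ∑ s, cnd lam ω y s * ((η (y + vec s) ^ 2 * φ (y + vec s) -
      η y ^ 2 * φ y) * (φ (y + vec s) - φ y)) := by
    have e3 : -T = ∑ y ∈ Q, ∑ s, (-(1 / 2) * (cnd lam ω y s * (φ y ^ 2 * (η (y + vec s) - η y) ^ 2)) +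
        -(1 / 2) * (cnd lam ω y s * (φ (y + vec s) ^ 2 * (η y - η (y + vec s)) ^ 2))) := by
      simp only [sum_add_distrib, ← mul_sum]
      rw [← e2]; ring
    rw [e3]
    refine sum_le_sum fun y _ => sum_le_sum fun s _ => ?_
    have h2 := cnd_nonneg (lam := lam) (ω := ω) y s
    have h3 := mul_nonneg h2 (sq_nonneg (η (y + vec s) * φ (y + vec s) - η y * φ y))
    have h4 := mul_nonneg h2 (sq_nonneg ((φ (y + vec s) - φ y) * (η (y + vec s) - η y)))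
    nlinarith
  have b3 : T ≤ μ * X + μ * ∑ y ∈ Q, pim lam ω y := by
    rw [hT, hX, ← mul_add, ← sum_add_distrib, mul_sum]
    refine sum_le_sum fun y _ => ?_
    have h2 : ∑ s, cnd lam ω y s * (φ y ^ 2 * (η (y + vec s) - η y) ^ 2) ≤
        ∑ s, cnd lam ω y s * (μ * ((η y * φ y) ^ 2 + 1)) := by
      refine sum_le_sum fun s _ => mul_le_mul_of_nonneg_left ?_ (cnd_nonneg y s)
      have h3 := eta_close h0 h1 x r y s
      rw [he] at h3
      have h4 := mul_le_mul_of_nonneg_left h3 (sq_nonneg (φ y))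
      have h5 : φ y ^ 2 ≤ 1 := pow_le_one₀ (p0 y) (p1 y)
      have h6 := mul_le_mul_of_nonneg_left h5 hμ.le
      nlinarith
    rw [← sum_mul, sum_cnd] at h2
    linarith
  have b4 : -T ≤ 2 * ∑ y ∈ Q, pim lam ω y * (η y ^ 2 * φ y) * (φ y - Pf lam ω φ y) := by
    rw [e1]; exact b2
  have b5 := mul_le_mul_of_nonneg_left b4 (sub_nonneg.2 hμ1)
  have b6 : μ * X ≤ μ * ∑ y ∈ Q, pim lam ω y := by nlinarith [mul_nonneg hμ.le T0]
  exact le_of_mul_le_mul_left b6 hμ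

end Agm

open Agm in
theorem agm (hI : IDStmt) : AGMStmt := by
  intro D lam ω x r n k hn hr hk
  have h2 : (2 : ℝ) ≤ n := by exact_mod_cast hn
  have hr' : (1 : ℝ) ≤ r := by exact_mod_cast hr
  have hpos : (0 : ℝ) < n := by linarith
  have hμ : (0 : ℝ) < 1 / n := by positivity
  have hμ1 : (1 : ℝ) / n ≤ 1 := by rw [div_le_one hpos]; linarith
  have t0 : (0 : ℝ) ≤ 1 - 1 / n := by linarith
  have t1 : (1 : ℝ) - 1 / n ≤ 1 := by linarith
  set ξ : ℝ := √(1 / (8 * n)) with hξ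
  have x0 : 0 ≤ ξ := sqrt_nonneg _
  have x2 : ξ ^ 2 = 1 / (8 * n) := sq_sqrt (by positivity)
  have he : 8 * ξ ^ 2 = 1 / (n : ℝ) := by rw [x2]; field_simp
  have x1 : ξ ≤ 1 := by nlinarith
  set φ := ph lam ω (ball x r : Set (V D)) (1 - 1 / (n : ℝ)) (n + 1) with hφ
  have hW := weighted hI lam ω x r x0 x1 hμ hμ1 he φ (ph_nonneg t0 _) (ph_le_one t0 t1 _)
    fun y hy => ph_sub t0 n (mem_coe.2 hy)
  set K : ℝ := (k.factorial : ℝ) ^ 2 * (32 * n / (r : ℝ) ^ 2) ^ k with hK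
  have K0 : 0 ≤ K := by positivity
  have hf : (0 : ℝ) < k.factorial := by exact_mod_cast k.factorial_pos
  have hK1 : K * ((ξ * r / 2) ^ k / k.factorial) ^ 2 = 1 := by
    have e : (32 * n / (r : ℝ) ^ 2) * (ξ * r / 2) ^ 2 = 1 := by
      rw [div_pow, mul_pow, x2]; field_simp; norm_num
    calc K * ((ξ * r / 2) ^ k / k.factorial) ^ 2
        = ((32 * n / (r : ℝ) ^ 2) * (ξ * r / 2) ^ 2) ^ k := by
          rw [hK, mul_pow, div_pow ((ξ * r / 2) ^ k), ← pow_mul, ← pow_mul, mul_comm k 2]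
          field_simp
      _ = 1 := by rw [e, one_pow]
  calc ∑ y ∈ ball x ((r + 1) / 2), pim lam ω y * exq lam ω x r n y ^ 2
      ≤ ∑ y ∈ ball x ((r + 1) / 2), 16 * K * (pim lam ω y * (eta ξ x r y * φ y) ^ 2) := by
        refine sum_le_sum fun y hy => ?_
        have a1 : exq lam ω x r n y ≤ 4 * φ y := Gs_le_ph t0 t1 (quarter_le hn) y
        have a0 : 0 ≤ exq lam ω x r n y := Gs_nonneg (chi_nonneg _) _ y
        have a2 : exq lam ω x r n y ^ 2 ≤ (4 * φ y) ^ 2 := pow_le_pow_left₀ a0 a1 2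
        have a3 : ((ξ * r / 2) ^ k / k.factorial) ^ 2 ≤ eta ξ x r y ^ 2 :=
          pow_le_pow_left₀ (by positivity) (eta_low x0 hk hy) 2
        have a4 : 1 ≤ K * eta ξ x r y ^ 2 := hK1 ▸ mul_le_mul_of_nonneg_left a3 K0
        have a5 := mul_le_mul_of_nonneg_left a4 (sq_nonneg (4 * φ y))
        have a6 := mul_le_mul_of_nonneg_left (a2.trans ((mul_one _).symm.le.trans a5))
          (pim_nonneg lam ω y)
        refine a6.trans (le_of_eq ?_)
        ring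
    _ ≤ ∑ y ∈ ball x (r + 1), 16 * K * (pim lam ω y * (eta ξ x r y * φ y) ^ 2) :=
        sum_le_sum_of_subset_of_nonneg (ball_mono x (by omega)) fun y _ _ =>
          mul_nonneg (by positivity) (mul_nonneg (pim_nonneg lam ω y) (sq_nonneg _))
    _ ≤ 16 * K * ∑ y ∈ ball x (r + 1), pim lam ω y := by
        rw [← mul_sum]; exact mul_le_mul_of_nonneg_left hW (by positivity)
    _ = _ := by rw [hK]; ring

end Pool.Agent.MP_8c549f_pr.L2

end
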