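import Pool.Agent.MP_8c549f_pr.L2.SpecB

noncomputable section

namespace Pool.Agent.MP_8c549f_pr.L2

open MeasureTheory Finset Real Classical S3

namespace Ar

lemma pw {t : ℝ} (ht : 1 ≤ t) {a b : ℕ} (c : ℕ) (h : a ≤ b + c) : t ^ a / t ^ c ≤ t ^ b := by
  have h0 : 0 < t := by linarith
  rw [div_le_iff₀ (pow_pos h0 c), ← pow_add]
  exact pow_le_pow_right₀ ht h

lemma ex {t : ℝ} (ht : 1 ≤ t) (k : ℕ) (hk : (k.factorial : ℝ) ≤ t) :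
    t ^ k * exp (-(t ^ 4)) ≤ t := by
  have h0 : 0 < t := by linarith
  have h1 : t ^ k / k.factorial ≤ exp t := Real.pow_div_factorial_le_exp t h0.le k
  have hf : (0 : ℝ) < k.factorial := by exact_mod_cast k.factorial_pos
  have h2 : t ≤ t ^ 4 := by
    calc t = t ^ 1 := (pow_one t).symm
      _ ≤ t ^ 4 := pow_le_pow_right₀ ht (by norm_num)
  have h3 : exp t ≤ exp (t ^ 4) := exp_le_exp.2 h2
  rw [div_le_iff₀ hf] at h1
  have h4 : t ^ k ≤ exp (t ^ 4) * t :=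
    h1.trans (mul_le_mul h3 hk hf.le (exp_pos _).le)
  rw [exp_neg, ← div_eq_mul_inv, div_le_iff₀ (exp_pos _)]
  linarith

lemma err (K b l : ℕ) (C Y : ℝ) (hC : 0 ≤ C) (hb : 21 * K + 8 ≤ b) (hl : 1 ≤ l)
    (hCl : C ≤ l) (hYl : Y ≤ l) (hk : (((3 * b + 4 + 2 * K).factorial : ℕ) : ℝ) ≤ l) :
    errK (l ^ 4) (l ^ K) (l ^ (3 * b)) (l ^ (K + 4)) (l ^ b) (l ^ (7 * b))
        (1 / (l : ℝ) ^ (20 * b)) (Y * (l : ℝ) ^ 2) (1 / (l : ℝ) ^ K) C ≤ 22 * (l : ℝ) ^ b := by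
  have ht : (1 : ℝ) ≤ l := by exact_mod_cast hl
  unfold errK
  push_cast
  generalize (l : ℝ) = t at *
  have h0 : 0 < t := by linarith
  have mono : ∀ {a c : ℕ}, a ≤ c → t ^ a ≤ t ^ c := fun h => pow_le_pow_right₀ ht h
  have hY3 : Y * t ^ 2 ≤ t ^ 3 := by
    calc Y * t ^ 2 ≤ t * t ^ 2 := mul_le_mul_of_nonneg_right hYl (by positivity)
      _ = t ^ 3 := by ring
  have t2 : Y * t ^ 2 ≤ t ^ b := hY3.trans (mono (by omega))
  have t3 : 3 * (t ^ (3 * b) * (t ^ (3 * b) * t ^ 4 + Y * t ^ 2)) * (1 / t ^ (20 * b)) ≤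
      6 * t ^ b := by
    have a1 : Y * t ^ 2 ≤ t ^ (3 * b) * t ^ 4 := by
      rw [← pow_add]; exact hY3.trans (mono (by omega))
    have a2 : t ^ (6 * b + 4) / t ^ (20 * b) ≤ t ^ b := pw ht _ (by omega)
    calc 3 * (t ^ (3 * b) * (t ^ (3 * b) * t ^ 4 + Y * t ^ 2)) * (1 / t ^ (20 * b))
        ≤ 3 * (t ^ (3 * b) * (t ^ (3 * b) * t ^ 4 + t ^ (3 * b) * t ^ 4)) * (1 / t ^ (20 * b)) := by
          gcongr
      _ = 6 * (t ^ (6 * b + 4) / t ^ (20 * b)) := by ring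
      _ ≤ 6 * t ^ b := by linarith
  have t4 : 2 * (t ^ (3 * b)) ^ 2 * t ^ 4 * (1 / t ^ (20 * b)) ≤ 2 * t ^ b := by
    have a2 : t ^ (6 * b + 4) / t ^ (20 * b) ≤ t ^ b := pw ht _ (by omega)
    calc 2 * (t ^ (3 * b)) ^ 2 * t ^ 4 * (1 / t ^ (20 * b))
        = 2 * (t ^ (6 * b + 4) / t ^ (20 * b)) := by ring
      _ ≤ 2 * t ^ b := by linarith
  have t5 : t ^ (3 * b) * t ^ 4 / (t ^ b) ^ 8 ≤ t ^ b := by
    have a2 : t ^ (3 * b + 4) / t ^ (8 * b) ≤ t ^ b := pw ht _ (by omega)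
    calc t ^ (3 * b) * t ^ 4 / (t ^ b) ^ 8 = t ^ (3 * b + 4) / t ^ (8 * b) := by ring
      _ ≤ t ^ b := a2
  have t6 : t ^ (7 * b) * (1 / (t ^ b) ^ 8 + (t ^ (3 * b) + 1) * (1 / t ^ (20 * b))) ≤
      3 * t ^ b := by
    have a1 : t ^ (7 * b) / t ^ (8 * b) ≤ t ^ b := pw ht _ (by omega)
    have a2 : t ^ (10 * b) / t ^ (20 * b) ≤ t ^ b := pw ht _ (by omega)
    have a3 : t ^ (7 * b) / t ^ (20 * b) ≤ t ^ b := pw ht _ (by omega)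
    calc t ^ (7 * b) * (1 / (t ^ b) ^ 8 + (t ^ (3 * b) + 1) * (1 / t ^ (20 * b)))
        = t ^ (7 * b) / t ^ (8 * b) + t ^ (10 * b) / t ^ (20 * b) +
          t ^ (7 * b) / t ^ (20 * b) := by ring
      _ ≤ 3 * t ^ b := by linarith
  have t7 : 4 / (t ^ (7 * b)) ^ 5 ≤ 4 * t ^ b := by
    have a1 : t ^ 0 / t ^ (35 * b) ≤ t ^ b := pw ht _ (by omega)
    calc 4 / (t ^ (7 * b)) ^ 5 = 4 * (t ^ 0 / t ^ (35 * b)) := by ring
      _ ≤ 4 * t ^ b := by linarith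
  have e1 : C * (t ^ K) ^ 3 / (1 / t ^ K) ^ 7 = C * t ^ (10 * K) := by
    field_simp
    ring
  have c1 : C * t ^ (10 * K) ≤ t ^ (10 * K + 1) := by
    calc C * t ^ (10 * K) ≤ t * t ^ (10 * K) := mul_le_mul_of_nonneg_right hCl (by positivity)
      _ = t ^ (10 * K + 1) := by ring
  have t8 : (C * (t ^ K) ^ 3 / (1 / t ^ K) ^ 7) ^ 2 ≤ t ^ b := by
    rw [e1]
    calc (C * t ^ (10 * K)) ^ 2 ≤ (t ^ (10 * K + 1)) ^ 2 := by gcongr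
      _ = t ^ (20 * K + 2) := by ring
      _ ≤ t ^ b := mono (by omega)
  have t9 : C * (t ^ K) ^ 3 / (1 / t ^ K) ^ 7 * t ^ (K + 4) ≤ t ^ b := by
    rw [e1]
    calc C * t ^ (10 * K) * t ^ (K + 4) ≤ t ^ (10 * K + 1) * t ^ (K + 4) := by gcongr
      _ = t ^ (11 * K + 5) := by ring
      _ ≤ t ^ b := mono (by omega)
  have t10 : t ^ (3 * b) * t ^ 4 * (2 * t ^ K / (1 / t ^ K) * exp (-(1 / t ^ K * t ^ (K + 4)))) ≤
      2 * t ^ b := by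
    have e2 : 1 / t ^ K * t ^ (K + 4) = t ^ 4 := by
      field_simp
      ring
    have e3 : 2 * t ^ K / (1 / t ^ K) = 2 * t ^ (2 * K) := by
      field_simp
      ring
    have a1 := ex ht _ hk
    have a2 : t ≤ t ^ b := by
      calc t = t ^ 1 := (pow_one t).symm
        _ ≤ t ^ b := mono (by omega)
    rw [e2, e3]
    calc t ^ (3 * b) * t ^ 4 * (2 * t ^ (2 * K) * exp (-(t ^ 4)))
        = 2 * (t ^ (3 * b + 4 + 2 * K) * exp (-(t ^ 4))) := by ring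
      _ ≤ 2 * t ^ b := by linarith
  linarith

end Ar

theorem arS : ARStmt := by
  intro K₀ K₁ Λ C Y g hC _ hg
  obtain ⟨b, hb⟩ : ∃ b : ℕ, b = 21 * K₀ + K₁ + 8 := ⟨_, rfl⟩
  refine ⟨b, Λ + 2 + ⌈C⌉₊ + ⌈Y⌉₊ + ⌈200 / g⌉₊ + (3 * b + 4 + 2 * K₀).factorial, by omega, ?_⟩
  intro l hl
  have hl1 : 1 ≤ l := by omega
  have mono : ∀ {a c : ℕ}, a ≤ c → l ^ a ≤ l ^ c := fun h => Nat.pow_le_pow_right hl1 h
  refine ⟨mono (by omega), ?_, mono (by omega), ?_, ?_, ?_⟩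
  · rw [← pow_mul]; exact mono (by omega)
  · have a1 : l ^ (K₀ + 4) ≤ l ^ (3 * b) * l := by
      rw [← pow_succ]; exact mono (by omega)
    have a2 : Λ + 1 ≤ l := by omega
    have a3 : l ^ (K₀ + 4) + l ^ (3 * b) * (Λ * l) ≤ l ^ (3 * b + 2) := by
      calc l ^ (K₀ + 4) + l ^ (3 * b) * (Λ * l) ≤ l ^ (3 * b) * l + l ^ (3 * b) * (Λ * l) := by
            omega
        _ = l ^ (3 * b) * l * (Λ + 1) := by ring
        _ ≤ l ^ (3 * b) * l * l := Nat.mul_le_mul_left _ a2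
        _ = l ^ (3 * b + 2) := by ring
    calc (l ^ (K₀ + 4) + l ^ (3 * b) * (Λ * l)) ^ 2 ≤ (l ^ (3 * b + 2)) ^ 2 :=
          Nat.pow_le_pow_left a3 2
      _ = l ^ (6 * b + 4) := by ring
      _ ≤ l ^ (7 * b) := mono (by omega)
  · have a1 : l ^ 4 ≤ l ^ (3 * b + 4) := mono (by omega)
    have a2 : l ^ b ≤ l ^ (3 * b + 4) := mono (by omega)
    have a3 : 2 ≤ l := by omega
    have a4 : 4 ≤ l ^ 2 := by
      calc 4 = 2 ^ 2 := by norm_num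
        _ ≤ l ^ 2 := Nat.pow_le_pow_left a3 2
    calc (l ^ (3 * b) + 2) * l ^ 4 + l ^ b = l ^ (3 * b + 4) + 2 * l ^ 4 + l ^ b := by ring
      _ ≤ l ^ (3 * b + 4) * 4 := by omega
      _ ≤ l ^ (3 * b + 4) * l ^ 2 := Nat.mul_le_mul_left _ a4
      _ = l ^ (3 * b + 6) := by ring
      _ ≤ l ^ (20 * b) := mono (by omega)
  · have hCl : C ≤ l := (Nat.le_ceil C).trans (by exact_mod_cast (by omega : ⌈C⌉₊ ≤ l))
    have hYl : Y ≤ l := (Nat.le_ceil Y).trans (by exact_mod_cast (by omega : ⌈Y⌉₊ ≤ l))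
    have hgl : 200 / g ≤ l :=
      (Nat.le_ceil _).trans (by exact_mod_cast (by omega : ⌈200 / g⌉₊ ≤ l))
    have hk : (((3 * b + 4 + 2 * K₀).factorial : ℕ) : ℝ) ≤ l := by
      exact_mod_cast (by omega : (3 * b + 4 + 2 * K₀).factorial ≤ l)
    have hE := Ar.err K₀ b l C Y hC (by omega) hl1 hCl hYl hk
    have ht : (1 : ℝ) ≤ l := by exact_mod_cast hl1
    generalize errK (l ^ 4) (l ^ K₀) (l ^ (3 * b)) (l ^ (K₀ + 4)) (l ^ b) (l ^ (7 * b))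
        (1 / (l : ℝ) ^ (20 * b)) (Y * (l : ℝ) ^ 2) (1 / (l : ℝ) ^ K₀) C = E at hE ⊢
    generalize (l : ℝ) = t at *
    have h0 : 0 < t := by linarith
    have mo : ∀ {a c : ℕ}, a ≤ c → t ^ a ≤ t ^ c := fun h => pow_le_pow_right₀ ht h
    have hY3 : Y * t ^ 2 ≤ t ^ (3 * b) * t ^ 4 := by
      calc Y * t ^ 2 ≤ t * t ^ 2 := mul_le_mul_of_nonneg_right hYl (by positivity)
        _ = t ^ 3 := by ring
        _ ≤ t ^ (3 * b + 4) := mo (by omega)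
        _ = t ^ (3 * b) * t ^ 4 := by ring
    have s1 : 7 * (t ^ (3 * b)) ^ 2 * (t ^ (3 * b) * t ^ 4 + Y * t ^ 2) * (2 / t ^ (20 * b)) ≤
        28 * t ^ (b + K₀) := by
      have a2 : t ^ (9 * b + 4) / t ^ (20 * b) ≤ t ^ (b + K₀) := Ar.pw ht _ (by omega)
      calc 7 * (t ^ (3 * b)) ^ 2 * (t ^ (3 * b) * t ^ 4 + Y * t ^ 2) * (2 / t ^ (20 * b))
          ≤ 7 * (t ^ (3 * b)) ^ 2 * (t ^ (3 * b) * t ^ 4 + t ^ (3 * b) * t ^ 4) *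
            (2 / t ^ (20 * b)) := by gcongr
        _ = 28 * (t ^ (9 * b + 4) / t ^ (20 * b)) := by ring
        _ ≤ 28 * t ^ (b + K₀) := by linarith
    have s2 : 2 * t ^ K₀ * E ≤ 44 * t ^ (b + K₀) := by
      calc 2 * t ^ K₀ * E ≤ 2 * t ^ K₀ * (22 * t ^ b) := by gcongr
        _ = 44 * t ^ (b + K₀) := by ring
    have s3 : t ^ (b + K₀ + 1) ≤ t ^ (3 * b + 3) / t ^ K₁ := by
      rw [le_div_iff₀ (pow_pos h0 _), ← pow_add]
      exact mo (by omega)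
    have s4 : 200 ≤ g * t := by
      rw [div_le_iff₀ hg] at hgl
      linarith
    have s5 : 0 < t ^ (b + K₀) := pow_pos h0 _
    calc 7 * (t ^ (3 * b)) ^ 2 * (t ^ (3 * b) * t ^ 4 + Y * t ^ 2) * (2 / t ^ (20 * b)) +
          2 * t ^ K₀ * E ≤ 200 * t ^ (b + K₀) / 2 := by linarith
      _ ≤ g * t * t ^ (b + K₀) / 2 := by gcongr
      _ = g * t ^ (b + K₀ + 1) / 2 := by ring
      _ ≤ g * (t ^ (3 * b + 3) / t ^ K₁) / 2 := by gcongr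
      _ = t ^ (3 * b) * (g * t ^ 3 / t ^ K₁) / 2 := by ring

end Pool.Agent.MP_8c549f_pr.L2

end
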