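import Pool.Agent.MP_8c549f_pr.L2.SpecA

/-! PROJECT L2: elementary facts on the operators, the weights and the scales. -/

noncomputable section

namespace Pool.Agent.MP_8c549f_pr.L2

open MeasureTheory Finset Real Classical S3
open scoped ENNReal

variable {D : ℕ} {lam : ℝ} {ω : Cfg D} {U : Set (V D)}

/-! ### one step -/

theorem Pf_mono' {f g : V D → ℝ} {x : V D}
    (h : ∀ s, ω (edge x s) = true → f (x + vec s) ≤ g (x + vec s)) :
    Pf lam ω f x ≤ Pf lam ω g x := by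
  refine sum_le_sum fun s _ => ?_
  by_cases hs : ω (edge x s) = true
  · exact mul_le_mul_of_nonneg_left (h s hs) (pr_nonneg _ _ _ _)
  · simp [pr, hs]

theorem Pf_congr' {f g : V D → ℝ} {x : V D}
    (h : ∀ s, ω (edge x s) = true → f (x + vec s) = g (x + vec s)) :
    Pf lam ω f x = Pf lam ω g x :=
  le_antisymm (Pf_mono' fun s hs => (h s hs).le) (Pf_mono' fun s hs => (h s hs).ge)

theorem Pf_mono {f g : V D → ℝ} (h : ∀ y, f y ≤ g y) (x : V D) : Pf lam ω f x ≤ Pf lam ω g x :=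
  Pf_mono' fun _ _ => h _

theorem Pf_nonneg {f : V D → ℝ} (h : ∀ y, 0 ≤ f y) (x : V D) : 0 ≤ Pf lam ω f x :=
  sum_nonneg fun _ _ => mul_nonneg (pr_nonneg _ _ _ _) (h _)

theorem Pf_add (f g : V D → ℝ) (x : V D) :
    Pf lam ω (fun y => f y + g y) x = Pf lam ω f x + Pf lam ω g x := by
  simp only [Pf, mul_add, sum_add_distrib]

theorem Pf_sub (f g : V D → ℝ) (x : V D) :
    Pf lam ω (fun y => f y - g y) x = Pf lam ω f x - Pf lam ω g x := by
  simp only [Pf, mul_sub, sum_sub_distrib]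

theorem Pf_mul (c : ℝ) (f : V D → ℝ) (x : V D) :
    Pf lam ω (fun y => c * f y) x = c * Pf lam ω f x := by
  simp only [Pf, mul_sum, mul_left_comm]

theorem Pf_neg (f : V D → ℝ) (x : V D) : Pf lam ω (fun y => -f y) x = -Pf lam ω f x := by
  simp only [Pf, mul_neg, sum_neg_distrib]

theorem Pf_sum {α : Type} (T : Finset α) (f : α → V D → ℝ) (x : V D) :
    Pf lam ω (fun y => ∑ a ∈ T, f a y) x = ∑ a ∈ T, Pf lam ω (f a) x := by
  simp only [Pf, mul_sum]; exact sum_comm

theorem Pf_const_le {c : ℝ} (hc : 0 ≤ c) (x : V D) : Pf lam ω (fun _ => c) x ≤ c := by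
  rw [Pf, ← sum_mul]; exact mul_le_of_le_one_left hc (sum_pr_le_one _ _ _)

theorem Pf_const {x : V D} (hx : 0 < Zq lam ω x) (c : ℝ) : Pf lam ω (fun _ => c) x = c := by
  rw [Pf, ← sum_mul, sum_pr, div_self hx.ne', one_mul]

theorem Pf_le {f : V D → ℝ} {c : ℝ} {x : V D} (hc : 0 ≤ c)
    (h : ∀ s, ω (edge x s) = true → f (x + vec s) ≤ c) : Pf lam ω f x ≤ c :=
  (Pf_mono' (g := fun _ => c) h).trans (Pf_const_le hc x)

theorem Pf_lev {x : V D} (hx : 0 < Zq lam ω x) :
    Pf lam ω (fun y => (y 0 : ℝ)) x = x 0 + dr lam ω x := by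
  have h := Pf_const hx (x 0 : ℝ)
  simp only [Pf, dr, Pi.add_apply, Int.cast_add, mul_add, sum_add_distrib] at h ⊢
  rw [h]

theorem Pu_of_mem {x : V D} (h : x ∈ U) (f : V D → ℝ) : Pu lam ω U f x = Pf lam ω f x :=
  Set.indicator_of_mem h _

theorem Pu_of_not {x : V D} (h : x ∉ U) (f : V D → ℝ) : Pu lam ω U f x = 0 :=
  Set.indicator_of_notMem h _

theorem chi_of_mem {x : V D} (h : x ∈ U) : chi U x = 1 := Set.indicator_of_mem h _

theorem chi_of_not {x : V D} (h : x ∉ U) : chi U x = 0 := Set.indicator_of_notMem h _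

theorem chi_nonneg (U : Set (V D)) (x : V D) : 0 ≤ chi U x := by
  by_cases h : x ∈ U <;> simp [chi, h]

theorem chi_le_one (U : Set (V D)) (x : V D) : chi U x ≤ 1 := by
  by_cases h : x ∈ U <;> simp [chi, h]

/-! ### several steps -/

@[simp] theorem Pk_zero (f : V D → ℝ) : Pk lam ω U 0 f = f := rfl

theorem Pk_succ (k : ℕ) (f : V D → ℝ) : Pk lam ω U (k + 1) f = Pu lam ω U (Pk lam ω U k f) :=
  Function.iterate_succ_apply' _ _ _

theorem Pk_succ' (k : ℕ) (f : V D → ℝ) : Pk lam ω U (k + 1) f = Pk lam ω U k (Pu lam ω U f) :=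
  Function.iterate_succ_apply _ _ _

theorem Pk_add_apply (j k : ℕ) (f : V D → ℝ) :
    Pk lam ω U (j + k) f = Pk lam ω U j (Pk lam ω U k f) := Function.iterate_add_apply _ _ _ _

theorem Pk_succ_mem {x : V D} (h : x ∈ U) (k : ℕ) (f : V D → ℝ) :
    Pk lam ω U (k + 1) f x = Pf lam ω (Pk lam ω U k f) x := by rw [Pk_succ, Pu_of_mem h]

theorem Pk_succ_not {x : V D} (h : x ∉ U) (k : ℕ) (f : V D → ℝ) : Pk lam ω U (k + 1) f x = 0 := by
  rw [Pk_succ, Pu_of_not h]

/-- Comparison on the sites that can be reached: `Rr i y` holds for the position `y` at time `i`. -/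
theorem Pk_loc {ω' : Cfg D} {U' : Set (V D)} {f f' : V D → ℝ} (n : ℕ) :
    ∀ (Rr : ℕ → V D → Prop) (x : V D), Rr 0 x →
    (∀ i < n, ∀ y s, Rr i y → y ∈ U → ω (edge y s) = true → Rr (i + 1) (y + vec s)) →
    (∀ i < n, ∀ y, Rr i y → (y ∈ U ↔ y ∈ U') ∧ (y ∈ U → ∀ s, ω (edge y s) = ω' (edge y s))) →
    (∀ y, Rr n y → f y = f' y) → Pk lam ω U n f x = Pk lam ω' U' n f' x := by
  induction n with
  | zero => intro Rr x h0 _ _ h3; exact h3 x h0
  | succ n ih =>
    intro Rr x h0 h1 h2 h3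
    obtain ⟨a, b⟩ := h2 0 (Nat.succ_pos n) x h0
    by_cases hx : x ∈ U
    · rw [Pk_succ_mem hx, Pk_succ_mem (a.1 hx), Pf, Pf]
      refine sum_congr rfl fun s _ => ?_
      rw [← pr_congr lam (b hx)]
      by_cases hs : ω (edge x s) = true
      · rw [ih (fun i => Rr (i + 1)) _ (h1 0 (Nat.succ_pos n) x s h0 hx hs)
          (fun i hi => h1 (i + 1) (by omega)) (fun i hi => h2 (i + 1) (by omega)) h3]
      · simp [pr, hs]
    · rw [Pk_succ_not hx, Pk_succ_not fun h => hx (a.2 h)]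

/-- monotone in the function, on the sites that can be reached -/
theorem Pk_mono_loc {f f' : V D → ℝ} (n : ℕ) :
    ∀ (Rr : ℕ → V D → Prop) (x : V D), Rr 0 x →
    (∀ i < n, ∀ y s, Rr i y → y ∈ U → ω (edge y s) = true → Rr (i + 1) (y + vec s)) →
    (∀ y, Rr n y → f y ≤ f' y) → Pk lam ω U n f x ≤ Pk lam ω U n f' x := by
  induction n with
  | zero => intro Rr x h0 _ h3; exact h3 x h0
  | succ n ih =>
    intro Rr x h0 h1 h3
    by_cases hx : x ∈ U
    · rw [Pk_succ_mem hx, Pk_succ_mem hx]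
      exact Pf_mono' fun s hs => ih (fun i => Rr (i + 1)) _ (h1 0 (Nat.succ_pos n) x s h0 hx hs)
        (fun i hi => h1 (i + 1) (by omega)) h3
    · rw [Pk_succ_not hx, Pk_succ_not hx]

theorem Pk_mono {f g : V D → ℝ} (h : ∀ y, f y ≤ g y) (k : ℕ) (x : V D) :
    Pk lam ω U k f x ≤ Pk lam ω U k g x :=
  Pk_mono_loc k (fun _ _ => True) x trivial (fun _ _ _ _ _ _ _ => trivial) fun y _ => h y

theorem Pk_nonneg {f : V D → ℝ} (h : ∀ y, 0 ≤ f y) (k : ℕ) : ∀ x, 0 ≤ Pk lam ω U k f x := by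
  induction k with
  | zero => exact h
  | succ k ih =>
    intro x
    by_cases hx : x ∈ U
    · rw [Pk_succ_mem hx]; exact Pf_nonneg ih x
    · rw [Pk_succ_not hx]

/-- monotone in the domain -/
theorem Pk_dom {U' : Set (V D)} (hU : U ⊆ U') {f : V D → ℝ} (h : ∀ y, 0 ≤ f y) (k : ℕ) :
    ∀ x, Pk lam ω U k f x ≤ Pk lam ω U' k f x := by
  induction k with
  | zero => exact fun _ => le_rfl
  | succ k ih =>
    intro x
    by_cases hx : x ∈ U
    · rw [Pk_succ_mem hx, Pk_succ_mem (hU hx)]; exact Pf_mono ih x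
    · rw [Pk_succ_not hx]; exact Pk_nonneg h _ x

theorem Pk_le {f : V D → ℝ} {c : ℝ} (hc : 0 ≤ c) (h : ∀ y, f y ≤ c) (k : ℕ) :
    ∀ x, Pk lam ω U k f x ≤ c := by
  induction k with
  | zero => exact h
  | succ k ih =>
    intro x
    by_cases hx : x ∈ U
    · rw [Pk_succ_mem hx]; exact Pf_le hc fun _ _ => ih _
    · rw [Pk_succ_not hx]; exact hc

theorem Pk_lin (a b : ℝ) (f g : V D → ℝ) (k : ℕ) : ∀ x,
    Pk lam ω U k (fun y => a * f y + b * g y) x = a * Pk lam ω U k f x + b * Pk lam ω U k g x := by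
  induction k with
  | zero => exact fun _ => rfl
  | succ k ih =>
    intro x
    by_cases hx : x ∈ U
    · simp only [Pk_succ_mem hx]
      rw [funext ih, Pf_add, Pf_mul, Pf_mul]
    · simp [Pk_succ_not hx]

theorem Pk_add (f g : V D → ℝ) (k : ℕ) (x : V D) :
    Pk lam ω U k (fun y => f y + g y) x = Pk lam ω U k f x + Pk lam ω U k g x := by
  simpa using Pk_lin (lam := lam) (ω := ω) (U := U) 1 1 f g k x

theorem Pk_sub (f g : V D → ℝ) (k : ℕ) (x : V D) :
    Pk lam ω U k (fun y => f y - g y) x = Pk lam ω U k f x - Pk lam ω U k g x := by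
  simpa [sub_eq_add_neg] using Pk_lin (lam := lam) (ω := ω) (U := U) 1 (-1) f g k x

theorem Pk_mul (c : ℝ) (f : V D → ℝ) (k : ℕ) (x : V D) :
    Pk lam ω U k (fun y => c * f y) x = c * Pk lam ω U k f x := by
  simpa using Pk_lin (lam := lam) (ω := ω) (U := U) c 0 f f k x

theorem Pk_neg (f : V D → ℝ) (k : ℕ) (x : V D) :
    Pk lam ω U k (fun y => -f y) x = -Pk lam ω U k f x := by
  simpa using Pk_mul (lam := lam) (ω := ω) (U := U) (-1) f k x

theorem Pk_sum {α : Type} (T : Finset α) (f : α → V D → ℝ) (k : ℕ) (x : V D) :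
    Pk lam ω U k (fun y => ∑ a ∈ T, f a y) x = ∑ a ∈ T, Pk lam ω U k (f a) x := by
  induction T using Finset.induction_on with
  | empty => simpa using Pk_mul (lam := lam) (ω := ω) (U := U) 0 (fun _ => 0) k x
  | insert a T ha ih => simp only [sum_insert ha]; rw [Pk_add, ih]

theorem abs_Pk_le {f g : V D → ℝ} (h : ∀ y, |f y| ≤ g y) (k : ℕ) (x : V D) :
    |Pk lam ω U k f x| ≤ Pk lam ω U k g x := by
  refine abs_le.2 ⟨?_, Pk_mono (fun y => (abs_le.1 (h y)).2) k x⟩
  rw [← Pk_neg]; exact Pk_mono (fun y => (abs_le.1 (h y)).1) k x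

/-! ### Green sums -/

@[simp] theorem Gs_zero (f : V D → ℝ) (x : V D) : Gs lam ω U 0 f x = 0 := rfl

theorem Gs_succ' (n : ℕ) (f : V D → ℝ) (x : V D) :
    Gs lam ω U (n + 1) f x = Gs lam ω U n f x + Pk lam ω U n f x := sum_range_succ _ _

theorem Gs_succ_mem {x : V D} (h : x ∈ U) (n : ℕ) (f : V D → ℝ) :
    Gs lam ω U (n + 1) f x = f x + Pf lam ω (Gs lam ω U n f) x := by
  have := Pf_sum (lam := lam) (ω := ω) (range n) (fun k => Pk lam ω U k f) x
  rw [Gs, sum_range_succ', add_comm]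
  simp only [Pk_succ_mem h, Pk_zero]
  rw [← this]; rfl

theorem Gs_succ_not {x : V D} (h : x ∉ U) (n : ℕ) (f : V D → ℝ) :
    Gs lam ω U (n + 1) f x = f x := by
  rw [Gs, sum_range_succ']; simp [Pk_succ_not h]

theorem Gs_nonneg {f : V D → ℝ} (h : ∀ y, 0 ≤ f y) (n : ℕ) (x : V D) : 0 ≤ Gs lam ω U n f x :=
  sum_nonneg fun k _ => Pk_nonneg h k x

theorem Gs_mono {f g : V D → ℝ} (h : ∀ y, f y ≤ g y) (n : ℕ) (x : V D) :
    Gs lam ω U n f x ≤ Gs lam ω U n g x := sum_le_sum fun k _ => Pk_mono h k x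

theorem Gs_dom {U' : Set (V D)} (hU : U ⊆ U') {f : V D → ℝ} (h : ∀ y, 0 ≤ f y) (n : ℕ) (x : V D) :
    Gs lam ω U n f x ≤ Gs lam ω U' n f x := sum_le_sum fun k _ => Pk_dom hU h k x

theorem Gs_time {f : V D → ℝ} (h : ∀ y, 0 ≤ f y) {n n' : ℕ} (hn : n ≤ n') (x : V D) :
    Gs lam ω U n f x ≤ Gs lam ω U n' f x :=
  sum_le_sum_of_subset_of_nonneg (range_mono hn) fun k _ _ => Pk_nonneg h k x

theorem Gs_add (f g : V D → ℝ) (n : ℕ) (x : V D) :
    Gs lam ω U n (fun y => f y + g y) x = Gs lam ω U n f x + Gs lam ω U n g x := by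
  simp only [Gs, Pk_add, sum_add_distrib]

theorem Gs_sub (f g : V D → ℝ) (n : ℕ) (x : V D) :
    Gs lam ω U n (fun y => f y - g y) x = Gs lam ω U n f x - Gs lam ω U n g x := by
  simp only [Gs, Pk_sub, sum_sub_distrib]

theorem Gs_mul (c : ℝ) (f : V D → ℝ) (n : ℕ) (x : V D) :
    Gs lam ω U n (fun y => c * f y) x = c * Gs lam ω U n f x := by
  simp only [Gs, Pk_mul, mul_sum]

/-- the identity of Dynkin -/
theorem dyn (U : Set (V D)) (u : V D → ℝ) (n : ℕ) : ∀ x, u x =
    Gs lam ω U n (U.indicator fun y => u y - Pf lam ω u y) x +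
      Gs lam ω U (n + 1) (Uᶜ.indicator u) x + Pk lam ω U n (U.indicator u) x := by
  induction n with
  | zero =>
    intro x
    by_cases hx : x ∈ U <;> simp [Gs, hx]
  | succ n ih =>
    intro x
    by_cases hx : x ∈ U
    · rw [Gs_succ_mem hx, Gs_succ_mem hx (n + 1), Pk_succ_mem hx, Set.indicator_of_mem hx,
        Set.indicator_of_notMem (by simpa using hx)]
      have := congrFun (congrArg (Pf lam ω) (funext ih)) x
      rw [Pf_add, Pf_add] at this
      linarith
    · rw [Gs_succ_not hx, Gs_succ_not hx, Pk_succ_not hx, Set.indicator_of_notMem hx,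
        Set.indicator_of_mem (by simpa using hx)]
      simp

/-- exit and survival have total mass at most one -/
theorem exit_add_le (U : Set (V D)) (n : ℕ) : ∀ x,
    Gs lam ω U (n + 1) (chi Uᶜ) x + Pk lam ω U n (chi U) x ≤ 1 := by
  induction n with
  | zero => intro x; by_cases hx : x ∈ U <;> simp [Gs, chi, hx]
  | succ n ih =>
    intro x
    by_cases hx : x ∈ U
    · rw [Gs_succ_mem hx, Pk_succ_mem hx, chi_of_not (by simpa using hx), zero_add, ← Pf_add]
      exact Pf_le zero_le_one fun _ _ => ih _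
    · rw [Gs_succ_not hx, Pk_succ_not hx, add_zero]; exact chi_le_one _ _

/-- and exactly one from a site with an open edge -/
theorem exit_add_eq (U : Set (V D)) (n : ℕ) : ∀ x, 0 < Zq lam ω x →
    Gs lam ω U (n + 1) (chi Uᶜ) x + Pk lam ω U n (chi U) x = 1 := by
  induction n with
  | zero => intro x _; by_cases hx : x ∈ U <;> simp [Gs, chi, hx]
  | succ n ih =>
    intro x h0
    by_cases hx : x ∈ U
    · rw [Gs_succ_mem hx, Pk_succ_mem hx, chi_of_not (by simpa using hx), zero_add, ← Pf_add,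
        ← Pf_const h0 1]
      exact Pf_congr' fun s hs => ih _ (Zq_pos_of_conn (Conn.step hs) h0)
    · rw [Gs_succ_not hx, Pk_succ_not hx, add_zero]; exact chi_of_mem (by simpa using hx)

theorem Gs_chi_le_one {Z : Set (V D)} (h : Disjoint U Z) (n : ℕ) (x : V D) :
    Gs lam ω U n (chi Z) x ≤ 1 := by
  have h1 := exit_add_le (lam := lam) (ω := ω) U n x
  have h2 := Pk_nonneg (lam := lam) (ω := ω) (U := U) (chi_nonneg U) n x
  have h3 : Gs lam ω U n (chi Z) x ≤ Gs lam ω U (n + 1) (chi Uᶜ) x := by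
    refine (Gs_mono (fun y => ?_) n x).trans (Gs_time (chi_nonneg _) (Nat.le_succ n) x)
    by_cases hy : y ∈ Z
    · rw [chi_of_mem hy, chi_of_mem (show y ∈ Uᶜ from fun hU => Set.disjoint_left.1 h hU hy)]
    · rw [chi_of_not hy]; exact chi_nonneg _ _
  linarith

/-- strong Markov property at the hitting time of `Z` -/
theorem Gs_markov {A Z : Set (V D)} (hA : A ⊆ U) (hZ : Disjoint A Z) {f : V D → ℝ}
    (hf : ∀ y, 0 ≤ f y) (n N : ℕ) : ∀ x,
    Gs lam ω A (N + 1) (Z.indicator (Gs lam ω U n f)) x ≤ Gs lam ω U (N + n) f x := by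
  induction N with
  | zero =>
    intro x
    simp only [Gs, zero_add, range_one, sum_singleton, Pk_zero]
    exact Set.indicator_le_self' (fun y _ => Gs_nonneg hf n y) x
  | succ N ih =>
    intro x
    by_cases hx : x ∈ A
    · rw [Gs_succ_mem hx, Set.indicator_of_notMem (Set.disjoint_left.1 hZ hx), zero_add,
        show N + 1 + n = N + n + 1 by ring, Gs_succ_mem (hA hx)]
      linarith [Pf_mono (lam := lam) (ω := ω) ih x, hf x]
    · rw [Gs_succ_not hx]
      exact (Set.indicator_le_self' (fun y _ => Gs_nonneg hf n y) x).trans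
        (Gs_time hf (by omega) x)

/-- a walk that leaves `U` through `Z` stays in `A` or visits `U \ A` -/
theorem Gs_split {A Z : Set (V D)} (hA : A ⊆ U) (hZ : Disjoint U Z) (n : ℕ) : ∀ x,
    Gs lam ω U n (chi Z) x ≤ Gs lam ω A n (chi Z) x + Gs lam ω A n (chi (U \ A)) x := by
  induction n with
  | zero => intro x; simp
  | succ n ih =>
    intro x
    by_cases hx : x ∈ A
    · rw [Gs_succ_mem hx, Gs_succ_mem hx, Gs_succ_mem (hA hx)]
      have := Pf_mono (lam := lam) (ω := ω) ih x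
      rw [Pf_add] at this
      linarith [chi_nonneg (U \ A) x]
    · rw [Gs_succ_not hx, Gs_succ_not hx]
      by_cases hU : x ∈ U
      · rw [chi_of_mem (show x ∈ U \ A from ⟨hU, hx⟩)]
        linarith [Gs_chi_le_one (lam := lam) (ω := ω) hZ (n + 1) x, chi_nonneg Z x]
      · rw [Gs_succ_not hU]; linarith [chi_nonneg (U \ A) x]

/-! ### conductances -/

theorem cnd_nonneg (x : V D) (s : Step D) : 0 ≤ cnd lam ω x s := by
  unfold cnd; split_ifs; exacts [(exp_pos _).le, le_rfl]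

theorem pim_pr (x : V D) (s : Step D) : pim lam ω x * pr lam ω x s = cnd lam ω x s := by
  unfold cnd
  split_ifs with h
  · rw [pr_of_open lam h, pim, mul_assoc, mul_div_cancel₀ _ (Zq_pos lam h).ne', wt, ← exp_add, expo]
    congr 1; push_cast; ring
  · simp [pr, h]

theorem sum_cnd (x : V D) : ∑ s, cnd lam ω x s = pim lam ω x := by
  rw [pim, Zq, mul_sum]
  refine sum_congr rfl fun s _ => ?_
  unfold cnd
  split_ifs with h
  · rw [wt, ← exp_add, expo]; congr 1; push_cast; ring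
  · simp

theorem pim_Pf (f : V D → ℝ) (x : V D) :
    pim lam ω x * Pf lam ω f x = ∑ s, cnd lam ω x s * f (x + vec s) := by
  simp only [Pf, mul_sum, ← mul_assoc, pim_pr]

theorem En_eq (Q : Finset (V D)) (g : V D → ℝ) :
    En lam ω Q g = ∑ x ∈ Q, ∑ s, cnd lam ω x s * (g (x + vec s) - g x) ^ 2 := by
  refine sum_congr rfl fun x _ => sum_congr rfl fun s _ => ?_
  unfold cnd; split_ifs <;> simp

theorem pim_le (h0 : 0 ≤ lam) (h1 : lam ≤ 1) (x : V D) :
    pim lam ω x ≤ (2 * D + 4) * exp (2 * lam * (x 0 : ℝ)) := by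
  rw [pim, mul_comm]
  exact mul_le_mul_of_nonneg_right ((Zq_le_Zf _ _ _).trans (Zf_le h0 h1)) (exp_pos _).le

theorem le_pim (h0 : 0 ≤ lam) (h1 : lam ≤ 1) {x : V D} (hx : 0 < Zq lam ω x) :
    exp (2 * lam * (x 0 : ℝ)) / 3 ≤ pim lam ω x := by
  have := third_le_Zq (abs_le.2 ⟨by linarith, h1⟩) hx
  rw [pim]; nlinarith [exp_pos (2 * lam * (x 0 : ℝ))]

/-! ### wide sites and scales -/

theorem wide_step {h : ℕ} {x : V D} {s : Step D} (hx : Wide ω x h) (hs : ω (edge x s) = true) :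
    Wide ω (x + vec s) h := hx.of_conn (Conn.step hs)

theorem wide_Zq {h : ℕ} (h1 : 1 ≤ h) {x : V D} (hx : Wide ω x h) (lam : ℝ) : 0 < Zq lam ω x := by
  obtain ⟨a, b, ha, hb, hab⟩ := hx
  by_cases e : a = x
  · subst e
    refine Zq_pos_of_ne hb fun e' => ?_
    subst e'; simp at hab; omega
  · exact Zq_pos_of_ne ha e

theorem mem_wb' {h r : ℕ} {x y : V D} : y ∈ wb' ω h x r ↔ nrm (y - x) ≤ r ∧ Wide ω y h := by
  rw [wb', mem_filter, mem_ball]

theorem nrm_step (y x : V D) (s : Step D) : nrm (y + vec s - x) ≤ nrm (y - x) + 1 := by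
  rw [add_sub_right_comm]; exact (nrm_add_le _ _).trans (Nat.add_le_add_left (nrm_vec_le s) _)

/-- only the wide sites within distance `n` matter -/
theorem Pk_wide {h : ℕ} {x : V D} (hx : Wide ω x h) {U' : Set (V D)} {f f' : V D → ℝ} (n : ℕ)
    (hU : ∀ y, Wide ω y h → nrm (y - x) ≤ n → (y ∈ U ↔ y ∈ U'))
    (hf : ∀ y, Wide ω y h → nrm (y - x) ≤ n → f y = f' y) :
    Pk lam ω U n f x = Pk lam ω U' n f' x :=
  Pk_loc n (fun i y => Wide ω y h ∧ nrm (y - x) ≤ i) x ⟨hx, by simp⟩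
    (fun _ _ y s hy _ hs => ⟨wide_step hy.1 hs, (nrm_step y x s).trans (by omega)⟩)
    (fun i hi y hy => ⟨hU y hy.1 (by omega), fun _ _ => rfl⟩) fun y hy => hf y hy.1 hy.2

theorem Sc.lpos {l m : ℕ} (h : Sc l m lam) : (0 : ℝ) < l := by
  have := h.l16; positivity

theorem Sc.pos {l m : ℕ} (h : Sc l m lam) : 0 < lam := lt_of_lt_of_le (by have := h.lpos; positivity) h.lo

theorem Sc.mul_le {l m : ℕ} (h : Sc l m lam) : lam * l ≤ 4 := (le_div_iff₀ h.lpos).1 h.hi

theorem Sc.le_mul {l m : ℕ} (h : Sc l m lam) : 1 ≤ lam * l := (div_le_iff₀ h.lpos).1 h.lo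

theorem Sc.le_quarter {l m : ℕ} (h : Sc l m lam) : lam ≤ 1 / 4 := by
  have h1 : (16 : ℝ) ≤ l := by exact_mod_cast h.l16
  nlinarith [h.mul_le, h.pos]

/-- `M * m ^ 5 ≤ l` as soon as `M ^ 6 ≤ l` -/
theorem Sc.big {l m : ℕ} (h : Sc l m lam) {M : ℕ} (hM : M ^ 6 ≤ l) : M * m ^ 5 ≤ l := by
  by_cases c : m ≤ M
  · calc M * m ^ 5 ≤ M * M ^ 5 := Nat.mul_le_mul_left _ (Nat.pow_le_pow_left c 5)
      _ = M ^ 6 := by ring
      _ ≤ l := hM
  · have h1 : 1 ≤ m := by omega
    calc M * m ^ 5 ≤ m * m ^ 5 := Nat.mul_le_mul_right _ (by omega)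
      _ = m ^ 6 := by ring
      _ ≤ m ^ 8 := Nat.pow_le_pow_right h1 (by norm_num)
      _ ≤ l := h.m8

theorem Sc.m16 {l m : ℕ} (h : Sc l m lam) : 16 * m ≤ l := by
  have h1 := h.l16
  by_cases c : m ≤ 1
  · omega
  · calc 16 * m ≤ m ^ 7 * m := Nat.mul_le_mul_right _
          ((show 16 ≤ 2 ^ 7 by norm_num).trans (Nat.pow_le_pow_left (by omega) 7))
      _ = m ^ 8 := by ring
      _ ≤ l := h.m8

/-! ### real weights of lists -/

@[simp] theorem wr_nil (x : V D) : wr lam ω x [] = 1 := rfl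

theorem wr_cons (x : V D) (s : Step D) (l : List (Step D)) :
    wr lam ω x (s :: l) = pr lam ω x s * wr lam ω (x + vec s) l := rfl

theorem wr_nonneg (l : List (Step D)) : ∀ x : V D, 0 ≤ wr lam ω x l := by
  induction l with
  | nil => intro x; simp
  | cons s l ih => intro x; exact mul_nonneg (pr_nonneg _ _ _ _) (ih _)

theorem W_eq_wr (l : List (Step D)) : ∀ x : V D, W lam ω x l = ENNReal.ofReal (wr lam ω x l) := by
  induction l with
  | nil => intro x; simp [W]
  | cons s l ih => intro x; rw [W_cons, ih, wr_cons, ENNReal.ofReal_mul (pr_nonneg _ _ _ _)]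

theorem wr_eq_W (x : V D) (l : List (Step D)) : wr lam ω x l = (W lam ω x l).toReal := by
  rw [W_eq_wr, ENNReal.toReal_ofReal (wr_nonneg l x)]

theorem wr_append (x : V D) (u l : List (Step D)) :
    wr lam ω x (u ++ l) = wr lam ω x u * wr lam ω (x + pos u) l := by
  simp only [wr_eq_W, W_append, ENNReal.toReal_mul]

theorem wr_shift (x y : V D) (l : List (Step D)) :
    wr lam (shift x ω) y l = wr lam ω (y + x) l := by simp only [wr_eq_W, W_shift]

theorem measurable_wr (lam : ℝ) (x : V D) (l : List (Step D)) :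
    Measurable fun ω : Cfg D => wr lam ω x l := by
  simp only [wr_eq_W]; exact (measurable_W lam x l).ennreal_toReal

theorem mem_Lg {L N : ℕ} {l : List (Step D)} :
    l ∈ Lg D L N ↔ l.length ≤ N ∧ Rec l ∧ lev l = L := by simp [Lg]

/-- finite sums of real weights are sums over sets of lists -/
theorem SS_coe (T : Finset (List (Step D))) (f : List (Step D) → ℝ≥0∞) :
    SS (T : Set (List (Step D))) f = ∑ l ∈ T, f l := by
  rw [SS, tsum_eq_sum (s := T) fun l hl => Set.indicator_of_notMem (by simpa using hl) _]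
  exact sum_congr rfl fun l hl => Set.indicator_of_mem (by simpa using hl) _

theorem kraft_wr {T : Finset (List (Step D))} (hT : Antich (T : Set (List (Step D)))) (x : V D) :
    ∑ l ∈ T, wr lam ω x l ≤ 1 := by
  have h := kraft lam ω hT x
  rw [SS_coe] at h
  simp only [W_eq_wr] at h
  rwa [← ENNReal.ofReal_sum_of_nonneg fun l _ => wr_nonneg l x, ENNReal.ofReal_le_one] at h

theorem antich_rec (L : ℤ) : Antich {l : List (Step D) | Rec l ∧ lev l = L} := by
  rintro u ⟨_, hu⟩ l ⟨hl, hl'⟩ ⟨t, rfl⟩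
  by_contra hne
  have ht : t ≠ [] := fun h => hne (by simp [h])
  have h1 := hl u.length (by simpa using List.length_pos_iff.2 ht)
  rw [H_append_left t le_rfl, H_of_le le_rfl] at h1
  omega

theorem antich_Lg (L N : ℕ) : Antich (Lg D L N : Set (List (Step D))) :=
  (antich_rec L).mono fun _ hl => (mem_Lg.1 hl).2

theorem ms_le_one (L N : ℕ) : ms lam L N ω ≤ 1 := kraft_wr (antich_Lg L N) 0

end Pool.Agent.MP_8c549f_pr.L2

end
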