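import Pool.Agent.MP_8c549f_pr.L2.SpecB

/-! PROJECT L2, row Bt: legs that do not backtrack. -/

noncomputable section

namespace Pool.Agent.MP_8c549f_pr.L2

open MeasureTheory Finset Real Classical S3

namespace BtS

variable {D : ℕ}

theorem cs (lam : ℝ) (ω : Cfg D) (T : Finset (List (Step D))) :
    (∑ l ∈ T, wr lam ω 0 l * l.length) ^ 2 ≤
      (∑ l ∈ T, wr lam ω 0 l * (l.length : ℝ) ^ 2) * ∑ l ∈ T, wr lam ω 0 l :=
  sum_sq_le_sum_mul_sum_of_sq_le_mul T
    (fun l _ => mul_nonneg (wr_nonneg l 0) (sq_nonneg _)) (fun l _ => wr_nonneg l 0)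
    fun l _ => le_of_eq (by ring)

theorem same (lam : ℝ) {k : ℕ} {ω ω' : Cfg D} (h : Agr k ω ω') {l : List (Step D)}
    (hl : ¬ ∃ i < l.length, H l i ≤ -(k : ℤ)) : wr lam ω 0 l = wr lam ω' 0 l := by
  rw [wr_eq_W, wr_eq_W, W_congr lam l 0 fun i hi s => h _ ?_]
  have h1 : -(k : ℤ) < loc l i 0 := not_le.1 fun c => hl ⟨i, hi, c⟩
  rw [edge, zero_add]
  split_ifs
  · exact h1.le
  · simp only [Pi.sub_apply, Pi.single_apply]
    split_ifs <;> omega

end BtS

open BtS in
theorem btS : BTStmt := by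
  intro D lam L N k ω ω' h
  have ht : 0 ≤ t2 lam L N ω := sum_nonneg fun l _ => mul_nonneg (wr_nonneg l 0) (sq_nonneg _)
  refine ⟨?_, ?_, (cs lam ω _).trans (mul_le_of_le_one_right ht (ms_le_one L N))⟩
  · rw [ms, bt, ← sum_filter_add_sum_filter_not (Lg D L N)
      (fun l => ∃ i < l.length, H l i ≤ -(k : ℤ)), add_sub_cancel_left, ovl,
      ← sum_fiberwise_of_maps_to (g := pos) (t := ball 0 N) fun l hl => mem_ball.2 (by
        rw [sub_zero]
        exact (nrm_pos_le l).trans (mem_Lg.1 (mem_filter.1 hl).1).1)]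
    refine sum_le_sum fun y _ => le_min ?_ ?_
    · exact sum_le_sum_of_subset_of_nonneg (filter_subset_filter _ (filter_subset _ _))
        fun l _ _ => wr_nonneg l 0
    · rw [sum_congr rfl fun l hl => same lam h (mem_filter.1 (mem_filter.1 hl).1).2]
      exact sum_le_sum_of_subset_of_nonneg (filter_subset_filter _ (filter_subset _ _))
        fun l _ _ => wr_nonneg l 0
  · have h1 : ∑ l ∈ (Lg D L N).filter fun l => ¬ ∃ i < l.length, H l i ≤ -(k : ℤ),
        wr lam ω 0 l * l.length ≤ tt lam L N ω' := by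
      rw [sum_congr rfl fun l hl => by rw [same lam h (mem_filter.1 hl).2]]
      exact sum_le_sum_of_subset_of_nonneg (filter_subset _ _)
        fun l _ _ => mul_nonneg (wr_nonneg l 0) (Nat.cast_nonneg _)
    have h2 := sum_filter_add_sum_filter_not (Lg D L N)
      (fun l => ∃ i < l.length, H l i ≤ -(k : ℤ)) fun l => wr lam ω 0 l * l.length
    refine le_trans ?_ (le_sqrt_of_sq_le ((cs lam ω _).trans (mul_le_mul_of_nonneg_right
      (sum_le_sum_of_subset_of_nonneg (filter_subset _ _)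
        fun l _ _ => mul_nonneg (wr_nonneg l 0) (sq_nonneg _))
      (sum_nonneg fun l _ => wr_nonneg l 0))))
    rw [tt, ← h2]
    linarith

end Pool.Agent.MP_8c549f_pr.L2

end
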