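import Pool.Agent.MP_8c549f_pr.L2.SpecB

/-! PROJECT L2: one sided convexity of the duration of a leg and total variation in the bias. -/

noncomputable section

namespace Pool.Agent.MP_8c549f_pr.L2

open MeasureTheory Finset Real Classical S3
open scoped ENNReal

namespace Cal

theorem low (hS : STEPStmt) {D : ℕ} (z a : ℝ) (ω : Cfg D) (l : List (Step D)) (ha : |a| ≤ 1) :
    wr z ω 0 l * (1 + (a * Mg z ω 0 l - a ^ 2 * l.length)) ≤ wr (z + a) ω 0 l :=
  (mul_le_mul_of_nonneg_left (by rw [add_comm]; exact add_one_le_exp _) (wr_nonneg _ _)).trans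
    (hS D z a ω l 0 ha).1

theorem one {w wx w' M n s s' : ℝ} (hs : 0 ≤ s) (hs' : 0 < s') (hn : 0 ≤ n)
    (h1 : w * (1 + (s' * M - s' ^ 2 * n)) ≤ w') (h2 : w * (1 + (-s * M - (-s) ^ 2 * n)) ≤ wx) :
    w * n - wx * n ≤ s * ((w' * n - w * n) / s' + (s + s') * (w * n ^ 2)) := by
  have a : w * M - s' * (w * n) ≤ (w' - w) / s' := by
    rw [le_div_iff₀ hs']; nlinarith
  have b : w - wx ≤ s * ((w' - w) / s' + (s + s') * (w * n)) := by
    nlinarith [mul_le_mul_of_nonneg_left a hs]
  calc w * n - wx * n = (w - wx) * n := by ring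
    _ ≤ s * ((w' - w) / s' + (s + s') * (w * n)) * n := mul_le_mul_of_nonneg_right b hn
    _ = _ := by ring

theorem two {w wx wp wm M n s a : ℝ} (hs : 0 ≤ s) (ha : 0 < a) (hn : 0 ≤ n) (hw : 0 ≤ w)
    (p0 : 0 ≤ wp) (m0 : 0 ≤ wm) (h2 : w * (1 + (-s * M - (-s) ^ 2 * n)) ≤ wx)
    (hp : w * (1 + (a * M - a ^ 2 * n)) ≤ wp) :
    |w - wx| ≤ 2 * s * (a * (w * n) + (wp + wm) / a) + 2 * s ^ 2 * (w * n) + (wx - w) := by
  have q : w * M ≤ a * (w * n) + (wp + wm) / a := by
    rw [← sub_le_iff_le_add', le_div_iff₀ ha]; nlinarith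
  have q0 : 0 ≤ a * (w * n) + (wp + wm) / a := by positivity
  have q1 : 0 ≤ s ^ 2 * (w * n) := by positivity
  have q2 := mul_le_mul_of_nonneg_left q hs
  have q3 := mul_nonneg hs q0
  rw [abs_le]
  constructor <;> nlinarith

end Cal

open Cal in
theorem cal (hS : STEPStmt) : CALStmt := by
  intro D L N ω x z z' a xz zz h1 h2 a0 a1
  have s0 : 0 ≤ z - x := by linarith
  have lx : ∀ l : List (Step D),
      wr z ω 0 l * (1 + (-(z - x) * Mg z ω 0 l - (-(z - x)) ^ 2 * l.length)) ≤ wr x ω 0 l := fun l => by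
    have := low hS z (-(z - x)) ω l (by rw [abs_neg, abs_of_nonneg s0]; exact h1)
    rwa [show z + -(z - x) = x by ring] at this
  constructor
  · have lz : ∀ l : List (Step D),
        wr z ω 0 l * (1 + ((z' - z) * Mg z ω 0 l - (z' - z) ^ 2 * l.length)) ≤ wr z' ω 0 l := fun l => by
      have := low hS z (z' - z) ω l (by rw [abs_of_nonneg (by linarith)]; exact h2)
      rwa [show z + (z' - z) = z' by ring] at this
    simp only [tt, t2, ← sum_sub_distrib, sum_div, mul_sum, ← sum_add_distrib]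
    exact sum_le_sum fun l _ => one s0 (by linarith) (Nat.cast_nonneg _) (lz l) (lx l)
  · have key := sum_le_sum (s := Lg D L N) fun l _ => two (wm := wr (z + a) ω 0 l) s0 a0
      (Nat.cast_nonneg l.length) (wr_nonneg l 0) (wr_nonneg _ _) (wr_nonneg _ _) (lx l)
      (low hS z a ω l (by rwa [abs_of_pos a0]))
    refine key.trans ?_
    simp only [sum_add_distrib, sum_sub_distrib, ← mul_sum, ← sum_div]
    have b1 := ms_le_one (lam := z + a) (ω := ω) L N
    have b2 := ms_le_one (lam := x) (ω := ω) L N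
    have b3 : (ms (z + a) L N ω + ms (z + a) L N ω) / a ≤ 2 / a :=
      div_le_div_of_nonneg_right (by linarith) a0.le
    have b4 := mul_le_mul_of_nonneg_left b3 s0
    simp only [ms, tt] at *
    linarith

end Pool.Agent.MP_8c549f_pr.L2

end
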