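import Pool.Agent.MP_8c549f_pr.L2.Basic

/-! PROJECT L2: exponential bound for events that depend on disjoint sets of edges. -/

noncomputable section

namespace Pool.Agent.MP_8c549f_pr.L2

open MeasureTheory Finset Real Classical S3
open scoped ENNReal

namespace Cher

variable {D : ℕ}

/-- the exponential weight of one event -/
def F (E : Cfg D → Prop) (ω : Cfg D) : ℝ≥0∞ := ENNReal.ofReal (exp (S3.ind (E ω) / 2))

theorem F_dep {E : Cfg D → Prop} {S : Set (Edge D)} (h : Dep E S) : Dep (F E) S :=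
  fun ω ω' e => by simp only [F, h ω ω' e]

theorem F_le (E : Cfg D → Prop) (ω : Cfg D) :
    F E ω ≤ 1 + {ω | E ω}.indicator (fun _ => (1 : ℝ≥0∞)) ω := by
  by_cases h : E ω
  · have h1 : exp (1 / 2 : ℝ) ≤ 2 := by
      have h2 : exp (1 / 2 : ℝ) * exp (1 / 2 : ℝ) = exp 1 := by rw [← exp_add]; norm_num
      have h3 := exp_one_lt_d9
      nlinarith [exp_pos (1 / 2 : ℝ)]
    rw [Set.indicator_of_mem (show ω ∈ {ω | E ω} from h), F, S3.ind, if_pos h, one_add_one_eq_two]
    exact ENNReal.ofReal_le_of_le_toReal (by simpa using h1)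
  · rw [Set.indicator_of_notMem (show ω ∉ {ω | E ω} from h), F, S3.ind, if_neg h]
    simp

theorem int_F {p q : ℝ} (h0 : 0 ≤ p) (h1 : p ≤ 1) {E : Cfg D → Prop}
    (hm : MeasurableSet {ω | E ω}) (hq : (perc D p).real {ω | E ω} ≤ q) :
    ∫⁻ ω, F E ω ∂perc D p ≤ ENNReal.ofReal (exp q) := by
  have := perc_prob D h0 h1
  refine (lintegral_mono (F_le E)).trans ?_
  rw [lintegral_add_left measurable_const, lintegral_indicator hm]
  simp only [lintegral_const, measure_univ, mul_one, MeasurableSet.univ, Measure.restrict_apply,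
    Set.univ_inter, one_mul]
  rw [← ofReal_measureReal (measure_ne_top _ _), ← ENNReal.ofReal_one,
    ← ENNReal.ofReal_add zero_le_one measureReal_nonneg]
  exact ENNReal.ofReal_le_ofReal (by linarith [add_one_le_exp q])

theorem prod_dep (I : Finset ℕ) {E : ℕ → Cfg D → Prop} {S : ℕ → Finset (Edge D)}
    (h : ∀ k ∈ I, Dep (E k) (S k : Set (Edge D))) :
    Dep (fun ω => ∏ k ∈ I, F (E k) ω) (I.biUnion S : Set (Edge D)) := fun ω ω' e =>
  prod_congr rfl fun k hk => F_dep (h k hk) ω ω' fun x hx =>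
    e x (by simpa using ⟨k, hk, by simpa using hx⟩)

theorem int_prod {p q : ℝ} (h0 : 0 ≤ p) (h1 : p ≤ 1) (E : ℕ → Cfg D → Prop)
    (S : ℕ → Finset (Edge D)) (I : Finset ℕ) : (∀ k ∈ I, Dep (E k) (S k : Set (Edge D))) →
    (∀ k ∈ I, ∀ k' ∈ I, k ≠ k' → Disjoint (S k) (S k')) →
    (∀ k ∈ I, (perc D p).real {ω | E k ω} ≤ q) →
    ∫⁻ ω, ∏ k ∈ I, F (E k) ω ∂perc D p ≤ ENNReal.ofReal (exp (q * I.card)) := by
  have := perc_prob D h0 h1
  induction I using Finset.induction_on with
  | empty => intro _ _ _; simp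
  | insert a I ha ih =>
    intro hD hS hq
    have hD' : ∀ k ∈ I, Dep (E k) (S k : Set (Edge D)) := fun k hk => hD k (mem_insert_of_mem hk)
    have hA := hD a (mem_insert_self a I)
    have hd : Disjoint (S a : Set (Edge D)) (I.biUnion S : Set (Edge D)) := by
      rw [disjoint_coe, disjoint_biUnion_right]
      exact fun k hk => hS a (mem_insert_self a I) k (mem_insert_of_mem hk) fun e => ha (e ▸ hk)
    simp only [prod_insert ha]
    rw [Pool.Agent.MP_8c549f_pr.ind D p h0 h1 _ _ _ _ ((F_dep hA).measurable (finite_toSet _))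
      ((prod_dep I hD').measurable (finite_toSet _)) (F_dep hA) (prod_dep I hD') hd,
      card_insert_of_notMem ha, Nat.cast_add_one, mul_add_one, add_comm, exp_add,
      ENNReal.ofReal_mul (exp_pos _).le]
    exact mul_le_mul' (int_F h0 h1 (hA.measurableSet (finite_toSet _)) (hq a (mem_insert_self a I)))
      (ih hD' (fun k hk k' hk' => hS k (mem_insert_of_mem hk) k' (mem_insert_of_mem hk'))
        fun k hk => hq k (mem_insert_of_mem hk))

end Cher

open Cher in
theorem cher : CHERStmt := by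
  intro D p h0 h1 I E S q a hD hS hq
  have hI := int_prod h0 h1 E S I hD hS hq
  have hm := (prod_dep I hD).measurable (finite_toSet _)
  have hM := mul_meas_ge_le_lintegral (μ := perc D p) hm (ENNReal.ofReal (exp (a / 2)))
  have hsub : {ω | a ≤ ∑ k ∈ I, S3.ind (E k ω)} ⊆
      {ω | ENNReal.ofReal (exp (a / 2)) ≤ ∏ k ∈ I, F (E k) ω} := by
    intro ω hω
    have h2 : a ≤ ∑ k ∈ I, S3.ind (E k ω) := hω
    show ENNReal.ofReal (exp (a / 2)) ≤ ∏ k ∈ I, F (E k) ω
    simp only [F]
    rw [← ENNReal.ofReal_prod_of_nonneg fun k _ => (exp_pos _).le, ← exp_sum, ← sum_div]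
    exact ENNReal.ofReal_le_ofReal (exp_le_exp.2 (by linarith))
  have h3 : ENNReal.ofReal (exp (a / 2)) * perc D p {ω | a ≤ ∑ k ∈ I, S3.ind (E k ω)} ≤
      ENNReal.ofReal (exp (q * I.card)) :=
    (mul_le_mul' le_rfl (measure_mono hsub)).trans (hM.trans hI)
  have h4 := ENNReal.toReal_mono ENNReal.ofReal_ne_top h3
  rw [ENNReal.toReal_mul, ENNReal.toReal_ofReal (exp_pos _).le,
    ENNReal.toReal_ofReal (exp_pos _).le] at h4
  rw [exp_sub, le_div_iff₀ (exp_pos _), mul_comm]
  exact h4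

end Pool.Agent.MP_8c549f_pr.L2

end
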