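import Pool.Agent.MP_8c549f_pr.L2.Basic

/-! PROJECT L2, row Chi: the corrector is small compared with the scale. -/

noncomputable section

namespace Pool.Agent.MP_8c549f_pr.L2

open MeasureTheory Finset Real Classical S3

namespace Chi

variable {D : ℕ} {lam : ℝ} {ω : Cfg D}

lemma sq_le_of {E a : ℝ} (hE : 0 ≤ E) (h : E ≤ 2 * (a * √E) + E / 2) : E ≤ 16 * a ^ 2 := by
  have h1 := Real.sq_sqrt hE
  nlinarith [sq_nonneg (√E - 4 * a)]

lemma energy (hE : EN2Stmt) {K C T : ℝ} (hK : 1 ≤ K) {l m : ℕ} (hs : Sc l m lam)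
    {χ : V D → ℝ} {Q : Finset (V D)} (x : V D) (hT : 0 ≤ T) (hQ : Sup χ Q)
    (h3 : ∑ y ∈ Q, pim lam ω y * (et (1 / (4 * K) / l) x y * χ y) ^ 2 ≤
      K / lam ^ 2 * En lam ω Q fun y => et (1 / (4 * K) / l) x y * χ y)
    (hM : |∑ y ∈ Q, pim lam ω y * (et (1 / (4 * K) / l) x y * (et (1 / (4 * K) / l) x y * χ y)) *
      (dr lam ω y - d0 D lam)| ≤
      C * √T * √(En lam ω Q fun y => et (1 / (4 * K) / l) x y * χ y))
    (heq : ∀ y, χ y ≠ 0 → χ y = dr lam ω y - d0 D lam + Pf lam ω χ y) :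
    ∑ y ∈ Q, pim lam ω y * (et (1 / (4 * K) / l) x y * χ y) ^ 2 ≤
      16 * K * C ^ 2 * (l : ℝ) ^ 2 * T := by
  have hl := hs.lpos
  have hl1 : (16 : ℝ) ≤ l := by exact_mod_cast hs.l16
  have hlam := hs.pos
  have x1 : 1 / (4 * K) / (l : ℝ) ≤ 1 := by
    rw [div_div, div_le_one (by positivity)]
    nlinarith
  have h1 := hE D lam (1 / (4 * K) / l) ω Q x χ (by positivity) x1 hQ
  have h2 : ∑ y ∈ Q, pim lam ω y * (et (1 / (4 * K) / l) x y ^ 2 * χ y) *
      (χ y - Pf lam ω χ y) =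
      ∑ y ∈ Q, pim lam ω y * (et (1 / (4 * K) / l) x y * (et (1 / (4 * K) / l) x y * χ y)) *
        (dr lam ω y - d0 D lam) := by
    refine sum_congr rfl fun y _ => ?_
    by_cases hy : χ y = 0
    · rw [hy]; ring
    · have := heq y hy
      rw [show χ y - Pf lam ω χ y = dr lam ω y - d0 D lam by linarith]
      ring
  rw [h2] at h1
  set E := En lam ω Q fun y => et (1 / (4 * K) / l) x y * χ y with hEd
  set X := ∑ y ∈ Q, pim lam ω y * (et (1 / (4 * K) / l) x y * χ y) ^ 2 with hXd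
  have hE0 : 0 ≤ E := En_nonneg _ _
  have h4 : K / lam ^ 2 ≤ K * (l : ℝ) ^ 2 := by
    rw [div_le_iff₀ (by positivity)]
    have := hs.le_mul
    have h5 : 1 ≤ (lam * l) ^ 2 := one_le_pow₀ this
    nlinarith
  have h5 : X ≤ K * (l : ℝ) ^ 2 * E := h3.trans (mul_le_mul_of_nonneg_right h4 hE0)
  have h6 : 4 * (1 / (4 * K) / (l : ℝ)) ^ 2 * X ≤ E / 2 := by
    refine (mul_le_mul_of_nonneg_left h5 (by positivity)).trans ?_
    have : 4 * (1 / (4 * K) / (l : ℝ)) ^ 2 * (K * (l : ℝ) ^ 2 * E) = E / (4 * K) := by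
      field_simp
    rw [this]
    exact div_le_div_of_nonneg_left hE0 (by norm_num) (by linarith)
  have h7 : E ≤ 16 * (C * √T) ^ 2 := sq_le_of hE0 (by linarith [le_abs_self (∑ y ∈ Q,
    pim lam ω y * (et (1 / (4 * K) / l) x y * (et (1 / (4 * K) / l) x y * χ y)) *
      (dr lam ω y - d0 D lam))])
  rw [mul_pow, Real.sq_sqrt hT] at h7
  calc X ≤ K * (l : ℝ) ^ 2 * E := h5
    _ ≤ K * (l : ℝ) ^ 2 * (16 * (C ^ 2 * T)) := mul_le_mul_of_nonneg_left h7 (by positivity)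
    _ = _ := by ring

lemma lev_le {x y : V D} {r : ℕ} (h : nrm (y - x) ≤ r) : |(y 0 : ℝ) - x 0| ≤ r := by
  have := nrm_le_iff.1 h 0
  rw [Pi.sub_apply] at this
  exact_mod_cast this

lemma lam_r {l m r : ℕ} (hs : Sc l m lam) (hr : 16 * r ≤ l) : lam * r ≤ 1 / 4 := by
  have h1 : 16 * (r : ℝ) ≤ l := by exact_mod_cast hr
  nlinarith [hs.mul_le, hs.pos]

lemma low {l m h r : ℕ} (hs : Sc l m lam) (h1 : 1 ≤ h) (hr : 16 * r ≤ l) {ξ : ℝ}
    (x1 : ξ ≤ 1) {x y : V D} (hy : y ∈ wb' ω h x r) :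
    exp (2 * lam * (x 0 : ℝ)) / 9 ≤ pim lam ω y * et (ξ / l) x y ^ 2 := by
  obtain ⟨a, b⟩ := mem_wb'.1 hy
  have hl := hs.lpos
  have k1 := le_pim hs.pos.le (hs.le_quarter.trans (by norm_num)) (wide_Zq h1 b lam)
  have k2 := abs_le.1 (lev_le a)
  have k3 := lam_r hs hr
  have k4 : (nrm (y - x) : ℝ) ≤ r := by exact_mod_cast a
  have k5 : 16 * (r : ℝ) ≤ l := by exact_mod_cast hr
  have k6 : ξ / l * (nrm (y - x) : ℝ) ≤ 1 / 16 := by
    rw [div_mul_eq_mul_div, div_le_iff₀ hl]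
    nlinarith [(Nat.cast_nonneg (nrm (y - x)) : (0 : ℝ) ≤ _)]
  have k7 : exp (2 * lam * (x 0 : ℝ)) ≤
      exp 1 * (exp (2 * lam * (y 0 : ℝ)) * et (ξ / l) x y ^ 2) := by
    rw [et, ← Real.exp_nat_mul, ← exp_add, ← exp_add, exp_le_exp]
    push_cast
    nlinarith [hs.pos]
  have k8 : exp 1 ≤ 3 := Real.exp_one_lt_three.le
  have k9 : 0 ≤ exp (2 * lam * (y 0 : ℝ)) * et (ξ / l) x y ^ 2 := by positivity
  have k10 := mul_le_mul_of_nonneg_right k1 (sq_nonneg (et (ξ / l) x y))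
  nlinarith

lemma loc_sum {l m h r : ℕ} (hs : Sc l m lam) (h1 : 1 ≤ h) (hr : 16 * r ≤ l) {ξ : ℝ}
    (x1 : ξ ≤ 1) (x : V D) {χ : V D → ℝ} {Q : Finset (V D)} (hQ : Sup χ Q) :
    exp (2 * lam * (x 0 : ℝ)) / 9 * ∑ y ∈ wb' ω h x r, χ y ^ 2 ≤
      ∑ y ∈ Q, pim lam ω y * (et (ξ / l) x y * χ y) ^ 2 := by
  rw [mul_sum]
  calc _ ≤ ∑ y ∈ wb' ω h x r, pim lam ω y * (et (ξ / l) x y * χ y) ^ 2 :=
        sum_le_sum fun y hy => by
          rw [mul_pow, ← mul_assoc]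
          exact mul_le_mul_of_nonneg_right (low hs h1 hr x1 hy) (sq_nonneg _)
    _ ≤ _ := by
        rw [← sum_filter_of_ne (p := fun y => χ y ≠ 0) fun y _ hy h0 => hy (by rw [h0]; ring)]
        exact sum_le_sum_of_subset_of_nonneg (fun y hy => (hQ y (mem_filter.1 hy).2).1)
          fun y _ _ => mul_nonneg (pim_nonneg _ _ _) (sq_nonneg _)

/-- the mean value inequality for the two signs -/
lemma mvs {h r : ℕ} (h1 : 1 ≤ h) {C S d : ℝ} (hC : 0 ≤ C) (hS : 0 ≤ S) (h0 : 0 ≤ lam)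
    (hd : |d| ≤ lam) {x : V D} {U : Finset (V D)} {χ : V D → ℝ}
    (hV : ∀ u : V D → ℝ, (∀ y ∈ wb' ω h x r, u y - Pf lam ω u y ≤ lam) →
      (∀ y ∈ wb' ω h x (r + 1), u y ≤ S) → u x ≤ (r : ℝ) ^ 2 * lam + S / 8 +
        C * √((∑ y ∈ wb' ω h x r, max (u y) 0 ^ 2) / (r : ℝ) ^ (D + 1)))
    (e1 : ∀ y ∈ U, χ y = dr lam ω y - d + Pf lam ω χ y) (e2 : ∀ y ∉ U, χ y = 0)
    (hb : ∀ y ∈ wb' ω h x (r + 1), |χ y| ≤ S) {σ : ℝ} (hσ : |σ| = 1) :
    σ * χ x ≤ (r + 1) + (r : ℝ) ^ 2 * lam + S / 8 +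
      C * √((∑ y ∈ wb' ω h x r, χ y ^ 2) / (r : ℝ) ^ (D + 1)) := by
  set g : V D → ℝ := fun y => σ * (χ y + (y 0 : ℝ)) - (σ * (x 0 : ℝ) + (r + 1)) with hg
  have k1 : ∀ y, nrm (y - x) ≤ r + 1 → g y ≤ σ * χ y := fun y hy => by
    have a := lev_le hy
    have b : σ * ((y 0 : ℝ) - x 0) ≤ |σ * ((y 0 : ℝ) - x 0)| := le_abs_self _
    rw [abs_mul, hσ, one_mul] at b
    push_cast at a
    simp only [hg]
    linarith
  have k2 : ∀ y, σ * χ y ≤ |χ y| := fun y => by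
    have b := le_abs_self (σ * χ y)
    rwa [abs_mul, hσ, one_mul] at b
  have k3 := hV (fun y => max (g y) 0) (fun y hy => by
    obtain ⟨a, b⟩ := mem_wb'.1 hy
    have p0 : 0 ≤ Pf lam ω (fun y => max (g y) 0) y := Pf_nonneg (fun _ => le_max_right _ _) y
    have p1 : g y ≤ Pf lam ω (fun y => max (g y) 0) y + lam := by
      by_cases hU : y ∈ U
      · have z := wide_Zq h1 b lam
        have q1 : Pf lam ω g y ≤ Pf lam ω (fun y => max (g y) 0) y :=
          Pf_mono (fun _ => le_max_left _ _) y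
        have q2 : Pf lam ω g y = σ * (Pf lam ω χ y + ((y 0 : ℝ) + dr lam ω y)) -
            (σ * (x 0 : ℝ) + (r + 1)) := by
          rw [hg, Pf_sub, Pf_mul, Pf_add, Pf_lev z, Pf_const z]
        have q3 : -(σ * d) ≤ lam := by
          have := neg_abs_le (σ * d)
          rw [abs_mul, hσ, one_mul] at this
          linarith
        have q4 : g y = Pf lam ω g y - σ * d := by
          rw [q2]
          simp only [hg]
          rw [e1 y hU]
          ring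
        linarith
      · have := k1 y (by omega)
        rw [e2 y hU, mul_zero] at this
        linarith
    have p2 : max (g y) 0 ≤ Pf lam ω (fun y => max (g y) 0) y + lam := max_le p1 (by linarith)
    linarith) (fun y hy =>
      max_le ((k1 y (mem_wb'.1 hy).1).trans ((k2 y).trans (hb y hy))) hS)
  have k4 : ∑ y ∈ wb' ω h x r, max (max (g y) 0) 0 ^ 2 ≤ ∑ y ∈ wb' ω h x r, χ y ^ 2 :=
    sum_le_sum fun y hy => by
      rw [← sq_abs (χ y)]
      refine pow_le_pow_left₀ (le_max_right _ _) (max_le (max_le ?_ (abs_nonneg _)) (abs_nonneg _)) 2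
      exact (k1 y ((mem_wb'.1 hy).1.trans (Nat.le_succ r))).trans (k2 y)
  have k5 := mul_le_mul_of_nonneg_left (Real.sqrt_le_sqrt
    (div_le_div_of_nonneg_right k4 (by positivity : (0 : ℝ) ≤ (r : ℝ) ^ (D + 1)))) hC
  have k6 : g x ≤ max (g x) 0 := le_max_left _ _
  have k7 : g x = σ * χ x - (r + 1) := by
    simp only [hg]
    ring
  linarith

lemma root {a b δ v X : ℝ} {l r E n : ℕ} (ha : 0 < a) (hb : 0 < b) (hv : 0 ≤ v) (hδ : 0 ≤ δ)
    (hr : 1 ≤ r) (hE : 1 ≤ E) (hl : l ≤ 2 * E * r) (hd : δ ≤ b ^ 2 / (a * (2 * E) ^ n))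
    (hX : X ≤ a * δ * (l : ℝ) ^ (n + 2) * v ^ 2) : √(X / (r : ℝ) ^ n) ≤ b * l * v := by
  have r0 : (0 : ℝ) < r := by exact_mod_cast hr
  have E0 : (0 : ℝ) < E := by exact_mod_cast hE
  refine Real.sqrt_le_iff.2 ⟨by positivity, ?_⟩
  rw [div_le_iff₀ (by positivity)]
  have h1 : (l : ℝ) ^ n ≤ (2 * E) ^ n * (r : ℝ) ^ n := by
    rw [← mul_pow]
    exact pow_le_pow_left₀ (by positivity) (by exact_mod_cast hl) n
  have h2 : a * δ * (2 * E) ^ n ≤ b ^ 2 := by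
    rw [le_div_iff₀ (by positivity)] at hd
    linarith
  calc X ≤ a * δ * (l : ℝ) ^ n * ((l : ℝ) * v) ^ 2 := by rw [pow_add] at hX; linarith
    _ ≤ a * δ * ((2 * E) ^ n * (r : ℝ) ^ n) * ((l : ℝ) * v) ^ 2 := by gcongr
    _ = a * δ * (2 * E) ^ n * ((r : ℝ) ^ n * ((l : ℝ) * v) ^ 2) := by ring
    _ ≤ b ^ 2 * ((r : ℝ) ^ n * ((l : ℝ) * v) ^ 2) := by gcongr
    _ = _ := by ring

end Chi

open Chi in
theorem chiS (hE : EN2Stmt) (hH : HDStmt) (hM : HMStmt) (hV : MVStmt) (hD : D0Stmt) :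
    CHIStmt := by
  intro D ε hε
  obtain ⟨K, hK, hH⟩ := hH D
  have x1 : 1 / (4 * K) ≤ 1 := by
    rw [div_le_one (by positivity)]
    linarith
  obtain ⟨C, hC, hM⟩ := hM D (1 / (4 * K)) (by positivity) x1
  obtain ⟨C', M, hC', hM1, hV⟩ := hV D
  obtain ⟨E, hE1⟩ := exists_nat_ge (max 16 (12 / ε))
  have E16 : (16 : ℝ) ≤ E := (le_max_left _ _).trans hE1
  have E16' : 16 ≤ E := by exact_mod_cast E16
  have E12 : 12 ≤ ε * E := by
    have := (le_max_right _ _).trans hE1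
    rw [div_le_iff₀ hε] at this
    linarith
  refine ⟨(ε / (4 * C')) ^ 2 / (144 * K * C ^ 2 * (2 * E) ^ (D + 1)), (M * E) ^ 6 + E,
    by positivity, ?_⟩
  intro ω R m h δ rep w G hδ l lam hl hs U L χ hU e1 e2
  have l0 := hs.lpos
  have lam0 := hs.pos
  have lam1 : lam ≤ 1 := hs.le_quarter.trans (by norm_num)
  have hχ : ∀ y, χ y ≠ 0 → y ∈ U := fun y hy => by_contra fun c => hy (e2 y c)
  rcases U.eq_empty_or_nonempty with rfl | hne
  · intro y
    rw [e2 y (by simp), abs_zero]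
    positivity
  obtain ⟨x, hx, hmax⟩ := exists_max_image U
    (fun y => |χ y| / exp (lam * (L - y 0 : ℤ))) hne
  obtain ⟨xw, xR, xL⟩ := hU x hx
  set v := exp (lam * (L - x 0 : ℤ)) with hv
  have v0 : 0 < v := exp_pos _
  have v1 : 1 ≤ v := one_le_exp (mul_nonneg lam0.le (by exact_mod_cast (by omega)))
  have hS : ∀ y, |χ y| ≤ |χ x| / v * exp (lam * (L - y 0 : ℤ)) := fun y => by
    by_cases c : y ∈ U
    · exact (div_le_iff₀ (exp_pos _)).1 (hmax y c)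
    · rw [e2 y c, abs_zero]
      positivity
  suffices hfin : |χ x| ≤ ε * l * v by
    intro y
    exact (hS y).trans (mul_le_mul_of_nonneg_right ((div_le_iff₀ v0).2 hfin) (exp_pos _).le)
  set r := l / E with hr
  have rE : r * E ≤ l := Nat.div_mul_le_self l E
  have r1 : 1 ≤ r := (Nat.le_div_iff_mul_le (by omega)).2 (by omega)
  have r16 : 16 * r ≤ l := by nlinarith
  have rl : l ≤ 2 * E * r := by
    have := Nat.lt_mul_div_succ l (show 0 < E by omega)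
    nlinarith
  have rM : M * m ^ 5 ≤ r := (Nat.le_div_iff_mul_le (by omega)).2 (by
    have := hs.big (M := M * E) (by omega)
    nlinarith)
  have lr := lam_r hs r16
  -- energy
  have hQ : Sup χ (U.biUnion fun y => ball y 1) := fun y hy =>
    ⟨mem_biUnion.2 ⟨y, hχ y hy, self_mem_ball _ _⟩,
      fun s => mem_biUnion.2 ⟨y, hχ y hy, mem_ball.2 (by simp)⟩⟩
  have hf : ∀ y, et (1 / (4 * K) / l) x y * χ y ≠ 0 → y ∈ U := fun y hy =>
    hχ y (right_ne_zero_of_mul hy)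
  have hQ' : Sup (fun y => et (1 / (4 * K) / l) x y * χ y) (U.biUnion fun y => ball y 1) :=
    fun y hy => hQ y (right_ne_zero_of_mul hy)
  have m16 := hs.m16
  have lm : lam * m ≤ 1 := (lam_r hs m16).trans (by norm_num)
  have en := energy hE hK hs x
    (T := δ * (l : ℝ) ^ (D + 1) * exp (2 * lam * L)) (by have := G.d0; positivity) hQ
    ((hH ω R m h δ rep w G lam _ _ lam0 lm (fun y hy => by
      have := (hU y (hf y hy)).2.1
      have := G.hm
      have := hs.l16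
      omega) hQ').2.2 fun y hy => (hU y (hf y hy)).1)
    (hM ω R m h δ rep w G l lam hs _ _ x L (fun y hy => hU y (hf y hy)) hQ')
    fun y hy => e1 y (hχ y hy)
  have ls := (loc_sum (ω := ω) hs G.h1 r16 x1 x hQ).trans en
  have hX : ∑ y ∈ wb' ω h x r, χ y ^ 2 ≤ 144 * K * C ^ 2 * δ * (l : ℝ) ^ (D + 1 + 2) * v ^ 2 := by
    have a : exp (2 * lam * L) = exp (2 * lam * (x 0 : ℝ)) * v ^ 2 := by
      rw [hv, ← Real.exp_nat_mul, ← exp_add]
      congr 1
      push_cast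
      ring
    rw [a] at ls
    refine le_of_mul_le_mul_left (ls.trans_eq ?_)
      (by positivity : 0 < exp (2 * lam * (x 0 : ℝ)) / 9)
    ring
  have rt := root (by positivity) (by positivity : 0 < ε / (4 * C')) v0.le G.d0 r1 (by omega) rl
    hδ hX
  have hb : ∀ y ∈ wb' ω h x (r + 1), |χ y| ≤ 2 * |χ x| := fun y hy => by
    refine (hS y).trans ?_
    have a := abs_le.1 (lev_le (mem_wb'.1 hy).1)
    have b : exp (lam * (L - y 0 : ℤ)) ≤ exp (1 / 2) * v := by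
      rw [hv, ← exp_add, exp_le_exp]
      push_cast at a ⊢
      nlinarith [hs.le_quarter]
    have c : exp (1 / 2) ≤ 2 := by
      have c1 : exp (1 / 2) ^ 2 = exp 1 := by
        rw [← Real.exp_nat_mul]
        norm_num
      nlinarith [Real.exp_one_lt_three, exp_pos (1 / 2)]
    calc _ ≤ |χ x| / v * (2 * v) := by
          refine mul_le_mul_of_nonneg_left (b.trans ?_) (by positivity)
          exact mul_le_mul_of_nonneg_right c v0.le
      _ = _ := by field_simp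
  have hd : |d0 D lam| ≤ lam := by
    obtain ⟨a, b⟩ := (hD D).2.1 lam lam0.le
    rwa [abs_of_nonneg a]
  have key : ∀ σ : ℝ, |σ| = 1 → σ * χ x ≤ (r + 1) + (r : ℝ) ^ 2 * lam + 2 * |χ x| / 8 +
      C' * √((∑ y ∈ wb' ω h x r, χ y ^ 2) / (r : ℝ) ^ (D + 1)) := fun σ hσ =>
    mvs G.h1 (by linarith) (by positivity) lam0.le hd
      (fun u a b => hV ω R m h δ rep w G lam x r u lam _ lam0.le lam1 (by linarith) (by omega) xw
        rM lam0.le (by positivity) a b) e1 e2 hb hσ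
  have k1 : |χ x| ≤ (r + 1) + (r : ℝ) ^ 2 * lam + 2 * |χ x| / 8 +
      C' * √((∑ y ∈ wb' ω h x r, χ y ^ 2) / (r : ℝ) ^ (D + 1)) := by
    refine abs_le.2 ⟨?_, ?_⟩
    · have := key (-1) (by simp)
      linarith
    · have := key 1 (by simp)
      linarith
  have k2 : C' * √((∑ y ∈ wb' ω h x r, χ y ^ 2) / (r : ℝ) ^ (D + 1)) ≤ ε / 4 * l * v := by
    refine (mul_le_mul_of_nonneg_left rt (by linarith)).trans_eq ?_
    field_simp
  have r1' : (1 : ℝ) ≤ r := by exact_mod_cast r1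
  have rE' : (r : ℝ) * E ≤ l := by exact_mod_cast rE
  have k3 : (r : ℝ) ^ 2 * lam ≤ r := by nlinarith
  have k4 : 12 * (r : ℝ) ≤ ε * l := by nlinarith
  have k5 : ε * l ≤ ε * l * v := le_mul_of_one_le_right (by positivity) v1
  nlinarith [abs_nonneg (χ x)]

end Pool.Agent.MP_8c549f_pr.L2

end
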