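import Pool.Agent.MP_8c549f_pr.L2.SpecB

/-! PROJECT L2: chains of legs. -/

noncomputable section

namespace Pool.Agent.MP_8c549f_pr.L2

open MeasureTheory Finset Real Classical S3
open scoped ENNReal

namespace ChnS

variable {D L N : ℕ}

theorem shape (n : ℕ) : ∀ l ∈ Chn D L N n,
    Rec l ∧ lev l = (n * L : ℕ) ∧ l.length ≤ n * N ∧ ∀ i, -(N : ℤ) ≤ H l i := by
  induction n with
  | zero =>
    intro l hl
    obtain rfl : l = [] := mem_singleton.1 hl
    refine ⟨fun i hi => absurd hi (Nat.not_lt_zero i), by simp [lev, pos], by simp, fun i => ?_⟩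
    simp [H, loc, pos]
  | succ n ih =>
    intro l hl
    obtain ⟨⟨u, v⟩, hq, rfl⟩ := mem_image.1 hl
    obtain ⟨hu, hv⟩ := mem_product.1 hq
    obtain ⟨u1, u2, u3⟩ := mem_Lg.1 hu
    obtain ⟨v1, v2, v3, v4⟩ := ih v hv
    dsimp only at u1 u2 u3 ⊢
    refine ⟨fun i hi => ?_, ?_, ?_, fun i => ?_⟩
    · rw [lev_append]
      by_cases c : i < u.length
      · rw [H_append_left v c.le]
        have := u2 i c
        omega
      · obtain ⟨j, rfl⟩ := Nat.exists_eq_add_of_le (not_lt.1 c)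
        rw [H_append_right]
        have := v1 j (by simpa using hi)
        omega
    · rw [lev_append, u3, v2]
      push_cast
      ring
    · rw [List.length_append, Nat.add_mul, one_mul]
      omega
    · by_cases c : i ≤ u.length
      · rw [H_append_left v c]
        have := abs_loc_le u 0 i
        unfold H
        omega
      · obtain ⟨j, rfl⟩ := Nat.exists_eq_add_of_le (not_le.1 c).le
        rw [H_append_right]
        have := v4 j
        omega

theorem sum_succ (n : ℕ) (f : List (Step D) → ℝ) :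
    ∑ l ∈ Chn D L N (n + 1), f l = ∑ u ∈ Lg D L N, ∑ v ∈ Chn D L N n, f (u ++ v) := by
  rw [Chn, sum_image, sum_product]
  rintro ⟨u, v⟩ hq ⟨u', v'⟩ hq' e
  have hu : u ∈ Lg D L N := (mem_product.1 (mem_coe.1 hq)).1
  have hu' : u' ∈ Lg D L N := (mem_product.1 (mem_coe.1 hq')).1
  have e' : u ++ v = u' ++ v' := e
  obtain rfl : u = u' := by
    rcases List.prefix_or_prefix_of_prefix (List.prefix_append u v)
      (e' ▸ List.prefix_append u' v') with h | h
    · exact antich_Lg L N u hu u' hu' h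
    · exact (antich_Lg L N u' hu' u hu h).symm
  rw [List.append_cancel_left e']

variable {lam : ℝ}

theorem wr_app (ω : Cfg D) (u v : List (Step D)) :
    wr lam ω 0 (u ++ v) = wr lam ω 0 u * wr lam (shift (pos u) ω) 0 v := by
  rw [wr_append, wr_shift]

theorem mass_succ (n : ℕ) (ω : Cfg D) : ∑ l ∈ Chn D L N (n + 1), wr lam ω 0 l =
    ∑ u ∈ Lg D L N, wr lam ω 0 u * ∑ v ∈ Chn D L N n, wr lam (shift (pos u) ω) 0 v := by
  simp only [sum_succ, wr_app, mul_sum]

theorem time_succ (n : ℕ) (ω : Cfg D) : ∑ l ∈ Chn D L N (n + 1), wr lam ω 0 l * l.length =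
    ∑ u ∈ Lg D L N, wr lam ω 0 u * (u.length * ∑ v ∈ Chn D L N n, wr lam (shift (pos u) ω) 0 v +
      ∑ v ∈ Chn D L N n, wr lam (shift (pos u) ω) 0 v * v.length) := by
  rw [sum_succ]
  refine sum_congr rfl fun u _ => ?_
  rw [mul_sum, ← sum_add_distrib, mul_sum]
  refine sum_congr rfl fun v _ => ?_
  rw [wr_app, List.length_append]
  push_cast
  ring

theorem Vn_succ (n : ℕ) (ω : Cfg D) : Vn lam L N (n + 1) ω =
    ∑ u ∈ Lg D L N, wr lam ω 0 u * (u.length + Vn lam L N n (shift (pos u) ω)) := by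
  simp only [Vn, tt, Kk, mul_add, sum_add_distrib]

theorem bounds (n : ℕ) : ∀ ω : Cfg D, ∑ l ∈ Chn D L N n, wr lam ω 0 l ≤ 1 ∧
    ∑ l ∈ Chn D L N n, wr lam ω 0 l * l.length ≤ Vn lam L N n ω ∧
    Vn lam L N n ω ≤ ∑ l ∈ Chn D L N n, wr lam ω 0 l * l.length +
      n * N * (1 - ∑ l ∈ Chn D L N n, wr lam ω 0 l) := by
  induction n with
  | zero => intro ω; simp [Chn, Vn]
  | succ n ih =>
    intro ω
    have hm : ∑ u ∈ Lg D L N, wr lam ω 0 u ≤ 1 := ms_le_one L N
    rw [mass_succ, time_succ, Vn_succ]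
    refine ⟨le_trans (sum_le_sum fun u _ => ?_) hm, sum_le_sum fun u _ => ?_, ?_⟩
    · exact mul_le_of_le_one_right (wr_nonneg u 0) (ih _).1
    · refine mul_le_mul_of_nonneg_left (add_le_add ?_ (ih _).2.1) (wr_nonneg u 0)
      exact mul_le_of_le_one_right (Nat.cast_nonneg _) (ih _).1
    · have hN : (0 : ℝ) ≤ ((n + 1 : ℕ) : ℝ) * N := by positivity
      refine le_trans ?_ (add_le_add le_rfl (mul_le_mul_of_nonneg_left (sub_le_sub_right hm _) hN))
      rw [← sum_sub_distrib, mul_sum, ← sum_add_distrib]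
      refine sum_le_sum fun u hu => ?_
      obtain ⟨h1, -, h3⟩ := ih (shift (pos u) ω)
      have h4 : (u.length : ℝ) ≤ N := by exact_mod_cast (mem_Lg.1 hu).1
      have h5 := mul_le_mul_of_nonneg_right h4 (sub_nonneg.2 h1)
      have h6 := mul_le_mul_of_nonneg_left (add_le_add h5 h3) (wr_nonneg (lam := lam) (ω := ω) u 0)
      push_cast
      linarith

theorem lower {G : ℕ → Cfg D → Prop} {τ : ℝ} (h : Inh lam L N G τ) (n : ℕ) :
    ∀ ω, G n ω → 1 - n * τ ≤ ∑ l ∈ Chn D L N n, wr lam ω 0 l := by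
  induction n with
  | zero => intro ω _; simp [Chn]
  | succ n ih =>
    intro ω hω
    have h1 : ∑ u ∈ Lg D L N, wr lam ω 0 u * (1 - n * τ) ≤
        ∑ l ∈ Chn D L N (n + 1), wr lam ω 0 l := by
      rw [mass_succ]
      refine sum_le_sum fun u hu => ?_
      by_cases c : wr lam ω 0 u = 0
      · simp [c]
      · exact mul_le_mul_of_nonneg_left (ih _ (h.inh n ω hω u hu c)) (wr_nonneg u 0)
    rw [← sum_mul] at h1
    have h2 : 1 - τ ≤ ∑ u ∈ Lg D L N, wr lam ω 0 u := h.mass n ω hω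
    have h3 : ∑ u ∈ Lg D L N, wr lam ω 0 u ≤ 1 := ms_le_one L N
    have h4 : (0 : ℝ) ≤ n * τ := mul_nonneg (Nat.cast_nonneg n) h.pos
    have h5 := mul_le_mul_of_nonneg_right h3 h4
    push_cast
    linarith

end ChnS

theorem chnS : CHNStmt := fun _ _ _ =>
  ⟨ChnS.shape, fun _ => ⟨ChnS.bounds, fun _ _ h => ChnS.lower h⟩⟩

end Pool.Agent.MP_8c549f_pr.L2

end
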