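import Pool.Agent.MP_8c549f_pr.L2.Basic

noncomputable section

namespace Pool.Agent.MP_8c549f_pr.L2

open MeasureTheory Finset Real Classical S3

namespace Cnt

variable {D : ℕ}

theorem blocks {m : ℕ} {δ : ℝ} {w : V D → ℝ} (hS : Seg w m δ) (z : V D) (i : Fin (D + 1))
    (q : ℕ) : ∑ k ∈ range (q * m), (w (z + Pi.single i (k : ℤ)) - 1) ≤ q * (δ * m) := by
  induction q with
  | zero => simp
  | succ q ih =>
    rw [Nat.succ_mul, sum_range_add]
    have h := hS (z + Pi.single i ((q * m : ℕ) : ℤ)) i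
    have e : ∀ k : ℕ, z + Pi.single i ((q * m + k : ℕ) : ℤ) =
        z + Pi.single i ((q * m : ℕ) : ℤ) + Pi.single i (k : ℤ) := by
      intro k
      rw [Nat.cast_add, Pi.single_add, add_assoc]
    simp only [e]
    push_cast at h ih ⊢
    linarith

theorem line {m : ℕ} {δ : ℝ} {w : V D → ℝ} (hm : 1 ≤ m) (hδ : 0 ≤ δ) (hw : ∀ z, 1 ≤ w z)
    (hS : Seg w m δ) (z : V D) (i : Fin (D + 1)) (r : ℕ) (hr : m ≤ r) :
    ∑ k ∈ range r, (w (z + Pi.single i (k : ℤ)) - 1) ≤ 2 * δ * r := by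
  have h1 : r ≤ (r / m + 1) * m := by
    rw [mul_comm]
    exact (Nat.lt_mul_div_succ r hm).le
  have h2 : (r / m + 1) * m ≤ 2 * r := by
    have := Nat.div_mul_le_self r m
    rw [Nat.succ_mul]
    omega
  have h3 : (((r / m + 1 : ℕ) : ℝ)) * m ≤ 2 * r := by exact_mod_cast h2
  calc _ ≤ ∑ k ∈ range ((r / m + 1) * m), (w (z + Pi.single i (k : ℤ)) - 1) :=
        sum_le_sum_of_subset_of_nonneg (range_mono h1) fun k _ _ => sub_nonneg.2 (hw _)
    _ ≤ ((r / m + 1 : ℕ) : ℝ) * (δ * m) := blocks hS z i _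
    _ ≤ 2 * δ * r := by nlinarith [mul_le_mul_of_nonneg_left h3 hδ]

theorem sum_box (a : V D) (r : Fin (D + 1) → ℕ) (f : V D → ℝ) :
    ∑ z ∈ box a r, f z =
      ∑ t ∈ Fintype.piFinset (fun j : Fin D => Ico (a j.succ) (a j.succ + r j.succ)),
        ∑ k ∈ range (r 0), f ((Fin.cons (a 0) t : V D) + Pi.single 0 (k : ℤ)) := by
  rw [← sum_product']
  have key : ∀ z ∈ box a r,
      (Fin.cons (a 0) (Fin.tail z) : V D) + Pi.single 0 (((z 0 - a 0).toNat : ℕ) : ℤ) = z := by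
    intro z hz
    have h0 := mem_Ico.1 (Fintype.mem_piFinset.1 hz 0)
    funext j
    refine Fin.cases ?_ (fun j => ?_) j
    · simp only [Pi.add_apply, Fin.cons_zero, Pi.single_eq_same]
      omega
    · simp [Fin.tail]
  refine sum_nbij' (fun z => (Fin.tail z, (z 0 - a 0).toNat))
    (fun p => (Fin.cons (a 0) p.1 : V D) + Pi.single 0 (p.2 : ℤ)) ?_ ?_ key ?_ ?_
  · intro z hz
    have h := Fintype.mem_piFinset.1 hz
    have h0 := mem_Ico.1 (h 0)
    refine mem_product.2 ⟨Fintype.mem_piFinset.2 fun j => h j.succ, mem_range.2 ?_⟩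
    show (z 0 - a 0).toNat < r 0
    omega
  · rintro ⟨t, k⟩ hp
    obtain ⟨h1, h2⟩ := mem_product.1 hp
    have h3 : k < r 0 := mem_range.1 h2
    refine Fintype.mem_piFinset.2 fun j => ?_
    refine Fin.cases ?_ (fun j => ?_) j
    · simp only [Pi.add_apply, Fin.cons_zero, Pi.single_eq_same, mem_Ico]
      omega
    · simpa using Fintype.mem_piFinset.1 h1 j
  · rintro ⟨t, k⟩ _
    refine Prod.ext ?_ ?_
    · funext j
      simp [Fin.tail]
    · simp
  · intro z hz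
    rw [key z hz]

end Cnt

theorem cnt : CNTStmt := by
  intro D m δ w hm hδ hw hS
  refine ⟨Cnt.line hm hδ hw hS, fun a r hr => ?_⟩
  have h1 := Cnt.sum_box a r fun _ => 1
  rw [sum_const, nsmul_eq_mul, mul_one] at h1
  rw [h1, Cnt.sum_box a r fun z => w z - 1, mul_sum]
  refine sum_le_sum fun t _ => ?_
  rw [sum_const, card_range, nsmul_eq_mul, mul_one]
  exact Cnt.line hm hδ hw hS _ 0 _ hr

end Pool.Agent.MP_8c549f_pr.L2

end
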