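import Pool.Agent.MP_8c549f_pr.L2.SpecB

noncomputable section

namespace Pool.Agent.MP_8c549f_pr.L2

open MeasureTheory Finset Real Classical S3

theorem cpl : CPLStmt := by
  intro ι T a₁ a₂ u₁ u₂ b₁ b₂ A B U τ c h hU hτ hA hAB h1 h2 h3 hc hd ho
  have hB : 0 ≤ B := hA.trans hAB
  obtain ⟨g, hg0, hgU, hg1, hg2⟩ : ∃ g : ℝ, 0 ≤ g ∧ g ≤ U ∧ (∀ i ∈ T, u₁ i - b₁ i ≤ g) ∧
      ∀ k ∈ T, g - B ≤ u₂ k + b₂ k := by
    rcases T.eq_empty_or_nonempty with rfl | hT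
    · exact ⟨0, le_rfl, hU, by simp, by simp⟩
    · obtain ⟨j, hj, hm⟩ := T.exists_max_image (fun i => u₁ i - b₁ i) hT
      refine ⟨max (u₁ j - b₁ j) 0, le_max_right _ _, max_le ?_ hU,
        fun i hi => (hm i hi).trans (le_max_left _ _), fun k hk => ?_⟩
      · have := h j
        linarith [this.2.2.1, this.2.2.2.2.1]
      · have e1 := ho j hj k hk
        have e2 := h k
        have : max (u₁ j - b₁ j) 0 ≤ u₂ k + b₂ k + B :=
          max_le (by linarith) (by linarith [e2.2.2.2.1, e2.2.2.2.2.2])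
        linarith
  have key : ∀ i ∈ T, a₁ i * u₁ i - a₂ i * u₂ i ≤
      min (a₁ i) (a₂ i) * A + (a₁ i - min (a₁ i) (a₂ i)) * g -
        (a₂ i - min (a₁ i) (a₂ i)) * (g - B) + a₁ i * b₁ i + a₂ i * b₂ i := by
    intro i hi
    have e := h i
    have m0 : 0 ≤ min (a₁ i) (a₂ i) := le_min e.1 e.2.1
    have m1 : 0 ≤ a₁ i - min (a₁ i) (a₂ i) := sub_nonneg.2 (min_le_left _ _)
    have m2 : 0 ≤ a₂ i - min (a₁ i) (a₂ i) := sub_nonneg.2 (min_le_right _ _)
    have k1 := mul_le_mul_of_nonneg_left (hg1 i hi) m1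
    have k2 := mul_le_mul_of_nonneg_left (hg2 i hi) m2
    have k3 : min (a₁ i) (a₂ i) * (u₁ i - u₂ i - b₁ i - b₂ i) ≤ min (a₁ i) (a₂ i) * A := by
      by_cases z1 : a₁ i = 0
      · have : min (a₁ i) (a₂ i) = 0 := by rw [z1]; exact min_eq_left e.2.1
        simp [this]
      by_cases z2 : a₂ i = 0
      · have : min (a₁ i) (a₂ i) = 0 := by rw [z2]; exact min_eq_right e.1
        simp [this]
      exact mul_le_mul_of_nonneg_left (by linarith [hd i hi z1 z2]) m0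
    nlinarith [k1, k2, k3]
  have hs := Finset.sum_le_sum key
  simp only [Finset.sum_sub_distrib, Finset.sum_add_distrib, ← Finset.sum_mul] at hs
  set M := ∑ i ∈ T, min (a₁ i) (a₂ i) with hM
  set S₁ := ∑ i ∈ T, a₁ i
  set S₂ := ∑ i ∈ T, a₂ i
  have p1 : (S₁ - S₂) * g ≤ τ * g := mul_le_mul_of_nonneg_right (by linarith) hg0
  have p2 : τ * g ≤ τ * U := mul_le_mul_of_nonneg_left hgU hτ
  have p3 : S₂ * B ≤ 1 * B := mul_le_mul_of_nonneg_right h2 hB
  have p4 : c * (B - A) ≤ M * (B - A) := mul_le_mul_of_nonneg_right hc (by linarith)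
  nlinarith [p1, p2, p3, p4, hs]

end Pool.Agent.MP_8c549f_pr.L2
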