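import Mathlib.Analysis.SpecialFunctions.Trigonometric.DerivHyp
import Pool.Agent.MP_8c549f_pr.L2.Basic

/-! PROJECT L2: the drift of the full lattice. -/

noncomputable section

namespace Pool.Agent.MP_8c549f_pr.L2

open MeasureTheory Finset Real Classical S3

namespace D0

theorem sinh_le {x : ℝ} (hx : 0 ≤ x) : sinh x ≤ x * cosh x := by
  have hd : ∀ t : ℝ, HasDerivAt (fun t => t * cosh t - sinh t) (t * sinh t) t := fun t => by
    have := ((hasDerivAt_id' t).fun_mul (hasDerivAt_cosh t)).fun_sub (hasDerivAt_sinh t)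
    exact this.congr_deriv (by ring)
  have hm : MonotoneOn (fun t => t * cosh t - sinh t) (Set.Ici 0) :=
    monotoneOn_of_deriv_nonneg (convex_Ici 0)
      (fun t _ => (hd t).continuousAt.continuousWithinAt)
      (fun t _ => (hd t).differentiableAt.differentiableWithinAt) fun t ht => by
        rw [(hd t).deriv]
        have h0 : 0 ≤ t := interior_subset ht
        exact mul_nonneg h0 (sinh_nonneg_iff.2 h0)
  have := hm (Set.mem_Ici.2 le_rfl) (Set.mem_Ici.2 hx) hx
  simp only [zero_mul, sinh_zero, sub_zero] at this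
  linarith

theorem drift {D : ℕ} {x y : ℝ} (hx : 0 ≤ x) (hxy : x ≤ y) (hy : y ≤ 1) :
    (y - x) / (8 * (D + 1)) ≤
    (exp y - exp (-y)) / Zf D y - (exp x - exp (-x)) / Zf D x := by
  have zx := Zf_pos D x
  have zy := Zf_pos D y
  have bx : Zf D x ≤ 2 * D + 4 := Zf_le hx (hxy.trans hy)
  have by' : Zf D y ≤ 2 * D + 4 := Zf_le (hx.trans hxy) hy
  have hD : (0 : ℝ) ≤ D := Nat.cast_nonneg D
  have h1 : sinh x - x ≤ sinh y - y := sinh_sub_id_strictMono.monotone hxy
  have h2 : y - x ≤ sinh (y - x) := self_le_sinh_iff.2 (sub_nonneg.2 hxy)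
  rw [sinh_eq, sinh_eq] at h1
  rw [sinh_eq, neg_sub, sub_eq_add_neg y, sub_eq_add_neg x, exp_add, exp_add] at h2
  have h3 : (4 + 4 * D) * (y - x) ≤
      (exp y - exp (-y)) * Zf D x - Zf D y * (exp x - exp (-x)) := by
    unfold Zf
    nlinarith [mul_le_mul_of_nonneg_left h1 hD]
  rw [div_sub_div _ _ zy.ne' zx.ne', div_le_div_iff₀ (by positivity) (mul_pos zy zx)]
  have h4 : Zf D y * Zf D x ≤ (4 + 4 * D) * (8 * (D + 1)) :=
    (mul_le_mul by' bx zx.le (by positivity)).trans (by nlinarith)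
  calc (y - x) * (Zf D y * Zf D x) ≤ (y - x) * ((4 + 4 * D) * (8 * (D + 1))) :=
        mul_le_mul_of_nonneg_left h4 (sub_nonneg.2 hxy)
    _ = (4 + 4 * D) * (y - x) * (8 * (D + 1)) := by ring
    _ ≤ _ := mul_le_mul_of_nonneg_right h3 (by positivity)

end D0

theorem d0S : D0Stmt := by
  intro D
  refine ⟨by simp [d0], fun x hx => ⟨?_, ?_⟩, fun x y hx hxy hy => D0.drift hx hxy hy⟩
  · exact div_nonneg (sub_nonneg.2 (exp_le_exp.2 (by linarith))) (Zf_pos D x).le
  · have h := D0.sinh_le hx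
    have hD : (0 : ℝ) ≤ D := Nat.cast_nonneg D
    rw [sinh_eq, cosh_eq] at h
    rw [d0, div_le_iff₀ (Zf_pos D x), Zf]
    nlinarith [mul_nonneg hx hD]

end Pool.Agent.MP_8c549f_pr.L2

end
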