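import Mathlib.Data.Set.Finite.List
import Pool.Agent.MP_8c549f_pr.S3.BasicB

/-! PROJECT L2 (small bias in every dimension): definitions. -/

noncomputable section

namespace Pool.Agent.MP_8c549f_pr.L2

open MeasureTheory Finset Real Classical S3
open scoped ENNReal

variable {D : ℕ}

/-! ### operators -/

/-- one step of the walk, acting on functions -/
def Pf (lam : ℝ) (ω : Cfg D) (f : V D → ℝ) (x : V D) : ℝ := ∑ s, pr lam ω x s * f (x + vec s)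

/-- one step from a site of `U` -/
def Pu (lam : ℝ) (ω : Cfg D) (U : Set (V D)) (f : V D → ℝ) : V D → ℝ := U.indicator (Pf lam ω f)

/-- `k` steps, all started from sites of `U` -/
def Pk (lam : ℝ) (ω : Cfg D) (U : Set (V D)) (k : ℕ) (f : V D → ℝ) : V D → ℝ := (Pu lam ω U)^[k] f

/-- Green sum over the times `k < n` -/
def Gs (lam : ℝ) (ω : Cfg D) (U : Set (V D)) (n : ℕ) (f : V D → ℝ) (x : V D) : ℝ :=
  ∑ k ∈ range n, Pk lam ω U k f x

/-- indicator function of a set -/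
def chi (A : Set (V D)) : V D → ℝ := A.indicator fun _ => 1

/-- conductance of the edge crossed by `s` from `x` -/
def cnd (lam : ℝ) (ω : Cfg D) (x : V D) (s : Step D) : ℝ :=
  if ω (edge x s) = true then exp (lam * (expo x s : ℝ)) else 0

/-- `Q` contains the support of `g` and its neighbours -/
def Sup (g : V D → ℝ) (Q : Finset (V D)) : Prop := ∀ x, g x ≠ 0 → x ∈ Q ∧ ∀ s, x + vec s ∈ Q

/-- local drift -/
def dr (lam : ℝ) (ω : Cfg D) (x : V D) : ℝ := ∑ s, pr lam ω x s * (vec s 0 : ℝ)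

/-- drift of the full lattice -/
def d0 (D : ℕ) (lam : ℝ) : ℝ := (exp lam - exp (-lam)) / Zf D lam

/-- localising weight -/
def et (ξ : ℝ) (x y : V D) : ℝ := exp (-(ξ * (nrm (y - x) : ℝ)))

/-- comparison function -/
def wf (lam : ℝ) (ψ : V D → ℝ) (y : V D) : ℝ := exp (-(lam * (y 0 : ℝ)) + ψ y)

/-- probability to leave the ball within `n` steps -/
def exq (lam : ℝ) (ω : Cfg D) (x : V D) (r n : ℕ) : V D → ℝ :=
  Gs lam ω (ball x r) (n + 1) (chi (ball x r : Set (V D))ᶜ)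

/-- the wide sites of a ball -/
def wb' (ω : Cfg D) (h : ℕ) (x : V D) (r : ℕ) : Finset (V D) := (ball x r).filter fun y => Wide ω y h

def box (a : V D) (r : Fin (D + 1) → ℕ) : Finset (V D) :=
  Fintype.piFinset fun j => Ico (a j) (a j + r j)

/-- levels within `k` of `x 0`, other coordinates within `K + k` -/
def bx (x : V D) (k K : ℕ) : Finset (V D) := Fintype.piFinset fun j =>
  if j = 0 then Icc (x j - k) (x j + k) else Icc (x j - (K + k : ℕ)) (x j + (K + k : ℕ))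

/-! ### geometry -/

/-- sums of `w - 1` over the segments of length `m` -/
def Seg (w : V D → ℝ) (m : ℕ) (δ : ℝ) : Prop :=
  ∀ (z : V D) (i : Fin (D + 1)), ∑ k ∈ range m, (w (z + Pi.single i (k : ℤ)) - 1) ≤ δ * m

/-- what the analysis uses of a good configuration in the ball of radius `R` -/
structure Geo (ω : Cfg D) (R m h : ℕ) (δ : ℝ) (rep : V D → V D) (w : V D → ℝ) : Prop where
  h1 : 1 ≤ h
  hm : h ≤ m
  d0 : 0 ≤ δ
  d1 : δ ≤ 1 / 4
  w1 : ∀ z, 1 ≤ w z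
  lev : ∀ z, rep z 0 = z 0
  near : ∀ z, nrm (rep z - z) ≤ h
  wide : ∀ z, nrm z ≤ R → Wide ω (rep z) h
  fix : ∀ z, Wide ω z h → rep z = z
  nml : ∀ z, nrm z ≤ R → w z < 2 → Wide ω z h ∧ ∀ s, ω (edge z s) = true
  seg : Seg w m δ
  cmp : ∀ lam : ℝ, 0 ≤ lam → lam ≤ 1 → ∀ (Q Q' : Finset (V D)) (f : V D → ℝ),
    (∀ z ∈ Q, nrm z ≤ R ∧ ball z (5 * h) ⊆ Q') →
    ∑ z ∈ Q, ∑ i, exp (2 * lam * (z 0 : ℝ)) *
      (f (rep (z + Pi.single i 1)) - f (rep z)) ^ 2 / w z ≤ (D + 2) * En lam ω Q' f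

/-- the scale `l` of the bias `lam` -/
structure Sc (l m : ℕ) (lam : ℝ) : Prop where
  l16 : 16 ≤ l
  m8 : m ^ 8 ≤ l
  lo : 1 / (l : ℝ) ≤ lam
  hi : lam ≤ 4 / (l : ℝ)

/-- the weight of a site -/
def wz (A h : ℕ) (ω : Cfg D) (z : V D) : ℝ :=
  1 + ∑ t ∈ Ico 1 h, (A : ℝ) ^ (t + 1) * S3.ind (¬ Gd ω z (20 * t) t)

def Nice (A m h : ℕ) (δ : ℝ) (R : ℕ) (ω : Cfg D) : Prop :=
  Gd ω 0 (R + 40 * h) h ∧ ∀ (z : V D) (i : Fin (D + 1)), nrm z ≤ R + m →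
    ∑ k ∈ range m, (wz A h ω (z + Pi.single i (k : ℤ)) - 1) ≤ δ * m

def mm (l : ℕ) : ℕ := l.sqrt.sqrt.sqrt

def hA (A l : ℕ) : ℕ := Nat.log (2 * A) (mm l) / 4

/-! ### legs -/

/-- real weight of a list of steps -/
def wr (lam : ℝ) (ω : Cfg D) : V D → List (Step D) → ℝ
  | _, [] => 1
  | x, s :: l => pr lam ω x s * wr lam ω (x + vec s) l

/-- the martingale part of the level -/
def Mg (lam : ℝ) (ω : Cfg D) : V D → List (Step D) → ℝ
  | _, [] => 0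
  | x, s :: l => ((vec s 0 : ℝ) - dr lam ω x) + Mg lam ω (x + vec s) l

/-- first passages to the level `L` within `N` steps -/
def Lg (D L N : ℕ) : Finset (List (Step D)) :=
  (List.finite_length_le (Step D) N).toFinset.filter fun l => Rec l ∧ lev l = L

def ms (lam : ℝ) (L N : ℕ) (ω : Cfg D) : ℝ := ∑ l ∈ Lg D L N, wr lam ω 0 l

def tt (lam : ℝ) (L N : ℕ) (ω : Cfg D) : ℝ := ∑ l ∈ Lg D L N, wr lam ω 0 l * l.length

def t2 (lam : ℝ) (L N : ℕ) (ω : Cfg D) : ℝ := ∑ l ∈ Lg D L N, wr lam ω 0 l * (l.length : ℝ) ^ 2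

/-- legs that go down to the level `- k` -/
def bt (lam : ℝ) (L N k : ℕ) (ω : Cfg D) : ℝ :=
  ∑ l ∈ (Lg D L N).filter fun l => ∃ i < l.length, H l i ≤ -(k : ℤ), wr lam ω 0 l

/-- law of the end point of a leg -/
def hl (lam : ℝ) (L N : ℕ) (ω : Cfg D) (y : V D) : ℝ :=
  ∑ l ∈ (Lg D L N).filter fun l => pos l = y, wr lam ω 0 l

def ovl (lam : ℝ) (L N : ℕ) (ω ω' : Cfg D) : ℝ :=
  ∑ y ∈ ball 0 N, min (hl lam L N ω y) (hl lam L N ω' y)

/-- agreement on the edges whose lower end has level at least `- k` -/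
def Agr (k : ℕ) (ω ω' : Cfg D) : Prop := ∀ e : Edge D, -(k : ℤ) ≤ e.1 0 → ω e = ω' e

/-! ### the annealed chain of legs -/

/-- `η` on `S`, `ω` elsewhere -/
def ovw (S : Set (Edge D)) (η ω : Cfg D) : Cfg D := fun e => if e ∈ S then η e else ω e

def Past (D : ℕ) : Set (Edge D) := {e | e.1 0 ≤ -1}

/-- average over the edges that are not in the past -/
def Fr (p : ℝ) (u : Cfg D → ℝ) (η : Cfg D) : ℝ := ∫ ω, u (ovw (Past D) η ω) ∂perc D p

def Kk (lam : ℝ) (L N : ℕ) (u : Cfg D → ℝ) (ω : Cfg D) : ℝ :=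
  ∑ l ∈ Lg D L N, wr lam ω 0 l * u (shift (pos l) ω)

/-- expected duration of `n` legs -/
def Vn (lam : ℝ) (L N : ℕ) : ℕ → Cfg D → ℝ
  | 0 => fun _ => 0
  | n + 1 => fun ω => tt lam L N ω + Kk lam L N (Vn lam L N n) ω

/-- bounded and measurable -/
def BM (u : Cfg D → ℝ) : Prop := Measurable u ∧ ∃ C : ℝ, ∀ ω, |u ω| ≤ C

def bad (p : ℝ) (G : Cfg D → Prop) : Cfg D → ℝ := Fr p fun ω => S3.ind (¬ G ω)

/-- agreement of two pasts down to the level `- k` -/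
def AgrP (k : ℕ) (η η' : Cfg D) : Prop := ∀ e : Edge D, -(k : ℤ) ≤ e.1 0 → e.1 0 ≤ -1 → η e = η' e

/-- good configurations are inherited along legs, and legs end -/
structure Inh (lam : ℝ) (L N : ℕ) (G : ℕ → Cfg D → Prop) (τ : ℝ) : Prop where
  meas : ∀ n, MeasurableSet {ω | G n ω}
  inh : ∀ n ω, G (n + 1) ω → ∀ l ∈ Lg D L N, wr lam ω 0 l ≠ 0 → G n (shift (pos l) ω)
  mass : ∀ n ω, G (n + 1) ω → 1 - τ ≤ ms lam L N ω
  pos : 0 ≤ τ

structure Mix (lam : ℝ) (L N : ℕ) (G : ℕ → Cfg D → Prop) (τ c y : ℝ) : Prop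
    extends Inh lam L N G τ where
  c0 : 0 < c
  c1 : c ≤ 1
  y0 : 0 ≤ y
  tim : ∀ n j ω ω', G (n + 1) ω → G (n + 1) ω' → Agr (j * L) ω ω' →
    |tt lam L N ω - tt lam L N ω'| ≤ y / 2 ^ j
  ov0 : ∀ n ω ω', G (n + 1) ω → G (n + 1) ω' → Agr 0 ω ω' → c ≤ ovl lam L N ω ω'
  ov1 : ∀ n j ω ω', 1 ≤ j → G (n + 1) ω → G (n + 1) ω' → Agr (j * L) ω ω' →
    1 - τ - 1 / (8 * 2 ^ j) ≤ ovl lam L N ω ω'

/-- chains of `n` legs -/
def Chn (D L N : ℕ) : ℕ → Finset (List (Step D))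
  | 0 => {[]}
  | n + 1 => (Lg D L N ×ˢ Chn D L N n).image fun q => q.1 ++ q.2

/-- the good events -/
def Gn (A m h : ℕ) (δ : ℝ) (N n : ℕ) (ω : Cfg D) : Prop :=
  Nice A m h δ ((n + 2) * N) ω ∧ Wide ω 0 h

/-! ### regeneration -/

/-- first passages to the level `m` that never go below the start -/
def FPS (D m : ℕ) : Set (List (Step D)) := {l | Stay l ∧ Rec l ∧ lev l = m}

def QQ (D : ℕ) (p lam : ℝ) (m : ℕ) : ℝ≥0∞ := SS (FPS D m) (wb true p lam)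

def XX (D : ℕ) (p lam : ℝ) (m : ℕ) : ℝ≥0∞ := SS (FPS D m) fun l => l.length * wb true p lam l

/-- probability to stay in the levels `0 .. m` for `n` steps -/
def Sl (D : ℕ) (p lam : ℝ) (m n : ℕ) : ℝ≥0∞ :=
  SS {l : List (Step D) | l.length = n ∧ ∀ k ≤ n, 0 ≤ H l k ∧ H l k ≤ m} (wb true p lam)

/-- third moment of the length of a block -/
def M3 (D : ℕ) (p lam : ℝ) : ℝ≥0∞ :=
  SS {l : List (Step D) | Block l} fun l => (l.length : ℝ≥0∞) ^ 3 * wb true p lam l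

/-- mean length of the first passages without a cut -/
def N1 (D : ℕ) (p lam : ℝ) (m : ℕ) : ℝ≥0∞ :=
  SS {l : List (Step D) | l ∈ FPS D m ∧ ∀ t, ¬ Cut l t} fun l => l.length * wb true p lam l

/-- open the back edge and the edges between sites of negative level -/
def op (ω : Cfg D) : Cfg D := fun e =>
  if e.1 0 ≤ -2 ∨ (e.1 0 = -1 ∧ e.2 ≠ 0) then true else plus ω e

/-- time per level -/
def kap (D : ℕ) (p lam : ℝ) : ℝ := AR D p lam / BR D p lam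

/-- the crude estimates of the regeneration structure, with constants `n₀`, `q`, `μ` -/
structure Reg (D : ℕ) (p lam : ℝ) (n₀ : ℕ) (q μ : ℝ) : Prop where
  p0 : 1 / 2 ≤ p
  p1 : p ≤ 1
  l0 : 0 ≤ lam
  n1 : 1 ≤ n₀
  q0 : 0 < q
  q1 : q ≤ 1
  m0 : 0 < μ
  m1 : μ ≤ 1
  slab : ∀ m n : ℕ, n₀ ≤ n → m ^ 2 ≤ n → Sl D p lam m n ≤ ENNReal.ofReal (1 / (n : ℝ) ^ 8)
  ret : ∀ i : ℕ, Ret D p lam i ≤ ENNReal.ofReal (n₀ * exp (-(μ * i)))
  sum : ∑' i, Ret D p lam i ≤ ENNReal.ofReal (1 - q)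
  ht : ∀ m : ℕ, aa D p lam m ≤ ENNReal.ofReal (exp (-(μ * m)))

end Pool.Agent.MP_8c549f_pr.L2

end
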