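import Pool.Agent.MP_8c549f_pr.L2.Basic

/-! PROJECT L2: sums over legs are Green sums. -/

noncomputable section

namespace Pool.Agent.MP_8c549f_pr.L2

open MeasureTheory Finset Real Classical S3

namespace Dict

variable {D : ℕ}

/-- lists of length `k` -/
def Lk (D k : ℕ) : Finset (List (Step D)) := (List.finite_length_eq (Step D) k).toFinset

theorem mem_Lk {k : ℕ} {l : List (Step D)} : l ∈ Lk D k ↔ l.length = k := by simp [Lk]

theorem sum_Lk_zero (Φ : List (Step D) → ℝ) : ∑ l ∈ Lk D 0, Φ l = Φ [] := by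
  have h : Lk D 0 = {[]} := by
    ext l; rw [mem_Lk, mem_singleton, List.length_eq_zero_iff]
  rw [h, sum_singleton]

theorem sum_Lk_succ (k : ℕ) (Φ : List (Step D) → ℝ) :
    ∑ l ∈ Lk D (k + 1), Φ l = ∑ s : Step D, ∑ l ∈ Lk D k, Φ (s :: l) := by
  have h : Lk D (k + 1) = (univ ×ˢ Lk D k).image fun q : Step D × List (Step D) => q.1 :: q.2 := by
    ext l
    rw [mem_Lk, mem_image]
    constructor
    · intro hl
      cases l with
      | nil => simp at hl
      | cons s u =>
        exact ⟨(s, u), mem_product.2 ⟨mem_univ _, mem_Lk.2 (by simpa using hl)⟩, rfl⟩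
    · rintro ⟨q, hq, rfl⟩
      rw [List.length_cons, mem_Lk.1 (mem_product.1 hq).2]
  rw [h, sum_image, sum_product]
  intro a _ b _ hab
  obtain ⟨h1, h2⟩ := List.cons.inj hab
  exact Prod.ext h1 h2

theorem all_cons (U : Set (V D)) (x : V D) (s : Step D) (l : List (Step D)) (k : ℕ) :
    (∀ i < k + 1, x + loc (s :: l) i ∈ U) ↔ x ∈ U ∧ ∀ i < k, x + vec s + loc l i ∈ U := by
  constructor
  · intro h
    refine ⟨by simpa using h 0 (Nat.succ_pos k), fun i hi => ?_⟩
    have := h (i + 1) (by omega)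
    rwa [loc_cons_succ, ← add_assoc] at this
  · rintro ⟨h0, h1⟩ i hi
    cases i with
    | zero => simpa using h0
    | succ i => rw [loc_cons_succ, ← add_assoc]; exact h1 i (by omega)

theorem Pk_eq (lam : ℝ) (ω : Cfg D) (U : Set (V D)) (g : V D → ℝ) (k : ℕ) : ∀ x : V D,
    Pk lam ω U k g x =
      ∑ l ∈ Lk D k, wr lam ω x l * (S3.ind (∀ i < k, x + loc l i ∈ U) * g (x + pos l)) := by
  induction k with
  | zero =>
    intro x
    rw [sum_Lk_zero, S3.ind_pos (fun i hi => absurd hi (Nat.not_lt_zero i))]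
    simp [Pk]
  | succ k ih =>
    intro x
    rw [sum_Lk_succ]
    by_cases hx : x ∈ U
    · rw [Pk_succ_mem hx, Pf]
      refine sum_congr rfl fun s _ => ?_
      rw [ih, mul_sum]
      refine sum_congr rfl fun l _ => ?_
      rw [wr_cons, pos_cons, ← add_assoc, mul_assoc,
        S3.ind_congr ((all_cons U x s l k).trans (and_iff_right hx))]
    · rw [Pk_succ_not hx]
      refine (sum_eq_zero fun s _ => sum_eq_zero fun l _ => ?_).symm
      rw [S3.ind_neg fun h => hx ((all_cons U x s l k).1 h).1, zero_mul, mul_zero]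

end Dict

theorem dict : DICTStmt := by
  intro D lam ω L N U F f hU
  have hmaps : ∀ l ∈ (Lg D L N).filter (fun l => ∀ i < l.length, loc l i ∈ U),
      l.length ∈ range (N + 1) := fun l hl =>
    mem_range.2 (Nat.lt_succ_of_le (mem_Lg.1 (mem_filter.1 hl).1).1)
  rw [← sum_fiberwise_of_maps_to hmaps]
  refine sum_congr rfl fun k hk => ?_
  have hkN : k ≤ N := Nat.le_of_lt_succ (mem_range.1 hk)
  have hset : ((Lg D L N).filter (fun l => ∀ i < l.length, loc l i ∈ U)).filter
      (fun l => l.length = k) =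
      (Dict.Lk D k).filter fun l => (∀ i < k, loc l i ∈ U) ∧ lev l = L := by
    ext l
    simp only [mem_filter, mem_Lg, Dict.mem_Lk]
    constructor
    · rintro ⟨⟨⟨_, _, h3⟩, h4⟩, rfl⟩
      exact ⟨rfl, h4, h3⟩
    · rintro ⟨rfl, h4, h3⟩
      refine ⟨⟨⟨hkN, fun i hi => ?_, h3⟩, h4⟩, rfl⟩
      rw [h3]
      exact hU _ (h4 i hi)
  rw [hset, Dict.Pk_eq, mul_sum, sum_filter]
  refine sum_congr rfl fun l hl => ?_
  rw [Dict.mem_Lk.1 hl]
  simp only [zero_add]
  by_cases h1 : ∀ i < k, loc l i ∈ U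
  · by_cases h2 : lev l = L
    · rw [if_pos ⟨h1, h2⟩, S3.ind_pos h1,
        Set.indicator_of_mem (show pos l ∈ {y : V D | y 0 = (L : ℤ)} from h2)]
      ring
    · rw [if_neg fun h => h2 h.2,
        Set.indicator_of_notMem (show pos l ∉ {y : V D | y 0 = (L : ℤ)} from h2)]
      ring
  · rw [if_neg fun h => h1 h.1, S3.ind_neg h1]
    ring

end Pool.Agent.MP_8c549f_pr.L2

end
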