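import Pool.Agent.MP_8c549f_pr.L2.Basic

/-! PROJECT L2: the energy of a function times the localising weight. -/

noncomputable section

namespace Pool.Agent.MP_8c549f_pr.L2

open MeasureTheory Finset Real Classical S3

namespace En2

/-- two close exponentials -/
theorem exp_close {a b ξ : ℝ} (h1 : ξ ≤ 1) (h : |a - b| ≤ ξ) :
    (exp a - exp b) ^ 2 ≤ 4 * ξ ^ 2 * (exp a * exp b) := by
  have t1 : |a - b| ≤ 1 := h.trans h1
  have t2 : |b - a| ≤ 1 := by rwa [abs_sub_comm]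
  have e1 := (abs_le.1 (Real.abs_exp_sub_one_sub_id_le t1)).2
  have e2 := (abs_le.1 (Real.abs_exp_sub_one_sub_id_le t2)).2
  have e3 : (a - b) ^ 2 ≤ ξ ^ 2 := by
    rw [← sq_abs]
    exact pow_le_pow_left₀ (abs_nonneg _) h 2
  have e4 : (exp a - exp b) ^ 2 = (exp (a - b) + exp (b - a) - 2) * (exp a * exp b) := by
    rw [exp_sub, exp_sub]
    have := exp_ne_zero a
    have := exp_ne_zero b
    field_simp
    ring
  rw [e4]
  refine mul_le_mul_of_nonneg_right ?_ (mul_pos (exp_pos a) (exp_pos b)).le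
  nlinarith [sq_nonneg ξ]

theorem et_close {D : ℕ} {ξ : ℝ} (h0 : 0 ≤ ξ) (h1 : ξ ≤ 1) (x y : V D) (s : Step D) :
    (et ξ x (y + vec s) - et ξ x y) ^ 2 ≤ 4 * ξ ^ 2 * (et ξ x (y + vec s) * et ξ x y) := by
  refine exp_close h1 ?_
  have a1 : (nrm (y + vec s - x) : ℝ) ≤ nrm (y - x) + 1 := by exact_mod_cast nrm_step y x s
  have a2 : (nrm (y - x) : ℝ) ≤ nrm (y + vec s - x) + 1 := by
    have := nrm_step (y + vec s) x (rev s)
    rw [vec_rev, add_neg_cancel_right] at this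
    exact_mod_cast this
  refine abs_le.2 ⟨?_, ?_⟩ <;> nlinarith

/-- the pointwise inequality -/
theorem point {a a' u u' k : ℝ} (hk : 0 ≤ k)
    (h : (a' - a) ^ 2 ≤ 4 * k * (a' * a)) :
    (a' * u' - a * u) ^ 2 ≤ (a' ^ 2 * u' - a ^ 2 * u) * (u' - u) +
      (2 * k * (a * u) ^ 2 + 2 * k * (a' * u') ^ 2) := by
  have e : (a' * u' - a * u) ^ 2 = (a' ^ 2 * u' - a ^ 2 * u) * (u' - u) + u * u' * (a' - a) ^ 2 := by
    ring
  rw [e]
  refine add_le_add le_rfl ?_
  rcases le_total 0 (u * u') with c | c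
  · refine (mul_le_mul_of_nonneg_left h c).trans ?_
    nlinarith [mul_nonneg hk (sq_nonneg (a * u - a' * u'))]
  · refine (mul_nonpos_of_nonpos_of_nonneg c (sq_nonneg _)).trans ?_
    positivity

end En2

open En2 in
theorem en2 (hI : IDStmt) : EN2Stmt := by
  intro D lam ξ ω Q x u h0 h1 hS
  obtain ⟨i1, -, -, i4⟩ := hI D lam ω Q
  have s1 : Sup (fun y => et ξ x y ^ 2 * u y) Q := fun y hy => hS y (right_ne_zero_of_mul hy)
  have e1 := i1 _ u s1
  have e2 := i4 (fun y _ => (et ξ x y * u y) ^ 2) fun y s hy =>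
    have := hS y (right_ne_zero_of_mul (pow_ne_zero_iff two_ne_zero |>.1 hy))
    ⟨this.1, this.2 s⟩
  have e3 : ∑ y ∈ Q, ∑ s, cnd lam ω y s * (et ξ x y * u y) ^ 2 =
      ∑ y ∈ Q, pim lam ω y * (et ξ x y * u y) ^ 2 :=
    sum_congr rfl fun y _ => by rw [← sum_mul, sum_cnd]
  rw [En_eq, e1]
  calc _ ≤ ∑ y ∈ Q, ∑ s, (cnd lam ω y s * ((et ξ x (y + vec s) ^ 2 * u (y + vec s) -
          et ξ x y ^ 2 * u y) * (u (y + vec s) - u y)) +
        (2 * ξ ^ 2 * (cnd lam ω y s * (et ξ x y * u y) ^ 2) +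
          2 * ξ ^ 2 * (cnd lam ω y s * (et ξ x (y + vec s) * u (y + vec s)) ^ 2))) := by
        refine sum_le_sum fun y _ => sum_le_sum fun s _ => ?_
        have := mul_le_mul_of_nonneg_left (point (u := u y) (u' := u (y + vec s))
          (sq_nonneg ξ) (et_close h0 h1 x y s))
          (cnd_nonneg (lam := lam) (ω := ω) y s)
        refine this.trans (le_of_eq ?_)
        unfold et
        ring
    _ = _ := by
        simp only [sum_add_distrib, ← mul_sum]
        rw [← e2, e3]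
        ring

end Pool.Agent.MP_8c549f_pr.L2

end
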