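import Pool.Agent.MP_8c549f_pr.L2.Basic

/-! PROJECT L2, row Ex: the probability of an early exit from a ball. -/

noncomputable section

namespace Pool.Agent.MP_8c549f_pr.L2

open MeasureTheory Finset Real Classical S3

namespace Ex

variable {D : ℕ} {lam : ℝ} {ω : Cfg D}

theorem nonneg (x : V D) (r n : ℕ) (y : V D) : 0 ≤ exq lam ω x r n y :=
  Gs_nonneg (chi_nonneg _) _ _

theorem le_one (x : V D) (r n : ℕ) (y : V D) : exq lam ω x r n y ≤ 1 :=
  Gs_chi_le_one disjoint_compl_right _ _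

theorem early (x : V D) {r n : ℕ} (h : n ≤ r) : exq lam ω x r n x ≤ 0 := by
  rw [exq, Gs]
  refine sum_nonpos fun k hk => ?_
  have hk' := mem_range.1 hk
  refine (Pk_mono_loc (f' := fun _ => 0) k (fun i y => nrm (y - x) ≤ i) x (by simp)
    (fun i _ y s hy _ _ => (nrm_step y x s).trans (by omega)) fun y hy => ?_).trans
    (Pk_le le_rfl (fun _ => le_rfl) k x)
  have hb : y ∈ (ball x r : Set (V D)) := mem_coe.2 (mem_ball.2 (by omega))
  have hc : y ∉ (ball x r : Set (V D))ᶜ := fun c => c hb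
  exact (chi_of_not hc).le

theorem sub (x : V D) (r n : ℕ) {y : V D} (hy : y ∈ ball x r) :
    exq lam ω x r n y ≤ Pf lam ω (exq lam ω x r n) y := by
  have hy' : y ∈ (ball x r : Set (V D)) := mem_coe.2 hy
  have hc : y ∉ (ball x r : Set (V D))ᶜ := fun c => c hy'
  rw [exq, Gs_succ_mem hy', chi_of_not hc, zero_add]
  exact Pf_mono (fun z => Gs_time (chi_nonneg _) (Nat.le_succ n) z) y

theorem split (x : V D) {r r' : ℕ} (h : r' ≤ r) (n n' : ℕ) :
    exq lam ω x r n x ≤ exq lam ω x r' n' x +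
      Pk lam ω (ball x r') n' ((ball x r' : Set (V D)).indicator (exq lam ω x r n)) x := by
  have e := dyn (lam := lam) (ω := ω) (ball x r' : Set (V D)) (exq lam ω x r n) n' x
  have a : Gs lam ω (ball x r') n' ((ball x r' : Set (V D)).indicator
      fun y => exq lam ω x r n y - Pf lam ω (exq lam ω x r n) y) x ≤ 0 := by
    refine sum_nonpos fun k _ => Pk_le le_rfl (fun y => ?_) k x
    by_cases c : y ∈ (ball x r' : Set (V D))
    · rw [Set.indicator_of_mem c]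
      exact sub_nonpos.2 (sub x r n (ball_mono x h (mem_coe.1 c)))
    · rw [Set.indicator_of_notMem c]
  have b : Gs lam ω (ball x r') (n' + 1) ((ball x r' : Set (V D))ᶜ.indicator (exq lam ω x r n)) x ≤
      exq lam ω x r' n' x := by
    refine Gs_mono (fun y => ?_) _ x
    by_cases c : y ∈ (ball x r' : Set (V D))ᶜ
    · rw [Set.indicator_of_mem c, chi_of_mem c]; exact le_one x r n y
    · rw [Set.indicator_of_notMem c, chi_of_not c]
  linarith

theorem lev {x y : V D} {r : ℕ} (h : nrm (y - x) ≤ r) : |(y 0 : ℝ) - x 0| ≤ r := by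
  have := nrm_le_iff.1 h 0
  rw [Pi.sub_apply] at this
  exact_mod_cast this

/-- the constant of the square sum -/
def A (D : ℕ) : ℝ :=
  48 * exp 18 * ((D + 3).factorial : ℝ) ^ 2 * 32 ^ (D + 3) * (2 * D + 4) * 5 ^ (D + 1)

theorem A_pos (D : ℕ) : 0 < A D := by
  have := Nat.factorial_pos (D + 3)
  unfold A; positivity

theorem sq_sum (hA : AGMStmt) (h0 : 0 ≤ lam) (h1 : lam ≤ 1) {h : ℕ} (hh : 1 ≤ h) (x : V D)
    {r n : ℕ} (hr : 1 ≤ r) (hn : 2 ≤ n) (hl : lam * r ≤ 4) :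
    ∑ y ∈ wb' ω h x ((r + 1) / 2), max (exq lam ω x r n y) 0 ^ 2 ≤
      A D * ((n : ℝ) / (r : ℝ) ^ 2) ^ (D + 3) * (r : ℝ) ^ (D + 1) := by
  have hr' : (1 : ℝ) ≤ r := by exact_mod_cast hr
  have e0 := exp_pos (2 * lam * (x 0 : ℝ))
  have a : exp (2 * lam * (x 0 : ℝ)) *
      ∑ y ∈ wb' ω h x ((r + 1) / 2), max (exq lam ω x r n y) 0 ^ 2 ≤
      3 * exp 8 * ∑ y ∈ ball x ((r + 1) / 2), pim lam ω y * exq lam ω x r n y ^ 2 := by
    rw [mul_sum, mul_sum]
    refine (sum_le_sum fun y hy => ?_).trans (sum_le_sum_of_subset_of_nonneg (filter_subset _ _)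
      fun y _ _ => mul_nonneg (by positivity) (mul_nonneg (pim_nonneg _ _ _) (sq_nonneg _)))
    obtain ⟨y1, y2⟩ := mem_wb'.1 hy
    rw [max_eq_left (nonneg x r n y), ← mul_assoc]
    refine mul_le_mul_of_nonneg_right ?_ (sq_nonneg _)
    have l := (abs_le.1 (lev (y1.trans (show (r + 1) / 2 ≤ r by omega)))).1
    have p := le_pim h0 h1 (wide_Zq hh y2 lam)
    have q : exp (2 * lam * (x 0 : ℝ)) ≤ exp 8 * exp (2 * lam * (y 0 : ℝ)) := by
      rw [← exp_add]; refine exp_le_exp.2 ?_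
      nlinarith [mul_le_mul_of_nonneg_left l h0]
    nlinarith [mul_le_mul_of_nonneg_left p (exp_pos 8).le]
  have b : ∑ y ∈ ball x (r + 1), pim lam ω y ≤
      (5 * (r : ℝ)) ^ (D + 1) * ((2 * D + 4) * (exp 10 * exp (2 * lam * (x 0 : ℝ)))) := by
    refine (sum_le_card_nsmul _ _ ((2 * D + 4) * (exp 10 * exp (2 * lam * (x 0 : ℝ))))
      fun y hy => ?_).trans ?_
    · refine (pim_le h0 h1 y).trans (mul_le_mul_of_nonneg_left ?_ (by positivity))
      have l := (abs_le.1 (lev (mem_ball.1 hy))).2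
      push_cast at l
      rw [← exp_add]; refine exp_le_exp.2 ?_
      nlinarith [mul_le_mul_of_nonneg_left l h0]
    · rw [nsmul_eq_mul, card_ball]
      refine mul_le_mul_of_nonneg_right ?_ (by positivity)
      push_cast
      exact pow_le_pow_left₀ (by positivity) (by linarith) _
  have c := hA D lam ω x r n (D + 3) hn hr (by omega)
  refine le_of_mul_le_mul_left (a.trans ?_) e0
  refine (mul_le_mul_of_nonneg_left (c.trans (mul_le_mul_of_nonneg_left b (by positivity)))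
    (by positivity)).trans (le_of_eq ?_)
  have e : exp 18 = exp 8 * exp 10 := by rw [← exp_add]; norm_num
  rw [A, e, mul_div_assoc, mul_pow, mul_pow]
  ring

theorem root {S a t r ρ c : ℝ} (d : ℕ) (ha : 0 ≤ a) (ht : 0 < t) (hρ : 0 < ρ) (hr : 0 ≤ r)
    (hS : S ≤ a * t ^ (d + 2) * r ^ d) (h : t * r ≤ c * ρ) :
    √(S / ρ ^ d) ≤ √(a * c ^ d) * t := by
  have h2 : (t * r) ^ d ≤ (c * ρ) ^ d := pow_le_pow_left₀ (by positivity) h d
  have hc : 0 ≤ c := by
    by_contra hc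
    nlinarith [mul_nonneg ht.le hr, mul_pos (neg_pos.2 (not_le.1 hc)) hρ]
  rw [← sqrt_sq ht.le, ← sqrt_mul (by positivity)]
  refine sqrt_le_sqrt ?_
  rw [div_le_iff₀ (by positivity)]
  refine hS.trans ?_
  have := mul_le_mul_of_nonneg_left h2 (show 0 ≤ a * t ^ 2 by positivity)
  rw [mul_pow, mul_pow] at this
  calc a * t ^ (d + 2) * r ^ d = a * t ^ 2 * (t ^ d * r ^ d) := by ring
    _ ≤ a * t ^ 2 * (c ^ d * ρ ^ d) := this
    _ = _ := by ring

theorem scale {J m n r : ℕ} (hJ : 1 ≤ J) (hm : 1 ≤ m) (h : (64 * J) ^ 3 * m ^ 9 * n ≤ r ^ 4)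
    (h1 : r < n) (h2 : n < r ^ 2) : ∃ ρ : ℕ, m ≤ ρ ∧ ρ ≤ (r + 1) / 2 ∧ 2 ≤ r ∧
      J * (m ^ 3 + 2 * ρ ^ 2) ≤ n / 16 ∧ n ≤ 192 * J * ρ ^ 2 := by
  have a : 64 * J * m ^ 3 < n := by
    refine lt_of_pow_lt_pow_left₀ 3 (Nat.zero_le _) ?_
    refine Nat.lt_of_mul_lt_mul_right (a := n) ?_
    calc (64 * J * m ^ 3) ^ 3 * n = (64 * J) ^ 3 * m ^ 9 * n := by ring
      _ ≤ r ^ 4 := h
      _ < n ^ 4 := Nat.pow_lt_pow_left h1 (by norm_num)
      _ = n ^ 3 * n := by ring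
  have m3 : m ^ 2 ≤ m ^ 3 := Nat.pow_le_pow_right hm (by norm_num)
  have m1 : 1 ≤ m ^ 2 := Nat.one_le_pow _ _ hm
  have b : 4 * (J * m ^ 3) ≤ n / 16 := by rw [mul_assoc] at a; omega
  have c : m ^ 3 ≤ n / 16 / (3 * J) :=
    (Nat.le_div_iff_mul_le (by omega)).2 (by nlinarith [Nat.zero_le (J * m ^ 3)])
  obtain ⟨q, hq⟩ : ∃ q, q = n / 16 / (3 * J) := ⟨_, rfl⟩
  have q1 : 3 * J * q ≤ n / 16 := hq ▸ Nat.mul_div_le _ _
  have q2 : n / 16 < 3 * J * (q + 1) := hq ▸ Nat.lt_mul_div_succ _ (by omega)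
  rw [← hq] at c
  have s1 : q.sqrt ^ 2 ≤ q := Nat.sqrt_le' q
  have s2 : q < (q.sqrt + 1) ^ 2 := Nat.lt_succ_sqrt' q
  have s3 : m ≤ q.sqrt := Nat.le_sqrt'.2 (m3.trans c)
  have s4 : J * q.sqrt ^ 2 ≤ J * q := Nat.mul_le_mul_left _ s1
  have s5 : q ≤ J * q := Nat.le_mul_of_pos_left _ hJ
  have r2 : 2 ≤ r := by
    by_contra hr
    have : r ^ 2 ≤ r := by
      have : r = 0 ∨ r = 1 := by omega
      rcases this with rfl | rfl <;> norm_num
    omega
  refine ⟨q.sqrt, s3, ?_, r2, by nlinarith, ?_⟩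
  · have : (2 * q.sqrt) ^ 2 < r ^ 2 := by
      rw [mul_assoc] at q1
      rw [mul_pow]; omega
    have := lt_of_pow_lt_pow_left₀ 2 (Nat.zero_le _) this
    omega
  · have s6 : q + 1 ≤ 4 * q.sqrt ^ 2 := by nlinarith
    have s7 := Nat.mul_le_mul_left (3 * J) s6
    have : n / 16 + 1 ≤ 12 * (J * q.sqrt ^ 2) := by nlinarith
    rw [mul_assoc]; omega

end Ex

theorem exS (hH : HKStmt) (hA : AGMStmt) : EXStmt := by
  intro D
  obtain ⟨C, J, hC, hJ, H⟩ := hH D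
  have hK : 0 ≤ C * √(Ex.A D * (192 * J) ^ (D + 1)) := by positivity
  obtain ⟨K, eK⟩ : ∃ K, K = C * √(Ex.A D * (192 * J) ^ (D + 1)) := ⟨_, rfl⟩
  rw [← eK] at hK
  refine ⟨1 + 2 * K, (64 * J) ^ 3, by linarith, Nat.one_le_pow _ _ (by omega), ?_⟩
  intro ω R m h δ rep w G lam x r n h0 h1
  induction r using Nat.strong_induction_on generalizing n with
  | _ r ih =>
  intro hl hR hx hr hM
  have hr' : (0 : ℝ) < r := by exact_mod_cast hr
  rcases le_or_gt n r with c1 | c1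
  · exact (Ex.early x c1).trans (by positivity)
  rcases le_or_gt (r ^ 2) n with c2 | c2
  · refine (Ex.le_one x r n x).trans ?_
    rw [le_div_iff₀ (by positivity)]
    have : (r : ℝ) ^ 2 ≤ n := by exact_mod_cast c2
    nlinarith [mul_nonneg hK (Nat.cast_nonneg (α := ℝ) n)]
  have hm : 1 ≤ m := G.h1.trans G.hm
  obtain ⟨ρ, p1, p2, p3, p4, p5⟩ := Ex.scale hJ hm hM c1 c2
  have q1 : (r + 1) / 2 < r := by omega
  have q2 : r ≤ 2 * ((r + 1) / 2) := by omega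
  have q3 : 16 * (n / 16) ≤ n := Nat.mul_div_le _ _
  obtain ⟨r', e'⟩ : ∃ r', r' = (r + 1) / 2 := ⟨_, rfl⟩
  have S := Ex.sq_sum (ω := ω) hA h0 h1 G.h1 x hr (show 2 ≤ n by omega) hl
  rw [← e'] at q1 q2 p2 S
  obtain ⟨n', en⟩ : ∃ n', n' = n / 16 := ⟨_, rfl⟩
  rw [← en] at q3 p4
  have l' : lam * r' ≤ 4 :=
    (mul_le_mul_of_nonneg_left (by exact_mod_cast q1.le) h0).trans hl
  have I := ih r' q1 n' l' (by omega) hx (by omega) (by
    have := Nat.pow_le_pow_left q2 4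
    have := Nat.mul_le_mul_left ((64 * J) ^ 3 * m ^ 9) q3
    nlinarith)
  have T := H ω R m h δ rep w G lam x ρ r' n' (exq lam ω x r n) h0 h1 l' p1 p2 (by omega) hx p4
  have hn : (0 : ℝ) < n := by exact_mod_cast (show 0 < n by omega)
  have hρ : (0 : ℝ) < ρ := by exact_mod_cast (show 0 < ρ by omega)
  have ρr : (ρ : ℝ) ≤ r := by exact_mod_cast (show ρ ≤ r by omega)
  have p5' : (n : ℝ) ≤ 192 * J * (ρ : ℝ) ^ 2 := by exact_mod_cast p5
  have W := Ex.root (c := 192 * J) (D + 1) (Ex.A_pos D).le (show 0 < (n : ℝ) / (r : ℝ) ^ 2 by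
    positivity) hρ hr'.le S (by
      rw [div_mul_eq_mul_div, div_le_iff₀ (by positivity)]
      have := mul_le_mul_of_nonneg_left ρr (show 0 ≤ 192 * (J : ℝ) * ρ by positivity)
      nlinarith [mul_le_mul_of_nonneg_right (p5'.trans (by nlinarith : 192 * J * (ρ : ℝ) ^ 2 ≤
        192 * J * ρ * r)) hr'.le])
  have T' := T.trans (mul_le_mul_of_nonneg_left W (by linarith))
  rw [← mul_assoc, ← eK] at T'
  have I' : (1 + 2 * K) * n' / (r' : ℝ) ^ 2 ≤ (1 + 2 * K) * (n / (r : ℝ) ^ 2) / 4 := by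
    have a1 : (r : ℝ) ≤ 2 * r' := by exact_mod_cast q2
    have a2 : 16 * (n' : ℝ) ≤ n := by exact_mod_cast q3
    have a3 : (0 : ℝ) < r' := by linarith
    rw [mul_div_assoc, mul_div_assoc, div_div]
    refine mul_le_mul_of_nonneg_left ?_ (by linarith)
    rw [div_le_div_iff₀ (by positivity) (by positivity)]
    have a4 : (r : ℝ) ^ 2 ≤ 4 * r' ^ 2 := by nlinarith
    nlinarith [mul_le_mul_of_nonneg_left a4 (Nat.cast_nonneg (α := ℝ) n'),
      mul_le_mul_of_nonneg_right a2 (sq_nonneg (r' : ℝ))]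
  have t0 : 0 ≤ (n : ℝ) / (r : ℝ) ^ 2 := by positivity
  have := Ex.split (lam := lam) (ω := ω) x q1.le n n'
  rw [mul_div_assoc]
  nlinarith [mul_nonneg hK t0]

end Pool.Agent.MP_8c549f_pr.L2
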