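import Pool.Agent.MP_8c549f_pr.L2.SpecB

/-! PROJECT L2, row Fin: the time per level decreases by a definite amount. -/

noncomputable section

namespace Pool.Agent.MP_8c549f_pr.L2

open MeasureTheory Finset Real Classical S3

namespace FinS

lemma arith (ax az kx kz T err n g S P Lr c s : ℝ) (hP : 0 < P) (hn : 0 < n) (hL : 0 < Lr)
    (hx : 1 / P * |ax - kx * (n * Lr)| ≤ err) (hz : 1 / P * |az - kz * (n * Lr)| ≤ err)
    (hT : az - ax ≤ -(n * g) + T) (hS : T ≤ S) (hA : S + 2 * P * err ≤ n * g / 2)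
    (hc : c * s * Lr ≤ g / 2) : kz - kx ≤ -(c * s) := by
  have h1 : |ax - kx * (n * Lr)| ≤ P * err := by
    rw [one_div, inv_mul_le_iff₀ hP] at hx; exact hx
  have h2 : |az - kz * (n * Lr)| ≤ P * err := by
    rw [one_div, inv_mul_le_iff₀ hP] at hz; exact hz
  have h3 := (abs_le.1 h1).2
  have h4 := (abs_le.1 h2).1
  have h5 : (kz - kx) * (n * Lr) ≤ -(n * g / 2) := by linarith
  have h6 : n * (c * s * Lr) ≤ n * (g / 2) := mul_le_mul_of_nonneg_left hc hn.le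
  have h7 : (kz - kx) * (n * Lr) ≤ -(c * s) * (n * Lr) := by linarith
  exact le_of_mul_le_mul_right h7 (mul_pos hn hL)

lemma eps (C c cg κ : ℝ) (hC : 1 ≤ C) (hc : 0 < c) (hg : 0 < cg) (hκ : 0 < κ) :
    ∃ ε : ℝ, 0 < ε ∧ ε ≤ 1 / 2 ∧ 2 * ε ≤ κ * cg ∧ (4 * C + 4) * (4 * √(2 * ε * C) / c) ≤ cg := by
  have hC0 : 0 < C := by linarith
  set w : ℝ := cg * c / (16 * (C + 1)) with hw
  have hw0 : 0 < w := by positivity
  refine ⟨min (1 / 2) (min (κ * cg / 2) (w ^ 2 / (2 * C))), by positivity, min_le_left _ _, ?_, ?_⟩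
  · have : min (1 / 2) (min (κ * cg / 2) (w ^ 2 / (2 * C))) ≤ κ * cg / 2 :=
      (min_le_right _ _).trans (min_le_left _ _)
    linarith
  · have h1 : min (1 / 2) (min (κ * cg / 2) (w ^ 2 / (2 * C))) ≤ w ^ 2 / (2 * C) :=
      (min_le_right _ _).trans (min_le_right _ _)
    have h2 : 2 * min (1 / 2) (min (κ * cg / 2) (w ^ 2 / (2 * C))) * C ≤ w ^ 2 := by
      rw [le_div_iff₀ (by positivity)] at h1; linarith
    have h3 : √(2 * min (1 / 2) (min (κ * cg / 2) (w ^ 2 / (2 * C))) * C) ≤ w :=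
      Real.sqrt_le_iff.2 ⟨hw0.le, h2⟩
    calc _ ≤ (4 * C + 4) * (4 * w / c) := by gcongr
      _ = cg := by rw [hw]; field_simp; ring

end FinS

theorem finS (hQ : QUStmt) (h1 : HYP1Stmt) (h2 : HYP2Stmt) (hT : TELStmt) (hK : KAPStmt)
    (hR : RGStmt) (hN : NICEPStmt) (hF : NICEFStmt) (hG : GOODStmt) (hA : ARStmt) : FINStmt := by
  intro D hD
  obtain ⟨A, Λ, C, c, hA2, hΛ, hC, hc0, hc1, hQ'⟩ := hQ D hD
  have hΛr : (1 : ℝ) ≤ Λ := by exact_mod_cast hΛ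
  have hC0 : 0 < C := by linarith
  obtain ⟨cg, hcg⟩ : ∃ cg : ℝ, cg = Λ / (512 * (D + 1)) := ⟨_, rfl⟩
  have hcg0 : 0 < cg := by rw [hcg]; positivity
  have hcgΛ : cg ≤ Λ := by
    rw [hcg]; apply div_le_self (by linarith)
    have : (0 : ℝ) ≤ D := Nat.cast_nonneg D
    linarith
  obtain ⟨κ, hκ⟩ : ∃ κ : ℝ, κ = min 1 (cg / (2 * C)) := ⟨_, rfl⟩
  have hκ0 : 0 < κ := by rw [hκ]; positivity
  have hκ1 : κ ≤ 1 := by rw [hκ]; exact min_le_left _ _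
  have hκ2 : 2 * κ * C ≤ cg := by
    have : κ ≤ cg / (2 * C) := by rw [hκ]; exact min_le_right _ _
    rw [le_div_iff₀ (by positivity)] at this; linarith
  obtain ⟨ε, hε0, hε1, hε2, hε3⟩ := FinS.eps C c cg κ hC hc0 hcg0 hκ0
  obtain ⟨δ, hδ, hQ''⟩ := hQ' ε hε0
  obtain ⟨e₁, K₀, l₁, he₁, -, hR'⟩ := hR D hD
  obtain ⟨C', hC', hK'⟩ := hK
  refine ⟨1 / (1024 * (D + 1)), by positivity, fun K₁ hK₁ => ?_⟩
  obtain ⟨Y, hY⟩ : ∃ Y : ℝ, Y = 4 * √(2 * ε * C) / c := ⟨_, rfl⟩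
  have hY0 : 0 ≤ Y := by rw [hY]; positivity
  obtain ⟨b, l₂, -, hA'⟩ := hA K₀ K₁ Λ C' Y cg (by linarith) hY0 hcg0
  obtain ⟨l₃, hQ3⟩ := hQ'' (20 * b)
  obtain ⟨e₂, l₄, he₂, hN'⟩ := hN D A (20 * b) δ hA2 hδ
  refine ⟨min e₁ e₂, l₁ + l₂ + l₃ + l₄ + Λ + ⌈1 / κ⌉₊ + 4, lt_min he₁ he₂,
    fun p x l hp hp1 hl hx1 hx2 => ?_⟩
  have hl4 : 4 ≤ l := by omega
  have hlr : (4 : ℝ) ≤ l := by exact_mod_cast hl4
  have hl0 : (0 : ℝ) < l := by linarith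
  have hlΛ : (Λ : ℝ) ≤ l := by exact_mod_cast (by omega : Λ ≤ l)
  have hlκ : 1 / κ ≤ l := (Nat.le_ceil _).trans (by exact_mod_cast (by omega : ⌈1 / κ⌉₊ ≤ l))
  obtain ⟨s, hs⟩ : ∃ s : ℝ, s = 1 / (l : ℝ) ^ K₁ := ⟨_, rfl⟩
  have hs0 : 0 < s := by rw [hs]; positivity
  have hsκ : s ≤ κ / l := by
    have h1 : (l : ℝ) ^ 2 ≤ (l : ℝ) ^ K₁ := pow_le_pow_right₀ (by linarith) hK₁
    have h2 : 1 ≤ κ * l := by
      rw [div_le_iff₀ hκ0] at hlκ; linarith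
    rw [hs, div_le_div_iff₀ (by positivity) hl0]
    nlinarith [mul_le_mul_of_nonneg_left h1 hκ0.le]
  have hs1 : s ≤ 1 / l := hsκ.trans (by gcongr)
  have hi1 : 4 / (l : ℝ) ≤ 1 := by rw [div_le_one hl0]; exact hlr
  have h34 : 3 / (l : ℝ) ≤ 4 / l := by gcongr; norm_num
  have h11 : 1 / (l : ℝ) ≤ 4 / l := by gcongr; norm_num
  have hz3 : x + s ≤ 3 / (l : ℝ) := by
    have : 3 / (l : ℝ) = 2 / l + 1 / l := by ring
    linarith
  have hp₁ : 1 - e₁ ≤ p := le_trans (by linarith [min_le_left e₁ e₂]) hp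
  have hp₂ : 1 - e₂ ≤ p := le_trans (by linarith [min_le_right e₁ e₂]) hp
  have Rx := hR' p x l hp₁ hp1 (by omega) hx1 (by linarith)
  have Rz := hR' p (x + s) l hp₁ hp1 (by omega) (by linarith) (by linarith)
  have hp0 : 0 ≤ p := le_trans (by norm_num) Rx.p0
  obtain ⟨n1, n2, n3, n4⟩ := hN' p l hp₂ hp1 hp0 (by omega)
  have hQu := hQ3 l (by omega) n1 n2 n3
  have Mx := h1 D A Λ (20 * b) l δ C c ε x hC hc0 hc1 hε0 hε1 hQu hx1 (by linarith)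
  have Mz := h1 D A Λ (20 * b) l δ C c ε (x + s) hC hc0 hc1 hε0 hε1 hQu (by linarith) (by linarith)
  obtain ⟨a1, a2, a3, a4, a5, a6⟩ := hA' l (by omega)
  obtain ⟨-, -, g3, g4⟩ := hG D A (mm l) (L2.hA A l) (l ^ 4) δ
  have hYe : 4 * (√(2 * ε * C) * (l : ℝ) ^ 2) / c = Y * (l : ℝ) ^ 2 := by rw [hY]; ring
  have hbad : ∀ n ≤ l ^ (3 * b), bad p (Gn (D := D) A (mm l) (L2.hA A l) δ (l ^ 4) n) (allOpen D) ≤
      1 / (l : ℝ) ^ (20 * b) := fun n hn =>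
    (g3 p n (l ^ (20 * b)) hp0 hp1 (le_trans (Nat.mul_le_mul_right _ (by omega))
      (le_trans (Nat.le_add_right _ _) a5))).trans n4
  have h12 : 12 * L2.hA A l ≤ l ^ (K₀ + 4) := by
    have e1 : mm l ≤ mm l ^ 8 := Nat.le_self_pow (by norm_num) _
    have e2 : 4 ^ 3 ≤ l ^ 3 := Nat.pow_le_pow_left hl4 3
    have e3 : l ^ 4 ≤ l ^ (K₀ + 4) := Nat.pow_le_pow_right (by omega) (by omega)
    have e4 : 64 * l ≤ l ^ 3 * l := Nat.mul_le_mul_right _ e2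
    have e5 : l ^ 4 = l ^ 3 * l := by ring
    omega
  have hNh : l ^ 4 ≤ l ^ (K₀ + 4) := Nat.pow_le_pow_right (by omega) (by omega)
  have kp : ∀ lam : ℝ, Mix lam (Λ * l) (l ^ 4) (Gn (D := D) A (mm l) (L2.hA A l) δ (l ^ 4))
      (1 / (l : ℝ) ^ (20 * b)) c (√(2 * ε * C) * (l : ℝ) ^ 2) →
      Reg D p lam (l ^ K₀) (1 / (l : ℝ) ^ K₀) (1 / (l : ℝ) ^ K₀) →
      1 / (l : ℝ) ^ K₀ * |Fr p (Vn lam (Λ * l) (l ^ 4) (l ^ (3 * b))) (allOpen D) -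
        kap D p lam * ((l : ℝ) ^ (3 * b) * (Λ * l))| ≤
      errK (l ^ 4) (l ^ K₀) (l ^ (3 * b)) (l ^ (K₀ + 4)) (l ^ b) (l ^ (7 * b))
        (1 / (l : ℝ) ^ (20 * b)) (Y * (l : ℝ) ^ 2) (1 / (l : ℝ) ^ K₀) C' := by
    intro lam hM hRg
    have := hK' D p lam (Λ * l) (l ^ 4) (l ^ K₀) (l ^ (3 * b)) (l ^ (K₀ + 4)) (l ^ b) (l ^ (7 * b))
      _ (Nice A (mm l) (L2.hA A l) δ (l ^ (20 * b))) _ c _ _ _ hM hRg (hbad _ le_rfl)
      ((hF D A (mm l) (L2.hA A l) δ).1 _) n4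
      (fun ω hω u hu hw => g4 lam _ _ _ _ ω a5 h12 hω u hu hw) hNh a1 a2 a3 a4
    rw [hYe] at this
    push_cast at this
    exact this
  have hsx : x + s - x = s := by ring
  have tl := hT D p x (x + s) (Λ * l) (l ^ 4) (l ^ (3 * b)) _ _ c _ (cg * (l : ℝ) ^ 3 * s)
    ((4 * C + 4) * l * s) hp0 hp1 Mx Mz.toInh (by positivity)
    (by
      push_cast
      have e1 : s ≤ 1 := by linarith
      calc cg * (l : ℝ) ^ 3 * s ≤ l * (l : ℝ) ^ 3 * 1 := by gcongr; linarith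
        _ = (l : ℝ) ^ 4 := by ring)
    (by
      rw [hYe]
      rw [← hY] at hε3
      calc (4 * C + 4) * l * s * (Y * (l : ℝ) ^ 2) = (4 * C + 4) * Y * ((l : ℝ) ^ 3 * s) := by ring
        _ ≤ cg * ((l : ℝ) ^ 3 * s) := by gcongr
        _ = _ := by ring)
    (fun n ω hω => by
      have := h2 D A Λ (20 * b) l δ C c ε κ x (x + s) hΛ hC hl4 hκ0 hκ1 (hcg ▸ hκ2) (hcg ▸ hε2) hQu
        hx1 (by linarith) hz3 (by linarith) (n + 1) ω hω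
      rw [hsx, ← hcg] at this
      exact this)
    hbad _ le_rfl (allOpen D)
  rw [hYe] at tl
  push_cast at tl
  rw [← hs]
  refine FinS.arith _ _ _ _ _ _ ((l : ℝ) ^ (3 * b)) (cg * (l : ℝ) ^ 3 * s) _ ((l : ℝ) ^ K₀)
    (Λ * l) _ _ (by positivity) (by positivity) (by positivity) (kp x Mx Rx) (kp _ Mz Rz) tl ?_
    (a6.trans (le_of_eq (by rw [hs]; ring))) ?_
  · have := hbad _ le_rfl
    have e : 2 / (l : ℝ) ^ (20 * b) = 1 / (l : ℝ) ^ (20 * b) + 1 / (l : ℝ) ^ (20 * b) := by ring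
    rw [e]
    gcongr
  · have e1 : (l : ℝ) ≤ (l : ℝ) ^ 3 := le_self_pow₀ (by linarith) (by norm_num)
    calc 1 / (1024 * ((D : ℝ) + 1)) * s * (Λ * l) = cg * l * s / 2 := by
          rw [hcg]; field_simp; ring
      _ ≤ cg * (l : ℝ) ^ 3 * s / 2 := by gcongr

end Pool.Agent.MP_8c549f_pr.L2

end
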