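import Pool.Agent.MP_8c549f_pr.L2.SpecB

/-! PROJECT L2: the edges above the end of a first passage are fresh. -/

noncomputable section

namespace Pool.Agent.MP_8c549f_pr.L2

open MeasureTheory Finset Real Classical S3

namespace FrS

variable {D : ℕ}

theorem edge_le (x : V D) (s : Step D) : (edge x s).1 0 ≤ x 0 := by
  obtain ⟨i, b⟩ := s
  cases b
  · by_cases h : (0 : Fin (D + 1)) = i
    · subst h; simp [edge]
    · simp [edge, Pi.single_eq_of_ne h]
  · simp [edge]

theorem wr_le_one (lam : ℝ) (ω : Cfg D) (x : V D) (l : List (Step D)) : wr lam ω x l ≤ 1 := by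
  rw [wr_eq_W]
  exact ENNReal.toReal_le_of_le_ofReal zero_le_one (by simpa using W_le_one lam ω l x)

theorem ovw_comm {S T : Set (Edge D)} (h : ∀ e ∈ S, e ∉ T) (η ω' ω : Cfg D) :
    ovw S η (ovw T ω' ω) = ovw T ω' (ovw S η ω) := by
  funext e
  by_cases h1 : e ∈ S
  · simp [ovw, h1, h e h1]
  · simp [ovw, h1]

theorem wr_ovw (lam : ℝ) {l : List (Step D)} (hl : Rec l) (ω' z : Cfg D) :
    wr lam (ovw {e : Edge D | lev l ≤ e.1 0} ω' z) 0 l = wr lam z 0 l := by
  rw [wr_eq_W, wr_eq_W, W_congr lam (ω' := z) l 0]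
  intro i hi s
  have h1 := edge_le (0 + loc l i) s
  have h2 : (0 + loc l i) 0 < lev l := by rw [zero_add]; exact hl i hi
  exact if_neg (show ¬ lev l ≤ (edge (0 + loc l i) s).1 0 by omega)

theorem shift_ovw (l : List (Step D)) (ω' z : Cfg D) :
    shift (pos l) (ovw {e : Edge D | lev l ≤ e.1 0} ω' z) =
      ovw (Past D) (shift (pos l) z) (shift (pos l) ω') := by
  funext e
  have h0 : (e.1 + pos l) 0 = e.1 0 + lev l := rfl
  by_cases h : e.1 0 ≤ -1
  · rw [ovw, if_pos (show e ∈ Past D from h)]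
    exact if_neg (show ¬ lev l ≤ (e.1 + pos l) 0 by omega)
  · rw [ovw, if_neg (show e ∉ Past D from h)]
    exact if_pos (show lev l ≤ (e.1 + pos l) 0 by omega)

theorem BM_term (lam : ℝ) (l : List (Step D)) {u : Cfg D → ℝ} (hu : BM u) :
    BM fun ω => wr lam ω 0 l * u (shift (pos l) ω) := by
  obtain ⟨hm, C, hC⟩ := hu
  refine ⟨(measurable_wr lam 0 l).mul (hm.comp (measurable_shift _)), C, fun ω => ?_⟩
  rw [abs_mul, abs_of_nonneg (wr_nonneg l 0)]
  exact (mul_le_of_le_one_left (abs_nonneg _) (wr_le_one lam ω 0 l)).trans (hC _)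

end FrS

theorem frS (hM : MPStmt) (hV : VBStmt) : FRStmt := by
  intro D p lam h0 h1 u hu
  have := perc_prob D h0 h1
  obtain ⟨mp1, mp2⟩ := hM D p h0 h1
  obtain ⟨v1, v2, v3, -, -⟩ := hV D p h0 h1
  have key : ∀ (S : Set (Edge D)) (η : Cfg D) (l : List (Step D)), S ⊆ Past D → Rec l →
      0 ≤ lev l →
      ∫ ω, wr lam (ovw S η ω) 0 l * u (shift (pos l) (ovw S η ω)) ∂perc D p =
        ∫ ω, wr lam (ovw S η ω) 0 l * Fr p u (shift (pos l) (ovw S η ω)) ∂perc D p := by
    intro S η l hS hl hlev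
    obtain ⟨hm, C, hC⟩ := FrS.BM_term lam l hu
    have hF : Measurable fun ω => wr lam (ovw S η ω) 0 l * u (shift (pos l) (ovw S η ω)) :=
      hm.comp (v1 S η)
    have hT := mp1 {e : Edge D | lev l ≤ e.1 0}
    have hdis : ∀ e ∈ S, e ∉ {e : Edge D | lev l ≤ e.1 0} := fun e he h => by
      have h2 : e.1 0 ≤ -1 := hS he
      have h3 : lev l ≤ e.1 0 := h
      omega
    have e1 := integral_map (μ := (perc D p).prod (perc D p)) hT.measurable.aemeasurable
      hF.aestronglyMeasurable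
    rw [hT.map_eq] at e1
    refine e1.trans ((integral_prod_symm _ (Integrable.of_bound
      (hF.comp hT.measurable).aestronglyMeasurable C (ae_of_all _ fun q => hC _))).trans ?_)
    refine integral_congr_ae (ae_of_all _ fun ω => ?_)
    simp only [Function.comp_apply, FrS.ovw_comm hdis, FrS.wr_ovw lam hl, FrS.shift_ovw]
    rw [integral_const_mul, Fr]
    have e2 := integral_map (μ := perc D p) (mp2 (pos l)).measurable.aemeasurable
      (hu.1.comp (v1 (Past D) (shift (pos l) (ovw S η ω)))).aestronglyMeasurable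
    rw [(mp2 (pos l)).map_eq] at e2
    exact congrArg _ e2.symm
  refine ⟨key, fun L N η => ?_⟩
  refine (integral_finsetSum _ fun l _ => v2 _ _ (FrS.BM_term lam l hu) (v1 _ η)).trans
    ((sum_congr rfl fun l hl => ?_).trans
      (integral_finsetSum _ fun l _ => v2 _ _ (FrS.BM_term lam l (v3 u hu)) (v1 _ η)).symm)
  obtain ⟨-, h2, h3⟩ := mem_Lg.1 hl
  exact key (Past D) η l subset_rfl h2 (by rw [h3]; exact Int.natCast_nonneg L)

end Pool.Agent.MP_8c549f_pr.L2

end
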