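import Mathlib.Analysis.Complex.ExponentialBounds
import Pool.Agent.MP_8c549f_pr.L2.Basic

/-! PROJECT L2, row Gb: the bound on the Green function against the comparison function. -/

noncomputable section

namespace Pool.Agent.MP_8c549f_pr.L2

open MeasureTheory Finset Real Classical S3

namespace Gb

variable {D : ℕ} {lam : ℝ} {ω : Cfg D}

theorem sum_le_supp (A Q : Finset (V D)) (F : V D → ℝ) (h0 : ∀ y, 0 ≤ F y)
    (h : ∀ y, F y ≠ 0 → y ∈ Q) : ∑ y ∈ A, F y ≤ ∑ y ∈ Q, F y := by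
  rw [← sum_filter_ne_zero A]
  exact sum_le_sum_of_subset_of_nonneg (fun y hy => h y (mem_filter.1 hy).2) fun y _ _ => h0 y

theorem pim_nn (x : V D) : 0 ≤ pim lam ω x := by
  rw [← sum_cnd]; exact sum_nonneg fun s _ => cnd_nonneg x s

theorem En_nn (Q : Finset (V D)) (g : V D → ℝ) : 0 ≤ En lam ω Q g := by
  rw [En_eq]
  exact sum_nonneg fun x _ => sum_nonneg fun s _ => mul_nonneg (cnd_nonneg x s) (sq_nonneg _)

theorem sup_nb (U : Finset (V D)) (g : V D → ℝ) (h : ∀ y, g y ≠ 0 → y ∈ U) :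
    Sup g (U.biUnion fun y => ball y 1) := fun x hx =>
  ⟨mem_biUnion.2 ⟨x, h x hx, self_mem_ball x 1⟩, fun s =>
    mem_biUnion.2 ⟨x, h x hx, mem_ball.2 (by simp)⟩⟩

theorem gs_off {U : Set (V D)} (v : V D → ℝ) (n : ℕ) {y : V D} (hy : y ∉ U) :
    Gs lam ω U n (U.indicator v) y = 0 := by
  cases n with
  | zero => rfl
  | succ n => rw [Gs_succ_not hy, Set.indicator_of_notMem hy]

theorem gs_sub {U : Set (V D)} {v : V D → ℝ} (hv : ∀ y, 0 ≤ v y) (n : ℕ) (y : V D) :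
    Gs lam ω U n (U.indicator v) y - Pf lam ω (Gs lam ω U n (U.indicator v)) y ≤
      U.indicator v y := by
  have ha : ∀ z, 0 ≤ U.indicator v z := fun z => Set.indicator_nonneg (fun z _ => hv z) z
  have hP := Pf_nonneg (lam := lam) (ω := ω) (Gs_nonneg (lam := lam) (ω := ω) (U := U) ha n) y
  by_cases hy : y ∈ U
  · cases n with
    | zero => rw [Gs_zero]; linarith [ha y]
    | succ n =>
      have := Pf_mono (lam := lam) (ω := ω)
        (Gs_time (lam := lam) (ω := ω) (U := U) ha (Nat.le_succ n)) y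
      rw [Gs_succ_mem hy]; linarith
  · rw [gs_off v n hy]; linarith [ha y]

theorem lev_le (x y : V D) : |(y 0 : ℝ) - x 0| ≤ nrm (y - x) := by
  have := abs_le_nrm (y - x) 0
  rw [Pi.sub_apply] at this
  exact_mod_cast this

/-- the weight of the source term -/
theorem src_le (h0 : 0 ≤ lam) (h1 : lam ≤ 1) {ψ : V D → ℝ} {e : ℝ} (hψ : Lip ψ (e / 2))
    (x y : V D) : pim lam ω y * (et e x y * wf lam ψ y) ^ 2 ≤
      (2 * D + 4) * exp (2 * ψ x) * et e x y := by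
  have h2 := (abs_le.1 (hψ y x)).2
  calc pim lam ω y * (et e x y * wf lam ψ y) ^ 2
      ≤ (2 * D + 4) * exp (2 * lam * (y 0 : ℝ)) * (et e x y * wf lam ψ y) ^ 2 :=
        mul_le_mul_of_nonneg_right (pim_le h0 h1 y) (sq_nonneg _)
    _ = (2 * D + 4) * exp (2 * ψ y - 2 * (e * (nrm (y - x) : ℝ))) := by
        rw [mul_assoc, et, wf, ← exp_add, sq, ← exp_add, ← exp_add]
        congr 2; ring
    _ ≤ (2 * D + 4) * exp (2 * ψ x + -(e * (nrm (y - x) : ℝ))) :=
        mul_le_mul_of_nonneg_left (exp_le_exp.2 (by linarith)) (by positivity)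
    _ = _ := by rw [exp_add, et, mul_assoc]

/-- the weighted square norm of the Green sum -/
theorem l2 (hE : EN2Stmt) {K L e : ℝ} (hK : 1 ≤ K) (hL : 1 ≤ L) (he : 0 < e) (he1 : e ≤ 1)
    (he2 : 8 * K * e ^ 2 = 1) (Q : Finset (V D)) (x : V D) (u a : V D → ℝ) (hu : ∀ y, 0 ≤ u y)
    (hs : Sup u Q) (ha : ∀ y, u y - Pf lam ω u y ≤ a y)
    (hH : ∑ y ∈ Q, pim lam ω y * (et (e / L) x y * u y) ^ 2 ≤
      K * L ^ 2 * En lam ω Q fun y => et (e / L) x y * u y) :
    ∑ y ∈ Q, pim lam ω y * (et (e / L) x y * u y) ^ 2 ≤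
      16 * K ^ 2 * L ^ 4 * ∑ y ∈ Q, pim lam ω y * (et (e / L) x y * a y) ^ 2 := by
  have hL0 : 0 < L := by linarith
  have h1 := hE D lam (e / L) ω Q x u (by positivity) ((div_le_one hL0).2 (he1.trans hL)) hs
  set t := K * L ^ 2 with ht
  have t0 : 0 < t := by positivity
  have h2 : t * (2 * ∑ y ∈ Q, pim lam ω y * (et (e / L) x y ^ 2 * u y) * (u y - Pf lam ω u y)) ≤
      (∑ y ∈ Q, pim lam ω y * (et (e / L) x y * u y) ^ 2) / 4 +
        4 * t ^ 2 * ∑ y ∈ Q, pim lam ω y * (et (e / L) x y * a y) ^ 2 := by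
    rw [mul_sum, mul_sum, mul_sum, sum_div, ← sum_add_distrib]
    refine sum_le_sum fun y _ => ?_
    have p0 := pim_nn (lam := lam) (ω := ω) y
    have q0 : 0 ≤ pim lam ω y * (et (e / L) x y ^ 2 * u y) :=
      mul_nonneg p0 (mul_nonneg (sq_nonneg _) (hu y))
    have q1 := mul_le_mul_of_nonneg_left (mul_le_mul_of_nonneg_left (ha y) q0) t0.le
    have q2 := mul_nonneg p0 (sq_nonneg (et (e / L) x y * u y / 2 - 2 * t * (et (e / L) x y * a y)))
    nlinarith [q1, q2]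
  have h3 : t * (4 * (e / L) ^ 2) = 1 / 2 := by
    rw [ht]; field_simp; linarith
  have h4 := mul_le_mul_of_nonneg_left h1 t0.le
  rw [mul_add, ← mul_assoc t (4 * (e / L) ^ 2), h3] at h4
  have h5 : 16 * K ^ 2 * L ^ 4 = 16 * t ^ 2 := by rw [ht]; ring
  rw [h5]; linarith

theorem exp_le_two {s : ℝ} (h : s ≤ 5 / 8) : exp s ≤ 2 := by
  have := Real.log_two_gt_d9
  calc exp s ≤ exp (log 2) := exp_le_exp.2 (by linarith)
    _ = 2 := exp_log (by norm_num)

/-- the comparison function changes by a factor at most two -/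
theorem wf_le (h0 : 0 ≤ lam) {ψ : V D → ℝ} {c : ℝ} (hψ : Lip ψ c) (x y : V D)
    (h : (lam + c) * nrm (y - x) ≤ 5 / 8) : wf lam ψ y ≤ 2 * wf lam ψ x := by
  have h1 := (abs_le.1 (hψ y x)).2
  have h2 := mul_le_mul_of_nonneg_left (abs_le.1 (lev_le x y)).1 h0
  have h3 : exp (-(lam * (y 0 : ℝ)) + ψ y - (-(lam * (x 0 : ℝ)) + ψ x)) ≤ 2 :=
    exp_le_two (by linarith)
  rwa [exp_sub, div_le_iff₀ (exp_pos _)] at h3

/-- lower bound of the weight near the centre -/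
theorem low (h0 : 0 ≤ lam) (h1 : lam ≤ 1) {e : ℝ} (x y : V D) (hy : 0 < Zq lam ω y)
    (h : (lam + e) * nrm (y - x) ≤ 5 / 16) (c : ℝ) :
    exp (2 * lam * (x 0 : ℝ)) * c ^ 2 ≤ 6 * (pim lam ω y * (et e x y * c) ^ 2) := by
  have h2 := mul_le_mul_of_nonneg_left (abs_le.1 (lev_le x y)).1 h0
  have h3 : exp (2 * lam * (x 0 : ℝ) - (2 * lam * (y 0 : ℝ) + (-(e * (nrm (y - x) : ℝ)) +
      -(e * (nrm (y - x) : ℝ))))) ≤ 2 := exp_le_two (by linarith)
  rw [exp_sub, div_le_iff₀ (exp_pos _), exp_add, exp_add, ← sq] at h3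
  have h4 := mul_le_mul_of_nonneg_right (le_pim (ω := ω) h0 h1 hy) (sq_nonneg (et e x y))
  have h5 : exp (2 * lam * (x 0 : ℝ)) ≤ 6 * (pim lam ω y * et e x y ^ 2) := by
    unfold et at h4 ⊢; linarith
  have := mul_le_mul_of_nonneg_right h5 (sq_nonneg c)
  rw [mul_pow]; linarith

end Gb

open Gb in
theorem gb (hE : EN2Stmt) (hH : HDStmt) (hT : THStmt) (hM : MVStmt) : GBStmt := by
  intro D
  obtain ⟨K, hK, HD⟩ := hH D
  obtain ⟨CT, hCT, TH⟩ := hT D
  obtain ⟨CM, M, hCM, -, MV⟩ := hM D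
  obtain ⟨e, he, he2⟩ : ∃ e : ℝ, 0 < e ∧ 8 * K * e ^ 2 = 1 :=
    ⟨√(1 / (8 * K)), by positivity, by rw [sq_sqrt (by positivity)]; field_simp⟩
  have he1 : e ≤ 1 := by
    by_contra c
    have c' := not_le.1 c
    nlinarith [mul_le_mul hK (show 1 ≤ e ^ 2 by nlinarith) zero_le_one (by linarith)]
  obtain ⟨E, hE0, hE2⟩ : ∃ E : ℝ, 0 ≤ E ∧
      E ^ 2 = 96 * K ^ 2 * ((2 * D + 4) * CT / e ^ (D + 1)) * 32 ^ (D + 1) :=
    ⟨√_, sqrt_nonneg _, sq_sqrt (by positivity)⟩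
  have hCE : 0 ≤ CM * E := by positivity
  refine ⟨e / 2, 2 * (2 + CM * E), (M * 16) ^ 6, by positivity, by linarith, by linarith, ?_⟩
  intro ω R m h δ rep w hG l lam hl hS U ψ hU hψ n y
  have L0 := hS.lpos
  have L16 : (16 : ℝ) ≤ l := by exact_mod_cast hS.l16
  have lam0 := hS.pos
  have lam1 : lam ≤ 1 := by linarith [hS.le_quarter]
  have hv : ∀ z, 0 < wf lam ψ z := fun z => exp_pos _
  set a := (U : Set (V D)).indicator (wf lam ψ) with hadef
  have ha0 : ∀ z, 0 ≤ a z := fun z => Set.indicator_nonneg (fun z _ => (hv z).le) z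
  have hav : ∀ z, a z ≤ wf lam ψ z := fun z => Set.indicator_le_self' (fun z _ => (hv z).le) z
  set u := Gs lam ω U n a with hudef
  have hu0 : ∀ z, 0 ≤ u z := Gs_nonneg ha0 n
  have hoff : ∀ z, z ∉ U → u z = 0 := fun z hz => gs_off _ n (by simpa using hz)
  have hsub : ∀ z, u z - Pf lam ω u z ≤ a z := gs_sub (fun z => (hv z).le) n
  by_cases hy : y ∈ U
  swap
  · rw [hoff y hy]; have := hv y; positivity
  obtain ⟨x, hx, hmax⟩ := exists_max_image U (fun z => u z / wf lam ψ z) ⟨y, hy⟩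
  set S := u x / wf lam ψ x with hSdef
  have S0 : 0 ≤ S := div_nonneg (hu0 x) (hv x).le
  have huS : ∀ z, u z ≤ S * wf lam ψ z := fun z => by
    by_cases hz : z ∈ U
    · exact (div_le_iff₀ (hv z)).1 (hmax z hz)
    · rw [hoff z hz]; exact mul_nonneg S0 (hv z).le
  suffices hfin : S ≤ 2 * (2 + CM * E) * (l : ℝ) ^ 2 from
    (huS y).trans (mul_le_mul_of_nonneg_right hfin (hv y).le)
  -- the energy estimate
  have hin : ∀ z, u z ≠ 0 → z ∈ U := fun z hz => by_contra fun c => hz (hoff z c)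
  have hin' : ∀ z, et (e / l) x z * u z ≠ 0 → z ∈ U := fun z hz => hin z (right_ne_zero_of_mul hz)
  have m16 := hS.m16
  have l16 := hS.l16
  have hhm := hG.hm
  have hlm : lam * m ≤ 1 := by
    have : (16 * m : ℝ) ≤ l := by exact_mod_cast m16
    nlinarith [hS.mul_le]
  set Q := U.biUnion fun y => ball y 1 with hQ
  have h1 := (HD ω R m h δ rep w hG lam (fun z => et (e / l) x z * u z) Q lam0 hlm
    (fun z hz => by have := (hU z (hin' z hz)).2; omega) (sup_nb U _ hin')).2.2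
    fun z hz => (hU z (hin' z hz)).1
  have hKl : K / lam ^ 2 ≤ K * (l : ℝ) ^ 2 := by
    rw [div_le_iff₀ (by positivity), mul_assoc, ← mul_pow]
    have : 1 ≤ ((l : ℝ) * lam) ^ 2 := one_le_pow₀ (by linarith [hS.le_mul])
    nlinarith
  have h2 := l2 hE hK (by linarith) he he1 he2 Q x u a hu0 (sup_nb U _ hin) hsub
    (h1.trans (mul_le_mul_of_nonneg_right hKl (En_nn _ _)))
  have el0 : 0 < e / l := by positivity
  have el1 : e / l ≤ 1 / l := div_le_div_of_nonneg_right he1 L0.le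
  have hψ' : Lip ψ (e / l / 2) := by rwa [div_right_comm]
  have h3 : ∑ z ∈ Q, pim lam ω z * (et (e / l) x z * a z) ^ 2 ≤
      (2 * D + 4) * exp (2 * ψ x) * (CT / (e / l) ^ (D + 1)) := by
    refine le_trans (sum_le_sum fun z _ => ?_) ((mul_sum _ _ _).symm.trans_le
      (mul_le_mul_of_nonneg_left (TH (e / l) x Q el0 ((div_le_one L0).2 (by linarith))).1
        (by positivity)))
    refine le_trans ?_ (src_le (ω := ω) lam0.le lam1 hψ' x z)
    have e0 : 0 ≤ et (e / l) x z := (exp_pos _).le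
    exact mul_le_mul_of_nonneg_left (pow_le_pow_left₀ (mul_nonneg e0 (ha0 z))
      (mul_le_mul_of_nonneg_left (hav z) e0) 2) (pim_nn z)
  -- the small ball
  obtain ⟨r, hr⟩ : ∃ r, r = l / 16 := ⟨_, rfl⟩
  have r1 : (16 * r : ℝ) ≤ l := by exact_mod_cast (show 16 * r ≤ l by omega)
  have r2 : (l : ℝ) ≤ 32 * r := by exact_mod_cast (show l ≤ 32 * r by omega)
  have r0 : (0 : ℝ) < r := by linarith
  have c5 : lam + e / l ≤ 5 / l := by
    have := hS.hi
    have : (5 : ℝ) / l = 4 / l + 1 / l := by ring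
    linarith
  have near : ∀ z (c : ℝ), (nrm (z - x) : ℝ) ≤ c * l → (lam + e / l) * nrm (z - x) ≤ 5 * c :=
    fun z c hz => by
      calc (lam + e / l) * nrm (z - x) ≤ 5 / l * (c * l) :=
            mul_le_mul c5 hz (Nat.cast_nonneg _) (by positivity)
        _ = 5 * c := by field_simp
  have h4 : exp (2 * lam * (x 0 : ℝ)) * ∑ z ∈ wb' ω h x r, max (u z) 0 ^ 2 ≤
      6 * ∑ z ∈ Q, pim lam ω z * (et (e / l) x z * u z) ^ 2 := by
    refine le_trans ?_ (mul_le_mul_of_nonneg_left (sum_le_supp (wb' ω h x r) Q _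
      (fun z => mul_nonneg (pim_nn z) (sq_nonneg _)) fun z hz =>
        (sup_nb U _ hin' z fun c => hz (by rw [c]; simp)).1) (by norm_num))
    rw [mul_sum, mul_sum]
    refine sum_le_sum fun z hz => ?_
    obtain ⟨z1, z2⟩ := mem_wb'.1 hz
    have z3 : (nrm (z - x) : ℝ) ≤ r := by exact_mod_cast z1
    rw [max_eq_left (hu0 z)]
    exact low lam0.le lam1 x z (wide_Zq hG.h1 z2 lam)
      (by linarith [near z (1 / 16) (by linarith)]) _
  have h5 : (∑ z ∈ wb' ω h x r, max (u z) 0 ^ 2) / (r : ℝ) ^ (D + 1) ≤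
      (E * (l : ℝ) ^ 2 * wf lam ψ x) ^ 2 := by
    have w2 : exp (2 * ψ x) = exp (2 * lam * (x 0 : ℝ)) * wf lam ψ x ^ 2 := by
      rw [wf, sq, ← exp_add, ← exp_add]; congr 1; ring
    have p1 : (l : ℝ) ^ (D + 1) ≤ 32 ^ (D + 1) * (r : ℝ) ^ (D + 1) := by
      rw [← mul_pow]; exact pow_le_pow_left₀ L0.le r2 _
    rw [div_le_iff₀ (by positivity)]
    refine le_of_mul_le_mul_left ?_ (exp_pos (2 * lam * (x 0 : ℝ)))
    calc _ ≤ 6 * (16 * K ^ 2 * (l : ℝ) ^ 4 *
          ((2 * D + 4) * exp (2 * ψ x) * (CT / (e / l) ^ (D + 1)))) :=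
          h4.trans (mul_le_mul_of_nonneg_left
            (h2.trans (mul_le_mul_of_nonneg_left h3 (by positivity))) (by norm_num))
      _ = 96 * K ^ 2 * ((2 * D + 4) * CT / e ^ (D + 1)) * (l : ℝ) ^ 4 * exp (2 * ψ x) *
          (l : ℝ) ^ (D + 1) := by rw [div_pow]; field_simp; norm_num
      _ ≤ 96 * K ^ 2 * ((2 * D + 4) * CT / e ^ (D + 1)) * (l : ℝ) ^ 4 * exp (2 * ψ x) *
          (32 ^ (D + 1) * (r : ℝ) ^ (D + 1)) := mul_le_mul_of_nonneg_left p1 (by positivity)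
      _ = _ := by rw [mul_pow, mul_pow, hE2, w2]; ring
  have h6 : √((∑ z ∈ wb' ω h x r, max (u z) 0 ^ 2) / (r : ℝ) ^ (D + 1)) ≤
      E * (l : ℝ) ^ 2 * wf lam ψ x :=
    sqrt_le_iff.2 ⟨by have := hv x; positivity, h5⟩
  have two : ∀ z, nrm (z - x) ≤ r + 1 → wf lam ψ z ≤ 2 * wf lam ψ x := fun z hz => by
    have z3 : (nrm (z - x) : ℝ) ≤ r + 1 := by exact_mod_cast hz
    have z4 := near z (1 / 8) (by linarith)
    have z5 : (lam + e / l / 2) * nrm (z - x) ≤ (lam + e / l) * nrm (z - x) :=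
      mul_le_mul_of_nonneg_right (by linarith) (Nat.cast_nonneg _)
    exact wf_le lam0.le hψ' x z (by linarith)
  have hbig := hS.big hl
  have h7 := MV ω R m h δ rep w hG lam x r u (2 * wf lam ψ x) (2 * (S * wf lam ψ x)) lam0.le lam1
    (by nlinarith [hS.mul_le]) (by have := (hU x hx).2; omega) (hU x hx).1
    (by rw [mul_right_comm] at hbig; omega) (by have := hv x; positivity)
    (by have := hv x; positivity)
    (fun z hz => (hsub z).trans ((hav z).trans (two z ((mem_wb'.1 hz).1.trans (Nat.le_succ r)))))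
    (fun z hz => (huS z).trans (by
      have := mul_le_mul_of_nonneg_left (two z (mem_wb'.1 hz).1) S0
      linarith))
  have hux : u x = S * wf lam ψ x := by rw [hSdef, div_mul_cancel₀ _ (hv x).ne']
  have h8 := mul_le_mul_of_nonneg_left h6 (show 0 ≤ CM by linarith)
  have h9 : (r : ℝ) ^ 2 * (2 * wf lam ψ x) ≤ (l : ℝ) ^ 2 * (2 * wf lam ψ x) :=
    mul_le_mul_of_nonneg_right (pow_le_pow_left₀ r0.le (by linarith) 2) (by linarith [hv x])
  have h10 : 0 ≤ S * wf lam ψ x := mul_nonneg S0 (hv x).le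
  refine le_of_mul_le_mul_right ?_ (hv x)
  linarith

end Pool.Agent.MP_8c549f_pr.L2

end
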