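import Pool.Agent.MP_8c549f_pr.L2.Basic

/-! PROJECT L2, row Gc: consequences of a bound on the Green sums. -/

noncomputable section

namespace Pool.Agent.MP_8c549f_pr.L2

open MeasureTheory Finset Real Classical S3
open scoped ENNReal

namespace Gc

variable {D : ℕ} {lam : ℝ} {ω : Cfg D}

theorem diag (t : ℕ → ℝ) (ht : ∀ k, 0 ≤ t k) (n : ℕ) :
    ∑ k ∈ range n, ((k : ℝ) + 1) * t k ≤ ∑ j ∈ range n, ∑ i ∈ range n, t (j + i) := by
  have h := Finset.sum_range_diag_flip n fun j i => t (j + i)
  have e : ∑ k ∈ range n, ((k : ℝ) + 1) * t k =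
      ∑ m ∈ range n, ∑ k ∈ range (m + 1), t (k + (m - k)) := by
    refine sum_congr rfl fun m _ => ?_
    rw [sum_congr rfl fun k hk => show t (k + (m - k)) = t m by
      rw [Nat.add_sub_cancel' (Nat.lt_succ_iff.1 (mem_range.1 hk))]]
    simp
  rw [e, h]
  exact sum_le_sum fun j _ =>
    sum_le_sum_of_subset_of_nonneg (range_mono (Nat.sub_le _ _)) fun i _ _ => ht _

theorem tsum_mem {U : Set (V D)} {g : V D → ℝ} (hs : ∀ y, Summable fun k => Pk lam ω U k g y)
    {y : V D} (hy : y ∈ U) :
    ∑' k, Pk lam ω U k g y = g y + Pf lam ω (fun z => ∑' k, Pk lam ω U k g z) y := by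
  rw [(hs y).tsum_eq_zero_add, Pk_zero]
  congr 1
  simp only [Pk_succ_mem hy, Pf]
  rw [Summable.tsum_finsetSum fun s _ => (hs _).mul_left _]
  exact sum_congr rfl fun s _ => tsum_mul_left

theorem tsum_not {U : Set (V D)} (g : V D → ℝ) {y : V D} (hy : y ∉ U) :
    ∑' k, Pk lam ω U k g y = g y := by
  rw [tsum_eq_single 0]
  · rfl
  · intro k hk
    obtain ⟨k, rfl⟩ := Nat.exists_eq_succ_of_ne_zero hk
    exact Pk_succ_not hy k g

/-- a function that vanishes off a finite set is dominated by a multiple of a positive one -/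
theorem dom (U : Finset (V D)) {v : V D → ℝ} (hv : ∀ y, 0 < v y) (f : V D → ℝ) :
    ∃ M : ℝ, 0 ≤ M ∧ ∀ y, |(U : Set (V D)).indicator f y| ≤ M * (U : Set (V D)).indicator v y := by
  refine ⟨∑ z ∈ U, |f z| / v z, sum_nonneg fun z _ => div_nonneg (abs_nonneg _) (hv z).le,
    fun y => ?_⟩
  by_cases hy : y ∈ U
  · rw [Set.indicator_of_mem (by simpa using hy), Set.indicator_of_mem (by simpa using hy),
      ← div_le_iff₀ (hv y)]
    exact single_le_sum (f := fun z => |f z| / v z)
      (fun z _ => div_nonneg (abs_nonneg _) (hv z).le) hy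
  · rw [Set.indicator_of_notMem (by simpa using hy), Set.indicator_of_notMem (by simpa using hy)]
    simp

theorem decay {U : Set (V D)} {a : V D → ℝ} {A : ℝ} (hA : 1 ≤ A) (a0 : ∀ y, 0 ≤ a y)
    (hG : ∀ n y, Gs lam ω U n a y ≤ A * a y) (n : ℕ) (y : V D) :
    Pk lam ω U n a y ≤ A * exp (-(n / A)) * a y := by
  have hA0 : 0 < A := by linarith
  have hs : ∀ z, Summable fun k => Pk lam ω U k a z := fun z =>
    summable_of_sum_range_le (fun k => Pk_nonneg a0 k z) fun m => hG m z
  set w : V D → ℝ := fun z => ∑' k, Pk lam ω U k a z with hw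
  have w1 : ∀ z, w z ≤ A * a z := fun z =>
    Real.tsum_le_of_sum_range_le (fun k => Pk_nonneg a0 k z) fun m => hG m z
  have w0 : ∀ z, a z ≤ w z := fun z =>
    (hs z).le_tsum 0 fun k _ => Pk_nonneg a0 k z
  have q0 : 0 ≤ 1 - 1 / A := by
    have : 1 / A ≤ 1 := (div_le_one hA0).2 hA
    linarith
  have step : ∀ z, Pu lam ω U w z ≤ (1 - 1 / A) * w z := by
    intro z
    by_cases hz : z ∈ U
    · rw [Pu_of_mem hz]
      have e : w z = a z + Pf lam ω w z := tsum_mem hs hz
      have : 1 / A * w z ≤ a z := by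
        rw [one_div, inv_mul_le_iff₀ hA0]; exact w1 z
      linarith
    · rw [Pu_of_not hz]; exact mul_nonneg q0 ((a0 z).trans (w0 z))
  have it : ∀ (m : ℕ) z, Pk lam ω U m w z ≤ (1 - 1 / A) ^ m * w z := by
    intro m
    induction m with
    | zero => intro z; simp
    | succ m ih =>
      intro z
      rw [Pk_succ']
      refine (Pk_mono step m z).trans ?_
      rw [Pk_mul, pow_succ', mul_assoc]
      exact mul_le_mul_of_nonneg_left (ih z) q0
  have ex : (1 - 1 / A) ^ n ≤ exp (-(n / A)) := by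
    have h1 : 1 - 1 / A ≤ exp (-(1 / A)) := by linarith [add_one_le_exp (-(1 / A))]
    calc (1 - 1 / A) ^ n ≤ exp (-(1 / A)) ^ n := pow_le_pow_left₀ q0 h1 n
      _ = exp (-(n / A)) := by rw [← exp_nat_mul]; congr 1; ring
  calc Pk lam ω U n a y ≤ Pk lam ω U n w y := Pk_mono w0 n y
    _ ≤ (1 - 1 / A) ^ n * w y := it n y
    _ ≤ exp (-(n / A)) * (A * a y) :=
        mul_le_mul ex (w1 y) ((a0 y).trans (w0 y)) (exp_pos _).le
    _ = _ := by ring

end Gc

theorem gc : GCStmt := by
  intro D lam ω U v A hA hv hG0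
  have hA0 : 0 < A := by linarith
  set a : V D → ℝ := (U : Set (V D)).indicator v with ha
  have a0 : ∀ y, 0 ≤ a y := fun y => Set.indicator_nonneg (fun z _ => (hv z).le) y
  have a1 : ∀ y, a y ≤ v y := fun y => Set.indicator_le_self' (fun z _ => (hv z).le) y
  have hG : ∀ n y, Gs lam ω U n a y ≤ A * a y := by
    intro n y
    by_cases hy : y ∈ (U : Set (V D))
    · rw [show a y = v y from Set.indicator_of_mem hy _]; exact hG0 n y
    · have e : a y = 0 := Set.indicator_of_notMem hy _
      cases n with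
      | zero => rw [Gs_zero, e, mul_zero]
      | succ n => rw [Gs_succ_not hy, e, mul_zero]
  have hd : ∀ (n : ℕ) y, Pk lam ω U n a y ≤ A * exp (-(n / A)) * v y := fun n y =>
    (Gc.decay hA a0 hG n y).trans (mul_le_mul_of_nonneg_left (a1 y) (by positivity))
  refine ⟨fun n y => ?_, hd, fun g => ?_, fun u hu hu0 y => ?_⟩
  · refine (Gc.diag (fun k => Pk lam ω U k a y) (fun k => Pk_nonneg a0 k y) n).trans ?_
    have e : ∑ j ∈ range n, ∑ i ∈ range n, Pk lam ω U (j + i) a y =
        Gs lam ω U n (Gs lam ω U n a) y := by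
      refine sum_congr rfl fun j _ => ?_
      simp only [Pk_add_apply]
      exact (Pk_sum (range n) (fun i => Pk lam ω U i a) j y).symm
    rw [e]
    refine (Gs_mono (hG n) n y).trans ?_
    rw [Gs_mul, sq, mul_assoc]
    exact mul_le_mul_of_nonneg_left (hG0 n y) hA0.le
  · obtain ⟨M, -, hM⟩ := Gc.dom U hv (Pf lam ω g)
    have hs : ∀ y, Summable fun k => Pk lam ω U k g y := by
      intro y
      rw [← summable_nat_add_iff 1]
      refine Summable.of_norm_bounded (g := fun k => M * Pk lam ω U k a y)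
        ((summable_of_sum_range_le (fun k => Pk_nonneg a0 k y) fun m => hG m y).mul_left M)
        fun k => ?_
      rw [Real.norm_eq_abs, Pk_succ', ← Pk_mul]
      exact abs_Pk_le hM k y
    exact ⟨fun y => ∑' k, Pk lam ω U k g y, fun y hy => Gc.tsum_mem hs (by simpa using hy),
      fun y hy => Gc.tsum_not g (by simpa using hy)⟩
  · set b : V D → ℝ := (U : Set (V D)).indicator fun z => max (u z) 0 with hb
    obtain ⟨M, M0, hM⟩ := Gc.dom U hv fun z => max (u z) 0
    have b0 : ∀ z, 0 ≤ b z := fun z => Set.indicator_nonneg (fun z _ => le_max_right _ _) z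
    have ub : ∀ z, u z ≤ b z := by
      intro z
      by_cases hz : z ∈ U
      · rw [show b z = max (u z) 0 from Set.indicator_of_mem (by simpa using hz) _]
        exact le_max_left _ _
      · exact (hu0 z hz).trans (b0 z)
    have st : ∀ z, b z ≤ Pu lam ω U b z := by
      intro z
      by_cases hz : z ∈ (U : Set (V D))
      · rw [Pu_of_mem hz, show b z = max (u z) 0 from Set.indicator_of_mem hz _]
        exact max_le ((hu z (by simpa using hz)).trans (Pf_mono ub z)) (Pf_nonneg b0 z)
      · rw [Pu_of_not hz, show b z = 0 from Set.indicator_of_notMem hz _]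
    have it : ∀ n : ℕ, b y ≤ Pk lam ω U n b y := by
      intro n
      induction n with
      | zero => exact le_rfl
      | succ n ih => rw [Pk_succ']; exact ih.trans (Pk_mono st n y)
    have bd : ∀ n : ℕ, u y ≤ M * (A * exp (-(n / A)) * v y) := by
      intro n
      refine ((ub y).trans (it n)).trans ((Pk_mono (fun z => (le_abs_self _).trans (hM z)) n y).trans ?_)
      rw [Pk_mul]
      exact mul_le_mul_of_nonneg_left (hd n y) M0
    have lim : Filter.Tendsto (fun n : ℕ => M * (A * exp (-(n / A)) * v y)) Filter.atTop (nhds 0) := by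
      have h1 : Filter.Tendsto (fun n : ℕ => exp (-((n : ℝ) / A))) Filter.atTop (nhds 0) :=
        tendsto_exp_neg_atTop_nhds_zero.comp (tendsto_natCast_atTop_atTop.atTop_div_const hA0)
      simpa using ((h1.const_mul A).mul_const (v y)).const_mul M
    exact ge_of_tendsto' lim bd

end Pool.Agent.MP_8c549f_pr.L2

end
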