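import Pool.Agent.MP_8c549f_pr.L2.Basic

/-! PROJECT L2, row GeoS: nice configurations are geometrically good. -/

noncomputable section

namespace Pool.Agent.MP_8c549f_pr.L2

open MeasureTheory Finset Real Classical S3

namespace GeoS

variable {D : ℕ} {ω : Cfg D}

/-- the local energy -/
def El (lam : ℝ) (ω : Cfg D) (f : V D → ℝ) (x : V D) : ℝ :=
  ∑ s, cnd lam ω x s * (f (x + vec s) - f x) ^ 2

theorem El_nonneg (lam : ℝ) (f : V D → ℝ) (x : V D) : 0 ≤ El lam ω f x :=
  sum_nonneg fun s _ => mul_nonneg (cnd_nonneg x s) (sq_nonneg _)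

theorem gd_up {z : V D} {R t t' : ℕ} (h : Gd ω z R t) (ht : t ≤ t') : Gd ω z R t' :=
  fun v hv hc => h v hv ⟨hc.1, hc.2.imp fun _ hx => ⟨ht.trans hx.1, hx.2⟩⟩

theorem term_nonneg (A t : ℕ) (P : Prop) : 0 ≤ (A : ℝ) ^ (t + 1) * S3.ind P := by
  unfold S3.ind
  split_ifs <;> positivity

theorem one_le_wz (A h : ℕ) (z : V D) : 1 ≤ wz A h ω z :=
  le_add_of_nonneg_right (sum_nonneg fun t _ => term_nonneg A t _)

theorem le_wz {A h t : ℕ} {z : V D} (h1 : 1 ≤ t) (h2 : t < h) (hb : ¬ Gd ω z (20 * t) t) :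
    1 + (A : ℝ) ^ (t + 1) ≤ wz A h ω z := by
  have := single_le_sum (f := fun t => (A : ℝ) ^ (t + 1) * S3.ind (¬ Gd ω z (20 * t) t))
    (fun t _ => term_nonneg A t _) (mem_Ico.2 ⟨h1, h2⟩)
  simp only [S3.ind, if_pos hb, mul_one] at this
  simp only [wz, S3.ind]
  linarith

theorem exch {Q Q' : Finset (V D)} {r : ℕ} (h : ∀ z ∈ Q, ball z r ⊆ Q') {E : V D → ℝ}
    (hE : ∀ x, 0 ≤ E x) :
    ∑ z ∈ Q, ∑ x ∈ ball z r, E x ≤ (2 * r + 1 : ℝ) ^ (D + 1) * ∑ x ∈ Q', E x := by
  have e : ∀ z ∈ Q, ∑ x ∈ ball z r, E x = ∑ x ∈ Q', if x ∈ ball z r then E x else 0 := by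
    intro z hz
    rw [sum_ite_mem, inter_eq_right.2 (h z hz)]
  rw [sum_congr rfl e, sum_comm, mul_sum]
  refine sum_le_sum fun x _ => ?_
  rw [← sum_filter, sum_const, nsmul_eq_mul]
  refine mul_le_mul_of_nonneg_right ?_ (hE x)
  have h1 : (Q.filter fun z => x ∈ ball z r).card ≤ (ball x r).card :=
    card_le_card fun z hz => mem_ball.2 (by
      rw [nrm_sub_comm]
      exact mem_ball.1 (mem_filter.1 hz).2)
  rw [card_ball] at h1
  exact_mod_cast h1

/-- the charge at scale `t` -/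
def ch (D A t : ℕ) : ℝ := (10 * t + 1 : ℝ) ^ (D + 1) * exp (10 * t + 1) / (A : ℝ) ^ t

theorem ch_nonneg (D A t : ℕ) : 0 ≤ ch D A t := by
  unfold ch
  positivity

theorem ch_le (D t : ℕ) (ht : 1 ≤ t) :
    ch D (2 * (11 ^ (D + 1) * 11 ^ (D + 1) * 3 ^ 11)) t * (10 * t + 1 : ℝ) ^ (D + 1) ≤
      (1 / 2) ^ t := by
  have h1 : (10 * t + 1 : ℝ) ≤ 11 ^ t := by
    have := one_add_mul_le_pow (a := (10 : ℝ)) (by norm_num) t
    norm_num at this
    linarith
  have h2 : (10 * t + 1 : ℝ) ^ (D + 1) ≤ (11 ^ (D + 1)) ^ t := by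
    rw [← pow_mul, mul_comm (D + 1), pow_mul]
    exact pow_le_pow_left₀ (by positivity) h1 _
  have h3 : exp (10 * t + 1) ≤ (3 ^ 11) ^ t := by
    have ht' : (1 : ℝ) ≤ t := by exact_mod_cast ht
    calc exp (10 * t + 1) ≤ exp ((11 * t : ℕ) : ℝ) := exp_le_exp.2 (by push_cast; linarith)
      _ = exp 1 ^ (11 * t) := (exp_one_pow _).symm
      _ ≤ 3 ^ (11 * t) :=
        pow_le_pow_left₀ (exp_pos _).le (exp_one_lt_d9.le.trans (by norm_num)) _
      _ = _ := pow_mul _ _ _
  rw [ch, div_mul_eq_mul_div, div_le_iff₀ (by positivity)]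
  push_cast
  refine le_trans (b := ((11 : ℝ) ^ (D + 1)) ^ t * (3 ^ 11) ^ t * (11 ^ (D + 1)) ^ t)
    (by gcongr) (le_of_eq ?_)
  rw [← mul_pow, ← mul_pow, ← mul_pow]
  congr 1
  ring

theorem path (hP : PathEStmt) {lam : ℝ} (h0 : 0 ≤ lam) (h1 : lam ≤ 1) {z a b : V D} {t : ℕ}
    (ha : a ∈ ball z (5 * t)) (hab : OC ω (ball z (5 * t)) a b) (f : V D → ℝ) :
    exp (2 * lam * (z 0 : ℝ)) * (f b - f a) ^ 2 ≤
      (10 * t + 1 : ℝ) ^ (D + 1) * exp (10 * t + 1) * ∑ x ∈ ball z (5 * t), El lam ω f x := by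
  have h := hP D ω _ a b f ha hab
  rw [card_ball] at h
  refine (mul_le_mul_of_nonneg_left h (exp_pos _).le).trans ?_
  rw [mul_left_comm, mul_assoc ((10 * t + 1 : ℝ) ^ (D + 1))]
  refine mul_le_mul (le_of_eq (by push_cast; ring)) ?_
    (mul_nonneg (exp_pos _).le (sum_nonneg fun x _ => sum_nonneg fun s _ => by
      split_ifs <;> positivity)) (by positivity)
  rw [mul_sum, mul_sum]
  refine sum_le_sum fun x hx => ?_
  rw [El, mul_sum, mul_sum]
  refine sum_le_sum fun s _ => ?_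
  unfold cnd
  split_ifs
  · rw [← mul_assoc, ← exp_add]
    refine mul_le_mul_of_nonneg_right (exp_le_exp.2 ?_) (sq_nonneg _)
    have e1 := (abs_le.1 (nrm_le_iff.1 (mem_ball.1 hx) 0)).1
    have e2 := (vec_bounds s 0).1
    have e3 : ((2 * z 0 - expo x s : ℤ) : ℝ) ≤ ((10 * t + 1 : ℤ) : ℝ) := by
      refine Int.cast_le.2 ?_
      simp only [expo, Pi.sub_apply] at e1 ⊢
      push_cast at e1
      omega
    push_cast at e3
    have e4 : (0 : ℝ) ≤ 10 * t + 1 := by positivity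
    nlinarith [mul_le_mul_of_nonneg_left e3 h0, mul_le_mul_of_nonneg_right h1 e4]
  · simp

theorem nrm_rays (y : V D) (i : Fin (D + 1)) {r r' t : ℕ} (h : r ≤ t) (h' : r' ≤ t) :
    nrm (ray (y + Pi.single i 1) r' - ray y r) ≤ t + 1 := by
  have e : ray (y + Pi.single i 1) r' - ray y r =
      Pi.single (Fin.last D) ((r' : ℤ) - r) + Pi.single i 1 := by
    rw [ray, ray, Pi.single_sub]
    abel
  rw [e]
  refine (nrm_add_le _ _).trans ?_
  rw [nrm_single, nrm_single]
  omega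

end GeoS

open GeoS in
theorem geoS (hL : LUStmt) (hP : PathEStmt) (hR : REPStmt) : GEOStmt := by
  intro D hD
  refine ⟨2 * (11 ^ (D + 1) * 11 ^ (D + 1) * 3 ^ 11),
    Nat.le_mul_of_pos_right _ (by positivity), ?_⟩
  have hch := ch_le D
  have hA1 : (1 : ℝ) ≤ ((2 * (11 ^ (D + 1) * 11 ^ (D + 1) * 3 ^ 11) : ℕ) : ℝ) :=
    Nat.one_le_cast.2 (Nat.pos_of_ne_zero (by positivity))
  generalize 2 * (11 ^ (D + 1) * 11 ^ (D + 1) * 3 ^ 11) = A at hch hA1 ⊢
  intro ω R m h δ h2 hm d0 d1 hN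
  obtain ⟨rep, r1, r2, r3, r4, r5⟩ := hR D hD ω h h2
  have hG : ∀ z, nrm z ≤ R → ∀ t', h ≤ t' → t' ≤ 2 * h → Gd ω z (20 * t') t' :=
    fun z hz t' a b => gd_up (hN.1.mono (by rw [sub_zero]; omega)) a
  have hn : ∀ z, nrm z ≤ R → (∀ t, 1 ≤ t → t < h → Gd ω z (20 * t) t) →
      Wide ω z h ∧ ∀ s, ω (edge z s) = true := fun z hz H =>
    r5 z fun t' a b => if c : t' < h then H t' a c else hG z hz t' (by omega) b
  refine ⟨rep, fun z => if nrm z ≤ R then wz A h ω z else 1,
    ⟨by omega, hm, d0, d1, fun z => ?_, r1, r2, fun z hz => ?_, r3, fun z hz hw => ?_,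
      fun z i => ?_, fun lam l0 l1 Q Q' f hQ => ?_⟩⟩
  · split_ifs
    exacts [one_le_wz _ _ _, le_rfl]
  · exact (r4 z z h h2 le_rfl (by simp) (hG z hz)).1
  · refine hn z hz fun t a b => by_contra fun c => ?_
    have h3 := le_wz (A := A) a b c
    have h4 := one_le_pow₀ (n := t + 1) hA1
    simp only [if_pos hz] at hw
    linarith
  · by_cases c : nrm z ≤ R + m
    · refine le_trans (sum_le_sum fun k _ => ?_) (hN.2 z i c)
      split_ifs
      exacts [le_rfl, sub_le_sub_right (one_le_wz _ _ _) _]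
    · refine le_trans (le_of_eq (sum_eq_zero fun k hk => ?_)) (by positivity)
      have h3 := nrm_sub_le (z + Pi.single i (k : ℤ)) (Pi.single i (k : ℤ))
      rw [add_sub_cancel_right, nrm_single, Int.natAbs_natCast] at h3
      have h4 := mem_range.1 hk
      simp only [if_neg (show ¬ nrm (z + Pi.single i (k : ℤ)) ≤ R by omega), sub_self]
  · have hv : ∀ i : Fin (D + 1), vec ((i, true) : Step D) = Pi.single i 1 := fun i => if_pos rfl
    have key : ∀ z ∈ Q, ∀ i, exp (2 * lam * (z 0 : ℝ)) *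
        (f (rep (z + Pi.single i 1)) - f (rep z)) ^ 2 / (if nrm z ≤ R then wz A h ω z else 1) ≤
        cnd lam ω z (i, true) * (f (z + vec (i, true)) - f z) ^ 2 +
          ∑ t ∈ Ico 2 (h + 1), ch D A t * ∑ x ∈ ball z (5 * t), El lam ω f x := by
      intro z hz i
      have hz' := (hQ z hz).1
      have hs : ∀ t ∈ Ico 2 (h + 1), 0 ≤ ch D A t * ∑ x ∈ ball z (5 * t), El lam ω f x :=
        fun t _ => mul_nonneg (ch_nonneg _ _ _) (sum_nonneg fun x _ => El_nonneg lam f x)
      rw [if_pos hz']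
      by_cases c : ∀ t, 1 ≤ t → t < h → Gd ω z (20 * t) t
      · obtain ⟨w1, w2⟩ := hn z hz' c
        have w3 := wide_step w1 (w2 (i, true))
        rw [← hv, r3 _ w1, r3 _ w3]
        refine le_add_of_le_of_nonneg ((div_le_self (by positivity) (one_le_wz _ _ _)).trans ?_)
          (sum_nonneg hs)
        rw [cnd, if_pos (w2 _)]
        refine mul_le_mul_of_nonneg_right (exp_le_exp.2 ?_) (sq_nonneg _)
        have e1 : (0 : ℤ) ≤ vec ((i, true) : Step D) 0 := by
          rw [hv, Pi.single_apply]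
          split_ifs <;> norm_num
        have e2 : (0 : ℝ) ≤ (vec ((i, true) : Step D) 0 : ℤ) := by exact_mod_cast e1
        rw [expo]
        push_cast
        nlinarith [mul_nonneg l0 e2]
      · obtain ⟨t0, hb, hmax⟩ := exists_max_image
          ((Ico 1 h).filter fun t => ¬ Gd ω z (20 * t) t) id (by
            push Not at c
            obtain ⟨t, a, b, e⟩ := c
            exact ⟨t, mem_filter.2 ⟨mem_Ico.2 ⟨a, b⟩, e⟩⟩)
        obtain ⟨hb1, hb2⟩ := mem_filter.1 hb
        obtain ⟨a, b⟩ := mem_Ico.1 hb1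
        have hg : ∀ t', t0 + 1 ≤ t' → t' ≤ 2 * h → Gd ω z (20 * t') t' := fun t' a' b' => by
          by_cases c' : t' < h
          · by_contra e
            have := hmax t' (mem_filter.2 ⟨mem_Ico.2 ⟨by omega, c'⟩, e⟩)
            simp only [id] at this
            omega
          · exact hG z hz' t' (by omega) b'
        obtain ⟨u1, r, hr, e1⟩ := r4 z z (t0 + 1) (by omega) b (by simp) hg
        obtain ⟨u2, r', hr', e2⟩ := r4 z (z + Pi.single i 1) (t0 + 1) (by omega) b
          (by rw [add_sub_cancel_left, nrm_single]; rfl) hg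
        have bg : ∀ y, Wide ω y h → Big ω y (t0 + 1) := fun y hy =>
          hy.big.imp fun _ hx => ⟨hx.1, le_trans (by omega) hx.2⟩
        have n1 : nrm (rep z - z) ≤ t0 + 1 := by rwa [e1, nrm_ray]
        have n2 : nrm (rep (z + Pi.single i 1) - rep z) ≤ 2 * (t0 + 1) := by
          rw [e1, e2]
          exact (nrm_rays z i hr hr').trans (by omega)
        have oc := hL D hD ω _ _ (t0 + 1) (by omega) (bg _ u1) (bg _ u2) n2
          ((hg _ le_rfl (by omega)).mono (by omega))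
        have oc' : OC ω (ball z (5 * (t0 + 1))) (rep z) (rep (z + Pi.single i 1)) :=
          oc.mono fun x hx => mem_ball.2 (by
            have := nrm_tri x (rep z) z
            have := mem_ball.1 hx
            omega)
        have p1 := path hP l0 l1 (mem_ball.2 (by omega)) oc' f
        refine le_add_of_nonneg_of_le (mul_nonneg (cnd_nonneg _ _) (sq_nonneg _))
          (le_trans ?_ (single_le_sum hs (mem_Ico.2 ⟨by omega, Nat.succ_lt_succ b⟩ :
            t0 + 1 ∈ Ico 2 (h + 1))))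
        rw [ch, div_mul_eq_mul_div]
        refine div_le_div₀ (le_trans (by positivity) p1) p1 (by positivity) ?_
        linarith [le_wz (A := A) a b hb2]
    have hE : En lam ω Q' f = ∑ x ∈ Q', El lam ω f x := En_eq Q' f
    have hE0 : 0 ≤ ∑ x ∈ Q', El lam ω f x := sum_nonneg fun x _ => El_nonneg lam f x
    have s1 : ∑ z ∈ Q, ∑ i, cnd lam ω z (i, true) * (f (z + vec (i, true)) - f z) ^ 2 ≤
        ∑ x ∈ Q', El lam ω f x := by
      refine le_trans (sum_le_sum fun z _ => ?_) (sum_le_sum_of_subset_of_nonneg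
        (fun z hz => (hQ z hz).2 (self_mem_ball _ _)) fun x _ _ => El_nonneg lam f x)
      rw [El, Fintype.sum_prod_type]
      refine sum_le_sum fun i _ => ?_
      rw [Fintype.sum_bool]
      exact le_add_of_nonneg_right (mul_nonneg (cnd_nonneg _ _) (sq_nonneg _))
    have s2 : ∑ z ∈ Q, ∑ t ∈ Ico 2 (h + 1), ch D A t * ∑ x ∈ ball z (5 * t), El lam ω f x ≤
        ∑ x ∈ Q', El lam ω f x := by
      rw [sum_comm]
      calc _ ≤ ∑ t ∈ Ico 2 (h + 1), (1 / 2 : ℝ) ^ t * ∑ x ∈ Q', El lam ω f x := by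
            refine sum_le_sum fun t ht => ?_
            obtain ⟨a, b⟩ := mem_Ico.1 ht
            rw [← mul_sum]
            refine (mul_le_mul_of_nonneg_left (exch (fun z hz => (ball_mono z (by omega)).trans
              (hQ z hz).2) (El_nonneg lam f)) (ch_nonneg _ _ _)).trans ?_
            rw [← mul_assoc]
            refine mul_le_mul_of_nonneg_right (le_trans (le_of_eq ?_) (hch t (by omega))) hE0
            push_cast
            ring
        _ ≤ _ := by
            rw [← sum_mul]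
            refine mul_le_of_le_one_left hE0
              ((geom_sum_Ico_le_of_lt_one (by norm_num) (by norm_num)).trans (by norm_num))
    refine (sum_le_sum fun z hz => sum_le_sum fun i _ => key z hz i).trans ?_
    simp only [sum_add_distrib, sum_const, card_univ, Fintype.card_fin, nsmul_eq_mul, ← mul_sum]
    rw [hE]
    push_cast
    have hd : (0 : ℝ) ≤ D + 1 := by positivity
    nlinarith [mul_le_mul_of_nonneg_left s2 hd]

end Pool.Agent.MP_8c549f_pr.L2

end
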