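import Pool.Agent.MP_8c549f_pr.L2.SpecB

/-! PROJECT L2, row Good: the good events are measurable, inherited along legs and likely. -/

noncomputable section

namespace Pool.Agent.MP_8c549f_pr.L2

open MeasureTheory Finset Real Classical S3

namespace GoodS

variable {D : ℕ} {lam : ℝ} {ω : Cfg D}

theorem openP (l : List (Step D)) : ∀ x : V D, wr lam ω x l ≠ 0 → OpenP ω x l := by
  induction l with
  | nil => intro x _; trivial
  | cons s l ih =>
    intro x h
    rw [wr_cons] at h
    refine ⟨?_, ih _ (right_ne_zero_of_mul h)⟩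
    by_contra hs
    exact left_ne_zero_of_mul h (by simp [pr, hs])

theorem conn {l : List (Step D)} (h : wr lam ω 0 l ≠ 0) : Conn ω (pos l) 0 := by
  have := (openP l 0 h).conn_pos
  rw [zero_add] at this
  exact this.symm

end GoodS

theorem goodS (hN : NICEFStmt) : GOODStmt := by
  intro D A m h N δ
  obtain ⟨h1, h2, h3, h4, h5, h6⟩ := hN D A m h δ
  refine ⟨fun n => (h1 _).inter h2, ?_, ?_, ?_⟩
  · rintro lam L n ω ⟨hn, a, b, ha, hb, hab⟩ l hl hw
    have hc := GoodS.conn hw
    refine ⟨h3 _ _ _ _ ?_ hn, h5 _ _ ⟨a, b, hc.trans ha, hc.trans hb, hab⟩⟩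
    have := (nrm_pos_le l).trans (mem_Lg.1 hl).1
    have e : (n + 1 + 2) * N = (n + 2) * N + N := by ring
    omega
  · intro p n R hp0 hp1 hR
    have := perc_prob D hp0 hp1
    have hm : MeasurableSet {ω : Cfg D | ¬ Nice A m h δ R ω} := (h1 R).compl
    rw [← integral_indicator_one hm]
    refine integral_mono_of_nonneg (ae_of_all _ fun ω => S3.ind_nonneg _)
      ((integrable_const (1 : ℝ)).indicator hm) (ae_of_all _ fun ω => ?_)
    by_cases hω : Nice A m h δ R ω
    · have g : Gn A m h δ N n (ovw (Past D) (allOpen D) ω) := by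
        refine ⟨?_, (h6 ω).1⟩
        have k := h3 R ((n + 2) * N) 0 _ (by simpa using hR)
          (h4 R ω (ovw (Past D) (allOpen D) ω) (fun e he => by
            unfold ovw allOpen; split_ifs; exacts [rfl, he]) hω)
        rwa [shift_zero] at k
      show S3.ind _ ≤ _
      rw [S3.ind_neg (not_not.2 g)]
      exact Set.indicator_nonneg (fun _ _ => zero_le_one) _
    · show S3.ind _ ≤ _
      rw [Set.indicator_of_mem (show ω ∈ {ω : Cfg D | ¬ Nice A m h δ R ω} from hω)]
      exact S3.ind_le_one _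
  · intro lam n R h₀ N₁ ω hR hh hω l hl hw
    obtain ⟨l1, -, l3⟩ := mem_Lg.1 hl
    have hc := GoodS.conn hw
    have hl' := (nrm_pos_le l).trans l1
    refine ⟨h3 R _ _ _ (by omega) (h4 R ω _ (fun e he => plus_of_open he) hω),
      h5 _ _ ⟨pos l, 0, Conn.refl _ _, hc, ?_⟩⟩
    have k := (le_abs_self _).trans (abs_le_nrm (pos l) 0)
    have e : pos l 0 = (h₀ : ℤ) := l3
    rw [sub_zero]
    omega

end Pool.Agent.MP_8c549f_pr.L2

end
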