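import Pool.Agent.MP_8c549f_pr.L2.Basic

/-! PROJECT L2, row Hd: the weighted Hardy inequality. -/

noncomputable section

namespace Pool.Agent.MP_8c549f_pr.L2

open MeasureTheory Finset Real Classical S3

namespace Hd

theorem exp_le {u : ℝ} (h0 : 0 ≤ u) (h1 : u ≤ 1) : exp (-u) ≤ 1 - u / 2 := by
  have q0 : 0 < exp (-u) := exp_pos _
  have h2 : exp (-u) * exp u = 1 := by rw [← exp_add]; simp
  have h3 := add_one_le_exp u
  by_contra hn
  push Not at hn
  nlinarith [mul_le_mul_of_nonneg_left h3 q0.le]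

/-- sums with a geometric weight, by blocks of length `m` -/
theorem blk {lam c : ℝ} {m : ℕ} {w : ℕ → ℝ} (hl : 0 < lam) (hm : lam * m ≤ 1) (hc : 0 ≤ c)
    (h0 : ∀ k, 0 ≤ w k) (hw : ∀ j, ∑ k ∈ range m, w (j + k) ≤ c * m) (b : ℕ) :
    ∀ j, ∑ k ∈ range (m * b), w (j + k) * exp (-(lam * k)) ≤ 2 * c / lam := by
  induction b with
  | zero => intro j; simp only [mul_zero, range_zero, sum_empty]; positivity
  | succ b ih =>
    intro j
    rw [show m * (b + 1) = m + m * b by ring, sum_range_add]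
    have a1 : ∑ k ∈ range m, w (j + k) * exp (-(lam * k)) ≤ c * m := by
      refine le_trans (sum_le_sum fun k _ => ?_) (hw j)
      refine mul_le_of_le_one_right (h0 _) (exp_le_one_iff.2 ?_)
      have : 0 ≤ lam * k := by positivity
      linarith
    have a2 : ∑ k ∈ range (m * b), w (j + (m + k)) * exp (-(lam * ((m + k : ℕ) : ℝ))) =
        exp (-(lam * m)) * ∑ k ∈ range (m * b), w (j + m + k) * exp (-(lam * k)) := by
      rw [mul_sum]
      refine sum_congr rfl fun k _ => ?_
      rw [← add_assoc, mul_left_comm, ← exp_add]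
      congr 2
      push_cast
      ring
    rw [a2]
    have a3 := mul_le_mul_of_nonneg_left (ih (j + m)) (exp_pos (-(lam * m))).le
    have a4 := exp_le (u := lam * m) (by positivity) hm
    have a5 := mul_le_mul_of_nonneg_right a4 (show 0 ≤ 2 * c / lam by positivity)
    have a6 : (1 - lam * m / 2) * (2 * c / lam) = 2 * c / lam - c * m := by field_simp
    linarith

/-- the inequality on one line -/
theorem line {lam A : ℝ} {n : ℕ} {G w : ℕ → ℝ} (hw : ∀ k, 0 < w k) (hn : G n = 0)
    (hA : ∑ k ∈ range n, w k * exp (-(lam * k)) ≤ A) :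
    G 0 ^ 2 ≤ A * ∑ k ∈ range n, exp (lam * k) * ((G (k + 1) - G k) ^ 2 / w k) := by
  have e : G 0 ^ 2 = (∑ k ∈ range n, (G (k + 1) - G k)) ^ 2 := by
    rw [sum_range_sub, hn]; simp
  have cs := sum_mul_sq_le_sq_mul_sq (range n) (fun k => √(w k * exp (-(lam * k))))
    (fun k => (G (k + 1) - G k) / √(w k * exp (-(lam * k))))
  have p : ∀ k : ℕ, 0 < w k * exp (-(lam * k)) := fun k => mul_pos (hw k) (exp_pos _)
  have e1 : ∀ k ∈ range n, √(w k * exp (-(lam * k))) *
      ((G (k + 1) - G k) / √(w k * exp (-(lam * k)))) = G (k + 1) - G k := fun k _ =>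
    mul_div_cancel₀ _ (sqrt_pos.2 (p k)).ne'
  have e2 : ∀ k ∈ range n, √(w k * exp (-(lam * k))) ^ 2 = w k * exp (-(lam * k)) := fun k _ =>
    sq_sqrt (p k).le
  have e3 : ∀ k ∈ range n, ((G (k + 1) - G k) / √(w k * exp (-(lam * k)))) ^ 2 =
      exp (lam * k) * ((G (k + 1) - G k) ^ 2 / w k) := fun k _ => by
    rw [div_pow, sq_sqrt (p k).le, exp_neg]
    have := (hw k).ne'
    have := (exp_pos (lam * k)).ne'
    field_simp
  rw [sum_congr rfl e1, sum_congr rfl e2, sum_congr rfl e3] at cs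
  rw [e]
  refine cs.trans (mul_le_mul_of_nonneg_right hA (sum_nonneg fun k _ => ?_))
  have := hw k
  positivity

variable {D : ℕ}

theorem sing (z : V D) (j k : ℕ) :
    z + Pi.single (0 : Fin (D + 1)) ((j + k : ℕ) : ℤ) =
      z + Pi.single (0 : Fin (D + 1)) (j : ℤ) + Pi.single (0 : Fin (D + 1)) (k : ℤ) := by
  rw [add_assoc, ← Pi.single_add]; push_cast; rfl

/-- the inequality of Hardy for a function that vanishes outside a ball -/
theorem hardy {lam δ E : ℝ} {m R : ℕ} {w G : V D → ℝ} (hl : 0 < lam) (hm : lam * m ≤ 1)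
    (m1 : 1 ≤ m) (d1 : δ ≤ 1 / 4) (w1 : ∀ z, 1 ≤ w z) (hs : Seg w m δ)
    (hG : ∀ z, G z ≠ 0 → nrm z + 1 ≤ R)
    (hE : ∀ T : Finset (V D), ∑ z ∈ T, exp (2 * lam * (z 0 : ℝ)) *
      (G (z + Pi.single 0 1) - G z) ^ 2 / w z ≤ E) (T : Finset (V D)) :
    ∑ z ∈ T, exp (2 * lam * (z 0 : ℝ)) * G z ^ 2 ≤ 5 / lam ^ 2 * E := by
  set a : V D → ℝ := fun z => exp (2 * lam * (z 0 : ℝ)) *
      (G (z + Pi.single 0 1) - G z) ^ 2 / w z with ha
  have w0 : ∀ z, 0 < w z := fun z => lt_of_lt_of_le one_pos (w1 z)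
  have a0 : ∀ z, 0 ≤ a z := fun z => by have := w0 z; positivity
  have E0 : 0 ≤ E := by simpa using hE ∅
  have l1 : lam * (1 : ℕ) ≤ 1 := by
    have : (1 : ℝ) ≤ m := by exact_mod_cast m1
    push_cast
    nlinarith
  have key : ∀ z ∈ T, exp (2 * lam * (z 0 : ℝ)) * G z ^ 2 ≤ 5 / (2 * lam) *
      ∑ k ∈ range (m * (2 * R)), exp (-(lam * k)) * a (z + Pi.single 0 (k : ℤ)) := by
    intro z _
    by_cases hz : G z = 0
    · rw [hz]
      have : 0 ≤ ∑ k ∈ range (m * (2 * R)), exp (-(lam * k)) * a (z + Pi.single 0 (k : ℤ)) :=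
        sum_nonneg fun k _ => mul_nonneg (exp_pos _).le (a0 _)
      have : 0 ≤ 5 / (2 * lam) := by positivity
      simp only [ne_eq, OfNat.ofNat_ne_zero, not_false_eq_true, zero_pow, mul_zero]
      positivity
    have hn : G (z + Pi.single 0 ((m * (2 * R) : ℕ) : ℤ)) = 0 := by
      by_contra hn
      have h1 := hG _ hn
      have h2 := hG _ hz
      have h3 := abs_le_nrm (z + Pi.single 0 ((m * (2 * R) : ℕ) : ℤ)) 0
      have h4 := abs_le_nrm z 0
      have h5 : 2 * R ≤ m * (2 * R) := Nat.le_mul_of_pos_left _ m1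
      rw [Pi.add_apply, Pi.single_eq_same] at h3
      generalize m * (2 * R) = n at h1 h3 h5
      have := (abs_le.1 h3).2
      have := (abs_le.1 h4).1
      omega
    have hb := blk (c := 5 / 4) (w := fun k => w (z + Pi.single 0 (k : ℤ))) hl hm (by norm_num)
      (fun k => (w0 _).le) (fun j => by
        have h := hs (z + Pi.single 0 (j : ℤ)) 0
        simp only [sum_sub_distrib, sum_const, card_range, nsmul_eq_mul, mul_one] at h
        simp only [sing]
        have : (0 : ℝ) ≤ m := by positivity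
        nlinarith) (2 * R) 0
    simp only [zero_add] at hb
    have hL := line (G := fun k => G (z + Pi.single 0 (k : ℤ)))
      (w := fun k => w (z + Pi.single 0 (k : ℤ))) (fun k => w0 _) hn hb
    simp only [Nat.cast_zero, Pi.single_zero, add_zero] at hL
    refine (mul_le_mul_of_nonneg_left hL (exp_pos _).le).trans (le_of_eq ?_)
    rw [mul_left_comm, mul_sum]
    congr 1
    · field_simp; norm_num
    refine sum_congr rfl fun k _ => ?_
    simp only [ha, sing, Nat.cast_one, Pi.add_apply, Pi.single_eq_same]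
    rw [← mul_assoc, ← exp_add, mul_div_assoc, ← mul_assoc, ← exp_add]
    congr 2
    push_cast
    ring
  refine (sum_le_sum key).trans ?_
  rw [← mul_sum, sum_comm]
  have b1 : ∀ k ∈ range (m * (2 * R)), ∑ z ∈ T, exp (-(lam * k)) * a (z + Pi.single 0 (k : ℤ)) ≤
      exp (-(lam * k)) * E := fun k _ => by
    rw [← mul_sum]
    refine mul_le_mul_of_nonneg_left ?_ (exp_pos _).le
    have h := hE (T.map (addRightEmbedding (Pi.single 0 (k : ℤ))))
    rwa [sum_map] at h
  have b2 := blk (c := 1) (m := 1) (w := fun _ => 1) hl l1 zero_le_one (fun _ => zero_le_one)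
    (fun j => by simp) (m * (2 * R)) 0
  simp only [one_mul, mul_one] at b2
  have b3 : ∑ k ∈ range (m * (2 * R)), exp (-(lam * k)) * E ≤ 2 / lam * E := by
    rw [← sum_mul]; exact mul_le_mul_of_nonneg_right b2 E0
  refine (mul_le_mul_of_nonneg_left ((sum_le_sum b1).trans b3) (by positivity)).trans (le_of_eq ?_)
  field_simp

end Hd

theorem hd (hI : IDStmt) : HDStmt := by
  intro D
  have D0 : (0 : ℝ) ≤ D := by positivity
  refine ⟨(2 * D + 4) * (5 * (D + 2)), by nlinarith, ?_⟩
  intro ω R m h δ rep w hG lam g Q hl hm hg hQ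
  have m1 : 1 ≤ m := hG.h1.trans hG.hm
  have l1 : lam ≤ 1 := by
    have : (1 : ℝ) ≤ m := by exact_mod_cast m1
    nlinarith
  have E0 : 0 ≤ En lam ω Q g := En_nonneg _ _
  have w0 : ∀ z, 0 < w z := fun z => lt_of_lt_of_le one_pos (hG.w1 z)
  have sp : ∀ z, g (rep z) ≠ 0 → nrm z + 1 ≤ R := fun z hz => by
    have h1 := hg _ hz
    have h2 := hG.near z
    have h3 := nrm_sub_le (rep z) (rep z - z)
    rw [sub_sub_cancel] at h3
    omega
  have p1 : ∀ T : Finset (V D), ∑ z ∈ T, ∑ i, exp (2 * lam * (z 0 : ℝ)) *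
      (g (rep (z + Pi.single i 1)) - g (rep z)) ^ 2 / w z ≤ (D + 2) * En lam ω Q g := by
    intro T
    rw [← sum_filter_of_ne (p := fun z => nrm z ≤ R)]
    · refine (hG.cmp lam hl.le l1 _ (ball 0 (R + 5 * h)) g fun z hz => ?_).trans
        (mul_le_mul_of_nonneg_left ((hI D lam ω Q).2.2.1 g hQ _) (by positivity))
      refine ⟨(mem_filter.1 hz).2, fun y hy => mem_ball.2 ?_⟩
      have h1 := mem_ball.1 hy
      have h2 := (mem_filter.1 hz).2
      have h3 := nrm_add_le (y - z) z
      rw [sub_add_cancel] at h3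
      rw [sub_zero]
      omega
    · intro z _ hz
      by_contra hn
      refine hz (sum_eq_zero fun i _ => ?_)
      have h1 : g (rep z) = 0 := by
        by_contra h1
        have := sp _ h1
        omega
      have h2 : g (rep (z + Pi.single i 1)) = 0 := by
        by_contra h2
        have h3 := sp _ h2
        have h4 := nrm_sub_le (z + Pi.single i 1) (Pi.single i 1)
        rw [add_sub_cancel_right, nrm_single] at h4
        simp only [Int.natAbs_one] at h4
        omega
      rw [h1, h2]; simp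
  have p2 : ∀ T : Finset (V D), ∑ z ∈ T, exp (2 * lam * (z 0 : ℝ)) * g (rep z) ^ 2 ≤
      5 / lam ^ 2 * ((D + 2) * En lam ω Q g) :=
    Hd.hardy (G := fun z => g (rep z)) hl hm m1 hG.d1 hG.w1 hG.seg sp fun T =>
      le_trans (sum_le_sum fun z _ => single_le_sum (f := fun i => exp (2 * lam * (z 0 : ℝ)) *
        (g (rep (z + Pi.single i 1)) - g (rep z)) ^ 2 / w z)
        (fun i _ => by have := w0 z; positivity) (mem_univ 0)) (p1 T)
  have X0 : 0 ≤ 5 / lam ^ 2 * ((D + 2) * En lam ω Q g) := by positivity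
  have e : (2 * D + 4) * (5 * (D + 2)) / lam ^ 2 * En lam ω Q g =
      (2 * D + 4) * (5 / lam ^ 2 * ((D + 2) * En lam ω Q g)) := by ring
  refine ⟨fun T => (p1 T).trans (mul_le_mul_of_nonneg_right (by nlinarith) E0),
    fun T => (p2 T).trans ?_, fun hw => ?_⟩
  · rw [e]; nlinarith
  · rw [e]
    refine le_trans ?_ (mul_le_mul_of_nonneg_left (p2 Q) (by positivity))
    rw [mul_sum]
    refine sum_le_sum fun y _ => ?_
    by_cases hy : g y = 0
    · rw [hy]
      simp only [ne_eq, OfNat.ofNat_ne_zero, not_false_eq_true, zero_pow, mul_zero]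
      positivity
    · rw [hG.fix y (hw y hy), ← mul_assoc]
      exact mul_le_mul_of_nonneg_right (pim_le hl.le l1 y) (sq_nonneg _)

end Pool.Agent.MP_8c549f_pr.L2

end
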