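import Pool.Agent.MP_8c549f_pr.L2.Basic

/-! PROJECT L2: the probability to hit a set is bounded by the comparison function. -/

noncomputable section

namespace Pool.Agent.MP_8c549f_pr.L2

open MeasureTheory Finset Real Classical S3

namespace Hit

variable {D : ℕ}

/-- the comparison function is nearly constant on a small ball -/
theorem wf_half {l m r : ℕ} {lam ξ : ℝ} {ψ : V D → ℝ} (hS : Sc l m lam) (h1 : ξ ≤ 1)
    (hψ : Lip ψ (ξ / l)) (hr : 16 * r ≤ l) {y z : V D} (hy : nrm (y - z) ≤ r) :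
    wf lam ψ z / 2 ≤ wf lam ψ y := by
  have hl := hS.lpos
  have hr' : (16 : ℝ) * r ≤ l := by exact_mod_cast hr
  have hy' : (nrm (y - z) : ℝ) ≤ r := by exact_mod_cast hy
  have a1 : (y 0 : ℝ) - z 0 ≤ r := by
    have h2 := (le_abs_self _).trans (abs_le_nrm (y - z) 0)
    rw [Pi.sub_apply] at h2
    have h3 : y 0 - z 0 ≤ (r : ℤ) := h2.trans (by exact_mod_cast hy)
    exact_mod_cast h3
  have a2 : lam * ((y 0 : ℝ) - z 0) ≤ 1 / 4 := by
    have := mul_le_mul_of_nonneg_left a1 hS.pos.le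
    have h4 := mul_le_mul_of_nonneg_left hr' hS.pos.le
    nlinarith [hS.mul_le]
  have a3 : ξ / l * nrm (y - z) ≤ 1 / 16 := by
    rw [div_mul_eq_mul_div, div_le_iff₀ hl]
    have : ξ * nrm (y - z) ≤ 1 * r := mul_le_mul h1 hy' (by positivity) zero_le_one
    linarith
  have a4 := (abs_le.1 ((hψ y z).trans a3)).1
  have a5 : wf lam ψ y = wf lam ψ z *
      exp (-(lam * (y 0 : ℝ)) + ψ y - (-(lam * (z 0 : ℝ)) + ψ z)) := by
    rw [wf, wf, ← exp_add]; congr 1; ring
  have a6 := add_one_le_exp (-(lam * (y 0 : ℝ)) + ψ y - (-(lam * (z 0 : ℝ)) + ψ z))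
  have a7 : 0 < wf lam ψ z := exp_pos _
  rw [a5]
  nlinarith

/-- the walk that stays in a small ball collects the comparison function -/
theorem stay {lam : ℝ} {ω : Cfg D} {h r n : ℕ} {z : V D} {U : Set (V D)} {v : V D → ℝ} {c : ℝ}
    (h1 : 1 ≤ h) (hz : Wide ω z h) (hc : 0 ≤ c) (hv : ∀ y, 0 ≤ v y)
    (hU : ∀ y, Wide ω y h → nrm (y - z) ≤ r → y ∈ U ∧ c ≤ v y)
    (hq : ∀ k < n, exq lam ω z r k z ≤ 1 / 2) :
    n * c / 2 ≤ Gs lam ω U n (U.indicator v) z := by
  have key : ∀ k ∈ range n, c / 2 ≤ Pk lam ω U k (U.indicator v) z := fun k hk => by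
    have e1 := exit_add_eq (lam := lam) (ω := ω) (ball z r : Set (V D)) k z (wide_Zq h1 hz lam)
    have e2 := hq k (mem_range.1 hk)
    rw [exq] at e2
    have e3 := Pk_mul (lam := lam) (ω := ω) (U := (ball z r : Set (V D))) c
      (chi (ball z r : Set (V D))) k z
    have e4 : Pk lam ω (ball z r : Set (V D)) k (fun y => c * chi (ball z r : Set (V D)) y) z =
        Pk lam ω (wb' ω h z r : Set (V D)) k (fun y => c * chi (wb' ω h z r : Set (V D)) y) z := by
      have e : ∀ y, Wide ω y h →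
          (y ∈ (ball z r : Set (V D)) ↔ y ∈ (wb' ω h z r : Set (V D))) := fun y hy => by
        simp [mem_ball, mem_wb', hy]
      refine Pk_wide hz k (fun y hy _ => e y hy) fun y hy _ => ?_
      by_cases m : y ∈ (ball z r : Set (V D))
      · rw [chi_of_mem m, chi_of_mem ((e y hy).1 m)]
      · rw [chi_of_not m, chi_of_not fun m' => m ((e y hy).2 m')]
    have e5 : Pk lam ω (wb' ω h z r : Set (V D)) k
        (fun y => c * chi (wb' ω h z r : Set (V D)) y) z ≤ Pk lam ω U k (U.indicator v) z := by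
      have n1 : ∀ y, 0 ≤ U.indicator v y := fun y => Set.indicator_nonneg (fun y _ => hv y) y
      refine (Pk_mono (fun y => ?_) k z).trans (Pk_dom (fun y hy => ?_) n1 k z)
      · by_cases m : y ∈ (wb' ω h z r : Set (V D))
        · have m' := mem_wb'.1 (mem_coe.1 m)
          rw [chi_of_mem m, mul_one, Set.indicator_of_mem (hU y m'.2 m'.1).1]
          exact (hU y m'.2 m'.1).2
        · rw [chi_of_not m, mul_zero]; exact n1 y
      · have m' := mem_wb'.1 (mem_coe.1 hy)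
        exact (hU y m'.2 m'.1).1
    nlinarith
  have := card_nsmul_le_sum (range n) _ _ key
  rw [card_range, nsmul_eq_mul] at this
  rw [Gs]; linarith

end Hit

theorem hit (hG : GBStmt) (hE : EXStmt) : HITStmt := by
  intro D
  obtain ⟨ξ, CG, lG, x0, x1, hCG, hG⟩ := hG D
  obtain ⟨CE, M, hCE, hM, hE⟩ := hE D
  obtain ⟨E, hE1⟩ := exists_nat_ge (2 * CE)
  have hE2 : (1 : ℝ) ≤ E := by linarith
  have hE3 : 1 ≤ E := by exact_mod_cast hE2
  refine ⟨ξ, 8192 * E * CG, max lG (max ((1024 * M) ^ 6) (16 * E)), x0, x1, by nlinarith, ?_⟩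
  intro ω R m h δ rep w hg l lam hl hS x A Z ψ n b hx hR hAZ hψ hb hZ
  have l1 : lG ≤ l := (le_max_left _ _).trans hl
  have l2 : (1024 * M) ^ 6 ≤ l := (le_max_left _ _).trans ((le_max_right _ _).trans hl)
  have l3 : 16 * E ≤ l := (le_max_right _ _).trans ((le_max_right _ _).trans hl)
  have l4 := hS.l16
  obtain ⟨r, hr⟩ : ∃ r, r = l / 16 := ⟨_, rfl⟩
  have r1 : 16 * r ≤ l := by omega
  have r2 : l ≤ 32 * r := by omega
  have r3 : E ≤ r := by omega
  obtain ⟨n0, hn0⟩ : ∃ n0, n0 = r ^ 2 / E := ⟨_, rfl⟩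
  have n1 : n0 * E ≤ r ^ 2 := hn0 ▸ Nat.div_mul_le_self _ _
  have n2 : r ^ 2 < (n0 + 1) * E := by
    rw [hn0, mul_comm]; exact Nat.lt_mul_div_succ _ (by omega)
  have n3 : 1 ≤ n0 := by
    rw [hn0]; exact Nat.div_pos (by nlinarith) (by omega)
  have n4 : l ^ 2 ≤ 2048 * E * n0 := by nlinarith
  have m1 : M * m ^ 9 ≤ r ^ 2 := by
    have a1 := hS.big l2
    have a2 := hS.m8
    have a3 : m ≤ m ^ 5 := Nat.le_self_pow (by norm_num) m
    have a4 : 1024 * M * m ≤ l := (Nat.mul_le_mul_left _ a3).trans a1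
    have a5 : 1024 * M * m * m ^ 8 ≤ l * l := Nat.mul_le_mul a4 a2
    have a6 : l * l ≤ 32 * r * (32 * r) := Nat.mul_le_mul r2 r2
    have a7 : 1024 * (M * m ^ 9) ≤ 1024 * r ^ 2 := by
      calc 1024 * (M * m ^ 9) = 1024 * M * m * m ^ 8 := by ring
        _ ≤ 32 * r * (32 * r) := a5.trans a6
        _ = 1024 * r ^ 2 := by ring
    omega
  have rpos : (0 : ℝ) < r := by exact_mod_cast (show 0 < r by omega)
  have lpos := hS.lpos
  have vpos : ∀ y, 0 < wf lam ψ y := fun y => exp_pos _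
  set U : Finset (V D) := wb' ω h x (n + l) with hU
  have tri : ∀ y : V D, nrm y ≤ nrm (y - x) + nrm x := fun y => by
    simpa using nrm_add_le (y - x) x
  have g1 := hG ω R m h δ rep w hg l lam l1 hS U ψ (fun y hy => by
    have := mem_wb'.1 hy
    exact ⟨this.2, by have := tri y; omega⟩) hψ (n + n0) x
  have low : ∀ z ∈ Z ∩ (wb' ω h x n : Set (V D)), n0 * (b / 2) / 2 ≤
      Gs lam ω U n0 ((U : Set (V D)).indicator (wf lam ψ)) z := fun z hz => by
    have hz' := mem_wb'.1 (mem_coe.1 hz.2)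
    refine Hit.stay (r := r) hg.h1 hz'.2 (by positivity) (fun y => (vpos y).le)
      (fun y hy hyz => ⟨mem_coe.2 (mem_wb'.2 ⟨?_, hy⟩), ?_⟩) fun k hk => ?_
    · have := nrm_tri y z x; omega
    · linarith [Hit.wf_half hS x1 hψ r1 hyz, hZ z hz.1]
    · have b1 : lam * r ≤ 4 := by
        have : (r : ℝ) ≤ l := by exact_mod_cast (show r ≤ l by omega)
        nlinarith [hS.mul_le, hS.pos]
      have b2 : k * E ≤ r ^ 2 := (Nat.mul_le_mul_right _ hk.le).trans n1
      have b3 : M * m ^ 9 * k ≤ r ^ 4 := by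
        calc M * m ^ 9 * k ≤ r ^ 2 * r ^ 2 := Nat.mul_le_mul m1 (by nlinarith)
          _ = r ^ 4 := by ring
      refine (hE ω R m h δ rep w hg lam z r k hS.pos.le (by linarith [hS.le_quarter]) b1
        (by have := tri z; omega) hz'.2 (by omega) b3).trans ?_
      rw [div_le_iff₀ (by positivity)]
      have b4 : (k : ℝ) * E ≤ (r : ℝ) ^ 2 := by exact_mod_cast b2
      have b5 : (0 : ℝ) ≤ k := Nat.cast_nonneg k
      nlinarith
  have e1 : Gs lam ω A (n + 1) (chi Z) x =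
      Gs lam ω (A ∩ U) (n + 1) (chi (Z ∩ (wb' ω h x n : Set (V D)))) x := by
    refine sum_congr rfl fun k hk => ?_
    have hk' := mem_range.1 hk
    refine Pk_wide hx k (fun y hy hyx => ⟨fun a => ⟨a, mem_coe.2 (mem_wb'.2 ⟨by omega, hy⟩)⟩,
      fun a => a.1⟩) fun y hy hyx => ?_
    by_cases a : y ∈ Z
    · rw [chi_of_mem a, chi_of_mem (U := Z ∩ (wb' ω h x n : Set (V D)))
        ⟨a, mem_coe.2 (mem_wb'.2 ⟨by omega, hy⟩)⟩]
    · rw [chi_of_not a, chi_of_not (U := Z ∩ (wb' ω h x n : Set (V D))) fun a' => a a'.1]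
  have f0 : ∀ y, 0 ≤ (U : Set (V D)).indicator (wf lam ψ) y := fun y =>
    Set.indicator_nonneg (fun y _ => (vpos y).le) y
  have e2 := Gs_markov (lam := lam) (ω := ω) (U := (U : Set (V D))) (A := A ∩ U)
    (Z := Z ∩ (wb' ω h x n : Set (V D))) Set.inter_subset_right
    (hAZ.mono Set.inter_subset_left Set.inter_subset_left) f0 n0 n x
  have e3 := Gs_mul (lam := lam) (ω := ω) (U := A ∩ U) (n0 * (b / 2) / 2)
    (chi (Z ∩ (wb' ω h x n : Set (V D)))) (n + 1) x
  have e4 : Gs lam ω (A ∩ U) (n + 1)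
      (fun y => n0 * (b / 2) / 2 * chi (Z ∩ (wb' ω h x n : Set (V D))) y) x ≤
      Gs lam ω (A ∩ U) (n + 1) ((Z ∩ (wb' ω h x n : Set (V D))).indicator
        (Gs lam ω U n0 ((U : Set (V D)).indicator (wf lam ψ)))) x := by
    refine Gs_mono (fun y => ?_) _ _
    by_cases a : y ∈ Z ∩ (wb' ω h x n : Set (V D))
    · rw [chi_of_mem a, mul_one, Set.indicator_of_mem a]; exact low y a
    · rw [chi_of_not a, mul_zero, Set.indicator_of_notMem a]
  rw [e3, ← e1] at e4
  have e5 := e4.trans (e2.trans g1)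
  have n5 : (l : ℝ) ^ 2 ≤ 2048 * E * n0 := by exact_mod_cast n4
  have n6 : (0 : ℝ) < n0 := by exact_mod_cast n3
  rw [le_div_iff₀ hb]
  have e6 : CG * (l : ℝ) ^ 2 * wf lam ψ x ≤ CG * (2048 * E * n0) * wf lam ψ x :=
    mul_le_mul_of_nonneg_right (mul_le_mul_of_nonneg_left n5 (by linarith)) (vpos x).le
  refine le_of_mul_le_mul_left ?_ n6
  nlinarith

end Pool.Agent.MP_8c549f_pr.L2

end
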