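import Pool.Agent.MP_8c549f_pr.L2.Basic

/-! PROJECT L2: the diagonal heat kernel bound. -/

noncomputable section

namespace Pool.Agent.MP_8c549f_pr.L2

open MeasureTheory Finset Real Classical S3

namespace Hk0

theorem exp_le_inv {d : ℕ} {a b t : ℝ} (hb : 0 < b) (hab : b ≤ exp a) (ht : d * a ≤ t) :
    exp (-t) ≤ 1 / b ^ d := by
  rw [exp_neg, one_div]
  refine inv_anti₀ (pow_pos hb d) ?_
  calc b ^ d ≤ exp a ^ d := pow_le_pow_left₀ hb.le hab d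
    _ = exp (d * a) := (exp_nat_mul a d).symm
    _ ≤ exp t := exp_le_exp.2 ht

/-- the iteration over the scales -/
theorem iter (d J m r₁ : ℕ) (C : ℝ) (v : ℕ → ℝ) (hd : 1 ≤ d) (hC : 1 ≤ C) (hm : 1 ≤ m)
    (hJ : 16 * C * d ≤ J) (hv : ∀ n, 0 ≤ v n) (h0 : v 0 ≤ 3)
    (hS : ∀ r, m ≤ r → r ≤ r₁ → ∀ n₂ n₁ : ℕ,
      v (n₂ + n₁) ≤ 4 * C / (r : ℝ) ^ d + exp (-(n₂ / (4 * (C * (r : ℝ) ^ 2)))) * v n₁) :
    ∀ r, m ≤ r → r ≤ r₁ → ∀ n, J * (m ^ 3 + 2 * r ^ 2) ≤ n → v n ≤ (8 * C + 3) / (r : ℝ) ^ d := by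
  intro r
  induction r using Nat.strong_induction_on with
  | _ r ih =>
  intro h1 h2 n hn
  have hm' : (1 : ℝ) ≤ m := by exact_mod_cast hm
  have hr : (0 : ℝ) < r := by
    have : 0 < r := by omega
    exact_mod_cast this
  have hrd : (0 : ℝ) < (r : ℝ) ^ d := pow_pos hr d
  have hd' : (1 : ℝ) ≤ d := by exact_mod_cast hd
  have hden : 0 < 4 * (C * (r : ℝ) ^ 2) := by positivity
  by_cases hc : r < 2 * m
  · have h3 := hS r h1 h2 n 0
    rw [add_zero] at h3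
    have hr2 : (r : ℝ) ≤ 2 * m := by exact_mod_cast hc.le
    have hn' : (J : ℝ) * (m : ℝ) ^ 3 ≤ n := by
      have : J * m ^ 3 ≤ n := (Nat.mul_le_mul_left J (Nat.le_add_right _ _)).trans hn
      exact_mod_cast this
    have he : exp (-(n / (4 * (C * (r : ℝ) ^ 2)))) ≤ 1 / (r : ℝ) ^ d := by
      refine exp_le_inv (a := m) hr ?_ ?_
      · have := quadratic_le_exp_of_nonneg (x := (m : ℝ)) (by linarith)
        nlinarith [sq_nonneg ((m : ℝ) - 1)]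
      · rw [le_div_iff₀ hden]
        have e1 : (r : ℝ) ^ 2 ≤ 4 * (m : ℝ) ^ 2 := by nlinarith
        calc (d : ℝ) * m * (4 * (C * (r : ℝ) ^ 2)) ≤ d * m * (4 * (C * (4 * (m : ℝ) ^ 2))) := by
              gcongr
          _ = 16 * C * d * (m : ℝ) ^ 3 := by ring
          _ ≤ J * (m : ℝ) ^ 3 := by gcongr
          _ ≤ n := hn'
    calc v n ≤ 4 * C / (r : ℝ) ^ d + 1 / (r : ℝ) ^ d * 3 :=
          h3.trans (add_le_add le_rfl (mul_le_mul he h0 (hv 0) (by positivity)))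
      _ = (4 * C + 3) / (r : ℝ) ^ d := by ring
      _ ≤ (8 * C + 3) / (r : ℝ) ^ d := by gcongr; linarith
  · obtain ⟨r', hr'⟩ : ∃ r', r' = r / 2 := ⟨_, rfl⟩
    have a1 : m ≤ r' := by omega
    have a2 : r' < r := by omega
    have a3 : r ≤ 3 * r' := by omega
    have a4 : 2 * r' ^ 2 ≤ r ^ 2 := by
      have : 2 * r' ≤ r := by omega
      nlinarith
    have a5 : J * (m ^ 3 + 2 * r' ^ 2) + J * r ^ 2 ≤ n := by
      refine le_trans ?_ hn
      rw [← mul_add]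
      exact Nat.mul_le_mul_left J (by omega)
    obtain ⟨n₂, hn₂⟩ : ∃ n₂, n = n₂ + J * (m ^ 3 + 2 * r' ^ 2) :=
      ⟨n - J * (m ^ 3 + 2 * r' ^ 2), by omega⟩
    have a6 : (J : ℝ) * (r : ℝ) ^ 2 ≤ n₂ := by
      have : J * r ^ 2 ≤ n₂ := by omega
      exact_mod_cast this
    have h3 := hS r h1 h2 n₂ (J * (m ^ 3 + 2 * r' ^ 2))
    rw [← hn₂] at h3
    have h4 := ih r' a2 a1 (by omega) _ le_rfl
    have hr'0 : (0 : ℝ) < r' := by
      have : 0 < r' := by omega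
      exact_mod_cast this
    have he : exp (-(n₂ / (4 * (C * (r : ℝ) ^ 2)))) ≤ 1 / (6 : ℝ) ^ d := by
      refine exp_le_inv (a := 4) (by norm_num) ?_ ?_
      · have := quadratic_le_exp_of_nonneg (x := (4 : ℝ)) (by norm_num)
        linarith
      · rw [le_div_iff₀ hden]
        calc (d : ℝ) * 4 * (4 * (C * (r : ℝ) ^ 2)) = 16 * C * d * (r : ℝ) ^ 2 := by ring
          _ ≤ J * (r : ℝ) ^ 2 := by gcongr
          _ ≤ n₂ := a6
    have h5 : (8 * C + 3) / (r' : ℝ) ^ d ≤ 3 ^ d * ((8 * C + 3) / (r : ℝ) ^ d) := by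
      have e1 : (r : ℝ) ^ d ≤ 3 ^ d * (r' : ℝ) ^ d := by
        rw [← mul_pow]
        exact pow_le_pow_left₀ hr.le (by exact_mod_cast a3) d
      rw [← mul_div_assoc, div_le_div_iff₀ (pow_pos hr'0 d) hrd]
      calc (8 * C + 3) * (r : ℝ) ^ d ≤ (8 * C + 3) * (3 ^ d * (r' : ℝ) ^ d) := by gcongr
        _ = _ := by ring
    have h6 : 1 / (6 : ℝ) ^ d * 3 ^ d ≤ 1 / 2 := by
      have e1 : 1 / (6 : ℝ) ^ d * 3 ^ d = (1 / 2) ^ d := by
        rw [one_div, ← inv_pow, ← mul_pow]; norm_num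
      rw [e1]
      exact pow_le_of_le_one (by norm_num) (by norm_num) (by omega)
    have h7 : 0 ≤ (8 * C + 3) / (r : ℝ) ^ d := by positivity
    calc v n ≤ 4 * C / (r : ℝ) ^ d + 1 / (6 : ℝ) ^ d * (3 ^ d * ((8 * C + 3) / (r : ℝ) ^ d)) :=
          h3.trans (add_le_add le_rfl (mul_le_mul he (h4.trans h5) (hv _) (by positivity)))
      _ ≤ 4 * C / (r : ℝ) ^ d + 1 / 2 * ((8 * C + 3) / (r : ℝ) ^ d) := by
          rw [← mul_assoc]
          exact add_le_add le_rfl (mul_le_mul_of_nonneg_right h6 h7)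
      _ = (8 * C + 3 / 2) / (r : ℝ) ^ d := by ring
      _ ≤ (8 * C + 3) / (r : ℝ) ^ d := by gcongr; norm_num

end Hk0

theorem hk0 (hN : NSStmt) (hS : SPGStmt) : HK0Stmt := by
  intro D
  obtain ⟨C, hC, hN⟩ := hN D
  refine ⟨8 * C + 3, ⌈16 * C * ((D + 1 : ℕ) : ℝ)⌉₊, by linarith, ?_, ?_⟩
  · refine Nat.one_le_iff_ne_zero.2 (Nat.ceil_pos.2 ?_).ne'
    positivity
  intro ω R m h δ rep w hG lam x r r₁ n l0 l1 l4 h1 h2 hR hx hn
  have hm : 1 ≤ m := hG.h1.trans hG.hm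
  set A := wb' ω h x r₁ with hA
  set Q := ball x (r₁ + 1) with hQ
  set E := exp (2 * lam * (x 0 : ℝ)) with hE
  have hE0 : 0 < E := exp_pos _
  have hπ : E / 3 ≤ pim lam ω x := le_pim l0 l1 (wide_Zq hG.h1 hx lam)
  have hπ0 : 0 < pim lam ω x := lt_of_lt_of_le (by positivity) hπ
  set f : V D → ℝ := Pi.single x (pim lam ω x)⁻¹ with hf
  have hxA : x ∈ A := mem_wb'.2 ⟨by simp, hx⟩
  have hAQ : ∀ y ∈ A, y ∈ Q ∧ ∀ s, y + vec s ∈ Q := fun y hy =>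
    ⟨mem_ball.2 ((mem_wb'.1 hy).1.trans (Nat.le_succ _)), fun s =>
      mem_ball.2 ((nrm_step y x s).trans (Nat.succ_le_succ (mem_wb'.1 hy).1))⟩
  have hxQ : x ∈ Q := (hAQ x hxA).1
  have f0 : ∀ y, 0 ≤ f y := fun y => by
    by_cases e : y = x
    · subst e; simpa [hf] using hπ0.le
    · simp [hf, e]
  have fA : ∀ y, f y ≠ 0 → y ∈ A := fun y hy => by
    by_cases e : y = x
    · rwa [e]
    · simp [hf, e] at hy
  have f1 : ∑ y ∈ Q, pim lam ω y * f y ≤ 1 := by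
    rw [sum_eq_single x (fun y _ e => by simp [hf, e]) fun e => absurd hxQ e]
    simp [hf, mul_inv_cancel₀ hπ0.ne']
  have f2 : ∑ y ∈ Q, pim lam ω y * f y ^ 2 = (pim lam ω x)⁻¹ := by
    rw [sum_eq_single x (fun y _ e => by simp [hf, e]) fun e => absurd hxQ e]
    simp only [hf, Pi.single_eq_same]
    field_simp
  have fk : ∀ k y, Pk lam ω A k f y ≠ 0 → y ∈ A := fun k y hy => by
    cases k with
    | zero => exact fA y hy
    | succ k => by_contra e; exact hy (Pk_succ_not (by simpa using e) k f)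
  have sp : ∀ ρ : ℕ, m ≤ ρ → ρ ≤ r₁ → ∀ g : V D → ℝ, (∀ y, 0 ≤ g y) → (∀ y, g y ≠ 0 → y ∈ A) →
      ∑ y ∈ Q, pim lam ω y * g y ≤ 1 → ∀ k : ℕ, ∑ y ∈ Q, pim lam ω y * Pk lam ω A k g y ≤ 1 ∧
      ∑ y ∈ Q, pim lam ω y * Pk lam ω A k g y ^ 2 ≤ 4 * C / ((ρ : ℝ) ^ (D + 1) * E) +
        exp (-(k / (4 * (C * (ρ : ℝ) ^ 2)))) * ∑ y ∈ Q, pim lam ω y * g y ^ 2 := by
    intro ρ a1 a2
    have hρ : (1 : ℝ) ≤ ρ := by exact_mod_cast hm.trans a1
    refine hS D lam ω A Q (C * (ρ : ℝ) ^ 2) _ (by nlinarith) (by positivity) hAQ ?_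
    intro g g0 gA g2
    refine (hN ω R m h δ rep w hG lam x ρ r₁ g Q l0 l1 l4 a1 a2 hR gA
      fun y hy => hAQ y (gA y hy)).trans (add_le_add le_rfl ?_)
    simp only [abs_of_nonneg (g0 _)]
    have g3 : 0 ≤ ∑ y ∈ Q, pim lam ω y * g y :=
      sum_nonneg fun y _ => mul_nonneg (pim_nonneg _ _ _) (g0 y)
    refine div_le_div_of_nonneg_right ?_ (by positivity)
    have g4 : (∑ y ∈ Q, pim lam ω y * g y) ^ 2 ≤ 4 := by nlinarith
    nlinarith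
  have key := Hk0.iter (D + 1) ⌈16 * C * ((D + 1 : ℕ) : ℝ)⌉₊ m r₁ C
    (fun k => E * ∑ y ∈ Q, pim lam ω y * Pk lam ω A k f y ^ 2) (by omega) hC hm (Nat.le_ceil _)
    (fun k => mul_nonneg hE0.le (sum_nonneg fun y _ => mul_nonneg (pim_nonneg _ _ _) (sq_nonneg _)))
    (by
      simp only [Pk_zero]
      rw [f2, ← div_eq_mul_inv, div_le_iff₀ hπ0]
      linarith)
    (by
      intro ρ a1 a2 n₂ n₁
      have hρ : (0 : ℝ) < ρ := by
        have : 0 < ρ := by omega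
        exact_mod_cast this
      have b := (sp ρ a1 a2 _ (Pk_nonneg f0 n₁) (fk n₁) (sp ρ a1 a2 f f0 fA f1 n₁).1 n₂).2
      rw [← Pk_add_apply] at b
      refine (mul_le_mul_of_nonneg_left b hE0.le).trans (le_of_eq ?_)
      field_simp) r h1 h2 n hn
  rw [← div_div, le_div_iff₀ hE0, mul_comm]
  exact key

end Pool.Agent.MP_8c549f_pr.L2

end
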