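import Pool.Agent.MP_8c549f_pr.L2.Basic

/-! PROJECT L2: the pointwise heat kernel bound, by duality. -/

noncomputable section

namespace Pool.Agent.MP_8c549f_pr.L2

open MeasureTheory Finset Real Classical S3

namespace Hk1

variable {D : ℕ} {lam : ℝ} {ω : Cfg D}

theorem supp_Pk {A : Set (V D)} {a : V D → ℝ} (ha : ∀ y, a y ≠ 0 → y ∈ A) (n : ℕ) :
    ∀ y, Pk lam ω A n a y ≠ 0 → y ∈ A := by
  cases n with
  | zero => exact ha
  | succ n =>
    intro y hy
    by_contra h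
    exact hy (Pk_succ_not h n a)

theorem mul_Pu {A : Set (V D)} {a : V D → ℝ} (ha : ∀ y, a y ≠ 0 → y ∈ A) (b : V D → ℝ)
    (y : V D) : a y * Pu lam ω A b y = a y * Pf lam ω b y := by
  by_cases h : a y = 0
  · simp [h]
  · rw [Pu_of_mem (ha y h)]

theorem dual (hI : IDStmt) {A : Set (V D)} {Q : Finset (V D)}
    (hQ : ∀ y ∈ A, y ∈ Q ∧ ∀ s, y + vec s ∈ Q) {a : V D → ℝ} (ha : ∀ y, a y ≠ 0 → y ∈ A)
    (n : ℕ) : ∀ b : V D → ℝ, (∀ y, b y ≠ 0 → y ∈ A) →
    ∑ y ∈ Q, pim lam ω y * a y * Pk lam ω A n b y =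
      ∑ y ∈ Q, pim lam ω y * b y * Pk lam ω A n a y := by
  induction n with
  | zero =>
    intro b _
    exact sum_congr rfl fun y _ => by simp only [Pk_zero]; ring
  | succ n ih =>
    intro b hb
    have hc := supp_Pk (lam := lam) (ω := ω) ha n
    have hP : ∀ y, Pu lam ω A b y ≠ 0 → y ∈ A := fun y hy => by
      by_contra h
      exact hy (Pu_of_not h b)
    have h2 := (hI D lam ω Q).2.1 (Pk lam ω A n a) b fun y hy => hQ y (hc y hy)
    rw [Pk_succ', ih _ hP, Pk_succ]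
    calc ∑ y ∈ Q, pim lam ω y * Pu lam ω A b y * Pk lam ω A n a y
        = ∑ y ∈ Q, pim lam ω y * Pk lam ω A n a y * Pf lam ω b y := by
          refine sum_congr rfl fun y _ => ?_
          rw [mul_assoc, mul_comm (Pu lam ω A b y), mul_Pu hc, mul_assoc]
      _ = _ := by
          rw [h2]
          refine sum_congr rfl fun y _ => ?_
          rw [mul_assoc, mul_assoc, mul_Pu hb]

theorem cs (Q : Finset (V D)) (p b c : V D → ℝ) (hp : ∀ y, 0 ≤ p y) :
    (∑ y ∈ Q, p y * b y * c y) ^ 2 ≤ (∑ y ∈ Q, p y * b y ^ 2) * ∑ y ∈ Q, p y * c y ^ 2 :=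
  sum_sq_le_sum_mul_sum_of_sq_le_mul Q (fun y _ => mul_nonneg (hp y) (sq_nonneg _))
    (fun y _ => mul_nonneg (hp y) (sq_nonneg _)) fun y _ => le_of_eq (by ring)

end Hk1

open Hk1 in
theorem hk1 (hI : IDStmt) (h0 : HK0Stmt) : HKStmt := by
  intro D
  obtain ⟨C, J, hC, hJ, H⟩ := h0 D
  have hK : (1 : ℝ) ≤ (2 * D + 4) * exp 8 * C := by
    have h1 : (1 : ℝ) ≤ 2 * D + 4 := by have : (0 : ℝ) ≤ D := Nat.cast_nonneg D; linarith
    have h2 : (1 : ℝ) ≤ exp 8 := one_le_exp (by norm_num)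
    exact one_le_mul_of_one_le_of_one_le (one_le_mul_of_one_le_of_one_le h1 h2) hC
  refine ⟨(2 * D + 4) * exp 8 * C, J, hK, hJ, ?_⟩
  intro ω R m h δ rep w G lam x r r₁ n u l0 l1 lr hm hr hR hx hn
  have HH := H ω R m h δ rep w G lam x r r₁ n l0 l1 lr hm hr hR hx hn
  set A : Finset (V D) := wb' ω h x r₁ with hA
  set Q : Finset (V D) := ball x (r₁ + 1) with hQ
  set a : V D → ℝ := Pi.single x (pim lam ω x)⁻¹ with ha
  set b : V D → ℝ := (A : Set (V D)).indicator fun y => max (u y) 0 with hb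
  have hp : ∀ y, 0 ≤ pim lam ω y := fun y => by
    rw [← sum_cnd]; exact sum_nonneg fun s _ => cnd_nonneg y s
  have hpx : 0 < pim lam ω x :=
    lt_of_lt_of_le (by positivity) (le_pim l0 l1 (wide_Zq G.h1 hx lam))
  have hxA : x ∈ A := mem_wb'.2 ⟨by simp, hx⟩
  have hAQ : ∀ y ∈ (A : Set (V D)), y ∈ Q ∧ ∀ s, y + vec s ∈ Q := fun y hy => by
    have := (mem_wb'.1 (mem_coe.1 hy)).1
    exact ⟨mem_ball.2 (by omega), fun s => mem_ball.2 ((nrm_step y x s).trans (by omega))⟩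
  have sa : ∀ y, a y ≠ 0 → y ∈ (A : Set (V D)) := fun y hy => by
    by_cases e : y = x
    · rw [e]; exact hxA
    · exact absurd (Pi.single_eq_of_ne e _) hy
  have sb : ∀ y, b y ≠ 0 → y ∈ (A : Set (V D)) := fun y hy => by
    by_contra c
    exact hy (Set.indicator_of_notMem c _)
  have e1 : Pk lam ω (ball x r₁) n ((ball x r₁ : Set (V D)).indicator u) x =
      Pk lam ω A n ((A : Set (V D)).indicator u) x := by
    have hm' : ∀ y, Wide ω y h → (y ∈ (ball x r₁ : Set (V D)) ↔ y ∈ (A : Set (V D))) :=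
      fun y hy => by simp only [mem_coe, hA, mem_wb', mem_ball, hy, and_true]
    refine Pk_wide hx n (fun y hy _ => hm' y hy) fun y hy _ => ?_
    by_cases c : y ∈ (A : Set (V D))
    · rw [Set.indicator_of_mem c, Set.indicator_of_mem ((hm' y hy).2 c)]
    · rw [Set.indicator_of_notMem c, Set.indicator_of_notMem fun d => c ((hm' y hy).1 d)]
  have e2 : Pk lam ω A n ((A : Set (V D)).indicator u) x ≤ Pk lam ω A n b x :=
    Pk_mono (fun y => Set.indicator_le_indicator (le_max_left (u y) 0)) n x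
  have e3 : Pk lam ω A n b x = ∑ y ∈ Q, pim lam ω y * b y * Pk lam ω A n a y := by
    rw [← dual hI hAQ sa n b sb, sum_eq_single x]
    · rw [ha, Pi.single_eq_same, mul_inv_cancel₀ hpx.ne', one_mul]
    · intro y _ e
      rw [ha, Pi.single_eq_of_ne e]; simp
    · intro c
      exact absurd (hAQ x hxA).1 c
  set S : ℝ := ∑ y ∈ A, max (u y) 0 ^ 2 with hS
  have hS0 : 0 ≤ S := sum_nonneg fun y _ => sq_nonneg _
  have e4 : ∑ y ∈ Q, pim lam ω y * b y ^ 2 ≤
      (2 * D + 4) * exp 8 * exp (2 * lam * (x 0 : ℝ)) * S := by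
    rw [← sum_subset (s₁ := A) (fun y hy => (hAQ y hy).1) fun y _ hy => by
      rw [hb, Set.indicator_of_notMem (by simpa using hy)]; simp, hS, mul_sum]
    refine sum_le_sum fun y hy => ?_
    rw [hb, Set.indicator_of_mem (by simpa using hy)]
    refine mul_le_mul_of_nonneg_right ((pim_le l0 l1 y).trans ?_) (sq_nonneg _)
    rw [mul_assoc (2 * (D : ℝ) + 4) (exp 8), ← exp_add]
    refine mul_le_mul_of_nonneg_left (exp_le_exp.2 ?_) (by positivity)
    have h1 := (abs_le.1 (nrm_le_iff.1 (mem_wb'.1 hy).1 0)).2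
    have h2 : (y 0 : ℝ) - x 0 ≤ r₁ := by exact_mod_cast h1
    nlinarith [mul_le_mul_of_nonneg_left h2 l0]
  have hr1 : (0 : ℝ) < (r : ℝ) ^ (D + 1) := by
    have := G.h1
    have := G.hm
    have : 0 < r := by omega
    positivity
  have e5 : (∑ y ∈ Q, pim lam ω y * b y * Pk lam ω A n a y) ^ 2 ≤
      ((2 * D + 4) * exp 8 * C) ^ 2 * (S / (r : ℝ) ^ (D + 1)) := by
    refine (cs Q _ _ _ hp).trans ((mul_le_mul e4 HH
      (sum_nonneg fun y _ => mul_nonneg (hp y) (sq_nonneg _)) (by positivity)).trans ?_)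
    have : (2 * D + 4) * exp 8 * exp (2 * lam * (x 0 : ℝ)) * S *
        (C / ((r : ℝ) ^ (D + 1) * exp (2 * lam * (x 0 : ℝ)))) =
        ((2 * D + 4) * exp 8 * C) * (S / (r : ℝ) ^ (D + 1)) := by
      field_simp
    rw [this]
    exact mul_le_mul_of_nonneg_right (by nlinarith) (by positivity)
  rw [e1]
  refine e2.trans (e3.trans_le ((le_abs_self _).trans ?_))
  refine (abs_le_sqrt e5).trans_eq ?_
  rw [sqrt_mul (sq_nonneg _), sqrt_sq (by linarith)]

end Pool.Agent.MP_8c549f_pr.L2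

end
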