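import Pool.Agent.MP_8c549f_pr.L2.Basic

/-! PROJECT L2, row Hm: the drift defect is small in the dual energy norm. -/

noncomputable section

namespace Pool.Agent.MP_8c549f_pr.L2

open MeasureTheory Finset Real Classical S3

namespace Hm

variable {D : ℕ} {lam : ℝ} {ω : Cfg D}

theorem sum_shift (T : Finset (V D)) (g : V D → ℝ) (v : V D)
    (h : ∀ z, g z ≠ 0 → z ∈ T ∧ z - v ∈ T) : ∑ z ∈ T, g (z + v) = ∑ z ∈ T, g z := by
  refine sum_bij_ne_zero (fun z _ _ => z + v) (fun z _ hz => (h _ hz).1)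
    (fun a _ _ b _ _ e => add_right_cancel e) (fun z _ hz => ?_) fun _ _ _ => rfl
  exact ⟨z - v, (h z hz).2, by simpa using hz, by simp⟩

theorem pim_dr (y : V D) :
    pim lam ω y * dr lam ω y = cnd lam ω y (fwd D) - cnd lam ω (y - Pi.single 0 1) (fwd D) := by
  have h1 : cnd lam ω y (bck D) = cnd lam ω (y - Pi.single 0 1) (fwd D) := by
    have e1 : edge y (bck D) = edge (y - Pi.single 0 1) (fwd D) := by simp [edge, fwd, bck]
    have e2 : expo y (bck D) = expo (y - Pi.single 0 1) (fwd D) := by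
      simp only [expo, vec_fwd_zero, vec_bck_zero, Pi.sub_apply, Pi.single_eq_same]; ring
    rw [cnd, cnd, e1, e2]
  rw [dr, mul_sum]
  simp only [← mul_assoc, pim_pr]
  rw [sum_step, h1]
  simp [vec_side_zero, sub_eq_add_neg]

theorem cnd_fwd (z : V D) : cnd lam ω z (fwd D) =
    if ω (edge z (fwd D)) = true then exp (2 * lam * (z 0 : ℝ)) * exp lam else 0 := by
  rw [cnd, ← exp_add, expo, vec_fwd_zero]
  congr 2; push_cast; ring

/-- the defect at one site -/
def Rz (lam : ℝ) (ω : Cfg D) (φ ψ : V D → ℝ) (z : V D) : ℝ :=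
  (cnd lam ω z (fwd D) * (φ z - φ (z + Pi.single 0 1)) -
    exp (2 * lam * (z 0 : ℝ)) * exp lam * (ψ z - ψ (z + Pi.single 0 1))) -
  d0 D lam * (pim lam ω z * φ z - Zf D lam * exp (2 * lam * (z 0 : ℝ)) * ψ z)

theorem sum_Rz (T : Finset (V D)) (φ ψ : V D → ℝ)
    (hφ : ∀ z, φ z ≠ 0 → z ∈ T ∧ z - Pi.single 0 1 ∈ T)
    (hψ : ∀ z, ψ z ≠ 0 → z ∈ T ∧ z - Pi.single 0 1 ∈ T) :
    ∑ y ∈ T, pim lam ω y * φ y * (dr lam ω y - d0 D lam) = ∑ z ∈ T, Rz lam ω φ ψ z := by
  have h1 := sum_shift T (fun y => cnd lam ω (y - Pi.single 0 1) (fwd D) * φ y) (Pi.single 0 1)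
    fun z hz => hφ z (right_ne_zero_of_mul hz)
  have h2 := sum_shift T (fun y => exp (2 * lam * (y 0 : ℝ)) * exp (-lam) * ψ y) (Pi.single 0 1)
    fun z hz => hψ z (right_ne_zero_of_mul hz)
  have e2 : ∀ z : V D, exp (2 * lam * (((z + Pi.single 0 1 : V D) 0 : ℤ) : ℝ)) * exp (-lam) =
      exp (2 * lam * (z 0 : ℝ)) * exp lam := fun z => by
    rw [← exp_add, ← exp_add]; congr 1
    simp only [Pi.add_apply, Pi.single_eq_same]; push_cast; ring
  have e3 : d0 D lam * Zf D lam = exp lam - exp (-lam) := div_mul_cancel₀ _ (Zf_pos D lam).ne'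
  simp only [add_sub_cancel_right, e2] at h1 h2
  have h3 : ∀ z, Rz lam ω φ ψ z = pim lam ω z * φ z * (dr lam ω z - d0 D lam) +
      (cnd lam ω (z - Pi.single 0 1) (fwd D) * φ z - cnd lam ω z (fwd D) * φ (z + Pi.single 0 1)) +
      (exp (2 * lam * (z 0 : ℝ)) * exp lam * ψ (z + Pi.single 0 1) -
        exp (2 * lam * (z 0 : ℝ)) * exp (-lam) * ψ z) := fun z => by
    have := pim_dr (lam := lam) (ω := ω) z
    rw [Rz]
    linear_combination (-φ z) * this + exp (2 * lam * (z 0 : ℝ)) * ψ z * e3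
  simp only [h3, sum_add_distrib, sum_sub_distrib, h1, h2, sub_self, add_zero]

theorem Rz_zero {φ ψ : V D → ℝ} {z : V D} (h1 : φ z = ψ z)
    (h2 : φ (z + Pi.single 0 1) = ψ (z + Pi.single 0 1)) (ho : ∀ s, ω (edge z s) = true) :
    Rz lam ω φ ψ z = 0 := by
  have : Zq lam ω z = Zf D lam := by simp [Zq, ho, sum_wt]
  rw [Rz, cnd_fwd, if_pos (ho _), pim, this, h1, h2]; ring

theorem abs_Rz {φ ψ : V D → ℝ} {h : ℕ} (hd : 0 ≤ d0 D lam) (h1 : ∀ z, Wide ω z h → φ z = ψ z)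
    (h2 : ∀ z, ¬ Wide ω z h → φ z = 0) (z : V D) :
    |Rz lam ω φ ψ z| ≤ exp (2 * lam * (z 0 : ℝ)) *
      (exp lam * |ψ z - ψ (z + Pi.single 0 1)| + d0 D lam * Zf D lam * |ψ z|) := by
  have hE := exp_pos (2 * lam * (z 0 : ℝ))
  have hl := exp_pos lam
  have a1 : |cnd lam ω z (fwd D) * (φ z - φ (z + Pi.single 0 1)) -
      exp (2 * lam * (z 0 : ℝ)) * exp lam * (ψ z - ψ (z + Pi.single 0 1))| ≤
      exp (2 * lam * (z 0 : ℝ)) * exp lam * |ψ z - ψ (z + Pi.single 0 1)| := by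
    have b : |(0 : ℝ) - exp (2 * lam * (z 0 : ℝ)) * exp lam * (ψ z - ψ (z + Pi.single 0 1))| ≤
        exp (2 * lam * (z 0 : ℝ)) * exp lam * |ψ z - ψ (z + Pi.single 0 1)| := by
      rw [zero_sub, abs_neg, abs_mul, abs_of_pos (mul_pos hE hl)]
    rw [cnd_fwd]
    split_ifs with ho
    · have hc : Conn ω z (z + Pi.single 0 1) := by simpa [vec_fwd] using Conn.step ho
      by_cases hw : Wide ω z h
      · rw [h1 z hw, h1 _ (hw.of_conn hc), sub_self, abs_zero]; positivity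
      · rw [h2 z hw, h2 _ fun hw' => hw (hw'.of_conn hc.symm), sub_self, mul_zero]; exact b
    · rw [zero_mul]; exact b
  have a2 : |pim lam ω z * φ z - Zf D lam * exp (2 * lam * (z 0 : ℝ)) * ψ z| ≤
      Zf D lam * exp (2 * lam * (z 0 : ℝ)) * |ψ z| := by
    have z0 := Zq_nonneg lam ω z
    have z1 := Zq_le_Zf lam ω z
    by_cases hw : Wide ω z h
    · rw [h1 z hw, ← sub_mul, abs_mul, pim]
      refine mul_le_mul_of_nonneg_right (abs_le.2 ⟨?_, ?_⟩) (abs_nonneg _) <;> nlinarith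
    · rw [h2 z hw, mul_zero, zero_sub, abs_neg, abs_mul,
        abs_of_pos (mul_pos (Zf_pos D lam) hE)]
  rw [Rz]
  refine (abs_sub _ _).trans ?_
  rw [abs_mul (d0 D lam), abs_of_nonneg hd]
  nlinarith [mul_le_mul_of_nonneg_left a2 hd]

theorem et_step {ζ : ℝ} (h0 : 0 ≤ ζ) (h1 : ζ ≤ 1) (x z : V D) :
    et ζ x (z + Pi.single 0 1) ≤ 3 * et ζ x z ∧
      |et ζ x z - et ζ x (z + Pi.single 0 1)| ≤ 2 * ζ * et ζ x z := by
  have a1 : nrm (z + Pi.single 0 1 - x) ≤ nrm (z - x) + 1 := by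
    simpa [vec_fwd] using nrm_step z x (fwd D)
  have a2 : nrm (z - x) ≤ nrm (z + Pi.single 0 1 - x) + 1 := by
    have := nrm_step (z + Pi.single 0 1) x (bck D)
    rwa [vec_bck, add_neg_cancel_right] at this
  have b1 : (nrm (z + Pi.single 0 1 - x) : ℝ) ≤ nrm (z - x) + 1 := by exact_mod_cast a1
  have b2 : (nrm (z - x) : ℝ) ≤ nrm (z + Pi.single 0 1 - x) + 1 := by exact_mod_cast a2
  set t : ℝ := ζ * ((nrm (z - x) : ℝ) - nrm (z + Pi.single 0 1 - x)) with ht
  have hta : |t| ≤ ζ := by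
    rw [ht, abs_mul, abs_of_nonneg h0]
    exact mul_le_of_le_one_right h0 (abs_le.2 ⟨by linarith, by linarith⟩)
  have e : et ζ x (z + Pi.single 0 1) = et ζ x z * exp t := by
    rw [et, et, ← exp_add]; congr 1; rw [ht]; ring
  have hp : 0 < et ζ x z := exp_pos _
  have c := Real.abs_exp_sub_one_le (hta.trans h1)
  have c' := abs_le.1 c
  rw [e]
  refine ⟨by nlinarith, ?_⟩
  rw [← mul_one_sub, abs_mul, abs_of_pos hp, abs_sub_comm]
  nlinarith

theorem sq_aux {E EL η w a b c r : ℝ} (hE : 0 ≤ E) (hEL : E ≤ EL) (h0 : 0 ≤ η) (h1 : η ≤ 1)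
    (hw : 2 ≤ w) (hr : |r| ≤ E * (η * (9 * |a| + c * |b|))) :
    r ^ 2 ≤ 2 * EL * (η * (w - 1)) * (162 * (E * a ^ 2 / w) + 2 * c ^ 2 * (E * b ^ 2)) := by
  have hw0 : 0 < w := by linarith
  have s1 : r ^ 2 ≤ (E * (η * (9 * |a| + c * |b|))) ^ 2 := by
    rw [← sq_abs r]; exact pow_le_pow_left₀ (abs_nonneg _) hr 2
  have s2 : (9 * |a| + c * |b|) ^ 2 ≤ 162 * a ^ 2 + 2 * c ^ 2 * b ^ 2 := by
    rw [← sq_abs a, ← sq_abs b]; nlinarith [sq_nonneg (9 * |a| - c * |b|)]
  have s3 : E * (162 * a ^ 2 + 2 * c ^ 2 * b ^ 2) ≤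
      w * (162 * (E * a ^ 2 / w) + 2 * c ^ 2 * (E * b ^ 2)) := by
    have e : w * (162 * (E * a ^ 2 / w)) = 162 * (E * a ^ 2) := by field_simp
    have : 0 ≤ 2 * c ^ 2 * (E * b ^ 2) := by positivity
    rw [mul_add w, e]; nlinarith
  have q0 : 0 ≤ 162 * (E * a ^ 2 / w) + 2 * c ^ 2 * (E * b ^ 2) := by positivity
  have s4 : E * η ^ 2 * w ≤ 2 * EL * (η * (w - 1)) := by
    have t1 : η ^ 2 ≤ η := by nlinarith
    calc E * η ^ 2 * w ≤ EL * η * (2 * (w - 1)) :=
          mul_le_mul (mul_le_mul hEL t1 (sq_nonneg _) (hE.trans hEL)) (by linarith) hw0.le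
            (mul_nonneg (hE.trans hEL) h0)
      _ = _ := by ring
  calc r ^ 2 ≤ E * η ^ 2 * (E * (9 * |a| + c * |b|) ^ 2) := s1.trans (le_of_eq (by ring))
    _ ≤ E * η ^ 2 * (w * (162 * (E * a ^ 2 / w) + 2 * c ^ 2 * (E * b ^ 2))) :=
        mul_le_mul_of_nonneg_left ((mul_le_mul_of_nonneg_left s2 hE).trans s3) (by positivity)
    _ = E * η ^ 2 * w * (162 * (E * a ^ 2 / w) + 2 * c ^ 2 * (E * b ^ 2)) := by ring
    _ ≤ _ := mul_le_mul_of_nonneg_right s4 q0

end Hm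

open Hm in
theorem hm (hH : HDStmt) (hT : THStmt) (hD : D0Stmt) : HMStmt := by
  intro D ξ ξ0 ξ1
  obtain ⟨K, K1, hK⟩ := hH D
  obtain ⟨CT, C1, hC⟩ := hT D
  set M : ℝ := 2 * CT / ξ ^ (D + 1) * ((162 + 2 * (2 * D + 10) ^ 2) * K) with hM
  have M0 : 0 ≤ M := by positivity
  refine ⟨M + 1, by linarith, ?_⟩
  intro ω R m h δ rep w G l lam S f Q x L hf hs
  have l0 := S.lpos
  have lam0 := S.pos
  have lam4 := S.le_quarter
  have m16 := S.m16
  have l16 := S.l16
  have hm' := G.hm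
  have h1' := G.h1
  have ml : (16 : ℝ) * m ≤ l := by exact_mod_cast m16
  have m0 : (0 : ℝ) ≤ m := Nat.cast_nonneg _
  set ζ : ℝ := ξ / l with hζ
  have ζ0 : 0 < ζ := div_pos ξ0 l0
  have ζl : ζ ≤ lam := (div_le_div_of_nonneg_right ξ1 l0.le).trans S.lo
  have lm : lam * m ≤ 1 := by nlinarith [S.mul_le]
  obtain ⟨k1, k2, -⟩ := hK ω R m h δ rep w G lam f Q lam0 lm
    (fun y hy => by have := (hf y hy).2.1; omega) hs
  set T : Finset (V D) := Q.biUnion fun y => ball y (h + 1) with hTd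
  have hT2 := (hC ζ x T ζ0 (by linarith)).2 m δ w (by omega) G.d0 (by nlinarith) G.w1 G.seg
  have hsing : nrm (Pi.single 0 1 : V D) = 1 := by simpa using nrm_single (D := D) 0 1
  have hF : ∀ z, f (rep z) ≠ 0 → (z ∈ T ∧ z - Pi.single 0 1 ∈ T) ∧ nrm z + 1 ≤ R ∧ z 0 < L := by
    intro z hz
    have n1 : nrm (z - rep z) ≤ h := by rw [nrm_sub_comm]; exact G.near z
    have n2 : nrm (z - Pi.single 0 1 - rep z) ≤ h + 1 := by
      rw [sub_right_comm]; exact (nrm_sub_le _ _).trans (by omega)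
    have n3 : nrm z ≤ nrm (z - rep z) + nrm (rep z) := by simpa using nrm_add_le (z - rep z) (rep z)
    have n4 := (hf _ hz).2.1
    refine ⟨⟨mem_biUnion.2 ⟨_, (hs _ hz).1, mem_ball.2 (by omega)⟩,
      mem_biUnion.2 ⟨_, (hs _ hz).1, mem_ball.2 n2⟩⟩, by omega, ?_⟩
    rw [← G.lev z]; exact (hf _ hz).2.2
  set φ : V D → ℝ := fun y => et ζ x y * f y with hφ
  set ψ : V D → ℝ := fun y => et ζ x y * f (rep y) with hψ
  have p1 : ∀ z, Wide ω z h → φ z = ψ z := fun z hz => by simp only [hφ, hψ, G.fix z hz]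
  have p2 : ∀ z, ¬ Wide ω z h → φ z = 0 := fun z hz => by
    have : f z = 0 := by_contra fun hn => hz (hf z hn).1
    simp only [hφ, this, mul_zero]
  have e1 : ∑ y ∈ Q, pim lam ω y * φ y * (dr lam ω y - d0 D lam) = ∑ z ∈ T, Rz lam ω φ ψ z := by
    rw [← sum_Rz T φ ψ (fun z hz => ?_) fun z hz => (hF z (right_ne_zero_of_mul hz)).1]
    · refine sum_subset (fun y hy => mem_biUnion.2 ⟨y, hy, self_mem_ball _ _⟩) fun y _ hy => ?_
      have : f y = 0 := by_contra fun hn => hy (hs y hn).1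
      simp only [hφ, this, mul_zero, zero_mul]
    · have hz' : f z ≠ 0 := right_ne_zero_of_mul hz
      exact (hF z (by rwa [G.fix z (hf z hz').1])).1
  obtain ⟨d1, d2⟩ := (hD D).2.1 lam lam0.le
  have Z1 : Zf D lam ≤ 2 * D + 4 := Zf_le lam0.le (by linarith)
  have dZ : d0 D lam * Zf D lam ≤ lam * (2 * D + 4) := mul_le_mul d2 Z1 (Zf_pos D lam).le lam0.le
  have el : exp lam ≤ 3 := (exp_le_exp.2 (by linarith : lam ≤ 1)).trans
    (Real.exp_one_lt_d9.le.trans (by norm_num))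
  set c : ℝ := (2 * D + 10) * lam with hc
  have key : ∀ z, Rz lam ω φ ψ z ^ 2 ≤ 2 * exp (2 * lam * L) * (et ζ x z * (w z - 1)) *
      (162 * (exp (2 * lam * (z 0 : ℝ)) * (f (rep (z + Pi.single 0 1)) - f (rep z)) ^ 2 / w z) +
        2 * c ^ 2 * (exp (2 * lam * (z 0 : ℝ)) * f (rep z) ^ 2)) := by
    intro z
    have w1 := G.w1 z
    have η0 : 0 < et ζ x z := exp_pos _
    have triv : Rz lam ω φ ψ z = 0 → Rz lam ω φ ψ z ^ 2 ≤
        2 * exp (2 * lam * L) * (et ζ x z * (w z - 1)) *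
        (162 * (exp (2 * lam * (z 0 : ℝ)) * (f (rep (z + Pi.single 0 1)) - f (rep z)) ^ 2 / w z) +
          2 * c ^ 2 * (exp (2 * lam * (z 0 : ℝ)) * f (rep z) ^ 2)) := fun h0 => by
      have : 0 ≤ w z - 1 := by linarith
      have : 0 < w z := by linarith
      rw [h0, zero_pow two_ne_zero]; positivity
    have ab := abs_Rz (lam := lam) d1 p1 p2 z
    by_cases hz : nrm z ≤ R ∧ z 0 < L
    · by_cases hw : w z < 2
      · obtain ⟨g1, g2⟩ := G.nml z hz.1 hw
        refine triv (Rz_zero (p1 z g1) (p1 _ ?_) g2)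
        simpa [vec_fwd] using wide_step g1 (g2 (fwd D))
      · obtain ⟨s1, s2⟩ := et_step ζ0.le (by linarith) x z
        have zL : (z 0 : ℝ) ≤ L := by exact_mod_cast hz.2.le
        refine sq_aux (exp_pos _).le (exp_le_exp.2 (by nlinarith)) η0.le
          (exp_le_one_iff.2 (neg_nonpos.2 (by positivity))) (not_lt.1 hw) (ab.trans ?_)
        refine mul_le_mul_of_nonneg_left ?_ (exp_pos _).le
        have η1 : 0 < et ζ x (z + Pi.single 0 1) := exp_pos _
        have A0 := abs_nonneg (f (rep (z + Pi.single 0 1)) - f (rep z))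
        have B0 := abs_nonneg (f (rep z))
        have g1 : |ψ z - ψ (z + Pi.single 0 1)| ≤ et ζ x z *
            (3 * |f (rep (z + Pi.single 0 1)) - f (rep z)| + 2 * lam * |f (rep z)|) := by
          have e : ψ z - ψ (z + Pi.single 0 1) =
              (et ζ x z - et ζ x (z + Pi.single 0 1)) * f (rep z) -
                et ζ x (z + Pi.single 0 1) * (f (rep (z + Pi.single 0 1)) - f (rep z)) := by
            simp only [hψ]; ring
          rw [e]
          refine (abs_sub _ _).trans ?_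
          rw [abs_mul, abs_mul, abs_of_pos η1]
          have t1 := mul_le_mul_of_nonneg_right s1 A0
          have t2 := mul_le_mul_of_nonneg_right
            (s2.trans (mul_le_mul_of_nonneg_right (by linarith : 2 * ζ ≤ 2 * lam) η0.le)) B0
          linarith
        have g2 : |ψ z| = et ζ x z * |f (rep z)| := by
          simp only [hψ]; rw [abs_mul, abs_of_pos η0]
        have t3 := mul_le_mul el g1 (abs_nonneg _) (by norm_num)
        have t4 := mul_le_mul_of_nonneg_right dZ (abs_nonneg (ψ z))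
        rw [g2] at t4 ⊢
        rw [hc]; linarith
    · have f1 : f (rep z) = 0 := by_contra fun hn => hz ⟨by have := (hF z hn).2.1; omega, (hF z hn).2.2⟩
      have f2 : f (rep (z + Pi.single 0 1)) = 0 := by_contra fun hn => hz <| by
        obtain ⟨-, u1, u2⟩ := hF _ hn
        have := nrm_sub_le (z + Pi.single 0 1) (Pi.single 0 1)
        rw [add_sub_cancel_right] at this
        simp only [Pi.add_apply, Pi.single_eq_same] at u2
        exact ⟨by omega, by omega⟩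
      refine triv (abs_nonpos_iff.1 (ab.trans (le_of_eq ?_)))
      simp only [hψ, f1, f2, mul_zero, sub_self, abs_zero, add_zero]
  have cs := sum_sq_le_sum_mul_sum_of_sq_le_mul T
    (fun z _ => by have := G.w1 z; have : 0 ≤ w z - 1 := by linarith
                   have : 0 < et ζ x z := exp_pos _
                   positivity)
    (fun z _ => by have := G.w1 z; have : 0 < w z := by linarith
                   positivity) fun z _ => key z
  have En0 : 0 ≤ En lam ω Q f := by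
    rw [En_eq]
    exact sum_nonneg fun y _ => sum_nonneg fun s _ => mul_nonneg (cnd_nonneg _ _) (sq_nonneg _)
  have b1 : ∑ z ∈ T, 2 * exp (2 * lam * L) * (et ζ x z * (w z - 1)) ≤
      2 * CT / ξ ^ (D + 1) * (δ * (l : ℝ) ^ (D + 1) * exp (2 * lam * L)) := by
    rw [← mul_sum]
    refine (mul_le_mul_of_nonneg_left hT2 (by positivity)).trans (le_of_eq ?_)
    rw [hζ, div_pow]; field_simp
  have b2 : ∑ z ∈ T, (162 * (exp (2 * lam * (z 0 : ℝ)) *
        (f (rep (z + Pi.single 0 1)) - f (rep z)) ^ 2 / w z) +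
        2 * c ^ 2 * (exp (2 * lam * (z 0 : ℝ)) * f (rep z) ^ 2)) ≤
      (162 + 2 * (2 * D + 10) ^ 2) * K * En lam ω Q f := by
    rw [sum_add_distrib, ← mul_sum, ← mul_sum]
    have u1 : ∑ z ∈ T, exp (2 * lam * (z 0 : ℝ)) *
        (f (rep (z + Pi.single 0 1)) - f (rep z)) ^ 2 / w z ≤ K * En lam ω Q f := by
      refine (sum_le_sum fun z _ => ?_).trans (k1 T)
      refine single_le_sum (f := fun i => exp (2 * lam * (z 0 : ℝ)) *
        (f (rep (z + Pi.single i 1)) - f (rep z)) ^ 2 / w z) (fun i _ => ?_) (mem_univ 0)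
      have := G.w1 z
      have : 0 < w z := by linarith
      positivity
    have u2 := mul_le_mul_of_nonneg_left (k2 T) (by positivity : 0 ≤ 2 * c ^ 2)
    have u3 : 2 * c ^ 2 * (K / lam ^ 2 * En lam ω Q f) =
        2 * (2 * D + 10) ^ 2 * K * En lam ω Q f := by rw [hc]; field_simp
    rw [u3] at u2
    linarith
  have A0 : 0 ≤ δ * (l : ℝ) ^ (D + 1) * exp (2 * lam * L) := by have := G.d0; positivity
  have fin := cs.trans (mul_le_mul b1 b2
    (sum_nonneg fun z _ => by have := G.w1 z; have : 0 < w z := by linarith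
                              positivity) (by positivity))
  rw [e1]
  refine abs_le_of_sq_le_sq' ?_ (by positivity) |> abs_le.2
  rw [mul_pow, mul_pow, sq_sqrt A0, sq_sqrt En0]
  refine fin.trans ?_
  have : M ≤ (M + 1) ^ 2 := by nlinarith
  calc _ = M * (δ * (l : ℝ) ^ (D + 1) * exp (2 * lam * L) * En lam ω Q f) := by rw [hM]; ring
    _ ≤ (M + 1) ^ 2 * (δ * (l : ℝ) ^ (D + 1) * exp (2 * lam * L) * En lam ω Q f) :=
        mul_le_mul_of_nonneg_right this (mul_nonneg A0 En0)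
    _ = _ := by ring

end Pool.Agent.MP_8c549f_pr.L2

end
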