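import Pool.Agent.MP_8c549f_pr.L2.SpecB

/-! PROJECT L2, row Ht: exponential tail of the height without a cut, polynomial constants. -/

noncomputable section

namespace Pool.Agent.MP_8c549f_pr.L2

open MeasureTheory Finset Real Classical S3
open scoped ENNReal

namespace HtS

theorem rec_bound {u φ θ : ℝ} {R : ℕ → ℝ} (hu : 0 ≤ u) (hφ : 0 ≤ φ) (hR : ∀ i, 0 ≤ R i)
    (h : ∀ m, u * exp θ + φ * ∑ i ∈ range m, R i * exp (θ * (i + 2)) ≤ 1) {A : ℕ → ℝ≥0∞}
    (h0 : A 0 ≤ 1) (h1 : ∀ m, A (m + 1) ≤ ENNReal.ofReal u * A m +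
      ENNReal.ofReal φ * ∑ M ∈ range m, A M * ENNReal.ofReal (R (m - 1 - M))) (m : ℕ) :
    A m ≤ ENNReal.ofReal (exp (-θ * m)) := by
  induction m using Nat.strong_induction_on with
  | _ m ih =>
    rcases m with _ | m
    · simpa using h0
    refine (h1 m).trans ?_
    have e1 : ∑ M ∈ range m, A M * ENNReal.ofReal (R (m - 1 - M)) ≤
        ENNReal.ofReal (∑ M ∈ range m, exp (-θ * M) * R (m - 1 - M)) := by
      rw [ENNReal.ofReal_sum_of_nonneg fun M _ => mul_nonneg (exp_pos _).le (hR _)]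
      refine sum_le_sum fun M hM => ?_
      rw [ENNReal.ofReal_mul (exp_pos _).le]
      exact mul_le_mul_left (ih M (by have := mem_range.1 hM; omega)) _
    have e2 : ∑ M ∈ range m, exp (-θ * M) * R (m - 1 - M) =
        exp (-θ * ((m + 1 : ℕ) : ℝ)) * ∑ i ∈ range m, R i * exp (θ * (i + 2)) := by
      rw [← sum_range_reflect (fun i => R i * exp (θ * (i + 2))), mul_sum]
      refine sum_congr rfl fun M hM => ?_
      have := mem_range.1 hM
      obtain ⟨k, rfl⟩ : ∃ k, m = M + 1 + k := ⟨m - 1 - M, by omega⟩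
      rw [show M + 1 + k - 1 - M = k by omega, mul_left_comm, ← exp_add, mul_comm]
      congr 2
      push_cast
      ring
    have e3 : exp (-θ * m) = exp (-θ * ((m + 1 : ℕ) : ℝ)) * exp θ := by
      rw [← exp_add]; congr 1; push_cast; ring
    have s0 : 0 ≤ ∑ i ∈ range m, R i * exp (θ * (i + 2)) :=
      sum_nonneg fun i _ => mul_nonneg (hR i) (exp_pos _).le
    refine (add_le_add (mul_le_mul_right (ih m m.lt_succ_self) _) (mul_le_mul_right e1 _)).trans ?_
    rw [← ENNReal.ofReal_mul hu, ← ENNReal.ofReal_mul hφ, e2, e3,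
      ← ENNReal.ofReal_add (by positivity) (by positivity)]
    refine ENNReal.ofReal_le_ofReal ?_
    have := mul_le_mul_of_nonneg_left (h m) (exp_pos (-θ * ((m + 1 : ℕ) : ℝ))).le
    linarith

theorem geo {μ : ℝ} (h0 : 0 < μ) (h1 : μ ≤ 1) (m : ℕ) :
    ∑ i ∈ range m, exp (-μ / 2) ^ i ≤ 4 / μ := by
  set z := exp (-μ / 2) with hz
  have z0 : 0 < z := exp_pos _
  have z2 : z ≤ 1 - μ / 4 := by
    have a1 := add_one_le_exp (μ / 2)
    have a2 : exp (μ / 2) * z = 1 := by rw [hz, ← exp_add]; simp [neg_div]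
    nlinarith
  have z1 : z < 1 := by linarith
  have a3 : ∑ i ∈ range m, z ^ i ≤ (1 - z)⁻¹ := by
    rw [← tsum_geometric_of_lt_one z0.le z1]
    exact (summable_geometric_of_lt_one z0.le z1).sum_le_tsum _ fun i _ => pow_nonneg z0.le i
  refine a3.trans ?_
  rw [inv_eq_one_div, div_le_div_iff₀ (by linarith) h0]
  linarith

theorem exp_le {x : ℝ} : exp x ≤ 1 + x * exp x := by
  have a1 := add_one_le_exp (-x)
  have a2 : exp (-x) * exp x = 1 := by rw [← exp_add]; simp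
  have a3 := mul_le_mul_of_nonneg_right a1 (exp_pos x).le
  linarith

theorem exp_half : exp (1 / 2 : ℝ) ≤ 2 := by
  have a1 := @exp_le (1 / 2)
  linarith

theorem term {A μ θ r : ℝ} {i : ℕ} (hA : 0 ≤ A) (h0 : 0 < μ) (h1 : μ ≤ 1) (t0 : 0 ≤ θ)
    (t1 : θ ≤ μ / 4) (r0 : 0 ≤ r) (h : r ≤ A * exp (-(μ * i))) :
    r * exp (θ * (i + 2)) ≤ r + 12 * θ * A / μ * exp (-μ / 2) ^ i := by
  have i0 : (0 : ℝ) ≤ i := i.cast_nonneg
  have a1 : exp (θ * (i + 2)) ≤ exp (μ * i / 4) * 2 := by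
    refine le_trans ?_ (mul_le_mul_of_nonneg_left exp_half (exp_pos _).le)
    rw [← exp_add]
    refine exp_le_exp.2 ?_
    have := mul_le_mul_of_nonneg_right t1 (show (0 : ℝ) ≤ i + 2 by linarith)
    linarith
  have a2 : ((i : ℝ) + 2) ≤ 6 / μ * exp (μ * i / 4) := by
    have b1 := add_one_le_exp (μ * i / 4)
    rw [div_mul_eq_mul_div, le_div_iff₀ h0]
    have b2 := mul_nonneg h0.le i0
    nlinarith
  have a3 : exp (-(μ * i)) * (exp (μ * i / 4) * exp (μ * i / 4)) = exp (-μ / 2) ^ i := by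
    rw [← exp_add, ← exp_add, ← exp_nat_mul]
    congr 1
    ring
  have a4 : ((i : ℝ) + 2) * exp (θ * (i + 2)) ≤
      6 / μ * exp (μ * i / 4) * (exp (μ * i / 4) * 2) :=
    mul_le_mul a2 a1 (exp_pos _).le (by positivity)
  have a5 : r * (((i : ℝ) + 2) * exp (θ * (i + 2))) ≤
      A * exp (-(μ * i)) * (6 / μ * exp (μ * i / 4) * (exp (μ * i / 4) * 2)) :=
    mul_le_mul h a4 (by positivity) (by positivity)
  have a6 := mul_le_mul_of_nonneg_left a5 t0
  have a7 := mul_le_mul_of_nonneg_left (@exp_le (θ * (i + 2))) r0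
  rw [← a3]
  have a8 : 12 * θ * A / μ * (exp (-(μ * i)) * (exp (μ * i / 4) * exp (μ * i / 4))) =
      θ * (A * exp (-(μ * i)) * (6 / μ * exp (μ * i / 4) * (exp (μ * i / 4) * 2))) := by ring
  rw [a8]
  nlinarith

theorem key {A μ q C φ : ℝ} {R : ℕ → ℝ} (hA : 1 ≤ A) (h0 : 0 < μ) (h1 : μ ≤ 1) (q0 : 0 < q)
    (q1 : q ≤ 1) (hC : 4 ≤ C) (hφ : 50 / C ≤ φ) (φ1 : φ ≤ 1) (R0 : ∀ i, 0 ≤ R i)
    (hR : ∀ i : ℕ, R i ≤ A * exp (-(μ * i))) (hs : ∀ m, ∑ i ∈ range m, R i ≤ 1 - q) (m : ℕ) :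
    (1 - φ) * exp (q * μ ^ 2 / (C * A)) +
      φ * ∑ i ∈ range m, R i * exp (q * μ ^ 2 / (C * A) * (i + 2)) ≤ 1 := by
  set θ := q * μ ^ 2 / (C * A) with hθ
  have C0 : 0 < C := by linarith
  have A0 : 0 < A := by linarith
  have t0 : 0 ≤ θ := by positivity
  have m2 : μ ^ 2 ≤ μ := by nlinarith
  have t2 : θ ≤ q / C := by
    rw [hθ, div_le_div_iff₀ (by positivity) C0]
    have : μ ^ 2 ≤ A := by linarith
    have := mul_le_mul_of_nonneg_left this (mul_pos q0 C0).le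
    linarith
  have t1 : θ ≤ μ / 4 := by
    rw [hθ, div_le_div_iff₀ (by positivity) (by norm_num)]
    have b1 : q * μ ^ 2 ≤ μ := by nlinarith [sq_nonneg μ]
    have b2 : 4 ≤ C * A := by nlinarith
    nlinarith
  have φ0 : 0 ≤ φ := le_trans (by positivity) hφ
  have e1 : ∑ i ∈ range m, R i * exp (θ * (i + 2)) ≤ 1 - q + 48 * (q / C) := by
    refine (sum_le_sum fun i _ => term A0.le h0 h1 t0 t1 (R0 i) (hR i)).trans ?_
    rw [sum_add_distrib, ← mul_sum]
    refine add_le_add (hs m) ((mul_le_mul_of_nonneg_left (geo h0 h1 m) (by positivity)).trans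
      (le_of_eq ?_))
    rw [hθ]
    field_simp
    ring
  have e2 : exp θ ≤ 1 + 2 * (q / C) := by
    have b1 := @exp_le θ
    have b2 : exp θ ≤ 2 := (exp_le_exp.2 (by linarith)).trans exp_half
    have b3 := mul_le_mul_of_nonneg_left b2 t0
    linarith
  have e3 := mul_le_mul_of_nonneg_left e1 φ0
  have e4 := mul_le_mul_of_nonneg_left e2 (show 0 ≤ 1 - φ by linarith)
  have e5 : 50 * (q / C) ≤ φ * q := by
    have := mul_le_mul_of_nonneg_right hφ q0.le
    calc 50 * (q / C) = 50 / C * q := by ring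
      _ ≤ _ := this
  have e6 : 0 ≤ q / C := by positivity
  have e7 := mul_le_mul_of_nonneg_right φ1 e6
  have e8 := mul_nonneg φ0 e6
  nlinarith

end HtS

open HtS

theorem htS (hP : PHIStmt) (hR : RECStmt) : HTStmt := by
  intro D hD
  have D0 : (0 : ℝ) ≤ D := D.cast_nonneg
  refine ⟨200 * (D + 1), by linarith, ?_⟩
  intro p lam A q μ p5 p2 l1 _ hA q0 q1 m0 m1 b1 b3 m
  obtain ⟨f1, -⟩ := hP D hD p lam (by linarith) p2 l1
  obtain ⟨r1, r2, -⟩ := hR D p lam (by linarith) p2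
  have w1 := wb_le_one true (by linarith : 0 ≤ p) p2 lam [fwd D]
  have w2 : wb true p lam [fwd D] ≠ ∞ := ne_top_of_le_ne_top ENNReal.one_ne_top w1
  have b2 : ∀ i, Ret D p lam i ≠ ∞ := fun i => ne_top_of_le_ne_top ENNReal.ofReal_ne_top (b1 i)
  set φ := (wb true p lam [fwd D]).toReal with hφ
  have φ0 : 0 ≤ φ := ENNReal.toReal_nonneg
  have φ1 : φ ≤ 1 := by simpa using ENNReal.toReal_mono ENNReal.one_ne_top w1
  have R0 : ∀ i, 0 ≤ (Ret D p lam i).toReal := fun _ => ENNReal.toReal_nonneg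
  have R1 : ∀ i : ℕ, (Ret D p lam i).toReal ≤ A * exp (-(μ * i)) := fun i =>
    ENNReal.toReal_le_of_le_ofReal (by positivity) (b1 i)
  have x1 : exp (-lam) ≤ 1 := exp_le_one_iff.2 (by linarith)
  have x2 : 1 ≤ exp lam := one_le_exp l1
  rw [← neg_mul]
  refine rec_bound (u := 1 - φ) (φ := φ) (R := fun i => (Ret D p lam i).toReal) (by linarith) φ0 R0
    (fun k => ?_) r1 (fun k => ?_) m
  · refine key hA m0 m1 q0 q1 (by linarith) ?_ φ1 R0 R1 (fun n => ?_) k
    · have Z0 : 0 < Zf D lam := by rw [Zf]; positivity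
      have y1 : p * exp lam / Zf D lam ≤ φ := (ENNReal.ofReal_le_iff_le_toReal w2).1 f1
      have y2 : 1 / (4 * D + 4) ≤ p * exp lam / Zf D lam := by
        rw [div_le_div_iff₀ (by positivity) Z0, Zf]
        nlinarith [mul_le_mul_of_nonneg_left x2 D0, mul_le_mul_of_nonneg_left p5
          (show 0 ≤ exp lam * (4 * D + 4) by positivity)]
      refine le_trans (le_of_eq ?_) (y2.trans y1)
      field_simp
      ring
    · rw [← ENNReal.toReal_sum fun i _ => b2 i]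
      exact ENNReal.toReal_le_of_le_ofReal (by linarith) ((ENNReal.sum_le_tsum _).trans b3)
  · simp only [ENNReal.ofReal_toReal (b2 _)]
    rw [ENNReal.ofReal_sub _ φ0, hφ, ENNReal.ofReal_toReal w2, ENNReal.ofReal_one]
    exact r2 k

end Pool.Agent.MP_8c549f_pr.L2

end
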