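import Pool.Agent.MP_8c549f_pr.L2.SpecB

/-! PROJECT L2, row Hyp1: the quenched estimates give the hypotheses of the mixing lemma. -/

noncomputable section

namespace Pool.Agent.MP_8c549f_pr.L2

open MeasureTheory Finset Real Classical S3

namespace Hyp1

theorem agr_symm {D k : ℕ} {ω ω' : Cfg D} (h : Agr k ω ω') : Agr k ω' ω :=
  fun e he => (h e he).symm

theorem bt_nonneg {D : ℕ} (lam : ℝ) (L N k : ℕ) (ω : Cfg D) : 0 ≤ bt lam L N k ω :=
  sum_nonneg fun l _ => wr_nonneg l _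

/-- the square root of the product of the second moment and the backtracking weight -/
theorem sq_le {t b C x : ℝ} {j : ℕ} (hC : 1 ≤ C) (hb0 : 0 ≤ b) (ht : t ≤ C * x ^ 4)
    (hb : b ≤ 1 / 16 ^ j) : √(t * b) ≤ C * x ^ 2 / 4 ^ j := by
  have h0 : 0 ≤ C * x ^ 4 := by positivity
  have h4 : (0 : ℝ) < 4 ^ j := by positivity
  refine sqrt_le_iff.2 ⟨by positivity, (mul_le_mul ht hb hb0 h0).trans ?_⟩
  have e : (16 : ℝ) ^ j = (4 ^ j) ^ 2 := by
    rw [← pow_mul, mul_comm, pow_mul]; norm_num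
  rw [e, div_pow, mul_one_div]
  refine div_le_div_of_nonneg_right ?_ (by positivity)
  have : 0 ≤ x ^ 4 := by positivity
  nlinarith [mul_nonneg (mul_nonneg (by linarith : 0 ≤ C) (by linarith : 0 ≤ C - 1)) this]

/-- geometric mean of two bounds -/
theorem mean {d ε C x : ℝ} {j : ℕ} (hε : 0 ≤ ε) (hC : 0 ≤ C) (h1 : |d| ≤ 2 * ε * x ^ 2)
    (h2 : |d| ≤ C * x ^ 2 / 4 ^ j) : |d| ≤ √(2 * ε * C) * x ^ 2 / 2 ^ j := by
  have h0 : 0 ≤ 2 * ε * C := by positivity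
  refine abs_le_of_sq_le_sq' ?_ (by positivity) |>.2
  have e : (4 : ℝ) ^ j = (2 ^ j) ^ 2 := by
    rw [← pow_mul, mul_comm, pow_mul]; norm_num
  have h3 : |d| * |d| ≤ 2 * ε * x ^ 2 * (C * x ^ 2 / 4 ^ j) :=
    mul_le_mul h1 h2 (abs_nonneg _) (by positivity)
  rw [div_pow, mul_pow, sq_sqrt h0, ← e, sq]
  refine h3.trans (le_of_eq ?_)
  ring

theorem pow16 {j : ℕ} (hj : 1 ≤ j) : (1 : ℝ) / 16 ^ j ≤ 1 / (8 * 2 ^ j) := by
  refine one_div_le_one_div_of_le (by positivity) ?_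
  have e : (16 : ℝ) ^ j = 8 ^ j * 2 ^ j := by rw [← mul_pow]; norm_num
  rw [e]
  exact mul_le_mul_of_nonneg_right (le_self_pow₀ (by norm_num) (by omega)) (by positivity)

end Hyp1

open Hyp1 in
theorem hyp1 (hB : BTStmt) (hG : GOODStmt) : HYP1Stmt := by
  intro D A Λ K l δ C c ε lam hC hc0 hc1 hε hε1 Q h1 h2
  obtain ⟨g1, g2, -, -⟩ := hG D A (mm l) (hA A l) (l ^ 4) δ
  refine ⟨⟨g1, fun n ω => g2 lam (Λ * l) n ω, fun n ω hω => (Q.leg lam (n + 1) ω h1 h2 hω).1,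
    by positivity⟩, hc0, hc1, by positivity, ?_,
    fun n ω ω' hω hω' ha => Q.ovl lam (n + 1) ω ω' h1 h2 hω hω' ha, ?_⟩
  · intro n j ω ω' hω hω' ha
    obtain ⟨-, a2, a3, a4⟩ := Q.leg lam (n + 1) ω h1 h2 hω
    obtain ⟨-, b2, b3, b4⟩ := Q.leg lam (n + 1) ω' h1 h2 hω'
    have hx : (0 : ℝ) ≤ (l : ℝ) ^ 2 := by positivity
    have d1 : |tt lam (Λ * l) (l ^ 4) ω - tt lam (Λ * l) (l ^ 4) ω'| ≤ 2 * ε * (l : ℝ) ^ 2 := by
      rw [abs_le] at a4 b4 ⊢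
      constructor <;> linarith [a4.1, a4.2, b4.1, b4.2]
    refine mean hε.le (by linarith) d1 ?_
    rcases Nat.eq_zero_or_pos j with rfl | hj
    · refine d1.trans ?_
      rw [pow_zero, div_one]
      exact mul_le_mul_of_nonneg_right (by linarith) hx
    · have u1 := ((hB D lam (Λ * l) (l ^ 4) (j * (Λ * l)) ω ω' ha).2.1).trans
        (sq_le hC (bt_nonneg _ _ _ _ _) a2 (a3 j hj))
      have u2 := ((hB D lam (Λ * l) (l ^ 4) (j * (Λ * l)) ω' ω (agr_symm ha)).2.1).trans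
        (sq_le hC (bt_nonneg _ _ _ _ _) b2 (b3 j hj))
      rw [abs_le]
      constructor <;> linarith
  · intro n j ω ω' hj hω _ ha
    obtain ⟨a1, -, a3, -⟩ := Q.leg lam (n + 1) ω h1 h2 hω
    have u := (hB D lam (Λ * l) (l ^ 4) (j * (Λ * l)) ω ω' ha).1
    linarith [a3 j hj, pow16 hj]

end Pool.Agent.MP_8c549f_pr.L2

end
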