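import Pool.Agent.MP_8c549f_pr.L2.SpecB

/-! PROJECT L2, row Hyp2: the duration of a leg decreases with the bias. -/

noncomputable section

namespace Pool.Agent.MP_8c549f_pr.L2

open MeasureTheory Finset Real Classical S3

namespace Hyp2

theorem inv_gap {d d' l g : ℝ} (hl : 0 < l) (hd : 0 < d) (hg : 0 ≤ g) (h1 : g ≤ d' - d)
    (h2 : d ≤ 4 / l) (h3 : d' ≤ 4 / l) : 1 / d' - 1 / d ≤ -(g * l ^ 2 / 16) := by
  have hd' : 0 < d' := by linarith
  have e1 : d * l ≤ 4 := (le_div_iff₀ hl).1 h2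
  have e2 : d' * l ≤ 4 := (le_div_iff₀ hl).1 h3
  have e3 : (d * l) * (d' * l) ≤ 4 * 4 :=
    mul_le_mul e1 e2 (by positivity) (by norm_num)
  have e4 : 1 / d' - 1 / d = -((d' - d) / (d * d')) := by
    field_simp
    ring
  rw [e4, neg_le_neg_iff, le_div_iff₀ (by positivity)]
  have e5 : g * l ^ 2 / 16 * (d * d') = g * ((d * l) * (d' * l)) / 16 := by ring
  rw [e5]
  have e6 := mul_le_mul_of_nonneg_left e3 hg
  linarith

end Hyp2

theorem hyp2 (hC : CALStmt) (hB : BTStmt) (h0 : D0Stmt) : HYP2Stmt := by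
  intro D A Λ K l δ C c ε κ x z hΛ hC1 hl hκ hκ1 hκC hε hQ hx hxz hz hzx n ω hG
  have hl4 : (4 : ℝ) ≤ l := by exact_mod_cast hl
  have hl0 : (0 : ℝ) < l := by linarith
  obtain ⟨cg, hcg⟩ : ∃ cg : ℝ, cg = Λ / (512 * (D + 1)) := ⟨_, rfl⟩
  rw [← hcg] at hκC hε ⊢
  have hD : (0 : ℝ) < D + 1 := by positivity
  have hi0 : 0 < 1 / (l : ℝ) := by positivity
  have hi1 : 4 / (l : ℝ) ≤ 1 := (div_le_one hl0).2 hl4
  have h43 : 4 / (l : ℝ) = 3 / l + 1 / l := by ring
  have h41 : 4 / (l : ℝ) = 4 * (1 / l) := by ring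
  have hs0 : 0 < κ / l := by positivity
  have hs1 : κ / l ≤ 1 / l := div_le_div_of_nonneg_right hκ1 hl0.le
  have hz0 : 0 < z := by linarith
  have hz4 : z ≤ 4 / l := by linarith
  have hz' : z + κ / l ≤ 4 / l := by linarith
  obtain ⟨m1, t1, -, q1⟩ := hQ.leg z n ω (by linarith) hz4 hG
  obtain ⟨-, -, -, q2⟩ := hQ.leg (z + κ / l) n ω (by linarith) hz' hG
  obtain ⟨c1, c2⟩ := hC D (Λ * l) (l ^ 4) ω x z (z + κ / l) (1 / l) hxz (by linarith)
    (by linarith) (by linarith) hi0 (by linarith)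
  obtain ⟨d1, d2, d3⟩ := h0 D
  have hs : 0 ≤ z - x := by linarith
  have hdz : 0 < d0 D z := by
    have h := d3 0 z le_rfl hz0.le (by linarith)
    rw [d1] at h
    have : 0 < (z - 0) / (8 * ((D : ℝ) + 1)) := div_pos (by linarith) (by positivity)
    linarith
  have hgap := Hyp2.inv_gap (g := κ / l / (8 * (D + 1))) hl0 hdz (by positivity)
    (by have := d3 z (z + κ / l) hz0.le (by linarith) (by linarith)
        rwa [add_sub_cancel_left] at this)
    ((d2 z hz0.le).2.trans hz4) ((d2 (z + κ / l) (by linarith)).2.trans hz')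
  have htt : tt z (Λ * l) (l ^ 4) ω ≤ C * (l : ℝ) ^ 2 := by
    have h := (hB D z (Λ * l) (l ^ 4) 0 ω ω fun _ _ => rfl).2.2
    refine abs_le_of_sq_le_sq' ?_ (by positivity) |>.2
    have h4 : (0 : ℝ) ≤ (l : ℝ) ^ 4 := by positivity
    have h5 : C * (l : ℝ) ^ 4 ≤ C * C * (l : ℝ) ^ 4 :=
      mul_le_mul_of_nonneg_right (le_mul_of_one_le_left (by linarith) hC1) h4
    linarith
  constructor
  · rw [add_sub_cancel_left] at c1
    have a1 : (Λ : ℝ) * l / d0 D (z + κ / l) - Λ * l / d0 D z ≤ -(4 * cg * κ * (l : ℝ) ^ 2) := by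
      have hΛ0 : (0 : ℝ) ≤ (Λ : ℝ) * l := by positivity
      have h := mul_le_mul_of_nonneg_left hgap hΛ0
      have e1 : (Λ : ℝ) * l / d0 D (z + κ / l) - Λ * l / d0 D z =
          Λ * l * (1 / d0 D (z + κ / l) - 1 / d0 D z) := by ring
      have e2 : (Λ : ℝ) * l * -(κ / l / (8 * (D + 1)) * (l : ℝ) ^ 2 / 16) =
          -(4 * cg * κ * (l : ℝ) ^ 2) := by
        rw [hcg]
        field_simp
        ring
      rw [e1, ← e2]
      exact h
    have hl2 : (0 : ℝ) ≤ (l : ℝ) ^ 2 := by positivity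
    have a2 : tt (z + κ / l) (Λ * l) (l ^ 4) ω - tt z (Λ * l) (l ^ 4) ω ≤
        -(3 * cg * (l : ℝ) ^ 3) * (κ / l) := by
      have e1 : -(3 * cg * (l : ℝ) ^ 3) * (κ / l) = -(3 * cg * κ * (l : ℝ) ^ 2) := by
        field_simp
      have b1 := (abs_le.1 q1).1
      have b2 := (abs_le.1 q2).2
      have b3 := mul_le_mul_of_nonneg_right hε hl2
      rw [e1]
      linarith
    have a3 := (div_le_iff₀ hs0).2 a2
    have a4 : (z - x + κ / l) * t2 z (Λ * l) (l ^ 4) ω ≤ cg * (l : ℝ) ^ 3 := by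
      have b1 : (z - x + κ / l) * t2 z (Λ * l) (l ^ 4) ω ≤ (z - x + κ / l) * (C * (l : ℝ) ^ 4) :=
        mul_le_mul_of_nonneg_left t1 (by linarith)
      have b2 : (z - x + κ / l) * (C * (l : ℝ) ^ 4) ≤ (2 * (κ / l)) * (C * (l : ℝ) ^ 4) :=
        mul_le_mul_of_nonneg_right (by linarith) (by positivity)
      have b3 : (2 * (κ / l)) * (C * (l : ℝ) ^ 4) = 2 * κ * C * (l : ℝ) ^ 3 := by
        field_simp
      have b4 : 2 * κ * C * (l : ℝ) ^ 3 ≤ cg * (l : ℝ) ^ 3 :=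
        mul_le_mul_of_nonneg_right hκC (by positivity)
      linarith
    have a5 := mul_le_mul_of_nonneg_left (add_le_add a3 a4) hs
    refine c1.trans (a5.trans (le_of_eq ?_))
    ring
  · have a1 : 1 / (l : ℝ) * tt z (Λ * l) (l ^ 4) ω + 2 / (1 / (l : ℝ)) ≤ (C + 2) * l := by
      have b1 := mul_le_mul_of_nonneg_left htt hi0.le
      have b2 : 1 / (l : ℝ) * (C * (l : ℝ) ^ 2) = C * l := by field_simp
      have b3 : 2 / (1 / (l : ℝ)) = 2 * l := by field_simp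
      rw [b3]
      linarith
    have a2 := mul_le_mul_of_nonneg_left a1 (by linarith : 0 ≤ 2 * (z - x))
    have a3 : 2 * (z - x) ^ 2 * tt z (Λ * l) (l ^ 4) ω ≤ 2 * (z - x) * (C * l) := by
      have b1 : 2 * (z - x) ^ 2 * tt z (Λ * l) (l ^ 4) ω ≤
          2 * (z - x) ^ 2 * (C * (l : ℝ) ^ 2) :=
        mul_le_mul_of_nonneg_left htt (by positivity)
      have b2 : (z - x) * l ≤ 1 := (le_div_iff₀ hl0).1 (by linarith)
      have b3 : 0 ≤ 2 * (z - x) * (C * l) := by positivity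
      have b4 := mul_le_mul_of_nonneg_left b2 b3
      linarith
    linarith

end Pool.Agent.MP_8c549f_pr.L2

end
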