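import Pool.Agent.MP_8c549f_pr.L2.Basic

/-! Row Id: summation by parts, self-adjointness, stability of the energy. -/

noncomputable section

namespace Pool.Agent.MP_8c549f_pr.L2

open MeasureTheory Finset Real Classical S3

namespace Id

variable {D : ℕ} {lam : ℝ} {ω : Cfg D}

theorem back (x : V D) (s : Step D) : x + vec s + vec (rev s) = x := by simp

theorem cnd_rev (x : V D) (s : Step D) : cnd lam ω (x + vec s) (rev s) = cnd lam ω x s := by
  simp only [cnd, edge_rev, expo_rev]

theorem cut (Q : Finset (V D)) (G : V D → Step D → ℝ) (h : ∀ x s, G x s ≠ 0 → x + vec s ∈ Q) :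
    ∑ x ∈ Q, ∑ s, G x s =
      ∑ p ∈ (Q ×ˢ (univ : Finset (Step D))).filter (fun p => p.1 + vec p.2 ∈ Q), G p.1 p.2 := by
  rw [sum_filter_of_ne (f := fun p : V D × Step D => G p.1 p.2) fun p _ hp => h _ _ hp, sum_product]

theorem flip (Q : Finset (V D)) (F : V D → V D → ℝ)
    (h : ∀ x s, F x (x + vec s) ≠ 0 → x ∈ Q ∧ x + vec s ∈ Q) :
    ∑ x ∈ Q, ∑ s, cnd lam ω x s * F x (x + vec s) =
      ∑ x ∈ Q, ∑ s, cnd lam ω x s * F (x + vec s) x := by
  rw [cut Q _ fun x s hx => (h x s (right_ne_zero_of_mul hx)).2,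
    cut Q _ fun x s hx => (h (x + vec s) (rev s) (by rw [back]; exact right_ne_zero_of_mul hx)).1]
  refine sum_nbij' (fun p => (p.1 + vec p.2, rev p.2)) (fun p => (p.1 + vec p.2, rev p.2))
    ?_ ?_ ?_ ?_ ?_
  · intro p hp
    simp only [mem_filter, mem_product, mem_univ, and_true, back] at hp ⊢
    exact hp.symm
  · intro p hp
    simp only [mem_filter, mem_product, mem_univ, and_true, back] at hp ⊢
    exact hp.symm
  · intro p _
    simp only [back, rev_rev]
  · intro p _
    simp only [back, rev_rev]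
  · intro p _
    simp only [back, cnd_rev]

end Id

theorem idS : IDStmt := by
  intro D lam ω Q
  refine ⟨fun φ u hφ => ?_, fun φ u hφ => ?_, fun g hg Q' => ?_, Id.flip Q⟩
  · have h := Id.flip (lam := lam) (ω := ω) Q (fun x y => φ x * (u x - u y)) fun x s hx =>
      ⟨(hφ x (left_ne_zero_of_mul hx)).1, (hφ x (left_ne_zero_of_mul hx)).2 s⟩
    have e : ∑ x ∈ Q, pim lam ω x * φ x * (u x - Pf lam ω u x) =
        ∑ x ∈ Q, ∑ s, cnd lam ω x s * (φ x * (u x - u (x + vec s))) := by
      refine sum_congr rfl fun x _ => ?_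
      have a : pim lam ω x * φ x * (u x - Pf lam ω u x) =
          pim lam ω x * (φ x * u x) - φ x * (pim lam ω x * Pf lam ω u x) := by ring
      rw [a, pim_Pf, ← sum_cnd, sum_mul, mul_sum, ← sum_sub_distrib]
      exact sum_congr rfl fun s _ => by ring
    rw [e, two_mul]
    nth_rewrite 2 [h]
    rw [← sum_add_distrib]
    refine sum_congr rfl fun x _ => ?_
    rw [← sum_add_distrib]
    exact sum_congr rfl fun s _ => by ring
  · have h := Id.flip (lam := lam) (ω := ω) Q (fun x y => φ x * u y) fun x s hx =>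
      ⟨(hφ x (left_ne_zero_of_mul hx)).1, (hφ x (left_ne_zero_of_mul hx)).2 s⟩
    have e : ∀ a b : V D → ℝ, ∑ x ∈ Q, pim lam ω x * a x * Pf lam ω b x =
        ∑ x ∈ Q, ∑ s, cnd lam ω x s * (a x * b (x + vec s)) := fun a b => by
      refine sum_congr rfl fun x _ => ?_
      rw [mul_right_comm, pim_Pf, sum_mul]
      exact sum_congr rfl fun s _ => by ring
    rw [e, e, h]
    exact sum_congr rfl fun x _ => sum_congr rfl fun s _ => by ring
  · rw [En_eq, En_eq]
    refine (sum_le_sum_of_subset_of_nonneg (subset_union_left (s₂ := Q)) fun x _ _ =>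
      sum_nonneg fun s _ => mul_nonneg (cnd_nonneg x s) (sq_nonneg _)).trans (le_of_eq ?_)
    refine (sum_subset subset_union_right fun x _ hx => sum_eq_zero fun s _ => ?_).symm
    have a : g x = 0 := by
      by_contra c
      exact hx (hg x c).1
    have b : g (x + vec s) = 0 := by
      by_contra c
      exact hx (Id.back x s ▸ (hg _ c).2 (rev s))
    simp [a, b]

end Pool.Agent.MP_8c549f_pr.L2

end
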