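import Pool.Agent.MP_8c549f_pr.L2.SpecB

/-! Row Kap: comparison of `n` legs with the time per level. -/

noncomputable section

namespace Pool.Agent.MP_8c549f_pr.L2

open MeasureTheory Finset Real Classical S3

namespace Kap

lemma fin {q q' c κ X Q nL h₀ a b e K R : ℝ} (h1 : q ≤ q') (h2 : q' ≤ 1) (hq : 0 < q)
    (h3 : 0 ≤ κ) (h4 : κ ≤ K) (h5 : |X - κ * q' * (h₀ + nL)| ≤ b) (h6 : |Q - q'| ≤ e)
    (h7 : |X - Q * c| ≤ a) (h8 : 0 ≤ c) (h9 : c ≤ R) (h0 : 0 ≤ h₀) :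
    q * |c - κ * nL| ≤ a + b + K * h₀ + R * e := by
  have e0 : 0 ≤ e := (abs_nonneg _).trans h6
  have e1 : q * |c - κ * nL| ≤ |q' * (c - κ * nL)| := by
    rw [abs_mul, abs_of_nonneg (hq.le.trans h1)]
    exact mul_le_mul_of_nonneg_right h1 (abs_nonneg _)
  have e2 : |(Q - q') * c| ≤ R * e := by
    rw [abs_mul, abs_of_nonneg h8, mul_comm]
    exact mul_le_mul h9 h6 (abs_nonneg _) (h8.trans h9)
  have e3 : 0 ≤ κ * q' * h₀ := mul_nonneg (mul_nonneg h3 (hq.le.trans h1)) h0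
  have e4 : κ * q' * h₀ ≤ K * h₀ :=
    mul_le_mul_of_nonneg_right ((mul_le_of_le_one_right h3 h2).trans h4) h0
  refine e1.trans (abs_le.2 ⟨?_, ?_⟩)
  · nlinarith [(abs_le.1 e2).2, (abs_le.1 h5).1, (abs_le.1 h7).2]
  · nlinarith [(abs_le.1 e2).1, (abs_le.1 h5).2, (abs_le.1 h7).1]

end Kap

theorem kapS (hV : VBStmt) (hM : MIXStmt) (hL : LINKStmt) (hQ : QFStmt) (hO : MOMStmt)
    (hR : RENStmt) : KAPStmt := by
  obtain ⟨C, hC, hR⟩ := hR
  obtain ⟨C', -, hO⟩ := hO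
  refine ⟨C, hC, ?_⟩
  intro D p lam L N n₀ n h₀ N₁ M G G₀ τ c y q μ mix reg hb hm hG0 hin hN h1 h2 h3 h4
  have p0 : 0 ≤ p := le_trans (by norm_num) reg.p0
  have hY : 0 ≤ 4 * y / c := div_nonneg (mul_nonneg (by norm_num) mix.y0) mix.c0.le
  have hE : (0 : ℝ) ≤ n * (n * N + 4 * y / c) := by positivity
  obtain ⟨q', r1, r2, r3, r4, r5⟩ := hR D p lam n₀ q μ reg
  have hc := (((hV D p p0 reg.p1).2.2.2.2 lam L N).2.2.2 n).2 (allOpen D)
  have link := hL D p lam L N h₀ N₁ n M G G₀ τ (4 * y / c) (n * (n * N + 4 * y / c))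
    (Fr p (Vn lam L N n) (allOpen D)) (1 / (N₁ : ℝ) ^ 8) (4 / (M : ℝ) ^ 5) p0 reg.p1 hN mix.toInh
    hm hG0 hin hY hE hc.2.1 hc.2.2 (by positivity) (by positivity) (fun η => ?_)
    (((hQ D p lam p0 reg.p1 h₀).2.2.2 N₁).trans (reg.slab h₀ N₁ h1 h2))
    ((hO D p lam n₀ q μ reg).2 _ M h3 h4)
  · have k5 := (r5 (h₀ + n * L)).1
    push_cast at k5
    refine (Kap.fin r1 r2 reg.q0 r3 r4 k5 (r5 h₀).2 link hc.2.1 hc.2.2 (Nat.cast_nonneg _)).trans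
      (le_of_eq ?_)
    unfold errK
    ring
  · have k := hM D p lam L N G τ c y p0 reg.p1 mix n 0 η (allOpen D) fun e a b => by
      simp only [zero_mul, Nat.cast_zero, neg_zero] at a
      omega
    rw [pow_zero, div_one] at k
    exact k.trans (add_le_add le_rfl (mul_le_mul_of_nonneg_left (by linarith) hE))

end Pool.Agent.MP_8c549f_pr.L2

end
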