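import Pool.Agent.MP_8c549f_pr.L2.SpecB

/-! PROJECT L2: decomposition at the last entrance above the starting level. -/

noncomputable section

namespace Pool.Agent.MP_8c549f_pr.L2

open MeasureTheory Finset Real Classical S3
open scoped ENNReal

namespace Last

variable {D : ℕ}

/-- cut a record path at the last visit of the levels at most zero -/
theorem split {u : List (Step D)} {k : ℕ} (hr : Rec u) (hl : lev u = (k + 1 : ℕ)) :
    ∃ a t : List (Step D), u = a ++ fwd D :: t ∧ t ∈ FPS D k := by
  set j := Nat.findGreatest (fun i => H u i ≤ 0) u.length with hj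
  have h0 : H u j ≤ 0 :=
    Nat.findGreatest_spec (P := fun i => H u i ≤ 0) (Nat.zero_le u.length) (by simp)
  have hle : j ≤ u.length := Nat.findGreatest_le _
  have hgt : ∀ i, j < i → i ≤ u.length → 1 ≤ H u i := fun i h1 h2 => by
    have := Nat.findGreatest_is_greatest (P := fun i => H u i ≤ 0) h1 h2
    simp only [not_le] at this
    omega
  have hlt : j < u.length := by
    refine lt_of_le_of_ne hle fun h => ?_
    rw [h, H_length, hl] at h0
    omega
  have h1 : 1 ≤ H u (j + 1) := hgt _ (Nat.lt_succ_self _) hlt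
  have h2 := (H_step u j).2
  have h3 : H u (j + 1) = 1 := by omega
  have h4 : u[j] = fwd D := by
    rw [← vec_zero_eq_one]
    have := H_succ hlt
    omega
  have hH : ∀ i, H (u.drop (j + 1)) i = H u (j + 1 + i) - 1 := fun i => by
    rw [H_drop, h3]; ring
  have hlen : (u.drop (j + 1)).length = u.length - (j + 1) := List.length_drop
  have hlev : lev (u.drop (j + 1)) = k := by
    rw [← H_length, hH, hlen, Nat.add_sub_cancel' hlt, H_length, hl]
    push_cast; ring
  refine ⟨u.take j, u.drop (j + 1), ?_, ?_, ?_, hlev⟩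
  · rw [← h4, ← List.drop_eq_getElem_cons hlt, List.take_append_drop]
  · intro i hi
    have := hgt (j + 1 + i) (by omega) (by omega)
    rw [hH]; omega
  · intro i hi
    have := hr (j + 1 + i) (by omega)
    rw [hH, hlev]
    rw [hl] at this
    push_cast at this
    omega

/-- the weight of the continuations after a forward step -/
theorem cont (lam : ℝ) (ω : Cfg D) (A : Set (List (Step D))) (a : List (Step D)) :
    SS A (fun t => W lam ω 0 (a ++ fwd D :: t)) ≤
      W lam ω 0 a * SS A (W lam (plus (shift (pos a + vec (fwd D)) ω)) 0) := by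
  rw [← SS_mul_left]
  refine SS_mono subset_rfl fun t _ => ?_
  rw [W_append, W_cons, zero_add]
  refine mul_le_mul_right ?_ _
  by_cases ho : ω (edge (pos a) (fwd D)) = true
  · have hp : plus (shift (pos a + vec (fwd D)) ω) = shift (pos a + vec (fwd D)) ω := by
      refine Function.update_eq_self_iff.2 ?_
      rw [shift_edge, zero_add]
      have := edge_rev (pos a) (fwd D)
      rw [show rev (fwd D) = bck D from rfl] at this
      rw [this, ho]
    rw [hp, W_shift, zero_add]
    exact mul_le_of_le_one_left' (ENNReal.ofReal_le_one.2 (pr_le_one _ _ _ _))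
  · rw [pr_of_closed lam (by simpa using ho)]; simp

theorem short (lam : ℝ) (ω : Cfg D) (n : ℕ) :
    SS {a : List (Step D) | a.length < n} (W lam ω 0) ≤ n := by
  calc SS {a : List (Step D) | a.length < n} (W lam ω 0)
      ≤ SS (⋃ j : Fin n, {a : List (Step D) | a.length = j}) (W lam ω 0) :=
        SS_mono (fun a ha => Set.mem_iUnion.2 ⟨⟨a.length, ha⟩, rfl⟩) fun _ _ => le_rfl
    _ ≤ ∑' j : Fin n, SS {a : List (Step D) | a.length = j} (W lam ω 0) := SS_iUnion_le _ _
    _ ≤ ∑' _j : Fin n, (1 : ℝ≥0∞) :=
        ENNReal.tsum_le_tsum fun j => kraft lam ω (antich_length j) 0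
    _ = n := by simp

theorem quenched (lam : ℝ) (ω : Cfg D) (k n : ℕ) :
    SS {u : List (Step D) | u.length ≤ n ∧ Rec u ∧ lev u = (k + 1 : ℕ)} (W lam ω 0) ≤
      n * ∑ y ∈ ball (0 : V D) n, SS (FPS D k) (W lam (plus (shift y ω)) 0) := by
  set G := ∑ y ∈ ball (0 : V D) n, SS (FPS D k) (W lam (plus (shift y ω)) 0) with hG
  set P : Set (List (Step D)) := {a | a.length < n} with hP
  calc SS {u : List (Step D) | u.length ≤ n ∧ Rec u ∧ lev u = (k + 1 : ℕ)} (W lam ω 0)
      ≤ SS (⋃ a : P, (fun t => a.1 ++ fwd D :: t) '' FPS D k) (W lam ω 0) := by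
        refine SS_mono (fun u hu => ?_) fun _ _ => le_rfl
        obtain ⟨a, t, rfl, ht⟩ := split hu.2.1 hu.2.2
        have hn := hu.1
        simp only [List.length_append, List.length_cons] at hn
        exact Set.mem_iUnion.2 ⟨⟨a, show a.length < n by omega⟩, t, ht, rfl⟩
    _ ≤ ∑' a : P, SS ((fun t => a.1 ++ fwd D :: t) '' FPS D k) (W lam ω 0) := SS_iUnion_le _ _
    _ ≤ ∑' a : P, G * W lam ω 0 a.1 := by
        refine ENNReal.tsum_le_tsum fun a => ?_
        rw [SS_image fun t t' h => by simpa using h, mul_comm]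
        refine (cont lam ω _ a.1).trans (mul_le_mul_right ?_ _)
        refine single_le_sum (f := fun y => SS (FPS D k) (W lam (plus (shift y ω)) 0))
          (fun _ _ => zero_le) (mem_ball.2 ?_)
        have h1 := nrm_pos_le (a.1 ++ [fwd D])
        have h2 : a.1.length < n := a.2
        simp only [pos_append, pos_cons, pos_nil, add_zero, List.length_append,
          List.length_cons, List.length_nil] at h1
        rw [sub_zero]; omega
    _ = G * SS P (W lam ω 0) := by rw [ENNReal.tsum_mul_left, SS_eq_tsum_subtype]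
    _ ≤ n * G := by rw [mul_comm]; exact mul_le_mul_left (short lam ω n) _

end Last

theorem last : LASTStmt := by
  intro D p lam k n h0 h1
  have hm : Measurable fun ω : Cfg D => SS (FPS D k) (W lam (plus ω) 0) :=
    measurable_SS fun l => measurable_W_cfg true lam l
  refine (lintegral_mono fun ω => Last.quenched lam ω k n).trans (le_of_eq ?_)
  rw [lintegral_const_mul' _ _ (ENNReal.natCast_ne_top n),
    lintegral_finsetSum (f := fun y ω => SS (FPS D k) (W lam (plus (shift y ω)) 0)) _
      fun y _ => hm.comp (measurable_shift y)]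
  have h : ∀ y ∈ ball (0 : V D) n,
      ∫⁻ ω, SS (FPS D k) (W lam (plus (shift y ω)) 0) ∂perc D p = QQ D p lam k := fun y _ => by
    rw [shft D p h0 h1 (fun ω => SS (FPS D k) (W lam (plus ω) 0)) y hm, QQ, SS_wb]
    rfl
  rw [sum_congr rfl h, sum_const, card_ball, nsmul_eq_mul, Nat.cast_mul, mul_assoc]

end Pool.Agent.MP_8c549f_pr.L2
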