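import Pool.Agent.MP_8c549f_pr.L2.Basic

/-! PROJECT L2, row Lc: logarithmic Caccioppoli inequality for positive supersolutions. -/

noncomputable section

namespace Pool.Agent.MP_8c549f_pr.L2

open MeasureTheory Finset Real Classical S3

namespace Lc

theorem sq_le_sinh (u : ℝ) : u ^ 2 ≤ sinh u ^ 2 := by
  rcases le_total 0 u with h | h
  · exact pow_le_pow_left₀ h (Real.self_le_sinh_iff.2 h) 2
  · have h1 : sinh u ≤ u := Real.sinh_le_self_iff.2 h
    nlinarith

theorem log_sq_le {a b : ℝ} (ha : 0 < a) (hb : 0 < b) :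
    (log b - log a) ^ 2 ≤ (a - b) ^ 2 / (a * b) := by
  set u := (log b - log a) / 2 with hu
  have h1 := sq_le_sinh u
  have h2 : exp u * exp u = b / a := by
    rw [← exp_add, show u + u = log b - log a by rw [hu]; ring, exp_sub, exp_log hb, exp_log ha]
  have h3 : exp (-u) * exp (-u) = a / b := by
    rw [← exp_add, show -u + -u = log a - log b by rw [hu]; ring, exp_sub, exp_log hb, exp_log ha]
  have h4 : exp u * exp (-u) = 1 := by rw [← exp_add]; simp
  have h5 : 4 * sinh u ^ 2 = b / a + a / b - 2 := by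
    rw [sinh_eq, ← h2, ← h3]; nlinarith
  have h6 : (a - b) ^ 2 / (a * b) = b / a + a / b - 2 := by
    field_simp; ring
  have h7 : (log b - log a) ^ 2 = 4 * u ^ 2 := by rw [hu]; ring
  rw [h6, h7, ← h5]; linarith

theorem split {a b e e' : ℝ} (ha : 0 < a) (hb : 0 < b) :
    (e' ^ 2 / b - e ^ 2 / a) * (b - a) = (e' - e) ^ 2 - (e' * a - e * b) ^ 2 / (a * b) := by
  field_simp; ring

end Lc

theorem lc (hI : IDStmt) : LCStmt := by
  intro D lam ω g η Q Q' hg hS hsup hQ h1
  have hφ : Sup (fun y => η y ^ 2 / g y) Q := by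
    intro x hx
    refine hS x fun h0 => hx ?_
    simp [h0]
  have hid := (hI D lam ω Q).1 (fun y => η y ^ 2 / g y) g hφ
  have hpos : 0 ≤ ∑ x ∈ Q, pim lam ω x * (η x ^ 2 / g x) * (g x - Pf lam ω g x) := by
    refine sum_nonneg fun x _ => ?_
    by_cases h0 : η x = 0
    · simp [h0]
    · have hp : 0 ≤ pim lam ω x := by
        rw [← sum_cnd]; exact sum_nonneg fun s _ => cnd_nonneg _ _
      exact mul_nonneg (mul_nonneg hp (div_nonneg (sq_nonneg _) (hg x).le))
        (sub_nonneg.2 (hsup x h0))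
  have hB : ∑ x ∈ Q, ∑ s, cnd lam ω x s *
      ((η (x + vec s) * g x - η x * g (x + vec s)) ^ 2 / (g x * g (x + vec s))) ≤
      En lam ω Q η := by
    have e : ∑ x ∈ Q, ∑ s, cnd lam ω x s *
        ((η (x + vec s) ^ 2 / g (x + vec s) - η x ^ 2 / g x) * (g (x + vec s) - g x)) =
        En lam ω Q η - ∑ x ∈ Q, ∑ s, cnd lam ω x s *
          ((η (x + vec s) * g x - η x * g (x + vec s)) ^ 2 / (g x * g (x + vec s))) := by
      rw [En_eq, ← sum_sub_distrib]
      refine sum_congr rfl fun x _ => ?_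
      rw [← sum_sub_distrib]
      refine sum_congr rfl fun s _ => ?_
      rw [Lc.split (hg x) (hg _), mul_sub]
    rw [e] at hid
    linarith
  refine le_trans ?_ hB
  rw [En_eq]
  refine le_trans (sum_le_sum fun x hx => ?_) (sum_le_sum_of_subset_of_nonneg hQ fun x _ _ =>
    sum_nonneg fun s _ => mul_nonneg (cnd_nonneg _ _)
      (div_nonneg (sq_nonneg _) (mul_pos (hg _) (hg _)).le))
  refine sum_le_sum fun s _ => mul_le_mul_of_nonneg_left ?_ (cnd_nonneg _ _)
  rw [(h1 x hx).1, (h1 x hx).2 s, one_mul, one_mul]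
  exact Lc.log_sq_le (hg _) (hg _)

end Pool.Agent.MP_8c549f_pr.L2
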