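import Pool.Agent.MP_8c549f_pr.L2.Basic

/-! PROJECT L2: mass, second moment and backtracking of a leg. -/

noncomputable section

namespace Pool.Agent.MP_8c549f_pr.L2

open MeasureTheory Finset Real Classical S3

namespace Leg1

variable {D : ℕ} {lam : ℝ} {ω : Cfg D}

/-- the sites below the level `L` -/
def Ub (D L : ℕ) : Set (V D) := {y | y 0 < (L : ℤ)}

/-- the sites of level `L` -/
def Tp (D L : ℕ) : Set (V D) := {y | y 0 = (L : ℤ)}

/-- the sites between the levels `- k` and `L` -/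
def Uk (D L k : ℕ) : Set (V D) := {y | -(k : ℤ) < y 0 ∧ y 0 < (L : ℤ)}

lemma below {L N : ℕ} {l : List (Step D)} (hl : l ∈ Lg D L N) {i : ℕ} (hi : i < l.length) :
    loc l i 0 < (L : ℤ) := by
  obtain ⟨-, h1, h2⟩ := mem_Lg.1 hl
  exact h2 ▸ h1 i hi

lemma dict (hD : DICTStmt) (L N : ℕ) (F : ℕ → ℝ) :
    ∑ l ∈ Lg D L N, wr lam ω 0 l * F l.length =
      ∑ k ∈ range (N + 1), F k * Pk lam ω (Ub D L) k (chi (Tp D L)) 0 := by
  have h := hD D lam ω L N (Ub D L) F (fun _ => 1) fun _ hy => hy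
  rw [filter_true_of_mem fun l hl i hi => below hl hi] at h
  simp only [mul_one] at h
  exact h

lemma ms_eq (hD : DICTStmt) (L N : ℕ) :
    ms lam L N ω = Gs lam ω (Ub D L) (N + 1) (chi (Tp D L)) 0 := by
  have h := dict (lam := lam) (ω := ω) hD L N fun _ => 1
  simp only [mul_one, one_mul] at h
  exact h

lemma top_eq (L k : ℕ) : Pk lam ω (Ub D L) k (chi (Tp D L)) 0 =
    Pk lam ω (Ub D L) k (chi (Ub D L)ᶜ) 0 := by
  refine Pk_loc k (fun _ y => y 0 ≤ (L : ℤ)) 0 (by simp) (fun _ _ y s _ hy _ => ?_)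
    (fun _ _ _ _ => ⟨Iff.rfl, fun _ _ => rfl⟩) fun y hy => ?_
  · have h1 : y 0 < (L : ℤ) := hy
    have h2 := (vec_bounds s 0).2
    show y 0 + vec s 0 ≤ (L : ℤ)
    omega
  · have h1 : y 0 ≤ (L : ℤ) := hy
    by_cases e : y 0 = (L : ℤ)
    · rw [chi_of_mem (show y ∈ Tp D L from e),
        chi_of_mem (show y ∈ (Ub D L)ᶜ from fun h => absurd e (ne_of_lt h))]
    · rw [chi_of_not (show y ∉ Tp D L from e),
        chi_of_not (show y ∉ (Ub D L)ᶜ from fun h => h (lt_of_le_of_ne h1 e))]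

lemma ms_add (hD : DICTStmt) (L N : ℕ) (h0 : 0 < Zq lam ω 0) :
    ms lam L N ω + Pk lam ω (Ub D L) N (chi (Ub D L)) 0 = 1 := by
  rw [ms_eq hD, ← exit_add_eq (Ub D L) N 0 h0]
  simp only [Gs, top_eq]

lemma drop (L k : ℕ) (x : V D) : Pk lam ω (Ub D L) (k + 1) (chi (Tp D L)) x +
    Pk lam ω (Ub D L) (k + 1) (chi (Ub D L)) x ≤ Pk lam ω (Ub D L) k (chi (Ub D L)) x := by
  rw [← Pk_add, Pk_succ']
  refine Pk_mono (fun y => ?_) k x
  by_cases hy : y ∈ Ub D L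
  · rw [Pu_of_mem hy, chi_of_mem hy]
    refine Pf_le zero_le_one fun s _ => ?_
    by_cases e : y + vec s ∈ Ub D L
    · rw [chi_of_not (show y + vec s ∉ Tp D L from ne_of_lt e), zero_add]
      exact chi_le_one _ _
    · rw [chi_of_not e, add_zero]
      exact chi_le_one _ _
  · rw [Pu_of_not hy, chi_of_not hy]

lemma abel' (a b : ℕ → ℝ) (ha : ∀ k, 0 ≤ a k) (h : ∀ k, b (k + 1) + a (k + 1) ≤ a k) (n : ℕ) :
    ∑ k ∈ range (n + 1), (k : ℝ) ^ 2 * b k + (n : ℝ) ^ 2 * a n ≤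
      2 * ∑ k ∈ range n, ((k : ℝ) + 1) * a k := by
  induction n with
  | zero => simp
  | succ n ih =>
    rw [sum_range_succ _ (n + 1), sum_range_succ (fun k : ℕ => ((k : ℝ) + 1) * a k) n]
    have h1 := mul_le_mul_of_nonneg_left (h n) (sq_nonneg ((n : ℝ) + 1))
    have h2 := ha n
    push_cast
    nlinarith

lemma t2_le (hD : DICTStmt) (L N : ℕ) : t2 lam L N ω ≤
    2 * ∑ k ∈ range (N + 1), ((k : ℝ) + 1) * Pk lam ω (Ub D L) k (chi (Ub D L)) 0 := by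
  have ha : ∀ k, 0 ≤ Pk lam ω (Ub D L) k (chi (Ub D L)) 0 := fun k =>
    Pk_nonneg (chi_nonneg _) k 0
  have h1 := abel' _ (fun k => Pk lam ω (Ub D L) k (chi (Tp D L)) 0) ha (fun k => drop L k 0) N
  have h2 := dict (lam := lam) (ω := ω) hD L N fun k => (k : ℝ) ^ 2
  have h3 := mul_nonneg (sq_nonneg (N : ℝ)) (ha N)
  have h4 : 0 ≤ ((N : ℝ) + 1) * Pk lam ω (Ub D L) N (chi (Ub D L)) 0 :=
    mul_nonneg (by positivity) (ha N)
  rw [t2, h2, sum_range_succ (fun k : ℕ => ((k : ℝ) + 1) *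
    Pk lam ω (Ub D L) k (chi (Ub D L)) 0) N]
  linarith

lemma bt_le (hD : DICTStmt) (L N k : ℕ) : bt lam L N k ω ≤
    Gs lam ω (Uk D L k) (N + 1) (chi (Ub D L \ Uk D L k)) 0 := by
  have h1 := hD D lam ω L N (Uk D L k) (fun _ => 1) (fun _ => 1) fun _ hy => hy.2
  simp only [mul_one, one_mul] at h1
  have h2 := sum_filter_add_sum_filter_not (Lg D L N)
    (fun l => ∃ i < l.length, H l i ≤ -(k : ℤ)) (wr lam ω 0)
  have h3 : (Lg D L N).filter (fun l => ¬ ∃ i < l.length, H l i ≤ -(k : ℤ)) =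
      (Lg D L N).filter fun l => ∀ i < l.length, loc l i ∈ Uk D L k :=
    filter_congr fun l hl => ⟨fun h i hi => ⟨not_le.1 fun q => h ⟨i, hi, q⟩, below hl hi⟩,
      fun h ⟨i, hi, q⟩ => not_le.2 (h i hi).1 q⟩
  have h4 := Gs_split (lam := lam) (ω := ω) (U := Ub D L) (A := Uk D L k) (Z := Tp D L)
    (fun _ hy => hy.2) (Set.disjoint_left.2 fun y hy => ne_of_lt hy) (N + 1) 0
  have h5 := ms_eq (lam := lam) (ω := ω) hD L N
  rw [h3, h1] at h2
  have h6 : bt lam L N k ω + Gs lam ω (Uk D L k) (N + 1) (chi (Tp D L)) 0 = ms lam L N ω := h2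
  linarith

lemma small {C E l : ℝ} (K : ℕ) (hC : 1 ≤ C) (hE : 0 ≤ E) (h1 : 1 ≤ l)
    (hl : C ^ (K + 3) * E * (K + 2).factorial ≤ l) :
    C * l ^ 2 * exp (-(l ^ 4 / (C * l ^ 2))) * E ≤ 1 / l ^ K := by
  have c0 : 0 < C := by linarith
  have l0 : 0 < l := by linarith
  have e1 : l ^ 4 / (C * l ^ 2) = l ^ 2 / C := by field_simp
  have e2 := Real.pow_div_factorial_le_exp (l ^ 2 / C) (by positivity) (K + 2)
  have f0 : (0 : ℝ) < (K + 2).factorial := by positivity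
  rw [e1, exp_neg, le_div_iff₀ (by positivity)]
  have e3 : C * l ^ 2 * (exp (l ^ 2 / C))⁻¹ * E * l ^ K =
      C * l ^ (K + 2) * E / exp (l ^ 2 / C) := by ring
  rw [e3, div_le_one (exp_pos _)]
  refine le_trans ?_ e2
  rw [le_div_iff₀ f0, div_pow, le_div_iff₀ (by positivity)]
  have e4 : l ≤ l ^ (K + 2) := le_self_pow₀ h1 (by omega)
  calc C * l ^ (K + 2) * E * (K + 2).factorial * C ^ (K + 2)
      = l ^ (K + 2) * (C ^ (K + 3) * E * (K + 2).factorial) := by ring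
    _ ≤ l ^ (K + 2) * l ^ (K + 2) := mul_le_mul_of_nonneg_left (hl.trans e4) (by positivity)
    _ = (l ^ 2) ^ (K + 2) := by ring

end Leg1

open Leg1 in
theorem leg1 (hD : DICTStmt) (hS : SURStmt) (hH : HITStmt) : LEG1Stmt := by
  intro D
  obtain ⟨C, l₁, hC, hS⟩ := hS D
  obtain ⟨ξ, C', l₂, hξ, -, hC', hH⟩ := hH D
  refine ⟨⌈16 * C'⌉₊, fun Λ hΛ => ⟨2 * C * exp (4 * Λ), ?_, fun K =>
    ⟨max (max l₁ l₂) ⌈C ^ (K + 3) * exp (4 * Λ) * (K + 2).factorial⌉₊, ?_⟩⟩⟩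
  · have := one_le_exp (show (0 : ℝ) ≤ 4 * Λ by positivity)
    nlinarith
  intro ω R m h δ rep w hG l lam hl hs h0 hR
  have l16 := hs.l16
  have lp := hs.lpos
  have l4 : 2 * l ≤ l ^ 4 := by
    calc 2 * l ≤ l ^ 3 * l := Nat.mul_le_mul_right _
          ((show 2 ≤ 16 ^ 3 by norm_num).trans (Nat.pow_le_pow_left l16 3))
      _ = l ^ 4 := by ring
  obtain ⟨s1, s2⟩ := hS ω R m h δ rep w hG l lam (by omega) hs 0 (Ub D (Λ * l)) (Λ * l : ℕ)
    (l ^ 4) h0 (by rw [nrm_zero]; omega) fun _ hy => hy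
  have eL : exp (lam * (((Λ * l : ℕ) : ℤ) - (0 : V D) 0 : ℤ)) ≤ exp (4 * Λ) := by
    refine exp_le_exp.2 ?_
    have := mul_le_mul_of_nonneg_left hs.mul_le (Nat.cast_nonneg (α := ℝ) Λ)
    simp only [Pi.zero_apply, sub_zero]
    push_cast
    linarith
  refine ⟨?_, ?_, fun j hj => ?_⟩
  · have a1 := ms_add (lam := lam) hD (Λ * l) (l ^ 4) (wide_Zq hG.h1 h0 lam)
    have a2 : Pk lam ω (Ub D (Λ * l)) (l ^ 4) (chi (Ub D (Λ * l))) 0 ≤ _ :=
      (Pk_mono (fun y => ?_) _ 0).trans s1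
    · have a3 := small (l := l) K hC (exp_pos (4 * Λ)).le (by exact_mod_cast (by omega : 1 ≤ l))
        (Nat.ceil_le.1 (by omega))
      have a4 := mul_le_mul_of_nonneg_left eL (show 0 ≤ C * (l : ℝ) ^ 2 *
        exp (-((l : ℝ) ^ 4 / (C * (l : ℝ) ^ 2))) by positivity)
      simp only [Nat.cast_pow] at a2
      linarith
    · by_cases hy : y ∈ Ub D (Λ * l)
      · rw [chi_of_mem hy, Set.indicator_of_mem hy]
        have h1 : y 0 < ((Λ * l : ℕ) : ℤ) := hy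
        exact one_le_exp (mul_nonneg hs.pos.le (by exact_mod_cast (by omega)))
      · rw [chi_of_not hy, Set.indicator_of_notMem hy]
  · have a1 := t2_le (lam := lam) (ω := ω) hD (Λ * l) (l ^ 4)
    have a2 := mul_le_mul_of_nonneg_left eL (show 0 ≤ C * (l : ℝ) ^ 4 by positivity)
    linarith
  · have b0 := exp_pos (lam * (j * (Λ * l) : ℕ))
    have a1 := hH ω R m h δ rep w hG l lam (by omega) hs 0 (Uk D (Λ * l) (j * (Λ * l)))
      (Ub D (Λ * l) \ Uk D (Λ * l) (j * (Λ * l))) (fun _ => 0) (l ^ 4) _ h0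
      (by rw [nrm_zero]; omega) Set.disjoint_sdiff_right
      (fun y z => by simp only [sub_self, abs_zero]; positivity) b0 fun z hz => by
        have h1 : z 0 ≤ -((j * (Λ * l) : ℕ) : ℤ) := not_lt.1 fun q => hz.2 ⟨q, hz.1⟩
        have h2 : ((z 0 : ℤ) : ℝ) ≤ -((j * (Λ * l) : ℕ) : ℝ) := by exact_mod_cast h1
        refine exp_le_exp.2 ?_
        nlinarith [hs.pos]
    refine (bt_le hD _ _ _).trans (a1.trans ?_)
    have a2 : wf lam (fun _ => 0) (0 : V D) = 1 := by simp [wf]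
    have a3 : 16 * C' ≤ exp Λ := by linarith [Nat.ceil_le.1 hΛ, add_one_le_exp (Λ : ℝ)]
    have a4 : exp Λ ^ j ≤ exp (lam * (j * (Λ * l) : ℕ)) := by
      rw [← exp_nat_mul]
      refine exp_le_exp.2 ?_
      have := mul_le_mul_of_nonneg_left hs.le_mul (show (0 : ℝ) ≤ j * Λ by positivity)
      push_cast
      linarith
    have a5 : (16 * C') ^ j ≤ exp Λ ^ j := pow_le_pow_left₀ (by positivity) a3 j
    have a6 : C' ≤ C' ^ j := le_self_pow₀ hC' (by omega)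
    rw [a2, mul_one, div_le_div_iff₀ b0 (by positivity), one_mul]
    rw [mul_pow] at a5
    have a7 := mul_le_mul_of_nonneg_left a6 (show (0 : ℝ) ≤ 16 ^ j by positivity)
    linarith

end Pool.Agent.MP_8c549f_pr.L2

end
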