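import Pool.Agent.MP_8c549f_pr.L2.SpecB

/-! PROJECT L2, row Link: from the chain of legs to the mean length of first passages. -/

noncomputable section

namespace Pool.Agent.MP_8c549f_pr.L2

open MeasureTheory Finset Real Classical S3
open scoped ENNReal

namespace Link

variable {D : ℕ}

theorem wr_le_one (lam : ℝ) (ω : Cfg D) (x : V D) (l : List (Step D)) : wr lam ω x l ≤ 1 := by
  rw [wr_eq_W]
  exact ENNReal.toReal_le_of_le_ofReal zero_le_one (by simpa using W_le_one lam ω l x)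

theorem plus_eq (ω : Cfg D) : ovw {edge 0 (bck D)} (allOpen D) ω = plus ω := by
  funext e
  by_cases h : e = edge 0 (bck D)
  · subst h; simp [ovw, plus, allOpen]
  · simp [ovw, plus, h]

theorem sub_past : ({edge 0 (bck D)} : Set (Edge D)) ⊆ Past D := by
  rintro e rfl
  simp [Past, edge, bck]

theorem int_wr {p : ℝ} (h0 : 0 ≤ p) (h1 : p ≤ 1) (lam : ℝ) (l : List (Step D)) :
    Integrable (fun ω => wr lam (plus ω) 0 l) (perc D p) := by
  have := perc_prob D h0 h1
  refine Integrable.of_bound ((measurable_wr lam 0 l).comp measurable_plus).aestronglyMeasurable 1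
    (Filter.Eventually.of_forall fun ω => ?_)
  rw [Real.norm_eq_abs, abs_of_nonneg (wr_nonneg _ _)]
  exact wr_le_one _ _ _ _

theorem wb_eq {p : ℝ} (h0 : 0 ≤ p) (h1 : p ≤ 1) (lam : ℝ) (l : List (Step D)) :
    wb true p lam l = ENNReal.ofReal (∫ ω, wr lam (plus ω) 0 l ∂perc D p) := by
  rw [ofReal_integral_eq_lintegral_ofReal (int_wr h0 h1 lam l)
    (Filter.Eventually.of_forall fun ω => wr_nonneg _ _), wb]
  simp only [cfg_true, W_eq_wr]

theorem SS_fin {p : ℝ} (h0 : 0 ≤ p) (h1 : p ≤ 1) (lam : ℝ) (T : Finset (List (Step D))) :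
    SS (T : Set (List (Step D))) (wb true p lam) =
      ENNReal.ofReal (∫ ω, ∑ l ∈ T, wr lam (plus ω) 0 l ∂perc D p) := by
  rw [SS_coe, integral_finsetSum _ fun l _ => int_wr h0 h1 lam l,
    ENNReal.ofReal_sum_of_nonneg fun l _ => integral_nonneg fun ω => wr_nonneg _ _]
  exact sum_congr rfl fun l _ => wb_eq h0 h1 lam l

theorem SS_fin_len {p : ℝ} (h0 : 0 ≤ p) (h1 : p ≤ 1) (lam : ℝ) (T : Finset (List (Step D))) :
    (SS (T : Set (List (Step D))) fun l => l.length * wb true p lam l) =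
      ENNReal.ofReal (∫ ω, ∑ l ∈ T, wr lam (plus ω) 0 l * l.length ∂perc D p) := by
  rw [SS_coe, integral_finsetSum _ fun l _ => (int_wr h0 h1 lam l).mul_const _,
    ENNReal.ofReal_sum_of_nonneg fun l _ => integral_nonneg fun ω =>
      mul_nonneg (wr_nonneg _ _) (Nat.cast_nonneg _)]
  refine sum_congr rfl fun l _ => ?_
  rw [wb_eq h0 h1, integral_mul_const, mul_comm _ (l.length : ℝ),
    ENNReal.ofReal_mul (Nat.cast_nonneg _), ENNReal.ofReal_natCast]

/-- average of `g` over the ends of the first pieces -/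
def K (lam : ℝ) (P : Finset (List (Step D))) (g : Cfg D → ℝ) (ω : Cfg D) : ℝ :=
  ∑ u ∈ P, wr lam (plus ω) 0 u * g (shift (pos u) (plus ω))

theorem int_term {p : ℝ} (h0 : 0 ≤ p) (h1 : p ≤ 1) (lam : ℝ) (u : List (Step D))
    {g : Cfg D → ℝ} (hg : BM g) :
    Integrable (fun ω => wr lam (plus ω) 0 u * g (shift (pos u) (plus ω))) (perc D p) := by
  obtain ⟨hm, C, hC⟩ := hg
  refine (int_wr h0 h1 lam u).mul_bdd (c := C)
    (hm.comp ((measurable_shift _).comp measurable_plus)).aestronglyMeasurable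
    (Filter.Eventually.of_forall fun ω => ?_)
  exact hC _

theorem int_K {p : ℝ} (h0 : 0 ≤ p) (h1 : p ≤ 1) (lam : ℝ) (P : Finset (List (Step D)))
    {g : Cfg D → ℝ} (hg : BM g) : Integrable (K lam P g) (perc D p) :=
  integrable_finsetSum _ fun u _ => int_term h0 h1 lam u hg

theorem K_Fr (hV : VBStmt) (hF : FRStmt) {p : ℝ} (h0 : 0 ≤ p) (h1 : p ≤ 1) (lam : ℝ)
    (P : Finset (List (Step D))) (hP : ∀ u ∈ P, Rec u ∧ 0 ≤ lev u) {g : Cfg D → ℝ} (hg : BM g) :
    ∫ ω, K lam P g ω ∂perc D p = ∫ ω, K lam P (Fr p g) ω ∂perc D p := by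
  unfold K
  rw [integral_finsetSum _ fun u _ => int_term h0 h1 lam u hg,
    integral_finsetSum _ fun u _ => int_term h0 h1 lam u ((hV D p h0 h1).2.2.1 g hg)]
  refine sum_congr rfl fun u hu => ?_
  have := (hF D p lam h0 h1 g hg).1 _ (allOpen D) u sub_past (hP u hu).1 (hP u hu).2
  simpa only [plus_eq] using this

theorem BM_const (c : ℝ) : BM (fun _ : Cfg D => c) := ⟨measurable_const, |c|, fun _ => le_rfl⟩

theorem sum_le {P : Finset (List (Step D))} {w f : List (Step D) → ℝ} {c : ℝ} (hc : 0 ≤ c)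
    (hw : ∀ u, 0 ≤ w u) (h1 : ∑ u ∈ P, w u ≤ 1) (hf : ∀ u ∈ P, w u ≠ 0 → f u ≤ c) :
    ∑ u ∈ P, w u * f u ≤ c := by
  calc ∑ u ∈ P, w u * f u ≤ ∑ u ∈ P, w u * c := sum_le_sum fun u hu => by
        by_cases h : w u = 0
        · simp [h]
        · exact mul_le_mul_of_nonneg_left (hf u hu h) (hw u)
    _ = (∑ u ∈ P, w u) * c := (sum_mul _ _ _).symm
    _ ≤ c := by nlinarith

end Link

open Link in
theorem link (hV : VBStmt) (hF : FRStmt) (hC : CHNStmt) (hL : LK1Stmt) (hQ : QFStmt) :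
    LINKStmt := by
  intro D p lam L N h₀ N₁ n M G G₀ τ Y E c σ T h0 h1 hN hI hG₀ hτ hGG hY hE hc0 hc hσ hT hFr hS hM
  have := perc_prob D h0 h1
  obtain ⟨Tf, hTf, hsum⟩ := hL D L N h₀ N₁ n hN
  set P := (Lg D h₀ N₁).filter Stay with hPdef
  have hτ0 : 0 ≤ τ := hI.pos
  have hP : ∀ u ∈ P, Rec u ∧ 0 ≤ lev u := fun u hu => by
    have := mem_Lg.1 (mem_filter.1 hu).1
    exact ⟨this.2.1, by rw [this.2.2]; positivity⟩
  have hP1 : ∀ ω, ∑ u ∈ P, wr lam ω 0 u ≤ 1 := fun ω =>
    (sum_le_sum_of_subset_of_nonneg (filter_subset _ _) fun l _ _ => wr_nonneg _ _).trans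
      (ms_le_one h₀ N₁)
  set m : Cfg D → ℝ := fun ω => ∑ l ∈ Chn D L N n, wr lam ω 0 l with hm
  set Vt : Cfg D → ℝ := fun ω => ∑ l ∈ Chn D L N n, wr lam ω 0 l * l.length with hVt
  have hCh := ((hC D L N).2 lam).1 n
  have hm0 : ∀ ω, 0 ≤ m ω := fun ω => sum_nonneg fun l _ => wr_nonneg _ _
  have hm1 : ∀ ω, m ω ≤ 1 := fun ω => (hCh ω).1
  have hVV : ∀ ω, Vt ω ≤ Vn lam L N n ω := fun ω => (hCh ω).2.1
  have hVV' : ∀ ω, Vn lam L N n ω ≤ Vt ω + n * N * (1 - m ω) := fun ω => (hCh ω).2.2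
  have hmG : ∀ ω, G n ω → 1 - n * τ ≤ m ω := ((hC D L N).2 lam).2 G τ hI n
  have bm : BM m := ⟨Finset.measurable_sum _ fun l _ => measurable_wr lam 0 l, 1, fun ω => by
    rw [abs_of_nonneg (hm0 ω)]; exact hm1 ω⟩
  have bV : BM (Vn (D := D) lam L N n) := (((hV D p h0 h1).2.2.2.2 lam L N).2.2.2 n).1
  have bF : BM (Fr p (Vn (D := D) lam L N n)) := (hV D p h0 h1).2.2.1 _ bV
  obtain ⟨bi, bb, hb0⟩ := (hV D p h0 h1).2.2.2.1 (G n) (hI.meas n)
  have b0 := ((hV D p h0 h1).2.2.2.1 G₀ hG₀).1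
  have ib : Integrable (fun ω => S3.ind (¬ G₀ ω)) (perc D p) :=
    (hV D p h0 h1).2.1 _ id b0 measurable_id
  have hb : ∫ ω, S3.ind (¬ G₀ ω) ∂perc D p ≤ τ := by
    have e : (fun ω => S3.ind (¬ G₀ ω)) = {ω | ¬ G₀ ω}.indicator fun _ => (1 : ℝ) := by
      funext ω
      by_cases h : G₀ ω <;> simp [S3.ind, h]
    have hm' : MeasurableSet {ω | ¬ G₀ ω} := hG₀.compl
    rw [e, integral_indicator_const _ hm']
    simpa using hτ
  have i1 := int_K h0 h1 lam P (BM_const (D := D) 1)
  have im := int_K h0 h1 lam P bm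
  have iV := int_K h0 h1 lam P bV
  have iF := int_K h0 h1 lam P bF
  have ii := int_K h0 h1 lam P bi
  have ibb := int_K h0 h1 lam P bb
  have iX : Integrable (fun ω => ∑ l ∈ Tf, wr lam (plus ω) 0 l * (l.length : ℝ)) (perc D p) :=
    integrable_finsetSum _ fun l _ => (int_wr h0 h1 lam l).mul_const _
  -- the four integral inequalities
  have A1 : ∫ ω, K lam P (fun _ => 1) ω ∂perc D p - ∫ ω, K lam P m ω ∂perc D p ≤ (n + 1) * τ := by
    rw [← integral_sub i1 im]
    calc _ ≤ ∫ ω, (n * τ + S3.ind (¬ G₀ ω)) ∂perc D p := by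
          refine integral_mono (i1.sub im) ((integrable_const _).add ib) fun ω => ?_
          have e : K lam P (fun _ => 1) ω - K lam P m ω =
              ∑ u ∈ P, wr lam (plus ω) 0 u * (1 - m (shift (pos u) (plus ω))) := by
            simp only [K, ← sum_sub_distrib, mul_sub]
          show K lam P (fun _ => 1) ω - K lam P m ω ≤ n * τ + S3.ind (¬ G₀ ω)
          rw [e]
          have hn : (0 : ℝ) ≤ n * τ := by positivity
          refine sum_le (add_nonneg hn (ind_nonneg _)) (fun u => wr_nonneg _ _) (hP1 _)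
            fun u hu hw => ?_
          by_cases h : G₀ ω
          · have := hmG _ (hGG ω h u (mem_filter.1 hu).1 hw)
            have := ind_nonneg (¬ G₀ ω)
            linarith
          · rw [ind_pos h]
            have := hm0 (shift (pos u) (plus ω))
            linarith
      _ ≤ (n + 1) * τ := by
          rw [integral_add (integrable_const _) ib]
          simp only [integral_const, probReal_univ, smul_eq_mul, one_mul]
          linarith
  have A2 : ∫ ω, ∑ l ∈ Tf, wr lam (plus ω) 0 l * (l.length : ℝ) ∂perc D p ≤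
      N₁ + ∫ ω, K lam P (Vn lam L N n) ω ∂perc D p := by
    calc _ ≤ ∫ ω, ((N₁ : ℝ) + K lam P (Vn lam L N n) ω) ∂perc D p := by
          refine integral_mono iX ((integrable_const _).add iV) fun ω => ?_
          show ∑ l ∈ Tf, wr lam (plus ω) 0 l * (l.length : ℝ) ≤ N₁ + K lam P (Vn lam L N n) ω
          rw [(hsum lam (plus ω)).2]
          simp only [mul_add, sum_add_distrib]
          refine add_le_add (sum_le (Nat.cast_nonneg _) (fun u => wr_nonneg _ _) (hP1 _)
            fun u hu _ => ?_) (sum_le_sum fun u _ =>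
              mul_le_mul_of_nonneg_left (hVV _) (wr_nonneg _ _))
          have h2 : (u.length : ℝ) ≤ N₁ := by exact_mod_cast (mem_Lg.1 (mem_filter.1 hu).1).1
          calc _ ≤ (u.length : ℝ) * 1 := mul_le_mul_of_nonneg_left (hm1 _) (Nat.cast_nonneg _)
            _ ≤ N₁ := by linarith
      _ = _ := by
          rw [integral_add (integrable_const _) iV]
          simp
  have A3 : ∫ ω, K lam P (Vn lam L N n) ω ∂perc D p ≤
      ∫ ω, ∑ l ∈ Tf, wr lam (plus ω) 0 l * (l.length : ℝ) ∂perc D p + n * N *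
        (∫ ω, K lam P (fun _ => 1) ω ∂perc D p - ∫ ω, K lam P m ω ∂perc D p) := by
    have i3 : Integrable (fun a => (n : ℝ) * N * (K lam P (fun _ => 1) a - K lam P m a))
      (perc D p) := (i1.sub im).const_mul _
    rw [← integral_sub i1 im, ← integral_const_mul, ← integral_add iX i3]
    refine integral_mono iV (iX.add i3) fun ω => ?_
    show K lam P (Vn lam L N n) ω ≤ ∑ l ∈ Tf, wr lam (plus ω) 0 l * (l.length : ℝ) +
      n * N * (K lam P (fun _ => 1) ω - K lam P m ω)
    rw [(hsum lam (plus ω)).2]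
    simp only [K, ← sum_sub_distrib, mul_sum P, ← sum_add_distrib]
    refine sum_le_sum fun u _ => ?_
    have a1 := hVV' (shift (pos u) (plus ω))
    have a2 := hm0 (shift (pos u) (plus ω))
    have a3 : 0 ≤ wr lam (plus ω) 0 u := wr_nonneg _ _
    have a4 : 0 ≤ (u.length : ℝ) * m (shift (pos u) (plus ω)) := by positivity
    have a5 := mul_le_mul_of_nonneg_left a1 a3
    have a6 := mul_nonneg a3 a4
    show _ ≤ wr lam (plus ω) 0 u * (u.length * m (shift (pos u) (plus ω)) +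
      Vt (shift (pos u) (plus ω))) + _
    nlinarith
  have A4 : ∫ ω, K lam P (bad p (G n)) ω ∂perc D p ≤ τ := by
    rw [bad, ← K_Fr hV hF h0 h1 lam P hP bi]
    refine (integral_mono ii ib fun ω => ?_).trans hb
    refine sum_le (ind_nonneg _) (fun u => wr_nonneg _ _) (hP1 _) fun u hu hw => ?_
    exact ind_mono fun h h' => h (hGG ω h' u (mem_filter.1 hu).1 hw)
  have A5 : |∫ ω, K lam P (Vn lam L N n) ω ∂perc D p - (∫ ω, K lam P (fun _ => 1) ω ∂perc D p) * c| ≤
      Y + 3 * E * τ := by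
    rw [K_Fr hV hF h0 h1 lam P hP bV, ← integral_mul_const, ← integral_sub iF (i1.mul_const _)]
    refine abs_integral_le_integral_abs.trans ?_
    calc _ ≤ ∫ ω, ((Y + E * (2 * τ)) + E * K lam P (bad p (G n)) ω) ∂perc D p := by
          refine integral_mono (iF.sub (i1.mul_const _)).abs
            ((integrable_const _).add (ibb.const_mul _)) fun ω => ?_
          show |K lam P (Fr p (Vn lam L N n)) ω - K lam P (fun _ => 1) ω * c| ≤
            (Y + E * (2 * τ)) + E * K lam P (bad p (G n)) ω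
          have h2 := sum_le (P := P) (f := fun _ => Y + E * (2 * τ)) (c := Y + E * (2 * τ))
            (by positivity) (fun u => wr_nonneg (lam := lam) (ω := plus ω) u 0) (hP1 _)
            fun _ _ _ => le_rfl
          refine le_trans ?_ (add_le_add h2 le_rfl)
          simp only [K, sum_mul, mul_sum P, ← sum_sub_distrib, ← sum_add_distrib]
          refine (abs_sum_le_sum_abs _ _).trans (sum_le_sum fun u _ => ?_)
          have a3 : 0 ≤ wr lam (plus ω) 0 u := wr_nonneg _ _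
          have a5 := mul_le_mul_of_nonneg_left (hFr (shift (pos u) (plus ω))) a3
          rw [mul_one, ← mul_sub, abs_mul, abs_of_nonneg a3]
          linarith
      _ ≤ _ := by
          rw [integral_add (integrable_const _) (ibb.const_mul _), integral_const_mul]
          simp only [integral_const, probReal_univ, smul_eq_mul, one_mul]
          have := mul_le_mul_of_nonneg_left A4 hE
          linarith
  -- dictionary
  set q := ∫ ω, K lam P (fun _ => 1) ω ∂perc D p with hq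
  set mD := ∫ ω, K lam P m ω ∂perc D p with hmD
  set XD := ∫ ω, ∑ l ∈ Tf, wr lam (plus ω) 0 l * (l.length : ℝ) ∂perc D p with hXD
  have q0 : 0 ≤ q := integral_nonneg fun ω => sum_nonneg fun u _ => by
    simpa using wr_nonneg u 0
  have mD0 : 0 ≤ mD := integral_nonneg fun ω => sum_nonneg fun u _ =>
    mul_nonneg (wr_nonneg _ _) (hm0 _)
  have XD0 : 0 ≤ XD := integral_nonneg fun ω => sum_nonneg fun u _ =>
    mul_nonneg (wr_nonneg _ _) (Nat.cast_nonneg _)
  have eq : SS (P : Set (List (Step D))) (wb true p lam) = ENNReal.ofReal q := by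
    rw [SS_fin h0 h1]; simp [hq, K]
  have emD : SS (Tf : Set (List (Step D))) (wb true p lam) = ENNReal.ofReal mD := by
    rw [SS_fin h0 h1]
    congr 1
    exact integral_congr_ae (Filter.Eventually.of_forall fun ω => (hsum lam (plus ω)).1)
  have eXD := SS_fin_len h0 h1 lam Tf
  rw [← hXD] at eXD
  have hQ1 : QQ D p lam h₀ ≤ 1 := le_trans le_self_add (hQ D p lam h0 h1 h₀).1
  have hQt : QQ D p lam h₀ ≠ ∞ := ne_top_of_le_ne_top ENNReal.one_ne_top hQ1
  have Ql : q ≤ (QQ D p lam h₀).toReal := by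
    refine (ENNReal.ofReal_le_iff_le_toReal hQt).1 ?_
    rw [← eq]
    refine SS_mono (fun u hu => ?_) fun _ _ => le_rfl
    have hu' := mem_filter.1 (mem_coe.1 hu)
    exact ⟨hu'.2, (mem_Lg.1 hu'.1).2⟩
  have Qu' : QQ D p lam h₀ ≤ ENNReal.ofReal (q + σ) := by
    rw [ENNReal.ofReal_add q0 hσ, ← eq]
    refine le_trans ?_ (add_le_add le_rfl hS)
    refine le_trans (SS_mono (fun u hu => ?_) fun _ _ => le_rfl) (SS_union_le _ _ _)
    by_cases h : N₁ < u.length
    · exact Or.inr ⟨hu, h⟩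
    · exact Or.inl (mem_coe.2 (mem_filter.2 ⟨mem_Lg.2 ⟨not_lt.1 h, hu.2⟩, hu.1⟩))
  have Qu : (QQ D p lam h₀).toReal ≤ q + σ :=
    ENNReal.toReal_le_of_le_ofReal (add_nonneg q0 hσ) Qu'
  have hR0 : 0 ≤ σ + (n + 1) * τ := by positivity
  have hR : SS (FPS D (h₀ + n * L) \ Tf) (wb true p lam) ≤ ENNReal.ofReal (σ + (n + 1) * τ) := by
    have e1 := SS_split (FPS D (h₀ + n * L)) Tf (wb true p lam)
    rw [Set.inter_eq_right.2 hTf, emD] at e1
    have e2 : QQ D p lam (h₀ + n * L) ≤ ENNReal.ofReal mD + ENNReal.ofReal (σ + (n + 1) * τ) := by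
      refine (((hQ D p lam h0 h1 h₀).2.2.1 _ (Nat.le_add_right _ _)).trans Qu').trans ?_
      rw [← ENNReal.ofReal_add mD0 hR0]
      exact ENNReal.ofReal_le_ofReal (by linarith)
    rw [QQ, e1] at e2
    exact (ENNReal.add_le_add_iff_left ENNReal.ofReal_ne_top).1 e2
  have Xu' : XX D p lam (h₀ + n * L) ≤ ENNReal.ofReal (XD + (M * (σ + (n + 1) * τ) + T)) := by
    have hMR : 0 ≤ (M : ℝ) * (σ + (n + 1) * τ) := by positivity
    rw [XX, SS_split (FPS D (h₀ + n * L)) Tf, Set.inter_eq_right.2 hTf, eXD,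
      ENNReal.ofReal_add XD0 (add_nonneg hMR hT), ENNReal.ofReal_add hMR hT]
    refine add_le_add le_rfl ?_
    rw [SS_split _ {l : List (Step D) | l.length ≤ M}]
    refine add_le_add ?_ (le_trans (SS_mono (fun u hu => ?_) fun _ _ => le_rfl) hM)
    · rw [ENNReal.ofReal_mul (Nat.cast_nonneg _), ENNReal.ofReal_natCast]
      refine le_trans ?_ (mul_le_mul_right hR _)
      rw [← SS_mul_left]
      refine SS_mono Set.inter_subset_left fun u hu => ?_
      exact mul_le_mul_left (by exact_mod_cast hu.2) _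
    · exact ⟨hu.1.1, not_le.1 hu.2⟩
  have Xu : (XX D p lam (h₀ + n * L)).toReal ≤ XD + (M * (σ + (n + 1) * τ) + T) :=
    ENNReal.toReal_le_of_le_ofReal (by positivity) Xu'
  have Xl : XD ≤ (XX D p lam (h₀ + n * L)).toReal := by
    refine (ENNReal.ofReal_le_iff_le_toReal (ne_top_of_le_ne_top ENNReal.ofReal_ne_top Xu')).1 ?_
    rw [← eXD]
    exact SS_mono hTf fun _ _ => le_rfl
  have hnN : (0 : ℝ) ≤ n * N := by positivity
  have B1 : (n : ℝ) * N * (q - mD) ≤ 2 * (n : ℝ) ^ 2 * N * τ := by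
    have h2 : (n : ℝ) * (n + 1) ≤ 2 * (n : ℝ) ^ 2 := by
      rcases Nat.eq_zero_or_pos n with h | h
      · simp [h]
      · have : (1 : ℝ) ≤ n := by exact_mod_cast h
        nlinarith
    calc _ ≤ (n : ℝ) * N * ((n + 1) * τ) := mul_le_mul_of_nonneg_left A1 hnN
      _ = (n * (n + 1)) * (N * τ) := by ring
      _ ≤ (2 * (n : ℝ) ^ 2) * (N * τ) := mul_le_mul_of_nonneg_right h2 (by positivity)
      _ = _ := by ring
  have B2 : q * c ≤ (QQ D p lam h₀).toReal * c := mul_le_mul_of_nonneg_right Ql hc0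
  have B3 : (QQ D p lam h₀).toReal * c ≤ q * c + n * N * σ := by
    have := mul_le_mul_of_nonneg_right Qu hc0
    have := mul_le_mul_of_nonneg_left hc hσ
    nlinarith
  have B4 : (0 : ℝ) ≤ 2 * (n : ℝ) ^ 2 * N * τ := by positivity
  have B5 : (0 : ℝ) ≤ n * N * σ := by positivity
  have B6 : (0 : ℝ) ≤ M * (σ + (n + 1) * τ) := by positivity
  have B7 : (0 : ℝ) ≤ N₁ := Nat.cast_nonneg _
  rw [abs_le] at A5 ⊢
  constructor <;> linarith [A5.1, A5.2]

end Pool.Agent.MP_8c549f_pr.L2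

end
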