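import Pool.Agent.MP_8c549f_pr.L2.SpecB

/-! PROJECT L2, row Lk1: a first piece that stays above the start, followed by a chain of legs. -/

noncomputable section

namespace Pool.Agent.MP_8c549f_pr.L2

open MeasureTheory Finset Real Classical S3
open scoped ENNReal

theorem lk1 (hC : CHNStmt) : LK1Stmt := by
  intro D L N h₀ N₁ n hN
  obtain ⟨hC1, -⟩ := hC D L N
  have hinj : Set.InjOn (fun q : List (Step D) × List (Step D) => q.1 ++ q.2)
      (((Lg D h₀ N₁).filter Stay ×ˢ Chn D L N n : Finset (List (Step D) × List (Step D))) :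
        Set (List (Step D) × List (Step D))) := by
    rintro ⟨u, l⟩ hq ⟨u', l'⟩ hq' he
    have hu : u ∈ Lg D h₀ N₁ := (mem_filter.1 (mem_product.1 (mem_coe.1 hq)).1).1
    have hu' : u' ∈ Lg D h₀ N₁ := (mem_filter.1 (mem_product.1 (mem_coe.1 hq')).1).1
    have he' : u ++ l = u' ++ l' := he
    have h1 : u <+: u' ++ l' := he' ▸ List.prefix_append u l
    have h2 : u' <+: u' ++ l' := List.prefix_append u' l'
    have huu : u = u' := by
      rcases List.prefix_or_prefix_of_prefix h1 h2 with h | h
      · exact antich_Lg h₀ N₁ u (mem_coe.2 hu) u' (mem_coe.2 hu') h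
      · exact (antich_Lg h₀ N₁ u' (mem_coe.2 hu') u (mem_coe.2 hu) h).symm
    subst huu
    rw [List.append_cancel_left he']
  refine ⟨((Lg D h₀ N₁).filter Stay ×ˢ Chn D L N n).image fun q => q.1 ++ q.2, ?_, ?_⟩
  · intro v hv
    obtain ⟨⟨u, l⟩, hq, rfl⟩ := mem_image.1 (mem_coe.1 hv)
    obtain ⟨hu, hl⟩ := mem_product.1 hq
    obtain ⟨hu1, hst⟩ := mem_filter.1 hu
    obtain ⟨-, hur, hul⟩ := mem_Lg.1 hu1
    obtain ⟨hlr, hll, -, hlo⟩ := hC1 n l hl
    have hN' : (N : ℤ) ≤ h₀ := by exact_mod_cast hN
    have hlev : lev (u ++ l) = ((h₀ + n * L : ℕ) : ℤ) := by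
      rw [lev_append, hul, hll]; push_cast; ring
    refine ⟨?_, ?_, hlev⟩
    · intro i _
      by_cases h : i ≤ u.length
      · show 0 ≤ H (u ++ l) i
        rw [H_append_left l h]; exact hst i h
      · obtain ⟨j, rfl⟩ : ∃ j, i = u.length + j := ⟨i - u.length, by omega⟩
        show 0 ≤ H (u ++ l) (u.length + j)
        rw [H_append_right, hul]
        have := hlo j
        linarith
    · intro i hi
      have hi' : i < u.length + l.length := by simpa using hi
      by_cases h : i < u.length
      · show H (u ++ l) i < lev (u ++ l)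
        rw [H_append_left l h.le, lev_append, hll]
        have h1 := hur i h
        have h2 : (0 : ℤ) ≤ ((n * L : ℕ) : ℤ) := Int.natCast_nonneg _
        linarith
      · obtain ⟨j, rfl⟩ : ∃ j, i = u.length + j := ⟨i - u.length, by omega⟩
        show H (u ++ l) (u.length + j) < lev (u ++ l)
        rw [H_append_right, lev_append]
        have := hlr j (by omega)
        linarith
  · intro lam ω
    have hw : ∀ u l : List (Step D),
        wr lam ω 0 (u ++ l) = wr lam ω 0 u * wr lam (shift (pos u) ω) 0 l := by
      intro u l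
      rw [wr_append, wr_shift]
    constructor
    · rw [sum_image hinj, sum_product]
      refine sum_congr rfl fun u _ => ?_
      rw [mul_sum]
      exact sum_congr rfl fun l _ => hw u l
    · rw [sum_image hinj, sum_product]
      refine sum_congr rfl fun u _ => ?_
      rw [mul_sum, ← sum_add_distrib, mul_sum]
      refine sum_congr rfl fun l _ => ?_
      show wr lam ω 0 (u ++ l) * ((u ++ l).length : ℝ) = _
      rw [hw, List.length_append]
      push_cast
      ring

end Pool.Agent.MP_8c549f_pr.L2

end
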