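import Pool.Agent.MP_8c549f_pr.L2.SpecB

/-! PROJECT L2, row Mix: the expected duration of the legs forgets the remote past. -/

noncomputable section

namespace Pool.Agent.MP_8c549f_pr.L2

open MeasureTheory Finset Real Classical S3

namespace MixS

variable {D : ℕ} {lam : ℝ} {L N : ℕ}

theorem pos_mem {l : List (Step D)} (hl : l ∈ Lg D L N) : pos l ∈ ball (0 : V D) N := by
  rw [mem_ball, sub_zero]
  exact (nrm_pos_le l).trans (mem_Lg.1 hl).1

theorem Kk_eq (u : Cfg D → ℝ) (ω : Cfg D) :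
    Kk lam L N u ω = ∑ y ∈ ball (0 : V D) N, hl lam L N ω y * u (shift y ω) := by
  rw [Kk, ← sum_fiberwise_of_maps_to (fun l hl => pos_mem hl)]
  refine sum_congr rfl fun y _ => ?_
  rw [hl, sum_mul]
  refine sum_congr (by congr) fun l hl => ?_
  rw [(mem_filter.1 hl).2]

theorem hl_sum (ω : Cfg D) : ∑ y ∈ ball (0 : V D) N, hl lam L N ω y = ms lam L N ω := by
  have h := Kk_eq (lam := lam) (L := L) (N := N) (fun _ => 1) ω
  simp only [Kk, mul_one] at h
  exact h.symm

theorem hl_nonneg (ω : Cfg D) (y : V D) : 0 ≤ hl lam L N ω y :=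
  sum_nonneg fun l _ => wr_nonneg l 0

theorem hl_lev {ω : Cfg D} {y : V D} (h : hl lam L N ω y ≠ 0) : y 0 = L := by
  obtain ⟨l, hl', _⟩ := exists_ne_zero_of_sum_ne_zero h
  obtain ⟨h1, h2⟩ := mem_filter.1 hl'
  rw [← h2]
  exact (mem_Lg.1 h1).2.2

theorem agr_ovw {k : ℕ} {η η' : Cfg D} (h : AgrP k η η') (ω : Cfg D) :
    Agr k (ovw (Past D) η ω) (ovw (Past D) η' ω) := by
  intro e he
  by_cases hp : e ∈ Past D
  · simp only [ovw, if_pos hp]
    exact h e he hp
  · simp only [ovw, if_neg hp]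

theorem agrP_shift {j : ℕ} {w w' : Cfg D} (h : Agr (j * L) w w') {y : V D} (hy : y 0 = L) :
    AgrP ((j + 1) * L) (shift y w) (shift y w') := by
  intro e he _
  refine h (e.1 + y, e.2) ?_
  simp only [Pi.add_apply, hy]
  push_cast at he ⊢
  linarith

theorem agrP_zero (η η' : Cfg D) : AgrP (0 * L) η η' := by
  intro e he he'
  simp only [zero_mul, Nat.cast_zero, neg_zero] at he
  omega

theorem agrP_symm {k : ℕ} {η η' : Cfg D} (h : AgrP k η η') : AgrP k η' η :=
  fun e h1 h2 => (h e h1 h2).symm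

/-- the coupling of two legs in two good configurations -/
theorem good (hC : CPLStmt) {G : ℕ → Cfg D → Prop} {τ c y : ℝ} (hM : Mix lam L N G τ c y)
    {u b : Cfg D → ℝ} {U E : ℝ} (hU : 0 ≤ U) (hE : 0 ≤ E) (hu : ∀ η, 0 ≤ u η ∧ u η ≤ U)
    (hb : ∀ η, 0 ≤ b η)
    (ih : ∀ (j : ℕ) (η η' : Cfg D), AgrP (j * L) η η' →
      u η - u η' ≤ 4 * y / c / 2 ^ j + E * (τ + b η + b η'))
    {n j : ℕ} {w w' : Cfg D} (hw : G (n + 1) w) (hw' : G (n + 1) w') (ha : Agr (j * L) w w') :
    tt lam L N w + Kk lam L N u w - (tt lam L N w' + Kk lam L N u w') ≤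
      4 * y / c / 2 ^ j + (E + U + 4 * y / c) * τ +
        E * (Kk lam L N b w + Kk lam L N b w') := by
  have hc := hM.c0
  have hτ := hM.pos
  have hy := hM.y0
  obtain ⟨Y, hY⟩ : ∃ Y, Y = 4 * y / c := ⟨_, rfl⟩
  rw [← hY] at ih ⊢
  have hcY : c * Y = 4 * y := by rw [hY]; field_simp
  have hY0 : 0 ≤ Y := by rw [hY]; positivity
  have hyY : 4 * y ≤ Y := by nlinarith [hM.c1]
  have ht : tt lam L N w - tt lam L N w' ≤ y / 2 ^ j :=
    (le_abs_self _).trans (hM.tim n j w w' hw hw' ha)
  have key : ∀ c' : ℝ, c' ≤ ovl lam L N w w' →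
      Kk lam L N u w - Kk lam L N u w' ≤ c' * (Y / 2 ^ (j + 1) + E * τ) + (1 - c') * (Y + E * τ) +
        E * Kk lam L N b w + E * Kk lam L N b w' + τ * U := by
    intro c' hc'
    have h2 : (1 : ℝ) ≤ 2 ^ (j + 1) := one_le_pow₀ (by norm_num)
    have h := hC (V D) (ball (0 : V D) N) (hl lam L N w) (hl lam L N w')
      (fun z => u (shift z w)) (fun z => u (shift z w')) (fun z => E * b (shift z w))
      (fun z => E * b (shift z w')) (Y / 2 ^ (j + 1) + E * τ) (Y + E * τ) U τ c'
      (fun z => ⟨hl_nonneg _ _, hl_nonneg _ _, mul_nonneg hE (hb _), mul_nonneg hE (hb _),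
        (hu _).2, (hu _).1⟩) hU hτ (by positivity)
      (by have := div_le_self hY0 h2; linarith)
      (by rw [hl_sum]; exact ms_le_one L N) (by rw [hl_sum]; exact ms_le_one L N)
      (by rw [hl_sum]; exact hM.mass n w' hw') hc'
      (fun z _ h1 _ => by
        have := ih (j + 1) _ _ (agrP_shift ha (hl_lev h1))
        linarith)
      (fun z _ k _ => by
        have := ih 0 (shift z w) (shift k w') (agrP_zero _ _)
        rw [pow_zero, div_one] at this
        linarith)
    rw [Kk_eq u w, Kk_eq u w', Kk_eq b w, Kk_eq b w', mul_sum, mul_sum]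
    refine h.trans (le_of_eq ?_)
    congr 2
    · congr 1
      exact sum_congr rfl fun z _ => by ring
    · exact sum_congr rfl fun z _ => by ring
  rcases Nat.eq_zero_or_pos j with rfl | hj
  · have h := key c (hM.ov0 n w w' hw hw' (by simpa using ha))
    have h1 : 0 ≤ Y * τ := mul_nonneg hY0 hτ
    simp only [zero_add, pow_one, pow_zero, div_one] at h ht ⊢
    nlinarith
  · have h := key _ (hM.ov1 n j w w' hj hw hw' ha)
    obtain ⟨r, hr⟩ : ∃ r : ℝ, r = 1 / 2 ^ j := ⟨_, rfl⟩
    have hr0 : 0 ≤ r := by rw [hr]; positivity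
    have e1 : Y / 2 ^ (j + 1) = Y * r / 2 := by rw [hr, pow_succ]; field_simp
    have e2 : (1 : ℝ) / (8 * 2 ^ j) = r / 8 := by rw [hr]; field_simp
    have e3 : y / 2 ^ j = y * r := by rw [hr]; field_simp
    have e4 : Y / 2 ^ j = Y * r := by rw [hr]; field_simp
    rw [e1, e2] at h
    rw [e3] at ht
    rw [e4]
    have h1 : 0 ≤ Y * r := mul_nonneg hY0 hr0
    have h2 : 0 ≤ Y * r * τ := mul_nonneg h1 hτ
    have h3 : 0 ≤ Y * r * r := mul_nonneg h1 hr0
    have h4 : 4 * y * r ≤ Y * r := mul_le_mul_of_nonneg_right hyY hr0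
    nlinarith

end MixS

open MixS in
theorem mixS (hV : VBStmt) (hF : FRStmt) (hC : CPLStmt) : MIXStmt := by
  intro D p lam L N G τ c y h0 h1 hM
  have := perc_prob D h0 h1
  obtain ⟨vo, vi, vf, vb, vr⟩ := hV D p h0 h1
  obtain ⟨⟨vt, vt'⟩, vk, vk', vn⟩ := vr lam L N
  have hc := hM.c0
  have hτ := hM.pos
  have hy := hM.y0
  have hY0 : 0 ≤ 4 * y / c := by positivity
  have one : ∀ (n j : ℕ) (η η' : Cfg D), AgrP (j * L) η η' →
      Fr p (Vn lam L N n) η - Fr p (Vn lam L N n) η' ≤
        4 * y / c / 2 ^ j + n * (n * N + 4 * y / c) * (τ + bad p (G n) η + bad p (G n) η') := by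
    intro n
    induction n with
    | zero =>
      intro j η η' _
      simp only [Fr, Vn, integral_zero, sub_zero, Nat.cast_zero, zero_mul, add_zero]
      positivity
    | succ n ih =>
      intro j η η' ha
      obtain ⟨E, hE⟩ : ∃ E : ℝ, E = n * (n * N + 4 * y / c) := ⟨_, rfl⟩
      have hE0 : 0 ≤ E := by rw [hE]; positivity
      rw [← hE] at ih
      obtain ⟨b1, b2, b3⟩ := vb (G n) (hM.meas n)
      obtain ⟨c1, c2, c3⟩ := vb (G (n + 1)) (hM.meas (n + 1))
      have hu : BM (Fr p (Vn lam L N n)) := vf _ (vn n).1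
      have hu' : ∀ η : Cfg D, 0 ≤ Fr p (Vn lam L N n) η ∧ Fr p (Vn lam L N n) η ≤ n * N :=
        fun η => ((vn n).2 η).2
      have hnN : (0 : ℝ) ≤ n * N := by positivity
      have e1 : ∀ ζ : Cfg D, Fr p (Vn lam L N (n + 1)) ζ =
          ∫ ω, (tt lam L N (ovw (Past D) ζ ω) +
            Kk lam L N (Fr p (Vn lam L N n)) (ovw (Past D) ζ ω)) ∂perc D p := by
        intro ζ
        have h := (hF D p lam h0 h1 _ (vn n).1).2 L N ζ
        rw [integral_add (vi _ _ vt (vo _ ζ)) (vi _ _ (vk _ hu) (vo _ ζ))]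
        have h' : Fr p (Vn lam L N (n + 1)) ζ = ∫ ω, (tt lam L N (ovw (Past D) ζ ω) +
            Kk lam L N (Vn lam L N n) (ovw (Past D) ζ ω)) ∂perc D p := rfl
        rw [h', integral_add (vi _ _ vt (vo _ ζ)) (vi _ _ (vk _ (vn n).1) (vo _ ζ))]
        exact congrArg _ h
      have e2 : ∀ ζ : Cfg D, ∫ ω, Kk lam L N (bad p (G n)) (ovw (Past D) ζ ω) ∂perc D p ≤
          bad p (G (n + 1)) ζ := by
        intro ζ
        have h : Fr p (Kk lam L N fun ω => S3.ind (¬ G n ω)) ζ =
            ∫ ω, Kk lam L N (bad p (G n)) (ovw (Past D) ζ ω) ∂perc D p :=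
          (hF D p lam h0 h1 _ b1).2 L N ζ
        rw [← h]
        refine integral_mono (vi _ _ (vk _ b1) (vo _ ζ)) (vi _ _ c1 (vo _ ζ)) fun ω => ?_
        by_cases hg : G (n + 1) (ovw (Past D) ζ ω)
        · refine le_trans (le_of_eq ?_) (ind_nonneg _)
          refine sum_eq_zero fun l hl => ?_
          by_cases hw : wr lam (ovw (Past D) ζ ω) 0 l = 0
          · rw [hw, zero_mul]
          · exact mul_eq_zero_of_right _ (ind_neg (not_not.2 (hM.inh n _ hg l hl hw)))
        · refine le_trans (vk' _ 1 zero_le_one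
            (fun _ => ⟨ind_nonneg _, ind_le_one _⟩) _).2 (le_of_eq (ind_pos hg).symm)
      have hK : ∀ w : Cfg D, 0 ≤ Kk lam L N (bad p (G n)) w := fun w =>
        sum_nonneg fun l _ => mul_nonneg (wr_nonneg l 0) (b3 _)
      have pw : ∀ w w' : Cfg D, Agr (j * L) w w' →
          tt lam L N w + Kk lam L N (Fr p (Vn lam L N n)) w -
            (tt lam L N w' + Kk lam L N (Fr p (Vn lam L N n)) w') ≤
          (4 * y / c / 2 ^ j + (E + n * N + 4 * y / c) * τ) +
            (E * Kk lam L N (bad p (G n)) w + E * Kk lam L N (bad p (G n)) w') +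
            ((n * N + N) * S3.ind (¬ G (n + 1) w) + (n * N + N) * S3.ind (¬ G (n + 1) w')) := by
        intro w w' hw
        have hN : (0 : ℝ) ≤ n * N + N := by positivity
        have i1 := mul_nonneg hN (ind_nonneg (¬ G (n + 1) w))
        have i2 := mul_nonneg hN (ind_nonneg (¬ G (n + 1) w'))
        by_cases hg : G (n + 1) w ∧ G (n + 1) w'
        · have := good hC hM hnN hE0 hu' b3 ih hg.1 hg.2 hw
          linarith
        · have k1 := mul_nonneg hE0 (hK w)
          have k2 := mul_nonneg hE0 (hK w')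
          have k3 : 0 ≤ 4 * y / c / 2 ^ j + (E + n * N + 4 * y / c) * τ := by positivity
          have t1 := (vt' w).2
          have t2 := (vt' w').1
          have u1 := (vk' _ _ hnN hu' w).2
          have u2 := (vk' _ _ hnN hu' w').1
          rcases not_and_or.1 hg with hg | hg
          · rw [ind_pos hg]
            linarith
          · rw [ind_pos hg]
            linarith
      have j1 := fun ζ : Cfg D => (vi _ _ vt (vo (Past D) ζ)).add (vi _ _ (vk _ hu) (vo (Past D) ζ))
      have j2 := fun ζ : Cfg D => (vi _ _ (vk _ b2) (vo (Past D) ζ)).const_mul E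
      have j3 := fun ζ : Cfg D => (vi _ _ c1 (vo (Past D) ζ)).const_mul ((n : ℝ) * N + N)
      have hI := integral_mono ((j1 η).sub (j1 η'))
        (((integrable_const (4 * y / c / 2 ^ j + (E + n * N + 4 * y / c) * τ)).add
          ((j2 η).add (j2 η'))).add ((j3 η).add (j3 η')))
        fun ω => pw _ _ (agr_ovw ha ω)
      rw [integral_sub' (j1 η) (j1 η'),
        integral_add' ((integrable_const _).add ((j2 η).add (j2 η'))) ((j3 η).add (j3 η')),
        integral_add' (integrable_const _) ((j2 η).add (j2 η')), integral_add' (j2 η) (j2 η'),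
        integral_add' (j3 η) (j3 η'), integral_const_mul, integral_const_mul, integral_const_mul,
        integral_const_mul, integral_const, probReal_univ, one_smul] at hI
      rw [e1 η, e1 η']
      refine le_trans (le_of_eq rfl) (hI.trans ?_)
      have f1 := mul_le_mul_of_nonneg_left (e2 η) hE0
      have f2 := mul_le_mul_of_nonneg_left (e2 η') hE0
      have g1 : ∫ ω, S3.ind (¬ G (n + 1) (ovw (Past D) η ω)) ∂perc D p = bad p (G (n + 1)) η := rfl
      have g2 : ∫ ω, S3.ind (¬ G (n + 1) (ovw (Past D) η' ω)) ∂perc D p = bad p (G (n + 1)) η' :=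
        rfl
      rw [g1, g2]
      have hN : (0 : ℝ) ≤ N := by positivity
      have hE' : E + (n * N + N) + 4 * y / c ≤
          ((n + 1 : ℕ) : ℝ) * (((n + 1 : ℕ) : ℝ) * N + 4 * y / c) := by
        rw [hE]; push_cast; nlinarith
      have hs : 0 ≤ τ + bad p (G (n + 1)) η + bad p (G (n + 1)) η' := by
        have := c3 η; have := c3 η'; linarith
      have m1 := mul_le_mul_of_nonneg_right hE' hs
      have m2 := mul_nonneg hN hτ
      have m3 := mul_nonneg hY0 (c3 η)
      have m4 := mul_nonneg hY0 (c3 η')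
      nlinarith
  intro n j η η' ha
  refine abs_sub_le_iff.2 ⟨one n j η η' ha, ?_⟩
  have := one n j η' η (agrP_symm ha)
  linarith

end Pool.Agent.MP_8c549f_pr.L2

end
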