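import Pool.Agent.MP_8c549f_pr.L2.SpecB

/-! PROJECT L2: moments of the length of first passages. -/

noncomputable section

namespace Pool.Agent.MP_8c549f_pr.L2

open MeasureTheory Finset Real Classical S3
open scoped ENNReal

namespace Mom

theorem tsum_le {a : ℕ → ℝ} {B : ℝ} (h0 : ∀ i, 0 ≤ a i) (h : ∀ n, ∑ i ∈ range n, a i ≤ B) :
    ∑' i, ENNReal.ofReal (a i) ≤ ENNReal.ofReal B :=
  ENNReal.tsum_le_of_sum_range_le fun n => by
    rw [← ENNReal.ofReal_sum_of_nonneg fun i _ => h0 i]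
    exact ENNReal.ofReal_le_ofReal (h n)

theorem sq_sum (n : ℕ) : ∑ i ∈ range n, 1 / ((i : ℝ) + 1) ^ 2 ≤ 2 := by
  have key : ∀ n : ℕ, ∑ i ∈ range n, 1 / ((i : ℝ) + 1) ^ 2 ≤ 2 - 2 / ((n : ℝ) + 1) := by
    intro n
    induction n with
    | zero => simp
    | succ n ih =>
      rw [sum_range_succ]
      push_cast
      have h0 : (0 : ℝ) ≤ n := Nat.cast_nonneg n
      have h1 : 1 / ((n : ℝ) + 1) ^ 2 ≤ 2 / ((n : ℝ) + 1) - 2 / ((n : ℝ) + 1 + 1) := by
        rw [div_sub_div _ _ (by positivity) (by positivity), div_le_div_iff₀ (by positivity)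
          (by positivity)]
        nlinarith [mul_nonneg h0 h0, mul_nonneg h0 (mul_nonneg h0 h0)]
      linarith
  have := key n
  have h2 : 0 ≤ 2 / ((n : ℝ) + 1) := by positivity
  linarith

theorem geo_sum {μ : ℝ} (h0 : 0 < μ) (h1 : μ ≤ 1) (n : ℕ) :
    ∑ i ∈ range n, exp (-(μ / 2 * i)) ≤ 4 / μ := by
  have hr : exp (-(μ / 2)) ≤ 1 - μ / 4 := by
    have a1 := add_one_le_exp (μ / 2)
    have a2 : exp (-(μ / 2)) * exp (μ / 2) = 1 := by rw [← exp_add]; simp
    have a3 := exp_pos (-(μ / 2))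
    nlinarith
  have key : ∀ n : ℕ, μ / 4 * ∑ i ∈ range n, exp (-(μ / 2 * i)) ≤ 1 - exp (-(μ / 2 * n)) := by
    intro n
    induction n with
    | zero => simp
    | succ n ih =>
      rw [sum_range_succ, mul_add]
      have e : exp (-(μ / 2 * ((n + 1 : ℕ) : ℝ))) = exp (-(μ / 2)) * exp (-(μ / 2 * n)) := by
        rw [← exp_add]; congr 1; push_cast; ring
      rw [e]
      have := exp_pos (-(μ / 2 * n))
      nlinarith
  have a := key n
  have b := exp_pos (-(μ / 2 * n))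
  rw [le_div_iff₀ h0]
  linarith

theorem pow_exp {μ : ℝ} (h0 : 0 < μ) (h1 : μ ≤ 1) (m : ℕ) :
    ((m : ℝ) + 1) ^ 6 * exp (-(μ * m)) ≤ 138240 / μ ^ 6 * exp (-(μ / 2 * m)) := by
  have a1 := Real.pow_div_factorial_le_exp (μ / 2 * ((m : ℝ) + 1)) (by positivity) 6
  have a2 : exp (μ / 2 * ((m : ℝ) + 1)) * exp (-(μ * m)) = exp (μ / 2) * exp (-(μ / 2 * m)) := by
    rw [← exp_add, ← exp_add]; congr 1; ring
  have a3 : exp (μ / 2) ≤ 3 :=
    (exp_le_exp.2 (by linarith : μ / 2 ≤ 1)).trans (by linarith [exp_one_lt_d9])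
  have a4 : ((Nat.factorial 6 : ℕ) : ℝ) = 720 := by norm_num [Nat.factorial]
  rw [a4] at a1
  have a5 := exp_pos (-(μ * m))
  have a6 := exp_pos (-(μ / 2 * m))
  have a7 := mul_le_mul_of_nonneg_right a1 a5.le
  rw [a2] at a7
  have a8 : exp (μ / 2) * exp (-(μ / 2 * m)) ≤ 3 * exp (-(μ / 2 * m)) := by gcongr
  rw [div_mul_eq_mul_div, le_div_iff₀ (by positivity)]
  have a9 : (μ / 2 * ((m : ℝ) + 1)) ^ 6 / 720 * exp (-(μ * m)) =
      ((m : ℝ) + 1) ^ 6 * exp (-(μ * m)) * μ ^ 6 / 46080 := by ring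
  rw [a9] at a7
  linarith

theorem tail (hQ : QFStmt) {D : ℕ} {p lam : ℝ} {n₀ : ℕ} {q μ : ℝ} (h : Reg D p lam n₀ q μ)
    (j k m M : ℕ) (hjk : j + k = 6) (h1 : n₀ ≤ M) (h2 : m ^ 2 ≤ M) :
    (SS {l | l ∈ FPS D m ∧ M < l.length} fun l => (l.length : ℝ≥0∞) ^ j * wb true p lam l) ≤
      ENNReal.ofReal (2 ^ j * 2 / (M : ℝ) ^ k) := by
  have hM : (1 : ℝ) ≤ M := by exact_mod_cast h.n1.trans h1
  rw [SS_fiber _ fun l => l.length - (M + 1)]
  refine le_trans (ENNReal.tsum_le_tsum fun i => ?_)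
    (tsum_le (a := fun i => 2 ^ j / (M : ℝ) ^ k * (1 / ((i : ℝ) + 1) ^ 2))
      (fun i => by positivity) fun n => ?_)
  · have e1 : (SS {l | l ∈ {l | l ∈ FPS D m ∧ M < l.length} ∧ l.length - (M + 1) = i}
        fun l => (l.length : ℝ≥0∞) ^ j * wb true p lam l) ≤
        SS {l | l ∈ FPS D m ∧ M + i < l.length}
          fun l => ((M + i + 1 : ℕ) : ℝ≥0∞) ^ j * wb true p lam l := by
      refine SS_mono (fun l hl => ⟨hl.1.1, ?_⟩) fun l hl => ?_
      · have a1 := hl.1.2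
        have a2 := hl.2
        omega
      · have a1 := hl.1.2
        have a2 := hl.2
        rw [show l.length = M + i + 1 by omega]
    refine e1.trans ?_
    rw [SS_mul_left]
    have e2 := ((hQ D p lam (by linarith [h.p0]) h.p1 m).2.2.2 (M + i)).trans
      (h.slab m (M + i) (by omega) (by omega))
    refine (mul_le_mul_right e2 _).trans ?_
    rw [← ENNReal.ofReal_natCast, ← ENNReal.ofReal_pow (Nat.cast_nonneg _),
      ← ENNReal.ofReal_mul (by positivity)]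
    refine ENNReal.ofReal_le_ofReal ?_
    push_cast
    have i0 : (0 : ℝ) ≤ i := Nat.cast_nonneg i
    have b1 : ((M : ℝ) + i + 1) ^ j ≤ 2 ^ j * ((M : ℝ) + i) ^ j := by
      rw [← mul_pow]; gcongr; linarith
    have b2 : (M : ℝ) ^ k ≤ ((M : ℝ) + i) ^ k := by gcongr; linarith
    have b3 : ((i : ℝ) + 1) ^ 2 ≤ ((M : ℝ) + i) ^ 2 :=
      pow_le_pow_left₀ (by positivity) (by linarith) 2
    have b4 : ((M : ℝ) + i) ^ 8 = ((M : ℝ) + i) ^ j * (((M : ℝ) + i) ^ k * ((M : ℝ) + i) ^ 2) := by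
      rw [← pow_add, ← pow_add]; congr 1; omega
    rw [mul_one_div, div_mul_div_comm, mul_one, div_le_div_iff₀ (by positivity) (by positivity),
      b4, ← mul_assoc (2 ^ j)]
    gcongr
  · rw [← mul_sum]
    refine (mul_le_mul_of_nonneg_left (sq_sum n) (by positivity)).trans (le_of_eq ?_)
    ring

end Mom

theorem mom (hQ : QFStmt) : MOMStmt := by
  refine ⟨2000000, by norm_num, fun D p lam n₀ q μ h => ⟨fun G hG hS => ?_, fun m M h1 h2 => ?_⟩⟩
  · have hn : (1 : ℝ) ≤ n₀ := by exact_mod_cast h.n1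
    have m0 := h.m0
    refine le_trans (ENNReal.tsum_le_tsum fun m => ?_)
      (Mom.tsum_le (a := fun m => 3 * (n₀ : ℝ) ^ 3 * (138240 / μ ^ 6) * exp (-(μ / 2 * m)) +
        16 * (1 / ((m : ℝ) + 1) ^ 2)) (fun i => by positivity) fun n => ?_)
    · have t1 : n₀ ≤ n₀ * (m + 1) ^ 2 := Nat.le_mul_of_pos_right _ (by positivity)
      have t2 : m ^ 2 ≤ n₀ * (m + 1) ^ 2 :=
        (Nat.pow_le_pow_left (Nat.le_succ m) 2).trans (Nat.le_mul_of_pos_left _ h.n1)
      rw [SS_split (G m) {l | l.length ≤ n₀ * (m + 1) ^ 2},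
        ENNReal.ofReal_add (by positivity) (by positivity)]
      refine add_le_add ?_ ?_
      · have e1 : (SS (G m ∩ {l | l.length ≤ n₀ * (m + 1) ^ 2})
            fun l => (l.length : ℝ≥0∞) ^ 3 * wb true p lam l) ≤
            SS (G m) fun l => ((n₀ * (m + 1) ^ 2 : ℕ) : ℝ≥0∞) ^ 3 * wb true p lam l := by
          refine SS_mono Set.inter_subset_left fun l hl => ?_
          have a : l.length ≤ n₀ * (m + 1) ^ 2 := hl.2
          gcongr
        refine e1.trans ?_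
        rw [SS_mul_left]
        refine (mul_le_mul_right (hS m) _).trans ?_
        rw [← ENNReal.ofReal_natCast, ← ENNReal.ofReal_pow (Nat.cast_nonneg _),
          ← ENNReal.ofReal_mul (by positivity)]
        refine ENNReal.ofReal_le_ofReal ?_
        push_cast
        have a := mul_le_mul_of_nonneg_left (Mom.pow_exp h.m0 h.m1 m)
          (show 0 ≤ 3 * (n₀ : ℝ) ^ 3 by positivity)
        refine le_trans (le_of_eq ?_) (a.trans (le_of_eq ?_)) <;> ring
      · refine le_trans (SS_mono (fun l hl => ?_) fun _ _ => le_rfl)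
          ((Mom.tail hQ h 3 3 m _ rfl t1 t2).trans (ENNReal.ofReal_le_ofReal ?_))
        · exact ⟨hG m hl.1, not_le.1 hl.2⟩
        push_cast
        have a0 : (1 : ℝ) ≤ ((m : ℝ) + 1) ^ 2 :=
          one_le_pow₀ (by linarith [Nat.cast_nonneg (α := ℝ) m])
        have a1 : ((m : ℝ) + 1) ^ 2 ≤ n₀ * ((m : ℝ) + 1) ^ 2 := le_mul_of_one_le_left (by positivity) hn
        have a2 : (n₀ : ℝ) * ((m : ℝ) + 1) ^ 2 ≤ (n₀ * ((m : ℝ) + 1) ^ 2) ^ 3 :=
          le_self_pow₀ (a0.trans a1) (by norm_num)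
        rw [mul_one_div, show (2 : ℝ) ^ 3 * 2 = 16 by norm_num]
        exact div_le_div_of_nonneg_left (by norm_num) (by positivity) (a1.trans a2)
    · rw [sum_add_distrib, ← mul_sum, ← mul_sum]
      have a1 := mul_le_mul_of_nonneg_left (Mom.geo_sum h.m0 h.m1 n)
        (show 0 ≤ 3 * (n₀ : ℝ) ^ 3 * (138240 / μ ^ 6) by positivity)
      have a2 := Mom.sq_sum n
      have a3 : 1 ≤ (n₀ : ℝ) ^ 3 / μ ^ 7 := by
        rw [le_div_iff₀ (by positivity), one_mul]
        exact (pow_le_one₀ m0.le h.m1).trans (one_le_pow₀ hn)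
      have a4 : 3 * (n₀ : ℝ) ^ 3 * (138240 / μ ^ 6) * (4 / μ) = 1658880 * ((n₀ : ℝ) ^ 3 / μ ^ 7) := by
        field_simp
        norm_num
      rw [mul_div_assoc]
      linarith
  · have := Mom.tail hQ h 1 5 m M rfl h1 h2
    simp only [pow_one] at this
    rwa [show (2 : ℝ) * 2 = 4 by norm_num] at this

end Pool.Agent.MP_8c549f_pr.L2

end
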