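import Pool.Agent.MP_8c549f_pr.L2.SpecB

/-! Row Mp: overwriting and shifting preserve the percolation measure. -/

noncomputable section

namespace Pool.Agent.MP_8c549f_pr.L2

open MeasureTheory Finset Real Classical S3

namespace Mp

theorem meas {D : ℕ} (S : Set (Edge D)) :
    Measurable (fun q : Cfg D × Cfg D => ovw S q.1 q.2) := by
  refine measurable_pi_lambda _ fun e => ?_
  by_cases h : e ∈ S
  · simp only [ovw, h, if_true]
    exact (measurable_pi_apply e).comp measurable_fst
  · simp only [ovw, h, if_false]
    exact (measurable_pi_apply e).comp measurable_snd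

theorem pre {D : ℕ} (S : Set (Edge D)) (s : Finset (Edge D)) (t : Edge D → Set Bool) :
    (fun q : Cfg D × Cfg D => ovw S q.1 q.2) ⁻¹' (Set.pi (s : Set (Edge D)) t) =
      (Set.pi ((s.filter fun e => e ∈ S : Finset (Edge D)) : Set (Edge D)) t) ×ˢ
        (Set.pi ((s.filter fun e => ¬ e ∈ S : Finset (Edge D)) : Set (Edge D)) t) := by
  ext q
  simp only [Set.mem_preimage, Set.mem_pi, Set.mem_prod, Finset.mem_coe, Finset.mem_filter]
  constructor
  · intro h
    refine ⟨fun e he => ?_, fun e he => ?_⟩
    · have := h e he.1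
      simpa only [ovw, he.2, if_true] using this
    · have := h e he.1
      simpa only [ovw, he.2, if_false] using this
  · rintro ⟨h1, h2⟩ e he
    by_cases h : e ∈ S
    · simpa only [ovw, h, if_true] using h1 e ⟨he, h⟩
    · simpa only [ovw, h, if_false] using h2 e ⟨he, h⟩

end Mp

theorem mp : MPStmt := by
  intro D p h0 h1
  have hb := ber_prob h0 h1
  have hp := perc_prob D h0 h1
  refine ⟨fun S => ⟨Mp.meas S, ?_⟩, fun y => ⟨measurable_shift y, ?_⟩⟩
  · refine Measure.eq_infinitePi (fun _ : Edge D => ber p) fun s t ht => ?_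
    rw [Measure.map_apply (Mp.meas S) (MeasurableSet.pi s.countable_toSet fun i _ => ht i),
      Mp.pre, Measure.prod_prod]
    unfold perc
    rw [Measure.infinitePi_pi _ fun i _ => ht i, Measure.infinitePi_pi _ fun i _ => ht i,
      Finset.prod_filter_mul_prod_filter_not]
  · exact Measure.map_infinitePi_infinitePi_of_inj (P := fun _ : Edge D => ber p)
      (f := fun e : Edge D => (e.1 + y, e.2)) fun a b h => by
        simp only [Prod.mk.injEq, add_left_inj] at h
        exact Prod.ext h.1 h.2

end Pool.Agent.MP_8c549f_pr.L2
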