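import Pool.Agent.MP_8c549f_pr.L2.Basic

/-! PROJECT L2: the mean value inequality. -/

noncomputable section

namespace Pool.Agent.MP_8c549f_pr.L2

open MeasureTheory Finset Real Classical S3

namespace Mv

variable {D : ℕ} {lam : ℝ} {ω : Cfg D}

/-- the source term -/
theorem src {h r n : ℕ} {x : V D} {u : V D → ℝ} {F : ℝ} (hx : Wide ω x h) (hF : 0 ≤ F)
    (hu : ∀ y ∈ wb' ω h x r, u y - Pf lam ω u y ≤ F) :
    Gs lam ω (ball x r) n ((ball x r : Set (V D)).indicator fun y => u y - Pf lam ω u y) x ≤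
      n * F := by
  refine (sum_le_card_nsmul _ _ F fun k _ => ?_).trans (by simp)
  refine (Pk_mono_loc (f' := fun _ => F) k (fun _ y => Wide ω y h) x hx
    (fun _ _ y s hy _ hs => wide_step hy hs) fun y hy => ?_).trans (Pk_le hF (fun _ => le_rfl) k x)
  by_cases hb : y ∈ (ball x r : Set (V D))
  · rw [Set.indicator_of_mem hb]
    exact hu y (mem_wb'.2 ⟨mem_ball.1 hb, hy⟩)
  · rw [Set.indicator_of_notMem hb]
    exact hF

/-- the boundary term -/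
theorem bdy {h r n : ℕ} {x : V D} {u : V D → ℝ} {S : ℝ} (hx : Wide ω x h)
    (hu : ∀ y ∈ wb' ω h x (r + 1), u y ≤ S) :
    Gs lam ω (ball x r) (n + 1) ((ball x r : Set (V D))ᶜ.indicator u) x ≤
      S * exq lam ω x r n x := by
  rw [exq, ← Gs_mul]
  refine sum_le_sum fun k _ => Pk_mono_loc k (fun _ y => Wide ω y h ∧ nrm (y - x) ≤ r + 1) x
    ⟨hx, by simp⟩ (fun _ _ y s hy hb hs => ⟨wide_step hy.1 hs, (nrm_step y x s).trans
      (Nat.add_le_add_right (mem_ball.1 hb) 1)⟩) fun y hy => ?_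
  by_cases hb : y ∈ (ball x r : Set (V D))ᶜ
  · rw [Set.indicator_of_mem hb, chi_of_mem hb, mul_one]
    exact hu y (mem_wb'.2 ⟨hy.2, hy.1⟩)
  · rw [Set.indicator_of_notMem hb, chi_of_not hb, mul_zero]

theorem root {X a ρ r : ℝ} {d : ℕ} (hX : 0 ≤ X) (ha : 1 ≤ a) (hρ : 0 < ρ) (hr : 0 < r)
    (h : r ≤ a * ρ) : √(X / ρ ^ d) ≤ a ^ d * √(X / r ^ d) := by
  have h1 : (1 : ℝ) ≤ a ^ d := one_le_pow₀ ha
  rw [← sqrt_sq (zero_le_one.trans h1), ← sqrt_mul (sq_nonneg _), ← mul_div_assoc]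
  refine sqrt_le_sqrt ?_
  rw [div_le_div_iff₀ (by positivity) (by positivity)]
  have h2 : r ^ d ≤ a ^ d * ρ ^ d := by
    rw [← mul_pow]
    exact pow_le_pow_left₀ hr.le h d
  have h3 : a ^ d * ρ ^ d ≤ (a ^ d) ^ 2 * ρ ^ d :=
    mul_le_mul_of_nonneg_right (by nlinarith) (by positivity)
  calc X * r ^ d ≤ X * ((a ^ d) ^ 2 * ρ ^ d) := mul_le_mul_of_nonneg_left (h2.trans h3) hX
    _ = _ := by ring

end Mv

open Mv in
theorem mv (hH : HKStmt) (hE : EXStmt) : MVStmt := by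
  intro D
  obtain ⟨CH, J, hCH, hJ, HK⟩ := hH D
  obtain ⟨CE, ME, hCE, hME, EX⟩ := hE D
  obtain ⟨E, hE8⟩ := exists_nat_ge (8 * CE)
  have hE1 : 1 ≤ E := by
    have : (1 : ℝ) ≤ E := by linarith
    exact_mod_cast this
  obtain ⟨K, hK⟩ : ∃ K, K = E * (3 * J) := ⟨_, rfl⟩
  have hK1 : 1 ≤ K := hK ▸ Nat.mul_pos hE1 (by omega)
  have hK2 : (1 : ℝ) ≤ 2 * K := by
    have : (1 : ℝ) ≤ K := by exact_mod_cast hK1
    linarith
  refine ⟨CH * (2 * K) ^ (D + 1), K * ME, one_le_mul_of_one_le_of_one_le hCH (one_le_pow₀ hK2),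
    Nat.mul_pos hK1 hME, ?_⟩
  intro ω R m h δ rep w G lam x r u F S l0 l1 lr hR hx hM hF hS hu hb
  have m1 : 1 ≤ m := G.h1.trans G.hm
  have m5 : 1 ≤ m ^ 5 := Nat.one_le_pow _ _ m1
  have a1 : K * m ^ 5 ≤ r := (Nat.mul_le_mul_right _ (Nat.le_mul_of_pos_right K hME)).trans hM
  have a2 : ME * m ^ 5 ≤ r := (Nat.mul_le_mul_right _ (Nat.le_mul_of_pos_left ME hK1)).trans hM
  obtain ⟨ρ, hρ⟩ : ∃ ρ, ρ = r / K := ⟨_, rfl⟩
  have b1 : m ^ 5 ≤ ρ := hρ ▸ (Nat.le_div_iff_mul_le hK1).2 (mul_comm K _ ▸ a1)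
  have b2 : K * ρ ≤ r := hρ ▸ Nat.mul_div_le r K
  have b3 : r < K * (ρ + 1) := hρ ▸ Nat.lt_mul_div_succ r hK1
  have b4 : ρ ≤ r := (Nat.le_mul_of_pos_left ρ hK1).trans b2
  have ρ1 : 1 ≤ ρ := m5.trans b1
  have r1 : 1 ≤ r := ρ1.trans b4
  have c1 : E * (3 * J * ρ ^ 2) ≤ r ^ 2 := by
    calc E * (3 * J * ρ ^ 2) = K * ρ ^ 2 := by rw [hK]; ring
      _ ≤ K * K * ρ ^ 2 := Nat.mul_le_mul_right _ (Nat.le_mul_of_pos_right K hK1)
      _ = (K * ρ) ^ 2 := by ring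
      _ ≤ r ^ 2 := Nat.pow_le_pow_left b2 2
  have c2 : 3 * J * ρ ^ 2 ≤ r ^ 2 := (Nat.le_mul_of_pos_left _ hE1).trans c1
  have c3 : ME * m ^ 9 * (3 * J * ρ ^ 2) ≤ r ^ 4 := by
    have : m ^ 4 ≤ r := (Nat.pow_le_pow_right m1 (by norm_num)).trans (b1.trans b4)
    calc ME * m ^ 9 * (3 * J * ρ ^ 2) = ME * m ^ 5 * m ^ 4 * (3 * J * ρ ^ 2) := by ring
      _ ≤ r * r * r ^ 2 := Nat.mul_le_mul (Nat.mul_le_mul a2 this) c2
      _ = r ^ 4 := by ring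
  have c4 : J * (m ^ 3 + 2 * ρ ^ 2) ≤ 3 * J * ρ ^ 2 := by
    have : m ^ 3 ≤ ρ ^ 2 := ((Nat.pow_le_pow_right m1 (by norm_num)).trans b1).trans
      (Nat.le_self_pow (by norm_num) ρ)
    calc J * (m ^ 3 + 2 * ρ ^ 2) ≤ J * (ρ ^ 2 + 2 * ρ ^ 2) := Nat.mul_le_mul_left _ (by omega)
      _ = 3 * J * ρ ^ 2 := by ring
  have e1 := EX ω R m h δ rep w G lam x r _ l0 l1 lr hR hx r1 c3
  have e2 := HK ω R m h δ rep w G lam x ρ r _ u l0 l1 lr
    ((Nat.le_self_pow (by norm_num) m).trans b1) b4 hR hx c4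
  generalize 3 * J * ρ ^ 2 = n at c1 c2 e1 e2
  have rp : (0 : ℝ) < r := by exact_mod_cast r1
  have ρp : (0 : ℝ) < ρ := by exact_mod_cast ρ1
  have f1 : CE * n / (r : ℝ) ^ 2 ≤ 1 / 8 := by
    have k1 : (E : ℝ) * n ≤ (r : ℝ) ^ 2 := by exact_mod_cast c1
    have k2 := mul_le_mul_of_nonneg_right hE8 (Nat.cast_nonneg (α := ℝ) n)
    rw [div_le_iff₀ (by positivity)]
    linarith
  have f2 : (n : ℝ) * F ≤ (r : ℝ) ^ 2 * F :=
    mul_le_mul_of_nonneg_right (by exact_mod_cast c2) hF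
  have f3 : (r : ℝ) ≤ 2 * K * ρ := by
    have : r ≤ 2 * K * ρ := by nlinarith
    exact_mod_cast this
  have f4 := mul_le_mul_of_nonneg_left (root (d := D + 1)
    (sum_nonneg fun y (_ : y ∈ wb' ω h x r) => sq_nonneg (max (u y) 0)) hK2 ρp rp f3)
    (zero_le_one.trans hCH)
  have f5 := mul_le_mul_of_nonneg_left (e1.trans f1) hS
  have f6 := src (n := n) hx hF hu
  have f7 := bdy (lam := lam) (n := n) hx hb
  rw [dyn (lam := lam) (ω := ω) (ball x r) u n x, mul_assoc]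
  linarith

end Pool.Agent.MP_8c549f_pr.L2

end
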