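import Pool.Agent.MP_8c549f_pr.L2.Basic

/-! PROJECT L2, row Nicef: formal properties of the good events. -/

noncomputable section

namespace Pool.Agent.MP_8c549f_pr.L2

open MeasureTheory Finset Real Classical S3

namespace Nicef

variable {D : ℕ}

theorem bad_shift {ω : Cfg D} {y v : V D} : badS (shift y ω) v ↔ badS ω (v + y) := by
  simp only [badS, shift_edge]

theorem ch_shift {ω : Cfg D} {y v : V D} {t : ℕ} (h : Ch (shift y ω) v t) : Ch ω (v + y) t := by
  obtain ⟨h0, c, h1, h2⟩ := h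
  refine ⟨bad_shift.1 h0, c + y, by simpa using h1, ?_⟩
  clear h1
  induction h2 with
  | refl => exact .refl
  | tail _ hbc ih => exact ih.tail ⟨by simpa using hbc.1, bad_shift.1 hbc.2⟩

theorem gd_shift {ω : Cfg D} {y z : V D} {R t : ℕ} (h : Gd ω (z + y) R t) :
    Gd (shift y ω) z R t := fun v hv hc => h (v + y) (by simpa using hv) (ch_shift hc)

theorem gd_shift_iff {ω : Cfg D} {y z : V D} {R t : ℕ} :
    Gd (shift y ω) z R t ↔ Gd ω (z + y) R t := by
  refine ⟨fun h => ?_, gd_shift⟩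
  have e : ω = shift (-y) (shift y ω) := by rw [shift_shift]; simp
  rw [e]
  exact gd_shift (by simpa using h)

theorem wz_shift (A h : ℕ) (ω : Cfg D) (y z : V D) :
    wz A h (shift y ω) z = wz A h ω (z + y) := by
  simp only [wz, gd_shift_iff]

theorem bad_anti {ω ω' : Cfg D} (H : ∀ e, ω e = true → ω' e = true) {v : V D} (h : badS ω' v) :
    badS ω v := by
  obtain ⟨s, hs⟩ := h
  refine ⟨s, ?_⟩
  cases e : ω (edge v s) with
  | false => rfl
  | true => rw [H _ e] at hs; exact absurd hs (by simp)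

theorem ch_anti {ω ω' : Cfg D} (H : ∀ e, ω e = true → ω' e = true) {v : V D} {t : ℕ}
    (h : Ch ω' v t) : Ch ω v t := by
  obtain ⟨h0, c, h1, h2⟩ := h
  exact ⟨bad_anti H h0, c, h1, rtg_mono (fun _ _ k => ⟨k.1, bad_anti H k.2⟩) h2⟩

theorem gd_up {ω ω' : Cfg D} (H : ∀ e, ω e = true → ω' e = true) {z : V D} {R t : ℕ}
    (h : Gd ω z R t) : Gd ω' z R t := fun v hv hc => h v hv (ch_anti H hc)

theorem wz_anti {ω ω' : Cfg D} (H : ∀ e, ω e = true → ω' e = true) (A h : ℕ) (z : V D) :
    wz A h ω' z ≤ wz A h ω z := by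
  unfold wz
  refine add_le_add le_rfl (sum_le_sum fun t _ => mul_le_mul_of_nonneg_left ?_ (by positivity))
  exact ind_mono fun k k' => k (gd_up H k')

theorem meas_ch (v : V D) (t : ℕ) : MeasurableSet {ω : Cfg D | Ch ω v t} := by
  refine Dep.measurableSet (S := (near (ball v (t + 1)) : Set (Edge D))) (fun ω ω' h => ?_)
    (Finset.finite_toSet _)
  have k : ∀ x, nrm (x - v) ≤ t + 1 → ∀ s, ω (edge x s) = ω' (edge x s) := fun x hx s =>
    h _ (Finset.mem_coe.2 (mem_near.2 ⟨x, mem_ball.2 hx, s, rfl⟩))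
  exact propext ⟨Ch_local k, Ch_local fun x hx s => (k x hx s).symm⟩

theorem meas_gd (z : V D) (R t : ℕ) : MeasurableSet {ω : Cfg D | Gd ω z R t} := by
  have e : {ω : Cfg D | Gd ω z R t} =
      ⋂ v : V D, ⋂ _ : nrm (v - z) ≤ R, {ω : Cfg D | Ch ω v t}ᶜ := by
    ext ω; simp [Gd]
  rw [e]
  exact MeasurableSet.iInter fun v => MeasurableSet.iInter fun _ => (meas_ch v t).compl

theorem meas_wz (A h : ℕ) (z : V D) : Measurable fun ω : Cfg D => wz A h ω z := by
  unfold wz
  refine measurable_const.add (Finset.measurable_sum _ fun t _ => measurable_const.mul ?_)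
  unfold S3.ind
  exact Measurable.ite (meas_gd z (20 * t) t).compl measurable_const measurable_const

theorem meas_nice (A m h : ℕ) (δ : ℝ) (R : ℕ) :
    MeasurableSet {ω : Cfg D | Nice A m h δ R ω} := by
  have e : {ω : Cfg D | Nice A m h δ R ω} = {ω : Cfg D | Gd ω 0 (R + 40 * h) h} ∩
      ⋂ z : V D, ⋂ i : Fin (D + 1), ⋂ _ : nrm z ≤ R + m, {ω : Cfg D |
        ∑ k ∈ range m, (wz A h ω (z + Pi.single i (k : ℤ)) - 1) ≤ δ * m} := by
    ext ω; simp only [Nice, Set.mem_ofPred_eq, Set.mem_inter_iff, Set.mem_iInter]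
  rw [e]
  refine (meas_gd _ _ _).inter (MeasurableSet.iInter fun z => MeasurableSet.iInter fun i =>
    MeasurableSet.iInter fun _ => measurableSet_le ?_ measurable_const)
  exact Finset.measurable_sum _ fun k _ => (meas_wz A h _).sub measurable_const

theorem meas_wide (h : ℕ) : MeasurableSet {ω : Cfg D | Wide ω 0 h} := by
  have e : {ω : Cfg D | Wide ω 0 h} = ⋃ a : V D, ⋃ b : V D, ⋃ _ : 12 * h ≤ nrm (a - b),
      {ω : Cfg D | Conn ω 0 a} ∩ {ω : Cfg D | Conn ω 0 b} := by
    ext ω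
    simp only [Wide, Set.mem_ofPred_eq, Set.mem_iUnion, Set.mem_inter_iff]
    exact ⟨fun ⟨a, b, h1, h2, h3⟩ => ⟨a, b, h3, h1, h2⟩, fun ⟨a, b, h3, h1, h2⟩ => ⟨a, b, h1, h2, h3⟩⟩
  rw [e]
  exact MeasurableSet.iUnion fun a => MeasurableSet.iUnion fun b => MeasurableSet.iUnion fun _ =>
    (measurableSet_conn 0 a).inter (measurableSet_conn 0 b)

theorem wide_line {ω : Cfg D}
    (H : ∀ k : ℕ, ω (edge (Pi.single 0 (-(k : ℤ))) (bck D)) = true) (h : ℕ) : Wide ω 0 h := by
  have k : ∀ n : ℕ, Conn ω 0 (Pi.single 0 (-(n : ℤ))) := by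
    intro n
    induction n with
    | zero => simpa using Conn.refl ω 0
    | succ n ih =>
      have e : (Pi.single 0 (-((n + 1 : ℕ) : ℤ)) : V D) =
          Pi.single 0 (-(n : ℤ)) + vec (bck D) := by
        rw [vec_bck, ← Pi.single_neg, ← Pi.single_add]; congr 1; push_cast; ring
      rw [e]
      exact ih.trans (Conn.step (H n))
  refine ⟨_, 0, k (12 * h), Conn.refl ω 0, ?_⟩
  rw [sub_zero, nrm_single, Int.natAbs_neg, Int.natAbs_natCast]

theorem lev_edge (k : ℕ) :
    (edge (Pi.single 0 (-(k : ℤ)) : V D) (bck D)).1 0 = -(k : ℤ) - 1 := by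
  simp [bck]

end Nicef

theorem nicef : NICEFStmt := by
  intro D A m h δ
  refine ⟨Nicef.meas_nice A m h δ, Nicef.meas_wide h, ?_, ?_, ?_, ?_⟩
  · rintro R R' y ω hR ⟨h1, h2⟩
    refine ⟨Nicef.gd_shift (h1.mono (by simp only [zero_add, sub_zero]; omega)), fun z i hz => ?_⟩
    have := h2 (z + y) i (by have := nrm_add_le z y; omega)
    simpa only [Nicef.wz_shift, add_right_comm _ _ y] using this
  · rintro R ω ω' H ⟨h1, h2⟩
    refine ⟨Nicef.gd_up H h1, fun z i hz => le_trans (sum_le_sum fun k _ => ?_) (h2 z i hz)⟩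
    exact sub_le_sub_right (Nicef.wz_anti H A h _) 1
  · rintro y ω ⟨a, b, h1, h2, h3⟩
    exact ⟨a - y, b - y, conn_shift.2 (by simpa using h1), conn_shift.2 (by simpa using h2),
      by simpa using h3⟩
  · intro ω
    refine ⟨Nicef.wide_line (fun k => ?_) h, Nicef.wide_line (fun k => ?_) h⟩
    · have e : edge (Pi.single 0 (-(k : ℤ)) : V D) (bck D) ∈ Past D := by
        have := Nicef.lev_edge (D := D) k
        simp only [Past, Set.mem_ofPred_eq]
        omega
      simp only [ovw, if_pos e, allOpen]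
    · unfold op
      split_ifs with c
      · rfl
      · have := Nicef.lev_edge (D := D) k
        have e : k = 0 := by
          by_contra hk
          exact c (Or.inl (by omega))
        subst e
        simpa using plus_bck ω

end Pool.Agent.MP_8c549f_pr.L2

end
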