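import Pool.Agent.MP_8c549f_pr.L2.Basic

/-! PROJECT L2: nice configurations have high probability. -/

noncomputable section

namespace Pool.Agent.MP_8c549f_pr.L2

open MeasureTheory Finset Real Classical S3

namespace Nicep

theorem mm_le (l : ℕ) : mm l ^ 8 ≤ l := by
  have h1 := Nat.sqrt_le' l
  have h2 := Nat.sqrt_le' l.sqrt
  have h3 := Nat.sqrt_le' l.sqrt.sqrt
  calc mm l ^ 8 = ((mm l ^ 2) ^ 2) ^ 2 := by ring
    _ ≤ (l.sqrt.sqrt ^ 2) ^ 2 := Nat.pow_le_pow_left (Nat.pow_le_pow_left h3 2) 2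
    _ ≤ l.sqrt ^ 2 := Nat.pow_le_pow_left h2 2
    _ ≤ l := h1

theorem lt_mm (l : ℕ) : l < (mm l + 1) ^ 8 := by
  have h1 : l + 1 ≤ (l.sqrt + 1) ^ 2 := Nat.lt_succ_sqrt' l
  have h2 : l.sqrt + 1 ≤ (l.sqrt.sqrt + 1) ^ 2 := Nat.lt_succ_sqrt' l.sqrt
  have h3 : l.sqrt.sqrt + 1 ≤ (mm l + 1) ^ 2 := Nat.lt_succ_sqrt' l.sqrt.sqrt
  calc l < (l.sqrt + 1) ^ 2 := h1
    _ ≤ ((l.sqrt.sqrt + 1) ^ 2) ^ 2 := Nat.pow_le_pow_left h2 2
    _ ≤ (((mm l + 1) ^ 2) ^ 2) ^ 2 := Nat.pow_le_pow_left (Nat.pow_le_pow_left h3 2) 2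
    _ = (mm l + 1) ^ 8 := by ring

theorem le_mm {M l : ℕ} (h : M ^ 8 ≤ l) : M ≤ mm l := by
  have := lt_of_pow_lt_pow_left₀ 8 (Nat.zero_le _) (lt_of_le_of_lt h (lt_mm l))
  omega

theorem geom (h : ℕ) : ∑ t ∈ range h, (1 / 2 : ℝ) ^ (t + 1) = 1 - (1 / 2) ^ h := by
  induction h with
  | zero => simp
  | succ n ih => rw [sum_range_succ, ih]; ring

/-- the deterministic part -/
theorem seg_le {D A m h : ℕ} {δ : ℝ} (hA : 2 ≤ A) (hδ : 0 < δ) (ω : Cfg D) (z : V D)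
    (i : Fin (D + 1))
    (H : ∀ t ∈ Ico 1 h, ∑ k ∈ range m, S3.ind (¬ Gd ω (z + Pi.single i (k : ℤ)) (20 * t) t) ≤
      δ * m / (2 * A : ℝ) ^ (t + 1)) :
    ∑ k ∈ range m, (wz A h ω (z + Pi.single i (k : ℤ)) - 1) ≤ δ * m := by
  have hA0 : (0 : ℝ) < A := by exact_mod_cast (by omega : 0 < A)
  have e : ∀ k : ℕ, wz A h ω (z + Pi.single i (k : ℤ)) - 1 =
      ∑ t ∈ Ico 1 h, (A : ℝ) ^ (t + 1) * S3.ind (¬ Gd ω (z + Pi.single i (k : ℤ)) (20 * t) t) := fun k => by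
    unfold wz; ring
  have hm : 0 ≤ δ * m := by positivity
  simp only [e]
  rw [sum_comm]
  calc _ ≤ ∑ t ∈ Ico 1 h, δ * m * (1 / 2 : ℝ) ^ (t + 1) := by
        refine sum_le_sum fun t ht => ?_
        rw [← mul_sum]
        refine (mul_le_mul_of_nonneg_left (H t ht) (by positivity)).trans (le_of_eq ?_)
        rw [mul_pow, one_div, inv_pow]
        field_simp
    _ ≤ ∑ t ∈ range h, δ * m * (1 / 2 : ℝ) ^ (t + 1) := by
        refine sum_le_sum_of_subset_of_nonneg (fun t ht => ?_) fun t _ _ => by positivity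
        exact mem_range.2 (mem_Ico.1 ht).2
    _ ≤ δ * m := by
        rw [← mul_sum, geom]
        have : (0 : ℝ) ≤ (1 / 2) ^ h := by positivity
        nlinarith

theorem exp_le {γ G : ℝ} (hG : 0 < G) (h : G ≤ γ) (n : ℕ) : exp (-(γ * n)) ≤ 1 / G ^ n := by
  have h1 : G ≤ exp γ := by have := add_one_le_exp γ; linarith
  rw [exp_neg, mul_comm, exp_nat_mul, one_div]
  exact inv_anti₀ (by positivity) (pow_le_pow_left₀ hG.le h1 n)

theorem lin_le (c t : ℕ) : c * t + 1 ≤ (c + 1) ^ (t + 1) := by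
  have h := one_add_mul_le_pow (a := (c : ℤ)) (by omega) t
  have h2 : c * t + 1 ≤ (c + 1) ^ t := by
    zify; rw [add_comm (c : ℤ) 1]; linarith
  exact h2.trans (Nat.pow_le_pow_right (by omega) (by omega))

/-- the first term of the exponent is at most half of the second -/
theorem half {d t : ℕ} {B δ γ m : ℝ} (hB : 0 < B) (hδ : 0 < δ) (hm : 0 ≤ m) (ht : 1 ≤ t)
    (hγ : 41 ^ d * 201 * B * (1 + 1 / δ) ≤ γ) :
    (40 * t + 1 : ℝ) ^ d * exp (-(γ * (t + 1))) * m - δ * m / B ^ (t + 1) / (100 * t) ≤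
      -(δ * m / (200 * (B ^ (t + 1) * t))) := by
  have ht0 : (0 : ℝ) < t := by exact_mod_cast ht
  have h1 : (40 * t + 1 : ℝ) ≤ 41 ^ (t + 1) := by exact_mod_cast lin_le 40 t
  have h2 : (200 * t + 1 : ℝ) ≤ 201 ^ (t + 1) := by exact_mod_cast lin_le 200 t
  have h3 : 1 / δ ≤ (1 + 1 / δ) ^ (t + 1) := by
    have : 0 < 1 / δ := by positivity
    exact le_trans (by linarith) (le_self_pow₀ (by linarith) (by omega))
  have h4 := exp_le (by positivity) hγ (t + 1)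
  push_cast at h4
  have h5 : (40 * t + 1 : ℝ) ^ d ≤ (41 ^ d) ^ (t + 1) := by
    rw [← pow_mul, mul_comm d, pow_mul]
    exact pow_le_pow_left₀ (by positivity) h1 d
  have h6 : (40 * t + 1 : ℝ) ^ d * (200 * (B ^ (t + 1) * t)) * (1 / δ) ≤
      (41 ^ d * 201 * B * (1 + 1 / δ)) ^ (t + 1) := by
    rw [mul_pow, mul_pow, mul_pow]
    refine mul_le_mul ?_ h3 (by positivity) (by positivity)
    rw [show (40 * t + 1 : ℝ) ^ d * (200 * (B ^ (t + 1) * t)) =
      (40 * t + 1 : ℝ) ^ d * (200 * t) * B ^ (t + 1) by ring]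
    exact mul_le_mul_of_nonneg_right
      (mul_le_mul h5 (by linarith) (by positivity) (by positivity)) (by positivity)
  have h7 : (40 * t + 1 : ℝ) ^ d * exp (-(γ * (t + 1))) ≤ δ / (200 * (B ^ (t + 1) * t)) := by
    refine (mul_le_mul_of_nonneg_left h4 (by positivity)).trans ?_
    rw [mul_one_div, div_le_div_iff₀ (by positivity) (by positivity)]
    have := mul_le_mul_of_nonneg_left h6 hδ.le
    refine le_trans (le_of_eq ?_) this
    field_simp
  have h8 := mul_le_mul_of_nonneg_right h7 hm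
  have e1 : δ * m / B ^ (t + 1) / (100 * t) = 2 * (δ / (200 * (B ^ (t + 1) * t)) * m) := by
    field_simp; ring
  have e2 : δ * m / (200 * (B ^ (t + 1) * t)) = δ / (200 * (B ^ (t + 1) * t)) * m := by ring
  rw [e1, e2]; linarith

/-- stretched exponential against a power -/
theorem tail {k : ℕ} {δ m w : ℝ} (hδ : 0 < δ) (hm : 0 < m) (hw : 0 < w) (h : w ^ 2 ≤ m) :
    exp (-(δ * m / (200 * w))) ≤ ((2 * k).factorial * (40000 / δ ^ 2) ^ k) / m ^ k := by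
  have hu : 0 < δ * m / (200 * w) := by positivity
  have h1 := Real.pow_div_factorial_le_exp _ hu.le (2 * k)
  have h2 : m / (40000 / δ ^ 2) ≤ (δ * m / (200 * w)) ^ 2 := by
    rw [div_pow, div_le_div_iff₀ (by positivity) (by positivity)]
    have : (δ * m) ^ 2 * (40000 / δ ^ 2) = m * (40000 * m) := by field_simp
    rw [this]
    exact mul_le_mul_of_nonneg_left (by nlinarith) hm.le
  have h3 := pow_le_pow_left₀ (by positivity) h2 k
  rw [← pow_mul, div_pow] at h3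
  have hf : (0 : ℝ) < (2 * k).factorial := by exact_mod_cast Nat.factorial_pos _
  rw [exp_neg, ← inv_div ((m : ℝ) ^ k)]
  refine inv_anti₀ (by positivity) (le_trans ?_ h1)
  rw [mul_comm, ← div_div]
  exact div_le_div_of_nonneg_right h3 hf.le

theorem count {m l K c : ℕ} (hm : 83 ≤ m) (hl : l ≤ m ^ 16) (hc : c ≤ 40 * m) :
    2 * (l ^ K + c) + 1 ≤ m ^ (16 * K + 2) := by
  have h1 : l ^ K ≤ m ^ (16 * K) := by rw [pow_mul]; exact Nat.pow_le_pow_left hl K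
  have h2 : m ^ (16 * K) ≤ m ^ (16 * K + 1) := Nat.pow_le_pow_right (by omega) (by omega)
  have h3 : m ≤ m ^ (16 * K + 1) := Nat.le_self_pow (by omega) m
  have h4 : 83 * m ^ (16 * K + 1) ≤ m * m ^ (16 * K + 1) := Nat.mul_le_mul_right _ hm
  have h5 : m ^ (16 * K + 2) = m * m ^ (16 * K + 1) := by ring
  omega

theorem sub {D A : ℕ} {δ : ℝ} (hA : 2 ≤ A) (hδ : 0 < δ) (m h R : ℕ) :
    {ω : Cfg D | ¬ Nice A m h δ R ω} ⊆ {ω | ∃ v ∈ ball (0 : V D) (R + 40 * h), Ch ω v h} ∪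
      {ω | ∃ z ∈ ball (0 : V D) (R + m), ∃ i ∈ (univ : Finset (Fin (D + 1))),
        ∃ t ∈ Ico 1 h, δ * m / (2 * A : ℝ) ^ (t + 1) ≤
          ∑ j ∈ range m, S3.ind (¬ Gd ω (z + Pi.single i (j : ℤ)) (20 * t) t)} := by
  intro ω hω
  rw [Set.mem_union, Set.mem_ofPred_eq, Set.mem_ofPred_eq]
  rw [Set.mem_ofPred_eq] at hω
  by_contra hn
  obtain ⟨n1, n2⟩ := not_or.1 hn
  apply hω
  constructor
  · intro v hv hc
    exact n1 ⟨v, mem_ball.2 hv, hc⟩
  · intro z i hz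
    have hz' : z ∈ ball (0 : V D) (R + m) := mem_ball.2 (by rw [sub_zero]; exact hz)
    have H : ∀ t ∈ Ico 1 h, ∑ k ∈ range m, S3.ind (¬ Gd ω (z + Pi.single i (k : ℤ)) (20 * t) t) ≤
        δ * m / (2 * A : ℝ) ^ (t + 1) := by
      intro t ht
      by_contra hlt
      exact n2 ⟨z, hz', i, mem_univ _, t, ht, (not_le.1 hlt).le⟩
    exact seg_le hA hδ ω z i H

end Nicep

open Nicep in
theorem nicep (hP : PeiStmt) (hS : SEG1Stmt) : NICEPStmt := by
  intro D A K δ hA2 hδ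
  obtain ⟨E, hE⟩ : ∃ E, E = (16 * K + 2) * (D + 1) := ⟨_, rfl⟩
  obtain ⟨k, hk⟩ : ∃ k, k = E + 16 * K + 3 := ⟨_, rfl⟩
  obtain ⟨C, hC⟩ : ∃ C : ℝ, C = (2 * k).factorial * (40000 / δ ^ 2) ^ k := ⟨_, rfl⟩
  have hC0 : 0 ≤ C := by rw [hC]; positivity
  have hA0 : (0 : ℝ) < 2 * A := by
    have : (0 : ℝ) < A := by exact_mod_cast (by omega : 0 < A)
    linarith
  obtain ⟨γ, hγ1, hγ2⟩ : ∃ γ : ℝ, 41 ^ (D + 1) * 201 * (2 * A : ℝ) * (1 + 1 / δ) ≤ γ ∧
      (2 * A : ℝ) ^ (4 * k) ≤ γ := ⟨max _ _, le_max_left _ _, le_max_right _ _⟩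
  obtain ⟨e₀, he₀, hp⟩ := hP D γ
  obtain ⟨M, hM⟩ := exists_nat_ge (100 * (D + 1) * C)
  refine ⟨e₀, (83 + (2 * A) ^ 8 + M) ^ 8, he₀, fun p l hp1 hp2 hp0 hl => ?_⟩
  have hm := le_mm hl
  have hlt := lt_mm l
  have hle := mm_le l
  have hh : hA A l = Nat.log (2 * A) (mm l) / 4 := rfl
  generalize hA A l = h at hh ⊢
  generalize mm l = m at hm hlt hle hh ⊢
  have hm83 : 83 ≤ m := by omega
  have hB1 : 1 < 2 * A := by omega
  have hL8 : 8 ≤ Nat.log (2 * A) m := Nat.le_log_of_pow_le hB1 (by omega)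
  have hx4 : ((2 * A) ^ h) ^ 4 ≤ m := by
    rw [← pow_mul]
    exact (Nat.pow_le_pow_right (by omega) (by omega)).trans
      (Nat.pow_log_le_self (2 * A) (by omega : m ≠ 0))
  have hx5 : m ≤ ((2 * A) ^ 4) ^ (h + 1) := by
    rw [← pow_mul]
    exact (Nat.lt_pow_succ_log_self hB1 m).le.trans (Nat.pow_le_pow_right (by omega) (by omega))
  have hhx : h ≤ (2 * A) ^ h := (Nat.lt_pow_self hB1).le
  have hhm : h ≤ m := hhx.trans ((Nat.le_self_pow (by omega) _).trans hx4)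
  have hl16 : l ≤ m ^ 16 := by
    have : m + 1 ≤ m ^ 2 := by nlinarith
    calc l ≤ (m + 1) ^ 8 := hlt.le
      _ ≤ (m ^ 2) ^ 8 := Nat.pow_le_pow_left this 8
      _ = m ^ 16 := by ring
  refine ⟨by omega, hhm, hle, ?_⟩
  have := perc_prob D hp0 hp2
  have hmR : (83 : ℝ) ≤ m := by exact_mod_cast hm83
  have hm0 : (0 : ℝ) < m := by linarith
  have hl0 : (0 : ℝ) < l := by
    have : 0 < l := lt_of_lt_of_le (pow_pos (by omega) 8) hle
    exact_mod_cast this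
  have hcard : ∀ c : ℕ, c ≤ 40 * m → ((ball (0 : V D) (l ^ K + c)).card : ℝ) ≤ (m : ℝ) ^ E := by
    intro c hc
    rw [card_ball, hE, pow_mul]
    exact_mod_cast Nat.pow_le_pow_left (count hm83 hl16 hc) (D + 1)
  -- the sites
  have b1 : (perc D p).real {ω | ∃ v ∈ ball (0 : V D) (l ^ K + 40 * h), Ch ω v h} ≤
      (m : ℝ) ^ E * (1 / (m : ℝ) ^ k) := by
    have hq : ∀ v ∈ ball (0 : V D) (l ^ K + 40 * h),
        (perc D p).real {ω | Ch ω v h} ≤ 1 / (m : ℝ) ^ k := by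
      intro v _
      have h1 := exp_le (by positivity) hγ2 (h + 1)
      push_cast at h1
      refine ((hp p hp1 hp2 hp0 v h).trans h1).trans ?_
      refine one_div_le_one_div_of_le (by positivity) ?_
      have h2 : (m : ℝ) ≤ ((2 * A) ^ 4) ^ (h + 1) := by exact_mod_cast hx5
      calc (m : ℝ) ^ k ≤ (((2 * A) ^ 4) ^ (h + 1)) ^ k := pow_le_pow_left₀ hm0.le h2 k
        _ = _ := by rw [← pow_mul, ← pow_mul, ← pow_mul]; congr 1; ring
    exact (real_exists_le hp0 hp2 _ _ hq).trans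
      (mul_le_mul_of_nonneg_right (hcard _ (by omega)) (by positivity))
  -- the segments
  have b2 : (perc D p).real {ω | ∃ z ∈ ball (0 : V D) (l ^ K + m), ∃ i ∈ (univ : Finset (Fin (D + 1))),
      ∃ t ∈ Ico 1 h, δ * m / (2 * A : ℝ) ^ (t + 1) ≤
        ∑ j ∈ range m, S3.ind (¬ Gd ω (z + Pi.single i (j : ℤ)) (20 * t) t)} ≤
      (m : ℝ) ^ E * ((D + 1) * (m * (50 * m * (C / (m : ℝ) ^ k)))) := by
    refine (real_exists_le hp0 hp2 _ _ (c := (D + 1) * (m * (50 * m * (C / (m : ℝ) ^ k))))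
      fun z _ => ?_).trans (mul_le_mul_of_nonneg_right (hcard _ (by omega)) (by positivity))
    refine (real_exists_le hp0 hp2 _ _ (c := m * (50 * m * (C / (m : ℝ) ^ k)))
      fun i _ => ?_).trans (le_of_eq (by simp))
    have hc : ((Ico 1 h).card : ℝ) ≤ m := by
      rw [Nat.card_Ico]; exact_mod_cast (by omega : h - 1 ≤ m)
    refine (real_exists_le hp0 hp2 _ _ (c := 50 * m * (C / (m : ℝ) ^ k))
      fun t ht => ?_).trans (mul_le_mul_of_nonneg_right hc (by positivity))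
    obtain ⟨t1, t2⟩ := mem_Ico.1 ht
    have ht0 : (0 : ℝ) < t := by exact_mod_cast t1
    refine (hS D p hp0 hp2 z i m t _ _ t1 (exp_pos _).le fun v => hp p hp1 hp2 hp0 v t).trans ?_
    have htm : (t : ℝ) ≤ m := by exact_mod_cast (by omega : t ≤ m)
    refine mul_le_mul (by linarith) ?_ (exp_pos _).le (by positivity)
    refine (exp_le_exp.2 (half hA0 hδ hm0.le t1 hγ1)).trans ?_
    rw [hC]
    refine tail hδ hm0 (by positivity) ?_
    have h1 : (2 * A) ^ (t + 1) ≤ (2 * A) ^ h := Nat.pow_le_pow_right (by omega) (by omega)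
    have h2 : ((2 * A) ^ (t + 1) * t) ^ 2 ≤ m := by
      refine le_trans ?_ hx4
      calc _ ≤ ((2 * A) ^ h * (2 * A) ^ h) ^ 2 :=
            Nat.pow_le_pow_left (Nat.mul_le_mul h1 (by omega)) 2
        _ = _ := by ring
    exact_mod_cast h2
  refine le_trans (measureReal_mono (sub hA2 hδ m h (l ^ K)) (measure_ne_top _ _))
    ((measureReal_union_le _ _).trans ((add_le_add b1 b2).trans ?_))
  · have hlK : (l : ℝ) ^ K ≤ (m : ℝ) ^ (16 * K) := by
      rw [pow_mul]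
      exact pow_le_pow_left₀ hl0.le (by exact_mod_cast hl16) K
    refine le_trans ?_ (one_div_le_one_div_of_le (by positivity) hlK)
    have hMm : (M : ℝ) ≤ m := by exact_mod_cast (by omega : M ≤ m)
    have e : (m : ℝ) ^ E * (1 / (m : ℝ) ^ k) +
        (m : ℝ) ^ E * ((D + 1) * (m * (50 * m * (C / (m : ℝ) ^ k)))) =
        (1 + 50 * (D + 1) * C * m ^ 2) / m ^ 3 * (1 / (m : ℝ) ^ (16 * K)) := by
      rw [hk]; field_simp; ring
    rw [e]
    refine mul_le_of_le_one_left (by positivity) ((div_le_one (by positivity)).2 ?_)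
    have h1 : 100 * (D + 1) * C * (m : ℝ) ^ 2 ≤ m * m ^ 2 :=
      mul_le_mul_of_nonneg_right (hM.trans hMm) (by positivity)
    have h2 : (2 : ℝ) ≤ m ^ 3 := le_trans (by linarith) (le_self_pow₀ (by linarith) (by omega))
    nlinarith

end Pool.Agent.MP_8c549f_pr.L2

end
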