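import Pool.Agent.MP_8c549f_pr.L2.Basic

/-! PROJECT L2: the local inequality of Nash. -/

noncomputable section

namespace Pool.Agent.MP_8c549f_pr.L2

open MeasureTheory Finset Real Classical S3

namespace Ns

variable {D : ℕ} {x a z : V D} {r r₁ : ℕ}

theorem mem_box {ρ : Fin (D + 1) → ℕ} : z ∈ box a ρ ↔ ∀ j, a j ≤ z j ∧ z j < a j + ρ j := by
  simp [box, Fintype.mem_piFinset]

theorem card_box (a : V D) (r : ℕ) : (box a fun _ => r).card = r ^ (D + 1) := by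
  simp [box]

/-- the corners of the cubes that meet the ball -/
def cor (x : V D) (r r₁ : ℕ) : Finset (V D) :=
  Fintype.piFinset fun j => Ioc (x j - r₁ - r) (x j + r₁)

/-- the corners of the cubes that contain `z` -/
def cb (z : V D) (r : ℕ) : Finset (V D) := Fintype.piFinset fun j => Ioc (z j - r) (z j)

theorem mem_cor : a ∈ cor x r r₁ ↔ ∀ j, x j - r₁ - r < a j ∧ a j ≤ x j + r₁ := by
  simp only [cor, Fintype.mem_piFinset, mem_Ioc]

theorem mem_cb : a ∈ cb z r ↔ ∀ j, z j - r < a j ∧ a j ≤ z j := by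
  simp only [cb, Fintype.mem_piFinset, mem_Ioc]

theorem card_cb (z : V D) (r : ℕ) : (cb z r).card = r ^ (D + 1) := by
  simp [cb]

theorem mem_ball' {R : ℕ} : z ∈ ball x R ↔ ∀ j, x j - R ≤ z j ∧ z j ≤ x j + R := by
  simp only [ball, Fintype.mem_piFinset, mem_Icc]

theorem box_sub (hr : r ≤ r₁) (ha : a ∈ cor x r r₁) : (box a fun _ => r) ⊆ ball x (2 * r₁) :=
  fun z hz => mem_ball'.2 fun j => by
    have h1 := mem_cor.1 ha j
    have h2 := mem_box.1 hz j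
    push_cast
    omega

theorem swap (hr : r ≤ r₁) (F : V D → ℝ) : ∑ a ∈ cor x r r₁, ∑ z ∈ box a fun _ => r, F z =
    ∑ z ∈ ball x (2 * r₁), ((cor x r r₁ ∩ cb z r).card : ℝ) * F z := by
  rw [sum_comm' (t' := ball x (2 * r₁)) (s' := fun z => cor x r r₁ ∩ cb z r)]
  · simp only [sum_const, nsmul_eq_mul]
  · intro a z
    rw [mem_inter, mem_cb, mem_box]
    constructor
    · rintro ⟨h1, h2⟩
      exact ⟨⟨h1, fun j => by have := h2 j; omega⟩, box_sub hr h1 (mem_box.2 h2)⟩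
    · rintro ⟨⟨h1, h2⟩, -⟩
      exact ⟨h1, fun j => by have := h2 j; omega⟩

theorem upp (hr : r ≤ r₁) {F : V D → ℝ} (hF : ∀ z, 0 ≤ F z) :
    ∑ a ∈ cor x r r₁, ∑ z ∈ box a fun _ => r, F z ≤
      (r : ℝ) ^ (D + 1) * ∑ z ∈ ball x (2 * r₁), F z := by
  rw [swap hr, mul_sum]
  refine sum_le_sum fun z _ => mul_le_mul_of_nonneg_right ?_ (hF z)
  exact_mod_cast (card_le_card inter_subset_right).trans_eq (card_cb z r)

theorem low (hr : r ≤ r₁) {F : V D → ℝ} (hF : ∀ z, 0 ≤ F z) :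
    (r : ℝ) ^ (D + 1) * ∑ z ∈ ball x r₁, F z ≤
      ∑ a ∈ cor x r r₁, ∑ z ∈ box a fun _ => r, F z := by
  rw [swap hr, mul_sum]
  refine le_trans (sum_le_sum fun z hz => le_of_eq ?_) (sum_le_sum_of_subset_of_nonneg
    (ball_mono x (show r₁ ≤ 2 * r₁ by omega)) fun z _ _ => mul_nonneg (Nat.cast_nonneg _) (hF z))
  have : cb z r ⊆ cor x r r₁ := fun a ha => mem_cor.2 fun j => by
    have h1 := mem_cb.1 ha j
    have h2 := mem_ball'.1 hz j
    omega
  rw [inter_eq_right.2 this, card_cb]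
  push_cast
  rfl

/-- the variance on a large subset -/
theorem cube {α : Type} {B X : Finset α} (hB : B ⊆ X) {g G : α → ℝ} (h1 : ∀ z ∈ B, G z = g z)
    (h0 : ∀ z ∈ X, z ∉ B → g z = 0) (hc : (X.card : ℝ) ≤ 2 * B.card) :
    X.card * ∑ z ∈ X, g z ^ 2 ≤ ∑ z ∈ X, ∑ y ∈ X, (G z - G y) ^ 2 + 2 * (∑ z ∈ X, |g z|) ^ 2 := by
  have e1 : ∑ z ∈ X, g z ^ 2 = ∑ z ∈ B, g z ^ 2 :=
    (sum_subset hB fun z a b => by rw [h0 z a b]; ring).symm
  have e2 : ∑ z ∈ B, ∑ y ∈ B, (g z - g y) ^ 2 =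
      2 * B.card * ∑ z ∈ B, g z ^ 2 - 2 * (∑ z ∈ B, g z) ^ 2 := by
    have : ∀ z, ∑ y ∈ B, (g z - g y) ^ 2 =
        B.card * g z ^ 2 - 2 * (∑ y ∈ B, g y) * g z + ∑ y ∈ B, g y ^ 2 := fun z => by
      rw [sum_congr rfl fun y _ => show (g z - g y) ^ 2 = g z ^ 2 - 2 * g z * g y + g y ^ 2 by ring,
        sum_add_distrib, sum_sub_distrib, sum_const, nsmul_eq_mul, ← mul_sum]
      ring
    rw [sum_congr rfl fun z _ => this z, sum_add_distrib, sum_sub_distrib, sum_const, nsmul_eq_mul,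
      ← mul_sum, ← mul_sum]
    ring
  have e3 : ∑ z ∈ B, ∑ y ∈ B, (g z - g y) ^ 2 ≤ ∑ z ∈ X, ∑ y ∈ X, (G z - G y) ^ 2 := by
    refine le_trans (sum_le_sum fun z hz => ?_) (sum_le_sum_of_subset_of_nonneg hB
      fun z _ _ => sum_nonneg fun y _ => sq_nonneg _)
    refine le_trans (sum_le_sum fun y hy => le_of_eq ?_) (sum_le_sum_of_subset_of_nonneg hB
      fun y _ _ => sq_nonneg _)
    rw [h1 z hz, h1 y hy]
  have e4 : (∑ z ∈ B, g z) ^ 2 ≤ (∑ z ∈ X, |g z|) ^ 2 := by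
    rw [← sq_abs]
    exact pow_le_pow_left₀ (abs_nonneg _) ((abs_sum_le_sum_abs _ _).trans
      (sum_le_sum_of_subset_of_nonneg hB fun z _ _ => abs_nonneg _)) 2
  have e5 : 0 ≤ ∑ z ∈ B, g z ^ 2 := sum_nonneg fun z _ => sq_nonneg _
  rw [e1]
  nlinarith [mul_le_mul_of_nonneg_right hc e5]

variable {ω : Cfg D} {R m h : ℕ} {δ : ℝ} {rep : V D → V D} {w : V D → ℝ}

/-- the weighted squared gradient of the extension -/
def gm (rep : V D → V D) (w g : V D → ℝ) (z : V D) : ℝ :=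
  ∑ i, (g (rep (z + Pi.single i 1)) - g (rep z)) ^ 2 / w z

theorem gm_nonneg (G : Geo ω R m h δ rep w) (g : V D → ℝ) (z : V D) : 0 ≤ gm rep w g z :=
  sum_nonneg fun _ _ => div_nonneg (sq_nonneg _) (zero_le_one.trans (G.w1 z))

/-- one cube -/
theorem one (hC : CNTStmt) (hP : PLStmt) (G : Geo ω R m h δ rep w) {g : V D → ℝ} (hm : m ≤ r)
    (hR : ∀ z ∈ box a fun _ => r, nrm z ≤ R) (hg : ∀ y, g y ≠ 0 → Wide ω y h) :
    (r : ℝ) ^ (D + 1) * ∑ z ∈ box a fun _ => r, g z ^ 2 ≤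
      4 * (D + 1) * (r : ℝ) ^ 2 * (r : ℝ) ^ (D + 1) * ∑ z ∈ box a fun _ => r, gm rep w g z +
        2 * (∑ z ∈ box a fun _ => r, |g z|) ^ 2 := by
  have m1 : 1 ≤ m := G.h1.trans G.hm
  have c1 := (hC D m δ w m1 G.d0 G.w1 G.seg).2 a (fun _ => r) hm
  have c2 := hP D m r δ w (fun z => g (rep z)) a (fun _ => r) m1 G.d0 (by linarith [G.d1]) G.w1 G.seg
    fun _ => ⟨hm, le_rfl⟩
  have c3 : (((box a fun _ => r).filter fun z => ¬ Wide ω z h).card : ℝ) ≤
      ∑ z ∈ box a fun _ => r, (w z - 1) := by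
    rw [card_eq_sum_ones, Nat.cast_sum]
    refine le_trans (sum_le_sum fun z hz => ?_) (sum_le_sum_of_subset_of_nonneg (filter_subset _ _)
      fun z _ _ => sub_nonneg.2 (G.w1 z))
    obtain ⟨z1, z2⟩ := mem_filter.1 hz
    have := not_lt.1 fun u => z2 (G.nml z (hR z z1) u).1
    push_cast
    linarith
  have c4 : (((box a fun _ => r).filter fun z => Wide ω z h).card : ℝ) +
      ((box a fun _ => r).filter fun z => ¬ Wide ω z h).card = (box a fun _ => r).card := by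
    exact_mod_cast card_filter_add_card_filter_not _
  have c5 := cube (filter_subset (fun z => Wide ω z h) (box a fun _ => r)) (g := g)
    (G := fun z => g (rep z)) (fun z hz => by rw [G.fix z (mem_filter.1 hz).2])
    (fun z z1 z2 => by_contra fun u => z2 (mem_filter.2 ⟨z1, hg z u⟩)) (by
      have := mul_le_mul_of_nonneg_right G.d1 (Nat.cast_nonneg (α := ℝ) (box a fun _ => r).card)
      linarith)
  rw [card_box] at c2 c5
  push_cast at c2 c5
  exact c5.trans (add_le_add c2 le_rfl)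

/-- all cubes -/
theorem all (hC : CNTStmt) (hP : PLStmt) (G : Geo ω R m h δ rep w) {g : V D → ℝ} (hm : m ≤ r)
    (hr : r ≤ r₁) (hR : nrm x + 2 * r₁ ≤ R) (hg : ∀ y, g y ≠ 0 → Wide ω y h) :
    ∑ z ∈ ball x r₁, g z ^ 2 ≤ 4 * (D + 1) * (r : ℝ) ^ 2 * ∑ z ∈ ball x (2 * r₁), gm rep w g z +
      2 * (∑ z ∈ ball x (2 * r₁), |g z|) ^ 2 / (r : ℝ) ^ (D + 1) := by
  have r1 : (0 : ℝ) < r := by exact_mod_cast G.h1.trans (G.hm.trans hm)
  have n0 : (0 : ℝ) < (r : ℝ) ^ (D + 1) := by positivity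
  have s0 : 0 ≤ ∑ z ∈ ball x (2 * r₁), |g z| := sum_nonneg fun _ _ => abs_nonneg _
  have a1 := low (x := x) hr (F := fun z => g z ^ 2) fun _ => sq_nonneg _
  have a2 := upp (x := x) hr (gm_nonneg G g)
  have a3 := upp (x := x) hr (F := fun z => |g z|) fun _ => abs_nonneg _
  have a4 : ∑ a ∈ cor x r r₁, (r : ℝ) ^ (D + 1) * ∑ z ∈ box a fun _ => r, g z ^ 2 ≤
      ∑ a ∈ cor x r r₁, (4 * (D + 1) * (r : ℝ) ^ 2 * (r : ℝ) ^ (D + 1) *
        ∑ z ∈ box a fun _ => r, gm rep w g z +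
          2 * (∑ z ∈ ball x (2 * r₁), |g z|) * ∑ z ∈ box a fun _ => r, |g z|) := by
    refine sum_le_sum fun a ha => (one hC hP G hm (fun z hz => ?_) hg).trans (add_le_add le_rfl ?_)
    · have h1 := mem_ball.1 (box_sub hr ha hz)
      have h2 := nrm_add_le (z - x) x
      rw [sub_add_cancel] at h2
      omega
    · rw [sq, mul_assoc]
      exact mul_le_mul_of_nonneg_left (mul_le_mul_of_nonneg_right (sum_le_sum_of_subset_of_nonneg
        (box_sub hr ha) fun _ _ _ => abs_nonneg _) (sum_nonneg fun _ _ => abs_nonneg _)) zero_le_two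
  rw [sum_add_distrib, ← mul_sum, ← mul_sum, ← mul_sum] at a4
  have b1 := mul_le_mul_of_nonneg_left a1 n0.le
  have b2 := mul_le_mul_of_nonneg_left a2
    (show 0 ≤ 4 * (D + 1) * (r : ℝ) ^ 2 * (r : ℝ) ^ (D + 1) by positivity)
  have b3 := mul_le_mul_of_nonneg_left a3 (mul_nonneg zero_le_two s0)
  generalize (r : ℝ) ^ (D + 1) = n at *
  refine le_of_mul_le_mul_left (le_of_mul_le_mul_left ?_ n0) n0
  refine ((b1.trans a4).trans (add_le_add b2 b3)).trans_eq ?_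
  field_simp

/-- comparison of the weights -/
theorem wt_le {lam : ℝ} (h0 : 0 ≤ lam) (h4 : lam * r₁ ≤ 4) {y : V D} (k : ℕ)
    (hy : nrm (y - z) ≤ k * r₁) : exp (2 * lam * (y 0 : ℝ)) ≤ exp 8 ^ k * exp (2 * lam * (z 0 : ℝ)) := by
  have a : ((y 0 : ℝ) - z 0) ≤ k * r₁ := by
    have := (le_abs_self _).trans (nrm_le_iff.1 hy 0)
    rw [Pi.sub_apply] at this
    exact_mod_cast this
  rw [← exp_nat_mul, ← exp_add, exp_le_exp]
  nlinarith [mul_le_mul_of_nonneg_left a h0, mul_le_mul_of_nonneg_left h4 (Nat.cast_nonneg (α := ℝ) k)]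

end Ns

open Ns in
theorem ns (hI : IDStmt) (hC : CNTStmt) (hP : PLStmt) : NSStmt := by
  intro D
  have c1 : (1 : ℝ) ≤ exp 8 := one_le_exp (by norm_num)
  have D0 : (0 : ℝ) ≤ D := Nat.cast_nonneg D
  refine ⟨(2 * D + 4) * exp 8 ^ 3 * (4 * (D + 1) * (D + 2) + 18), ?_, ?_⟩
  · exact one_le_mul_of_one_le_of_one_le
      (one_le_mul_of_one_le_of_one_le (by linarith) (one_le_pow₀ c1)) (by nlinarith)
  intro ω R m h δ rep w G lam x r r₁ g Q l0 l1 l4 hm hr hR hg hQ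
  have r1 : (0 : ℝ) < r := by exact_mod_cast G.h1.trans (G.hm.trans hm)
  have n0 : (0 : ℝ) < (r : ℝ) ^ (D + 1) := by positivity
  have E0 := exp_pos (2 * lam * (x 0 : ℝ))
  have hg' := fun y u => mem_wb'.1 (hg y u)
  have A := all (x := x) hC hP G hm hr hR fun y u => (hg' y u).2
  have tr : ∀ (F : V D → ℝ) (k : ℕ), (∀ y, g y = 0 → F y = 0) → r₁ ≤ k →
      ∑ y ∈ ball x k, F y = ∑ y ∈ Q, F y := fun F k hF hk =>
    (sum_subset (inter_subset_left (s₂ := Q)) fun y a b => hF y (by_contra fun u =>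
        b (mem_inter.2 ⟨a, (hQ y u).1⟩))).symm.trans
      (sum_subset (inter_subset_right (s₁ := ball x k)) fun y a b => hF y (by_contra fun u =>
        b (mem_inter.2 ⟨mem_ball.2 ((hg' y u).1.trans hk), a⟩)))
  rw [tr (fun y => g y ^ 2) r₁ (fun y u => by simp [u]) le_rfl,
    tr (fun y => |g y|) (2 * r₁) (fun y u => by simp [u]) (by omega)] at A
  have p1 : ∑ y ∈ Q, pim lam ω y * g y ^ 2 ≤
      (2 * D + 4) * exp 8 * exp (2 * lam * (x 0 : ℝ)) * ∑ y ∈ Q, g y ^ 2 := by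
    rw [mul_sum]
    refine sum_le_sum fun y _ => ?_
    by_cases u : g y = 0
    · simp [u]
    refine mul_le_mul_of_nonneg_right ((pim_le l0 l1 y).trans ?_) (sq_nonneg _)
    have := wt_le (y := y) (z := x) l0 l4 1 (by simpa using (hg' y u).1)
    rw [pow_one] at this
    rw [mul_assoc (2 * (D : ℝ) + 4)]
    exact mul_le_mul_of_nonneg_left this (by positivity)
  have p2 : exp (2 * lam * (x 0 : ℝ)) * ∑ y ∈ Q, |g y| ≤
      3 * exp 8 * ∑ y ∈ Q, pim lam ω y * |g y| := by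
    rw [mul_sum, mul_sum]
    refine sum_le_sum fun y _ => ?_
    by_cases u : g y = 0
    · simp [u]
    rw [← mul_assoc]
    refine mul_le_mul_of_nonneg_right ?_ (abs_nonneg _)
    have a := wt_le (y := x) (z := y) l0 l4 1 (by rw [nrm_sub_comm]; simpa using (hg' y u).1)
    have b := le_pim l0 l1 (wide_Zq G.h1 (hg' y u).2 lam)
    rw [pow_one] at a
    nlinarith [mul_le_mul_of_nonneg_left b (exp_pos 8).le]
  have p3 : exp (2 * lam * (x 0 : ℝ)) * ∑ z ∈ ball x (2 * r₁), gm rep w g z ≤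
      exp 8 ^ 2 * ((D + 2) * En lam ω Q g) := by
    have a := G.cmp lam l0 l1 (ball x (2 * r₁)) (ball x (2 * r₁ + 5 * h)) g fun z hz => by
      have h1 := mem_ball.1 hz
      have h2 := nrm_add_le (z - x) x
      rw [sub_add_cancel] at h2
      refine ⟨by omega, fun y hy => mem_ball.2 ?_⟩
      have h3 := mem_ball.1 hy
      have h4 := nrm_tri y z x
      omega
    have b := (hI D lam ω Q).2.2.1 g hQ (ball x (2 * r₁ + 5 * h))
    refine le_trans ?_ (mul_le_mul_of_nonneg_left (a.trans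
      (mul_le_mul_of_nonneg_left b (by positivity))) (by positivity))
    rw [mul_sum, mul_sum]
    refine sum_le_sum fun z hz => ?_
    have c := wt_le (y := x) (z := z) l0 l4 2 (by rw [nrm_sub_comm]; exact mem_ball.1 hz)
    refine (mul_le_mul_of_nonneg_right c (gm_nonneg G g z)).trans_eq ?_
    rw [mul_assoc, gm, mul_sum]
    simp only [mul_div_assoc]
  have e0 : 0 ≤ En lam ω Q g := by
    rw [En_eq]
    exact sum_nonneg fun _ _ => sum_nonneg fun _ _ => mul_nonneg (cnd_nonneg _ _) (sq_nonneg _)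
  have s0 : 0 ≤ ∑ y ∈ Q, |g y| := sum_nonneg fun _ _ => abs_nonneg _
  have p4 := pow_le_pow_left₀ (mul_nonneg E0.le s0) p2 2
  generalize exp (2 * lam * (x 0 : ℝ)) = E at *
  generalize (r : ℝ) ^ (D + 1) = n at *
  generalize ∑ y ∈ Q, |g y| = S at *
  generalize ∑ y ∈ Q, pim lam ω y * |g y| = P at *
  generalize ∑ z ∈ ball x (2 * r₁), gm rep w g z = Γ at *
  generalize En lam ω Q g = X at *
  generalize exp 8 = c at *
  have q1 : E * (2 * S ^ 2 / n) ≤ 18 * c ^ 2 * (P ^ 2 / (n * E)) := by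
    rw [show E * (2 * S ^ 2 / n) = 2 * (E * S) ^ 2 / (n * E) by field_simp, ← mul_div_assoc]
    exact div_le_div_of_nonneg_right (by nlinarith) (by positivity)
  have q2 : E * (4 * (D + 1) * (r : ℝ) ^ 2 * Γ) ≤ 4 * (D + 1) * (r : ℝ) ^ 2 * (c ^ 2 * ((D + 2) * X)) := by
    rw [mul_left_comm]
    exact mul_le_mul_of_nonneg_left p3 (by positivity)
  have q3 := (mul_le_mul_of_nonneg_left A E0.le).trans ((mul_add _ _ _).trans_le (add_le_add q2 q1))
  have q4 := mul_le_mul_of_nonneg_left q3 (show 0 ≤ (2 * (D : ℝ) + 4) * c by positivity)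
  rw [← mul_assoc] at q4
  refine (p1.trans q4).trans ?_
  rw [mul_div_assoc]
  have t1 : 0 ≤ (2 * (D : ℝ) + 4) * c ^ 3 * 18 * (r : ℝ) ^ 2 * X := by positivity
  have t2 : 0 ≤ (2 * (D : ℝ) + 4) * c ^ 3 * (4 * (D + 1) * (D + 2)) * (P ^ 2 / (n * E)) := by positivity
  generalize P ^ 2 / (n * E) = Y at *
  linarith

end Pool.Agent.MP_8c549f_pr.L2

end
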