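import Pool.Agent.MP_8c549f_pr.L2.SpecB
import Pool.Agent.MP_8c549f_pr.A7

/-! PROJECT L2: the blocks have total weight one and polynomially bounded moments. -/

noncomputable section

namespace Pool.Agent.MP_8c549f_pr.L2

open MeasureTheory Finset Real Classical S3 Filter Topology
open scoped ENNReal

namespace One2

variable {D : ℕ}

theorem block_rec {l : List (Step D)} (h : Block l) : Rec l := by
  obtain ⟨_, ⟨h1, _, h3, h4⟩, _⟩ := h
  intro i hi
  rw [H_length] at h3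
  by_cases c : i < l.length - 1
  · have := h4 i c; omega
  · rw [show i = l.length - 1 by omega]; omega

theorem le_cube (n : ℕ) : (n : ℝ≥0∞) ≤ (n : ℝ≥0∞) ^ 3 := by
  exact_mod_cast Nat.le_self_pow (by norm_num) n

theorem slab_tendsto {p lam : ℝ} {n₀ : ℕ} {q μ : ℝ} (R : Reg D p lam n₀ q μ) (h : ℕ) :
    Tendsto (Sl D p lam h) atTop (𝓝 0) := by
  have t1 : Tendsto (fun n : ℕ => 1 / (n : ℝ) ^ 8) atTop (𝓝 0) :=
    tendsto_const_nhds.div_atTop ((tendsto_pow_atTop (by norm_num)).comp tendsto_natCast_atTop_atTop)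
  have t2 := ENNReal.tendsto_ofReal t1
  rw [ENNReal.ofReal_zero] at t2
  refine tendsto_of_tendsto_of_tendsto_of_le_of_le' tendsto_const_nhds t2
    (Eventually.of_forall fun _ => zero_le) ?_
  filter_upwards [eventually_ge_atTop n₀, eventually_ge_atTop (h ^ 2)] with n h1 h2
  exact R.slab h n h1 h2

theorem blocks_one (hR : RECStmt) {p lam : ℝ} {n₀ : ℕ} {q μ : ℝ} (R : Reg D p lam n₀ q μ) :
    SS {l : List (Step D) | Block l} (wb true p lam) = 1 := by
  have h0 : 0 ≤ p := by linarith [R.p0]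
  obtain ⟨_, _, _, r4⟩ := hR D p lam h0 R.p1
  have hρ0 := (exp_pos (-μ)).le
  have hρ1 : exp (-μ) < 1 := by
    rw [← exp_zero]; exact exp_lt_exp.2 (by linarith [R.m0])
  have e : ∀ m : ℕ, exp (-(μ * m)) = exp (-μ) ^ m := fun m => by
    rw [← exp_nat_mul]; congr 1; ring
  have hA : ∀ m, aa D p lam m ≤ ENNReal.ofReal (exp (-μ)) ^ m := fun m => by
    rw [← ENNReal.ofReal_pow hρ0, ← e]; exact R.ht m
  have hR' : ∀ i, Ret D p lam i ≤ ENNReal.ofReal n₀ * ENNReal.ofReal (exp (-μ)) ^ i := fun i => by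
    rw [← ENNReal.ofReal_pow hρ0, ← e, ← ENNReal.ofReal_mul (Nat.cast_nonneg _)]; exact R.ret i
  refine One.blocks_eq_one fa h0 R.p1 (One.qq_ne_zero h0 R.p1 R.q0 R.sum) ?_
  rw [ENNReal.tendsto_atTop_zero]
  intro ε hε
  obtain ⟨h, hh⟩ := ENNReal.tendsto_atTop_zero.1
    (One.rest_tendsto hρ0 hρ1 ENNReal.ofReal_ne_top hA hR') (ε / 2) (ENNReal.half_pos hε.ne')
  obtain ⟨N, hN⟩ := ENNReal.tendsto_atTop_zero.1 (slab_tendsto R h) (ε / 2)
    (ENNReal.half_pos hε.ne')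
  refine ⟨N, fun n hn => (r4 n h).trans ?_⟩
  rw [← ENNReal.add_halves ε, add_assoc]
  exact add_le_add (hN n hn) (hh h le_rfl)

theorem block_wt (hR : RECStmt) {p lam : ℝ} {n₀ : ℕ} {q μ : ℝ} (R : Reg D p lam n₀ q μ) (m : ℕ) :
    SS {l : List (Step D) | Block l ∧ lev l = m} (wb true p lam) ≤
      ENNReal.ofReal (3 * exp (-(μ * m))) := by
  have h0 : 0 ≤ p := by linarith [R.p0]
  obtain ⟨_, _, r3, _⟩ := hR D p lam h0 R.p1
  cases m with
  | zero =>
    have : {l : List (Step D) | Block l ∧ lev l = (0 : ℕ)} = ∅ :=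
      Set.eq_empty_of_forall_notMem fun l hl => by
        have h1 := Block.lev_pos hl.1
        have h2 := hl.2
        omega
    rw [this, SS_empty]; exact zero_le
  | succ m =>
    refine (r3 m).trans ((R.ht m).trans (ENNReal.ofReal_le_ofReal ?_))
    have h1 : exp μ ≤ 3 := (exp_le_exp.2 R.m1).trans (exp_one_lt_d9.le.trans (by norm_num))
    have h2 : exp (-(μ * m)) = exp μ * exp (-(μ * (m + 1 : ℕ))) := by
      rw [← exp_add]; congr 1; push_cast; ring
    rw [h2]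
    exact mul_le_mul_of_nonneg_right h1 (exp_pos _).le

end One2

open One2 in
theorem one2 (hR : RECStmt) (hM : MOMStmt) : ONE2Stmt := by
  obtain ⟨C, hC, HM⟩ := hM
  refine ⟨4 * C, by linarith, fun D p lam n₀ q μ R => ?_⟩
  have h0 : 0 ≤ p := by linarith [R.p0]
  have hμ := R.m0
  have H1 := (HM D p lam n₀ q μ R).1
  have hb : 0 ≤ C * (n₀ : ℝ) ^ 3 / μ ^ 7 := by positivity
  have hle : C * (n₀ : ℝ) ^ 3 / μ ^ 7 ≤ 4 * C * (n₀ : ℝ) ^ 3 / μ ^ 7 := by
    rw [mul_assoc 4, mul_div_assoc 4]; linarith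
  have hone := blocks_one hR R
  have hM3 : M3 D p lam ≤ ENNReal.ofReal (4 * C * (n₀ : ℝ) ^ 3 / μ ^ 7) := by
    refine le_trans ?_ ((H1 (fun m => {l | Block l ∧ lev l = m})
      (fun m l hl => ⟨hl.1.1, block_rec hl.1, hl.2⟩) (block_wt hR R)).trans
      (ENNReal.ofReal_le_ofReal hle))
    rw [M3, SS_fiber _ fun l => (lev l).toNat]
    refine ENNReal.tsum_le_tsum fun m => SS_mono (fun l hl => ⟨hl.1, ?_⟩) fun _ _ => le_rfl
    have h1 := Block.lev_pos hl.1
    have h2 : (lev l).toNat = m := hl.2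
    omega
  have hN1 : ∑' m, N1 D p lam m ≤ ENNReal.ofReal (4 * C * (n₀ : ℝ) ^ 3 / μ ^ 7) := by
    refine le_trans ?_ ((H1 (fun m => {l | l ∈ FPS D m ∧ ∀ t, ¬ Cut l t}) (fun m l hl => hl.1)
      fun m => ?_).trans (ENNReal.ofReal_le_ofReal hle))
    · exact ENNReal.tsum_le_tsum fun m => SS_mono subset_rfl fun l _ =>
        mul_le_mul' (le_cube _) le_rfl
    · refine le_trans (SS_mono (B := ASet D m) (fun l hl => ⟨hl.1.2.1, hl.1.2.2, hl.2⟩)
        fun _ _ => le_rfl) ((R.ht m).trans (ENNReal.ofReal_le_ofReal ?_))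
      linarith [exp_pos (-(μ * m))]
  have hAA : AA D p lam ≤ ENNReal.ofReal (4 * C * (n₀ : ℝ) ^ 3 / μ ^ 7) :=
    le_trans (SS_mono subset_rfl fun l _ => mul_le_mul' (le_cube _) le_rfl) hM3
  have hBA : BB D p lam ≤ AA D p lam := by
    refine SS_mono subset_rfl fun l _ => mul_le_mul' ?_ le_rfl
    have := lev_le_length l
    exact_mod_cast (by omega : (lev l).toNat ≤ l.length)
  have h1B : 1 ≤ BB D p lam := by
    rw [← hone]
    refine SS_mono subset_rfl fun l hl => le_mul_of_one_le_left' ?_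
    have := Block.lev_pos hl
    exact_mod_cast (by omega : 1 ≤ (lev l).toNat)
  have hA := ne_top_of_le_ne_top ENNReal.ofReal_ne_top hAA
  have hB := ne_top_of_le_ne_top hA hBA
  refine ⟨One.qq_ne_zero h0 R.p1 R.q0 R.sum, hone, hM3, hN1, hA, hB, ?_,
    ENNReal.toReal_mono hA hBA, ENNReal.toReal_le_of_le_ofReal (hb.trans hle) hAA⟩
  simpa [BR] using ENNReal.toReal_mono hB h1B

end Pool.Agent.MP_8c549f_pr.L2

end
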