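import Pool.Agent.MP_8c549f_pr.L2.Basic

/-! PROJECT L2: overlap of the end points of two legs. -/

noncomputable section

namespace Pool.Agent.MP_8c549f_pr.L2

open MeasureTheory Finset Real Classical S3

namespace Ov

variable {D : ℕ} {lam : ℝ} {ω ω' : Cfg D}

theorem hl_nonneg (L N : ℕ) (y : V D) : 0 ≤ hl lam L N ω y :=
  sum_nonneg fun l _ => wr_nonneg l 0

/-- hitting a part of the top level, as a sum over end points -/
theorem gs_le (hD : DICTStmt) (L N : ℕ) {A : Set (V D)} (hA : ∀ y ∈ A, y 0 = (L : ℤ)) :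
    Gs lam ω {y : V D | y 0 < (L : ℤ)} (N + 1) (chi A) 0 ≤
      ∑ y ∈ ball 0 N, hl lam L N ω y * chi A y := by
  have h1 := hD D lam ω L N {y : V D | y 0 < (L : ℤ)} (fun _ => 1) (chi A) fun y hy => hy
  have h2 : Set.indicator {y : V D | y 0 = (L : ℤ)} (chi A) = chi A := by
    funext y
    by_cases hy : y ∈ A
    · exact Set.indicator_of_mem (show y ∈ {y : V D | y 0 = (L : ℤ)} from hA y hy) _
    · rw [chi_of_not hy]
      by_cases hz : y ∈ {y : V D | y 0 = (L : ℤ)}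
      · rw [Set.indicator_of_mem hz, chi_of_not hy]
      · rw [Set.indicator_of_notMem hz]
  rw [h2] at h1
  simp only [one_mul] at h1
  rw [Gs, ← h1]
  refine (sum_le_sum_of_subset_of_nonneg (t := Lg D L N) (@filter_subset _ _ (_) _) fun l _ _ =>
    mul_nonneg (wr_nonneg l 0) (chi_nonneg _ _)).trans (le_of_eq ?_)
  rw [← sum_fiberwise_of_maps_to (s := Lg D L N) (t := ball 0 N) (g := fun l => pos l)]
  · refine sum_congr rfl fun y _ => ?_
    rw [hl, sum_mul]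
    refine sum_congr (by congr) fun l hl => ?_
    rw [(mem_filter.1 hl).2]
  · intro l hl
    rw [mem_ball, sub_zero]
    exact (nrm_pos_le l).trans (mem_Lg.1 hl).1

theorem ovl_ge (hD : DICTStmt) (L N : ℕ) :
    Gs lam ω {y : V D | y 0 < (L : ℤ)} (N + 1)
        (chi {y | y 0 = (L : ℤ) ∧ hl lam L N ω y ≤ hl lam L N ω' y}) 0 +
      Gs lam ω' {y : V D | y 0 < (L : ℤ)} (N + 1)
        (chi {y | y 0 = (L : ℤ) ∧ ¬ hl lam L N ω y ≤ hl lam L N ω' y}) 0 ≤ ovl lam L N ω ω' := by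
  refine (add_le_add (gs_le hD L N fun y hy => hy.1) (gs_le hD L N fun y hy => hy.1)).trans ?_
  rw [← sum_add_distrib, ovl]
  refine sum_le_sum fun y _ => ?_
  have h1 := hl_nonneg (lam := lam) (ω := ω) L N y
  have h2 := hl_nonneg (lam := lam) (ω := ω') L N y
  have h3 := chi_le_one {y | y 0 = (L : ℤ) ∧ hl lam L N ω y ≤ hl lam L N ω' y} y
  have h4 := chi_le_one {y | y 0 = (L : ℤ) ∧ ¬ hl lam L N ω y ≤ hl lam L N ω' y} y
  by_cases c : hl lam L N ω y ≤ hl lam L N ω' y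
  · rw [min_eq_left c, chi_of_not (U := {y | y 0 = (L : ℤ) ∧ ¬ hl lam L N ω y ≤ hl lam L N ω' y})
      fun h => h.2 c, mul_zero, add_zero]
    exact mul_le_of_le_one_right h1 h3
  · rw [min_eq_right (not_le.1 c).le, chi_of_not
      (U := {y | y 0 = (L : ℤ) ∧ hl lam L N ω y ≤ hl lam L N ω' y}) fun h => c h.2, mul_zero,
      zero_add]
    exact mul_le_of_le_one_right h2 h4

/-- two stages: reach `Z`, then the target -/
theorem two {T S U Z : Set (V D)} {f : V D → ℝ} (hf : ∀ y, 0 ≤ f y) (hT : T ⊆ U) (hS : S ⊆ U)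
    (hZ : Disjoint T Z) {n N : ℕ} (hn : n + n ≤ N) {c : ℝ} (hc : 0 ≤ c) (Rr : V D → Prop)
    (h0 : Rr 0) (hs : ∀ y s, Rr y → ω (edge y s) = true → Rr (y + vec s))
    (h1 : 1 / 2 ≤ Gs lam ω T (n + 1) (chi Z) 0)
    (h2 : ∀ y ∈ Z, Rr y → c ≤ Gs lam ω S (n + 1) f y) : c / 2 ≤ Gs lam ω U (N + 1) f 0 := by
  have a1 := Gs_markov (lam := lam) (ω := ω) hT hZ hf (n + 1) n 0
  have a2 := Gs_time (lam := lam) (ω := ω) (U := U) hf (show n + (n + 1) ≤ N + 1 by omega) 0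
  have a3 : Gs lam ω T (n + 1) (fun y => c * chi Z y) 0 ≤
      Gs lam ω T (n + 1) (Z.indicator (Gs lam ω U (n + 1) f)) 0 := by
    refine sum_le_sum fun k _ => Pk_mono_loc k (fun _ y => Rr y) 0 h0
      (fun _ _ y s hy _ he => hs y s hy he) fun y hy => ?_
    by_cases hz : y ∈ Z
    · rw [chi_of_mem hz, mul_one, Set.indicator_of_mem hz]
      exact (h2 y hz hy).trans (Gs_dom hS hf _ y)
    · rw [chi_of_not hz, mul_zero, Set.indicator_of_notMem hz]
  rw [Gs_mul] at a3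
  nlinarith

theorem edge_lev (y : V D) (s : Step D) :
    y 0 - 1 ≤ (edge y s).1 0 ∧ (y + vec s) 0 - 1 ≤ (edge y s).1 0 ∧ (y + vec s) 0 ≤ y 0 + 1 := by
  obtain ⟨i, b⟩ := s
  cases b <;> by_cases hi : i = 0 <;> simp [edge, vec, hi]

theorem bx_lev {k K : ℕ} {y : V D} (hy : y ∈ bx (up D k) 0 K) : y 0 = (k : ℤ) := by
  have := Fintype.mem_piFinset.1 hy 0
  simpa [up] using this

end Ov

theorem ovS (hD : DICTStmt) (h1 : OV1Stmt) (h2 : OV2Stmt) : OVStmt := by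
  intro D
  obtain ⟨Λ₁, h1⟩ := h1 D
  refine ⟨max Λ₁ 2, fun Λ hΛ => ?_⟩
  have hΛ2 : 2 ≤ Λ := (le_max_right _ _).trans hΛ
  obtain ⟨κ, l₂, h2⟩ := h2 D Λ hΛ2
  obtain ⟨c, l₁, hc, h1⟩ := h1 Λ κ ((le_max_left _ _).trans hΛ)
  refine ⟨min 1 (c / 2), max l₁ l₂, lt_min one_pos (half_pos hc), min_le_left _ _, ?_⟩
  intro ω ω' R m h δ rep w rep' w' hG hG' l lam hl0 hS hW hW' hR hA
  have hl1 : l₁ ≤ l := (le_max_left _ _).trans hl0
  have hl2 : l₂ ≤ l := (le_max_right _ _).trans hl0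
  have hm := hS.m16
  have hh := hG.hm
  have hl16 := hS.l16
  have hH : l ≤ Λ * l / 2 := by
    rw [Nat.le_div_iff_mul_le two_pos, mul_comm]; exact Nat.mul_le_mul_right l hΛ2
  have hHL : Λ * l / 2 ≤ Λ * l := Nat.div_le_self _ _
  have hT : {y : V D | y 0 < ((Λ * l / 2 : ℕ) : ℤ)} ⊆ {y : V D | y 0 < ((Λ * l : ℕ) : ℤ)} :=
    fun y hy => lt_of_lt_of_le (show y 0 < ((Λ * l / 2 : ℕ) : ℤ) from hy) (Int.ofNat_le.2 hHL)
  have hSU : {y : V D | 0 < y 0 ∧ y 0 < ((Λ * l : ℕ) : ℤ)} ⊆ {y : V D | y 0 < ((Λ * l : ℕ) : ℤ)} :=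
    fun y hy => hy.2
  have hZ : Disjoint {y : V D | y 0 < ((Λ * l / 2 : ℕ) : ℤ)}
      (bx (up D (Λ * l / 2)) 0 (κ * l) : Set (V D)) :=
    Set.disjoint_left.2 fun y hy hz => (ne_of_lt hy) (Ov.bx_lev hz)
  have hn : l ^ 4 / 2 + l ^ 4 / 2 ≤ l ^ 4 := by omega
  have hov := Ov.ovl_ge (lam := lam) (ω := ω) (ω' := ω') hD (Λ * l) (l ^ 4)
  refine (min_le_right _ _).trans ?_
  have hE : ∀ e : Edge D, 0 ≤ e.1 0 → ω e = ω' e := fun e he => hA e (by simpa using he)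
  rcases h1 ω R m h δ rep w hG l lam hl1 hS hR
    {y | y 0 = ((Λ * l : ℕ) : ℤ) ∧ hl lam (Λ * l) (l ^ 4) ω y ≤ hl lam (Λ * l) (l ^ 4) ω' y}
    {y | y 0 = ((Λ * l : ℕ) : ℤ) ∧ ¬ hl lam (Λ * l) (l ^ 4) ω y ≤ hl lam (Λ * l) (l ^ 4) ω' y}
    (by ext y; simp only [Set.mem_union, Set.mem_ofPred_eq]; tauto) with h1 | h1
  · have a := Ov.two (chi_nonneg _) hT hSU hZ hn hc.le (fun y => Wide ω y h) hW
      (fun y s hy he => wide_step hy he) (h2 ω R m h δ rep w hG l lam hl2 hS hW hR) h1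
    exact a.trans (le_trans (le_add_of_nonneg_right (Gs_nonneg (chi_nonneg _) _ _)) hov)
  · refine le_trans ?_ (le_trans (le_add_of_nonneg_left (Gs_nonneg (chi_nonneg _) _ _)) hov)
    refine Ov.two (chi_nonneg _) hT hSU hZ hn hc.le
      (fun y => y 0 ≤ 0 ∨ ∃ a : V D, a 0 = 0 ∧ Conn ω a y) (Or.inl le_rfl) ?_
      (h2 ω' R m h δ rep' w' hG' l lam hl2 hS hW' hR) ?_
    · intro y s hy he
      obtain ⟨e1, e2, e3⟩ := Ov.edge_lev y s
      by_cases c0 : (y + vec s) 0 ≤ 0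
      · exact Or.inl c0
      · have hs : ω (edge y s) = true := by rw [hE _ (by omega)]; exact he
        rcases hy with hy | ⟨a, ha, hy⟩
        · exact Or.inr ⟨y, by omega, Conn.step hs⟩
        · exact Or.inr ⟨a, ha, hy.trans (Conn.step hs)⟩
    · intro y hz hy
      have hy0 := Ov.bx_lev hz
      have hw : Wide ω y h := by
        rcases hy with hy | ⟨a, ha, hy⟩
        · omega
        · refine ⟨y, a, Conn.refl _ _, hy.symm, ?_⟩
          have := abs_le_nrm (y - a) 0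
          rw [Pi.sub_apply, ha, hy0, sub_zero, abs_of_nonneg (by positivity)] at this
          omega
      refine (h1 y hz hw).trans (le_of_eq (sum_congr rfl fun k _ => ?_))
      exact Pk_loc k (fun _ _ => True) y trivial (fun _ _ _ _ _ _ _ => trivial)
        (fun _ _ z _ => ⟨Iff.rfl, fun hz s => hE _ (by
          have := (Ov.edge_lev z s).1
          have := hz.1
          omega)⟩) fun _ _ => rfl

end Pool.Agent.MP_8c549f_pr.L2

end
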