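import Pool.Agent.MP_8c549f_pr.L2.Basic

/-! PROJECT L2: from the middle of a strip one of two parts of the top is reached from all sites. -/

noncomputable section

namespace Pool.Agent.MP_8c549f_pr.L2

open MeasureTheory Finset Real Classical S3

namespace Ov1

variable {D : ℕ} {lam : ℝ} {ω : Cfg D}

/-- exit through `A` within `n` steps, or survival -/
def gg (lam : ℝ) (ω : Cfg D) (S A : Set (V D)) (n : ℕ) (y : V D) : ℝ :=
  Gs lam ω S (n + 1) (chi A) y + Pk lam ω S n (chi S) y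

theorem gg_nonneg (S A : Set (V D)) (n : ℕ) (y : V D) : 0 ≤ gg lam ω S A n y :=
  add_nonneg (Gs_nonneg (chi_nonneg A) _ y) (Pk_nonneg (chi_nonneg S) _ y)

theorem gg_super {S A : Set (V D)} (h : Disjoint S A) (n : ℕ) {y : V D} (hy : y ∈ S) :
    Pf lam ω (gg lam ω S A n) y ≤ gg lam ω S A n y := by
  have hA : y ∉ A := Set.disjoint_left.1 h hy
  have h1 : Pf lam ω (gg lam ω S A n) y =
      Gs lam ω S (n + 1 + 1) (chi A) y + Pk lam ω S (n + 1) (chi S) y := by
    rw [Gs_succ_mem hy, Pk_succ_mem hy, chi_of_not hA, zero_add, ← Pf_add]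
    rfl
  have h2 : Pk lam ω S (n + 1) (chi A) y + Pk lam ω S (n + 1) (chi S) y ≤
      Pk lam ω S n (chi S) y := by
    rw [← Pk_add, Pk_succ']
    refine Pk_mono (fun z => ?_) n y
    by_cases hz : z ∈ S
    · rw [Pu_of_mem hz, chi_of_mem hz]
      refine Pf_le zero_le_one fun s _ => ?_
      by_cases h3 : z + vec s ∈ S
      · rw [chi_of_not (Set.disjoint_left.1 h h3), chi_of_mem h3, zero_add]
      · rw [chi_of_not h3, add_zero]
        exact chi_le_one _ _
    · rw [Pu_of_not hz, chi_of_not hz]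
  rw [h1, Gs_succ' (n + 1), gg]
  linarith

theorem gg_add {L : ℤ} {A B : Set (V D)} (hAB : A ∪ B = {y : V D | y 0 = L}) (n : ℕ) {y : V D}
    (hy : 0 < Zq lam ω y) (hL : y 0 ≤ L) :
    1 - Gs lam ω {y : V D | 0 < y 0 ∧ y 0 < L} (n + 1) (chi {z : V D | z 0 ≤ 0}) y ≤
      gg lam ω {y : V D | 0 < y 0 ∧ y 0 < L} A n y +
        gg lam ω {y : V D | 0 < y 0 ∧ y 0 < L} B n y := by
  set S : Set (V D) := {y : V D | 0 < y 0 ∧ y 0 < L} with hS
  have h1 := exit_add_eq (lam := lam) (ω := ω) S n y hy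
  have h2 : Gs lam ω S (n + 1) (chi Sᶜ) y ≤
      Gs lam ω S (n + 1) (fun z => (chi A z + chi B z) + chi {z : V D | z 0 ≤ 0} z) y := by
    refine sum_le_sum fun k _ => Pk_mono_loc k (fun _ z => z 0 ≤ L) y hL ?_ ?_
    · intro i _ z s _ hz _
      have h3 := (vec_bounds s 0).2
      have h4 : z 0 < L := hz.2
      show z 0 + vec s 0 ≤ L
      omega
    · intro z hz
      have a1 := chi_nonneg A z
      have a2 := chi_nonneg B z
      have a3 := chi_nonneg {z : V D | z 0 ≤ 0} z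
      by_cases h3 : z ∈ S
      · rw [chi_of_not (show z ∉ Sᶜ from fun h => h h3)]
        linarith
      · have a4 := chi_le_one Sᶜ z
        by_cases h4 : z 0 ≤ 0
        · rw [chi_of_mem (show z ∈ {z : V D | z 0 ≤ 0} from h4)]
          linarith
        · have h5 : z ∈ A ∪ B := by
            rw [hAB]
            have h6 : ¬ (0 < z 0 ∧ z 0 < L) := h3
            show z 0 = L
            omega
          rcases h5 with h5 | h5
          · rw [chi_of_mem h5]
            linarith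
          · rw [chi_of_mem h5]
            linarith
  rw [Gs_add, Gs_add] at h2
  have h3 := Pk_nonneg (lam := lam) (ω := ω) (U := S) (chi_nonneg S) n y
  unfold gg
  linarith

theorem bx_eq (x : V D) (k K : ℕ) : bx x k K =
    box (fun j => x j - ((if j = 0 then k else K + k : ℕ) : ℤ))
      fun j => 2 * (if j = 0 then k else K + k) + 1 := by
  unfold bx box
  congr 1
  funext j
  ext t
  by_cases hj : j = 0
  · simp only [hj, if_true, mem_Icc, mem_Ico]
    push_cast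
    omega
  · simp only [hj, if_false, mem_Icc, mem_Ico]
    push_cast
    omega

theorem mem_bx_up {H k K : ℕ} {y : V D} (hy : y ∈ bx (up D H) k K) :
    (H : ℤ) - k ≤ y 0 ∧ y 0 ≤ H + k ∧ nrm y ≤ H + K + k := by
  have h := Fintype.mem_piFinset.1 hy
  have h0 := h 0
  simp only [if_true, mem_Icc, up, Pi.single_eq_same] at h0
  refine ⟨h0.1, h0.2, nrm_le_iff.2 fun j => ?_⟩
  by_cases hj : j = 0
  · subst hj
    rw [abs_le]
    push_cast
    omega
  · have h1 := h j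
    simp only [hj, if_false, mem_Icc, up, Pi.single_eq_of_ne hj] at h1
    rw [abs_le]
    push_cast at h1 ⊢
    omega

theorem half_wide (hN : CNTStmt) {R m h : ℕ} {δ : ℝ} {rep : V D → V D} {w : V D → ℝ}
    (hg : Geo ω R m h δ rep w) (x : V D) (k K : ℕ) (hk : m ≤ 2 * k + 1)
    (hR : ∀ z ∈ bx x k K, nrm z ≤ R) :
    (bx x k K).card ≤ 2 * ((bx x k K).filter fun y => Wide ω y h).card := by
  have h1 := (hN D m δ w (hg.h1.trans hg.hm) hg.d0 hg.w1 hg.seg).2
    (fun j => x j - ((if j = 0 then k else K + k : ℕ) : ℤ))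
    (fun j => 2 * (if j = 0 then k else K + k) + 1) (by simpa using hk)
  rw [← bx_eq] at h1
  have h2 : ((((bx x k K).filter fun y => ¬ Wide ω y h).card : ℕ) : ℝ) ≤
      ∑ z ∈ bx x k K, (w z - 1) := by
    rw [card_eq_sum_ones, Nat.cast_sum]
    refine le_trans (sum_le_sum fun z hz => ?_) (sum_le_sum_of_subset_of_nonneg (filter_subset _ _)
      fun z _ _ => sub_nonneg.2 (hg.w1 z))
    have h3 := mem_filter.1 hz
    have h4 : ¬ w z < 2 := fun h5 => h3.2 (hg.nml z (hR z h3.1) h5).1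
    push_cast
    linarith
  have h3 := card_filter_add_card_filter_not (s := bx x k K) fun y => Wide ω y h
  have h4 : (((bx x k K).filter fun y => Wide ω y h).card : ℝ) +
      (((bx x k K).filter fun y => ¬ Wide ω y h).card : ℝ) = (bx x k K).card := by
    exact_mod_cast h3
  have h5 : (0 : ℝ) ≤ (bx x k K).card := Nat.cast_nonneg _
  have h6 : 2 * δ * (bx x k K).card ≤ 1 / 2 * (bx x k K).card :=
    mul_le_mul_of_nonneg_right (by linarith [hg.d1]) h5
  have h7 : ((bx x k K).card : ℝ) ≤ 2 * (((bx x k K).filter fun y => Wide ω y h).card : ℝ) := by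
    linarith
  exact_mod_cast h7

theorem tiny {C c E : ℝ} {l : ℕ} (hC : 1 ≤ C) (hc : 0 < c) (hE : 0 ≤ E) (h16 : 16 ≤ l)
    (hl : 64 * C ^ 3 * E / c ≤ l) :
    C * (l : ℝ) ^ 2 * exp (-(((l ^ 4 / 2 : ℕ) : ℝ) / (C * (l : ℝ) ^ 2))) * E ≤ c / 2 := by
  have l1 : (16 : ℝ) ≤ l := by exact_mod_cast h16
  have l0 : (0 : ℝ) < l := by linarith
  have hn : (l : ℝ) ^ 4 ≤ 4 * ((l ^ 4 / 2 : ℕ) : ℝ) := by
    have h1 : 2 ≤ l ^ 4 := le_trans (by omega) (Nat.le_self_pow (by norm_num) l)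
    have h2 : l ^ 4 ≤ 4 * (l ^ 4 / 2) := by omega
    exact_mod_cast h2
  set u : ℝ := ((l ^ 4 / 2 : ℕ) : ℝ) / (C * (l : ℝ) ^ 2) with hu
  have u1 : (l : ℝ) ^ 2 / (4 * C) ≤ u := by
    rw [hu, div_le_div_iff₀ (by positivity) (by positivity)]
    nlinarith
  have u0 : 0 < (l : ℝ) ^ 2 / (4 * C) := by positivity
  have e1 : ((l : ℝ) ^ 2 / (4 * C)) ^ 2 / 2 ≤ exp u := by
    have h1 := Real.quadratic_le_exp_of_nonneg (u0.le.trans u1)
    have h2 : ((l : ℝ) ^ 2 / (4 * C)) ^ 2 ≤ u ^ 2 := pow_le_pow_left₀ u0.le u1 2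
    linarith
  have e2 : exp (-u) ≤ 32 * C ^ 2 / (l : ℝ) ^ 4 := by
    rw [exp_neg]
    refine (inv_anti₀ (by positivity) e1).trans (le_of_eq ?_)
    field_simp
    norm_num
  have e3 : C * (l : ℝ) ^ 2 * exp (-u) * E ≤ C * (l : ℝ) ^ 2 * (32 * C ^ 2 / (l : ℝ) ^ 4) * E := by
    gcongr
  refine e3.trans ?_
  have e4 : C * (l : ℝ) ^ 2 * (32 * C ^ 2 / (l : ℝ) ^ 4) * E = 32 * C ^ 3 * E / (l : ℝ) ^ 2 := by
    field_simp
  rw [e4, div_le_iff₀ (by positivity)]
  rw [div_le_iff₀ hc] at hl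
  nlinarith [mul_pos l0 hc]

end Ov1

set_option linter.unusedVariables false in
open Ov1 in
theorem ov1 (hG : GBStmt) (hC : GCStmt) (hS : SURStmt) (hH : HITStmt) (hW : WHStmt)
    (hN : CNTStmt) : OV1Stmt := by
  intro D
  obtain ⟨ξ, CH, lH, hξ, _, hCH, hH⟩ := hH D
  obtain ⟨CS, lS, hCS, hS⟩ := hS D
  refine ⟨⌈4 * CH⌉₊ + 8, fun Λ κ hΛ => ?_⟩
  obtain ⟨c, lW, hc, hW⟩ := hW D κ
  refine ⟨c / 2, lH + lS + lW + (Λ + κ + 4) + ⌈64 * CS ^ 3 * exp (4 * Λ) / c⌉₊, half_pos hc, ?_⟩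
  intro ω R m h δ rep w hg l lam hl hs hR A B hAB
  have l16 := hs.l16
  have hm := hs.m16
  have hΛ8 : 8 ≤ Λ := by omega
  have h8 : 8 * l ≤ Λ * l := Nat.mul_le_mul_right l hΛ8
  have hq : Λ * l + κ * l + 4 * l ≤ l ^ 4 := by
    calc Λ * l + κ * l + 4 * l = (Λ + κ + 4) * l := by ring
      _ ≤ l * l := Nat.mul_le_mul_right l (by omega)
      _ = l ^ 2 := by ring
      _ ≤ l ^ 4 := Nat.pow_le_pow_right (by omega) (by norm_num)
  set L : ℕ := Λ * l with hL
  set S : Set (V D) := {y : V D | 0 < y 0 ∧ y 0 < (L : ℤ)} with hSd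
  set n : ℕ := l ^ 4 / 2 with hn
  have lp := hs.lpos
  have lam0 := hs.pos
  have key : ∀ E : Set (V D), E ⊆ {y : V D | y 0 = (L : ℤ)} →
      (bx (up D (L / 2)) l (κ * l)).card ≤ 4 * ((bx (up D (L / 2)) l (κ * l)).filter fun y =>
        Wide ω y h ∧ 1 / 4 ≤ gg lam ω S E n y).card →
      ∀ y ∈ bx (up D (L / 2)) 0 (κ * l), Wide ω y h → c / 2 ≤ Gs lam ω S (n + 1) (chi E) y := by
    intro E hE hcard y hy hw
    have hd : Disjoint S E := Set.disjoint_left.2 fun z h1 h2 => by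
      have h3 : z 0 = (L : ℤ) := hE h2
      have h4 : z 0 < (L : ℤ) := h1.2
      omega
    have h1 := hW ω R m h δ rep w hg l lam (by omega) hs (up D (L / 2)) (gg lam ω S E n) ?_
      (gg_nonneg S E n) ?_ hcard y hy hw
    · obtain ⟨b1, b2, b3⟩ := mem_bx_up hy
      have h2 := (hS ω R m h δ rep w hg l lam (by omega) hs y S L n hw (by omega)
        fun z hz => hz.2).1
      have h3 : Pk lam ω S n (chi S) y ≤
          Pk lam ω S n (S.indicator fun y => exp (lam * ((L : ℤ) - y 0 : ℤ))) y := by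
        refine Pk_mono (fun z => ?_) n y
        by_cases hz : z ∈ S
        · rw [chi_of_mem hz, Set.indicator_of_mem hz]
          refine one_le_exp (mul_nonneg lam0.le ?_)
          have h4 : z 0 < (L : ℤ) := hz.2
          exact_mod_cast (by omega : (0 : ℤ) ≤ (L : ℤ) - z 0)
        · rw [chi_of_not hz, Set.indicator_of_notMem hz]
      have h4 : exp (lam * ((L : ℤ) - y 0 : ℤ)) ≤ exp (4 * Λ) := by
        refine exp_le_exp.2 ?_
        have h5 : (((L : ℤ) - y 0 : ℤ) : ℝ) ≤ (Λ : ℝ) * l := by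
          have h6 : (L : ℤ) - y 0 ≤ ((Λ * l : ℕ) : ℤ) := by omega
          exact_mod_cast h6
        calc lam * ((L : ℤ) - y 0 : ℤ) ≤ lam * ((Λ : ℝ) * l) := mul_le_mul_of_nonneg_left h5 lam0.le
          _ = (lam * l) * Λ := by ring
          _ ≤ 4 * Λ := mul_le_mul_of_nonneg_right hs.mul_le (Nat.cast_nonneg _)
      have h5 := tiny (l := l) hCS hc (exp_pos (4 * Λ)).le l16
        ((Nat.le_ceil _).trans (Nat.cast_le.2 (by omega)))
      have h6 : CS * (l : ℝ) ^ 2 * exp (-(n / (CS * (l : ℝ) ^ 2))) *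
          exp (lam * ((L : ℤ) - y 0 : ℤ)) ≤
          CS * (l : ℝ) ^ 2 * exp (-(n / (CS * (l : ℝ) ^ 2))) * exp (4 * Λ) :=
        mul_le_mul_of_nonneg_left h4 (by positivity)
      unfold gg at h1
      linarith
    · have h2 : nrm (up D (L / 2)) = L / 2 := by rw [up, nrm_single, Int.natAbs_natCast]
      have h3 : (κ + 4) * l = κ * l + 4 * l := by ring
      omega
    · intro z hz _
      obtain ⟨b1, b2, _⟩ := mem_bx_up hz
      refine gg_super hd n ⟨?_, ?_⟩ <;> omega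
  have hsum : ∀ y ∈ bx (up D (L / 2)) l (κ * l), Wide ω y h →
      1 / 2 ≤ gg lam ω S A n y + gg lam ω S B n y := by
    intro y hy hw
    obtain ⟨b1, b2, b3⟩ := mem_bx_up hy
    have h1 := gg_add (lam := lam) (ω := ω) hAB n (wide_Zq hg.h1 hw lam) (by omega)
    have h2 := hH ω R m h δ rep w hg l lam (by omega) hs y S {z : V D | z 0 ≤ 0} (fun _ => 0) n 1 hw
      (by omega) (Set.disjoint_left.2 fun z h3 h4 => by
        have h5 : 0 < z 0 := h3.1
        have h6 : z 0 ≤ 0 := h4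
        omega)
      (fun a b => by
        rw [sub_self, abs_zero]
        positivity) one_pos
      (fun z hz => by
        have h3 : ((z 0 : ℤ) : ℝ) ≤ 0 := by exact_mod_cast (hz : z 0 ≤ 0)
        refine one_le_exp ?_
        nlinarith)
    have h3 : 2 * CH * l ≤ ((y 0 : ℤ) : ℝ) := by
      have h4 : (4 * CH : ℝ) + 8 ≤ Λ := by
        have h5 : ((⌈4 * CH⌉₊ + 8 : ℕ) : ℝ) ≤ Λ := by exact_mod_cast hΛ
        push_cast at h5
        linarith [Nat.le_ceil (4 * CH)]
      have h5 : ((Λ * l : ℕ) : ℤ) ≤ 2 * y 0 + 3 * l := by omega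
      have h6 : (Λ : ℝ) * l ≤ 2 * ((y 0 : ℤ) : ℝ) + 3 * l := by exact_mod_cast h5
      nlinarith
    have h4 : 2 * CH ≤ lam * ((y 0 : ℤ) : ℝ) := by
      have h5 := hs.le_mul
      have h6 : lam * (2 * CH * l) ≤ lam * ((y 0 : ℤ) : ℝ) := mul_le_mul_of_nonneg_left h3 lam0.le
      nlinarith
    have h5 : CH * wf lam (fun _ => 0) y / 1 ≤ 1 / 2 := by
      rw [div_one, wf, add_zero, exp_neg, ← div_eq_mul_inv, div_le_iff₀ (exp_pos _)]
      linarith [add_one_le_exp (lam * ((y 0 : ℤ) : ℝ))]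
    linarith
  have hw := half_wide hN hg (up D (L / 2)) l (κ * l) (by omega) fun z hz => by
    have := (mem_bx_up hz).2.2
    omega
  have hsub : ((bx (up D (L / 2)) l (κ * l)).filter fun y => Wide ω y h) ⊆
      ((bx (up D (L / 2)) l (κ * l)).filter fun y => Wide ω y h ∧ 1 / 4 ≤ gg lam ω S A n y) ∪
      ((bx (up D (L / 2)) l (κ * l)).filter fun y => Wide ω y h ∧ 1 / 4 ≤ gg lam ω S B n y) := by
    intro y hy
    obtain ⟨h1, h2⟩ := mem_filter.1 hy
    have h3 := hsum y h1 h2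
    by_cases h4 : 1 / 4 ≤ gg lam ω S A n y
    · exact mem_union_left _ (mem_filter.2 ⟨h1, h2, h4⟩)
    · exact mem_union_right _ (mem_filter.2 ⟨h1, h2, by linarith⟩)
  have hcard := (card_le_card hsub).trans (card_union_le _ _)
  by_cases hA : (bx (up D (L / 2)) l (κ * l)).card ≤ 4 * ((bx (up D (L / 2)) l (κ * l)).filter
      fun y => Wide ω y h ∧ 1 / 4 ≤ gg lam ω S A n y).card
  · exact Or.inl (key A (hAB ▸ Set.subset_union_left) hA)
  · exact Or.inr (key B (hAB ▸ Set.subset_union_right) (by omega))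

end Pool.Agent.MP_8c549f_pr.L2

end
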