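import Pool.Agent.MP_8c549f_pr.L2.Basic

/-! PROJECT L2: the walk reaches the middle level inside a box of side proportional to `l`. -/

noncomputable section

namespace Pool.Agent.MP_8c549f_pr.L2

open MeasureTheory Finset Real Classical S3

namespace Ov2

variable {D : ℕ}

theorem lip_nrm {c : ℝ} (hc : 0 ≤ c) : Lip (fun y : V D => c * (nrm y : ℝ)) c := by
  intro y z
  rw [← mul_sub, abs_mul, abs_of_nonneg hc]
  refine mul_le_mul_of_nonneg_left ?_ hc
  have h1 : nrm y ≤ nrm (y - z) + nrm z := by simpa using nrm_tri y z 0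
  have h2 : nrm z ≤ nrm (y - z) + nrm y := by
    rw [nrm_sub_comm]; simpa using nrm_tri z y 0
  have h1' : (nrm y : ℝ) ≤ nrm (y - z) + nrm z := by exact_mod_cast h1
  have h2' : (nrm z : ℝ) ≤ nrm (y - z) + nrm y := by exact_mod_cast h2
  exact abs_le.2 ⟨by linarith, by linarith⟩

theorem mem_bx {H K : ℕ} {y : V D} (h0 : y 0 = (H : ℤ)) (h1 : nrm y ≤ K) :
    y ∈ bx (up D H) 0 K := by
  rw [bx, Fintype.mem_piFinset]
  intro j
  by_cases hj : j = 0
  · subst hj; simp [up, h0]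
  · have := abs_le.1 (nrm_le_iff.1 h1 j)
    simp only [hj, if_false, up, Pi.single_eq_of_ne hj, mem_Icc, add_zero, zero_sub, zero_add]
    exact this

/-- the tail of the survival estimate -/
theorem tail {C E l n : ℝ} (hC : 1 ≤ C) (hl : 1 ≤ l) (hl2 : 128 * C ^ 3 * E ≤ l)
    (hn : l ^ 4 / 4 ≤ n) : C * l ^ 2 * exp (-(n / (C * l ^ 2))) * E ≤ 1 / 4 := by
  have hl0 : 0 < l := by linarith
  have hC0 : 0 < C := by linarith
  set u := n / (C * l ^ 2) with hu
  have h1 : l ^ 2 / (4 * C) ≤ u := by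
    rw [hu, div_le_div_iff₀ (by positivity) (by positivity)]
    nlinarith [mul_le_mul_of_nonneg_left hn (show 0 ≤ 4 * C by positivity)]
  have h2 : 0 < l ^ 2 / (4 * C) := by positivity
  have h3 : u ^ 2 / 2 ≤ exp u := by
    have := Real.pow_div_factorial_le_exp u (by linarith) 2
    simpa using this
  have h4 : (l ^ 2 / (4 * C)) ^ 2 ≤ u ^ 2 := pow_le_pow_left₀ h2.le h1 2
  have h5 : l ^ 4 / (32 * C ^ 2) ≤ exp u := by
    have : l ^ 4 / (32 * C ^ 2) = (l ^ 2 / (4 * C)) ^ 2 / 2 := by field_simp; ring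
    linarith
  rw [exp_neg, mul_assoc, mul_comm (exp u)⁻¹, ← mul_assoc, ← div_eq_mul_inv,
    div_le_iff₀ (exp_pos _)]
  refine le_trans ?_ (mul_le_mul_of_nonneg_left h5 (by norm_num))
  rw [← mul_div_assoc, le_div_iff₀ (by positivity)]
  have h6 : 128 * C ^ 3 * E ≤ l ^ 2 := hl2.trans (by nlinarith)
  nlinarith [mul_le_mul_of_nonneg_left h6 (show 0 ≤ l ^ 2 by positivity)]

end Ov2

open Ov2 in
theorem ov2 (hS : SURStmt) (hH : HITStmt) : OV2Stmt := by
  intro D Λ _
  obtain ⟨C₁, l₁, hC₁, hS⟩ := hS D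
  obtain ⟨ξ, C₂, l₂, hξ, -, hC₂, hH⟩ := hH D
  set E : ℝ := exp (2 * Λ) with hE
  have hE0 : 0 < E := exp_pos _
  refine ⟨⌈4 * C₂ * E / ξ⌉₊, max (max l₁ l₂) ⌈128 * C₁ ^ 3 * E⌉₊, ?_⟩
  intro ω R m h δ rep w hG l lam hl hs hw hR
  set κ : ℕ := ⌈4 * C₂ * E / ξ⌉₊ with hκ
  set H : ℕ := Λ * l / 2 with hHd
  set n : ℕ := l ^ 4 / 2 with hn
  have hl16 := hs.l16
  have hl0 := hs.lpos
  have hlam := hs.pos
  have hl4 : 16 * l ≤ l ^ 4 := by
    calc 16 * l ≤ l ^ 3 * l := Nat.mul_le_mul_right _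
          (hl16.trans (Nat.le_self_pow (by norm_num) l))
      _ = l ^ 4 := by ring
  have hHl : lam * (H : ℝ) ≤ 2 * Λ := by
    have h1 : 2 * H ≤ Λ * l := by omega
    have h2 : 2 * (H : ℝ) ≤ Λ * l := by exact_mod_cast h1
    have h3 : (0 : ℝ) ≤ Λ := Nat.cast_nonneg _
    nlinarith [mul_le_mul_of_nonneg_left h2 hlam.le, mul_le_mul_of_nonneg_left hs.mul_le h3]
  set A : Set (V D) := {y | y 0 < (H : ℤ) ∧ nrm y < κ * l} with hA
  set Z : Set (V D) := {y | κ * l ≤ nrm y ∧ y 0 ≤ (H : ℤ)} with hZ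
  -- the walk does not go far sideways
  have hit : Gs lam ω A (n + 1) (chi Z) 0 ≤ 1 / 4 := by
    have h1 := hH ω R m h δ rep w hG l lam (by omega) hs 0 A Z (fun y => ξ / l * (nrm y : ℝ)) n
      (exp (-(2 * Λ) + ξ * κ)) hw (by simp only [nrm_zero]; omega)
      (Set.disjoint_left.2 fun y hy hy' => absurd hy.2 (not_lt.2 hy'.1))
      (lip_nrm (by positivity)) (exp_pos _) fun z hz => by
        rw [wf]
        refine exp_le_exp.2 (add_le_add (neg_le_neg ?_) ?_)
        · have : (z 0 : ℝ) ≤ H := by exact_mod_cast hz.2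
          exact (mul_le_mul_of_nonneg_left this hlam.le).trans hHl
        · have : (κ : ℝ) * l ≤ nrm z := by exact_mod_cast hz.1
          rw [div_mul_eq_mul_div, le_div_iff₀ hl0, mul_assoc]
          exact mul_le_mul_of_nonneg_left this hξ.le
    refine h1.trans ?_
    have h2 : wf lam (fun y : V D => ξ / l * (nrm y : ℝ)) 0 = 1 := by simp [wf]
    rw [h2, mul_one, div_le_iff₀ (exp_pos _), exp_add, exp_neg, ← hE]
    have h3 : 4 * C₂ * E / ξ ≤ κ := Nat.le_ceil _
    have h4 : 4 * C₂ * E ≤ ξ * κ := by rw [div_le_iff₀ hξ] at h3; linarith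
    have h5 : ξ * κ ≤ exp (ξ * κ) := by linarith [add_one_le_exp (ξ * κ)]
    rw [inv_mul_eq_div, ← mul_div_assoc, le_div_iff₀ hE0]
    linarith
  -- the walk does not stay
  have sur : Pk lam ω A n (chi A) 0 ≤ 1 / 4 := by
    have h1 := (hS ω R m h δ rep w hG l lam (by omega) hs 0 A H n hw
      (by simp only [nrm_zero]; omega) fun y hy => hy.1).1
    refine (Pk_mono (fun y => ?_) n 0).trans (h1.trans ?_)
    · by_cases hy : y ∈ A
      · rw [chi_of_mem hy, Set.indicator_of_mem hy]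
        refine one_le_exp (mul_nonneg hlam.le ?_)
        have : (0 : ℤ) ≤ H - y 0 := by have := hy.1; omega
        exact_mod_cast this
      · rw [chi_of_not hy, Set.indicator_of_notMem hy]
    · have h2 : exp (lam * (((H : ℤ) - (0 : V D) 0 : ℤ) : ℝ)) ≤ E := by
        refine exp_le_exp.2 ?_
        simpa using hHl
      refine (mul_le_mul_of_nonneg_left h2 (by positivity)).trans ?_
      refine tail hC₁ (by exact_mod_cast (show 1 ≤ l by omega)) ?_ ?_
      · exact (Nat.le_ceil _).trans (by exact_mod_cast (show ⌈128 * C₁ ^ 3 * E⌉₊ ≤ l by omega))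
      · have h3 : l ^ 4 ≤ 4 * n := by omega
        have h4 : (l : ℝ) ^ 4 ≤ 4 * n := by exact_mod_cast h3
        linarith
  have ex := exit_add_eq (lam := lam) (ω := ω) A n 0 (wide_Zq hG.h1 hw lam)
  have spl : Gs lam ω A (n + 1) (chi Aᶜ) 0 ≤
      Gs lam ω A (n + 1) (chi (bx (up D H) 0 (κ * l) : Set (V D))) 0 +
        Gs lam ω A (n + 1) (chi Z) 0 := by
    rw [← Gs_add]
    refine sum_le_sum fun k _ => Pk_mono_loc k (fun _ y => y 0 ≤ (H : ℤ) ∧ nrm y ≤ κ * l) 0
      ⟨by simp, by simp⟩ (fun _ _ y s _ hy _ => ⟨?_, ?_⟩) fun y hy => ?_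
    · have := (vec_bounds s 0).2
      have := hy.1
      simp only [Pi.add_apply]; omega
    · have := nrm_add_le y (vec s)
      have := hy.2
      rw [nrm_vec] at *; omega
    · by_cases hy' : y ∈ A
      · rw [chi_of_not (by simpa using hy')]
        exact add_nonneg (chi_nonneg _ _) (chi_nonneg _ _)
      · rw [chi_of_mem (show y ∈ Aᶜ from hy')]
        by_cases h0 : y 0 = (H : ℤ)
        · rw [chi_of_mem (show y ∈ (bx (up D H) 0 (κ * l) : Set (V D)) from mem_bx h0 hy.2)]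
          linarith [chi_nonneg Z y]
        · have h1 : y ∈ Z := ⟨not_lt.1 fun c => hy' ⟨lt_of_le_of_ne hy.1 h0, c⟩, hy.1⟩
          rw [chi_of_mem h1]
          linarith [chi_nonneg (bx (up D H) 0 (κ * l) : Set (V D)) y]
  have dom := Gs_dom (lam := lam) (ω := ω) (U := A) (U' := {y : V D | y 0 < (H : ℤ)})
    (fun y hy => hy.1) (chi_nonneg (bx (up D H) 0 (κ * l) : Set (V D))) (n + 1) 0
  linarith

end Pool.Agent.MP_8c549f_pr.L2

end
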