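import Pool.Agent.MP_8c549f_pr.L2.Basic
import Mathlib.Algebra.Order.Chebyshev
import Mathlib.Algebra.Order.BigOperators.Ring.Finset

/-! PROJECT L2: the weighted Poincare inequality on a box. -/

noncomputable section

namespace Pool.Agent.MP_8c549f_pr.L2

open MeasureTheory Finset Real Classical S3

namespace Pl

variable {D : ℕ}

theorem mem_box {a : V D} {r : Fin (D + 1) → ℕ} {x : V D} :
    x ∈ box a r ↔ ∀ j, a j ≤ x j ∧ x j < a j + r j := by
  simp [box, Fintype.mem_piFinset]

/-- the first `n` coordinates from `y`, the others from `z` -/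
def mix (z y : V D) (n : ℕ) : V D := fun j => if (j : ℕ) < n then y j else z j

theorem mix_zero (z y : V D) : mix z y 0 = z := by funext j; simp [mix]

theorem mix_last (z y : V D) : mix z y (D + 1) = y := by funext j; simp [mix, j.2]

theorem mix_succ (z y : V D) (i : Fin (D + 1)) :
    mix z y (i + 1) = Function.update (mix z y i) i (y i) := by
  funext j
  by_cases h : j = i
  · subst h; simp [mix]
  · have h' : (j : ℕ) ≠ i := fun e => h (Fin.ext e)
    rw [Function.update_of_ne h]
    simp only [mix]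
    by_cases h1 : (j : ℕ) < i
    · rw [if_pos h1, if_pos (by omega)]
    · rw [if_neg h1, if_neg (by omega)]

theorem mix_mem {a : V D} {r : Fin (D + 1) → ℕ} {z y : V D} (hz : z ∈ box a r) (hy : y ∈ box a r)
    (n : ℕ) : mix z y n ∈ box a r := by
  rw [mem_box] at *
  intro j
  simp only [mix]
  split_ifs
  exacts [hy j, hz j]

theorem mix_mix (z y : V D) (n : ℕ) : mix (mix z y n) (mix y z n) n = z := by
  funext j
  simp only [mix]
  split_ifs <;> rfl

theorem sum_mix (a : V D) (r : Fin (D + 1) → ℕ) (n : ℕ) (Φ : V D → ℝ) :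
    ∑ z ∈ box a r, ∑ y ∈ box a r, Φ (mix z y n) = (box a r).card * ∑ u ∈ box a r, Φ u := by
  have h1 : ∑ p ∈ box a r ×ˢ box a r, Φ (mix p.1 p.2 n) = ∑ p ∈ box a r ×ˢ box a r, Φ p.1 := by
    refine sum_nbij' (fun p => (mix p.1 p.2 n, mix p.2 p.1 n))
      (fun p => (mix p.1 p.2 n, mix p.2 p.1 n)) ?_ ?_ ?_ ?_ ?_
    · intro p hp
      rw [mem_product] at hp ⊢
      exact ⟨mix_mem hp.1 hp.2 n, mix_mem hp.2 hp.1 n⟩
    · intro p hp
      rw [mem_product] at hp ⊢
      exact ⟨mix_mem hp.1 hp.2 n, mix_mem hp.2 hp.1 n⟩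
    · intro p _; simp only [mix_mix]
    · intro p _; simp only [mix_mix]
    · intro p _; rfl
  rw [sum_product, sum_product] at h1
  rw [h1, mul_sum]
  exact sum_congr rfl fun u _ => by simp

theorem sum_line (a : V D) (r : Fin (D + 1) → ℕ) (i : Fin (D + 1)) (ψ : V D → ℝ) :
    ∑ u ∈ box a r, ∑ k ∈ range (r i), ψ (Function.update u i (a i + k)) =
      r i * ∑ u ∈ box a r, ψ u := by
  have hm : ∀ p ∈ box a r ×ˢ range (r i),
      (Function.update p.1 i (a i + p.2), (p.1 i - a i).toNat) ∈ box a r ×ˢ range (r i) := by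
    intro p hp
    rw [mem_product, mem_box, mem_range] at hp ⊢
    refine ⟨fun j => ?_, ?_⟩
    · by_cases h : j = i
      · subst h
        have := hp.2
        simp only [Function.update_self]
        omega
      · simp only [Function.update_of_ne h]; exact hp.1 j
    · have := hp.1 i
      simp only
      omega
  have hi : ∀ p ∈ box a r ×ˢ range (r i),
      (Function.update (Function.update p.1 i (a i + p.2)) i (a i + ((p.1 i - a i).toNat : ℕ)),
        (Function.update p.1 i (a i + p.2) i - a i).toNat) = p := by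
    intro p hp
    rw [mem_product, mem_box] at hp
    have := hp.1 i
    refine Prod.ext ?_ ?_
    · simp only [Function.update_idem]
      rw [show a i + ((p.1 i - a i).toNat : ℕ) = p.1 i by omega, Function.update_eq_self]
    · simp
  have h1 : ∑ p ∈ box a r ×ˢ range (r i), ψ (Function.update p.1 i (a i + p.2)) =
      ∑ p ∈ box a r ×ˢ range (r i), ψ p.1 :=
    sum_nbij' (fun p => (Function.update p.1 i (a i + p.2), (p.1 i - a i).toNat))
      (fun p => (Function.update p.1 i (a i + p.2), (p.1 i - a i).toNat)) hm hm hi hi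
      fun p _ => rfl
  rw [sum_product, sum_product] at h1
  rw [h1, mul_sum]
  exact sum_congr rfl fun u _ => by simp

theorem tele (φ : ℕ → ℝ) {s t n : ℕ} (hs : s ≤ n) (ht : t ≤ n) :
    |φ t - φ s| ≤ ∑ k ∈ range n, |φ (k + 1) - φ k| := by
  have key : ∀ s t : ℕ, s ≤ t → t ≤ n → |φ t - φ s| ≤ ∑ k ∈ range n, |φ (k + 1) - φ k| := by
    intro s t hst ht
    rw [← sum_Ico_sub φ hst]
    refine (abs_sum_le_sum_abs _ _).trans (sum_le_sum_of_subset_of_nonneg ?_ fun _ _ _ => abs_nonneg _)
    intro k hk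
    rw [mem_Ico] at hk
    exact mem_range.2 (by omega)
  rcases le_total s t with h | h
  · exact key s t h ht
  · rw [abs_sub_comm]; exact key t s h hs

theorem line (φ w : ℕ → ℝ) {s t n : ℕ} (hs : s < n) (ht : t < n) (hw : ∀ k, 0 < w k) {c : ℝ}
    (hc : ∑ k ∈ range n, w k ≤ c) :
    (φ t - φ s) ^ 2 ≤ c * ∑ k ∈ range n, (φ (k + 1) - φ k) ^ 2 / w k := by
  have h1 := tele φ hs.le ht.le
  have h2 := sq_sum_div_le_sum_sq_div (range n) (fun k => |φ (k + 1) - φ k|) fun k _ => hw k
  have h3 : 0 < ∑ k ∈ range n, w k := sum_pos (fun k _ => hw k) ⟨s, mem_range.2 hs⟩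
  simp only [sq_abs] at h2
  rw [div_le_iff₀ h3] at h2
  have h4 : 0 ≤ ∑ k ∈ range n, (φ (k + 1) - φ k) ^ 2 / w k :=
    sum_nonneg fun k _ => div_nonneg (sq_nonneg _) (hw k).le
  calc (φ t - φ s) ^ 2 = |φ t - φ s| ^ 2 := (sq_abs _).symm
    _ ≤ (∑ k ∈ range n, |φ (k + 1) - φ k|) ^ 2 := pow_le_pow_left₀ (abs_nonneg _) h1 2
    _ ≤ _ := h2.trans (by rw [mul_comm]; exact mul_le_mul_of_nonneg_right hc h4)

theorem upd_add (u : V D) (i : Fin (D + 1)) (s k : ℤ) :
    Function.update u i s + Pi.single i k = Function.update u i (s + k) := by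
  funext j
  by_cases h : j = i
  · subst h; simp
  · simp [Function.update_of_ne h, Pi.single_eq_of_ne h]

end Pl

open Pl in
theorem pl (hC : CNTStmt) : PLStmt := by
  intro D m ρ δ w g a r hm h0 h1 hw hS hr
  have hw0 : ∀ z, 0 < w z := fun z => lt_of_lt_of_le one_pos (hw z)
  set G : Fin (D + 1) → V D → ℝ := fun i x => (g (x + Pi.single i 1) - g x) ^ 2 / w x with hG
  have hG0 : ∀ i x, 0 ≤ G i x := fun i x => div_nonneg (sq_nonneg _) (hw0 x).le
  have hρ : ∀ i, (r i : ℝ) ≤ ρ := fun i => by exact_mod_cast (hr i).2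
  have hl : ∀ (i : Fin (D + 1)), ∀ u ∈ box a r, ∀ y ∈ box a r,
      (g (Function.update u i (y i)) - g u) ^ 2 ≤
        3 * ρ * ∑ k ∈ range (r i), G i (Function.update u i (a i + k)) := by
    intro i u hu y hy
    have hu' := mem_box.1 hu i
    have hy' := mem_box.1 hy i
    have hc := (hC D m δ w hm h0 hw hS).1 (Function.update u i (a i)) i (r i) (hr i).1
    simp only [upd_add, sum_sub_distrib, sum_const, card_range, nsmul_eq_mul, mul_one] at hc
    have hc' : ∑ k ∈ range (r i), w (Function.update u i (a i + k)) ≤ 3 * ρ := by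
      have : (0 : ℝ) ≤ r i := Nat.cast_nonneg _
      nlinarith [hρ i]
    have := line (fun k : ℕ => g (Function.update u i (a i + k)))
      (fun k : ℕ => w (Function.update u i (a i + k))) (s := (u i - a i).toNat)
      (t := (y i - a i).toNat) (n := r i) (by omega) (by omega) (fun k => hw0 _) hc'
    rw [show a i + ((u i - a i).toNat : ℕ) = u i by omega,
      show a i + ((y i - a i).toNat : ℕ) = y i by omega, Function.update_eq_self] at this
    refine this.trans (le_of_eq ?_)
    congr 1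
    refine sum_congr rfl fun k _ => ?_
    simp only [hG, upd_add, Nat.cast_add, Nat.cast_one, add_assoc]
  have hp : ∀ z ∈ box a r, ∀ y ∈ box a r, (g z - g y) ^ 2 ≤ (D + 1) * (3 * ρ) *
      ∑ i : Fin (D + 1), ∑ k ∈ range (r i), G i (Function.update (mix z y i) i (a i + k)) := by
    intro z hz y hy
    have e1 := sum_range_sub (fun n => g (mix z y n)) (D + 1)
    rw [mix_zero, mix_last, sum_range] at e1
    have e2 := sq_sum_le_card_mul_sum_sq (s := (univ : Finset (Fin (D + 1))))
      (f := fun i => g (mix z y (i + 1)) - g (mix z y i))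
    rw [e1, card_univ, Fintype.card_fin] at e2
    rw [show (g z - g y) ^ 2 = (g y - g z) ^ 2 by ring, mul_assoc, mul_sum]
    refine e2.trans ?_
    push_cast
    refine mul_le_mul_of_nonneg_left (sum_le_sum fun i _ => ?_) (by positivity)
    rw [mix_succ]
    exact hl i _ (mix_mem hz hy i) y hy
  refine (sum_le_sum fun z hz => sum_le_sum fun y hy => hp z hz y hy).trans ?_
  simp only [← mul_sum]
  have e3 : ∑ z ∈ box a r, ∑ y ∈ box a r, ∑ i : Fin (D + 1), ∑ k ∈ range (r i),
      G i (Function.update (mix z y i) i (a i + k)) =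
      ∑ i : Fin (D + 1), (box a r).card * (r i * ∑ x ∈ box a r, G i x) := by
    rw [sum_congr rfl fun z _ => sum_comm, sum_comm]
    refine sum_congr rfl fun i _ => ?_
    rw [sum_mix a r i fun u => ∑ k ∈ range (r i), G i (Function.update u i (a i + k)),
      sum_line a r i (G i)]
  rw [e3]
  have e4 : ∑ i : Fin (D + 1), (box a r).card * (r i * ∑ x ∈ box a r, G i x) ≤
      (box a r).card * (ρ * ∑ x ∈ box a r, ∑ i, G i x) := by
    rw [sum_comm, mul_sum, mul_sum]
    exact sum_le_sum fun i _ => mul_le_mul_of_nonneg_left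
      (mul_le_mul_of_nonneg_right (hρ i) (sum_nonneg fun x _ => hG0 i x)) (Nat.cast_nonneg _)
  have e5 : 0 ≤ ∑ x ∈ box a r, ∑ i, G i x := sum_nonneg fun x _ => sum_nonneg fun i _ => hG0 i x
  refine (mul_le_mul_of_nonneg_left e4 (by positivity)).trans ?_
  change _ ≤ _ * ∑ x ∈ box a r, ∑ i, G i x
  have e6 : 0 ≤ ((D : ℝ) + 1) * (ρ : ℝ) ^ 2 * (box a r).card * ∑ x ∈ box a r, ∑ i, G i x := by
    positivity
  nlinarith

end Pool.Agent.MP_8c549f_pr.L2

end
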