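import Pool.Agent.MP_8c549f_pr.L2.Basic

/-! PROJECT L2: statements of the annealed part (calculus, chains of legs, regeneration). -/

noncomputable section

namespace Pool.Agent.MP_8c549f_pr.L2

open MeasureTheory Finset Real Classical S3
open scoped ENNReal

/-! ### dependence on the bias -/

def STEPStmt : Prop := ∀ (D : ℕ) (lam a : ℝ) (ω : Cfg D) (l : List (Step D)) (x : V D), |a| ≤ 1 →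
  wr lam ω x l * exp (a * Mg lam ω x l - a ^ 2 * l.length) ≤ wr (lam + a) ω x l ∧
  wr (lam + a) ω x l ≤ wr lam ω x l * exp (a * Mg lam ω x l) ∧ |Mg lam ω x l| ≤ 2 * l.length

def CALStmt : Prop := ∀ (D L N : ℕ) (ω : Cfg D) (x z z' a : ℝ), x ≤ z → z < z' → z - x ≤ 1 →
  z' - z ≤ 1 → 0 < a → a ≤ 1 →
  tt z L N ω - tt x L N ω ≤ (z - x) *
    ((tt z' L N ω - tt z L N ω) / (z' - z) + (z - x + (z' - z)) * t2 z L N ω) ∧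
  ∑ l ∈ Lg D L N, |wr z ω 0 l - wr x ω 0 l| ≤
    2 * (z - x) * (a * tt z L N ω + 2 / a) + 2 * (z - x) ^ 2 * tt z L N ω + (1 - ms z L N ω)

def THREEStmt : Prop := ∀ (D : ℕ) (x s ζ : ℝ) (ω : Cfg D) (l : List (Step D)) (y : V D),
  0 < s → s ≤ ζ → ζ ≤ 1 →
  |wr (x + s) ω y l - ((1 - s / ζ) * wr x ω y l + s / ζ * wr (x + ζ) ω y l)| ≤
    16 * s * ζ * (l.length : ℝ) ^ 2 * (wr x ω y l + wr (x + s) ω y l + wr (x + ζ) ω y l)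

def REGStmt : Prop := ∀ (D : ℕ) (p x s ζ M c : ℝ), 0 ≤ p → p ≤ 1 → 0 < s → s ≤ ζ → ζ ≤ 1 →
  0 ≤ M → (∀ lam, lam = x ∨ lam = x + s ∨ lam = x + ζ →
    SS {l : List (Step D) | Block l} (wb true p lam) = 1 ∧ M3 D p lam ≤ ENNReal.ofReal M) →
  kap D p (x + ζ) - kap D p x ≤ -(c * ζ) → 48 * ζ * M * (1 + M) < c → kap D p (x + s) < kap D p x

/-! ### chains of legs -/

def MPStmt : Prop := ∀ (D : ℕ) (p : ℝ), 0 ≤ p → p ≤ 1 →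
  (∀ S : Set (Edge D), MeasurePreserving (fun q : Cfg D × Cfg D => ovw S q.1 q.2)
    ((perc D p).prod (perc D p)) (perc D p)) ∧
  ∀ y : V D, MeasurePreserving (shift y) (perc D p) (perc D p)

def VBStmt : Prop := ∀ (D : ℕ) (p : ℝ), 0 ≤ p → p ≤ 1 →
  (∀ (S : Set (Edge D)) (η : Cfg D), Measurable (ovw S η)) ∧
  (∀ (u : Cfg D → ℝ) (f : Cfg D → Cfg D), BM u → Measurable f →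
    Integrable (fun ω => u (f ω)) (perc D p)) ∧
  (∀ u : Cfg D → ℝ, BM u → BM (Fr p u)) ∧
  (∀ G : Cfg D → Prop, MeasurableSet {ω | G ω} →
    BM (fun ω => S3.ind (¬ G ω)) ∧ BM (bad p G) ∧ ∀ η, 0 ≤ bad p G η) ∧
  ∀ (lam : ℝ) (L N : ℕ), (BM (tt (D := D) lam L N) ∧ ∀ ω : Cfg D, 0 ≤ tt lam L N ω ∧ tt lam L N ω ≤ N) ∧
    (∀ u : Cfg D → ℝ, BM u → BM (Kk lam L N u)) ∧
    (∀ (u : Cfg D → ℝ) (c : ℝ), 0 ≤ c → (∀ ω, 0 ≤ u ω ∧ u ω ≤ c) →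
      ∀ ω, 0 ≤ Kk lam L N u ω ∧ Kk lam L N u ω ≤ c) ∧
    ∀ n, BM (Vn (D := D) lam L N n) ∧ ∀ ω : Cfg D, (0 ≤ Vn lam L N n ω ∧ Vn lam L N n ω ≤ n * N) ∧
      0 ≤ Fr p (Vn lam L N n) ω ∧ Fr p (Vn lam L N n) ω ≤ n * N

/-- the edges above the end of a first passage are fresh -/
def FRStmt : Prop := ∀ (D : ℕ) (p lam : ℝ), 0 ≤ p → p ≤ 1 → ∀ u : Cfg D → ℝ, BM u →
  (∀ (S : Set (Edge D)) (η : Cfg D) (l : List (Step D)), S ⊆ Past D → Rec l → 0 ≤ lev l →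
    ∫ ω, wr lam (ovw S η ω) 0 l * u (shift (pos l) (ovw S η ω)) ∂perc D p =
      ∫ ω, wr lam (ovw S η ω) 0 l * Fr p u (shift (pos l) (ovw S η ω)) ∂perc D p) ∧
  ∀ (L N : ℕ) (η : Cfg D), Fr p (Kk lam L N u) η = Fr p (Kk lam L N (Fr p u)) η

def CPLStmt : Prop := ∀ (ι : Type) (T : Finset ι) (a₁ a₂ u₁ u₂ b₁ b₂ : ι → ℝ) (A B U τ c : ℝ),
  (∀ i, 0 ≤ a₁ i ∧ 0 ≤ a₂ i ∧ 0 ≤ b₁ i ∧ 0 ≤ b₂ i ∧ u₁ i ≤ U ∧ 0 ≤ u₂ i) → 0 ≤ U → 0 ≤ τ →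
  0 ≤ A → A ≤ B → ∑ i ∈ T, a₁ i ≤ 1 → ∑ i ∈ T, a₂ i ≤ 1 → 1 - τ ≤ ∑ i ∈ T, a₂ i →
  c ≤ ∑ i ∈ T, min (a₁ i) (a₂ i) →
  (∀ i ∈ T, a₁ i ≠ 0 → a₂ i ≠ 0 → u₁ i - u₂ i ≤ A + b₁ i + b₂ i) →
  (∀ i ∈ T, ∀ k ∈ T, u₁ i - u₂ k ≤ B + b₁ i + b₂ k) →
  ∑ i ∈ T, a₁ i * u₁ i - ∑ i ∈ T, a₂ i * u₂ i ≤
    c * A + (1 - c) * B + ∑ i ∈ T, a₁ i * b₁ i + ∑ i ∈ T, a₂ i * b₂ i + τ * U

def MIXStmt : Prop := ∀ (D : ℕ) (p lam : ℝ) (L N : ℕ) (G : ℕ → Cfg D → Prop) (τ c y : ℝ),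
  0 ≤ p → p ≤ 1 → Mix lam L N G τ c y → ∀ (n j : ℕ) (η η' : Cfg D), AgrP (j * L) η η' →
  |Fr p (Vn lam L N n) η - Fr p (Vn lam L N n) η'| ≤
    4 * y / c / 2 ^ j + n * (n * N + 4 * y / c) * (τ + bad p (G n) η + bad p (G n) η')

def TELStmt : Prop := ∀ (D : ℕ) (p x z : ℝ) (L N n₁ : ℕ) (G : ℕ → Cfg D → Prop) (τ c y g θ : ℝ),
  0 ≤ p → p ≤ 1 → Mix x L N G τ c y → Inh z L N G τ → 0 ≤ g → g ≤ N → θ * (4 * y / c) ≤ g →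
  (∀ n ω, G (n + 1) ω → tt z L N ω - tt x L N ω ≤ -(2 * g) ∧
    ∑ l ∈ Lg D L N, |wr z ω 0 l - wr x ω 0 l| ≤ θ + τ) →
  (∀ n ≤ n₁, bad p (G n) (allOpen D) ≤ τ) → ∀ n ≤ n₁, ∀ η : Cfg D,
  Fr p (Vn z L N n) η - Fr p (Vn x L N n) η ≤
    -(n * g) + 7 * (n : ℝ) ^ 2 * (n * N + 4 * y / c) * (τ + bad p (G n) η)

def CHNStmt : Prop := ∀ (D L N : ℕ),
  (∀ n, ∀ l ∈ Chn D L N n, Rec l ∧ lev l = (n * L : ℕ) ∧ l.length ≤ n * N ∧ ∀ i, -(N : ℤ) ≤ H l i) ∧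
  ∀ lam : ℝ, (∀ (n : ℕ) (ω : Cfg D), ∑ l ∈ Chn D L N n, wr lam ω 0 l ≤ 1 ∧
    ∑ l ∈ Chn D L N n, wr lam ω 0 l * l.length ≤ Vn lam L N n ω ∧
    Vn lam L N n ω ≤ ∑ l ∈ Chn D L N n, wr lam ω 0 l * l.length +
      n * N * (1 - ∑ l ∈ Chn D L N n, wr lam ω 0 l)) ∧
  ∀ (G : ℕ → Cfg D → Prop) (τ : ℝ), Inh lam L N G τ → ∀ n ω, G n ω →
    1 - n * τ ≤ ∑ l ∈ Chn D L N n, wr lam ω 0 l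

/-- a first piece that stays above the start, followed by `n` legs -/
def LK1Stmt : Prop := ∀ (D L N h₀ N₁ n : ℕ), N ≤ h₀ → ∃ T : Finset (List (Step D)),
  (T : Set (List (Step D))) ⊆ FPS D (h₀ + n * L) ∧ ∀ (lam : ℝ) (ω : Cfg D),
  ∑ l ∈ T, wr lam ω 0 l = ∑ u ∈ (Lg D h₀ N₁).filter Stay, wr lam ω 0 u *
    ∑ l ∈ Chn D L N n, wr lam (shift (pos u) ω) 0 l ∧
  ∑ l ∈ T, wr lam ω 0 l * l.length = ∑ u ∈ (Lg D h₀ N₁).filter Stay, wr lam ω 0 u *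
    (u.length * ∑ l ∈ Chn D L N n, wr lam (shift (pos u) ω) 0 l +
      ∑ l ∈ Chn D L N n, wr lam (shift (pos u) ω) 0 l * l.length)

def QFStmt : Prop := ∀ (D : ℕ) (p lam : ℝ), 0 ≤ p → p ≤ 1 → ∀ k : ℕ,
  QQ D p lam k + ∑ i ∈ range k, Ret D p lam i ≤ 1 ∧
  (∀ n, 1 ≤ QQ D p lam k + ∑ i ∈ range k, Ret D p lam i + Sl D p lam k n) ∧
  (∀ k', k ≤ k' → QQ D p lam k' ≤ QQ D p lam k) ∧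
  ∀ n, SS {l | l ∈ FPS D k ∧ n < l.length} (wb true p lam) ≤ Sl D p lam k n

def LINKStmt : Prop := ∀ (D : ℕ) (p lam : ℝ) (L N h₀ N₁ n M : ℕ) (G : ℕ → Cfg D → Prop)
  (G₀ : Cfg D → Prop) (τ Y E c σ T : ℝ), 0 ≤ p → p ≤ 1 → N ≤ h₀ → Inh lam L N G τ →
  MeasurableSet {ω | G₀ ω} → (perc D p).real {ω | ¬ G₀ ω} ≤ τ →
  (∀ ω, G₀ ω → ∀ l ∈ Lg D h₀ N₁, wr lam (plus ω) 0 l ≠ 0 → G n (shift (pos l) (plus ω))) →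
  0 ≤ Y → 0 ≤ E → 0 ≤ c → c ≤ n * N → 0 ≤ σ → 0 ≤ T →
  (∀ η, |Fr p (Vn lam L N n) η - c| ≤ Y + E * (2 * τ + bad p (G n) η)) →
  SS {l | l ∈ FPS D h₀ ∧ N₁ < l.length} (wb true p lam) ≤ ENNReal.ofReal σ →
  (SS {l | l ∈ FPS D (h₀ + n * L) ∧ M < l.length} fun l => l.length * wb true p lam l) ≤
    ENNReal.ofReal T →
  |(XX D p lam (h₀ + n * L)).toReal - (QQ D p lam h₀).toReal * c| ≤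
    N₁ + Y + 3 * E * τ + 2 * (n : ℝ) ^ 2 * N * τ + n * N * σ + M * (σ + (n + 1) * τ) + T

/-! ### from the quenched estimates to the hypotheses of the chain -/

def BTStmt : Prop := ∀ (D : ℕ) (lam : ℝ) (L N k : ℕ) (ω ω' : Cfg D), Agr k ω ω' →
  ms lam L N ω - bt lam L N k ω ≤ ovl lam L N ω ω' ∧
  tt lam L N ω - tt lam L N ω' ≤ √(t2 lam L N ω * bt lam L N k ω) ∧
  tt lam L N ω ^ 2 ≤ t2 lam L N ω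

def GOODStmt : Prop := ∀ (D A m h N : ℕ) (δ : ℝ),
  (∀ n, MeasurableSet {ω : Cfg D | Gn A m h δ N n ω}) ∧
  (∀ (lam : ℝ) (L n : ℕ) (ω : Cfg D), Gn A m h δ N (n + 1) ω → ∀ l ∈ Lg D L N,
    wr lam ω 0 l ≠ 0 → Gn A m h δ N n (shift (pos l) ω)) ∧
  (∀ (p : ℝ) (n R : ℕ), 0 ≤ p → p ≤ 1 → (n + 2) * N ≤ R →
    bad p (Gn A m h δ N n) (allOpen D) ≤ (perc D p).real {ω | ¬ Nice A m h δ R ω}) ∧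
  ∀ (lam : ℝ) (n R h₀ N₁ : ℕ) (ω : Cfg D), (n + 2) * N + N₁ ≤ R → 12 * h ≤ h₀ →
    Nice A m h δ R ω → ∀ l ∈ Lg D h₀ N₁, wr lam (plus ω) 0 l ≠ 0 →
    Gn A m h δ N n (shift (pos l) (plus ω))

/-- the quenched estimates at the scale `l` -/
structure Qu (D A Λ K l : ℕ) (δ C c ε : ℝ) : Prop where
  leg : ∀ (lam : ℝ) (n : ℕ) (ω : Cfg D), 1 / (l : ℝ) ≤ lam → lam ≤ 4 / (l : ℝ) →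
    Gn A (mm l) (hA A l) δ (l ^ 4) n ω →
    1 - 1 / (l : ℝ) ^ K ≤ ms lam (Λ * l) (l ^ 4) ω ∧ t2 lam (Λ * l) (l ^ 4) ω ≤ C * (l : ℝ) ^ 4 ∧
    (∀ j, 1 ≤ j → bt lam (Λ * l) (l ^ 4) (j * (Λ * l)) ω ≤ 1 / 16 ^ j) ∧
    |tt lam (Λ * l) (l ^ 4) ω - Λ * l / d0 D lam| ≤ ε * (l : ℝ) ^ 2
  ovl : ∀ (lam : ℝ) (n : ℕ) (ω ω' : Cfg D), 1 / (l : ℝ) ≤ lam → lam ≤ 4 / (l : ℝ) →
    Gn A (mm l) (hA A l) δ (l ^ 4) n ω → Gn A (mm l) (hA A l) δ (l ^ 4) n ω' → Agr 0 ω ω' →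
    c ≤ ovl lam (Λ * l) (l ^ 4) ω ω'

def QUStmt : Prop := ∀ D : ℕ, 1 ≤ D → ∃ (A Λ : ℕ) (C c : ℝ), 2 ≤ A ∧ 1 ≤ Λ ∧ 1 ≤ C ∧ 0 < c ∧
  c ≤ 1 ∧ ∀ ε : ℝ, 0 < ε → ∃ δ : ℝ, 0 < δ ∧ ∀ K : ℕ, ∃ l₀ : ℕ, ∀ l, l₀ ≤ l → 2 ≤ hA A l →
    hA A l ≤ mm l → mm l ^ 8 ≤ l → Qu D A Λ K l δ C c ε

def HYP1Stmt : Prop := ∀ (D A Λ K l : ℕ) (δ C c ε lam : ℝ), 1 ≤ C → 0 < c → c ≤ 1 → 0 < ε →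
  ε ≤ 1 / 2 → Qu D A Λ K l δ C c ε → 1 / (l : ℝ) ≤ lam → lam ≤ 4 / (l : ℝ) →
  Mix lam (Λ * l) (l ^ 4) (Gn (D := D) A (mm l) (hA A l) δ (l ^ 4)) (1 / (l : ℝ) ^ K) c
    (√(2 * ε * C) * (l : ℝ) ^ 2)

def HYP2Stmt : Prop := ∀ (D A Λ K l : ℕ) (δ C c ε κ x z : ℝ), 1 ≤ Λ → 1 ≤ C → 4 ≤ l → 0 < κ →
  κ ≤ 1 → 2 * κ * C ≤ Λ / (512 * (D + 1)) → 2 * ε ≤ κ * (Λ / (512 * (D + 1))) →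
  Qu D A Λ K l δ C c ε → 1 / (l : ℝ) ≤ x → x ≤ z → z ≤ 3 / (l : ℝ) → z - x ≤ κ / l →
  ∀ (n : ℕ) (ω : Cfg D), Gn A (mm l) (hA A l) δ (l ^ 4) n ω →
  tt z (Λ * l) (l ^ 4) ω - tt x (Λ * l) (l ^ 4) ω ≤
    -(2 * (Λ / (512 * (D + 1)) * (l : ℝ) ^ 3 * (z - x))) ∧
  ∑ u ∈ Lg D (Λ * l) (l ^ 4), |wr z ω 0 u - wr x ω 0 u| ≤
    (4 * C + 4) * l * (z - x) + 1 / (l : ℝ) ^ K

/-! ### regeneration with polynomial constants -/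

def QSStmt : Prop := ∀ D : ℕ, 1 ≤ D → ∃ l₀ : ℕ, ∀ (l m n : ℕ) (lam : ℝ) (ω : Cfg D), l₀ ≤ l →
  1 / (l : ℝ) ≤ lam → lam ≤ 1 → l ^ 8 ≤ n → m ^ 2 ≤ n → Gd ω 0 (2 * n) (hh n) → Wide ω 0 (hh n) →
  SS {u : List (Step D) | u.length = n ∧ ∀ k ≤ n, H u k ≤ m} (W lam ω 0) ≤
    ENNReal.ofReal (1 / (n : ℝ) ^ 9)

def SLABStmt : Prop := ∀ D : ℕ, 1 ≤ D → ∃ (e₀ : ℝ) (l₀ : ℕ), 0 < e₀ ∧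
  ∀ (p lam : ℝ) (l m n : ℕ), 1 - e₀ ≤ p → p ≤ 1 → 0 ≤ p → l₀ ≤ l → 1 / (l : ℝ) ≤ lam → lam ≤ 1 →
  l ^ 8 ≤ n → m ^ 2 ≤ n → (perc D p).real {ω | ¬ Gd ω 0 (2 * n) (hh n)} ≤ 1 / (n : ℝ) ^ 9 ∧
    Sl D p lam m n ≤ ENNReal.ofReal (1 / (n : ℝ) ^ 8)

def RET0Stmt : Prop := ∀ (D : ℕ) (p lam : ℝ) (i n : ℕ), 0 ≤ p → p ≤ 1 → 0 ≤ lam → lam ≤ 1 →
  Ret D p lam i ≤ Sl D p lam i n +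
    ENNReal.ofReal (20 * (D + 1) * (n + 1) * (2 * n + 1) ^ (D + 1) * exp (-(2 * lam * i)))

def RET1Stmt : Prop := ∀ D : ℕ, 1 ≤ D → ∃ (e₀ : ℝ) (l₀ : ℕ), 0 < e₀ ∧
  ∀ (p lam : ℝ) (l i : ℕ), 1 - e₀ ≤ p → p ≤ 1 → 0 ≤ p → l₀ ≤ l → 1 / (l : ℝ) ≤ lam → lam ≤ 1 →
  Ret D p lam i ≤ ENNReal.ofReal ((l : ℝ) ^ 8 * exp (-(i / ((D + 2) * (l : ℝ)))))

/-- last entrance above the starting level -/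
def LASTStmt : Prop := ∀ (D : ℕ) (p lam : ℝ) (k n : ℕ), 0 ≤ p → p ≤ 1 →
  ∫⁻ ω, SS {u : List (Step D) | u.length ≤ n ∧ Rec u ∧ lev u = (k + 1 : ℕ)} (W lam ω 0) ∂perc D p ≤
    (n * (2 * n + 1) ^ (D + 1) : ℕ) * QQ D p lam k

def Q0Stmt : Prop := ∀ D : ℕ, 1 ≤ D → ∃ (e₀ : ℝ) (K l₀ : ℕ), 0 < e₀ ∧
  ∀ (p lam : ℝ) (l : ℕ), 1 - e₀ ≤ p → p ≤ 1 → 0 ≤ p → l₀ ≤ l → 1 / (l : ℝ) ≤ lam → lam ≤ 1 →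
  ∑' i, Ret D p lam i ≤ ENNReal.ofReal (1 - 1 / (l : ℝ) ^ K)

def HTStmt : Prop := ∀ D : ℕ, 1 ≤ D → ∃ C : ℝ, 1 ≤ C ∧ ∀ (p lam A q μ : ℝ), 1 / 2 ≤ p → p ≤ 1 →
  0 ≤ lam → lam ≤ 1 → 1 ≤ A → 0 < q → q ≤ 1 → 0 < μ → μ ≤ 1 →
  (∀ i : ℕ, Ret D p lam i ≤ ENNReal.ofReal (A * exp (-(μ * i)))) →
  ∑' i, Ret D p lam i ≤ ENNReal.ofReal (1 - q) →
  ∀ m : ℕ, aa D p lam m ≤ ENNReal.ofReal (exp (-(q * μ ^ 2 / (C * A) * m)))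

def RGStmt : Prop := ∀ D : ℕ, 1 ≤ D → ∃ (e₀ : ℝ) (K l₀ : ℕ), 0 < e₀ ∧ 1 ≤ l₀ ∧
  ∀ (p lam : ℝ) (l : ℕ), 1 - e₀ ≤ p → p ≤ 1 → l₀ ≤ l → 1 / (l : ℝ) ≤ lam → lam ≤ 1 →
  Reg D p lam (l ^ K) (1 / (l : ℝ) ^ K) (1 / (l : ℝ) ^ K)

def MOMStmt : Prop := ∃ C : ℝ, 1 ≤ C ∧ ∀ (D : ℕ) (p lam : ℝ) (n₀ : ℕ) (q μ : ℝ),
  Reg D p lam n₀ q μ →
  (∀ G : ℕ → Set (List (Step D)), (∀ m, G m ⊆ FPS D m) →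
    (∀ m, SS (G m) (wb true p lam) ≤ ENNReal.ofReal (3 * exp (-(μ * m)))) →
    ∑' m, (SS (G m) fun l => (l.length : ℝ≥0∞) ^ 3 * wb true p lam l) ≤
      ENNReal.ofReal (C * (n₀ : ℝ) ^ 3 / μ ^ 7)) ∧
  ∀ m M : ℕ, n₀ ≤ M → m ^ 2 ≤ M →
    (SS {l | l ∈ FPS D m ∧ M < l.length} fun l => l.length * wb true p lam l) ≤
      ENNReal.ofReal (4 / (M : ℝ) ^ 5)

def ONE2Stmt : Prop := ∃ C : ℝ, 4 ≤ C ∧ ∀ (D : ℕ) (p lam : ℝ) (n₀ : ℕ) (q μ : ℝ),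
  Reg D p lam n₀ q μ → qq D p lam ≠ 0 ∧ SS {l : List (Step D) | Block l} (wb true p lam) = 1 ∧
    M3 D p lam ≤ ENNReal.ofReal (C * (n₀ : ℝ) ^ 3 / μ ^ 7) ∧
    ∑' m, N1 D p lam m ≤ ENNReal.ofReal (C * (n₀ : ℝ) ^ 3 / μ ^ 7) ∧
    AA D p lam ≠ ∞ ∧ BB D p lam ≠ ∞ ∧ 1 ≤ BR D p lam ∧ BR D p lam ≤ AR D p lam ∧
    AR D p lam ≤ C * (n₀ : ℝ) ^ 3 / μ ^ 7

/-- weight of the blocks of height `m` -/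
def fB (D : ℕ) (p lam : ℝ) (m : ℕ) : ℝ≥0∞ :=
  SS {l : List (Step D) | Block l ∧ lev l = m} (wb true p lam)

/-- mean length of the blocks of height `m` -/
def gB (D : ℕ) (p lam : ℝ) (m : ℕ) : ℝ≥0∞ :=
  SS {l : List (Step D) | Block l ∧ lev l = m} fun l => l.length * wb true p lam l

def REN0Stmt : Prop := ∀ (D : ℕ) (p lam : ℝ), 0 ≤ p → p ≤ 1 → ∀ k : ℕ,
  XX D p lam k = N1 D p lam k + ∑ m ∈ range (k + 1),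
    (gB D p lam m * QQ D p lam (k - m) + fB D p lam m * XX D p lam (k - m))

def RENAStmt : Prop := ∀ (X Q f g e : ℕ → ℝ) (A B κ q a₁ a₂ a₃ a₄ : ℝ), (∀ m, 0 ≤ f m) →
  (∀ m, 0 ≤ g m) → (∀ m, 0 ≤ e m) → (∀ m, q ≤ Q m) → f 0 = 0 → HasSum f 1 →
  HasSum (fun m : ℕ => m * f m) B → HasSum g A → κ * B = A → 0 ≤ κ → 0 ≤ q → q ≤ 1 →
  (∀ n, ∑ m ∈ range n, e m ≤ a₁) → (∀ n, ∑ m ∈ range n, (Q m - q) ≤ a₂) →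
  (∀ n, ∑ m ∈ range n, m * g m ≤ a₃) → (∀ n, ∑ m ∈ range n, (m : ℝ) ^ 2 * f m ≤ a₄) →
  (∀ k, X k = e k + ∑ m ∈ range (k + 1), (g m * Q (k - m) + f m * X (k - m))) →
  ∀ k, |X k - κ * q * k| ≤ a₁ + A * a₂ + a₃ + κ * a₄

def RENStmt : Prop := ∃ C : ℝ, 1 ≤ C ∧ ∀ (D : ℕ) (p lam : ℝ) (n₀ : ℕ) (q μ : ℝ),
  Reg D p lam n₀ q μ → ∃ q' : ℝ, q ≤ q' ∧ q' ≤ 1 ∧ 0 ≤ kap D p lam ∧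
    kap D p lam ≤ C * (n₀ : ℝ) ^ 3 / μ ^ 7 ∧ ∀ k : ℕ,
    |(XX D p lam k).toReal - kap D p lam * q' * k| ≤ (C * (n₀ : ℝ) ^ 3 / μ ^ 7) ^ 2 ∧
    |(QQ D p lam k).toReal - q'| ≤ 2 * n₀ / μ * exp (-(μ * k))

/-- the error in the comparison of `n` legs with the time per level -/
def errK (N n₀ n h₀ N₁ M : ℕ) (τ Y μ C : ℝ) : ℝ :=
  N₁ + Y + 3 * (n * (n * N + Y)) * τ + 2 * (n : ℝ) ^ 2 * N * τ + n * N / (N₁ : ℝ) ^ 8 +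
    M * (1 / (N₁ : ℝ) ^ 8 + (n + 1) * τ) + 4 / (M : ℝ) ^ 5 + (C * (n₀ : ℝ) ^ 3 / μ ^ 7) ^ 2 +
    C * (n₀ : ℝ) ^ 3 / μ ^ 7 * h₀ + n * N * (2 * n₀ / μ * exp (-(μ * h₀)))

def KAPStmt : Prop := ∃ C : ℝ, 1 ≤ C ∧ ∀ (D : ℕ) (p lam : ℝ) (L N n₀ n h₀ N₁ M : ℕ)
  (G : ℕ → Cfg D → Prop) (G₀ : Cfg D → Prop) (τ c y q μ : ℝ), Mix lam L N G τ c y →
  Reg D p lam n₀ q μ → bad p (G n) (allOpen D) ≤ τ → MeasurableSet {ω | G₀ ω} →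
  (perc D p).real {ω | ¬ G₀ ω} ≤ τ →
  (∀ ω, G₀ ω → ∀ l ∈ Lg D h₀ N₁, wr lam (plus ω) 0 l ≠ 0 → G n (shift (pos l) (plus ω))) →
  N ≤ h₀ → n₀ ≤ N₁ → h₀ ^ 2 ≤ N₁ → n₀ ≤ M → (h₀ + n * L) ^ 2 ≤ M →
  q * |Fr p (Vn lam L N n) (allOpen D) - kap D p lam * (n * L)| ≤
    errK N n₀ n h₀ N₁ M τ (4 * y / c) μ C

/-- the choice of the exponents -/
def ARStmt : Prop := ∀ (K₀ K₁ Λ : ℕ) (C Y g : ℝ), 0 ≤ C → 0 ≤ Y → 0 < g → ∃ b l₀ : ℕ, 1 ≤ l₀ ∧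
  ∀ l : ℕ, l₀ ≤ l → l ^ K₀ ≤ l ^ b ∧ (l ^ (K₀ + 4)) ^ 2 ≤ l ^ b ∧ l ^ K₀ ≤ l ^ (7 * b) ∧
    (l ^ (K₀ + 4) + l ^ (3 * b) * (Λ * l)) ^ 2 ≤ l ^ (7 * b) ∧
    (l ^ (3 * b) + 2) * l ^ 4 + l ^ b ≤ l ^ (20 * b) ∧
    7 * ((l : ℝ) ^ (3 * b)) ^ 2 * ((l : ℝ) ^ (3 * b) * (l : ℝ) ^ 4 + Y * (l : ℝ) ^ 2) *
        (2 / (l : ℝ) ^ (20 * b)) +
      2 * (l : ℝ) ^ K₀ * errK (l ^ 4) (l ^ K₀) (l ^ (3 * b)) (l ^ (K₀ + 4)) (l ^ b) (l ^ (7 * b))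
        (1 / (l : ℝ) ^ (20 * b)) (Y * (l : ℝ) ^ 2) (1 / (l : ℝ) ^ K₀) C ≤
      (l : ℝ) ^ (3 * b) * (g * (l : ℝ) ^ 3 / (l : ℝ) ^ K₁) / 2

def FINStmt : Prop := ∀ D : ℕ, 1 ≤ D → ∃ c : ℝ, 0 < c ∧ ∀ K : ℕ, 2 ≤ K → ∃ (e₀ : ℝ) (l₀ : ℕ),
  0 < e₀ ∧ ∀ (p x : ℝ) (l : ℕ), 1 - e₀ ≤ p → p ≤ 1 → l₀ ≤ l → 1 / (l : ℝ) ≤ x → x ≤ 2 / (l : ℝ) →
  kap D p (x + 1 / (l : ℝ) ^ K) - kap D p x ≤ -(c * (1 / (l : ℝ) ^ K))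

def SMALLStmt : Prop := ∀ D : ℕ, 1 ≤ D → ∃ a p₀ : ℝ, 0 < a ∧ p₀ < 1 ∧ ∀ p, p₀ < p → p < 1 →
  ∀ v : ℝ → ℝ, (∀ x, 0 < x → HasSpeed D p x (v x)) → ∀ x y, 0 < x → x < y → y ≤ a → v x < v y

end Pool.Agent.MP_8c549f_pr.L2

end
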