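import Mathlib.Analysis.SpecialFunctions.Exp
import Mathlib.Analysis.Complex.ExponentialBounds
import Pool.Agent.MP_8c549f_pr.L2.SpecB

/-! PROJECT L2, row Q0: the walk escapes with a probability that is polynomial in the scale. -/

noncomputable section

namespace Pool.Agent.MP_8c549f_pr.L2

open MeasureTheory Finset Real Classical S3
open scoped ENNReal

namespace Q0S

variable {D : ℕ}

theorem open_of_inf {ω : Cfg D} (h : ω ∈ InfCl D) : ∃ s, ω (edge 0 s) = true := by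
  obtain ⟨c, h1, h2⟩ := inf_iff.1 h 1
  rcases h1.cases_head with rfl | ⟨c', hc, -⟩
  · simp at h2
  · obtain ⟨s, -, hs⟩ := opn_iff.1 hc
    exact ⟨s, hs⟩

/-- a walk of length `n` stays below the level `k` or passes the level `k + 1` -/
theorem split (lam : ℝ) {ω : Cfg D} (h : ω ∈ InfCl D) (k n : ℕ) :
    1 ≤ SS {u : List (Step D) | u.length = n ∧ ∀ j ≤ n, H u j ≤ k} (W lam ω 0) +
      SS {u : List (Step D) | u.length ≤ n ∧ Rec u ∧ lev u = (k + 1 : ℕ)} (W lam ω 0) := by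
  obtain ⟨s, hs⟩ := open_of_inf h
  rw [← SS_length_eq_one lam ω n 0 s hs,
    SS_split {l : List (Step D) | l.length = n} {u | ∀ j ≤ n, H u j ≤ k}]
  refine add_le_add (SS_mono (fun l hl => hl) fun _ _ => le_rfl) ?_
  refine cover_q lam ω 0 ((antich_length n).mono Set.sdiff_subset) fun l hl _ => ?_
  obtain ⟨h1, h2⟩ := hl
  simp only [Set.mem_ofPred_eq, not_forall, not_le] at h1 h2
  obtain ⟨j, hj, hk⟩ := h2
  obtain ⟨t, t1, t2, t3⟩ := exists_first_hit (H l) (fun i => (H_step l i).2)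
    (c := ((k + 1 : ℕ) : ℤ)) (by rw [H_zero]; positivity) (n := j) (by push_cast; omega)
  refine ⟨l.take t, ⟨by simp; omega, fun i hi => ?_, by rw [lev_take, t2]⟩, l.drop t, List.take_append_drop t l⟩
  have hi' : i < t := by simp at hi; omega
  rw [lev_take, t2, H_take l hi'.le]
  exact t3 i hi'

/-- the geometric tail -/
theorem tail {A u : ℝ} (hA : 0 ≤ A) (hu : 0 < u) (hu1 : u ≤ 1) (k : ℕ) :
    ∑' i : ℕ, ENNReal.ofReal (A * exp (-(((i + k : ℕ) : ℝ) * u))) ≤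
      ENNReal.ofReal (A * exp (-(k * u)) * (2 / u)) := by
  have h0 : 0 ≤ exp (-u) := (exp_pos _).le
  have h1 : exp (-u) < 1 := by rw [exp_lt_one_iff]; linarith
  have e : ∀ i : ℕ, A * exp (-(((i + k : ℕ) : ℝ) * u)) = A * exp (-(k * u)) * exp (-u) ^ i := by
    intro i
    rw [← exp_nat_mul, mul_assoc, ← exp_add]
    congr 2
    push_cast
    ring
  simp only [e]
  rw [← ENNReal.ofReal_tsum_of_nonneg (fun i => by positivity)
    ((summable_geometric_of_lt_one h0 h1).mul_left _), tsum_mul_left,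
    tsum_geometric_of_lt_one h0 h1]
  refine ENNReal.ofReal_le_ofReal (mul_le_mul_of_nonneg_left ?_ (by positivity))
  have h2 : exp (-u) * (1 + u) ≤ 1 := by
    have := add_one_le_exp u
    calc exp (-u) * (1 + u) ≤ exp (-u) * exp u :=
          mul_le_mul_of_nonneg_left (by linarith) h0
      _ = 1 := by rw [← exp_add]; simp
  rw [inv_eq_one_div, div_le_div_iff₀ (by linarith) hu]
  nlinarith

/-- the tail is small for large scales -/
theorem small (D K : ℕ) : ∃ l₀ : ℕ, ∀ l : ℕ, l₀ ≤ l →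
    (l : ℝ) ^ K * (2 * (D + 2)) * exp (-(l / ((D : ℝ) + 2))) ≤ 1 := by
  have hd : (0 : ℝ) < (D : ℝ) + 2 := by positivity
  have h1 := (tendsto_pow_mul_exp_neg_atTop_nhds_zero K).comp
    (Filter.Tendsto.atTop_div_const hd tendsto_natCast_atTop_atTop)
  have h2 := h1.const_mul (((D : ℝ) + 2) ^ K * (2 * (D + 2)))
  rw [mul_zero] at h2
  obtain ⟨l₀, h⟩ := Filter.eventually_atTop.1 (h2.eventually (gt_mem_nhds one_pos))
  refine ⟨l₀, fun l hl => le_of_eq_of_le ?_ (h l hl).le⟩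
  simp only [Function.comp, div_pow]
  field_simp

end Q0S

theorem q0S (hF : FcpStmt) (hQ : QSStmt) (hS : SLABStmt) (hL : LASTStmt) (hR : RET1Stmt)
    (hU : QFStmt) : Q0Stmt := by
  intro D hD
  obtain ⟨e₁, he₁, hF⟩ := hF D hD 2
  obtain ⟨l₁, hQ⟩ := hQ D hD
  obtain ⟨e₂, l₂, he₂, hS⟩ := hS D hD
  obtain ⟨e₃, l₃, he₃, hR⟩ := hR D hD
  obtain ⟨l₄, h4⟩ := Q0S.small D (9 * D + 19 + 9)
  refine ⟨min e₁ (min e₂ e₃), 9 * D + 19, max 3 (max l₁ (max l₂ (max l₃ l₄))),
    lt_min he₁ (lt_min he₂ he₃), fun p lam l hp hp1 hp0 hl hlam hlam1 => ?_⟩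
  have := perc_prob D hp0 hp1
  simp only [max_le_iff] at hl
  obtain ⟨a3, a1, a2, a3', a4⟩ := hl
  have p1 : 1 - e₁ ≤ p := by linarith [min_le_left e₁ (min e₂ e₃)]
  have p2 : 1 - e₂ ≤ p := by linarith [min_le_right e₁ (min e₂ e₃), min_le_left e₂ e₃]
  have p3 : 1 - e₃ ≤ p := by linarith [min_le_right e₁ (min e₂ e₃), min_le_right e₂ e₃]
  have hl3 : (3 : ℝ) ≤ l := by exact_mod_cast a3
  have hl0 : (0 : ℝ) < l := by linarith
  set K := 9 * D + 19 with hK
  set k := l ^ 2 with hk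
  set n := l ^ 8 with hn
  have hkn : k ^ 2 ≤ n := by
    rw [hk, hn, ← pow_mul]; exact Nat.pow_le_pow_right (by omega) (by norm_num)
  have hn2 : (2 : ℝ) ≤ n := by
    have h1 : l ≤ l ^ 8 := Nat.le_self_pow (by norm_num) l
    have : 2 ≤ n := (show 2 ≤ l by omega).trans h1
    exact_mod_cast this
  have hn9 : 1 / (n : ℝ) ^ 9 ≤ 1 / 8 := by
    refine one_div_le_one_div_of_le (by norm_num) ?_
    calc (8 : ℝ) ≤ 2 ^ 9 := by norm_num
      _ ≤ (n : ℝ) ^ 9 := pow_le_pow_left₀ (by norm_num) hn2 9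
  -- the lower bound for the first passage
  let F : Cfg D → ℝ≥0∞ := fun ω =>
    SS {u : List (Step D) | u.length ≤ n ∧ Rec u ∧ lev u = (k + 1 : ℕ)} (W lam ω 0)
  have mF : Measurable F := measurable_SS fun u => measurable_W lam 0 u
  let B₁ : Set (Cfg D) := {ω | ¬ Gd ω 0 (2 * n) (hh n)}
  let B₂ : Set (Cfg D) := {ω | ω ∉ InfCl D ∧ ∃ c, Conn ω 0 c ∧ 2 * 0 ≤ nrm c}
  have m1 : perc D p B₁ ≤ ENNReal.ofReal (1 / 8) := by
    rw [← ENNReal.ofReal_toReal (measure_ne_top (perc D p) B₁)]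
    exact ENNReal.ofReal_le_ofReal
      ((hS p lam l k n p2 hp1 hp0 a2 hlam hlam1 le_rfl hkn).1.trans hn9)
  have m2 : perc D p B₂ ≤ ENNReal.ofReal (1 / 4) := by
    rw [← ENNReal.ofReal_toReal (measure_ne_top (perc D p) B₂)]
    refine ENNReal.ofReal_le_ofReal ((hF p p1 hp1 hp0 0).trans ?_)
    have e1 : (2 : ℝ) ≤ exp 1 := by linarith [add_one_le_exp (1 : ℝ)]
    have e2 : exp (2 * (((0 : ℕ) : ℝ) + 1)) = exp 1 * exp 1 := by rw [← exp_add]; norm_num
    rw [exp_neg, e2, inv_eq_one_div]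
    exact one_div_le_one_div_of_le (by norm_num) (by nlinarith)
  have pt : ∀ ω, (1 : ℝ≥0∞) ≤ (ENNReal.ofReal (1 / 8) + F ω) + (B₁ ∪ B₂).indicator 1 ω := by
    intro ω
    by_cases hω : ω ∈ B₁ ∪ B₂
    · rw [Set.indicator_of_mem hω]; exact le_add_self
    · rw [Set.mem_union, not_or] at hω
      have g1 : Gd ω 0 (2 * n) (hh n) := not_not.1 hω.1
      have g2 : ω ∈ InfCl D := by
        by_contra c
        exact hω.2 ⟨c, 0, Conn.refl _ _, by simp⟩
      refine le_add_right ((Q0S.split lam g2 k n).trans (add_le_add ?_ le_rfl))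
      exact (hQ l k n lam ω a1 hlam hlam1 le_rfl hkn g1
        (wide_of_inf g2 (Conn.refl _ _) _)).trans (ENNReal.ofReal_le_ofReal hn9)
  have int : (1 : ℝ≥0∞) ≤ ENNReal.ofReal (1 / 2) +
      (n * (2 * n + 1) ^ (D + 1) : ℕ) * QQ D p lam k := by
    calc (1 : ℝ≥0∞) = ∫⁻ _ω, 1 ∂perc D p := by simp
      _ ≤ ∫⁻ ω, (ENNReal.ofReal (1 / 8) + F ω) + (B₁ ∪ B₂).indicator 1 ω ∂perc D p :=
          lintegral_mono pt
      _ = ENNReal.ofReal (1 / 8) + ∫⁻ ω, F ω ∂perc D p +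
            ∫⁻ ω, (B₁ ∪ B₂).indicator 1 ω ∂perc D p := by
          rw [lintegral_add_left (f := fun ω => ENNReal.ofReal (1 / 8) + F ω) (measurable_const.add mF), lintegral_add_left measurable_const]
          simp
      _ ≤ ENNReal.ofReal (1 / 8) + (n * (2 * n + 1) ^ (D + 1) : ℕ) * QQ D p lam k +
            (ENNReal.ofReal (1 / 8) + ENNReal.ofReal (1 / 4)) :=
          add_le_add (add_le_add le_rfl (hL D p lam k n hp0 hp1))
            ((lintegral_indicator_one_le _).trans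
              ((measure_union_le _ _).trans (add_le_add m1 m2)))
      _ = _ := by
          rw [add_right_comm, ← ENNReal.ofReal_add (by norm_num) (by norm_num),
            ← ENNReal.ofReal_add (by norm_num) (by norm_num)]
          norm_num
  have q1 := (hU D p lam hp0 hp1 k).1
  have qt : QQ D p lam k ≠ ∞ := ne_top_of_le_ne_top ENNReal.one_ne_top (le_self_add.trans q1)
  have cK : 4 * (n * (2 * n + 1) ^ (D + 1)) ≤ l ^ K := by
    have c1 : 2 * n + 1 ≤ l ^ 9 := by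
      have : 1 ≤ n := Nat.one_le_pow _ _ (by omega)
      calc 2 * n + 1 ≤ 3 * n := by omega
        _ ≤ l * n := Nat.mul_le_mul_right _ a3
        _ = l ^ 9 := by rw [hn]; ring
    have c2 : 4 ≤ l ^ 2 := by nlinarith
    calc 4 * (n * (2 * n + 1) ^ (D + 1)) ≤ l ^ 2 * (n * (l ^ 9) ^ (D + 1)) :=
          Nat.mul_le_mul c2 (Nat.mul_le_mul_left _ (Nat.pow_le_pow_left c1 _))
      _ = l ^ K := by rw [hn, hK]; ring
  have lK : (0 : ℝ) < (l : ℝ) ^ K := by positivity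
  have lK2 : (2 : ℝ) ≤ (l : ℝ) ^ K := by
    calc (2 : ℝ) ≤ (l : ℝ) ^ 1 := by rw [pow_one]; linarith
      _ ≤ (l : ℝ) ^ K := pow_le_pow_right₀ (by linarith) (by omega)
  have low : ENNReal.ofReal (2 / (l : ℝ) ^ K) ≤ QQ D p lam k := by
    rw [← ENNReal.ofReal_toReal qt] at int ⊢
    have t0 : 0 ≤ (QQ D p lam k).toReal := ENNReal.toReal_nonneg
    rw [← ENNReal.ofReal_natCast, ← ENNReal.ofReal_mul (by positivity),
      ← ENNReal.ofReal_add (by norm_num) (by positivity), ENNReal.one_le_ofReal] at int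
    refine ENNReal.ofReal_le_ofReal ?_
    have c3 : (4 : ℝ) * ((n * (2 * n + 1) ^ (D + 1) : ℕ) : ℝ) ≤ (l : ℝ) ^ K := by exact_mod_cast cK
    rw [div_le_iff₀ lK]
    nlinarith [mul_le_mul_of_nonneg_left c3 t0]
  have head : ∑ i ∈ range k, Ret D p lam i ≤ ENNReal.ofReal (1 - 2 / (l : ℝ) ^ K) := by
    rw [ENNReal.ofReal_sub _ (by positivity), ENNReal.ofReal_one]
    exact ENNReal.le_sub_of_add_le_left ENNReal.ofReal_ne_top ((add_le_add low le_rfl).trans q1)
  have tl : ∑' i, Ret D p lam (i + k) ≤ ENNReal.ofReal (1 / (l : ℝ) ^ K) := by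
    have hd : (0 : ℝ) < (D : ℝ) + 2 := by positivity
    have hd2 : (2 : ℝ) ≤ (D : ℝ) + 2 := by linarith [Nat.cast_nonneg (α := ℝ) D]
    have u0 : 0 < 1 / (((D : ℝ) + 2) * l) := by positivity
    have u1 : 1 / (((D : ℝ) + 2) * l) ≤ 1 := by
      rw [div_le_one (by positivity)]; nlinarith
    refine le_trans (ENNReal.tsum_le_tsum fun i => ?_)
      ((Q0S.tail (A := (l : ℝ) ^ 8) (by positivity) u0 u1 k).trans (ENNReal.ofReal_le_ofReal ?_))
    · rw [mul_one_div]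
      exact hR p lam l (i + k) p3 hp1 hp0 a3' hlam hlam1
    · have e1 : ((k : ℕ) : ℝ) * (1 / (((D : ℝ) + 2) * l)) = l / ((D : ℝ) + 2) := by
        rw [hk]; push_cast; field_simp
      rw [e1, le_div_iff₀ lK]
      refine le_of_eq_of_le ?_ (h4 l a4)
      rw [pow_add (l : ℝ) K 9]
      field_simp
  rw [← Summable.sum_add_tsum_nat_add' (f := Ret D p lam) (k := k) ENNReal.summable]
  refine (add_le_add head tl).trans (le_of_eq ?_)
  rw [← ENNReal.ofReal_add (by rw [sub_nonneg, div_le_one lK]; exact lK2) (by positivity)]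
  congr 1
  ring

end Pool.Agent.MP_8c549f_pr.L2

end
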