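import Pool.Agent.MP_8c549f_pr.L2.Basic
import Mathlib.Analysis.SpecialFunctions.Exp

/-! PROJECT L2, row Q1: the quenched mean duration of a leg. -/

noncomputable section

namespace Pool.Agent.MP_8c549f_pr.L2

open MeasureTheory Finset Real Classical S3

namespace Q1

variable {D : ℕ} {lam : ℝ} {ω : Cfg D}

/-- the sites below the level `L` -/
def Ub (D L : ℕ) : Set (V D) := {y | y 0 < (L : ℤ)}

def Tp (D L : ℕ) : Set (V D) := {y | y 0 = (L : ℤ)}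

def sv (lam : ℝ) (ω : Cfg D) (L k : ℕ) : ℝ := Pk lam ω (Ub D L) k (chi (Ub D L)) 0

theorem reach {h L : ℕ} (h0 : Wide ω 0 h) {U' : Set (V D)} {f f' : V D → ℝ} (n : ℕ)
    (hU : ∀ y, Wide ω y h → nrm y ≤ n → (y ∈ Ub D L ↔ y ∈ U'))
    (hf : ∀ y, Wide ω y h → nrm y ≤ n → y 0 ≤ (L : ℤ) → f y = f' y) :
    Pk lam ω (Ub D L) n f 0 = Pk lam ω U' n f' 0 :=
  Pk_loc n (fun i y => Wide ω y h ∧ nrm y ≤ i ∧ y 0 ≤ (L : ℤ)) 0 ⟨h0, by simp, by simp⟩
    (fun i _ y s hy hy' hs => ⟨wide_step hy.1 hs, by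
      have := nrm_add_le y (vec s)
      rw [nrm_vec] at this
      omega, by
      have := (vec_bounds s 0).2
      have e : y 0 < (L : ℤ) := hy'
      rw [Pi.add_apply]
      omega⟩)
    (fun i hi y hy => ⟨hU y hy.1 (by omega), fun _ _ => rfl⟩) fun y hy => hf y hy.1 hy.2.1 hy.2.2

theorem mass {h : ℕ} (h1 : 1 ≤ h) (h0 : Wide ω 0 h) (L n : ℕ) :
    ∑ k ∈ range (n + 1), Pk lam ω (Ub D L) k (chi (Tp D L)) 0 = 1 - sv lam ω L n := by
  rw [eq_sub_iff_add_eq, ← exit_add_eq (Ub D L) n 0 (wide_Zq h1 h0 lam), Gs]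
  congr 1
  refine sum_congr rfl fun k _ => reach h0 k (fun _ _ _ => Iff.rfl) fun y _ _ hy => ?_
  by_cases e : y 0 = (L : ℤ)
  · rw [chi_of_mem (show y ∈ Tp D L from e), chi_of_mem (show y ∈ (Ub D L)ᶜ from fun c => c.ne e)]
  · rw [chi_of_not (show y ∉ Tp D L from e),
      chi_of_not (show y ∉ (Ub D L)ᶜ from fun c => c (lt_of_le_of_ne hy e))]

theorem time (hD : DICTStmt) {h : ℕ} (h1 : 1 ≤ h) (h0 : Wide ω 0 h) (L N : ℕ) :
    tt lam L N ω = ∑ k ∈ range N, sv lam ω L k - N * sv lam ω L N := by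
  have e := hD D lam ω L N (Ub D L) (fun k => (k : ℝ)) (fun _ => 1) fun _ hy => hy
  rw [filter_true_of_mem fun l hl i hi => by
    obtain ⟨-, a, b⟩ := mem_Lg.1 hl
    exact (a i hi).trans_eq b] at e
  simp only [mul_one] at e
  rw [tt, e]
  show ∑ k ∈ range (N + 1), (k : ℝ) * Pk lam ω (Ub D L) k (chi (Tp D L)) 0 = _
  clear e
  induction N with
  | zero => simp
  | succ n ih =>
    have a := mass (lam := lam) h1 h0 L (n + 1)
    rw [sum_range_succ, mass h1 h0] at a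
    rw [sum_range_succ, ih, sum_range_succ, show Pk lam ω (Ub D L) (n + 1) (chi (Tp D L)) 0 =
      sv lam ω L n - sv lam ω L (n + 1) by linarith]
    push_cast
    ring

/-- the identity of Dynkin for the level plus the corrector -/
theorem key (hD : DICTStmt) {h L N : ℕ} (h1 : 1 ≤ h) (h0 : Wide ω 0 h) (hl : 0 ≤ lam) {d b σ : ℝ}
    (d0' : 0 ≤ d) (d1 : d ≤ 1) (b0 : 0 ≤ b) {F : Set (V D)}
    (hF : ∀ y, y ∈ F ↔ (nrm y ≤ N ∧ Wide ω y h) ∧ y 0 < (L : ℤ)) {χ : V D → ℝ}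
    (c1 : ∀ y ∈ F, χ y = dr lam ω y - d + Pf lam ω χ y) (c0 : ∀ y ∉ F, χ y = 0)
    (cb : ∀ y, |χ y| ≤ b * exp (lam * ((L : ℤ) - y 0 : ℤ)))
    (hσ : Pk lam ω (Ub D L) N ((Ub D L).indicator fun y => exp (lam * ((L : ℤ) - y 0 : ℤ))) 0 ≤ σ) :
    |d * tt lam L N ω - L| ≤ b * exp (lam * L) + (L + 2 * N + b) * σ := by
  have hU : ∀ k ≤ N, ∀ y, Wide ω y h → nrm y ≤ k → (y ∈ Ub D L ↔ y ∈ F) := fun k hk y a c =>
    ⟨fun e => (hF y).2 ⟨⟨c.trans hk, a⟩, e⟩, fun e => ((hF y).1 e).2⟩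
  have one : ∀ y ∈ Ub D L, 1 ≤ exp (lam * ((L : ℤ) - y 0 : ℤ)) := fun y hy => by
    have e : y 0 < (L : ℤ) := hy
    exact one_le_exp (mul_nonneg hl (Int.cast_nonneg (by omega)))
  have e := dyn (lam := lam) (ω := ω) F (fun y => (y 0 : ℝ) + χ y) N 0
  have e1 : Gs lam ω F N (F.indicator fun y => (y 0 : ℝ) + χ y -
      Pf lam ω (fun y => (y 0 : ℝ) + χ y) y) 0 = -d * ∑ k ∈ range N, sv lam ω L k := by
    rw [Gs, mul_sum]
    refine sum_congr rfl fun k hk => ?_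
    have hk' := (mem_range.1 hk).le
    rw [sv, ← Pk_mul]
    refine (reach h0 k (hU k hk') fun y a c _ => ?_).symm
    by_cases hy : y ∈ F
    · rw [chi_of_mem ((hU k hk' y a c).2 hy), Set.indicator_of_mem hy, Pf_add,
        Pf_lev (wide_Zq h1 a lam)]
      linarith [c1 y hy]
    · rw [chi_of_not fun u => hy ((hU k hk' y a c).1 u), Set.indicator_of_notMem hy, mul_zero]
  have e2 : Gs lam ω F (N + 1) (Fᶜ.indicator fun y => (y 0 : ℝ) + χ y) 0 =
      L * (1 - sv lam ω L N) := by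
    rw [← mass h1 h0, Gs, mul_sum]
    refine sum_congr rfl fun k hk => ?_
    have hk' := Nat.lt_succ_iff.1 (mem_range.1 hk)
    rw [← Pk_mul]
    refine (reach h0 k (hU k hk') fun y a c u => ?_).symm
    by_cases hy : y ∈ F
    · rw [chi_of_not (show y ∉ Tp D L from ((hF y).1 hy).2.ne),
        Set.indicator_of_notMem (show y ∉ Fᶜ from fun v => v hy), mul_zero]
    · have v : y 0 = (L : ℤ) := le_antisymm u (not_lt.1 fun v => hy ((hU k hk' y a c).1 v))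
      rw [chi_of_mem (show y ∈ Tp D L from v), Set.indicator_of_mem (show y ∈ Fᶜ from hy), c0 y hy, v]
      simp
  have nn : ∀ y, 0 ≤ (Ub D L).indicator (fun y => exp (lam * ((L : ℤ) - y 0 : ℤ))) y := fun y =>
    Set.indicator_nonneg (fun _ _ => (exp_pos _).le) y
  have hN : (0 : ℝ) ≤ N := Nat.cast_nonneg N
  have hL : (0 : ℝ) ≤ L := Nat.cast_nonneg L
  have e3 : |Pk lam ω F N (F.indicator fun y => (y 0 : ℝ) + χ y) 0| ≤ (N + b) * σ := by
    refine (abs_Pk_le (g := fun y => (N + b) * (Ub D L).indicator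
      (fun y => exp (lam * ((L : ℤ) - y 0 : ℤ))) y) (fun y => ?_) N 0).trans ?_
    · by_cases hy : y ∈ F
      · obtain ⟨⟨a, -⟩, c⟩ := (hF y).1 hy
        have u : |(y 0 : ℝ)| ≤ N := by
          have := (abs_le_nrm y 0).trans (Int.ofNat_le.2 a)
          exact_mod_cast this
        rw [Set.indicator_of_mem hy, Set.indicator_of_mem (show y ∈ Ub D L from c)]
        have := mul_le_mul_of_nonneg_left (one y c) hN
        linarith [abs_add_le (y 0 : ℝ) (χ y), cb y]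
      · rw [Set.indicator_of_notMem hy, abs_zero]
        exact mul_nonneg (add_nonneg hN b0) (nn y)
    · rw [Pk_mul]
      exact mul_le_mul_of_nonneg_left ((Pk_dom (fun y hy => ((hF y).1 hy).2) nn N 0).trans hσ)
        (add_nonneg hN b0)
  have s0 : 0 ≤ sv lam ω L N := Pk_nonneg (chi_nonneg _) N 0
  have s1 : sv lam ω L N ≤ σ := by
    refine (Pk_mono (fun y => ?_) N 0).trans hσ
    by_cases hy : y ∈ Ub D L
    · rw [chi_of_mem hy, Set.indicator_of_mem hy]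
      exact one y hy
    · rw [chi_of_not hy, Set.indicator_of_notMem hy]
  have c := cb 0
  simp only [Pi.zero_apply, Int.cast_zero, zero_add, sub_zero, Int.cast_natCast] at e c
  rw [e1, e2] at e
  rw [time hD h1 h0]
  have t1 := mul_le_mul_of_nonneg_left s1 hL
  have t2 := mul_le_mul_of_nonneg_left s1 hN
  have t3 := mul_nonneg hL s0
  have t4 := mul_nonneg d0' (mul_nonneg hN s0)
  have t5 := mul_le_mul_of_nonneg_right d1 (mul_nonneg hN s0)
  rw [abs_le] at e3 c ⊢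
  constructor <;> linarith [e3.1, e3.2, c.1, c.2]

theorem small (K C ε : ℝ) (hC : 1 ≤ C) (hε : 0 < ε) (hK : 0 ≤ K) :
    ∃ l₁ : ℕ, ∀ l : ℕ, l₁ ≤ l → K * (l : ℝ) ^ 5 * exp (-((l : ℝ) ^ 2 / C)) ≤ ε := by
  have C0 : 0 < C := by linarith
  have t := (((tendsto_pow_mul_exp_neg_atTop_nhds_zero 5).comp
    (tendsto_natCast_atTop_atTop.atTop_div_const C0)).const_mul (K * C ^ 5)).eventually_le_const
    (u := ε) (by simpa using hε)
  obtain ⟨l₁, h⟩ := Filter.eventually_atTop.1 t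
  refine ⟨l₁ + 1, fun l hl => le_trans ?_ (h l (by omega))⟩
  have l1 : (1 : ℝ) ≤ l := by exact_mod_cast (show 1 ≤ l by omega)
  have e : exp (-((l : ℝ) ^ 2 / C)) ≤ exp (-((l : ℝ) / C)) :=
    exp_le_exp.2 (neg_le_neg (div_le_div_of_nonneg_right (by nlinarith) C0.le))
  calc _ ≤ K * (l : ℝ) ^ 5 * exp (-((l : ℝ) / C)) := mul_le_mul_of_nonneg_left e (by positivity)
    _ = _ := by simp only [Function.comp]; field_simp

end Q1

open Q1 in
theorem q1S (hD : DICTStmt) (hS : SURStmt) (hG : GBStmt) (hC : GCStmt) (hX : CHIStmt)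
    (h0 : D0Stmt) : Q1Stmt := by
  intro D Λ ε hΛ hε
  obtain ⟨C, l₁, C1, hS⟩ := hS D
  obtain ⟨ξ, C', l₂, x0, -, C'1, hG⟩ := hG D
  obtain ⟨E, hE⟩ : ∃ E : ℝ, E = exp (4 * Λ) := ⟨_, rfl⟩
  have E0 : 0 < E := hE ▸ exp_pos _
  obtain ⟨ε', hε'⟩ : ∃ ε' : ℝ, ε' = ε / (16 * (D + 1) * E) := ⟨_, rfl⟩
  have e0 : 0 < ε' := hε' ▸ by positivity
  obtain ⟨δ₀, l₃, δ0, hX⟩ := hX D ε' e0
  obtain ⟨l₄, sm⟩ := small (8 * (D + 1) * (Λ + 2 + ε') * C * E) C (ε / 2) C1 (by positivity)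
    (by positivity)
  refine ⟨δ₀, l₁ + l₂ + l₃ + l₄, δ0, fun ω R m h δ rep w G hδ l lam hl sc w0 hR => ?_⟩
  have l0 := sc.lpos
  have l1 : (1 : ℝ) ≤ l := by exact_mod_cast (show 1 ≤ l by have := sc.l16; omega)
  have l4 : l ≤ l ^ 4 := Nat.le_self_pow (by norm_num) l
  have lp := sc.pos
  have lq := sc.le_quarter
  obtain ⟨F, hF⟩ : ∃ F : Finset (V D), ∀ y, y ∈ F ↔
      (nrm y ≤ l ^ 4 ∧ Wide ω y h) ∧ y 0 < ((Λ * l : ℕ) : ℤ) :=
    ⟨(wb' ω h 0 (l ^ 4)).filter fun y => y 0 < ((Λ * l : ℕ) : ℤ), fun y => by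
      rw [mem_filter, mem_wb', sub_zero]⟩
  have g := hG ω R m h δ rep w G l lam (by omega) sc F (fun _ => 0)
    (fun y hy => ⟨((hF y).1 hy).1.2, by have := ((hF y).1 hy).1.1; omega⟩)
    fun y z => by rw [sub_self, abs_zero]; positivity
  obtain ⟨χ, c1, c0⟩ := (hC D lam ω F (wf lam fun _ => 0) (C' * (l : ℝ) ^ 2) (by nlinarith)
    (fun _ => exp_pos _) g).2.2.1 ((F : Set (V D)).indicator fun y => dr lam ω y - d0 D lam)
  have c1' : ∀ y ∈ F, χ y = dr lam ω y - d0 D lam + Pf lam ω χ y := fun y hy => by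
    rw [c1 y hy, Set.indicator_of_mem (mem_coe.2 hy)]
  have c0' : ∀ y ∉ F, χ y = 0 := fun y hy => by
    rw [c0 y hy, Set.indicator_of_notMem (mt mem_coe.1 hy)]
  have cb := hX ω R m h δ rep w G hδ l lam (by omega) sc F ((Λ * l : ℕ) : ℤ) χ
    (fun y hy => ⟨((hF y).1 hy).1.2, by have := ((hF y).1 hy).1.1; omega, ((hF y).1 hy).2⟩) c1' c0'
  have hσ := (hS ω R m h δ rep w G l lam (by omega) sc 0 (Ub D (Λ * l)) ((Λ * l : ℕ) : ℤ) (l ^ 4) w0
    (by rw [nrm_zero]; omega) fun _ hy => hy).1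
  obtain ⟨z0, z1, z2⟩ := h0 D
  have dl : 1 / (l : ℝ) / (8 * (D + 1)) ≤ d0 D lam := by
    have := z2 0 lam le_rfl lp.le (by linarith)
    rw [z0, sub_zero, sub_zero] at this
    exact (div_le_div_of_nonneg_right sc.lo (by positivity)).trans this
  have dp : 0 < d0 D lam := lt_of_lt_of_le (by positivity) dl
  have k := key hD G.h1 w0 lp.le dp.le ((z1 lam lp.le).2.trans (by linarith))
    (mul_nonneg e0.le l0.le) (F := (F : Set (V D))) hF c1' c0' cb hσ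
  have eE : exp (lam * (Λ * l)) ≤ E := by
    rw [hE]
    refine exp_le_exp.2 ?_
    have := mul_le_mul_of_nonneg_left sc.mul_le (Nat.cast_nonneg (α := ℝ) Λ)
    linarith
  have ex : (l : ℝ) ^ 4 / (C * (l : ℝ) ^ 2) = (l : ℝ) ^ 2 / C := by field_simp
  simp only [Pi.zero_apply, sub_zero, Int.cast_natCast] at k
  push_cast at k
  rw [ex] at k
  have s := sm l (by omega)
  obtain ⟨X, hX'⟩ : ∃ X, X = exp (-((l : ℝ) ^ 2 / C)) := ⟨_, rfl⟩
  have X0 : 0 < X := hX' ▸ exp_pos _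
  rw [← hX'] at k s
  have l4' : (l : ℝ) ≤ (l : ℝ) ^ 4 := by exact_mod_cast l4
  have a1 : ε' * l * exp (lam * (Λ * l)) ≤ ε' * l * E := mul_le_mul_of_nonneg_left eE (by positivity)
  have a2 : (Λ * l + 2 * (l : ℝ) ^ 4 + ε' * l) * (C * (l : ℝ) ^ 2 * X * exp (lam * (Λ * l))) ≤
      ((Λ + 2 + ε') * (l : ℝ) ^ 4) * (C * (l : ℝ) ^ 2 * X * E) := by
    refine mul_le_mul ?_ (mul_le_mul_of_nonneg_left eE (by positivity)) (by positivity)
      (by positivity)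
    have := mul_le_mul_of_nonneg_left l4' (Nat.cast_nonneg (α := ℝ) Λ)
    have := mul_le_mul_of_nonneg_left l4' e0.le
    linarith
  have a3 : 1 ≤ d0 D lam * (8 * (D + 1) * l) := by
    rw [div_div, div_le_iff₀ (by positivity)] at dl
    linarith
  have a4 : 8 * (D + 1) * l * (ε' * l * E) = ε / 2 * (l : ℝ) ^ 2 := by
    rw [hε']
    field_simp
    ring
  have a5 := mul_le_mul_of_nonneg_right s (sq_nonneg (l : ℝ))
  have a6 : tt lam (Λ * l) (l ^ 4) ω - Λ * l / d0 D lam =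
      (d0 D lam * tt lam (Λ * l) (l ^ 4) ω - Λ * l) / d0 D lam := by field_simp
  rw [a6, abs_div, abs_of_pos dp, div_le_iff₀ dp]
  have a7 := mul_le_mul_of_nonneg_left (k.trans (add_le_add a1 a2))
    (show (0 : ℝ) ≤ 8 * (D + 1) * l by positivity)
  have a8 : 8 * (D + 1) * l * |d0 D lam * tt lam (Λ * l) (l ^ 4) ω - Λ * l| ≤ ε * (l : ℝ) ^ 2 := by
    linarith
  have a9 := mul_le_mul_of_nonneg_left a8 dp.le
  have a10 := mul_le_mul_of_nonneg_right a3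
    (abs_nonneg (d0 D lam * tt lam (Λ * l) (l ^ 4) ω - Λ * l))
  linarith

end Pool.Agent.MP_8c549f_pr.L2

end
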