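import Pool.Agent.MP_8c549f_pr.L2.SpecB

/-! PROJECT L2, row Qf: first passages, returns and slabs. -/

noncomputable section

namespace Pool.Agent.MP_8c549f_pr.L2

open MeasureTheory Finset Real Classical S3
open scoped ENNReal

namespace QfAux

variable {D : ℕ}

/-- return to level `-1` before level `k` is reached -/
def RB (D k : ℕ) : Set (List (Step D)) :=
  {l | lev l = -1 ∧ ∀ j < l.length, 0 ≤ H l j ∧ H l j < k}

theorem RB_zero : RB D 0 = ∅ := by
  refine Set.eq_empty_of_forall_notMem fun l hl => ?_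
  rcases Nat.eq_zero_or_pos l.length with h | h
  · have h1 := hl.1
    rw [List.length_eq_zero_iff.1 h, lev_nil] at h1
    omega
  · have h1 := hl.2 0 h
    omega

theorem RB_succ (k : ℕ) : RB D (k + 1) = RB D k ∪ RetSet D k := by
  ext l
  constructor
  · rintro ⟨h1, h2⟩
    by_cases h : ∃ j < l.length, H l j = k
    · refine Or.inr ⟨h1, fun j hj => ?_, h⟩
      have := h2 j hj
      omega
    · refine Or.inl ⟨h1, fun j hj => ?_⟩
      have h3 := h2 j hj
      have h4 : H l j ≠ k := fun e => h ⟨j, hj, e⟩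
      omega
  · rintro (⟨h1, h2⟩ | ⟨h1, h2, _⟩)
    · refine ⟨h1, fun j hj => ?_⟩
      have := h2 j hj
      omega
    · refine ⟨h1, fun j hj => ?_⟩
      have := h2 j hj
      omega

theorem RB_disj (k : ℕ) : Disjoint (RB D k) (RetSet D k) := by
  refine Set.disjoint_left.2 fun l h1 h2 => ?_
  obtain ⟨j, hj, e⟩ := h2.2.2
  have := h1.2 j hj
  omega

theorem SS_RB (f : List (Step D) → ℝ≥0∞) (k : ℕ) :
    SS (RB D k) f = ∑ i ∈ range k, SS (RetSet D i) f := by
  induction k with
  | zero => rw [RB_zero, SS_empty, range_zero, sum_empty]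
  | succ k ih => rw [RB_succ, SS_union (RB_disj k), ih, sum_range_succ]

theorem disj (k : ℕ) : Disjoint (FPS D k) (RB D k) := by
  refine Set.disjoint_left.2 fun l h1 h2 => ?_
  have h3 := h1.2.2
  have h4 := h2.1
  omega

theorem inner {k : ℕ} {l : List (Step D)} (hl : l ∈ FPS D k ∪ RB D k) :
    (lev l = k ∨ lev l = -1) ∧ ∀ j < l.length, 0 ≤ H l j ∧ H l j < k := by
  rcases hl with ⟨h1, h2, h3⟩ | ⟨h1, h2⟩
  · exact ⟨Or.inl h3, fun j hj => ⟨h1 j hj.le, h3 ▸ h2 j hj⟩⟩
  · exact ⟨Or.inr h1, h2⟩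

theorem antich_un (k : ℕ) : Antich (FPS D k ∪ RB D k) := by
  rintro u hu l hl ⟨t, rfl⟩
  by_contra hne
  have ht : t ≠ [] := fun h => hne (by simp [h])
  have h1 := (inner hl).2 u.length (by simpa using List.length_pos_iff.2 ht)
  rw [H_append_left t le_rfl, H_length] at h1
  have h2 := (inner hu).1
  omega

theorem antich_FPS (k : ℕ) : Antich (FPS D k) := (antich_rec (k : ℤ)).mono fun _ hl => hl.2

theorem exit {k : ℕ} {l : List (Step D)} (h : ∃ j, j ≤ l.length ∧ ¬ (0 ≤ H l j ∧ H l j < k)) :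
    ∃ u ∈ FPS D k ∪ RB D k, u <+: l := by
  obtain ⟨hj, hn⟩ := Nat.find_spec h
  have hm : ∀ i < Nat.find h, 0 ≤ H l i ∧ H l i < k := fun i hi => by
    have h1 := Nat.find_min h hi
    by_contra h2
    exact h1 ⟨hi.le.trans hj, h2⟩
  generalize Nat.find h = j at hj hn hm
  have hlen : (l.take j).length = j := by rw [List.length_take, min_eq_left hj]
  have hc : H l j = k ∨ H l j = -1 := by
    rcases j with _ | j
    · rw [H_zero] at hn ⊢
      omega
    · have h1 := hm j (Nat.lt_succ_self j)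
      have h2 := H_step l j
      omega
  refine ⟨l.take j, ?_, List.take_prefix _ _⟩
  rcases hc with hc | hc
  · refine Or.inl ⟨fun i hi => ?_, fun i hi => ?_, hc⟩
    · rw [hlen] at hi
      rw [H_take l hi]
      rcases hi.lt_or_eq with h1 | h1
      · exact (hm i h1).1
      · rw [h1, hc]
        omega
    · rw [hlen] at hi
      rw [H_take l hi.le, lev_take, hc]
      exact (hm i hi).2
  · refine Or.inr ⟨hc, fun i hi => ?_⟩
    rw [hlen] at hi
    rw [H_take l hi.le]
    exact hm i hi

end QfAux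

open QfAux in
theorem qf : QFStmt := by
  intro D p lam h0 h1 k
  have hU : SS (FPS D k ∪ RB D k) (wb true p lam) = QQ D p lam k + ∑ i ∈ range k, Ret D p lam i := by
    rw [SS_union (disj k), SS_RB]; rfl
  refine ⟨?_, fun n => ?_, fun k' hk => ?_, fun n => ?_⟩
  · rw [← hU]
    exact kraft_wb true h0 h1 lam (antich_un k)
  · rw [← hU, ← SS_length_wb (D := D) h0 h1 lam n,
      SS_split _ {l : List (Step D) | ∀ j ≤ n, 0 ≤ H l j ∧ H l j ≤ k}, add_comm]
    refine add_le_add ?_ (le_of_eq rfl)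
    refine cover_wb true p lam ((antich_length n).mono fun _ hl => hl.1) fun l hl => exit ?_
    by_contra hc
    refine hl.2 fun j hj => ?_
    have hlen : l.length = n := hl.1
    have h2 : 0 ≤ H l j ∧ H l j < k := by
      by_contra h3
      exact hc ⟨j, hlen ▸ hj, h3⟩
    exact ⟨h2.1, h2.2.le⟩
  · refine cover_wb true p lam (antich_FPS k') fun l hl => ?_
    obtain ⟨t, ht, e, hlt⟩ := exists_first_hit (H l) (fun i => (H_step l i).2) (c := k)
      (n := l.length) (by simp) (by rw [H_length, hl.2.2]; exact_mod_cast hk)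
    have hlen : (l.take t).length = t := by rw [List.length_take, min_eq_left ht]
    refine ⟨l.take t, ⟨fun i hi => ?_, fun i hi => ?_, e⟩, List.take_prefix _ _⟩
    · rw [hlen] at hi
      rw [H_take l hi]
      exact hl.1 i (hi.trans ht)
    · rw [hlen] at hi
      rw [H_take l hi.le, lev_take, e]
      exact hlt i hi
  · refine cover_wb true p lam ((antich_FPS k).mono fun _ hl => hl.1) fun l hl => ?_
    have hlen : (l.take n).length = n := by rw [List.length_take, min_eq_left hl.2.le]
    refine ⟨l.take n, ⟨hlen, fun j hj => ?_⟩, List.take_prefix _ _⟩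
    rw [H_take l hj]
    have h2 := hl.1.2.1 j (hj.trans_lt hl.2)
    rw [hl.1.2.2] at h2
    exact ⟨hl.1.1 j (hj.trans hl.2.le), h2.le⟩

end Pool.Agent.MP_8c549f_pr.L2

end
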