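import Pool.Agent.MP_8c549f_pr.L2.SpecB
import Pool.Agent.MP_8c549f_pr.S3.Speed

/-! PROJECT L2, row Qs: quenched survival below a level. -/

noncomputable section

namespace Pool.Agent.MP_8c549f_pr.L2

open MeasureTheory Finset Real Classical S3 Filter Topology
open scoped ENNReal

namespace Qs

variable {D : ℕ}

/-- the constant of the extension lemma -/
def Wc (D h : ℕ) : ℝ := (D + 1) * (10 * (h : ℝ) + 1) ^ (2 * (D + 1)) * exp (10 * h + 1)

theorem one_le_Wc (D h : ℕ) : 1 ≤ Wc D h := by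
  have h0 : (0 : ℝ) ≤ h := Nat.cast_nonneg h
  have h1 : (1 : ℝ) ≤ (10 * (h : ℝ) + 1) ^ (2 * (D + 1)) := one_le_pow₀ (by linarith)
  have h2 : (1 : ℝ) ≤ exp (10 * h + 1) := one_le_exp (by linarith)
  have h3 : (1 : ℝ) ≤ (D : ℝ) + 1 := by linarith [Nat.cast_nonneg (α := ℝ) D]
  exact one_le_mul_of_one_le_of_one_le (one_le_mul_of_one_le_of_one_le h3 h1) h2

/-- functional inequality -/
theorem funA (hH : HardyStmt) (hE : ExtStmt) (hD : 1 ≤ D) {lam : ℝ} (h0 : 0 < lam) (h1 : lam ≤ 1)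
    {ω : Cfg D} {u : V D} {m h : ℕ} (hh : 2 ≤ h) (hG : Gd ω u (m + 9 * h) h) (hw : Wide ω u h)
    {g : V D → ℝ} (hg : ∀ x, g x ≠ 0 → x ∈ ball u m ∧ Conn ω u x) :
    ∑ x ∈ ball u m, pim lam ω x * g x ^ 2 ≤
      (2 * D + 4) * (4 / lam ^ 2) * Wc D h * En lam ω (ball u (m + 7 * h)) g := by
  obtain ⟨g', a1, a2, -, a4⟩ := hE D hD lam ω u m h g h0.le hh hG
    fun x hx => ⟨(hg x hx).1, (hw.of_conn (hg x hx).2).big⟩
  have a5 : (D + 1) * (10 * (h : ℝ) + 1) ^ (2 * (D + 1)) * exp (lam * (10 * h + 1)) *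
      En lam ω (ball u (m + 7 * h)) g ≤ Wc D h * En lam ω (ball u (m + 7 * h)) g := by
    refine mul_le_mul_of_nonneg_right ?_ (En_nonneg _ _)
    unfold Wc
    have : lam * (10 * h + 1) ≤ 10 * (h : ℝ) + 1 := mul_le_of_le_one_left (by positivity) h1
    gcongr
  have b1 := hH D g' u (m + h) lam h0 h1 a1
  have b2 : ∑ x ∈ ball u m, exp (2 * lam * (x 0 : ℝ)) * g x ^ 2 ≤
      ∑ x ∈ ball u (m + h), exp (2 * lam * (x 0 : ℝ)) * g' x ^ 2 := by
    refine le_trans (sum_le_sum fun x _ => ?_) (sum_le_sum_of_subset_of_nonneg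
      (ball_mono u (Nat.le_add_right m h)) fun x _ _ => by positivity)
    by_cases hx : g x = 0
    · rw [hx]
      simpa using mul_nonneg (exp_pos (2 * lam * (x 0 : ℝ))).le (sq_nonneg (g' x))
    · rw [a2 x hx]
  have b3 : ∑ x ∈ ball u (m + h + 1), exp (2 * lam * (x 0 : ℝ)) *
      (g' (x + Pi.single 0 1) - g' x) ^ 2 ≤ ∑ x ∈ ball u (m + h + 1), ∑ i,
        exp (2 * lam * (x 0 : ℝ)) * (g' (x + Pi.single i 1) - g' x) ^ 2 :=
    sum_le_sum fun x _ => single_le_sum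
      (f := fun i => exp (2 * lam * (x 0 : ℝ)) * (g' (x + Pi.single i 1) - g' x) ^ 2)
      (fun i _ => by positivity) (mem_univ 0)
  have b4 : ∑ x ∈ ball u m, pim lam ω x * g x ^ 2 ≤
      (2 * D + 4) * ∑ x ∈ ball u m, exp (2 * lam * (x 0 : ℝ)) * g x ^ 2 := by
    rw [mul_sum]
    refine sum_le_sum fun x _ => ?_
    rw [← mul_assoc]
    exact mul_le_mul_of_nonneg_right (pim_le h0.le h1 x) (sq_nonneg _)
  refine b4.trans ?_
  rw [mul_assoc, mul_assoc]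
  refine mul_le_mul_of_nonneg_left (b2.trans (b1.trans ?_)) (by positivity)
  exact mul_le_mul_of_nonneg_left (b3.trans (a4.trans a5)) (by positivity)

theorem size (D : ℕ) {K : ℝ} (hK : 0 < K) : ∃ n₀ : ℕ, ∀ n, n₀ ≤ n → 2 ≤ hh n ∧ 200 * hh n ≤ n ∧
    (K * Wc D (hh n)) ^ 8 ≤ n := by
  have ht := tendsto_pow_const_div_const_pow_of_one_lt (4 * (D + 1)) (show (1 : ℝ) < 2 by norm_num)
  set C : ℝ := (K * (D + 1) * 4) ^ 2 * 11 ^ (4 * (D + 1)) with hC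
  have hC0 : 0 < C := by positivity
  obtain ⟨h₀, hh₀⟩ := eventually_atTop.1 (ht.eventually (gt_mem_nhds (one_div_pos.2 hC0)))
  refine ⟨2 ^ (200 * (h₀ + 2)), fun l hl => ?_⟩
  have hl0 : l ≠ 0 := by
    have := Nat.two_pow_pos (200 * (h₀ + 2))
    omega
  have e1 : 200 * (h₀ + 2) ≤ Nat.log 2 l := Nat.le_log_of_pow_le (by norm_num) hl
  have e2 : h₀ + 2 ≤ hh l := by unfold hh; omega
  have e3 : 200 * hh l ≤ Nat.log 2 l := by unfold hh; omega
  have e4 : 2 ^ (200 * hh l) ≤ l :=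
    (Nat.pow_le_pow_right (by norm_num) e3).trans (Nat.pow_log_le_self 2 hl0)
  refine ⟨by omega, e3.trans (Nat.log_le_self 2 l), ?_⟩
  set h := hh l
  have e5 : ((2 : ℝ)) ^ (200 * h) ≤ l := by exact_mod_cast e4
  have e6 := hh₀ h (by omega)
  rw [div_lt_div_iff₀ (by positivity) hC0, one_mul] at e6
  have h1 : (1 : ℝ) ≤ h := by exact_mod_cast (by omega : 1 ≤ h)
  have e7 : exp (10 * (h : ℝ) + 1) ≤ 4 * 2 ^ (20 * h) := by
    have c1 : exp 1 ≤ 4 := exp_one_lt_d9.le.trans (by norm_num)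
    have c2 : exp (10 * (h : ℝ) + 1) = exp 1 ^ (10 * h) * exp 1 := by
      rw [← exp_nat_mul, ← exp_add]; push_cast; ring_nf
    have c3 : exp 1 ^ (10 * h) ≤ 4 ^ (10 * h) := pow_le_pow_left₀ (exp_pos 1).le c1 _
    have c4 : (4 : ℝ) ^ (10 * h) = 2 ^ (20 * h) := by
      rw [show (4 : ℝ) = 2 ^ 2 by norm_num, ← pow_mul]; ring_nf
    rw [c2, ← c4, mul_comm]
    gcongr
  have e8 : (10 * (h : ℝ) + 1) ^ (2 * (D + 1)) ≤ (11 * (h : ℝ)) ^ (2 * (D + 1)) :=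
    pow_le_pow_left₀ (by positivity) (by linarith) _
  have e9 : K * Wc D h ≤ K * ((D + 1) * (11 * (h : ℝ)) ^ (2 * (D + 1)) * (4 * 2 ^ (20 * h))) := by
    unfold Wc
    gcongr
  have e10 := pow_le_pow_left₀ (mul_nonneg hK.le (by linarith [one_le_Wc D h])) e9 2
  have e11 : (K * Wc D h) ^ 2 ≤ 2 ^ (50 * h) := by
    refine e10.trans ?_
    calc _ = (h : ℝ) ^ (4 * (D + 1)) * C * 2 ^ (40 * h) := by rw [hC]; ring
      _ ≤ 2 ^ h * 2 ^ (40 * h) := by gcongr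
      _ ≤ 2 ^ (50 * h) := by
        rw [← pow_add]
        exact pow_le_pow_right₀ (by norm_num) (by omega)
  calc (K * Wc D h) ^ 8 = ((K * Wc D h) ^ 2) ^ 4 := by ring
    _ ≤ (2 ^ (50 * h)) ^ 4 := pow_le_pow_left₀ (sq_nonneg _) e11 4
    _ = 2 ^ (200 * h) := by rw [← pow_mul]; ring_nf
    _ ≤ l := e5

/-- the numerical inequality -/
theorem num (D : ℕ) {u : ℝ} (hu : 308 + 18 * (D : ℝ) ≤ u) :
    (2 * u ^ 8 + 1) ^ (D + 1) * ((2 * D + 4) * exp (2 * u ^ 4)) * (3 * exp (-u ^ 5)) ≤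
      (1 / (u ^ 8) ^ 9) ^ 2 := by
  have hD : (0 : ℝ) ≤ D := Nat.cast_nonneg D
  have h1 : 1 ≤ u := by linarith
  have h0 : 0 < u := by linarith
  have a1 : u ≤ exp u := by linarith [add_one_le_exp u]
  have a2 : u ^ 8 ≤ exp u ^ 8 := pow_le_pow_left₀ h0.le a1 8
  have a3 : 2 * u ^ 8 + 1 ≤ exp u ^ 9 := by
    have : 1 ≤ u ^ 8 := one_le_pow₀ h1
    calc 2 * u ^ 8 + 1 ≤ 3 * u ^ 8 := by linarith
      _ ≤ exp u * exp u ^ 8 := mul_le_mul (by linarith) a2 (by positivity) (exp_pos _).le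
      _ = exp u ^ 9 := by ring
  have a4 : (2 * u ^ 8 + 1) ^ (D + 1) ≤ (exp u ^ 9) ^ (D + 1) :=
    pow_le_pow_left₀ (by positivity) a3 _
  have a5 : ((u ^ 8) ^ 9) ^ 2 ≤ ((exp u ^ 8) ^ 9) ^ 2 := by gcongr
  have a6 : 3 * (2 * (D : ℝ) + 4) ≤ exp u := by linarith
  have a7 : u ≤ u ^ 4 := le_self_pow₀ h1 (by norm_num)
  have a8 : 9 * ((D : ℝ) + 1) * u + u + 144 * u + 2 * u ^ 4 + -u ^ 5 ≤ 0 := by
    have b1 : (154 + 9 * (D : ℝ)) * u ≤ u ^ 4 / 2 * u :=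
      mul_le_mul_of_nonneg_right (by linarith) h0.le
    have b2 : 4 * u ^ 4 ≤ u * u ^ 4 := mul_le_mul_of_nonneg_right (by linarith) (by positivity)
    nlinarith
  rw [div_pow, one_pow, le_div_iff₀ (by positivity)]
  calc _ = (2 * u ^ 8 + 1) ^ (D + 1) * (3 * (2 * D + 4)) * ((u ^ 8) ^ 9) ^ 2 *
        (exp (2 * u ^ 4) * exp (-u ^ 5)) := by ring
    _ ≤ (exp u ^ 9) ^ (D + 1) * exp u * ((exp u ^ 8) ^ 9) ^ 2 *
        (exp (2 * u ^ 4) * exp (-u ^ 5)) := by gcongr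
    _ = exp (9 * ((D : ℝ) + 1) * u + u + 144 * u + 2 * u ^ 4 + -u ^ 5) := by
      simp only [← pow_mul, ← exp_nat_mul, ← exp_add]
      congr 1
      push_cast
      ring
    _ ≤ 1 := exp_le_one_iff.2 a8

end Qs

open Qs in
theorem qs (hP : PkStmt) (hS : SpecStmt) (hH : HardyStmt) (hE : ExtStmt) : QSStmt := by
  intro D hD
  have hD0 : (0 : ℝ) ≤ D := Nat.cast_nonneg D
  obtain ⟨n₀, hn₀⟩ := size D (K := 16 * (2 * D + 4)) (by positivity)
  refine ⟨max n₀ (308 + 18 * D), fun l m n lam ω hl hlo h1 hln hmn hG hw => ?_⟩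
  have hl1 : 308 + 18 * D ≤ l := (le_max_right _ _).trans hl
  have hl2 : l ≤ n := (Nat.le_self_pow (by norm_num) l).trans hln
  obtain ⟨s1, s2, s3⟩ := hn₀ n (((le_max_left _ _).trans hl).trans hl2)
  set h := hh n
  have hlr : 308 + 18 * (D : ℝ) ≤ l := by exact_mod_cast hl1
  have hl0 : (0 : ℝ) < l := by linarith
  have h0 : 0 < lam := lt_of_lt_of_le (by positivity) hlo
  obtain ⟨u, hu0, hu⟩ : ∃ u : ℝ, 0 ≤ u ∧ u ^ 8 = n :=
    ⟨(n : ℝ) ^ ((8 : ℕ)⁻¹ : ℝ), by positivity,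
      rpow_inv_natCast_pow (Nat.cast_nonneg n) (by norm_num)⟩
  have u1 : (l : ℝ) ≤ u := by
    refine le_of_pow_le_pow_left₀ (n := 8) (by norm_num) hu0 ?_
    rw [hu]; exact_mod_cast hln
  have u2 : 16 * (2 * D + 4) * Wc D h ≤ u :=
    le_of_pow_le_pow_left₀ (n := 8) (by norm_num) hu0 (by rw [hu]; exact s3)
  have u3 : (m : ℝ) ≤ u ^ 4 := by
    refine le_of_pow_le_pow_left₀ (n := 2) (by norm_num) (by positivity) ?_
    rw [← pow_mul, hu]; exact_mod_cast hmn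
  have hW := one_le_Wc D h
  have hZ : 0 < Zq lam ω 0 := wide_Zq (by omega) hw lam
  set A : Finset (V D) := (ball 0 n).filter fun y => y 0 ≤ m with hA
  set α : ℝ := (2 * D + 4) * (4 * (l : ℝ) ^ 2) * Wc D h with hα
  have hl1' : (1 : ℝ) ≤ l := by linarith
  have hα1 : 1 ≤ α := by
    have c1 : (1 : ℝ) ≤ (l : ℝ) ^ 2 := one_le_pow₀ hl1'
    exact one_le_mul_of_one_le_of_one_le
      (one_le_mul_of_one_le_of_one_le (by linarith) (by linarith)) hW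
  have a0 : 4 / lam ^ 2 ≤ 4 * (l : ℝ) ^ 2 := by
    rw [div_le_iff₀ (by positivity)]
    have c1 : 1 ≤ lam * l := (div_le_iff₀ hl0).1 hlo
    have c2 := pow_le_pow_left₀ zero_le_one c1 2
    nlinarith
  have key := hS D lam ω A (ball 0 (n + 7 * h)) 0 α 0 hZ hα1 le_rfl (fun g _ hg _ => by
    rw [add_zero]
    refine (sum_le_sum_of_subset_of_nonneg (filter_subset _ _) fun x _ _ =>
      mul_nonneg (pim_nonneg _ _ _) (sq_nonneg _)).trans ?_
    refine (funA hH hE hD h0 h1 s1 (hG.mono (by rw [sub_self, nrm_zero]; omega)) hw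
      fun x hx => ⟨filter_subset _ _ (hg x hx).1, (hg x hx).2⟩).trans ?_
    have := En_nonneg (lam := lam) (ω := ω) (ball 0 (n + 7 * h)) g
    rw [hα]
    gcongr) n
  rw [zero_add] at key
  have b1 : u ^ 5 ≤ n / (4 * α) := by
    rw [le_div_iff₀ (by positivity), ← hu, hα]
    calc _ = u ^ 5 * (l : ℝ) ^ 2 * (16 * (2 * D + 4) * Wc D h) := by ring
      _ ≤ u ^ 5 * u ^ 2 * u := by gcongr
      _ = u ^ 8 := by ring
  have b2 : exp (-(n / (4 * α))) / pim lam ω 0 ≤ 3 * exp (-u ^ 5) := by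
    have c1 := le_pim (ω := ω) h0.le h1 hZ
    simp only [Pi.zero_apply, Int.cast_zero, mul_zero, exp_zero] at c1
    rw [div_le_iff₀ (by linarith)]
    have c2 : exp (-(n / (4 * α))) ≤ exp (-u ^ 5) := exp_le_exp.2 (by linarith)
    nlinarith [exp_pos (-u ^ 5)]
  have b3 : ∑ z ∈ A, pim lam ω z ≤
      (2 * u ^ 8 + 1) ^ (D + 1) * ((2 * D + 4) * exp (2 * u ^ 4)) := by
    have c1 : ∀ z ∈ A, pim lam ω z ≤ (2 * D + 4) * exp (2 * u ^ 4) := fun z hz => by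
      refine (pim_le h0.le h1 z).trans
        (mul_le_mul_of_nonneg_left (exp_le_exp.2 ?_) (by positivity))
      have d1 : ((z 0 : ℤ) : ℝ) ≤ m := by exact_mod_cast (mem_filter.1 hz).2
      have d2 : (0 : ℝ) ≤ m := Nat.cast_nonneg m
      nlinarith
    refine (sum_le_card_nsmul _ _ _ c1).trans ?_
    rw [nsmul_eq_mul]
    refine mul_le_mul_of_nonneg_right ?_ (by positivity)
    have c2 := (card_filter_le (ball (0 : V D) n) fun y => y 0 ≤ m).trans_eq (card_ball 0 n)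
    rw [hu]
    exact_mod_cast c2
  obtain ⟨-, -, p3, -, p5, -, -⟩ := hP D lam ω
  have b4 : (∑ z ∈ A, pk lam ω A n 0 z) ^ 2 ≤
      (∑ z ∈ A, pim lam ω z) * ∑ z ∈ A, pk lam ω A n 0 z ^ 2 / pim lam ω z := by
    refine sum_sq_le_sum_mul_sum_of_sq_eq_mul A (fun z _ => pim_nonneg _ _ _)
      (fun z _ => div_nonneg (sq_nonneg _) (pim_nonneg _ _ _)) fun z _ => ?_
    by_cases hz : pk lam ω A n 0 z = 0
    · simp [hz]
    · have : 0 < pim lam ω z :=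
        mul_pos (exp_pos _) (Zq_pos_of_conn (p5 _ _ _ _ hz).2.2.1 hZ)
      field_simp
  have b5 : ∑ z ∈ A, pk lam ω A n 0 z ≤ 1 / (n : ℝ) ^ 9 := by
    refine le_of_pow_le_pow_left₀ (n := 2) (by norm_num) (by positivity) (b4.trans ?_)
    rw [← hu]
    refine le_trans ?_ (num D (hlr.trans u1))
    exact mul_le_mul b3 (key.trans b2)
      (sum_nonneg fun z _ => div_nonneg (sq_nonneg _) (pim_nonneg _ _ _)) (by positivity)
  set T := (Speed.lists D n).filter fun u => ∀ k ≤ n, H u k ≤ m with hT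
  have e1 : {u : List (Step D) | u.length = n ∧ ∀ k ≤ n, H u k ≤ m} = (T : Set _) := by
    ext v; simp [hT, Speed.mem_lists]
  rw [e1, SS_coe]
  simp only [W_eq_wr]
  rw [← ENNReal.ofReal_sum_of_nonneg fun v _ => wr_nonneg v 0]
  refine ENNReal.ofReal_le_ofReal (le_trans ?_ b5)
  rw [← p3, Speed.Qx_eq, hT, sum_filter]
  refine sum_le_sum fun v _ => ?_
  rw [← wr_eq_W]
  split_ifs with hv
  · rw [ind_pos, mul_one]
    intro i hi
    rw [zero_add, hA, mem_filter, mem_ball, sub_zero]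
    exact ⟨(nrm_loc_le v i).trans hi, hv i hi⟩
  · exact mul_nonneg (wr_nonneg v 0) (ind_nonneg _)

end Pool.Agent.MP_8c549f_pr.L2

end
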