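import Pool.Agent.MP_8c549f_pr.L2.SpecB

/-! PROJECT L2, row Qu: the quenched estimates collected at one scale. -/

noncomputable section

namespace Pool.Agent.MP_8c549f_pr.L2

open MeasureTheory Finset Real Classical S3
open scoped ENNReal

theorem quS (hG : GEOStmt) (hL : LEG1Stmt) (hQ : Q1Stmt) (hO : OVStmt) : QUStmt := by
  intro D hD
  obtain ⟨A, hA2, hgeo⟩ := hG D hD
  obtain ⟨Λ₁, hL1⟩ := hL D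
  obtain ⟨Λ₂, hO1⟩ := hO D
  have hΛ1 : Λ₁ ≤ Λ₁ + Λ₂ + 1 := by omega
  have hΛ2 : Λ₂ ≤ Λ₁ + Λ₂ + 1 := by omega
  have hΛ3 : 1 ≤ Λ₁ + Λ₂ + 1 := by omega
  obtain ⟨C, hC, hL2⟩ := hL1 _ hΛ1
  obtain ⟨c, l₂, hc0, hc1, hO2⟩ := hO1 _ hΛ2
  refine ⟨A, Λ₁ + Λ₂ + 1, C, c, hA2, hΛ3, hC, hc0, hc1, ?_⟩
  intro ε hε
  obtain ⟨δ₀, l₃, hδ₀, hQ1⟩ := hQ D _ ε hΛ3 hε
  have hδ : 0 < min δ₀ (1 / 4) := lt_min hδ₀ (by norm_num)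
  refine ⟨min δ₀ (1 / 4), hδ, ?_⟩
  intro K
  obtain ⟨l₁, hL3⟩ := hL2 K
  refine ⟨l₁ + l₂ + l₃ + 16, ?_⟩
  intro l hl hh2 hhm hm8
  have hR : ∀ n : ℕ, 2 * l ^ 4 ≤ (n + 2) * l ^ 4 := fun n =>
    Nat.mul_le_mul_right _ (by omega)
  have hsc : ∀ lam : ℝ, 1 / (l : ℝ) ≤ lam → lam ≤ 4 / (l : ℝ) → Sc l (mm l) lam :=
    fun lam h1 h2 => ⟨by omega, hm8, h1, h2⟩
  have hg : ∀ (n : ℕ) (ω : Cfg D), Gn A (mm l) (hA A l) (min δ₀ (1 / 4)) (l ^ 4) n ω →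
      ∃ rep w, Geo ω ((n + 2) * l ^ 4) (mm l) (hA A l) (min δ₀ (1 / 4)) rep w :=
    fun n ω h => hgeo ω _ _ _ _ hh2 hhm hδ.le (min_le_right _ _) h.1
  constructor
  · intro lam n ω h1 h2 hn
    obtain ⟨rep, w, hw⟩ := hg n ω hn
    obtain ⟨a1, a2, a3⟩ := hL3 ω _ _ _ _ rep w hw l lam (by omega) (hsc lam h1 h2) hn.2 (hR n)
    exact ⟨a1, a2, a3, hQ1 ω _ _ _ _ rep w hw (min_le_left _ _) l lam (by omega)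
      (hsc lam h1 h2) hn.2 (hR n)⟩
  · intro lam n ω ω' h1 h2 hn hn' ha
    obtain ⟨rep, w, hw⟩ := hg n ω hn
    obtain ⟨rep', w', hw'⟩ := hg n ω' hn'
    exact hO2 ω ω' _ _ _ _ rep w rep' w' hw hw' l lam (by omega) (hsc lam h1 h2) hn.2 hn'.2
      (hR n) ha

end Pool.Agent.MP_8c549f_pr.L2

end
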