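import Pool.Agent.MP_8c549f_pr.L2.SpecB

/-! PROJECT L2: from one increment of the bias to all the smaller ones. -/

noncomputable section

namespace Pool.Agent.MP_8c549f_pr.L2

open MeasureTheory Finset Real Classical S3
open scoped ENNReal

namespace RegS

variable {D : ℕ} {p : ℝ}

theorem toReal_wb (lam : ℝ) (l : List (Step D)) :
    (wb true p lam l).toReal = ∫ ω, wr lam (cfg true ω) 0 l ∂perc D p := by
  simp only [wr_eq_W]
  rw [integral_toReal (measurable_W_cfg true lam l).aemeasurable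
    (Filter.Eventually.of_forall fun ω => (W_le_one lam _ l 0).trans_lt ENNReal.one_lt_top)]
  rfl

theorem integ (h0 : 0 ≤ p) (h1 : p ≤ 1) (lam : ℝ) (l : List (Step D)) :
    Integrable (fun ω => wr lam (cfg true ω) 0 l) (perc D p) := by
  have := perc_prob D h0 h1
  refine Integrable.of_bound ((measurable_wr lam 0 l).comp (measurable_cfg true)).aestronglyMeasurable
    1 (Filter.Eventually.of_forall fun ω => ?_)
  rw [Real.norm_of_nonneg (wr_nonneg l 0), wr_eq_W]
  exact ENNReal.toReal_le_of_le_ofReal zero_le_one (by simpa using W_le_one lam _ l 0)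

theorem three (hT : THREEStmt) (h0 : 0 ≤ p) (h1 : p ≤ 1) {x s ζ : ℝ} (hs : 0 < s) (hz : s ≤ ζ)
    (hz1 : ζ ≤ 1) (l : List (Step D)) :
    |(wb true p (x + s) l).toReal - ((1 - s / ζ) * (wb true p x l).toReal +
      s / ζ * (wb true p (x + ζ) l).toReal)| ≤ 16 * s * ζ * (l.length : ℝ) ^ 2 *
      ((wb true p x l).toReal + (wb true p (x + s) l).toReal + (wb true p (x + ζ) l).toReal) := by
  have i0 := integ h0 h1 x l
  have i1 := integ h0 h1 (x + s) l
  have i2 := integ h0 h1 (x + ζ) l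
  have j : Integrable (fun ω => (1 - s / ζ) * wr x (cfg true ω) 0 l +
      s / ζ * wr (x + ζ) (cfg true ω) 0 l) (perc D p) := (i0.const_mul _).add (i2.const_mul _)
  have j' : Integrable (fun ω => wr x (cfg true ω) 0 l + wr (x + s) (cfg true ω) 0 l) (perc D p) :=
    i0.add i1
  simp only [toReal_wb]
  rw [← integral_const_mul, ← integral_const_mul, ← integral_add (i0.const_mul _) (i2.const_mul _),
    ← integral_sub i1 j, ← integral_add i0 i1, ← integral_add j' i2, ← integral_const_mul]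
  refine abs_integral_le_integral_abs.trans (integral_mono (i1.sub j).abs
    ((j'.add i2).const_mul _) fun ω => ?_)
  exact hT D x s ζ _ l 0 hs hz hz1

theorem real {ι : Type} {k n f0 f1 f2 : ι → ℝ} {θ e a0 a1 a2 u0 u1 u2 : ℝ}
    (h0 : HasSum (fun i => k i * f0 i) a0) (h1 : HasSum (fun i => k i * f1 i) a1)
    (h2 : HasSum (fun i => k i * f2 i) a2) (g0 : HasSum (fun i => n i ^ 3 * f0 i) u0)
    (g1 : HasSum (fun i => n i ^ 3 * f1 i) u1) (g2 : HasSum (fun i => n i ^ 3 * f2 i) u2)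
    (hk : ∀ i, 0 ≤ k i ∧ k i ≤ n i)
    (h : ∀ i, |f1 i - ((1 - θ) * f0 i + θ * f2 i)| ≤ e * n i ^ 2 * (f0 i + f1 i + f2 i)) :
    |a1 - ((1 - θ) * a0 + θ * a2)| ≤ e * (u0 + u1 + u2) := by
  have hL := h1.sub ((h0.mul_left (1 - θ)).add (h2.mul_left θ))
  have hR := ((g0.add g1).add g2).mul_left e
  have key : ∀ i, |k i * f1 i - ((1 - θ) * (k i * f0 i) + θ * (k i * f2 i))| ≤
      e * (n i ^ 3 * f0 i + n i ^ 3 * f1 i + n i ^ 3 * f2 i) := fun i => by
    have := mul_le_mul (hk i).2 (h i) (abs_nonneg _) ((hk i).1.trans (hk i).2)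
    rw [show k i * f1 i - ((1 - θ) * (k i * f0 i) + θ * (k i * f2 i)) =
      k i * (f1 i - ((1 - θ) * f0 i + θ * f2 i)) by ring, abs_mul, abs_of_nonneg (hk i).1]
    exact this.trans_eq (by ring)
  exact abs_le.2 ⟨hasSum_le (fun i => (abs_le.1 (key i)).1) hR.neg hL,
    hasSum_le (fun i => (abs_le.1 (key i)).2) hL hR⟩

theorem hasSum_SS (A : Set (List (Step D))) (k : List (Step D) → ℕ) (f : List (Step D) → ℝ≥0∞)
    (hf : ∀ l, f l ≠ ∞) (h : (SS A fun l => k l * f l) ≠ ∞) :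
    HasSum (fun l : A => (k l : ℝ) * (f l).toReal) (SS A fun l => k l * f l).toReal := by
  rw [SS_eq_tsum_subtype] at h ⊢
  rw [ENNReal.tsum_toReal_eq fun l : A => ENNReal.mul_ne_top (ENNReal.natCast_ne_top _) (hf l)]
  simpa using ENNReal.hasSum_toReal h

theorem le_M3 (lam : ℝ) (k : List (Step D) → ℕ) (hk : ∀ l, k l ≤ l.length) :
    (SS {l : List (Step D) | Block l} fun l => k l * wb true p lam l) ≤ M3 D p lam := by
  refine SS_mono subset_rfl fun l _ => mul_le_mul_left ?_ _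
  exact_mod_cast (hk l).trans (Nat.le_self_pow (by norm_num) _)

theorem hs1 (h0 : 0 ≤ p) (h1 : p ≤ 1) {lam M : ℝ} (h : M3 D p lam ≤ ENNReal.ofReal M)
    (k : List (Step D) → ℕ) (hk : ∀ l, k l ≤ l.length) :
    HasSum (fun l : {l : List (Step D) | Block l} => (k l.1 : ℝ) * (wb true p lam l.1).toReal)
      (SS {l : List (Step D) | Block l} fun l => k l * wb true p lam l).toReal :=
  hasSum_SS {l : List (Step D) | Block l} k (wb true p lam)
    (fun l => ((wb_le_one true h0 h1 lam l).trans_lt ENNReal.one_lt_top).ne)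
    (((le_M3 lam k hk).trans h).trans_lt ENNReal.ofReal_lt_top).ne

theorem hs3 (h0 : 0 ≤ p) (h1 : p ≤ 1) {lam M : ℝ} (h : M3 D p lam ≤ ENNReal.ofReal M) :
    HasSum (fun l : {l : List (Step D) | Block l} =>
      (l.1.length : ℝ) ^ 3 * (wb true p lam l.1).toReal) (M3 D p lam).toReal := by
  have e : (SS {l : List (Step D) | Block l} fun l => (l.length ^ 3 : ℕ) * wb true p lam l) =
      M3 D p lam := by simp only [M3, Nat.cast_pow]
  have := hasSum_SS {l : List (Step D) | Block l} (fun l => l.length ^ 3) (wb true p lam)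
    (fun l => ((wb_le_one true h0 h1 lam l).trans_lt ENNReal.one_lt_top).ne)
    (by rw [e]; exact (h.trans_lt ENNReal.ofReal_lt_top).ne)
  rw [e] at this
  simpa only [Nat.cast_pow] using this

theorem sums (hT : THREEStmt) (h0 : 0 ≤ p) (h1 : p ≤ 1) {x s ζ M : ℝ} (hs : 0 < s) (hz : s ≤ ζ)
    (hz1 : ζ ≤ 1) (hM : 0 ≤ M) (m0 : M3 D p x ≤ ENNReal.ofReal M)
    (m1 : M3 D p (x + s) ≤ ENNReal.ofReal M) (m2 : M3 D p (x + ζ) ≤ ENNReal.ofReal M)
    (k : List (Step D) → ℕ) (hk : ∀ l, k l ≤ l.length) :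
    |(SS {l : List (Step D) | Block l} fun l => k l * wb true p (x + s) l).toReal -
      ((1 - s / ζ) * (SS {l : List (Step D) | Block l} fun l => k l * wb true p x l).toReal +
        s / ζ * (SS {l : List (Step D) | Block l} fun l => k l * wb true p (x + ζ) l).toReal)| ≤
      48 * s * ζ * M := by
  have hsz : 0 ≤ 16 * s * ζ := by have := hs.trans_le hz; positivity
  have v0 := ENNReal.toReal_le_of_le_ofReal hM m0
  have v1 := ENNReal.toReal_le_of_le_ofReal hM m1
  have v2 := ENNReal.toReal_le_of_le_ofReal hM m2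
  have t := real (θ := s / ζ) (e := 16 * s * ζ) (hs1 h0 h1 m0 k hk) (hs1 h0 h1 m1 k hk)
    (hs1 h0 h1 m2 k hk) (hs3 h0 h1 m0) (hs3 h0 h1 m1) (hs3 h0 h1 m2)
    (fun l => ⟨Nat.cast_nonneg _, Nat.cast_le.2 (hk l.1)⟩) fun l => three hT h0 h1 hs hz hz1 l.1
  refine t.trans ((mul_le_mul_of_nonneg_left (add_le_add (add_le_add v0 v1) v2) hsz).trans_eq ?_)
  ring

theorem toNat_le (l : List (Step D)) : (lev l).toNat ≤ l.length := by
  have := lev_le_length l; omega

theorem bounds {lam M : ℝ} (hM : 0 ≤ M)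
    (h : SS {l : List (Step D) | Block l} (wb true p lam) = 1) (m : M3 D p lam ≤ ENNReal.ofReal M) :
    1 ≤ BR D p lam ∧ 0 ≤ AR D p lam ∧ AR D p lam ≤ M := by
  refine ⟨?_, ENNReal.toReal_nonneg,
    ENNReal.toReal_le_of_le_ofReal hM ((le_M3 lam _ fun _ => le_rfl).trans m)⟩
  have f : BB D p lam ≠ ∞ :=
    (((le_M3 lam _ toNat_le).trans m).trans_lt ENNReal.ofReal_lt_top).ne
  have : (1 : ℝ≥0∞) ≤ BB D p lam := by
    rw [← h]
    refine SS_mono subset_rfl fun l hl => le_mul_of_one_le_left zero_le ?_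
    have := Block.lev_pos hl
    exact_mod_cast (by omega : 1 ≤ (lev l).toNat)
  exact ENNReal.toReal_mono f this

end RegS

theorem regS (hT : THREEStmt) : REGStmt := by
  intro D p x s ζ M c h0 h1 hs hz hz1 hM h hk hc
  obtain ⟨e0, m0⟩ := h x (Or.inl rfl)
  obtain ⟨e1, m1⟩ := h (x + s) (Or.inr (Or.inl rfl))
  obtain ⟨e2, m2⟩ := h (x + ζ) (Or.inr (Or.inr rfl))
  have hA : |AR D p (x + s) - ((1 - s / ζ) * AR D p x + s / ζ * AR D p (x + ζ))| ≤
      48 * s * ζ * M := RegS.sums hT h0 h1 hs hz hz1 hM m0 m1 m2 _ fun _ => le_rfl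
  have hB : |BR D p (x + s) - ((1 - s / ζ) * BR D p x + s / ζ * BR D p (x + ζ))| ≤
      48 * s * ζ * M := RegS.sums hT h0 h1 hs hz hz1 hM m0 m1 m2 _ RegS.toNat_le
  obtain ⟨b0, a0, c0⟩ := RegS.bounds hM e0 m0
  obtain ⟨b1, -, -⟩ := RegS.bounds hM e1 m1
  obtain ⟨b2, -, -⟩ := RegS.bounds hM e2 m2
  have hζ : 0 < ζ := hs.trans_le hz
  have k0 : 0 ≤ kap D p x := div_nonneg a0 (by linarith)
  have k1 : kap D p x ≤ M := (div_le_self a0 b0).trans c0
  have q0 : AR D p x = kap D p x * BR D p x := by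
    rw [kap, div_mul_cancel₀ _ (by linarith)]
  have q2 : AR D p (x + ζ) = kap D p (x + ζ) * BR D p (x + ζ) := by
    rw [kap, div_mul_cancel₀ _ (by linarith)]
  have hc0 : 0 < c := lt_of_le_of_lt (by positivity) hc
  have hcz : 0 < c * ζ := mul_pos hc0 hζ
  have p2 : AR D p (x + ζ) - kap D p x * BR D p (x + ζ) ≤ -(c * ζ) := by
    rw [q2]; nlinarith
  have hθ : 0 < s / ζ := div_pos hs hζ
  have p3 : s / ζ * (AR D p (x + ζ) - kap D p x * BR D p (x + ζ)) ≤ -(c * s) := by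
    have := mul_le_mul_of_nonneg_left p2 hθ.le
    rwa [show s / ζ * -(c * ζ) = -(c * s) by field_simp] at this
  have p4 := mul_le_mul_of_nonneg_left (abs_le.1 hB).1 k0
  have p5 := (abs_le.1 hA).2
  have p6 : 0 ≤ 48 * s * ζ * M := by positivity
  have p7 := mul_le_mul_of_nonneg_right k1 p6
  have p8 := mul_lt_mul_of_pos_left hc hs
  rw [kap, div_lt_iff₀ (by linarith)]
  rw [q0] at p5
  nlinarith

end Pool.Agent.MP_8c549f_pr.L2

end
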