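import Pool.Agent.MP_8c549f_pr.L2.SpecB

/-! PROJECT L2: the renewal estimate for the mean length of the first passages. -/

noncomputable section

namespace Pool.Agent.MP_8c549f_pr.L2

open MeasureTheory Finset Real Classical S3
open scoped ENNReal

namespace Ren

variable {D : ℕ}

theorem fib (F : List (Step D) → ℝ≥0∞) : SS {l : List (Step D) | Block l} F =
    ∑' m : ℕ, SS {l : List (Step D) | Block l ∧ lev l = m} F := by
  rw [SS_fiber _ fun l => (lev l).toNat]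
  refine tsum_congr fun m => ?_
  congr 1
  ext l
  refine and_congr_right fun hl => ?_
  have := Block.lev_pos hl
  omega

theorem fB_zero (p lam : ℝ) : fB D p lam 0 = 0 := by
  rw [fB, Set.eq_empty_of_forall_notMem (s := {l : List (Step D) | Block l ∧ lev l = (0 : ℕ)})
    fun l hl => by have := hl.1.lev_pos; have := hl.2; omega, SS_empty]

theorem sum_mf (p lam : ℝ) : ∑' m : ℕ, (m : ℝ≥0∞) * fB D p lam m = BB D p lam := by
  rw [BB, fib]
  refine tsum_congr fun m => ?_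
  rw [fB, ← SS_mul_left]
  exact SS_congr fun l hl => by rw [hl.2, Int.toNat_natCast]

theorem cube {l : List (Step D)} {m : ℕ} (h : lev l = m) :
    (m : ℝ≥0∞) * l.length ≤ (l.length : ℝ≥0∞) ^ 3 ∧ (m : ℝ≥0∞) ^ 2 ≤ (l.length : ℝ≥0∞) ^ 3 := by
  have h1 : m ≤ l.length := by have := lev_le_length l; omega
  have h2 : l.length * l.length ≤ l.length ^ 3 := by
    rcases Nat.eq_zero_or_pos l.length with e | e
    · simp [e]
    · rw [← sq]; exact Nat.pow_le_pow_right e (by norm_num)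
  constructor
  · exact_mod_cast (Nat.mul_le_mul_right _ h1).trans h2
  · exact_mod_cast (sq m ▸ Nat.mul_le_mul h1 h1).trans h2

theorem sum_mg (p lam : ℝ) : ∑' m : ℕ, (m : ℝ≥0∞) * gB D p lam m ≤ M3 D p lam := by
  rw [M3, fib]
  refine ENNReal.tsum_le_tsum fun m => ?_
  rw [gB, ← SS_mul_left]
  exact SS_mono subset_rfl fun l hl => by
    rw [← mul_assoc]; exact mul_le_mul_left (cube hl.2).1 _

theorem sum_mmf (p lam : ℝ) : ∑' m : ℕ, (m : ℝ≥0∞) ^ 2 * fB D p lam m ≤ M3 D p lam := by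
  rw [M3, fib]
  refine ENNReal.tsum_le_tsum fun m => ?_
  rw [fB, ← SS_mul_left]
  exact SS_mono subset_rfl fun l hl => mul_le_mul_left (cube hl.2).2 _

theorem part_le {u : ℕ → ℝ≥0∞} {a : ℝ} (ha : 0 ≤ a) (h : ∑' m, u m ≤ ENNReal.ofReal a) (n : ℕ) :
    ∑ m ∈ range n, (u m).toReal ≤ a := by
  have h1 : ∀ m, u m ≠ ∞ := ENNReal.ne_top_of_tsum_ne_top (ne_top_of_le_ne_top ENNReal.ofReal_ne_top h)
  rw [← ENNReal.toReal_sum fun m _ => h1 m]
  exact ENNReal.toReal_le_of_le_ofReal ha ((ENNReal.sum_le_tsum _).trans h)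

theorem hs {u : ℕ → ℝ≥0∞} {a : ℝ≥0∞} (ha : a ≠ ∞) (h : ∑' m, u m = a) :
    HasSum (fun m => (u m).toReal) a.toReal := by
  subst h
  rw [ENNReal.tsum_toReal_eq (ENNReal.ne_top_of_tsum_ne_top ha)]
  exact (ENNReal.summable_toReal ha).hasSum

theorem geo {μ : ℝ} (h0 : 0 < μ) (h1 : μ ≤ 1) : ∃ s ≤ 2 / μ,
    HasSum (fun i : ℕ => exp (-(μ * i))) s := by
  have e1 : exp (-μ) ≤ 1 - μ / 2 := by
    rw [exp_neg, inv_le_comm₀ (exp_pos _) (by linarith), inv_eq_one_div,
      div_le_iff₀ (by linarith)]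
    nlinarith [add_one_le_exp μ, mul_le_mul_of_nonneg_right (add_one_le_exp μ)
      (show 0 ≤ 1 - μ / 2 by linarith)]
  refine ⟨(1 - exp (-μ))⁻¹, ?_, ?_⟩
  · rw [← inv_div, inv_le_inv₀ (by linarith) (by positivity)]; linarith
  · have := hasSum_geometric_of_lt_one (exp_pos (-μ)).le (by linarith)
    rwa [show (fun i : ℕ => exp (-μ) ^ i) = fun i : ℕ => exp (-(μ * i)) from funext fun i => by
      rw [← exp_nat_mul]; congr 1; ring] at this

variable {p lam q μ : ℝ} {n₀ : ℕ}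

theorem mass (hQ : QFStmt) (R : Reg D p lam n₀ q μ) (k : ℕ) :
    QQ D p lam k + ∑ i ∈ range k, Ret D p lam i = 1 := by
  obtain ⟨a, b, -, -⟩ := hQ D p lam (by linarith [R.p0]) R.p1 k
  refine le_antisymm a (ENNReal.le_of_forall_pos_le_add fun ε hε _ => ?_)
  obtain ⟨n, hn⟩ := exists_nat_gt (1 / (ε : ℝ))
  have hε' : (0 : ℝ) < ε := hε
  refine (b (n + n₀ + k ^ 2)).trans (add_le_add le_rfl
    ((R.slab k _ (by omega) (by omega)).trans ?_))
  rw [← ENNReal.ofReal_coe_nnreal]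
  refine ENNReal.ofReal_le_ofReal ?_
  have h1 : 1 ≤ n + n₀ + k ^ 2 := by have := R.n1; omega
  have h2 : n ≤ (n + n₀ + k ^ 2) ^ 8 :=
    (show n ≤ n + n₀ + k ^ 2 by omega).trans (Nat.le_self_pow (by norm_num) _)
  have h3 : (n : ℝ) ≤ ((n + n₀ + k ^ 2 : ℕ) : ℝ) ^ 8 := by exact_mod_cast h2
  rw [one_div_le ((one_div_pos.2 hε').trans (hn.trans_le h3)) hε']
  exact hn.le.trans h3

theorem tail (hQ : QFStmt) (R : Reg D p lam n₀ q μ) : ∃ q' : ℝ, q ≤ q' ∧ q' ≤ 1 ∧ ∀ k : ℕ,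
    q' ≤ (QQ D p lam k).toReal ∧ (QQ D p lam k).toReal - q' ≤ 2 * n₀ / μ * exp (-(μ * k)) := by
  have hT : ∑' i, Ret D p lam i ≠ ∞ := ne_top_of_le_ne_top ENNReal.ofReal_ne_top R.sum
  have hf := ENNReal.ne_top_of_tsum_ne_top hT
  have hr := hs hT rfl
  refine ⟨1 - (∑' i, Ret D p lam i).toReal, ?_, ?_, fun k => ?_⟩
  · have := ENNReal.toReal_le_of_le_ofReal (by linarith [R.q1]) R.sum
    linarith
  · linarith [ENNReal.toReal_nonneg (a := ∑' i, Ret D p lam i)]
  have hm := mass hQ R k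
  have hq : QQ D p lam k ≠ ∞ := ne_top_of_le_ne_top ENNReal.one_ne_top (le_self_add.trans hm.le)
  have h1 := congrArg ENNReal.toReal hm
  rw [ENNReal.toReal_add hq (ENNReal.sum_ne_top.2 fun i _ => hf i),
    ENNReal.toReal_sum fun i _ => hf i, ENNReal.toReal_one] at h1
  have h2 := (hasSum_nat_add_iff' k).2 hr
  obtain ⟨s, hs1, hs2⟩ := geo R.m0 R.m1
  have h3 := hasSum_le (fun i => show (Ret D p lam (i + k)).toReal ≤
    n₀ * exp (-(μ * k)) * exp (-(μ * i)) from by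
      refine ENNReal.toReal_le_of_le_ofReal (by positivity) ((R.ret _).trans_eq ?_)
      rw [mul_assoc, ← exp_add]; congr 3; push_cast; ring) h2 (hs2.mul_left _)
  have h4 := h2.nonneg fun i => ENNReal.toReal_nonneg
  have h5 : n₀ * exp (-(μ * k)) * s ≤ n₀ * exp (-(μ * k)) * (2 / μ) :=
    mul_le_mul_of_nonneg_left hs1 (by positivity)
  refine ⟨by linarith, ?_⟩
  have h6 : n₀ * exp (-(μ * k)) * (2 / μ) = 2 * n₀ / μ * exp (-(μ * k)) := by ring
  linarith

end Ren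

open Ren in
theorem ren (hQ : QFStmt) (hO : ONE2Stmt) (h0 : REN0Stmt) (hA : RENAStmt) : RENStmt := by
  obtain ⟨C, hC, hO⟩ := hO
  refine ⟨2 * C, by linarith, fun D p lam n₀ q μ R => ?_⟩
  obtain ⟨-, o1, o2, o3, o4, o5, o6, o7, o8⟩ := hO D p lam n₀ q μ R
  obtain ⟨q', t1, t2, t3⟩ := tail hQ R
  have p0 : 0 ≤ p := by linarith [R.p0]
  have m0 := R.m0
  have n1 : (1 : ℝ) ≤ n₀ := by exact_mod_cast R.n1
  have e2 : 2 * C * (n₀ : ℝ) ^ 3 / μ ^ 7 = 2 * (C * (n₀ : ℝ) ^ 3 / μ ^ 7) := by ring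
  have a2 : 2 * n₀ / μ * (2 / μ) ≤ C * (n₀ : ℝ) ^ 3 / μ ^ 7 := by
    rw [show 2 * n₀ / μ * (2 / μ) = 4 * n₀ / μ ^ 2 by ring]
    exact div_le_div₀ (by positivity) (mul_le_mul hC (le_self_pow₀ n1 (by norm_num))
      (by positivity) (by linarith)) (by positivity) (pow_le_pow_of_le_one m0.le R.m1 (by norm_num))
  have M1 : 1 ≤ C * (n₀ : ℝ) ^ 3 / μ ^ 7 := by
    rw [le_div_iff₀ (by positivity)]
    nlinarith [one_le_pow₀ (n := 3) n1, pow_le_one₀ (n := 7) m0.le R.m1]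
  rw [e2]
  generalize C * (n₀ : ℝ) ^ 3 / μ ^ 7 = M at *
  have k0 : 0 ≤ kap D p lam := div_nonneg (by linarith) (by linarith)
  have k1 : kap D p lam ≤ M := (div_le_self (by linarith) o6).trans o8
  refine ⟨q', t1, t2, k0, by linarith, fun k => ⟨?_, ?_⟩⟩
  swap
  · rw [abs_of_nonneg (by linarith [(t3 k).1])]; exact (t3 k).2
  have sf : ∑' m, fB D p lam m = 1 := (fib _).symm.trans o1
  have sg : ∑' m, gB D p lam m = AA D p lam := (fib _).symm
  have ff := ENNReal.ne_top_of_tsum_ne_top (sf.trans_ne ENNReal.one_ne_top)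
  have fg := ENNReal.ne_top_of_tsum_ne_top (sg.trans_ne o4)
  have fN := ENNReal.ne_top_of_tsum_ne_top (ne_top_of_le_ne_top ENNReal.ofReal_ne_top o3)
  have fQ : ∀ k, QQ D p lam k ≠ ∞ := fun k =>
    ne_top_of_le_ne_top ENNReal.one_ne_top (le_self_add.trans (mass hQ R k).le)
  have fX : ∀ k, XX D p lam k ≠ ∞ := by
    intro k
    induction k using Nat.strong_induction_on with
    | _ k ih =>
      rw [h0 D p lam p0 R.p1 k]
      refine ENNReal.add_ne_top.2 ⟨fN k, ENNReal.sum_ne_top.2 fun m hm =>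
        ENNReal.add_ne_top.2 ⟨ENNReal.mul_ne_top (fg m) (fQ _), ?_⟩⟩
      rcases Nat.eq_zero_or_pos m with e | e
      · simp [e, fB_zero]
      · exact ENNReal.mul_ne_top (ff m) (ih _ (by have := mem_range.1 hm; omega))
  obtain ⟨s, hs1, hs2⟩ := geo R.m0 R.m1
  have key := hA (fun k => (XX D p lam k).toReal) (fun k => (QQ D p lam k).toReal)
    (fun k => (fB D p lam k).toReal) (fun k => (gB D p lam k).toReal)
    (fun k => (N1 D p lam k).toReal) (AR D p lam) (BR D p lam) (kap D p lam) q' M M M M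
    (fun _ => ENNReal.toReal_nonneg) (fun _ => ENNReal.toReal_nonneg)
    (fun _ => ENNReal.toReal_nonneg) (fun m => (t3 m).1) (by simp [fB_zero])
    (by simpa using hs ENNReal.one_ne_top sf) (by simpa [BR] using hs o5 (sum_mf p lam))
    (hs o4 sg) (div_mul_cancel₀ _ (by linarith)) k0 (by linarith [R.q0]) t2
    (part_le (by linarith) o3)
    (fun n => by
      refine (sum_le_sum fun m _ => (t3 m).2).trans ?_
      rw [← mul_sum]
      exact (mul_le_mul_of_nonneg_left ((sum_le_hasSum _ (fun i _ => (exp_pos _).le) hs2).trans hs1)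
        (by positivity)).trans a2)
    (fun n => by simpa using part_le (by linarith) ((sum_mg p lam).trans o2) n)
    (fun n => by simpa using part_le (by linarith) ((sum_mmf p lam).trans o2) n)
    (fun k => by
      have hb : ∀ m, gB D p lam m * QQ D p lam (k - m) ≠ ∞ ∧
          fB D p lam m * XX D p lam (k - m) ≠ ∞ := fun m =>
        ⟨ENNReal.mul_ne_top (fg m) (fQ _), ENNReal.mul_ne_top (ff m) (fX _)⟩
      rw [h0 D p lam p0 R.p1 k, ENNReal.toReal_add (fN k)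
        (ENNReal.sum_ne_top.2 fun m _ => ENNReal.add_ne_top.2 (hb m)),
        ENNReal.toReal_sum fun m _ => ENNReal.add_ne_top.2 (hb m)]
      congr 1
      refine sum_congr rfl fun m _ => ?_
      rw [ENNReal.toReal_add (hb m).1 (hb m).2, ENNReal.toReal_mul, ENNReal.toReal_mul]) k
  refine key.trans ?_
  nlinarith [mul_le_mul_of_nonneg_right o8 (show 0 ≤ M by linarith),
    mul_le_mul_of_nonneg_right k1 (show 0 ≤ M by linarith)]

end Pool.Agent.MP_8c549f_pr.L2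

end
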