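import Pool.Agent.MP_8c549f_pr.L2.SpecB
import Pool.Agent.MP_8c549f_pr.A7

/-! PROJECT L2: the renewal equation for the mean length of first passages. -/

noncomputable section

namespace Pool.Agent.MP_8c549f_pr.L2

open MeasureTheory Finset Real Classical S3
open scoped ENNReal

namespace Ren0

variable {D : ℕ}

theorem lev_nonneg {l : List (Step D)} (h : Stay l) : 0 ≤ lev l := by
  have := h l.length le_rfl
  rwa [H_length] at this

theorem block_rec {b : List (Step D)} (hb : Block b) : Rec b := by
  obtain ⟨_, ⟨h1, _, h3, h4⟩, _⟩ := hb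
  intro i hi
  rw [H_length] at h3
  rcases Nat.lt_or_ge i (b.length - 1) with h | h
  · have := h4 i h; omega
  · rw [show i = b.length - 1 by omega]; omega

theorem append_mem {b l : List (Step D)} {k : ℕ} (hb : Block b) (hk : lev b ≤ k)
    (hl : l ∈ FPS D (k - (lev b).toNat)) : b ++ l ∈ FPS D k := by
  obtain ⟨h1, h2, h3⟩ := hl
  have h0 := hb.lev_pos
  refine ⟨One.stay_append hb.1 h1, fun i hi => ?_, by rw [lev_append]; omega⟩
  rw [lev_append]
  rcases Nat.lt_or_ge i b.length with h | h
  · have := block_rec hb i h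
    rw [H_append_left l h.le]; omega
  · obtain ⟨j, rfl⟩ := Nat.exists_eq_add_of_le h
    rw [List.length_append] at hi
    have := h2 j (by omega)
    rw [H_append_right]; omega

theorem of_append {b l : List (Step D)} {k : ℕ} (hb : Block b) (hl : Stay l)
    (h : b ++ l ∈ FPS D k) : lev b ≤ k ∧ l ∈ FPS D (k - (lev b).toNat) := by
  obtain ⟨_, h2, h3⟩ := h
  have h0 := hb.lev_pos
  have h1 := lev_nonneg hl
  rw [lev_append] at h3
  refine ⟨by omega, hl, fun j hj => ?_, by omega⟩
  have := h2 (b.length + j) (by rw [List.length_append]; omega)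
  rw [H_append_right, lev_append] at this
  omega

theorem fibre {p : ℝ} (h0 : 0 ≤ p) (h1 : p ≤ 1) (lam : ℝ) (k : ℕ) :
    (SS (FPS D k \ {l | ∀ t, ¬ Cut l t}) fun l => l.length * wb true p lam l) =
      SS {b : List (Step D) | Block b ∧ lev b ≤ k} fun b =>
        QQ D p lam (k - (lev b).toNat) * (b.length * wb true p lam b) +
          XX D p lam (k - (lev b).toNat) * wb true p lam b := by
  rw [SS_fiber _ One.fc]
  refine tsum_congr fun b => ?_
  by_cases hb : b ∈ {b : List (Step D) | Block b ∧ lev b ≤ k}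
  · have e : {l | l ∈ FPS D k \ {l | ∀ t, ¬ Cut l t} ∧ One.fc l = b} =
        (fun t => b ++ t) '' FPS D (k - (lev b).toNat) := by
      ext l
      constructor
      · rintro ⟨⟨hl, hc⟩, hf⟩
        obtain ⟨b', l', hb', hl', rfl⟩ := One.split_cut hl.1 (by simpa using hc)
        rw [One.fc_append hb' hl'] at hf
        subst hf
        exact ⟨l', (of_append hb' hl' hl).2, rfl⟩
      · rintro ⟨l', hl', rfl⟩
        exact ⟨⟨append_mem hb.1 hb.2 hl', fun h => h _ (One.cut_append hb.1 hl'.1)⟩,
          One.fc_append hb.1 hl'.1⟩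
    rw [Set.indicator_of_mem hb, e, SS_image (List.append_right_injective b), mul_comm (QQ ..),
      mul_comm (XX ..), QQ, XX, ← SS_mul_left, ← SS_mul_left, ← SS_add]
    refine SS_congr fun l hl => ?_
    rw [fa D p lam h0 h1 true b l hb.1.2.1 fun i hi => hl.1 i hi.le, List.length_append]
    push_cast
    ring
  · have e : {l | l ∈ FPS D k \ {l | ∀ t, ¬ Cut l t} ∧ One.fc l = b} = ∅ := by
      refine Set.eq_empty_of_forall_notMem ?_
      rintro l ⟨⟨hl, hc⟩, hf⟩
      obtain ⟨b', l', hb', hl', rfl⟩ := One.split_cut hl.1 (by simpa using hc)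
      rw [One.fc_append hb' hl'] at hf
      subst hf
      exact hb ⟨hb', (of_append hb' hl' hl).1⟩
    rw [Set.indicator_of_notMem hb, e, SS_empty]

end Ren0

theorem ren0 : REN0Stmt := by
  intro D p lam h0 h1 k
  rw [XX, SS_split _ {l | ∀ t, ¬ Cut l t}, Ren0.fibre h0 h1,
    SS_fiber {b : List (Step D) | Block b ∧ lev b ≤ k} fun b => (lev b).toNat,
    tsum_eq_sum (s := range (k + 1))]
  · congr 1
    refine sum_congr rfl fun m hm => ?_
    have hm' := mem_range.1 hm
    have e : {l | l ∈ {b : List (Step D) | Block b ∧ lev b ≤ k} ∧ (lev l).toNat = m} =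
        {l : List (Step D) | Block l ∧ lev l = m} := by
      ext l
      constructor
      · rintro ⟨⟨hb, _⟩, h⟩
        have := hb.lev_pos
        exact ⟨hb, by omega⟩
      · rintro ⟨hb, h⟩
        exact ⟨⟨hb, by omega⟩, by omega⟩
    rw [e, mul_comm (gB ..), mul_comm (fB ..), gB, fB, ← SS_mul_left, ← SS_mul_left, ← SS_add]
    refine SS_congr fun l hl => ?_
    rw [show (lev l).toNat = m by have := hl.2; omega]
  · intro m hm
    have e : {l | l ∈ {b : List (Step D) | Block b ∧ lev b ≤ k} ∧ (lev l).toNat = m} = ∅ := by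
      refine Set.eq_empty_of_forall_notMem ?_
      rintro l ⟨⟨_, h⟩, h'⟩
      exact hm (mem_range.2 (by omega))
    rw [e, SS_empty]

end Pool.Agent.MP_8c549f_pr.L2

end
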