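import Pool.Agent.MP_8c549f_pr.L2.SpecB

/-! PROJECT L2, row Rena: the solution of a renewal equation is linear up to a bounded error. -/

noncomputable section

namespace Pool.Agent.MP_8c549f_pr.L2

open MeasureTheory Finset Real Classical S3

namespace Rena

theorem tail_sum (u : ℕ → ℝ) (s : ℝ) (h : HasSum u s) (j : ℕ) :
    HasSum (fun m => if j < m then u m else 0) (s - ∑ m ∈ range (j + 1), u m) := by
  have h1 : HasSum (fun m => if j < m then 0 else u m)
      (∑ m ∈ range (j + 1), if j < m then 0 else u m) := by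
    refine hasSum_sum_of_ne_finset_zero fun m hm => ?_
    rw [Finset.mem_range] at hm
    rw [if_pos (by omega)]
  have h2 : (∑ m ∈ range (j + 1), if j < m then 0 else u m) = ∑ m ∈ range (j + 1), u m := by
    refine Finset.sum_congr rfl fun m hm => ?_
    rw [Finset.mem_range] at hm
    rw [if_neg (by omega)]
  rw [h2] at h1
  have h3 := h.sub h1
  have h4 : (fun m => u m - if j < m then 0 else u m) = fun m => if j < m then u m else 0 := by
    funext m
    split_ifs <;> simp
  rwa [h4] at h3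

theorem tail_nonneg (u : ℕ → ℝ) (s : ℝ) (h : HasSum u s) (j : ℕ) (hu : ∀ m, j < m → 0 ≤ u m) :
    0 ≤ s - ∑ m ∈ range (j + 1), u m := by
  refine (tail_sum u s h j).nonneg fun m => ?_
  split_ifs with hm
  · exact hu m hm
  · exact le_rfl

theorem tails_le (u : ℕ → ℕ → ℝ) (s v : ℕ → ℝ) (a : ℝ) (h : ∀ j, HasSum (u j) (s j))
    (hv : ∀ m, 0 ≤ v m) (huv : ∀ j m, j < m → u j m ≤ v m)
    (ha : ∀ N, ∑ m ∈ range N, m * v m ≤ a) (n : ℕ) :
    ∑ j ∈ range n, (s j - ∑ m ∈ range (j + 1), u j m) ≤ a := by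
  have h1 := hasSum_sum (s := range n) fun j _ => tail_sum (u j) (s j) (h j) j
  refine le_of_tendsto' h1.tendsto_sum_nat fun N => le_trans ?_ (ha N)
  refine Finset.sum_le_sum fun m _ => ?_
  calc ∑ j ∈ range n, (if j < m then u j m else 0)
      ≤ ∑ j ∈ range n, (if j < m then v m else 0) := by
        refine Finset.sum_le_sum fun j _ => ?_
        split_ifs with hj
        · exact huv j m hj
        · exact le_rfl
    _ = ∑ _j ∈ (range n).filter (fun j => j < m), v m := by rw [Finset.sum_filter]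
    _ ≤ ∑ _j ∈ range m, v m := by
        refine Finset.sum_le_sum_of_subset_of_nonneg (fun j hj => ?_) fun _ _ _ => hv m
        exact Finset.mem_range.2 (Finset.mem_filter.1 hj).2
    _ = m * v m := by simp

theorem conv_le (g r : ℕ → ℝ) (A a : ℝ) (hg : ∀ m, 0 ≤ g m) (hA : HasSum g A)
    (ha : ∀ n, ∑ m ∈ range n, r m ≤ a) (n : ℕ) :
    ∑ j ∈ range n, ∑ m ∈ range (j + 1), g m * r (j - m) ≤ A * a := by
  have h0 : 0 ≤ a := by simpa using ha 0
  rw [Finset.sum_range_diag_flip n fun m k => g m * r k]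
  calc ∑ m ∈ range n, ∑ k ∈ range (n - m), g m * r k ≤ ∑ m ∈ range n, g m * a := by
        refine Finset.sum_le_sum fun m _ => ?_
        rw [← Finset.mul_sum]
        exact mul_le_mul_of_nonneg_left (ha _) (hg m)
    _ = (∑ m ∈ range n, g m) * a := by rw [Finset.sum_mul]
    _ ≤ A * a := mul_le_mul_of_nonneg_right (sum_le_hasSum _ (fun m _ => hg m) hA) h0

theorem ind_le (d w f : ℕ → ℝ) (hf : ∀ m, 0 ≤ f m) (hf0 : f 0 = 0) (hs : HasSum f 1)
    (hw : ∀ k, 0 ≤ w k)
    (h : ∀ k, |d k - ∑ m ∈ range (k + 1), f m * d (k - m)| ≤ w k) (k : ℕ) :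
    |d k| ≤ ∑ j ∈ range (k + 1), w j := by
  induction k using Nat.strong_induction_on with
  | _ k ih =>
    have hV : 0 ≤ ∑ j ∈ range k, w j := Finset.sum_nonneg fun j _ => hw j
    have h1 : |∑ m ∈ range (k + 1), f m * d (k - m)| ≤ ∑ j ∈ range k, w j := by
      calc |∑ m ∈ range (k + 1), f m * d (k - m)| ≤ ∑ m ∈ range (k + 1), |f m * d (k - m)| :=
            Finset.abs_sum_le_sum_abs _ _
        _ ≤ ∑ m ∈ range (k + 1), f m * ∑ j ∈ range k, w j := by
            refine Finset.sum_le_sum fun m hm => ?_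
            rw [Finset.mem_range] at hm
            rcases Nat.eq_zero_or_pos m with h0 | h0
            · subst h0
              simp [hf0]
            · rw [abs_mul, abs_of_nonneg (hf m)]
              refine mul_le_mul_of_nonneg_left ((ih (k - m) (by omega)).trans ?_) (hf m)
              refine Finset.sum_le_sum_of_subset_of_nonneg ?_ fun j _ _ => hw j
              exact Finset.range_subset_range.2 (by omega)
        _ = (∑ m ∈ range (k + 1), f m) * ∑ j ∈ range k, w j := by rw [Finset.sum_mul]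
        _ ≤ 1 * ∑ j ∈ range k, w j :=
            mul_le_mul_of_nonneg_right (sum_le_hasSum _ (fun m _ => hf m) hs) hV
        _ = ∑ j ∈ range k, w j := one_mul _
    rw [Finset.sum_range_succ]
    have h2 := h k
    rw [abs_le] at h1 h2 ⊢
    constructor <;> linarith [h1.1, h1.2, h2.1, h2.2]

end Rena

theorem rena : RENAStmt := by
  intro X Q f g e A B κ q a₁ a₂ a₃ a₄ hf hg he hQ hf0 hsf hsB hsg hκB hκ hq0 hq1 h1 h2 h3 h4 hX k
  have hsu : ∀ j : ℕ, HasSum (fun m : ℕ => ((m : ℝ) - j) * f m) (B - j) := by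
    intro j
    have h := hsB.sub (hsf.mul_left (j : ℝ))
    have e1 : (fun m : ℕ => (m : ℝ) * f m - j * f m) = fun m : ℕ => ((m : ℝ) - j) * f m := by
      funext m
      ring
    rwa [e1, mul_one] at h
  set c : ℕ → ℝ := fun j => ∑ m ∈ range (j + 1), g m * (Q (j - m) - q) with hc
  set tg : ℕ → ℝ := fun j => A - ∑ m ∈ range (j + 1), g m with htg
  set t : ℕ → ℝ := fun j => (B - j) - ∑ m ∈ range (j + 1), ((m : ℝ) - j) * f m with ht
  have c0 : ∀ j, 0 ≤ c j := fun j =>
    Finset.sum_nonneg fun m _ => mul_nonneg (hg m) (sub_nonneg.2 (hQ _))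
  have tg0 : ∀ j, 0 ≤ tg j := fun j => Rena.tail_nonneg g A hsg j fun m _ => hg m
  have t0 : ∀ j, 0 ≤ t j := fun j => Rena.tail_nonneg _ _ (hsu j) j fun m hm =>
    mul_nonneg (sub_nonneg.2 (by exact_mod_cast hm.le)) (hf m)
  have hz : ∀ j : ℕ, (X j - κ * q * j) -
      ∑ m ∈ range (j + 1), f m * (X (j - m) - κ * q * ((j - m : ℕ) : ℝ)) =
      e j + c j - q * tg j + κ * q * t j := by
    intro j
    have e1 : ∑ m ∈ range (j + 1), f m * (X (j - m) - κ * q * ((j - m : ℕ) : ℝ)) =
        ∑ m ∈ range (j + 1), f m * X (j - m) +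
          κ * q * ∑ m ∈ range (j + 1), ((m : ℝ) - j) * f m := by
      rw [Finset.mul_sum, ← Finset.sum_add_distrib]
      refine Finset.sum_congr rfl fun m hm => ?_
      rw [Finset.mem_range] at hm
      rw [Nat.cast_sub (by omega)]
      ring
    have e2 : c j = ∑ m ∈ range (j + 1), g m * Q (j - m) - q * ∑ m ∈ range (j + 1), g m := by
      rw [hc, Finset.mul_sum, ← Finset.sum_sub_distrib]
      exact Finset.sum_congr rfl fun m _ => by ring
    have e3 := hX j
    rw [Finset.sum_add_distrib] at e3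
    rw [e1, e2, e3]
    simp only [htg, ht]
    rw [← hκB]
    ring
  have hd := Rena.ind_le (fun j : ℕ => X j - κ * q * j)
    (fun j => e j + c j + tg j + κ * t j) f hf hf0 hsf
    (fun j => by have := he j; have := c0 j; have := tg0 j; have := t0 j; positivity)
    (fun j => by
      rw [hz j, abs_le]
      have b1 := he j
      have b2 := c0 j
      have b3 := tg0 j
      have b4 := mul_nonneg hκ (t0 j)
      have b5 := mul_nonneg hq0 b3
      have b6 := mul_nonneg hq0 b4
      have b7 := mul_nonneg (sub_nonneg.2 hq1) b3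
      have b8 := mul_nonneg (sub_nonneg.2 hq1) b4
      constructor <;> nlinarith) k
  refine hd.trans ?_
  have s2 : ∑ j ∈ range (k + 1), c j ≤ A * a₂ :=
    Rena.conv_le g (fun m => Q m - q) A a₂ hg hsg h2 (k + 1)
  have s3 : ∑ j ∈ range (k + 1), tg j ≤ a₃ :=
    Rena.tails_le (fun _ => g) (fun _ => A) g a₃ (fun _ => hsg) hg (fun _ _ _ => le_rfl) h3 (k + 1)
  have s4 : ∑ j ∈ range (k + 1), t j ≤ a₄ := by
    refine Rena.tails_le (fun j m : ℕ => ((m : ℝ) - j) * f m) (fun j => B - j)
      (fun m => m * f m) a₄ hsu (fun m => mul_nonneg (Nat.cast_nonneg m) (hf m))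
      (fun j m _ => ?_) (fun N => le_trans (le_of_eq ?_) (h4 N)) (k + 1)
    · exact mul_le_mul_of_nonneg_right (sub_le_self _ (Nat.cast_nonneg j)) (hf m)
    · exact Finset.sum_congr rfl fun m _ => by ring
  simp only [Finset.sum_add_distrib, ← Finset.mul_sum]
  have s5 := mul_le_mul_of_nonneg_left s4 hκ
  linarith [h1 (k + 1)]

end Pool.Agent.MP_8c549f_pr.L2

end
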