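import Pool.Agent.MP_8c549f_pr.L2.Basic

/-! PROJECT L2, row Rep: the first wide site on the ray. -/

noncomputable section

namespace Pool.Agent.MP_8c549f_pr.L2

open MeasureTheory Finset Real Classical S3

namespace Rep

variable {D : ℕ}

/-- the first wide site on the ray, if there is one within distance `h` -/
def rp (ω : Cfg D) (h : ℕ) (y : V D) : V D :=
  if H : ∃ r, r ≤ h ∧ Wide ω (ray y r) h then ray y (Nat.find H) else y

theorem ray_zero (y : V D) : ray y 0 = y := by simp [ray]

theorem ray_succ (y : V D) (k : ℕ) : ray y (k + 1) = ray y k + vec ((Fin.last D, true) : Step D) := by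
  rw [vec_true, ray, ray, add_assoc, ← Pi.single_add]
  push_cast
  rfl

theorem ray_lev (hD : 1 ≤ D) (y : V D) (r : ℕ) : ray y r 0 = y 0 := by
  have h : (0 : Fin (D + 1)) ≠ Fin.last D := by
    intro e
    have := congrArg Fin.val e
    simp only [Fin.val_zero, Fin.val_last] at this
    omega
  simp [ray, Pi.single_eq_of_ne h]

theorem wide_of_big {ω : Cfg D} {v : V D} {h : ℕ} (H : Big ω v (2 * h)) : Wide ω v h := by
  obtain ⟨c, h1, h2⟩ := H
  exact ⟨c, v, h1, Conn.refl _ _, by omega⟩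

theorem upTo (hU : UPStmt) (hD : 1 ≤ D) {ω : Cfg D} {v : V D} {t : ℕ} (ht : 2 ≤ t) (hb : Big ω v t)
    (n : ℕ) (hg : ∀ t', t ≤ t' → t' ≤ t + n → Gd ω v (17 * t') t') : Big ω v (t + n) := by
  induction n with
  | zero => exact hb
  | succ n ih =>
    exact hU D hD ω v (t + n) (by omega) (hg _ (by omega) (by omega))
      (ih fun t' h1 h2 => hg t' h1 (by omega))

theorem sum_abs_vec (s : Step D) : ∑ j, |vec s j| = 1 := by
  obtain ⟨i, g⟩ := s
  have e : ∀ j, |vec ((i, g) : Step D) j| = if j = i then 1 else 0 := fun j => by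
    by_cases hj : j = i
    · subst hj
      cases g <;> simp
    · cases g <;> simp [hj]
  simp [e]

theorem ch_one {ω : Cfg D} {v : V D} (h : badS ω v) : Ch ω v 1 := by
  obtain ⟨s, hs⟩ := h
  refine ⟨⟨s, hs⟩, v + vec s, by simp, Relation.ReflTransGen.single ⟨?_, rev s, ?_⟩⟩
  · have := sum_abs_vec s
    simp only [Pi.add_apply, add_sub_cancel_left]
    omega
  · rwa [edge_rev]

theorem open_of_gd {ω : Cfg D} {z v : V D} {R : ℕ} (h : Gd ω z R 1) (hv : nrm (v - z) ≤ R)
    (s : Step D) : ω (edge v s) = true := by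
  by_contra hn
  exact h v hv (ch_one ⟨s, by simpa using hn⟩)

theorem conn_ray {ω : Cfg D} {z : V D} {R : ℕ} (h : Gd ω z R 1) (k : ℕ) (hk : k ≤ R) :
    Conn ω z (ray z k) := by
  induction k with
  | zero => rw [ray_zero]; exact Conn.refl _ _
  | succ k ih =>
    rw [ray_succ]
    exact (ih (by omega)).trans (Conn.step (open_of_gd h (by rw [nrm_ray]; omega) _))

end Rep

open Rep in
theorem repS (hE : LEStmt) (hU : UPStmt) : REPStmt := by
  intro D hD ω h hh
  refine ⟨rp ω h, fun z => ?_, fun z => ?_, fun z hz => ?_, fun z y t ht hth hy hg => ?_,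
    fun z hg => ?_⟩
  · unfold rp
    split_ifs
    · exact ray_lev hD _ _
    · rfl
  · unfold rp
    split_ifs with H
    · rw [nrm_ray]
      exact (Nat.find_spec H).1
    · simp
  · have H : ∃ r, r ≤ h ∧ Wide ω (ray z r) h := ⟨0, Nat.zero_le _, by rwa [ray_zero]⟩
    have h0 : Nat.find H = 0 :=
      Nat.le_zero.1 (Nat.find_min' H ⟨Nat.zero_le _, by rwa [ray_zero]⟩)
    rw [rp, dif_pos H, h0, ray_zero]
  · obtain ⟨r, hr, hb⟩ := hE D hD ω y t ((hg t le_rfl (by omega)).mono (by omega))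
    have hn : nrm (ray y r - z) ≤ t + 1 := by
      have := nrm_tri (ray y r) y z
      rw [nrm_ray] at this
      omega
    have hb2 := upTo hU hD ht hb (2 * h - t) fun t' h1 h2 =>
      (hg t' h1 (by omega)).mono (by omega)
    rw [show t + (2 * h - t) = 2 * h by omega] at hb2
    have hw := wide_of_big hb2
    have H : ∃ r, r ≤ h ∧ Wide ω (ray y r) h := ⟨r, by omega, hw⟩
    rw [rp, dif_pos H]
    exact ⟨(Nat.find_spec H).2, Nat.find H, (Nat.find_min' H ⟨by omega, hw⟩).trans hr, rfl⟩
  · have h1 : Gd ω z 20 1 := hg 1 le_rfl (by omega)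
    refine ⟨?_, fun s => open_of_gd h1 (by simp) s⟩
    have hb : Big ω z 2 := ⟨ray z 12, conn_ray h1 12 (by omega), by rw [nrm_ray]⟩
    have hb2 := upTo hU hD le_rfl hb (2 * h - 2) fun t' h1 h2 =>
      (hg t' (by omega) (by omega)).mono (by rw [sub_self, nrm_zero]; omega)
    rw [show 2 + (2 * h - 2) = 2 * h by omega] at hb2
    exact wide_of_big hb2

end Pool.Agent.MP_8c549f_pr.L2

end
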