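import Pool.Agent.MP_8c549f_pr.L2.SpecB
import Pool.Agent.MP_8c549f_pr.A7
import Pool.Agent.MP_8c549f_pr.S3.Speed

/-! PROJECT L2: returns below the start after reaching the level `i`. -/

noncomputable section

namespace Pool.Agent.MP_8c549f_pr.L2

open MeasureTheory Finset Real Classical S3
open scoped ENNReal

namespace Ret0

variable {D : ℕ}

theorem antich (i : ℕ) : Antich (RetSet D i) := by
  rintro u hu l hl ⟨t, rfl⟩
  by_contra hne
  have ht : t ≠ [] := fun h => hne (by simp [h])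
  have h1 := (hl.2.1 u.length (by simpa using List.length_pos_iff.2 ht)).1
  rw [H_append_left t le_rfl, H_of_le le_rfl, hu.1] at h1
  omega

theorem fibre (lam : ℝ) (ω : Cfg D) (y z : V D) (k : ℕ) (T : Finset (List (Step D)))
    (hT : ∀ t ∈ T, t.length = k ∧ y + pos t = z) :
    ∑ t ∈ T, wr lam ω y t ≤ pf lam ω k y z := by
  rw [pf, Speed.Qx_eq]
  calc ∑ t ∈ T, wr lam ω y t
      = ∑ t ∈ T, (W lam ω y t).toReal * S3.ind (y + pos t = z) :=
        sum_congr rfl fun t ht => by rw [ind_pos (hT t ht).2, mul_one, wr_eq_W]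
    _ ≤ _ := sum_le_sum_of_subset_of_nonneg (fun t ht => Speed.mem_lists.2 (hT t ht).1)
        fun t _ _ => mul_nonneg ENNReal.toReal_nonneg (by unfold S3.ind; split_ifs <;> norm_num)

theorem down (hP : PkStmt) {lam : ℝ} (h0 : 0 ≤ lam) (h1 : lam ≤ 1) (ω : Cfg D) (y : V D)
    (i n : ℕ) : SS {t : List (Step D) | t.length ≤ n ∧ lev t = -(i + 1 : ℤ)} (W lam ω y) ≤
      ENNReal.ofReal (20 * (D + 1) * (n + 1) * (2 * n + 1) ^ (D + 1) * exp (-(2 * lam * i))) := by
  set T : Finset (List (Step D)) :=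
    (List.finite_length_le (Step D) n).toFinset.filter fun t => lev t = -(i + 1 : ℤ) with hT
  have hm : ∀ t, t ∈ T ↔ t.length ≤ n ∧ lev t = -(i + 1 : ℤ) := fun t => by simp [hT]
  have e : {t : List (Step D) | t.length ≤ n ∧ lev t = -(i + 1 : ℤ)} = (T : Set (List (Step D))) :=
    Set.ext fun t => (hm t).symm
  rw [e, SS_coe]
  simp only [W_eq_wr]
  rw [← ENNReal.ofReal_sum_of_nonneg fun l _ => wr_nonneg l y]
  refine ENNReal.ofReal_le_ofReal ?_
  have hmap : ∀ t ∈ T, (t.length, y + pos t) ∈ range (n + 1) ×ˢ ball y n := fun t ht => by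
    have h := ((hm t).1 ht).1
    refine mem_product.2 ⟨mem_range.2 (Nat.lt_succ_of_le h), mem_ball.2 ?_⟩
    rw [add_sub_cancel_left]
    exact (nrm_pos_le t).trans h
  rw [← sum_fiberwise_of_maps_to hmap]
  have hc : (0 : ℝ) ≤ 20 * (D + 1) * exp (-(2 * lam * i)) := by positivity
  refine (sum_le_card_nsmul _ _ (20 * (D + 1) * exp (-(2 * lam * i))) fun q _ => ?_).trans ?_
  · rcases (T.filter fun t => (t.length, y + pos t) = q).eq_empty_or_nonempty with h | ⟨t, ht⟩
    · rw [h, sum_empty]; exact hc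
    · obtain ⟨ht1, ht2⟩ := mem_filter.1 ht
      refine (fibre lam ω y q.2 q.1 _ fun u hu => ?_).trans
        (((hP D lam ω).2.2.2.2.2.2 h0 h1 _ _ _).trans ?_)
      · have := (mem_filter.1 hu).2
        exact ⟨congrArg Prod.fst this, congrArg Prod.snd this⟩
      · have e1 : q.2 0 = y 0 + -(i + 1 : ℤ) := by
          rw [← ht2, ← ((hm t).1 ht1).2]; rfl
        refine mul_le_mul_of_nonneg_left (exp_le_exp.2 ?_) (by positivity)
        rw [e1]
        push_cast
        nlinarith
  · rw [card_product, card_range, card_ball, nsmul_eq_mul]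
    push_cast
    exact le_of_eq (by ring)

theorem short (hP : PkStmt) {lam : ℝ} (h0 : 0 ≤ lam) (h1 : lam ≤ 1) (ω : Cfg D) (i n : ℕ) :
    SS (RetSet D i \ {l | n < l.length}) (W lam ω 0) ≤
      ENNReal.ofReal (20 * (D + 1) * (n + 1) * (2 * n + 1) ^ (D + 1) * exp (-(2 * lam * i))) := by
  refine (LatM.cover_fac (P := {l | Rec l ∧ lev l = (i : ℤ)}) _ (fun l hl => ?_) fun u hu => ?_).trans
    ((mul_le_mul_right (kraft lam ω (antich_rec i) 0) _).trans (mul_one _).le)
  · obtain ⟨k, hk, hki⟩ := hl.1.2.2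
    obtain ⟨t, htk, ht, hlt⟩ := exists_first_hit (H l) (fun j => (H_step l j).2) (c := i)
      (by simp) (n := k) hki.ge
    have hlen : (l.take t).length = t := by rw [List.length_take]; omega
    refine ⟨l.take t, ⟨fun j hj => ?_, by rw [lev_take, ht]⟩, ⟨l.drop t, List.take_append_drop t l⟩⟩
    rw [hlen] at hj
    rw [H_take l hj.le, lev_take, ht]
    exact hlt j hj
  · simp only [W_append]
    rw [SS_mul_left, mul_comm]
    refine mul_le_mul_left (le_trans (SS_mono (fun t ht => ?_) fun _ _ => le_rfl)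
      (down hP h0 h1 ω (0 + pos u) i n)) _
    have a1 : (u ++ t).length ≤ n := not_lt.1 ht.2
    have a2 := ht.1.1
    rw [lev_append, hu.2] at a2
    rw [List.length_append] at a1
    exact ⟨by omega, by omega⟩

end Ret0

theorem ret0 (hP : PkStmt) : RET0Stmt := by
  intro D p lam i n p0 p1 h0 h1
  have := perc_prob D p0 p1
  rw [Ret, SS_split _ {l | n < l.length}]
  refine add_le_add ?_ ?_
  · refine cover_wb true p lam ((Ret0.antich i).mono Set.inter_subset_left) fun l hl => ?_
    have hn : n < l.length := hl.2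
    refine ⟨l.take n, ⟨by rw [List.length_take]; omega, fun k hk => ?_⟩,
      ⟨l.drop n, List.take_append_drop n l⟩⟩
    rw [H_take l hk]
    exact hl.1.2.1 k (by omega)
  · rw [SS_wb]
    exact (lintegral_mono fun ω => Ret0.short hP h0 h1 _ i n).trans (by simp)

end Pool.Agent.MP_8c549f_pr.L2

end
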