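import Pool.Agent.MP_8c549f_pr.L2.SpecB

/-! PROJECT L2: exponential bound on the returns below the starting level. -/

noncomputable section

namespace Pool.Agent.MP_8c549f_pr.L2

open MeasureTheory Finset Real Classical S3
open scoped ENNReal

namespace Ret1

theorem antich_ret (D i : ℕ) : Antich (RetSet D i) := by
  rintro u ⟨hu, _⟩ l ⟨_, hl, _⟩ ⟨t, rfl⟩
  by_contra hne
  have ht : t ≠ [] := fun h => hne (by simp [h])
  have h1 := (hl u.length (by simpa using List.length_pos_iff.2 ht)).1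
  rw [H_append_left t le_rfl, H_of_le le_rfl] at h1
  omega

theorem sq_le_exp {u c x : ℝ} (hu : 0 ≤ u) (hc : 0 ≤ c) (hx : 3 * c ≤ x) (h : x ^ 8 ≤ exp u) :
    (u * (c * x)) ^ 2 ≤ exp u := by
  have hx0 : 0 ≤ x := by linarith
  have e1 : exp u = exp (u / 2) ^ 2 := by
    rw [← Real.exp_nat_mul]; congr 1; push_cast; ring
  have h1 : x ^ 4 ≤ exp (u / 2) := by
    refine (pow_le_pow_iff_left₀ (by positivity) (exp_pos _).le two_ne_zero).1 ?_
    rw [← e1, ← pow_mul]; exact h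
  have h2 : (u / 2) ^ 2 / 2 ≤ exp (u / 2) := by
    have := Real.quadratic_le_exp_of_nonneg (x := u / 2) (by linarith)
    nlinarith
  have h3 : 8 * c ^ 2 ≤ x ^ 2 := by nlinarith
  have h4 : (u * (c * x)) ^ 2 ≤ x ^ 4 * ((u / 2) ^ 2 / 2) := by
    have : 0 ≤ u ^ 2 * x ^ 2 * (x ^ 2 - 8 * c ^ 2) := by
      apply mul_nonneg (by positivity); linarith
    nlinarith
  calc (u * (c * x)) ^ 2 ≤ x ^ 4 * ((u / 2) ^ 2 / 2) := h4
    _ ≤ exp (u / 2) * exp (u / 2) := by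
        apply mul_le_mul h1 h2 (by positivity) (exp_pos _).le
    _ = exp u := by rw [e1]; ring

theorem second {D : ℕ} {u n v : ℝ} (hu : 0 ≤ u) (hn0 : 0 ≤ n) (hn : n ≤ exp u + 1)
    (hv : 2 * (D + 2) * u ≤ v) :
    (n + 1) * (2 * n + 1) ^ (D + 1) * exp (-v) ≤ 5 ^ (D + 2) * exp (-u) := by
  have h1 : 1 ≤ exp u := Real.one_le_exp hu
  have a1 : n + 1 ≤ 5 * exp u := by linarith
  have a2 : (2 * n + 1) ^ (D + 1) ≤ (5 * exp u) ^ (D + 1) :=
    pow_le_pow_left₀ (by linarith) (by linarith) _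
  have a3 : (n + 1) * (2 * n + 1) ^ (D + 1) ≤ (5 * exp u) ^ (D + 2) := by
    rw [pow_succ' (5 * exp u) (D + 1)]
    exact mul_le_mul a1 a2 (by positivity) (by positivity)
  have a4 : exp u ^ (D + 2) * exp (-v) ≤ exp (-u) := by
    rw [← Real.exp_nat_mul, ← Real.exp_add]
    apply Real.exp_le_exp.2
    push_cast
    have : (0 : ℝ) ≤ D * u := mul_nonneg (Nat.cast_nonneg D) hu
    nlinarith
  calc (n + 1) * (2 * n + 1) ^ (D + 1) * exp (-v) ≤ (5 * exp u) ^ (D + 2) * exp (-v) :=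
        mul_le_mul_of_nonneg_right a3 (exp_pos _).le
    _ = 5 ^ (D + 2) * (exp u ^ (D + 2) * exp (-v)) := by rw [mul_pow]; ring
    _ ≤ 5 ^ (D + 2) * exp (-u) := mul_le_mul_of_nonneg_left a4 (by positivity)

end Ret1

theorem ret1 (hS : SLABStmt) (h0 : RET0Stmt) : RET1Stmt := by
  intro D hD
  obtain ⟨e₀, l₁, he, hS⟩ := hS D hD
  refine ⟨e₀, l₁ + 3 * (D + 2) + (1 + 20 * (D + 1) * 5 ^ (D + 2)), he, ?_⟩
  intro p lam l i hp hp1 hp0 hl hlam hlam1
  have hl1 : l₁ ≤ l := by omega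
  have hl2 : 3 * ((D : ℝ) + 2) ≤ l := by
    have : 3 * (D + 2) ≤ l := by omega
    exact_mod_cast this
  have hl3 : 1 + 20 * ((D : ℝ) + 1) * 5 ^ (D + 2) ≤ l := by
    have : 1 + 20 * (D + 1) * 5 ^ (D + 2) ≤ l := by omega
    exact_mod_cast this
  have hD0 : (0 : ℝ) ≤ D := Nat.cast_nonneg D
  have hl0 : (1 : ℝ) ≤ l := by linarith
  have hlam0 : 0 ≤ lam := le_trans (by positivity) hlam
  obtain ⟨u, hu⟩ : ∃ u : ℝ, u = i / ((D + 2) * (l : ℝ)) := ⟨_, rfl⟩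
  rw [← hu]
  have hu0 : 0 ≤ u := by rw [hu]; positivity
  have hi : (i : ℝ) = u * ((D + 2) * (l : ℝ)) := by
    rw [hu]; field_simp
  by_cases hc : exp u ≤ (l : ℝ) ^ 8
  · refine (kraft_wb true hp0 hp1 lam (Ret1.antich_ret D i)).trans ?_
    rw [ENNReal.one_le_ofReal, Real.exp_neg, ← div_eq_mul_inv, one_le_div (exp_pos u)]
    exact hc
  · have hc' : (l : ℝ) ^ 8 ≤ exp u := (not_le.1 hc).le
    obtain ⟨n, hn⟩ : ∃ n : ℕ, n = ⌈exp u⌉₊ := ⟨_, rfl⟩
    have hn1 : exp u ≤ n := by rw [hn]; exact Nat.le_ceil _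
    have hn2 : (n : ℝ) ≤ exp u + 1 := by rw [hn]; exact (Nat.ceil_lt_add_one (exp_pos u).le).le
    have h8 : l ^ 8 ≤ n := by
      have : (l : ℝ) ^ 8 ≤ n := hc'.trans hn1
      exact_mod_cast this
    have h2 : i ^ 2 ≤ n := by
      have : (i : ℝ) ^ 2 ≤ n := by
        rw [hi]
        exact (Ret1.sq_le_exp hu0 (by linarith) hl2 hc').trans hn1
      exact_mod_cast this
    have hA := (hS p lam l i n hp hp1 hp0 hl1 hlam hlam1 h8 h2).2
    have hB := h0 D p lam i n hp0 hp1 hlam0 hlam1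
    have e1 : 1 ≤ exp u := Real.one_le_exp hu0
    have hn0 : (1 : ℝ) ≤ n := e1.trans hn1
    have b1 : 1 / (n : ℝ) ^ 8 ≤ exp (-u) := by
      rw [Real.exp_neg, ← one_div]
      apply one_div_le_one_div_of_le (exp_pos u)
      exact hn1.trans (le_self_pow₀ hn0 (by norm_num))
    have hv : 2 * ((D : ℝ) + 2) * u ≤ 2 * lam * i := by
      have t1 : 1 ≤ lam * l := by
        rwa [div_le_iff₀ (by linarith)] at hlam
      have t2 : 0 ≤ 2 * ((D : ℝ) + 2) * u := by positivity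
      rw [hi]
      nlinarith
    have b2 := Ret1.second (D := D) hu0 (by linarith : (0 : ℝ) ≤ n) hn2 hv
    have b3 : 20 * ((D : ℝ) + 1) * (n + 1) * (2 * n + 1) ^ (D + 1) * exp (-(2 * lam * i)) ≤
        20 * (D + 1) * 5 ^ (D + 2) * exp (-u) := by
      have := mul_le_mul_of_nonneg_left b2 (by positivity : (0 : ℝ) ≤ 20 * ((D : ℝ) + 1))
      calc _ = 20 * ((D : ℝ) + 1) * ((n + 1) * (2 * n + 1) ^ (D + 1) * exp (-(2 * lam * i))) := by
            ring
        _ ≤ _ := this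
        _ = _ := by ring
    refine hB.trans ((add_le_add hA le_rfl).trans ?_)
    rw [← ENNReal.ofReal_add (by positivity) (by positivity)]
    apply ENNReal.ofReal_le_ofReal
    have b4 : (l : ℝ) ≤ (l : ℝ) ^ 8 := le_self_pow₀ hl0 (by norm_num)
    have b5 : (1 + 20 * ((D : ℝ) + 1) * 5 ^ (D + 2)) * exp (-u) ≤ (l : ℝ) ^ 8 * exp (-u) :=
      mul_le_mul_of_nonneg_right (hl3.trans b4) (exp_pos _).le
    linarith

end Pool.Agent.MP_8c549f_pr.L2
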