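import Pool.Agent.MP_8c549f_pr.L2.SpecB

/-! PROJECT L2, row Rg: the regeneration estimates with polynomial constants, collected. -/

noncomputable section

namespace Pool.Agent.MP_8c549f_pr.L2

open MeasureTheory Finset Real Classical S3
open scoped ENNReal

theorem rg (hS : SLABStmt) (hR : RET1Stmt) (hQ : Q0Stmt) (hH : HTStmt) : RGStmt := by
  intro D hD
  obtain ⟨e₁, l₁, he₁, h1⟩ := hS D hD
  obtain ⟨e₂, l₂, he₂, h2⟩ := hR D hD
  obtain ⟨e₃, K₀, l₃, he₃, h3⟩ := hQ D hD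
  obtain ⟨C, hC, h4⟩ := hH D hD
  refine ⟨min (min e₁ e₂) (min e₃ (1 / 2)), K₀ + 11,
    l₁ + l₂ + l₃ + ⌈C * ((D : ℝ) + 2) ^ 2⌉₊ + 1, by positivity, by omega, ?_⟩
  intro p lam l hp hp1 hl hlam hlam1
  have hpa : 1 - e₁ ≤ p := by
    have := (min_le_left (min e₁ e₂) (min e₃ (1 / 2))).trans (min_le_left e₁ e₂); linarith
  have hpb : 1 - e₂ ≤ p := by
    have := (min_le_left (min e₁ e₂) (min e₃ (1 / 2))).trans (min_le_right e₁ e₂); linarith
  have hpc : 1 - e₃ ≤ p := by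
    have := (min_le_right (min e₁ e₂) (min e₃ (1 / 2))).trans (min_le_left e₃ (1 / 2)); linarith
  have hpd : 1 / 2 ≤ p := by
    have := (min_le_right (min e₁ e₂) (min e₃ (1 / 2))).trans (min_le_right e₃ (1 / 2)); linarith
  have hp0 : 0 ≤ p := by linarith
  have hl1 : 1 ≤ l := by omega
  have ht1 : (1 : ℝ) ≤ l := by exact_mod_cast hl1
  have ht0 : (0 : ℝ) < l := by linarith
  have hD0 : (0 : ℝ) ≤ D := Nat.cast_nonneg D
  have hCt : C * ((D : ℝ) + 2) ^ 2 ≤ l := by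
    have a1 : ⌈C * ((D : ℝ) + 2) ^ 2⌉₊ ≤ l := by omega
    exact (Nat.le_ceil _).trans (by exact_mod_cast a1)
  have hDt : (D : ℝ) + 2 ≤ l := by
    have a1 : (D : ℝ) + 2 ≤ ((D : ℝ) + 2) ^ 2 := by nlinarith
    have a2 : ((D : ℝ) + 2) ^ 2 ≤ C * ((D : ℝ) + 2) ^ 2 :=
      le_mul_of_one_le_left (by positivity) hC
    linarith
  have hlam0 : 0 ≤ lam := le_trans (by positivity) hlam
  have hK1 : (1 : ℝ) ≤ (l : ℝ) ^ (K₀ + 11) := one_le_pow₀ ht1
  have hK0 : (1 : ℝ) ≤ (l : ℝ) ^ K₀ := one_le_pow₀ ht1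
  have hret : ∀ i : ℕ, Ret D p lam i ≤
      ENNReal.ofReal ((l : ℝ) ^ 8 * exp (-(1 / (((D : ℝ) + 2) * l) * i))) := by
    intro i
    have := h2 p lam l i hpb hp1 hp0 (by omega) hlam hlam1
    rwa [show (i : ℝ) / (((D : ℝ) + 2) * l) = 1 / (((D : ℝ) + 2) * l) * i by ring] at this
  have hsum := h3 p lam l hpc hp1 hp0 (by omega) hlam hlam1
  have hmu : 1 / (l : ℝ) ^ (K₀ + 11) ≤ 1 / (((D : ℝ) + 2) * l) := by
    apply one_div_le_one_div_of_le (by positivity)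
    calc ((D : ℝ) + 2) * l ≤ l * l := by gcongr
      _ = (l : ℝ) ^ 2 := by ring
      _ ≤ (l : ℝ) ^ (K₀ + 11) := pow_le_pow_right₀ ht1 (by omega)
  refine ⟨hpd, hp1, hlam0, Nat.one_le_pow _ _ hl1, by positivity, ?_, by positivity, ?_,
    ?_, ?_, ?_, ?_⟩
  · exact (div_le_one (by positivity)).2 hK1
  · exact (div_le_one (by positivity)).2 hK1
  · intro m n hn hm
    exact (h1 p lam l m n hpa hp1 hp0 (by omega) hlam hlam1
      ((Nat.pow_le_pow_right hl1 (by omega)).trans hn) hm).2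
  · intro i
    refine (hret i).trans (ENNReal.ofReal_le_ofReal ?_)
    have hi : (0 : ℝ) ≤ i := Nat.cast_nonneg i
    push_cast
    apply mul_le_mul (pow_le_pow_right₀ ht1 (by omega)) _ (exp_pos _).le (by positivity)
    exact exp_le_exp.2 (neg_le_neg (mul_le_mul_of_nonneg_right hmu hi))
  · refine hsum.trans (ENNReal.ofReal_le_ofReal ?_)
    have : 1 / (l : ℝ) ^ (K₀ + 11) ≤ 1 / (l : ℝ) ^ K₀ :=
      one_div_le_one_div_of_le (by positivity) (pow_le_pow_right₀ ht1 (by omega))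
    linarith
  · intro m
    have hm1 : 1 / (((D : ℝ) + 2) * l) ≤ 1 := by
      apply (div_le_one (by positivity)).2
      nlinarith
    refine (h4 p lam ((l : ℝ) ^ 8) (1 / (l : ℝ) ^ K₀) (1 / (((D : ℝ) + 2) * l)) hpd hp1 hlam0
      hlam1 (one_le_pow₀ ht1) (by positivity) ((div_le_one (by positivity)).2 hK0)
      (by positivity) hm1 hret hsum m).trans (ENNReal.ofReal_le_ofReal ?_)
    have hm : (0 : ℝ) ≤ m := Nat.cast_nonneg m
    refine exp_le_exp.2 (neg_le_neg (mul_le_mul_of_nonneg_right ?_ hm))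
    have hC0 : 0 < C := by linarith
    have e : 1 / (l : ℝ) ^ K₀ * (1 / (((D : ℝ) + 2) * l)) ^ 2 / (C * (l : ℝ) ^ 8) =
        1 / (C * ((D : ℝ) + 2) ^ 2 * (l : ℝ) ^ (K₀ + 10)) := by
      field_simp
      ring
    rw [e]
    apply one_div_le_one_div_of_le (by positivity)
    calc C * ((D : ℝ) + 2) ^ 2 * (l : ℝ) ^ (K₀ + 10) ≤ l * (l : ℝ) ^ (K₀ + 10) := by gcongr
      _ = (l : ℝ) ^ (K₀ + 11) := by ring

end Pool.Agent.MP_8c549f_pr.L2

end
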