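import Pool.Agent.MP_8c549f_pr.L2.Basic

/-! PROJECT L2, row Seg1: few sites of a segment see a long chain. -/

noncomputable section

namespace Pool.Agent.MP_8c549f_pr.L2

open MeasureTheory Finset Real Classical S3

namespace Seg1

variable {D : ℕ}

theorem gd_local {ω ω' : Cfg D} {y : V D} {R h : ℕ}
    (H : ∀ e ∈ (near (ball y (R + h + 1)) : Set (Edge D)), ω e = ω' e) (hg : Gd ω' y R h) :
    Gd ω y R h := fun v hv hc => hg v hv (Ch_local (fun x hx s => H _ (mem_coe.2 (mem_near.2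
      ⟨x, mem_ball.2 (by have := nrm_tri x v y; omega), s, rfl⟩))) hc)

theorem dep_gd (y : V D) (R h : ℕ) :
    Dep (fun ω : Cfg D => ¬ Gd ω y R h) (near (ball y (R + h + 1)) : Set (Edge D)) :=
  fun _ _ H => propext (not_congr ⟨gd_local fun e he => (H e he).symm, gd_local H⟩)

theorem nrm_of_near {y : V D} {R : ℕ} {e : Edge D} (h : e ∈ near (ball y R)) :
    nrm (e.1 - y) ≤ R + 1 := by
  rcases mem_near'.1 h with h | h
  · exact (mem_ball.1 h).trans (Nat.le_succ _)
  · have h1 := mem_ball.1 h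
    have h2 := nrm_tri e.1 (e.1 + Pi.single e.2 1) y
    have h3 : nrm (e.1 - (e.1 + Pi.single e.2 1)) = 1 := by
      rw [nrm_sub_comm, add_sub_cancel_left, nrm_single]; rfl
    omega

theorem disj {y y' : V D} {R : ℕ} (h : 2 * R + 2 < nrm (y - y')) :
    Disjoint (near (ball y R)) (near (ball y' R)) := by
  refine disjoint_left.2 fun e h1 h2 => ?_
  have a1 := nrm_of_near h1
  have a2 := nrm_of_near h2
  have a3 := nrm_tri y e.1 y'
  rw [nrm_sub_comm y e.1] at a3
  omega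

theorem prob_le {p q : ℝ} (h0 : 0 ≤ p) (h1 : p ≤ 1) {h : ℕ}
    (H : ∀ v : V D, (perc D p).real {ω | Ch ω v h} ≤ q) (y : V D) (R : ℕ) :
    (perc D p).real {ω | ¬ Gd ω y R h} ≤ (2 * R + 1) ^ (D + 1) * q := by
  have e : {ω : Cfg D | ¬ Gd ω y R h} = {ω | ∃ v ∈ ball y R, Ch ω v h} := by
    ext ω
    simp [Gd, mem_ball]
  have := real_exists_le h0 h1 (ball y R) (fun v ω => Ch ω v h) fun v _ => H v
  rw [card_ball] at this
  rw [e]
  exact_mod_cast this

theorem far {M k k' : ℕ} (h : k % M = k' % M) (hne : k ≠ k') : M ≤ ((k : ℤ) - k').natAbs := by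
  have hd : (M : ℤ) ∣ (k : ℤ) - k' := (Nat.modEq_iff_dvd.1 (Eq.symm h : k' ≡ k [MOD M]))
  have := Int.natAbs_le_of_dvd_ne_zero hd (by omega)
  simpa using this

theorem pigeon {M m : ℕ} (hM : 0 < M) (f : ℕ → ℝ) {a : ℝ} (h : a ≤ ∑ k ∈ range m, f k) :
    ∃ j ∈ range M, a / M ≤ ∑ k ∈ (range m).filter (fun k => k % M = j), f k := by
  have hM' : (0 : ℝ) < M := by exact_mod_cast hM
  refine exists_le_of_sum_le (nonempty_range_iff.2 hM.ne') ?_
  rw [sum_fiberwise_of_maps_to fun k _ => mem_range.2 (Nat.mod_lt k hM), sum_const, card_range,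
    nsmul_eq_mul, mul_div_cancel₀ _ hM'.ne']
  exact h

theorem cls (hC : CHERStmt) {p q : ℝ} (h0 : 0 ≤ p) (h1 : p ≤ 1) (y : ℕ → V D) (R t : ℕ)
    (H : ∀ v : V D, (perc D p).real {ω | Ch ω v t} ≤ q) (I : Finset ℕ)
    (hI : ∀ k ∈ I, ∀ k' ∈ I, k ≠ k' → 2 * (R + t + 1) + 2 < nrm (y k - y k')) (a : ℝ) :
    (perc D p).real {ω | a ≤ ∑ k ∈ I, S3.ind (¬ Gd ω (y k) R t)} ≤
      exp ((2 * R + 1) ^ (D + 1) * q * I.card - a / 2) :=
  hC D p h0 h1 I (fun k ω => ¬ Gd ω (y k) R t) (fun k => near (ball (y k) (R + t + 1))) _ a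
    (fun k _ => dep_gd (y k) R t) (fun k hk k' hk' hne => disj (hI k hk k' hk' hne))
    fun k _ => prob_le h0 h1 H (y k) R

theorem gen (hC : CHERStmt) {p q : ℝ} (h0 : 0 ≤ p) (h1 : p ≤ 1) (hq : 0 ≤ q) (y : ℕ → V D)
    (R t M m : ℕ) (hM : 0 < M) (H : ∀ v : V D, (perc D p).real {ω | Ch ω v t} ≤ q)
    (hy : ∀ k k', k % M = k' % M → k ≠ k' → 2 * (R + t + 1) + 2 < nrm (y k - y k')) (a : ℝ) :
    (perc D p).real {ω | a ≤ ∑ k ∈ range m, S3.ind (¬ Gd ω (y k) R t)} ≤
      M * exp ((2 * R + 1) ^ (D + 1) * q * m - a / M / 2) := by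
  have := perc_prob D h0 h1
  have key := real_exists_le h0 h1 (range M)
    (fun j ω => a / M ≤ ∑ k ∈ (range m).filter (fun k => k % M = j), S3.ind (¬ Gd ω (y k) R t))
    (c := exp ((2 * R + 1) ^ (D + 1) * q * m - a / M / 2)) fun j _ => by
      refine (cls hC h0 h1 y R t H ((range m).filter fun k => k % M = j) (fun k hk k' hk' =>
        hy k k' ((mem_filter.1 hk).2.trans (mem_filter.1 hk').2.symm)) (a / M)).trans
        (exp_le_exp.2 ?_)
      have h2 : (((range m).filter fun k => k % M = j).card : ℝ) ≤ m := by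
        exact_mod_cast (card_filter_le _ _).trans_eq (card_range m)
      exact sub_le_sub_right (mul_le_mul_of_nonneg_left h2 (by positivity)) _
  rw [card_range] at key
  exact (measureReal_mono (fun ω hω => pigeon hM _ hω) (measure_ne_top _ _)).trans key

end Seg1

theorem seg1 (hC : CHERStmt) : SEG1Stmt := by
  intro D p h0 h1 z i m t q a ht hq H
  have ht' : (0 : ℝ) < t := by exact_mod_cast ht
  have key := Seg1.gen hC h0 h1 hq (fun k => z + Pi.single i (k : ℤ)) (20 * t) t (50 * t) m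
    (by omega) H (fun k k' h hne => by
      have h2 := Seg1.far h hne
      rw [add_sub_add_left_eq_sub, ← Pi.single_sub, nrm_single]
      omega) a
  have h3 : a / (50 * t : ℕ) / 2 = a / (100 * t) := by
    push_cast
    field_simp
    ring
  have h4 : (2 * (20 * t : ℕ) + 1 : ℝ) = 40 * t + 1 := by
    push_cast
    ring
  rw [h3, h4] at key
  refine key.trans_eq ?_
  push_cast
  rfl

end Pool.Agent.MP_8c549f_pr.L2

end
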