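import Pool.Agent.MP_8c549f_pr.L2.SpecB

/-! PROJECT L2, row Slab. -/

noncomputable section

namespace Pool.Agent.MP_8c549f_pr.L2

open MeasureTheory Finset Real Classical S3
open scoped ENNReal

namespace SlabS

variable {D : ℕ}

theorem op_closed {ω : Cfg D} {e : Edge D} (h : op ω e = false) : ω e = false := by
  unfold op at h
  split_ifs at h
  unfold plus at h
  by_cases c : e = edge 0 (bck D)
  · rw [c, Function.update_self] at h; cases h
  · rwa [Function.update_of_ne c] at h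

theorem gd_op {ω : Cfg D} {y : V D} {R h : ℕ} (hG : Gd ω y R h) : Gd (op ω) y R h := by
  have hb : ∀ v, badS (op ω) v → badS ω v := fun v ⟨s, hs⟩ => ⟨s, op_closed hs⟩
  rintro v hv ⟨h1, c, h2, h3⟩
  refine hG v hv ⟨hb v h1, c, h2, ?_⟩
  clear h2
  induction h3 with
  | refl => exact Relation.ReflTransGen.refl
  | tail _ hab ih => exact ih.tail ⟨hab.1, hb _ hab.2⟩

theorem op_edge (ω : Cfg D) {x : V D} (hx : 0 ≤ x 0) (s : Step D) :
    plus ω (edge x s) = op ω (edge x s) := by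
  unfold op
  rw [if_neg]
  unfold edge
  by_cases c : s.2 = true
  · rw [if_pos c]; simp only; omega
  · rw [if_neg c]
    by_cases c0 : s.1 = 0
    · simp only [c0, Pi.sub_apply, Pi.single_eq_same, ne_eq, not_true_eq_false, and_false, or_false]
      omega
    · have : (Pi.single s.1 1 : V D) 0 = 0 := Pi.single_eq_of_ne (fun e => c0 e.symm) _
      simp only [Pi.sub_apply, this]
      omega

theorem bad_le {p : ℝ} (h0 : 0 ≤ p) (h1 : p ≤ 1) {n : ℕ} (hn : 5 ≤ n)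
    (hP : ∀ v : V D, (perc D p).real {ω | Ch ω v (hh n)} ≤ 1 / (n : ℝ) ^ (2 * (D + 1) + 9)) :
    (perc D p).real {ω | ¬ Gd ω 0 (2 * n) (hh n)} ≤ 1 / (n : ℝ) ^ 9 := by
  have := perc_prob D h0 h1
  have hs : {ω : Cfg D | ¬ Gd ω 0 (2 * n) (hh n)} ⊆
      ⋃ v ∈ S3.ball (0 : V D) (2 * n), {ω | Ch ω v (hh n)} := by
    intro ω hω
    simp only [Gd, Set.mem_ofPred_eq, not_forall, not_not] at hω
    obtain ⟨v, hv, hc⟩ := hω
    exact Set.mem_biUnion (mem_coe.2 (S3.mem_ball.2 hv)) hc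
  have hn' : (5 : ℝ) ≤ n := by exact_mod_cast hn
  have hc : ((S3.ball (0 : V D) (2 * n)).card : ℝ) ≤ (n : ℝ) ^ (2 * (D + 1)) := by
    rw [S3.card_ball, pow_mul]
    push_cast
    exact pow_le_pow_left₀ (by positivity) (by nlinarith) _
  calc _ ≤ _ := measureReal_mono hs (measure_ne_top _ _)
    _ ≤ _ := measureReal_biUnion_finset_le _ _
    _ ≤ ∑ _v ∈ S3.ball (0 : V D) (2 * n), 1 / (n : ℝ) ^ (2 * (D + 1) + 9) :=
        sum_le_sum fun v _ => hP v
    _ = ((S3.ball (0 : V D) (2 * n)).card : ℝ) * (1 / (n : ℝ) ^ (2 * (D + 1) + 9)) := by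
        rw [sum_const, nsmul_eq_mul]
    _ ≤ (n : ℝ) ^ (2 * (D + 1)) * (1 / (n : ℝ) ^ (2 * (D + 1) + 9)) :=
        mul_le_mul_of_nonneg_right hc (by positivity)
    _ = 1 / (n : ℝ) ^ 9 := by rw [pow_add]; field_simp

end SlabS

open SlabS in
theorem slabS (hP : PeiLStmt) (hQ : QSStmt) (hN : NICEFStmt) : SLABStmt := by
  intro D hD
  obtain ⟨e₀, he, hP⟩ := hP D (2 * (D + 1) + 9)
  obtain ⟨l₀, hQ⟩ := hQ D hD
  refine ⟨e₀, max l₀ 2, he, fun p lam l m n hp h1 h0 hl hlo hhi hn hm => ?_⟩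
  have l2 : 2 ≤ l := le_trans (le_max_right _ _) hl
  have n5 : 5 ≤ n := le_trans (le_trans (by norm_num) (Nat.pow_le_pow_left l2 8)) hn
  have hb := bad_le h0 h1 n5 fun v => hP p hp h1 h0 v n (by omega)
  refine ⟨hb, ?_⟩
  have := perc_prob D h0 h1
  have n5' : (5 : ℝ) ≤ n := by exact_mod_cast n5
  set A : Set (List (Step D)) := {l | l.length = n ∧ ∀ k ≤ n, 0 ≤ H l k ∧ H l k ≤ m} with hA
  set S : Set (Cfg D) := {ω | ¬ Gd ω 0 (2 * n) (hh n)} with hS
  have hpt : ∀ ω, SS A (W lam (cfg true ω) 0) ≤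
      ENNReal.ofReal (1 / (n : ℝ) ^ 9) + S.indicator 1 ω := by
    intro ω
    by_cases c : ω ∈ S
    · rw [Set.indicator_of_mem c]
      refine le_trans (kraft lam _ (fun u hu v hv huv => ?_) 0) le_add_self
      exact huv.eq_of_length (hu.1.trans hv.1.symm)
    · have hG : Gd ω 0 (2 * n) (hh n) := not_not.1 c
      refine le_trans ?_ le_self_add
      refine le_trans ?_
        (hQ l m n lam (op ω) (le_trans (le_max_left _ _) hl) hlo hhi hn hm (gd_op hG)
          ((hN D 0 0 (hh n) 0).2.2.2.2.2 ω).2)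
      refine SS_mono (fun u hu => ⟨hu.1, fun k hk => (hu.2 k hk).2⟩) fun u hu => ?_
      refine (W_congr lam u 0 fun i hi s => ?_).le
      have h2 : 0 ≤ ((0 : V D) + loc u i) 0 := by
        rw [zero_add]; exact (hu.2 i (by have := hu.1; omega)).1
      exact op_edge ω h2 s
  have hμ : perc D p S ≤ ENNReal.ofReal (1 / (n : ℝ) ^ 9) := by
    rw [← ofReal_measureReal (measure_ne_top _ _)]
    exact ENNReal.ofReal_le_ofReal hb
  calc Sl D p lam m n = ∫⁻ ω, SS A (W lam (cfg true ω) 0) ∂perc D p := SS_wb _ _ _ _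
    _ ≤ ∫⁻ ω, (ENNReal.ofReal (1 / (n : ℝ) ^ 9) + S.indicator 1 ω) ∂perc D p := lintegral_mono hpt
    _ = ENNReal.ofReal (1 / (n : ℝ) ^ 9) + ∫⁻ ω, S.indicator 1 ω ∂perc D p := by
        rw [lintegral_add_left measurable_const, lintegral_const, measure_univ, mul_one]
    _ ≤ ENNReal.ofReal (1 / (n : ℝ) ^ 9) + ENNReal.ofReal (1 / (n : ℝ) ^ 9) :=
        add_le_add le_rfl ((lintegral_indicator_one_le S).trans hμ)
    _ = ENNReal.ofReal (1 / (n : ℝ) ^ 9 + 1 / (n : ℝ) ^ 9) :=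
        (ENNReal.ofReal_add (by positivity) (by positivity)).symm
    _ ≤ _ := by
        refine ENNReal.ofReal_le_ofReal ?_
        rw [← add_div, div_le_div_iff₀ (by positivity) (by positivity)]
        have h8 : (0 : ℝ) < (n : ℝ) ^ 8 := by positivity
        have h9 : (n : ℝ) ^ 9 = n * (n : ℝ) ^ 8 := by ring
        rw [h9]; nlinarith

end Pool.Agent.MP_8c549f_pr.L2

end
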