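import Pool.Agent.MP_8c549f_pr.L2.Defs

/-! PROJECT L2: statements of the quenched part (tools, geometry, analysis, legs). -/

noncomputable section

namespace Pool.Agent.MP_8c549f_pr.L2

open MeasureTheory Finset Real Classical S3
open scoped ENNReal

/-! ### tools -/

/-- summation by parts, self-adjointness, stability of the energy -/
def IDStmt : Prop := ∀ (D : ℕ) (lam : ℝ) (ω : Cfg D) (Q : Finset (V D)),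
  (∀ φ u : V D → ℝ, Sup φ Q → 2 * ∑ x ∈ Q, pim lam ω x * φ x * (u x - Pf lam ω u x) =
    ∑ x ∈ Q, ∑ s, cnd lam ω x s * ((φ (x + vec s) - φ x) * (u (x + vec s) - u x))) ∧
  (∀ φ u : V D → ℝ, Sup φ Q →
    ∑ x ∈ Q, pim lam ω x * φ x * Pf lam ω u x = ∑ x ∈ Q, pim lam ω x * u x * Pf lam ω φ x) ∧
  (∀ g : V D → ℝ, Sup g Q → ∀ Q', En lam ω Q' g ≤ En lam ω Q g) ∧
  (∀ F : V D → V D → ℝ, (∀ x s, F x (x + vec s) ≠ 0 → x ∈ Q ∧ x + vec s ∈ Q) →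
    ∑ x ∈ Q, ∑ s, cnd lam ω x s * F x (x + vec s) = ∑ x ∈ Q, ∑ s, cnd lam ω x s * F (x + vec s) x)

def EN2Stmt : Prop := ∀ (D : ℕ) (lam ξ : ℝ) (ω : Cfg D) (Q : Finset (V D)) (x : V D) (u : V D → ℝ),
  0 ≤ ξ → ξ ≤ 1 → Sup u Q →
  En lam ω Q (fun y => et ξ x y * u y) ≤
    2 * ∑ y ∈ Q, pim lam ω y * (et ξ x y ^ 2 * u y) * (u y - Pf lam ω u y) +
      4 * ξ ^ 2 * ∑ y ∈ Q, pim lam ω y * (et ξ x y * u y) ^ 2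

/-- sums over legs are Green sums -/
def DICTStmt : Prop := ∀ (D : ℕ) (lam : ℝ) (ω : Cfg D) (L N : ℕ) (U : Set (V D)) (F : ℕ → ℝ)
  (f : V D → ℝ), (∀ y ∈ U, y 0 < (L : ℤ)) →
  ∑ l ∈ (Lg D L N).filter (fun l => ∀ i < l.length, loc l i ∈ U),
      wr lam ω 0 l * (F l.length * f (pos l)) =
    ∑ k ∈ range (N + 1), F k * Pk lam ω U k (Set.indicator {y | y 0 = (L : ℤ)} f) 0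

/-! ### geometry -/

def UPStmt : Prop := ∀ (D : ℕ), 1 ≤ D → ∀ (ω : Cfg D) (z : V D) (t : ℕ), 2 ≤ t →
  Gd ω z (17 * t) t → Big ω z t → Big ω z (t + 1)

/-- the first wide site on the ray -/
def REPStmt : Prop := ∀ (D : ℕ), 1 ≤ D → ∀ (ω : Cfg D) (h : ℕ), 2 ≤ h → ∃ rep : V D → V D,
  (∀ z, rep z 0 = z 0) ∧ (∀ z, nrm (rep z - z) ≤ h) ∧ (∀ z, Wide ω z h → rep z = z) ∧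
  (∀ (z y : V D) (t : ℕ), 2 ≤ t → t ≤ h → nrm (y - z) ≤ 1 →
    (∀ t', t ≤ t' → t' ≤ 2 * h → Gd ω z (20 * t') t') → 
    Wide ω (rep y) h ∧ ∃ r ≤ t, rep y = ray y r) ∧
  ∀ z, (∀ t', 1 ≤ t' → t' ≤ 2 * h → Gd ω z (20 * t') t') →
    Wide ω z h ∧ ∀ s, ω (edge z s) = true

def GEOStmt : Prop := ∀ (D : ℕ), 1 ≤ D → ∃ A : ℕ, 2 ≤ A ∧ ∀ (ω : Cfg D) (R m h : ℕ) (δ : ℝ),
  2 ≤ h → h ≤ m → 0 ≤ δ → δ ≤ 1 / 4 → Nice A m h δ R ω → ∃ rep w, Geo ω R m h δ rep w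

/-- exponential bound for events that depend on disjoint sets of edges -/
def CHERStmt : Prop := ∀ (D : ℕ) (p : ℝ), 0 ≤ p → p ≤ 1 → ∀ (I : Finset ℕ) (E : ℕ → Cfg D → Prop)
  (S : ℕ → Finset (Edge D)) (q a : ℝ), (∀ k ∈ I, Dep (E k) (S k : Set (Edge D))) →
  (∀ k ∈ I, ∀ k' ∈ I, k ≠ k' → Disjoint (S k) (S k')) →
  (∀ k ∈ I, (perc D p).real {ω | E k ω} ≤ q) →
  (perc D p).real {ω | a ≤ ∑ k ∈ I, S3.ind (E k ω)} ≤ exp (q * I.card - a / 2)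

/-- few sites of a segment see a long chain -/
def SEG1Stmt : Prop := ∀ (D : ℕ) (p : ℝ), 0 ≤ p → p ≤ 1 → ∀ (z : V D) (i : Fin (D + 1)) (m t : ℕ)
  (q a : ℝ), 1 ≤ t → 0 ≤ q → (∀ v : V D, (perc D p).real {ω | Ch ω v t} ≤ q) →
  (perc D p).real {ω | a ≤ ∑ k ∈ range m, S3.ind (¬ Gd ω (z + Pi.single i (k : ℤ)) (20 * t) t)} ≤
    50 * t * exp ((40 * t + 1) ^ (D + 1) * q * m - a / (100 * t))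

def NICEPStmt : Prop := ∀ (D A K : ℕ) (δ : ℝ), 2 ≤ A → 0 < δ → ∃ (e₀ : ℝ) (l₀ : ℕ), 0 < e₀ ∧
  ∀ (p : ℝ) (l : ℕ), 1 - e₀ ≤ p → p ≤ 1 → 0 ≤ p → l₀ ≤ l →
    2 ≤ hA A l ∧ hA A l ≤ mm l ∧ mm l ^ 8 ≤ l ∧
    (perc D p).real {ω | ¬ Nice A (mm l) (hA A l) δ (l ^ K) ω} ≤ 1 / (l : ℝ) ^ K

def NICEFStmt : Prop := ∀ (D A m h : ℕ) (δ : ℝ),
  (∀ R, MeasurableSet {ω : Cfg D | Nice A m h δ R ω}) ∧ MeasurableSet {ω : Cfg D | Wide ω 0 h} ∧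
  (∀ R R' (y : V D) (ω : Cfg D), R' + nrm y ≤ R → Nice A m h δ R ω → Nice A m h δ R' (shift y ω)) ∧
  (∀ R (ω ω' : Cfg D), (∀ e, ω e = true → ω' e = true) → Nice A m h δ R ω → Nice A m h δ R ω') ∧
  (∀ (y : V D) (ω : Cfg D), Wide ω y h → Wide (shift y ω) 0 h) ∧
  ∀ ω : Cfg D, Wide (ovw (Past D) (allOpen D) ω) 0 h ∧ Wide (op ω) 0 h

/-! ### functional inequalities -/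

def CNTStmt : Prop := ∀ (D m : ℕ) (δ : ℝ) (w : V D → ℝ), 1 ≤ m → 0 ≤ δ → (∀ z, 1 ≤ w z) →
  Seg w m δ →
  (∀ (z : V D) (i : Fin (D + 1)) (r : ℕ), m ≤ r →
    ∑ k ∈ range r, (w (z + Pi.single i (k : ℤ)) - 1) ≤ 2 * δ * r) ∧
  ∀ (a : V D) (r : Fin (D + 1) → ℕ), m ≤ r 0 →
    ∑ z ∈ box a r, (w z - 1) ≤ 2 * δ * (box a r).card

def PLStmt : Prop := ∀ (D m ρ : ℕ) (δ : ℝ) (w g : V D → ℝ) (a : V D) (r : Fin (D + 1) → ℕ),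
  1 ≤ m → 0 ≤ δ → δ ≤ 1 → (∀ z, 1 ≤ w z) → Seg w m δ → (∀ j, m ≤ r j ∧ r j ≤ ρ) →
  ∑ z ∈ box a r, ∑ y ∈ box a r, (g z - g y) ^ 2 ≤ 4 * (D + 1) * (ρ : ℝ) ^ 2 * (box a r).card *
    ∑ z ∈ box a r, ∑ i, (g (z + Pi.single i 1) - g z) ^ 2 / w z

def THStmt : Prop := ∀ D : ℕ, ∃ C : ℝ, 1 ≤ C ∧ ∀ (ξ : ℝ) (x : V D) (T : Finset (V D)),
  0 < ξ → ξ ≤ 1 → ∑ z ∈ T, et ξ x z ≤ C / ξ ^ (D + 1) ∧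
  ∀ (m : ℕ) (δ : ℝ) (w : V D → ℝ), 1 ≤ m → 0 ≤ δ → ξ * m ≤ 1 → (∀ z, 1 ≤ w z) → Seg w m δ →
    ∑ z ∈ T, et ξ x z * (w z - 1) ≤ C * δ / ξ ^ (D + 1)

def NSStmt : Prop := ∀ D : ℕ, ∃ C : ℝ, 1 ≤ C ∧ ∀ (ω : Cfg D) (R m h : ℕ) (δ : ℝ) rep w,
  Geo ω R m h δ rep w → ∀ (lam : ℝ) (x : V D) (r r₁ : ℕ) (g : V D → ℝ) (Q : Finset (V D)),
  0 ≤ lam → lam ≤ 1 → lam * r₁ ≤ 4 → m ≤ r → r ≤ r₁ → nrm x + 2 * r₁ ≤ R →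
  (∀ y, g y ≠ 0 → y ∈ wb' ω h x r₁) → Sup g Q →
  ∑ y ∈ Q, pim lam ω y * g y ^ 2 ≤ C * (r : ℝ) ^ 2 * En lam ω Q g +
    C * (∑ y ∈ Q, pim lam ω y * |g y|) ^ 2 / ((r : ℝ) ^ (D + 1) * exp (2 * lam * (x 0 : ℝ)))

def HDStmt : Prop := ∀ D : ℕ, ∃ K : ℝ, 1 ≤ K ∧ ∀ (ω : Cfg D) (R m h : ℕ) (δ : ℝ) rep w,
  Geo ω R m h δ rep w → ∀ (lam : ℝ) (g : V D → ℝ) (Q : Finset (V D)), 0 < lam → lam * m ≤ 1 →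
  (∀ y, g y ≠ 0 → nrm y + h + 1 ≤ R) → Sup g Q →
  (∀ T : Finset (V D), ∑ z ∈ T, ∑ i, exp (2 * lam * (z 0 : ℝ)) *
    (g (rep (z + Pi.single i 1)) - g (rep z)) ^ 2 / w z ≤ K * En lam ω Q g) ∧
  (∀ T : Finset (V D),
    ∑ z ∈ T, exp (2 * lam * (z 0 : ℝ)) * g (rep z) ^ 2 ≤ K / lam ^ 2 * En lam ω Q g) ∧
  ((∀ y, g y ≠ 0 → Wide ω y h) → ∑ y ∈ Q, pim lam ω y * g y ^ 2 ≤ K / lam ^ 2 * En lam ω Q g)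

/-! ### heat kernel, exit times, mean value inequality -/

def SPGStmt : Prop := ∀ (D : ℕ) (lam : ℝ) (ω : Cfg D) (A Q : Finset (V D)) (α κ : ℝ),
  1 ≤ α → 0 ≤ κ → (∀ x ∈ A, x ∈ Q ∧ ∀ s, x + vec s ∈ Q) →
  (∀ g : V D → ℝ, (∀ x, 0 ≤ g x) → (∀ x, g x ≠ 0 → x ∈ A) → ∑ x ∈ Q, pim lam ω x * g x ≤ 2 →
    ∑ x ∈ Q, pim lam ω x * g x ^ 2 ≤ α * En lam ω Q g + κ) →
  ∀ f : V D → ℝ, (∀ x, 0 ≤ f x) → (∀ x, f x ≠ 0 → x ∈ A) → ∑ x ∈ Q, pim lam ω x * f x ≤ 1 →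
  ∀ n : ℕ, ∑ x ∈ Q, pim lam ω x * Pk lam ω A n f x ≤ 1 ∧
    ∑ x ∈ Q, pim lam ω x * Pk lam ω A n f x ^ 2 ≤
      κ + exp (-(n / (4 * α))) * ∑ x ∈ Q, pim lam ω x * f x ^ 2

def HK0Stmt : Prop := ∀ D : ℕ, ∃ (C : ℝ) (J : ℕ), 1 ≤ C ∧ 1 ≤ J ∧
  ∀ (ω : Cfg D) (R m h : ℕ) (δ : ℝ) rep w, Geo ω R m h δ rep w →
  ∀ (lam : ℝ) (x : V D) (r r₁ n : ℕ), 0 ≤ lam → lam ≤ 1 → lam * r₁ ≤ 4 → m ≤ r → r ≤ r₁ →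
  nrm x + 2 * r₁ ≤ R → Wide ω x h → J * (m ^ 3 + 2 * r ^ 2) ≤ n →
  ∑ y ∈ ball x (r₁ + 1), pim lam ω y *
      Pk lam ω (wb' ω h x r₁) n (Pi.single x (pim lam ω x)⁻¹) y ^ 2 ≤
    C / ((r : ℝ) ^ (D + 1) * exp (2 * lam * (x 0 : ℝ)))

def HKStmt : Prop := ∀ D : ℕ, ∃ (C : ℝ) (J : ℕ), 1 ≤ C ∧ 1 ≤ J ∧
  ∀ (ω : Cfg D) (R m h : ℕ) (δ : ℝ) rep w, Geo ω R m h δ rep w →
  ∀ (lam : ℝ) (x : V D) (r r₁ n : ℕ) (u : V D → ℝ), 0 ≤ lam → lam ≤ 1 → lam * r₁ ≤ 4 → m ≤ r →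
  r ≤ r₁ → nrm x + 2 * r₁ ≤ R → Wide ω x h → J * (m ^ 3 + 2 * r ^ 2) ≤ n →
  Pk lam ω (ball x r₁) n ((ball x r₁ : Set (V D)).indicator u) x ≤
    C * √((∑ y ∈ wb' ω h x r₁, max (u y) 0 ^ 2) / (r : ℝ) ^ (D + 1))

def AGMStmt : Prop := ∀ (D : ℕ) (lam : ℝ) (ω : Cfg D) (x : V D) (r n k : ℕ), 2 ≤ n → 1 ≤ r →
  1 ≤ k → ∑ y ∈ ball x ((r + 1) / 2), pim lam ω y * exq lam ω x r n y ^ 2 ≤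
    16 * (k.factorial : ℝ) ^ 2 * (32 * n / (r : ℝ) ^ 2) ^ k * ∑ y ∈ ball x (r + 1), pim lam ω y

def EXStmt : Prop := ∀ D : ℕ, ∃ (C : ℝ) (M : ℕ), 1 ≤ C ∧ 1 ≤ M ∧
  ∀ (ω : Cfg D) (R m h : ℕ) (δ : ℝ) rep w, Geo ω R m h δ rep w →
  ∀ (lam : ℝ) (x : V D) (r n : ℕ), 0 ≤ lam → lam ≤ 1 → lam * r ≤ 4 → nrm x + 2 * r ≤ R →
  Wide ω x h → 1 ≤ r → M * m ^ 9 * n ≤ r ^ 4 → exq lam ω x r n x ≤ C * n / (r : ℝ) ^ 2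

def MVStmt : Prop := ∀ D : ℕ, ∃ (C : ℝ) (M : ℕ), 1 ≤ C ∧ 1 ≤ M ∧
  ∀ (ω : Cfg D) (R m h : ℕ) (δ : ℝ) rep w, Geo ω R m h δ rep w →
  ∀ (lam : ℝ) (x : V D) (r : ℕ) (u : V D → ℝ) (F S : ℝ), 0 ≤ lam → lam ≤ 1 → lam * r ≤ 4 →
  nrm x + 2 * r ≤ R → Wide ω x h → M * m ^ 5 ≤ r → 0 ≤ F → 0 ≤ S →
  (∀ y ∈ wb' ω h x r, u y - Pf lam ω u y ≤ F) → (∀ y ∈ wb' ω h x (r + 1), u y ≤ S) →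
  u x ≤ (r : ℝ) ^ 2 * F + S / 8 + C * √((∑ y ∈ wb' ω h x r, max (u y) 0 ^ 2) / (r : ℝ) ^ (D + 1))

/-! ### Green function bounds -/

def Lip {D : ℕ} (ψ : V D → ℝ) (c : ℝ) : Prop := ∀ y z, |ψ y - ψ z| ≤ c * nrm (y - z)

def GBStmt : Prop := ∀ D : ℕ, ∃ (ξ C : ℝ) (l₀ : ℕ), 0 < ξ ∧ ξ ≤ 1 ∧ 1 ≤ C ∧
  ∀ (ω : Cfg D) (R m h : ℕ) (δ : ℝ) rep w, Geo ω R m h δ rep w → ∀ (l : ℕ) (lam : ℝ), l₀ ≤ l →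
  Sc l m lam → ∀ (U : Finset (V D)) (ψ : V D → ℝ), (∀ y ∈ U, Wide ω y h ∧ nrm y + l ≤ R) →
  Lip ψ (ξ / l) → ∀ n y,
    Gs lam ω U n ((U : Set (V D)).indicator (wf lam ψ)) y ≤ C * (l : ℝ) ^ 2 * wf lam ψ y

def GCStmt : Prop := ∀ (D : ℕ) (lam : ℝ) (ω : Cfg D) (U : Finset (V D)) (v : V D → ℝ) (A : ℝ),
  1 ≤ A → (∀ y, 0 < v y) → (∀ n y, Gs lam ω U n ((U : Set (V D)).indicator v) y ≤ A * v y) →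
  (∀ n y, ∑ k ∈ range n, ((k : ℝ) + 1) * Pk lam ω U k ((U : Set (V D)).indicator v) y ≤
    A ^ 2 * v y) ∧
  (∀ n y, Pk lam ω U n ((U : Set (V D)).indicator v) y ≤ A * exp (-(n / A)) * v y) ∧
  (∀ g : V D → ℝ, ∃ χ : V D → ℝ,
    (∀ y ∈ U, χ y = g y + Pf lam ω χ y) ∧ ∀ y ∉ U, χ y = g y) ∧
  ∀ u : V D → ℝ, (∀ y ∈ U, u y ≤ Pf lam ω u y) → (∀ y ∉ U, u y ≤ 0) → ∀ y, u y ≤ 0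

def HITStmt : Prop := ∀ D : ℕ, ∃ (ξ C : ℝ) (l₀ : ℕ), 0 < ξ ∧ ξ ≤ 1 ∧ 1 ≤ C ∧
  ∀ (ω : Cfg D) (R m h : ℕ) (δ : ℝ) rep w, Geo ω R m h δ rep w → ∀ (l : ℕ) (lam : ℝ), l₀ ≤ l →
  Sc l m lam → ∀ (x : V D) (A Z : Set (V D)) (ψ : V D → ℝ) (n : ℕ) (b : ℝ), Wide ω x h →
  nrm x + n + 2 * l ≤ R → Disjoint A Z → Lip ψ (ξ / l) → 0 < b → (∀ z ∈ Z, b ≤ wf lam ψ z) →
  Gs lam ω A (n + 1) (chi Z) x ≤ C * wf lam ψ x / b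

/-- survival below the level `L` -/
def SURStmt : Prop := ∀ D : ℕ, ∃ (C : ℝ) (l₀ : ℕ), 1 ≤ C ∧
  ∀ (ω : Cfg D) (R m h : ℕ) (δ : ℝ) rep w, Geo ω R m h δ rep w → ∀ (l : ℕ) (lam : ℝ), l₀ ≤ l →
  Sc l m lam → ∀ (x : V D) (U : Set (V D)) (L : ℤ) (n : ℕ), Wide ω x h → nrm x + n + l ≤ R →
  (∀ y ∈ U, y 0 < L) →
  Pk lam ω U n (U.indicator fun y => exp (lam * (L - y 0 : ℤ))) x ≤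
    C * (l : ℝ) ^ 2 * exp (-(n / (C * (l : ℝ) ^ 2))) * exp (lam * (L - x 0 : ℤ)) ∧
  ∑ k ∈ range (n + 1), ((k : ℝ) + 1) * Pk lam ω U k (chi U) x ≤
    C * (l : ℝ) ^ 4 * exp (lam * (L - x 0 : ℤ))

def HMStmt : Prop := ∀ (D : ℕ) (ξ : ℝ), 0 < ξ → ξ ≤ 1 → ∃ C : ℝ, 1 ≤ C ∧
  ∀ (ω : Cfg D) (R m h : ℕ) (δ : ℝ) rep w, Geo ω R m h δ rep w → ∀ (l : ℕ) (lam : ℝ),
  Sc l m lam → ∀ (f : V D → ℝ) (Q : Finset (V D)) (x : V D) (L : ℤ),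
  (∀ y, f y ≠ 0 → Wide ω y h ∧ nrm y + l ≤ R ∧ y 0 < L) → Sup f Q →
  |∑ y ∈ Q, pim lam ω y * (et (ξ / l) x y * f y) * (dr lam ω y - d0 D lam)| ≤
    C * √(δ * (l : ℝ) ^ (D + 1) * exp (2 * lam * L)) * √(En lam ω Q f)

def CHIStmt : Prop := ∀ (D : ℕ) (ε : ℝ), 0 < ε → ∃ (δ₀ : ℝ) (l₀ : ℕ), 0 < δ₀ ∧
  ∀ (ω : Cfg D) (R m h : ℕ) (δ : ℝ) rep w, Geo ω R m h δ rep w → δ ≤ δ₀ → ∀ (l : ℕ) (lam : ℝ),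
  l₀ ≤ l → Sc l m lam → ∀ (U : Finset (V D)) (L : ℤ) (χ : V D → ℝ),
  (∀ y ∈ U, Wide ω y h ∧ nrm y + l ≤ R ∧ y 0 < L) →
  (∀ y ∈ U, χ y = dr lam ω y - d0 D lam + Pf lam ω χ y) → (∀ y ∉ U, χ y = 0) →
  ∀ y, |χ y| ≤ ε * l * exp (lam * (L - y 0 : ℤ))

def LCStmt : Prop := ∀ (D : ℕ) (lam : ℝ) (ω : Cfg D) (g η : V D → ℝ) (Q Q' : Finset (V D)),
  (∀ y, 0 < g y) → Sup η Q → (∀ y, η y ≠ 0 → Pf lam ω g y ≤ g y) → Q' ⊆ Q →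
  (∀ y ∈ Q', η y = 1 ∧ ∀ s, η (y + vec s) = 1) →
  En lam ω Q' (fun y => log (g y)) ≤ En lam ω Q η

def WHStmt : Prop := ∀ D κ : ℕ, ∃ (c : ℝ) (l₀ : ℕ), 0 < c ∧
  ∀ (ω : Cfg D) (R m h : ℕ) (δ : ℝ) rep w, Geo ω R m h δ rep w → ∀ (l : ℕ) (lam : ℝ), l₀ ≤ l →
  Sc l m lam → ∀ (x : V D) (g : V D → ℝ), nrm x + (κ + 4) * l ≤ R → (∀ y, 0 ≤ g y) →
  (∀ y ∈ bx x (3 * l) (κ * l), Wide ω y h → Pf lam ω g y ≤ g y) →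
  (bx x l (κ * l)).card ≤ 4 * ((bx x l (κ * l)).filter fun y => Wide ω y h ∧ 1 / 4 ≤ g y).card →
  ∀ y ∈ bx x 0 (κ * l), Wide ω y h → c ≤ g y

/-! ### legs -/

def D0Stmt : Prop := ∀ D : ℕ, d0 D 0 = 0 ∧ (∀ x, 0 ≤ x → 0 ≤ d0 D x ∧ d0 D x ≤ x) ∧
  ∀ x y, 0 ≤ x → x ≤ y → y ≤ 1 → (y - x) / (8 * (D + 1)) ≤ d0 D y - d0 D x

def LEG1Stmt : Prop := ∀ D : ℕ, ∃ Λ₀ : ℕ, ∀ Λ : ℕ, Λ₀ ≤ Λ → ∃ C : ℝ, 1 ≤ C ∧ ∀ K : ℕ, ∃ l₀ : ℕ,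
  ∀ (ω : Cfg D) (R m h : ℕ) (δ : ℝ) rep w, Geo ω R m h δ rep w → ∀ (l : ℕ) (lam : ℝ), l₀ ≤ l →
  Sc l m lam → Wide ω 0 h → 2 * l ^ 4 ≤ R →
  1 - 1 / (l : ℝ) ^ K ≤ ms lam (Λ * l) (l ^ 4) ω ∧ t2 lam (Λ * l) (l ^ 4) ω ≤ C * (l : ℝ) ^ 4 ∧
  ∀ j, 1 ≤ j → bt lam (Λ * l) (l ^ 4) (j * (Λ * l)) ω ≤ 1 / 16 ^ j

def Q1Stmt : Prop := ∀ (D Λ : ℕ) (ε : ℝ), 1 ≤ Λ → 0 < ε → ∃ (δ₀ : ℝ) (l₀ : ℕ), 0 < δ₀ ∧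
  ∀ (ω : Cfg D) (R m h : ℕ) (δ : ℝ) rep w, Geo ω R m h δ rep w → δ ≤ δ₀ → ∀ (l : ℕ) (lam : ℝ),
  l₀ ≤ l → Sc l m lam → Wide ω 0 h → 2 * l ^ 4 ≤ R →
  |tt lam (Λ * l) (l ^ 4) ω - Λ * l / d0 D lam| ≤ ε * (l : ℝ) ^ 2

/-- the site of level `k` above the origin -/
def up (D k : ℕ) : V D := Pi.single 0 (k : ℤ)

def OV1Stmt : Prop := ∀ D : ℕ, ∃ Λ₀ : ℕ, ∀ Λ κ : ℕ, Λ₀ ≤ Λ → ∃ (c : ℝ) (l₀ : ℕ), 0 < c ∧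
  ∀ (ω : Cfg D) (R m h : ℕ) (δ : ℝ) rep w, Geo ω R m h δ rep w → ∀ (l : ℕ) (lam : ℝ), l₀ ≤ l →
  Sc l m lam → 2 * l ^ 4 ≤ R → ∀ A B : Set (V D), A ∪ B = {y : V D | y 0 = ((Λ * l : ℕ) : ℤ)} →
  (∀ y ∈ bx (up D (Λ * l / 2)) 0 (κ * l), Wide ω y h →
    c ≤ Gs lam ω {y : V D | 0 < y 0 ∧ y 0 < ((Λ * l : ℕ) : ℤ)} (l ^ 4 / 2 + 1) (chi A) y) ∨
  (∀ y ∈ bx (up D (Λ * l / 2)) 0 (κ * l), Wide ω y h →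
    c ≤ Gs lam ω {y : V D | 0 < y 0 ∧ y 0 < ((Λ * l : ℕ) : ℤ)} (l ^ 4 / 2 + 1) (chi B) y)

def OV2Stmt : Prop := ∀ D Λ : ℕ, 2 ≤ Λ → ∃ κ l₀ : ℕ,
  ∀ (ω : Cfg D) (R m h : ℕ) (δ : ℝ) rep w, Geo ω R m h δ rep w → ∀ (l : ℕ) (lam : ℝ), l₀ ≤ l →
  Sc l m lam → Wide ω 0 h → 2 * l ^ 4 ≤ R →
  1 / 2 ≤ Gs lam ω {y : V D | y 0 < ((Λ * l / 2 : ℕ) : ℤ)} (l ^ 4 / 2 + 1)
    (chi (bx (up D (Λ * l / 2)) 0 (κ * l) : Set (V D))) 0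

def OVStmt : Prop := ∀ D : ℕ, ∃ Λ₀ : ℕ, ∀ Λ : ℕ, Λ₀ ≤ Λ → ∃ (c : ℝ) (l₀ : ℕ), 0 < c ∧ c ≤ 1 ∧
  ∀ (ω ω' : Cfg D) (R m h : ℕ) (δ : ℝ) rep w rep' w', Geo ω R m h δ rep w → Geo ω' R m h δ rep' w' →
  ∀ (l : ℕ) (lam : ℝ), l₀ ≤ l → Sc l m lam → Wide ω 0 h → Wide ω' 0 h → 2 * l ^ 4 ≤ R →
  Agr 0 ω ω' → c ≤ ovl lam (Λ * l) (l ^ 4) ω ω'

end Pool.Agent.MP_8c549f_pr.L2

end
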