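import Pool.Agent.MP_8c549f_pr.L2.Basic

/-! PROJECT L2, row Spg: decay of the square norm from a Nash type inequality. -/

noncomputable section

namespace Pool.Agent.MP_8c549f_pr.L2

open MeasureTheory Finset Real Classical S3

namespace Spg

variable {D : ℕ} {lam : ℝ} {ω : Cfg D} {A Q : Finset (V D)}

theorem pim0 (x : V D) : 0 ≤ pim lam ω x := by
  rw [← sum_cnd]; exact sum_nonneg fun s _ => cnd_nonneg x s

/-- the scalar product -/
def ip (lam : ℝ) (ω : Cfg D) (Q : Finset (V D)) (a b : V D → ℝ) : ℝ :=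
  ∑ x ∈ Q, pim lam ω x * a x * b x

theorem mass (hI : IDStmt) {a : V D → ℝ} (h0 : ∀ x, 0 ≤ a x) (hS : Sup a Q) :
    ∑ x ∈ Q, pim lam ω x * Pf lam ω a x ≤ ∑ x ∈ Q, pim lam ω x * a x := by
  have h := (hI D lam ω Q).2.1 a (fun _ => 1) hS
  simp only [mul_one] at h
  rw [← h]
  exact sum_le_sum fun x _ =>
    mul_le_of_le_one_right (mul_nonneg (pim0 x) (h0 x)) (Pf_const_le zero_le_one x)

theorem supT (a : V D → ℝ) (x : V D) (h : Pu lam ω (A : Set (V D)) a x ≠ 0) : x ∈ A := by
  by_contra hx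
  exact h (Pu_of_not (by simpa using hx) a)

theorem ip_T {a : V D → ℝ} (ha : ∀ x, a x ≠ 0 → x ∈ A) (b : V D → ℝ) :
    ip lam ω Q a (Pu lam ω (A : Set (V D)) b) = ip lam ω Q a (Pf lam ω b) := by
  refine sum_congr rfl fun x _ => ?_
  by_cases h : a x = 0
  · simp [h]
  · rw [Pu_of_mem (by simpa using ha x h)]

theorem lower (hI : IDStmt) {k : V D → ℝ} (hS : Sup k Q) :
    0 ≤ ip lam ω Q k k + ip lam ω Q k (Pf lam ω k) := by
  have h1 := mass (lam := lam) (ω := ω) hI (a := fun x => k x ^ 2) (fun x => sq_nonneg _)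
    (fun x hx => hS x fun h => hx (by simp [h]))
  have h2 : 0 ≤ ∑ x ∈ Q, (pim lam ω x * k x ^ 2 + 2 * (pim lam ω x * k x * Pf lam ω k x) +
      pim lam ω x * Pf lam ω (fun x => k x ^ 2) x) := by
    refine sum_nonneg fun x _ => ?_
    rw [mul_right_comm, pim_Pf, pim_Pf, ← sum_cnd, sum_mul, sum_mul, mul_sum, ← sum_add_distrib,
      ← sum_add_distrib]
    refine sum_nonneg fun s _ => ?_
    have := mul_nonneg (cnd_nonneg (lam := lam) (ω := ω) x s) (sq_nonneg (k x + k (x + vec s)))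
    linarith
  rw [sum_add_distrib, sum_add_distrib, ← mul_sum] at h2
  have h3 : ip lam ω Q k k = ∑ x ∈ Q, pim lam ω x * k x ^ 2 :=
    sum_congr rfl fun x _ => by ring
  unfold ip at h3 ⊢
  linarith

theorem energy (hI : IDStmt) {g : V D → ℝ} (hS : Sup g Q) :
    En lam ω Q g = 2 * (ip lam ω Q g g - ip lam ω Q g (Pf lam ω g)) := by
  have h := (hI D lam ω Q).1 g g hS
  rw [En_eq]
  simp only [sq]
  rw [← h]
  simp only [ip, ← sum_sub_distrib, mul_sub]

/-- one step -/
theorem step (hI : IDStmt) (hA : ∀ x ∈ A, x ∈ Q ∧ ∀ s, x + vec s ∈ Q) {a : V D → ℝ}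
    (ha : ∀ x, a x ≠ 0 → x ∈ A) :
    En lam ω Q (fun x => a x + Pu lam ω (A : Set (V D)) a x) ≤
      4 * (ip lam ω Q a a -
        ip lam ω Q (Pu lam ω (A : Set (V D)) a) (Pu lam ω (A : Set (V D)) a)) := by
  set b := Pu lam ω (A : Set (V D)) a with hb
  have hb' : ∀ x, b x ≠ 0 → x ∈ A := supT a
  have hg : ∀ x, a x + b x ≠ 0 → x ∈ A := fun x hx => by
    by_cases h : a x = 0
    · exact hb' x (by simpa [h] using hx)
    · exact ha x h
  have hk : ∀ x, a x - b x ≠ 0 → x ∈ A := fun x hx => by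
    by_cases h : a x = 0
    · exact hb' x (by simpa [h] using hx)
    · exact ha x h
  have e1 := energy (lam := lam) (ω := ω) hI (g := fun x => a x + b x) fun x hx => hA x (hg x hx)
  have e2 := lower (lam := lam) (ω := ω) hI (k := fun x => a x - b x) fun x hx => hA x (hk x hx)
  have e3 : ip lam ω Q a (Pf lam ω b) = ip lam ω Q b (Pf lam ω a) :=
    (hI D lam ω Q).2.1 a b fun x hx => hA x (ha x hx)
  have e4 : ip lam ω Q a b = ip lam ω Q a (Pf lam ω a) := ip_T ha a
  have e5 : ip lam ω Q b b = ip lam ω Q b (Pf lam ω a) := ip_T hb' a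
  have f1 : ip lam ω Q (fun x => a x + b x) (fun x => a x + b x) =
      ip lam ω Q a a + 2 * ip lam ω Q a b + ip lam ω Q b b := by
    simp only [ip, mul_sum, ← sum_add_distrib]
    exact sum_congr rfl fun x _ => by ring
  have f2 : ip lam ω Q (fun x => a x - b x) (fun x => a x - b x) =
      ip lam ω Q a a - 2 * ip lam ω Q a b + ip lam ω Q b b := by
    simp only [ip, mul_sum, ← sum_add_distrib, ← sum_sub_distrib]
    exact sum_congr rfl fun x _ => by ring
  have f3 : ip lam ω Q (fun x => a x + b x) (Pf lam ω fun x => a x + b x) =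
      ip lam ω Q a (Pf lam ω a) + ip lam ω Q a (Pf lam ω b) + ip lam ω Q b (Pf lam ω a) +
        ip lam ω Q b (Pf lam ω b) := by
    simp only [ip, Pf_add, ← sum_add_distrib]
    exact sum_congr rfl fun x _ => by ring
  have f4 : ip lam ω Q (fun x => a x - b x) (Pf lam ω fun x => a x - b x) =
      ip lam ω Q a (Pf lam ω a) - ip lam ω Q a (Pf lam ω b) - ip lam ω Q b (Pf lam ω a) +
        ip lam ω Q b (Pf lam ω b) := by
    simp only [ip, Pf_sub, ← sum_add_distrib, ← sum_sub_distrib]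
    exact sum_congr rfl fun x _ => by ring
  linarith

end Spg

open Spg in
theorem spg (hI : IDStmt) : SPGStmt := by
  intro D lam ω A Q α κ hα hκ hA hN f f0 fA f1
  have p0 : ∀ n x, 0 ≤ Pk lam ω (A : Set (V D)) n f x := fun n => Pk_nonneg f0 n
  have pA : ∀ n x, Pk lam ω (A : Set (V D)) n f x ≠ 0 → x ∈ A := by
    intro n
    cases n with
    | zero => exact fA
    | succ n => rw [Pk_succ]; exact supT _
  have p1 : ∀ n, ∑ x ∈ Q, pim lam ω x * Pk lam ω (A : Set (V D)) n f x ≤ 1 := by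
    intro n
    induction n with
    | zero => exact f1
    | succ n ih =>
      refine le_trans (sum_le_sum fun x _ => ?_)
        ((mass hI (p0 n) fun x hx => hA x (pA n x hx)).trans ih)
      refine mul_le_mul_of_nonneg_left ?_ (pim0 x)
      by_cases hx : x ∈ (A : Set (V D))
      · rw [Pk_succ_mem hx]
      · rw [Pk_succ_not hx]; exact Pf_nonneg (p0 n) x
  have u0 : 0 ≤ ∑ x ∈ Q, pim lam ω x * f x ^ 2 :=
    sum_nonneg fun x _ => mul_nonneg (pim0 x) (sq_nonneg _)
  intro n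
  refine ⟨p1 n, ?_⟩
  induction n with
  | zero => simpa using hκ
  | succ n ih =>
    have s1 := step (lam := lam) (ω := ω) hI hA (pA n)
    rw [← Pk_succ] at s1
    have s2 := hN (fun x => Pk lam ω (A : Set (V D)) n f x + Pk lam ω (A : Set (V D)) (n + 1) f x)
      (fun x => add_nonneg (p0 n x) (p0 (n + 1) x))
      (fun x hx => by
        by_cases h : Pk lam ω (A : Set (V D)) n f x = 0
        · exact pA (n + 1) x (by simpa [h] using hx)
        · exact pA n x h)
      (by
        simp only [mul_add, sum_add_distrib]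
        linarith [p1 n, p1 (n + 1)])
    have s3 : ∑ x ∈ Q, pim lam ω x * Pk lam ω (A : Set (V D)) n f x ^ 2 ≤ ∑ x ∈ Q, pim lam ω x *
        (Pk lam ω (A : Set (V D)) n f x + Pk lam ω (A : Set (V D)) (n + 1) f x) ^ 2 :=
      sum_le_sum fun x _ => mul_le_mul_of_nonneg_left
        (pow_le_pow_left₀ (p0 n x) (le_add_of_nonneg_right (p0 (n + 1) x)) 2) (pim0 x)
    have e : ∀ k, ip lam ω Q (Pk lam ω (A : Set (V D)) k f) (Pk lam ω (A : Set (V D)) k f) =
        ∑ x ∈ Q, pim lam ω x * Pk lam ω (A : Set (V D)) k f x ^ 2 :=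
      fun k => sum_congr rfl fun x _ => by ring
    rw [e, e] at s1
    set u := ∑ x ∈ Q, pim lam ω x * Pk lam ω (A : Set (V D)) n f x ^ 2
    set v := ∑ x ∈ Q, pim lam ω x * Pk lam ω (A : Set (V D)) (n + 1) f x ^ 2
    set w := ∑ x ∈ Q, pim lam ω x * f x ^ 2
    have a0 : 0 < 4 * α := by linarith
    have s4 : u ≤ α * (4 * (u - v)) + κ :=
      s3.trans (s2.trans (add_le_add (mul_le_mul_of_nonneg_left s1 (by linarith)) le_rfl))
    have s5 : v - κ ≤ (1 - 1 / (4 * α)) * (u - κ) := by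
      have : (u - κ) / (4 * α) ≤ u - v := by rw [div_le_iff₀ a0]; linarith
      have e2 : (1 - 1 / (4 * α)) * (u - κ) = (u - κ) - (u - κ) / (4 * α) := by ring
      linarith
    have q0 : 0 ≤ 1 - 1 / (4 * α) := by
      have : 1 / (4 * α) ≤ 1 := by rw [div_le_one a0]; linarith
      linarith
    have q1 : 1 - 1 / (4 * α) ≤ exp (-(1 / (4 * α))) := by
      linarith [add_one_le_exp (-(1 / (4 * α)))]
    have e3 : exp (-(((n + 1 : ℕ) : ℝ) / (4 * α))) =
        exp (-(1 / (4 * α))) * exp (-((n : ℝ) / (4 * α))) := by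
      rw [← exp_add]; congr 1; push_cast; ring
    have s6 : (1 - 1 / (4 * α)) * (u - κ) ≤
        exp (-(1 / (4 * α))) * (exp (-((n : ℝ) / (4 * α))) * w) :=
      (mul_le_mul_of_nonneg_left (by linarith) q0).trans
        (mul_le_mul_of_nonneg_right q1 (mul_nonneg (exp_pos _).le u0))
    rw [e3, mul_assoc]
    linarith

end Pool.Agent.MP_8c549f_pr.L2

end
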