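import Pool.Agent.MP_8c549f_pr.L2.SpecB

/-! PROJECT L2, row Step: change of the bias along a list of steps. -/

noncomputable section

namespace Pool.Agent.MP_8c549f_pr.L2

open MeasureTheory Finset Real Classical S3

namespace Stp

variable {D : ℕ} {lam a : ℝ} {ω : Cfg D} {x : V D}

theorem vec_abs (s : Step D) : |(vec s 0 : ℝ)| ≤ 1 := by
  have := vec_bounds s 0
  exact abs_le.2 ⟨by exact_mod_cast this.1, by exact_mod_cast this.2⟩

theorem dr_abs : |dr lam ω x| ≤ 1 := by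
  refine (abs_sum_le_sum_abs _ _).trans (le_trans (sum_le_sum fun s _ => ?_) (sum_pr_le_one lam ω x))
  rw [abs_mul, abs_of_nonneg (pr_nonneg _ _ _ _)]
  exact mul_le_of_le_one_right (pr_nonneg _ _ _ _) (vec_abs s)

theorem wt_add (s : Step D) : wt (lam + a) s = wt lam s * exp (a * (vec s 0 : ℝ)) := by
  rw [wt, wt, ← exp_add, add_mul]

theorem Zq_add (h : 0 < Zq lam ω x) :
    Zq (lam + a) ω x = Zq lam ω x * ∑ s, pr lam ω x s * exp (a * (vec s 0 : ℝ)) := by
  rw [mul_sum]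
  conv_lhs => rw [Zq]
  refine sum_congr rfl fun s _ => ?_
  unfold pr
  split_ifs
  · rw [wt_add, ← mul_assoc, mul_div_cancel₀ _ h.ne']
  · simp

theorem up (ha : |a| ≤ 1) (h : ∑ s, pr lam ω x s = 1) :
    ∑ s, pr lam ω x s * exp (a * (vec s 0 : ℝ)) ≤ exp (a * dr lam ω x + a ^ 2) := by
  have e : ∑ s, pr lam ω x s * (1 + a * (vec s 0 : ℝ) + a ^ 2) = a * dr lam ω x + a ^ 2 + 1 := by
    have : ∀ s ∈ (univ : Finset (Step D)), pr lam ω x s * (1 + a * (vec s 0 : ℝ) + a ^ 2) =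
        a * (pr lam ω x s * (vec s 0 : ℝ)) + (a ^ 2 + 1) * pr lam ω x s := fun s _ => by ring
    rw [sum_congr rfl this, sum_add_distrib, ← mul_sum, ← mul_sum, h, dr]; ring
  refine le_trans ?_ (add_one_le_exp _)
  rw [← e]
  refine sum_le_sum fun s _ => mul_le_mul_of_nonneg_left ?_ (pr_nonneg _ _ _ _)
  have h1 := vec_abs s
  have h2 : |a * (vec s 0 : ℝ)| ≤ 1 := by
    rw [abs_mul]; exact mul_le_one₀ ha (abs_nonneg _) h1
  have h3 := (abs_le.1 (abs_exp_sub_one_sub_id_le h2)).2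
  have h4 : (vec s 0 : ℝ) ^ 2 ≤ 1 := (sq_le_one_iff_abs_le_one _).2 h1
  nlinarith [mul_le_mul_of_nonneg_left h4 (sq_nonneg a)]

theorem lo (h : ∑ s, pr lam ω x s = 1) :
    exp (a * dr lam ω x) ≤ ∑ s, pr lam ω x s * exp (a * (vec s 0 : ℝ)) := by
  have e : ∑ s, pr lam ω x s * (exp (a * dr lam ω x) *
      (a * (vec s 0 : ℝ) - a * dr lam ω x + 1)) = exp (a * dr lam ω x) := by
    have : ∀ s ∈ (univ : Finset (Step D)), pr lam ω x s * (exp (a * dr lam ω x) *
        (a * (vec s 0 : ℝ) - a * dr lam ω x + 1)) =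
        exp (a * dr lam ω x) * a * (pr lam ω x s * (vec s 0 : ℝ)) +
          exp (a * dr lam ω x) * (1 - a * dr lam ω x) * pr lam ω x s := fun s _ => by ring
    rw [sum_congr rfl this, sum_add_distrib, ← mul_sum, ← mul_sum, h, ← dr]; ring
  rw [← e]
  refine sum_le_sum fun s _ => mul_le_mul_of_nonneg_left ?_ (pr_nonneg _ _ _ _)
  refine (mul_le_mul_of_nonneg_left (add_one_le_exp _) (exp_pos _).le).trans (le_of_eq ?_)
  rw [← exp_add]; congr 1; ring

/-- one step -/
theorem one (ha : |a| ≤ 1) (s : Step D) :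
    pr lam ω x s * exp (a * ((vec s 0 : ℝ) - dr lam ω x) - a ^ 2) ≤ pr (lam + a) ω x s ∧
    pr (lam + a) ω x s ≤ pr lam ω x s * exp (a * ((vec s 0 : ℝ) - dr lam ω x)) := by
  by_cases hs : ω (edge x s) = true
  · have hZ := Zq_pos lam hs
    have h1 := sum_pr_eq_one lam hs
    have hu := up ha h1
    have hl := lo (a := a) h1
    have S0 := (exp_pos _).trans_le hl
    have p0 := pr_nonneg lam ω x s
    have e : pr (lam + a) ω x s = pr lam ω x s * (exp (a * (vec s 0 : ℝ)) /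
        ∑ s, pr lam ω x s * exp (a * (vec s 0 : ℝ))) := by
      rw [pr_of_open _ hs, Zq_add hZ, wt_add, mul_div_mul_comm, ← pr_of_open lam hs]
    rw [e]
    refine ⟨mul_le_mul_of_nonneg_left ?_ p0, mul_le_mul_of_nonneg_left ?_ p0⟩
    · refine le_trans (le_of_eq ?_) (div_le_div_of_nonneg_left (exp_pos _).le S0 hu)
      rw [← exp_sub]; congr 1; ring
    · refine (div_le_div_of_nonneg_left (exp_pos _).le (exp_pos _) hl).trans (le_of_eq ?_)
      rw [← exp_sub]; congr 1; ring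
  · simp [pr, hs]

end Stp

theorem step : STEPStmt := by
  intro D lam a ω l x ha
  induction l generalizing x with
  | nil => simp [Mg]
  | cons s l ih =>
    obtain ⟨i1, i2, i3⟩ := ih (x + vec s)
    obtain ⟨o1, o2⟩ := Stp.one (lam := lam) (ω := ω) (x := x) ha s
    have eM : Mg lam ω x (s :: l) = ((vec s 0 : ℝ) - dr lam ω x) + Mg lam ω (x + vec s) l := rfl
    rw [wr_cons, wr_cons, eM, List.length_cons]
    refine ⟨le_trans (le_of_eq ?_) (mul_le_mul o1 i1
      (mul_nonneg (wr_nonneg _ _) (exp_pos _).le) (pr_nonneg _ _ _ _)),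
      (mul_le_mul o2 i2 (wr_nonneg _ _)
        (mul_nonneg (pr_nonneg _ _ _ _) (exp_pos _).le)).trans (le_of_eq ?_), ?_⟩
    · rw [mul_mul_mul_comm, ← exp_add]; congr 2; push_cast; ring
    · rw [mul_mul_mul_comm, ← exp_add]; congr 2; ring
    · have h1 := abs_le.1 (Stp.vec_abs s)
      have h2 := abs_le.1 (Stp.dr_abs (lam := lam) (ω := ω) (x := x))
      have h3 := abs_le.1 i3
      push_cast
      exact abs_le.2 ⟨by linarith [h1.1, h2.2, h3.1], by linarith [h1.2, h2.1, h3.2]⟩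

end Pool.Agent.MP_8c549f_pr.L2

end
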