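import Pool.Agent.MP_8c549f_pr.L2.Basic

/-! PROJECT L2: survival below a level. -/

noncomputable section

namespace Pool.Agent.MP_8c549f_pr.L2

open MeasureTheory Finset Real Classical S3

theorem sur (hG : GBStmt) (hC : GCStmt) : SURStmt := by
  intro D
  obtain ⟨ξ, C, l₀, hξ, -, hC1, hGB⟩ := hG D
  refine ⟨C ^ 2, l₀, one_le_pow₀ hC1, ?_⟩
  intro ω R m h δ rep w hgeo l lam hl hs x U L n hx hR hU
  set U' : Finset (V D) := (wb' ω h x n).filter fun y => y ∈ U with hU'
  set v : V D → ℝ := fun y => exp (lam * (L - y 0 : ℤ)) with hv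
  have hl1 : (1 : ℝ) ≤ l := by
    have : (16 : ℝ) ≤ l := by exact_mod_cast hs.l16
    linarith
  have hl2 : (1 : ℝ) ≤ (l : ℝ) ^ 2 := one_le_pow₀ hl1
  have hA : 1 ≤ C * (l : ℝ) ^ 2 := one_le_mul_of_one_le_of_one_le hC1 hl2
  have hvw : ∀ y, v y = exp (lam * L) * wf lam (fun _ => 0) y := by
    intro y
    simp only [hv, wf, ← exp_add]
    congr 1
    push_cast
    ring
  have hmem : ∀ y ∈ U', Wide ω y h ∧ nrm y + l ≤ R := by
    intro y hy
    obtain ⟨h1, h2⟩ := mem_wb'.1 (mem_filter.1 hy).1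
    refine ⟨h2, ?_⟩
    have h3 := nrm_add_le (y - x) x
    rw [sub_add_cancel] at h3
    omega
  have hlip : Lip (fun _ : V D => (0 : ℝ)) (ξ / l) := by
    intro y z
    have := hs.lpos
    simp only [sub_self, abs_zero]
    positivity
  have hgs : ∀ k y, Gs lam ω U' k ((U' : Set (V D)).indicator v) y ≤ C * (l : ℝ) ^ 2 * v y := by
    intro k y
    have e : (U' : Set (V D)).indicator v =
        fun y => exp (lam * L) * (U' : Set (V D)).indicator (wf lam fun _ => 0) y := by
      funext z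
      by_cases hz : z ∈ (U' : Set (V D))
      · rw [Set.indicator_of_mem hz, Set.indicator_of_mem hz, hvw]
      · rw [Set.indicator_of_notMem hz, Set.indicator_of_notMem hz, mul_zero]
    rw [e, Gs_mul, hvw, mul_left_comm]
    exact mul_le_mul_of_nonneg_left (hGB ω R m h δ rep w hgeo l lam hl hs U' _ hmem hlip k y)
      (exp_pos _).le
  obtain ⟨g1, g2, -, -⟩ := hC D lam ω U' v _ hA (fun y => exp_pos _) hgs
  have hiff : ∀ y, Wide ω y h → nrm (y - x) ≤ n → (y ∈ U ↔ y ∈ (U' : Set (V D))) := by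
    intro y h1 h2
    simp only [hU', coe_filter, Set.mem_ofPred_eq, mem_wb']
    exact ⟨fun h3 => ⟨⟨h2, h1⟩, h3⟩, fun h3 => h3.2⟩
  have hloc : ∀ k ≤ n, Pk lam ω U k (U.indicator v) x =
      Pk lam ω U' k ((U' : Set (V D)).indicator v) x := by
    intro k hk
    refine Pk_wide hx k (fun y h1 h2 => hiff y h1 (h2.trans hk)) fun y h1 h2 => ?_
    by_cases hy : y ∈ U
    · rw [Set.indicator_of_mem hy, Set.indicator_of_mem ((hiff y h1 (h2.trans hk)).1 hy)]
    · rw [Set.indicator_of_notMem hy,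
        Set.indicator_of_notMem fun h3 => hy ((hiff y h1 (h2.trans hk)).2 h3)]
  have hCC : C * (l : ℝ) ^ 2 ≤ C ^ 2 * (l : ℝ) ^ 2 :=
    mul_le_mul_of_nonneg_right (by nlinarith) (by linarith)
  constructor
  · rw [hloc n le_rfl]
    refine (g2 n x).trans (mul_le_mul_of_nonneg_right ?_ (exp_pos _).le)
    refine mul_le_mul hCC (exp_le_exp.2 (neg_le_neg ?_)) (exp_pos _).le (by linarith)
    exact div_le_div_of_nonneg_left (Nat.cast_nonneg n) (by linarith) hCC
  · have h1 : ∀ y, chi U y ≤ U.indicator v y := by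
      intro y
      by_cases hy : y ∈ U
      · rw [chi_of_mem hy, Set.indicator_of_mem hy]
        refine one_le_exp (mul_nonneg hs.pos.le ?_)
        have := hU y hy
        exact_mod_cast (by omega : (0 : ℤ) ≤ L - y 0)
      · rw [chi_of_not hy, Set.indicator_of_notMem hy]
    refine le_trans (sum_le_sum fun k hk => ?_) ((g1 (n + 1) x).trans (le_of_eq (by ring)))
    rw [← hloc k (Nat.lt_succ_iff.1 (mem_range.1 hk))]
    exact mul_le_mul_of_nonneg_left (Pk_mono h1 k x) (by positivity)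

end Pool.Agent.MP_8c549f_pr.L2

end
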