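import Pool.Agent.MP_8c549f_pr.L2.SpecB

/-! PROJECT L2: the telescoping comparison of the duration of `n` legs for two biases. -/

noncomputable section

namespace Pool.Agent.MP_8c549f_pr.L2

open MeasureTheory Finset Real Classical S3

namespace Tel

/-- the comparison of two weighted sums -/
theorem core {ι : Type} (T : Finset ι) (a b v u B : ι → ℝ) {m E' E Y τ θ c U : ℝ}
    (ha : ∀ i, 0 ≤ a i) (hb : ∀ i, 0 ≤ b i) (hB : ∀ i, 0 ≤ B i) (a1 : ∑ i ∈ T, a i ≤ 1)
    (a2 : 1 - τ ≤ ∑ i ∈ T, a i) (b1 : ∑ i ∈ T, b i ≤ 1) (b2 : 1 - τ ≤ ∑ i ∈ T, b i)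
    (hm : 0 ≤ m) (hE' : 0 ≤ E') (hE : 0 ≤ E) (hY : 0 ≤ Y) (hτ : 0 ≤ τ) (c0 : 0 ≤ c) (c1 : c ≤ U)
    (hv : ∀ i, v i - u i ≤ -m + E' * (τ + B i)) (hu : ∀ i, |u i - c| ≤ Y + E * (2 * τ + B i))
    (htv : ∑ i ∈ T, |a i - b i| ≤ θ + τ) :
    ∑ i ∈ T, a i * v i - ∑ i ∈ T, b i * u i ≤ -m + θ * Y + (m + E' + Y + 4 * E + U) * τ +
      (E' + E) * ∑ i ∈ T, a i * B i + E * ∑ i ∈ T, b i * B i := by
  have key : ∀ i ∈ T, a i * v i - b i * u i ≤ (-m + E' * τ + 2 * E * τ + c) * a i +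
      (2 * E * τ - c) * b i + Y * |a i - b i| + (E' + E) * (a i * B i) + E * (b i * B i) := by
    intro i _
    have h1 : a i * (v i - u i) ≤ a i * (-m + E' * (τ + B i)) :=
      mul_le_mul_of_nonneg_left (hv i) (ha i)
    have h2 : (a i - b i) * (u i - c) ≤ |a i - b i| * (Y + E * (2 * τ + B i)) :=
      (le_abs_self _).trans (by rw [abs_mul]; exact mul_le_mul_of_nonneg_left (hu i) (abs_nonneg _))
    have h3 : |a i - b i| ≤ a i + b i := abs_le.2 ⟨by linarith [ha i], by linarith [hb i]⟩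
    have h4 : |a i - b i| * (E * (2 * τ + B i)) ≤ (a i + b i) * (E * (2 * τ + B i)) :=
      mul_le_mul_of_nonneg_right h3 (mul_nonneg hE (by linarith [hB i]))
    nlinarith
  have h := sum_le_sum key
  simp only [sum_add_distrib, sum_sub_distrib, ← mul_sum] at h
  generalize ∑ i ∈ T, a i = A at *
  generalize ∑ i ∈ T, b i = A' at *
  have h1 : m * (1 - τ) ≤ m * A := mul_le_mul_of_nonneg_left a2 hm
  have h2 : E' * τ * A ≤ E' * τ := mul_le_of_le_one_right (mul_nonneg hE' hτ) a1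
  have h3 : E * τ * A ≤ E * τ := mul_le_of_le_one_right (mul_nonneg hE hτ) a1
  have h4 : E * τ * A' ≤ E * τ := mul_le_of_le_one_right (mul_nonneg hE hτ) b1
  have h5 : c * (A - A') ≤ c * τ := mul_le_mul_of_nonneg_left (by linarith) c0
  have h6 : c * τ ≤ U * τ := mul_le_mul_of_nonneg_right c1 hτ
  have h7 := mul_le_mul_of_nonneg_left htv hY
  nlinarith

variable {D : ℕ} {p : ℝ}

theorem fr_int (hV : VBStmt) (h0 : 0 ≤ p) (h1 : p ≤ 1) {u : Cfg D → ℝ} (hu : BM u) (η : Cfg D) :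
    Integrable (fun ω => u (ovw (Past D) η ω)) (perc D p) :=
  (hV D p h0 h1).2.1 u _ hu ((hV D p h0 h1).1 _ η)

/-- the average of the duration of `n + 1` legs -/
theorem fr_succ (hV : VBStmt) (hF : FRStmt) (h0 : 0 ≤ p) (h1 : p ≤ 1) (lam : ℝ) (L N n : ℕ)
    (η : Cfg D) : Fr p (Vn lam L N (n + 1)) η =
      Fr p (tt lam L N) η + Fr p (Kk lam L N (Fr p (Vn lam L N n))) η := by
  obtain ⟨⟨t1, -⟩, k1, -, v1⟩ := (hV D p h0 h1).2.2.2.2 lam L N
  rw [← (hF D p lam h0 h1 _ (v1 n).1).2 L N η]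
  exact integral_add (fr_int hV h0 h1 t1 η) (fr_int hV h0 h1 (k1 _ (v1 n).1) η)

/-- the bad event after a leg is contained in the bad event before it -/
theorem fr_bad (hV : VBStmt) (hF : FRStmt) (h0 : 0 ≤ p) (h1 : p ≤ 1) {lam τ : ℝ} {L N : ℕ}
    {G : ℕ → Cfg D → Prop} (hI : Inh lam L N G τ) (n : ℕ) (η : Cfg D) :
    Fr p (Kk lam L N (bad p (G n))) η ≤ bad p (G (n + 1)) η := by
  obtain ⟨-, k1, k2, -⟩ := (hV D p h0 h1).2.2.2.2 lam L N
  have b0 := ((hV D p h0 h1).2.2.2.1 (G n) (hI.meas n)).1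
  have b1 := ((hV D p h0 h1).2.2.2.1 (G (n + 1)) (hI.meas (n + 1))).1
  rw [bad, ← (hF D p lam h0 h1 _ b0).2 L N η]
  refine integral_mono (fr_int hV h0 h1 (k1 _ b0) η) (fr_int hV h0 h1 b1 η) fun ω => ?_
  dsimp only
  generalize ovw (Past D) η ω = w
  by_cases hw : G (n + 1) w
  · rw [ind_neg (not_not.2 hw)]
    refine le_of_eq (sum_eq_zero fun l hl => ?_)
    by_cases h : wr lam w 0 l = 0
    · rw [h, zero_mul]
    · exact mul_eq_zero_of_right _ (ind_neg (not_not.2 (hI.inh n w hw l hl h)))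
  · rw [ind_pos hw]
    exact (k2 _ 1 zero_le_one (fun _ => ⟨ind_nonneg _, ind_le_one _⟩) w).2

theorem arith {n N Y : ℝ} (hn : 0 ≤ n) (hN : 0 ≤ N) (hY : 0 ≤ Y) :
    7 * n ^ 2 * (n * N + Y) + (Y + 4 * (n * (n * N + Y)) + 2 * (n + 1) * N) ≤
      7 * (n + 1) ^ 2 * ((n + 1) * N + Y) := by
  have h1 : 0 ≤ n * N := mul_nonneg hn hN
  have h2 : 0 ≤ n * Y := mul_nonneg hn hY
  have h3 : 0 ≤ n * (n * N) := mul_nonneg hn h1
  nlinarith

end Tel

theorem tel (hV : VBStmt) (hF : FRStmt) (hM : MIXStmt) : TELStmt := by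
  intro D p x z L N n₁ G τ c y g θ h0 h1 hx hz g0 gN hθ hG hb n
  have := perc_prob D h0 h1
  have hY : 0 ≤ 4 * y / c := div_nonneg (by linarith [hx.y0]) hx.c0.le
  have hτ := hz.pos
  have hN : (0 : ℝ) ≤ N := Nat.cast_nonneg N
  have hmix := hM D p x L N G τ c y h0 h1 hx
  generalize 4 * y / c = Y at *
  obtain ⟨⟨tx1, tx2⟩, kx1, kx2, vx⟩ := (hV D p h0 h1).2.2.2.2 x L N
  obtain ⟨⟨tz1, tz2⟩, kz1, kz2, vz⟩ := (hV D p h0 h1).2.2.2.2 z L N
  have hfr := (hV D p h0 h1).2.2.1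
  have hbm := fun n => (hV D p h0 h1).2.2.2.1 (G n) (hz.meas n)
  induction n with
  | zero => intro _ η; simp [Fr, Vn]
  | succ n ih =>
    intro hn η
    have hn' : n ≤ n₁ := by omega
    have ih := ih hn'
    have n0 : (0 : ℝ) ≤ n := Nat.cast_nonneg n
    have hE : 0 ≤ (n : ℝ) * (n * N + Y) := by positivity
    have hE' : 0 ≤ 7 * (n : ℝ) ^ 2 * (n * N + Y) := by positivity
    have har := Tel.arith n0 hN hY
    have hu : ∀ η, |Fr p (Vn x L N n) η - Fr p (Vn x L N n) (allOpen D)| ≤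
        Y + n * (n * N + Y) * (2 * τ + bad p (G n) η) := by
      intro η
      have h := hmix n 0 η (allOpen D) fun e h1 h2 => by simp at h1; omega
      have := mul_le_mul_of_nonneg_left (hb n hn') hE
      simp only [pow_zero, div_one] at h
      nlinarith
    generalize (n : ℝ) * (n * N + Y) = E at *
    generalize 7 * (n : ℝ) ^ 2 * (n * N + Y) = E' at *
    have ng : (n : ℝ) * g ≤ n * N := mul_le_mul_of_nonneg_left gN n0
    have key : ∀ w, tt z L N w + Kk z L N (Fr p (Vn z L N n)) w -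
        (tt x L N w + Kk x L N (Fr p (Vn x L N n)) w) ≤
        (-((n + 1) * g) + (E' + (Y + 4 * E + 2 * (n + 1) * N)) * τ) +
          (E' + E) * Kk z L N (bad p (G n)) w + E * Kk x L N (bad p (G n)) w +
          2 * (n + 1) * N * S3.ind (¬ G (n + 1) w) := by
      intro w
      have z0 : 0 ≤ Kk z L N (bad p (G n)) w :=
        sum_nonneg fun l _ => mul_nonneg (wr_nonneg l 0) ((hbm n).2.2 _)
      have x0 : 0 ≤ Kk x L N (bad p (G n)) w :=
        sum_nonneg fun l _ => mul_nonneg (wr_nonneg l 0) ((hbm n).2.2 _)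
      by_cases hw : G (n + 1) w
      · have h := Tel.core (Lg D L N) (fun l => wr z w 0 l) (fun l => wr x w 0 l)
          (fun l => Fr p (Vn z L N n) (shift (pos l) w))
          (fun l => Fr p (Vn x L N n) (shift (pos l) w))
          (fun l => bad p (G n) (shift (pos l) w)) (m := n * g) (U := n * N)
          (fun l => wr_nonneg l 0) (fun l => wr_nonneg l 0) (fun l => (hbm n).2.2 _)
          (ms_le_one L N) (hz.mass n w hw) (ms_le_one L N) (hx.mass n w hw) (mul_nonneg n0 g0)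
          hE' hE hY hτ ((vx n).2 (allOpen D)).2.1 ((vx n).2 (allOpen D)).2.2
          (fun l => ih _) (fun l => hu _) (hG n w hw).2
        have h2 := (hG n w hw).1
        have h3 := mul_le_mul_of_nonneg_right ng hτ
        have h4 := mul_nonneg hN hτ
        rw [ind_neg (not_not.2 hw)]
        simp only [Kk]
        nlinarith
      · have a1 := (kz2 _ (n * N) (mul_nonneg n0 hN) (fun ω => ((vz n).2 ω).2) w).2
        have a2 := (kx2 _ (n * N) (mul_nonneg n0 hN) (fun ω => ((vx n).2 ω).2) w).1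
        have a3 := (tz2 w).2
        have a4 := (tx2 w).1
        have a5 : 0 ≤ (E' + (Y + 4 * E + 2 * (n + 1) * N)) * τ := by positivity
        have a6 := mul_nonneg (add_nonneg hE' hE) z0
        have a7 := mul_nonneg hE x0
        rw [ind_pos hw]
        nlinarith
    have I := fun {u : Cfg D → ℝ} (hu : BM u) => Tel.fr_int hV h0 h1 hu η
    have i1 := I tz1
    have i2 := I (kz1 _ (hfr _ (vz n).1))
    have i3 := I tx1
    have i4 := I (kx1 _ (hfr _ (vx n).1))
    have j1 := I (kz1 _ (hbm n).2.1)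
    have j2 := I (kx1 _ (hbm n).2.1)
    have j3 := I (hbm (n + 1)).1
    have hint := integral_mono ((i1.add i2).sub (i3.add i4))
      ((((integrable_const _).add (j1.const_mul _)).add (j2.const_mul _)).add (j3.const_mul _))
      fun ω => key (ovw (Past D) η ω)
    rw [integral_sub' (i1.add i2) (i3.add i4), integral_add' i1 i2, integral_add' i3 i4,
      integral_add' (((integrable_const _).add (j1.const_mul _)).add (j2.const_mul _))
        (j3.const_mul _),
      integral_add' ((integrable_const _).add (j1.const_mul _)) (j2.const_mul _),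
      integral_add' (integrable_const _) (j1.const_mul _), integral_const_mul, integral_const_mul,
      integral_const_mul, integral_const, probReal_univ, one_smul] at hint
    have b1 := mul_le_mul_of_nonneg_left (Tel.fr_bad hV hF h0 h1 hz n η) (add_nonneg hE' hE)
    have b2 := mul_le_mul_of_nonneg_left (Tel.fr_bad hV hF h0 h1 hx.toInh n η) hE
    have b3 := (hbm (n + 1)).2.2 η
    have b4 := mul_le_mul_of_nonneg_right har (add_nonneg hτ b3)
    have b5 := mul_nonneg hY b3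
    have b6 := mul_nonneg hE b3
    rw [Tel.fr_succ hV hF h0 h1, Tel.fr_succ hV hF h0 h1]
    change Fr p (tt z L N) η + Fr p (Kk z L N (Fr p (Vn z L N n))) η -
      (Fr p (tt x L N) η + Fr p (Kk x L N (Fr p (Vn x L N n))) η) ≤ _ +
      (E' + E) * Fr p (Kk z L N (bad p (G n))) η + E * Fr p (Kk x L N (bad p (G n))) η +
      2 * (n + 1) * N * bad p (G (n + 1)) η at hint
    push_cast
    nlinarith

end Pool.Agent.MP_8c549f_pr.L2

end
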