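import Mathlib.Analysis.SpecialFunctions.Exp
import Pool.Agent.MP_8c549f_pr.L2.Basic

/-! PROJECT L2, row Th: sums of the localising weight. -/

noncomputable section

namespace Pool.Agent.MP_8c549f_pr.L2

open MeasureTheory Finset Real Classical S3

namespace Th

variable {D : ℕ}

theorem ball_eq (x : V D) (R : ℕ) :
    ball x R = box (fun j => x j - R) fun _ => 2 * R + 1 := by
  ext z
  simp only [ball, box, Fintype.mem_piFinset, mem_Icc, mem_Ico]
  refine forall_congr' fun j => ?_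
  push_cast
  omega

theorem ser (d : ℕ) : ∃ S : ℝ, 0 ≤ S ∧ ∀ J : ℕ,
    ∑ j ∈ range J, exp (-(j : ℝ)) * ((j : ℝ) + 1) ^ d ≤ S := by
  have h1 := (summable_nat_add_iff 1).2 (Real.summable_pow_mul_exp_neg_nat_mul d one_pos)
  have h2 : Summable fun j : ℕ => exp (-(j : ℝ)) * ((j : ℝ) + 1) ^ d := by
    refine (h1.mul_left (exp 1)).congr fun j => ?_
    push_cast
    rw [mul_left_comm, ← exp_add, mul_comm]
    congr 2
    ring
  have h3 : ∀ j : ℕ, 0 ≤ exp (-(j : ℝ)) * ((j : ℝ) + 1) ^ d := fun j => by positivity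
  exact ⟨_, tsum_nonneg h3, fun J => h2.sum_le_tsum _ fun j _ => h3 j⟩

theorem main (hC : CNTStmt) {S : ℝ}
    (hS : ∀ J : ℕ, ∑ j ∈ range J, exp (-(j : ℝ)) * ((j : ℝ) + 1) ^ (D + 1) ≤ S)
    (ξ : ℝ) (x : V D) (T : Finset (V D)) (h0 : 0 < ξ) (h1 : ξ ≤ 1) (m : ℕ) (δ : ℝ)
    (w : V D → ℝ) (hm : 1 ≤ m) (hδ : 0 ≤ δ) (hξ : ξ * m ≤ 1) (hw : ∀ z, 1 ≤ w z)
    (hs : Seg w m δ) :
    ∑ z ∈ T, et ξ x z * (w z - 1) ≤ 2 * 6 ^ (D + 1) * S * δ / ξ ^ (D + 1) := by
  obtain ⟨M, hM1, hM2⟩ : ∃ M : ℕ, 1 / ξ ≤ M ∧ (M : ℝ) ≤ 2 / ξ := by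
    refine ⟨⌈1 / ξ⌉₊, Nat.le_ceil _, ?_⟩
    have a1 : (⌈1 / ξ⌉₊ : ℝ) < 1 / ξ + 1 := Nat.ceil_lt_add_one (by positivity)
    have a2 : 1 ≤ 1 / ξ := by rw [le_div_iff₀ h0]; linarith
    have a3 : 2 / ξ = 1 / ξ + 1 / ξ := by ring
    linarith
  have hM3 : 1 ≤ ξ * M := by rw [div_le_iff₀ h0] at hM1; linarith
  have hmM : m ≤ M := by
    have : (m : ℝ) ≤ M := le_trans (by rw [le_div_iff₀ h0]; linarith) hM1
    exact_mod_cast this
  have hM0 : 0 < M := by omega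
  set J := T.sup (fun z => nrm (z - x)) + 1 with hJ
  have hmap : ∀ z ∈ T, nrm (z - x) / M ∈ range J := fun z hz => by
    have := le_sup (f := fun z => nrm (z - x)) hz
    have h2 := Nat.div_le_self (nrm (z - x)) M
    rw [mem_range]; omega
  rw [← sum_fiberwise_of_maps_to hmap]
  have key : ∀ j ∈ range J, ∑ z ∈ T with nrm (z - x) / M = j, et ξ x z * (w z - 1) ≤
      (2 * 6 ^ (D + 1) * δ / ξ ^ (D + 1)) * (exp (-(j : ℝ)) * ((j : ℝ) + 1) ^ (D + 1)) := by
    intro j _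
    have b1 : ∑ z ∈ T with nrm (z - x) / M = j, et ξ x z * (w z - 1) ≤
        ∑ z ∈ T with nrm (z - x) / M = j, exp (-(j : ℝ)) * (w z - 1) := by
      refine sum_le_sum fun z hz => mul_le_mul_of_nonneg_right ?_ (by linarith [hw z])
      have c1 : j * M ≤ nrm (z - x) := by
        rw [← (mem_filter.1 hz).2]; exact Nat.div_mul_le_self _ _
      have c2 : (j : ℝ) * M ≤ nrm (z - x) := by exact_mod_cast c1
      have c3 : (0 : ℝ) ≤ j := Nat.cast_nonneg j
      refine exp_le_exp.2 (neg_le_neg ?_)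
      nlinarith [mul_le_mul_of_nonneg_left c2 h0.le, mul_le_mul_of_nonneg_left hM3 c3]
    have b2 : ∑ z ∈ T with nrm (z - x) / M = j, (w z - 1) ≤
        ∑ z ∈ ball x ((j + 1) * M), (w z - 1) := by
      refine sum_le_sum_of_subset_of_nonneg (fun z hz => mem_ball.2 ?_) fun z _ _ => by
        linarith [hw z]
      rw [← (mem_filter.1 hz).2]
      have := Nat.lt_div_mul_add (a := nrm (z - x)) hM0
      rw [add_mul, one_mul]; omega
    have b3 : ∑ z ∈ ball x ((j + 1) * M), (w z - 1) ≤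
        2 * δ * ((2 * ((j + 1) * M) + 1 : ℕ) : ℝ) ^ (D + 1) := by
      have := (hC D m δ w hm hδ hw hs).2 (fun i => x i - ((j + 1) * M : ℕ))
        (fun _ => 2 * ((j + 1) * M) + 1) (by
          have : M ≤ (j + 1) * M := Nat.le_mul_of_pos_left _ (Nat.succ_pos j)
          show m ≤ 2 * ((j + 1) * M) + 1
          omega)
      rw [← ball_eq, card_ball] at this
      exact_mod_cast this
    have b4 : ((2 * ((j + 1) * M) + 1 : ℕ) : ℝ) ≤ 6 / ξ * ((j : ℝ) + 1) := by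
      have c3 : (0 : ℝ) ≤ j := Nat.cast_nonneg j
      have c4 : (1 : ℝ) ≤ M := by exact_mod_cast hM0
      have c5 : 6 / ξ = 3 * (2 / ξ) := by ring
      push_cast
      rw [c5]
      nlinarith [mul_le_mul_of_nonneg_left hM2 (show (0 : ℝ) ≤ j + 1 by linarith),
        mul_le_mul_of_nonneg_left c4 c3]
    have b5 := pow_le_pow_left₀ (Nat.cast_nonneg _) b4 (D + 1)
    rw [← mul_sum] at b1
    refine b1.trans ?_
    have b6 : ∑ z ∈ T with nrm (z - x) / M = j, (w z - 1) ≤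
        2 * δ * (6 / ξ * ((j : ℝ) + 1)) ^ (D + 1) :=
      b2.trans (b3.trans (mul_le_mul_of_nonneg_left b5 (by positivity)))
    refine (mul_le_mul_of_nonneg_left b6 (exp_pos _).le).trans (le_of_eq ?_)
    rw [mul_pow, div_pow]
    ring
  refine (sum_le_sum key).trans ?_
  rw [← mul_sum]
  refine (mul_le_mul_of_nonneg_left (hS J) (by positivity)).trans (le_of_eq ?_)
  ring

end Th

theorem th (hC : CNTStmt) : THStmt := by
  intro D
  obtain ⟨S, hS0, hS⟩ := Th.ser (D + 1)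
  have hp : 0 ≤ 2 * 6 ^ (D + 1) * S := by positivity
  refine ⟨1 + 2 * 6 ^ (D + 1) * S, by linarith, fun ξ x T h0 h1 => ⟨?_, ?_⟩⟩
  · have := Th.main hC hS ξ x T h0 h1 1 1 (fun _ => 2) le_rfl zero_le_one (by simpa using h1)
      (fun _ => by norm_num) (fun z i => by norm_num)
    have e : ∀ z, et ξ x z * ((2 : ℝ) - 1) = et ξ x z := fun z => by ring
    simp only [e, mul_one] at this
    refine this.trans ?_
    gcongr
    linarith
  · intro m δ w hm hδ hξ hw hs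
    refine (Th.main hC hS ξ x T h0 h1 m δ w hm hδ hξ hw hs).trans ?_
    gcongr
    linarith

end Pool.Agent.MP_8c549f_pr.L2

end
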