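import Pool.Agent.MP_8c549f_pr.L2.SpecB

/-! PROJECT L2: the three point inequality for the weight of one list. -/

noncomputable section

namespace Pool.Agent.MP_8c549f_pr.L2

open MeasureTheory Finset Real Classical S3

namespace Three

theorem exp_le {u : ℝ} (hu : |u| ≤ 2) : exp u ≤ 1 + u + 2 * u ^ 2 := by
  have h1 : |u / 2| ≤ 1 := by rw [abs_div, abs_two]; linarith
  have h2 := (abs_le.1 (Real.abs_exp_sub_one_sub_id_le h1)).2
  have h3 : exp u = exp (u / 2) * exp (u / 2) := by rw [← exp_add]; ring_nf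
  have h4 : exp (u / 2) ≤ 1 + u / 2 + (u / 2) ^ 2 := by linarith
  have h5 := exp_pos (u / 2)
  have h6 : exp u ≤ (1 + u / 2 + (u / 2) ^ 2) * (1 + u / 2 + (u / 2) ^ 2) := by
    rw [h3]; exact mul_le_mul h4 h4 h5.le (h5.le.trans h4)
  obtain ⟨h7, h8⟩ := abs_le.1 hu
  have h9 : u ^ 2 ≤ 4 := by nlinarith
  have h10 : u ^ 2 * u ≤ u ^ 2 * 2 := mul_le_mul_of_nonneg_left h8 (sq_nonneg u)
  have h11 : u ^ 2 * u ^ 2 ≤ u ^ 2 * 4 := mul_le_mul_of_nonneg_left h9 (sq_nonneg u)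
  linarith [sq_nonneg u]

theorem lin {w₀ w a M n : ℝ} (h0 : 0 ≤ w₀) (ha : 0 < a) (han : a * n ≤ 1) (hn : n ≤ n ^ 2)
    (hM : |M| ≤ 2 * n) (hl : w₀ * exp (a * M - a ^ 2 * n) ≤ w) (hu : w ≤ w₀ * exp (a * M)) :
    |w - w₀ * (1 + a * M)| ≤ 8 * a ^ 2 * n ^ 2 * w₀ := by
  have h1 : |a * M| ≤ 2 * (a * n) := by
    rw [abs_mul, abs_of_pos ha]; nlinarith
  have h2 := exp_le (u := a * M) (by linarith)
  have h3 : (a * M) ^ 2 ≤ (2 * (a * n)) ^ 2 := by
    rw [← sq_abs (a * M)]; exact pow_le_pow_left₀ (abs_nonneg _) h1 2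
  have h4 := add_one_le_exp (a * M - a ^ 2 * n)
  have h5 : w₀ * exp (a * M) ≤ w₀ * (1 + a * M + 8 * a ^ 2 * n ^ 2) :=
    mul_le_mul_of_nonneg_left (by linarith) h0
  have h6 : a ^ 2 * n ≤ a ^ 2 * n ^ 2 := mul_le_mul_of_nonneg_left hn (sq_nonneg a)
  have h7 : 0 ≤ a ^ 2 * n ^ 2 := by positivity
  have h8 : w₀ * (1 + a * M - 8 * a ^ 2 * n ^ 2) ≤ w₀ * exp (a * M - a ^ 2 * n) :=
    mul_le_mul_of_nonneg_left (by linarith) h0
  rw [abs_le]
  constructor <;> linarith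

theorem one {w w' u b : ℝ} (h0 : 0 ≤ w') (hu : u ≤ b) (h : w' ≤ w * exp u) (hw : 0 ≤ w) :
    w' - w ≤ b * w' := by
  have h1 : w' * exp (-b) ≤ w := by
    have h2 : w' ≤ w * exp b := h.trans (mul_le_mul_of_nonneg_left (exp_le_exp.2 hu) hw)
    have h3 := mul_le_mul_of_nonneg_right h2 (exp_pos (-b)).le
    rwa [mul_assoc, ← exp_add, add_neg_cancel, exp_zero, mul_one] at h3
  have h4 : w' * (-b + 1) ≤ w' * exp (-b) := mul_le_mul_of_nonneg_left (add_one_le_exp _) h0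
  linarith

end Three

theorem three (hS : STEPStmt) : THREEStmt := by
  intro D x s ζ ω l y hs hsz hz
  have hζ : 0 < ζ := hs.trans_le hsz
  have as : |s| ≤ 1 := by rw [abs_of_pos hs]; linarith
  have az : |ζ| ≤ 1 := by rw [abs_of_pos hζ]; exact hz
  obtain ⟨l1, u1, hM⟩ := hS D x s ω l y as
  obtain ⟨l2, u2, -⟩ := hS D x ζ ω l y az
  obtain ⟨-, u3, hM'⟩ := hS D (x + s) (-s) ω l y (by rwa [abs_neg])
  rw [add_neg_cancel_right] at u3
  have p0 : 0 ≤ wr x ω y l := wr_nonneg _ _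
  have p1 : 0 ≤ wr (x + s) ω y l := wr_nonneg _ _
  have p2 : 0 ≤ wr (x + ζ) ω y l := wr_nonneg _ _
  have hn : (l.length : ℝ) ≤ (l.length : ℝ) ^ 2 := by exact_mod_cast Nat.le_self_pow two_ne_zero _
  have hn0 : (0 : ℝ) ≤ l.length := Nat.cast_nonneg _
  generalize wr x ω y l = w₀ at *
  generalize wr (x + s) ω y l = w₁ at *
  generalize wr (x + ζ) ω y l = w₂ at *
  generalize Mg x ω y l = M at *
  generalize Mg (x + s) ω y l = M' at *
  generalize (l.length : ℝ) = n at *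
  have hq : 0 < s / ζ := div_pos hs hζ
  have hqz : s / ζ * ζ = s := div_mul_cancel₀ _ hζ.ne'
  have hK : 0 ≤ s * ζ * n ^ 2 := by positivity
  rcases le_or_gt (ζ * n) 1 with h | h
  · have a1 := Three.lin p0 hs ((mul_le_mul_of_nonneg_right hsz hn0).trans h) hn hM l1 u1
    have a2 := Three.lin p0 hζ h hn hM l2 u2
    have e : w₁ - ((1 - s / ζ) * w₀ + s / ζ * w₂) =
        (w₁ - w₀ * (1 + s * M)) - s / ζ * (w₂ - w₀ * (1 + ζ * M)) := by
      field_simp; ring
    have a3 : |s / ζ * (w₂ - w₀ * (1 + ζ * M))| ≤ 8 * (s * ζ * n ^ 2) * w₀ := by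
      rw [abs_mul, abs_of_pos hq]
      refine (mul_le_mul_of_nonneg_left a2 hq.le).trans (le_of_eq ?_)
      field_simp
    have a4 : 8 * s ^ 2 * n ^ 2 * w₀ ≤ 8 * (s * ζ * n ^ 2) * w₀ := by
      have : s ^ 2 * n ^ 2 ≤ s * ζ * n ^ 2 :=
        mul_le_mul_of_nonneg_right
          (by have := mul_le_mul_of_nonneg_left hsz hs.le; linarith) (sq_nonneg n)
      have := mul_le_mul_of_nonneg_right this p0
      linarith
    rw [e]
    refine (abs_sub _ _).trans ?_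
    have := mul_nonneg hK p1
    have := mul_nonneg hK p2
    linarith
  · obtain ⟨m1, m2⟩ := abs_le.1 hM
    obtain ⟨m3, m4⟩ := abs_le.1 hM'
    have b1 := Three.one (b := 2 * s * n) p1
      (by have := mul_le_mul_of_nonneg_left m2 hs.le; linarith) u1 p0
    have b2 := Three.one (b := 2 * s * n) p0
      (by have := mul_le_mul_of_nonneg_left m3 hs.le; linarith) u3 p1
    have c1 : s * n ≤ s * ζ * n ^ 2 := by
      have := mul_le_mul_of_nonneg_left h.le (mul_nonneg hs.le hn0)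
      linarith
    have c2 : s / ζ ≤ s * ζ * n ^ 2 := by
      rw [div_le_iff₀ hζ]
      have : 1 ≤ (ζ * n) ^ 2 := one_le_pow₀ h.le
      have := mul_le_mul_of_nonneg_left this hs.le
      linarith
    have d0 := mul_le_mul_of_nonneg_right c1 p0
    have d1 := mul_le_mul_of_nonneg_right c1 p1
    have e0 := mul_le_mul_of_nonneg_right c2 p0
    have e2 := mul_le_mul_of_nonneg_right c2 p2
    have f0 := mul_nonneg hK p0
    have f1 := mul_nonneg hK p1
    have f2 := mul_nonneg hK p2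
    have g0 := mul_nonneg hq.le p0
    have g2 := mul_nonneg hq.le p2
    rw [abs_le]
    constructor <;> linarith

end Pool.Agent.MP_8c549f_pr.L2

end
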