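import Pool.Agent.MP_8c549f_pr.L2.Basic

/-! PROJECT L2, row Up: a big cluster at scale `t` is big at scale `t + 1`. -/

noncomputable section

namespace Pool.Agent.MP_8c549f_pr.L2

open MeasureTheory Finset Real Classical S3

namespace Up

theorem ray_ray {D : ℕ} (z : V D) (a b : ℕ) : ray (ray z a) b = ray z (a + b) := by
  simp only [ray, add_assoc, ← Pi.single_add, Nat.cast_add]

theorem chain (hU : LUStmt) (hE : LEStmt) {D : ℕ} (hD : 1 ≤ D) (ω : Cfg D) (z : V D) (t : ℕ)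
    (ht : 2 ≤ t) (hG : Gd ω z (17 * t) t) (hB : Big ω z t) (k : ℕ) (hk : k ≤ 9) :
    ∃ a, k * t ≤ a ∧ a ≤ (k + 1) * t ∧ Big ω (ray z a) t ∧ Conn ω z (ray z a) := by
  induction k with
  | zero =>
    have e : ray z 0 = z := by simp [ray]
    exact ⟨0, by omega, by omega, by rwa [e], by rw [e]; exact Conn.refl ω z⟩
  | succ k ih =>
    obtain ⟨a, h1, h2, h3, h4⟩ := ih (by omega)
    have hkt : (k + 1) * t ≤ 9 * t := Nat.mul_le_mul_right t hk
    have e1 : (k + 1) * t = k * t + t := by ring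
    have e2 : (k + 1 + 1) * t = k * t + 2 * t := by ring
    obtain ⟨r, hr, hb⟩ := hE D hD ω (ray z ((k + 1) * t)) t
      (hG.mono (by rw [nrm_ray]; omega))
    rw [ray_ray] at hb
    obtain ⟨b, hb'⟩ : ∃ b, (k + 1) * t + r = a + b := ⟨(k + 1) * t + r - a, by omega⟩
    refine ⟨(k + 1) * t + r, by omega, by omega, hb, h4.trans ?_⟩
    refine (hU D hD ω _ _ t ht h3 hb ?_ (hG.mono (by rw [nrm_ray]; omega))).conn
    rw [hb', ← ray_ray, nrm_ray]
    omega

end Up

theorem upS (hU : LUStmt) (hE : LEStmt) : UPStmt := by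
  intro D hD ω z t ht hG hB
  obtain ⟨a, h1, -, -, h4⟩ := Up.chain hU hE hD ω z t ht hG hB 9 le_rfl
  exact ⟨_, h4, by rw [nrm_ray]; omega⟩

end Pool.Agent.MP_8c549f_pr.L2

end
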