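import Mathlib.MeasureTheory.Integral.Prod
import Pool.Agent.MP_8c549f_pr.L2.SpecB

/-! PROJECT L2, row Vb: measurability and crude bounds for the annealed chain of legs. -/

noncomputable section

namespace Pool.Agent.MP_8c549f_pr.L2

open MeasureTheory Finset Real Classical S3

namespace Vb

variable {D : ℕ}

theorem meas_ovw2 (S : Set (Edge D)) : Measurable fun q : Cfg D × Cfg D => ovw S q.1 q.2 := by
  refine measurable_pi_lambda _ fun e => ?_
  unfold ovw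
  split_ifs
  · exact (measurable_pi_apply e).comp measurable_fst
  · exact (measurable_pi_apply e).comp measurable_snd

theorem meas_ovw (S : Set (Edge D)) (η : Cfg D) : Measurable (ovw S η) :=
  (meas_ovw2 S).comp (measurable_const.prodMk measurable_id)

theorem integ {p : ℝ} (h0 : 0 ≤ p) (h1 : p ≤ 1) {u : Cfg D → ℝ} {f : Cfg D → Cfg D} (hu : BM u)
    (hf : Measurable f) : Integrable (fun ω => u (f ω)) (perc D p) := by
  have := perc_prob D h0 h1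
  obtain ⟨m, C, hC⟩ := hu
  exact Integrable.of_bound (m.comp hf).aestronglyMeasurable C (ae_of_all _ fun ω => hC _)

theorem Fr_le {p : ℝ} (h0 : 0 ≤ p) (h1 : p ≤ 1) {u : Cfg D → ℝ} (hu : BM u) {c : ℝ}
    (h : ∀ ω, u ω ≤ c) (η : Cfg D) : Fr p u η ≤ c := by
  have := perc_prob D h0 h1
  have := integral_mono (integ h0 h1 hu (meas_ovw (Past D) η)) (integrable_const c) fun ω => h _
  simpa [Fr] using this

theorem Fr_nonneg {p : ℝ} {u : Cfg D → ℝ} (h : ∀ ω, 0 ≤ u ω) (η : Cfg D) : 0 ≤ Fr p u η :=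
  integral_nonneg fun _ => h _

theorem BM_Fr {p : ℝ} (h0 : 0 ≤ p) (h1 : p ≤ 1) {u : Cfg D → ℝ} (hu : BM u) : BM (Fr p u) := by
  have := perc_prob D h0 h1
  obtain ⟨m, C, hC⟩ := hu
  refine ⟨?_, C, fun η => ?_⟩
  · exact (StronglyMeasurable.integral_prod_right (ν := perc D p)
      (f := fun η ω => u (ovw (Past D) η ω))
      (m.comp (meas_ovw2 (Past D))).stronglyMeasurable).measurable
  · simpa [Fr] using norm_integral_le_of_norm_le_const (μ := perc D p)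
      (f := fun ω => u (ovw (Past D) η ω)) (C := C) (ae_of_all _ fun ω => hC _)

theorem BM_ind {G : Cfg D → Prop} (hG : MeasurableSet {ω | G ω}) :
    BM fun ω => S3.ind (¬ G ω) := by
  refine ⟨?_, 1, fun ω => ?_⟩
  · unfold S3.ind
    exact Measurable.ite hG.compl measurable_const measurable_const
  · exact abs_le.2 ⟨(neg_nonpos.2 zero_le_one).trans (ind_nonneg _), ind_le_one _⟩

theorem sum_le {lam : ℝ} {L N : ℕ} {ω : Cfg D} {g : List (Step D) → ℝ} {c : ℝ} (hc : 0 ≤ c)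
    (h : ∀ l ∈ Lg D L N, g l ≤ c) : ∑ l ∈ Lg D L N, wr lam ω 0 l * g l ≤ c := by
  calc _ ≤ ∑ l ∈ Lg D L N, wr lam ω 0 l * c :=
        sum_le_sum fun l hl => mul_le_mul_of_nonneg_left (h l hl) (wr_nonneg l 0)
    _ = ms lam L N ω * c := by rw [ms, sum_mul]
    _ ≤ c := mul_le_of_le_one_left hc (ms_le_one L N)

theorem tt_bd (lam : ℝ) (L N : ℕ) (ω : Cfg D) : 0 ≤ tt lam L N ω ∧ tt lam L N ω ≤ N :=
  ⟨sum_nonneg fun l _ => mul_nonneg (wr_nonneg l 0) (Nat.cast_nonneg _),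
    sum_le (Nat.cast_nonneg _) fun _ hl => Nat.cast_le.2 (mem_Lg.1 hl).1⟩

theorem BM_tt (lam : ℝ) (L N : ℕ) : BM (tt (D := D) lam L N) :=
  ⟨Finset.measurable_sum _ fun l _ => (measurable_wr lam 0 l).mul_const _, N, fun ω => by
    rw [abs_of_nonneg (tt_bd lam L N ω).1]; exact (tt_bd lam L N ω).2⟩

theorem BM_Kk (lam : ℝ) (L N : ℕ) {u : Cfg D → ℝ} (hu : BM u) : BM (Kk lam L N u) := by
  obtain ⟨m, C, hC⟩ := hu
  refine ⟨Finset.measurable_sum _ fun l _ =>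
    (measurable_wr lam 0 l).mul (m.comp (measurable_shift _)), C, fun ω => ?_⟩
  refine (abs_sum_le_sum_abs _ _).trans ?_
  simp only [abs_mul, abs_of_nonneg (wr_nonneg _ _)]
  exact sum_le ((abs_nonneg _).trans (hC ω)) fun _ _ => hC _

theorem Kk_bd (lam : ℝ) (L N : ℕ) {u : Cfg D → ℝ} {c : ℝ} (hc : 0 ≤ c)
    (h : ∀ ω, 0 ≤ u ω ∧ u ω ≤ c) (ω : Cfg D) : 0 ≤ Kk lam L N u ω ∧ Kk lam L N u ω ≤ c :=
  ⟨sum_nonneg fun l _ => mul_nonneg (wr_nonneg l 0) (h _).1, sum_le hc fun _ _ => (h _).2⟩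

theorem Vn_bd (lam : ℝ) (L N n : ℕ) : BM (Vn (D := D) lam L N n) ∧
    ∀ ω : Cfg D, 0 ≤ Vn lam L N n ω ∧ Vn lam L N n ω ≤ n * N := by
  induction n with
  | zero => exact ⟨⟨measurable_const, 0, fun _ => by simp [Vn]⟩, fun _ => by simp [Vn]⟩
  | succ n ih =>
    have hb : ∀ ω : Cfg D, 0 ≤ Vn lam L N (n + 1) ω ∧ Vn lam L N (n + 1) ω ≤ (n + 1 : ℕ) * N := by
      intro ω
      have h1 := tt_bd lam L N ω
      have h2 := Kk_bd lam L N (by positivity) ih.2 ω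
      simp only [Vn]
      push_cast
      constructor <;> linarith [h1.1, h1.2, h2.1, h2.2]
    refine ⟨⟨(BM_tt lam L N).1.add (BM_Kk lam L N ih.1).1, (n + 1 : ℕ) * N, fun ω => ?_⟩, hb⟩
    rw [abs_of_nonneg (hb ω).1]; exact (hb ω).2

end Vb

open Vb in
theorem vb : VBStmt := by
  intro D p h0 h1
  exact ⟨meas_ovw, fun u f hu hf => integ h0 h1 hu hf, fun u hu => BM_Fr h0 h1 hu,
    fun G hG => ⟨BM_ind hG, BM_Fr h0 h1 (BM_ind hG), Fr_nonneg fun ω => ind_nonneg _⟩,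
    fun lam L N => ⟨⟨BM_tt lam L N, tt_bd lam L N⟩, fun u hu => BM_Kk lam L N hu,
      fun u c hc h => Kk_bd lam L N hc h, fun n => ⟨(Vn_bd lam L N n).1, fun ω =>
        ⟨(Vn_bd lam L N n).2 ω, Fr_nonneg (fun ω => ((Vn_bd lam L N n).2 ω).1) ω,
          Fr_le h0 h1 (Vn_bd lam L N n).1 (fun ω => ((Vn_bd lam L N n).2 ω).2) ω⟩⟩⟩⟩

end Pool.Agent.MP_8c549f_pr.L2

end
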