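import Pool.Agent.MP_8c549f_pr.L2.Basic

/-! PROJECT L2: the weak Harnack inequality. -/

set_option linter.unusedVariables false

noncomputable section

namespace Pool.Agent.MP_8c549f_pr.L2

open MeasureTheory Finset Real Classical S3

namespace Wh

variable {D : ℕ}

/-- distance to the flat box -/
def ds (x : V D) (K : ℕ) (y : V D) : ℕ := max (y 0 - x 0).natAbs (nrm (y - x) - K)

def rad (D k K : ℕ) (j : Fin (D + 1)) : ℕ := if j = 0 then k else K + k

theorem bx_eq (x : V D) (k K : ℕ) :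
    bx x k K = box (fun j => x j - rad D k K j) fun j => 2 * rad D k K j + 1 := by
  unfold bx box rad
  congr 1
  funext j
  ext t
  by_cases e : j = 0 <;> simp only [e, if_true, if_false, mem_Icc, mem_Ico] <;> omega

theorem card_bx (x : V D) (k K : ℕ) : (bx x k K).card = ∏ j, (2 * rad D k K j + 1) := by
  rw [bx_eq, box, Fintype.card_piFinset]
  refine prod_congr rfl fun j _ => ?_
  rw [Int.card_Ico]
  omega

theorem mem_bx {x y : V D} {k K : ℕ} : y ∈ bx x k K ↔ ds x K y ≤ k := by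
  rw [ds, max_le_iff, tsub_le_iff_left, nrm_le_iff, bx, Fintype.mem_piFinset]
  constructor
  · intro h
    have h0 := h 0
    rw [if_pos rfl, mem_Icc] at h0
    refine ⟨by omega, fun j => ?_⟩
    have hj := h j
    rw [Pi.sub_apply, abs_le]
    split_ifs at hj <;> rw [mem_Icc] at hj <;> omega
  · rintro ⟨h0, h⟩ j
    have hj := h j
    rw [Pi.sub_apply, abs_le] at hj
    split_ifs with e
    · subst e
      rw [mem_Icc]
      omega
    · rw [mem_Icc]
      omega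

theorem ds_lip (x : V D) (K : ℕ) (y y' : V D) : ds x K y' ≤ ds x K y + nrm (y' - y) := by
  have h1 := nrm_tri y' y x
  have h2 := abs_le.1 (abs_le_nrm (y' - y) 0)
  rw [Pi.sub_apply] at h2
  unfold ds
  omega

theorem ds_step (x : V D) (K : ℕ) (y : V D) (s : Step D) :
    ds x K (y + vec s) ≤ ds x K y + 1 ∧ ds x K y ≤ ds x K (y + vec s) + 1 := by
  have h1 := ds_lip x K y (y + vec s)
  have h2 := ds_lip x K (y + vec s) y
  rw [nrm_sub_comm] at h2
  rw [add_sub_cancel_left, nrm_vec] at h1 h2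
  exact ⟨h1, h2⟩

theorem nrm_le_ds (x : V D) (K : ℕ) (y : V D) : nrm y ≤ nrm x + K + ds x K y := by
  have h1 := nrm_add_le (y - x) x
  rw [sub_add_cancel] at h1
  unfold ds
  omega

theorem lev_le {x y : V D} {k K : ℕ} (h : ds x K y ≤ k) :
    (y 0 : ℝ) ≤ x 0 + k ∧ (x 0 : ℝ) ≤ y 0 + k := by
  have h1 : y 0 ≤ x 0 + k ∧ x 0 ≤ y 0 + k := by
    unfold ds at h
    omega
  exact ⟨by exact_mod_cast h1.1, by exact_mod_cast h1.2⟩

theorem card3 (x : V D) (l K : ℕ) :
    ((bx x (3 * l) K).card : ℝ) ≤ 3 ^ (D + 1) * (bx x l K).card := by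
  have h : (bx x (3 * l) K).card ≤ 3 ^ (D + 1) * (bx x l K).card := by
    rw [card_bx, card_bx, show 3 ^ (D + 1) = ∏ _j : Fin (D + 1), 3 by simp, ← prod_mul_distrib]
    refine prod_le_prod' fun j _ => ?_
    unfold rad
    split_ifs <;> omega
  exact_mod_cast h

theorem rad_le (κ : ℕ) {l : ℕ} (hl : 1 ≤ l) (j : Fin (D + 1)) :
    l ≤ 2 * rad D l (κ * l) j + 1 ∧ 2 * rad D l (κ * l) j + 1 ≤ (2 * κ + 3) * l := by
  rw [show (2 * κ + 3) * l = 2 * (κ * l) + 3 * l by ring]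
  unfold rad
  split_ifs <;> omega

theorem card1 (x : V D) (κ : ℕ) {l : ℕ} (hl : 1 ≤ l) :
    ((bx x l (κ * l)).card : ℝ) ≤ (2 * κ + 3) ^ (D + 1) * (l : ℝ) ^ (D + 1) := by
  have h : (bx x l (κ * l)).card ≤ ((2 * κ + 3) * l) ^ (D + 1) := by
    rw [card_bx]
    simpa using prod_le_pow_card univ _ _ fun j _ => (rad_le (D := D) κ hl j).2
  rw [← mul_pow]
  exact_mod_cast h

/-- the cut-off function -/
def cut (x : V D) (K l : ℕ) (y : V D) : ℝ := min 1 (((3 * l - ds x K y : ℕ) : ℝ) / l)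

theorem cut_step (x : V D) (K : ℕ) {l : ℕ} (hl : (0 : ℝ) < l) (y : V D) (s : Step D) :
    (cut x K l (y + vec s) - cut x K l y) ^ 2 ≤ 1 / (l : ℝ) ^ 2 := by
  obtain ⟨h1, h2⟩ := ds_step x K y s
  have a1 : ((3 * l - ds x K (y + vec s) : ℕ) : ℝ) ≤ (3 * l - ds x K y : ℕ) + 1 := by
    exact_mod_cast (by omega : 3 * l - ds x K (y + vec s) ≤ 3 * l - ds x K y + 1)
  have a2 : ((3 * l - ds x K y : ℕ) : ℝ) ≤ (3 * l - ds x K (y + vec s) : ℕ) + 1 := by
    exact_mod_cast (by omega : 3 * l - ds x K y ≤ 3 * l - ds x K (y + vec s) + 1)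
  rw [← one_div_pow, ← sq_abs]
  refine pow_le_pow_left₀ (abs_nonneg _) ((abs_min_sub_min_le_max _ _ _ _).trans ?_) 2
  rw [sub_self, abs_zero, ← sub_div, abs_div, abs_of_pos hl]
  refine max_le (by positivity) (div_le_div_of_nonneg_right (abs_le.2 ⟨?_, ?_⟩) hl.le) <;> linarith

theorem cut_ne {x : V D} {K l : ℕ} {y : V D} (h : cut x K l y ≠ 0) : ds x K y + 1 ≤ 3 * l := by
  by_contra c
  exact h (by rw [cut, show 3 * l - ds x K y = 0 by omega]; simp)

theorem cut_one {x : V D} {K l : ℕ} (hl : (0 : ℝ) < l) {y : V D} (h : ds x K y ≤ 2 * l) :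
    cut x K l y = 1 := by
  refine min_eq_left ((one_le_div hl).2 ?_)
  exact_mod_cast (by omega : l ≤ 3 * l - ds x K y)

variable {ω : Cfg D} {R m h l : ℕ} {δ lam : ℝ} {rep : V D → V D} {w : V D → ℝ}

theorem en_cut (hs : Sc l m lam) (x : V D) (K : ℕ) : En lam ω (bx x (3 * l) K) (cut x K l) ≤
    (2 * D + 4) * exp 24 * 3 ^ (D + 1) * exp (2 * lam * (x 0 : ℝ)) * (bx x l K).card /
      (l : ℝ) ^ 2 := by
  have hl := hs.lpos
  have h0 := hs.pos
  have h1 : ∀ y ∈ bx x (3 * l) K, ∑ s, cnd lam ω y s * (cut x K l (y + vec s) - cut x K l y) ^ 2 ≤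
      (2 * D + 4) * (exp 24 * exp (2 * lam * (x 0 : ℝ))) * (1 / (l : ℝ) ^ 2) := fun y hy => by
    refine (sum_le_sum fun s _ => mul_le_mul_of_nonneg_left (cut_step x K hl y s)
      (cnd_nonneg y s)).trans ?_
    rw [← sum_mul, sum_cnd]
    refine mul_le_mul_of_nonneg_right ((pim_le h0.le (by linarith [hs.le_quarter]) y).trans
      (mul_le_mul_of_nonneg_left ?_ (by positivity))) (by positivity)
    rw [← exp_add, exp_le_exp]
    have := (lev_le (mem_bx.1 hy)).1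
    push_cast at this
    nlinarith [hs.mul_le]
  rw [En_eq]
  refine (sum_le_card_nsmul _ _ _ h1).trans ?_
  rw [nsmul_eq_mul]
  refine (mul_le_mul_of_nonneg_right (card3 x l K) (by positivity)).trans_eq ?_
  ring

/-- the oscillation of the logarithm of a positive supersolution -/
theorem osc (hL : LCStmt) (hP : PLStmt) (hG : Geo ω R m h δ rep w) (hs : Sc l m lam) (κ : ℕ)
    (x : V D) (hx : nrm x + (κ + 4) * l ≤ R) (G : V D → ℝ) (h0 : ∀ y, 0 < G y)
    (h1 : ∀ y ∈ bx x (3 * l) (κ * l), Pf lam ω G y ≤ G y) :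
    ∑ z ∈ bx x l (κ * l), ∑ y ∈ bx x l (κ * l), (log (G (rep z)) - log (G (rep y))) ^ 2 ≤
      4 * (D + 1) * (2 * κ + 3) ^ 2 * ((D + 2) * ((2 * D + 4) * exp 24 * 3 ^ (D + 1)) * exp 8) *
        ((bx x l (κ * l)).card : ℝ) ^ 2 := by
  have hl := hs.lpos
  have hl' := hs.l16
  have hm := hs.m16
  have hh := hG.hm
  have hp := hs.pos
  rw [add_mul] at hx
  have a1 := (hL D lam ω G (cut x (κ * l) l) (bx x (3 * l) (κ * l)) (bx x (2 * l - 1) (κ * l)) h0
    (fun y hy => ⟨mem_bx.2 (by have := cut_ne hy; omega), fun s => mem_bx.2 (by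
      have := cut_ne hy; have := (ds_step x (κ * l) y s).1; omega)⟩)
    (fun y hy => h1 y (mem_bx.2 (by have := cut_ne hy; omega)))
    (fun y hy => mem_bx.2 (by have := mem_bx.1 hy; omega))
    (fun y hy => ⟨cut_one hl (by have := mem_bx.1 hy; omega), fun s => cut_one hl (by
      have := mem_bx.1 hy; have := (ds_step x (κ * l) y s).1; omega)⟩)).trans
    (en_cut hs x (κ * l))
  have a2 := (hG.cmp lam hp.le (by linarith [hs.le_quarter]) (bx x l (κ * l))
    (bx x (2 * l - 1) (κ * l)) (fun y => log (G y)) fun z hz => ⟨by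
      have := mem_bx.1 hz; have := nrm_le_ds x (κ * l) z; omega, fun y hy => mem_bx.2 (by
      have := mem_bx.1 hz; have := mem_ball.1 hy; have := ds_lip x (κ * l) z y; omega)⟩).trans
    (mul_le_mul_of_nonneg_left a1 (by positivity))
  have a3 := hP D m ((2 * κ + 3) * l) δ w (fun y => log (G (rep y)))
    (fun j => x j - rad D l (κ * l) j) _ (hG.h1.trans hh) hG.d0
    (by linarith [hG.d1]) hG.w1 hG.seg fun j =>
      ⟨le_trans (by omega) (rad_le (D := D) κ (by omega : 1 ≤ l) j).1,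
        (rad_le (D := D) κ (by omega : 1 ≤ l) j).2⟩
  rw [← bx_eq x] at a3
  have a4 : exp (2 * lam * (x 0 : ℝ)) * ∑ z ∈ bx x l (κ * l), ∑ i,
      (log (G (rep (z + Pi.single i 1))) - log (G (rep z))) ^ 2 / w z ≤
      exp 8 * ∑ z ∈ bx x l (κ * l), ∑ i, exp (2 * lam * (z 0 : ℝ)) *
        (log (G (rep (z + Pi.single i 1))) - log (G (rep z))) ^ 2 / w z := by
    simp only [mul_sum]
    refine sum_le_sum fun z hz => sum_le_sum fun i _ => ?_
    have hw := hG.w1 z
    rw [mul_div_assoc, ← mul_assoc, ← exp_add]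
    refine mul_le_mul_of_nonneg_right (exp_le_exp.2 ?_) (by positivity)
    nlinarith [hs.mul_le, (lev_le (mem_bx.1 hz)).2]
  have a5 : ∑ z ∈ bx x l (κ * l), ∑ i,
      (log (G (rep (z + Pi.single i 1))) - log (G (rep z))) ^ 2 / w z ≤
      (D + 2) * ((2 * D + 4) * exp 24 * 3 ^ (D + 1)) * exp 8 * (bx x l (κ * l)).card /
        (l : ℝ) ^ 2 := by
    refine le_of_mul_le_mul_left (a4.trans ((mul_le_mul_of_nonneg_left a2 (exp_pos _).le).trans_eq
      ?_)) (exp_pos _)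
    ring
  refine a3.trans ((mul_le_mul_of_nonneg_left a5 (by positivity)).trans_eq ?_)
  push_cast
  field_simp

/-- few wide sites have a small value -/
theorem few (hL : LCStmt) (hP : PLStmt) (hG : Geo ω R m h δ rep w) (hs : Sc l m lam) (κ : ℕ)
    (x : V D) (hx : nrm x + (κ + 4) * l ≤ R) (g : V D → ℝ) (h0 : ∀ y, 0 ≤ g y)
    (h1 : ∀ y ∈ bx x (3 * l) (κ * l), Wide ω y h → Pf lam ω g y ≤ g y)
    (h2 : (bx x l (κ * l)).card ≤
      4 * ((bx x l (κ * l)).filter fun y => Wide ω y h ∧ 1 / 4 ≤ g y).card) {T : ℝ} (hT : 0 ≤ T) :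
    (((bx x l (κ * l)).filter fun y => Wide ω y h ∧ g y < exp (-T) / 8).card : ℝ) * T ^ 2 ≤
      4 * (4 * (D + 1) * (2 * κ + 3) ^ 2 *
        ((D + 2) * ((2 * D + 4) * exp 24 * 3 ^ (D + 1)) * exp 8)) * (bx x l (κ * l)).card := by
  have ha : 0 < exp (-T) / 8 := by positivity
  have a1 := osc hL hP hG hs κ x hx (fun y => if Wide ω y h then g y + exp (-T) / 8 else 1)
    (fun y => by split_ifs <;> linarith [h0 y]) fun y hy => by
      by_cases c : Wide ω y h
      · rw [if_pos c, Pf_congr' (g := fun z => g z + exp (-T) / 8) fun s e =>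
          if_pos (wide_step c e), Pf_add]
        exact add_le_add (h1 y hy c) (Pf_const_le ha.le y)
      · rw [if_neg c]
        exact Pf_le zero_le_one fun s e => (if_neg fun c' => c (c'.of_conn (Conn.step e).symm)).le
  set B := bx x l (κ * l)
  set C : ℝ := 4 * (D + 1) * (2 * κ + 3) ^ 2 *
    ((D + 2) * ((2 * D + 4) * exp 24 * 3 ^ (D + 1)) * exp 8)
  set Lo := B.filter fun y => Wide ω y h ∧ g y < exp (-T) / 8
  set Hi := B.filter fun y => Wide ω y h ∧ 1 / 4 ≤ g y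
  have a2 : (Lo.card : ℝ) * (Hi.card * T ^ 2) ≤ C * (B.card : ℝ) ^ 2 := by
    refine le_trans ?_ ((sum_le_sum_of_subset_of_nonneg (filter_subset
      (fun y => Wide ω y h ∧ g y < exp (-T) / 8) B) fun z _ _ =>
        sum_nonneg fun y _ => sq_nonneg _).trans a1)
    rw [← nsmul_eq_mul]
    refine card_nsmul_le_sum _ _ _ fun z hz => le_trans ?_ (sum_le_sum_of_subset_of_nonneg
      (filter_subset (fun y => Wide ω y h ∧ 1 / 4 ≤ g y) B) fun y _ _ => sq_nonneg _)
    rw [← nsmul_eq_mul]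
    refine card_nsmul_le_sum _ _ _ fun y hy => ?_
    obtain ⟨-, z1, z2⟩ := mem_filter.1 hz
    obtain ⟨-, y1, y2⟩ := mem_filter.1 hy
    rw [hG.fix z z1, hG.fix y y1, if_pos z1, if_pos y1]
    have b1 : log (g z + exp (-T) / 8) ≤ log (exp (-T) * (1 / 4)) :=
      log_le_log (by linarith [h0 z]) (by linarith)
    have b2 : log (1 / 4) ≤ log (g y + exp (-T) / 8) := log_le_log (by norm_num) (by linarith)
    rw [log_mul (exp_pos _).ne' (by norm_num), log_exp] at b1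
    rw [← neg_sq (log _ - log _)]
    exact pow_le_pow_left₀ hT (by linarith) 2
  have a3 : (B.card : ℝ) ≤ 4 * Hi.card := by exact_mod_cast h2
  have a4 : (0 : ℝ) < B.card := by
    exact_mod_cast card_pos.2 ⟨x, mem_bx.2 (by simp [ds])⟩
  refine le_of_mul_le_mul_right ?_ a4
  nlinarith [mul_le_mul_of_nonneg_left a3 (by positivity : (0 : ℝ) ≤ Lo.card * T ^ 2)]

end Wh

open Wh in
theorem wh (hI : IDStmt) (hL : LCStmt) (hP : PLStmt) (hM : MVStmt) : WHStmt := by
  intro D κ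
  obtain ⟨C, M, hC, -, hV⟩ := hM D
  obtain ⟨C1, hC1, hF⟩ : ∃ C1 : ℝ, 0 ≤ C1 ∧ C1 = 4 * (4 * (D + 1) * (2 * κ + 3) ^ 2 *
    ((D + 2) * ((2 * D + 4) * exp 24 * 3 ^ (D + 1)) * exp 8)) := ⟨_, by positivity, rfl⟩
  obtain ⟨T, hT, hT'⟩ : ∃ T : ℝ, 1 ≤ T ∧ 64 * C ^ 2 * (C1 * (2 * κ + 3) ^ (D + 1)) ≤ T :=
    ⟨_, le_max_left _ _, le_max_right _ _⟩
  have ha : 0 < exp (-T) / 8 := by positivity
  refine ⟨3 / 4 * (exp (-T) / 8), M ^ 6, by positivity, ?_⟩
  intro ω R m h δ rep w hG l lam hl hs x g hx h0 h1 h2 y hy hw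
  have a1 := few hL hP hG hs κ x hx g h0 h1 h2 (zero_le_one.trans hT)
  rw [← hF] at a1
  generalize exp (-T) / 8 = a at ha a1 ⊢
  have hl' := hs.l16
  have hp := hs.lpos
  have hy' := mem_bx.1 hy
  have hb : ∀ z ∈ wb' ω h y l, ds x (κ * l) z ≤ l := fun z hz => by
    have := (mem_wb'.1 hz).1
    have := ds_lip x (κ * l) y z
    omega
  have a2 := hV ω R m h δ rep w hG lam y l (fun z => a - g z) 0 a hs.pos.le
    (by linarith [hs.le_quarter]) hs.mul_le (by
      have := nrm_le_ds x (κ * l) y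
      rw [add_mul] at hx
      omega) hw (hs.big hl) le_rfl ha.le (fun z hz => by
      have := h1 z (mem_bx.2 ((hb z hz).trans (by omega))) (mem_wb'.1 hz).2
      rw [Pf_sub, Pf_const (wide_Zq hG.h1 (mem_wb'.1 hz).2 lam)]
      linarith) fun z _ => by linarith [h0 z]
  set N : ℝ := (((bx x l (κ * l)).filter fun y => Wide ω y h ∧ g y < a).card : ℝ) with hN
  have a3 : ∑ z ∈ wb' ω h y l, max (a - g z) 0 ^ 2 ≤ N * a ^ 2 := by
    rw [← sum_filter_of_ne (p := fun z => g z < a) fun z _ hz => by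
      by_contra c
      exact hz (by rw [max_eq_right (by linarith)]; simp)]
    refine (sum_le_card_nsmul _ _ (a ^ 2) fun z _ => pow_le_pow_left₀ (le_max_right _ _)
      (max_le (by linarith [h0 z]) ha.le) 2).trans ?_
    rw [nsmul_eq_mul, hN]
    refine mul_le_mul_of_nonneg_right (Nat.cast_le.2 (card_le_card fun z hz => ?_)) (sq_nonneg _)
    obtain ⟨z1, z2⟩ := mem_filter.1 hz
    exact mem_filter.2 ⟨mem_bx.2 (hb z z1), (mem_wb'.1 z1).2, z2⟩
  have a4 : 64 * C ^ 2 * N ≤ (l : ℝ) ^ (D + 1) := by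
    have b1 := a1.trans (mul_le_mul_of_nonneg_left (card1 x κ (by omega : 1 ≤ l)) hC1)
    have b2 := mul_le_mul_of_nonneg_right (hT'.trans (by nlinarith : T ≤ T ^ 2))
      (by positivity : (0 : ℝ) ≤ (l : ℝ) ^ (D + 1))
    have b3 := mul_le_mul_of_nonneg_left b1 (by positivity : (0 : ℝ) ≤ 64 * C ^ 2)
    refine le_of_mul_le_mul_right ?_ (by positivity : (0 : ℝ) < T ^ 2)
    linarith
  have a5 : √((∑ z ∈ wb' ω h y l, max (a - g z) 0 ^ 2) / (l : ℝ) ^ (D + 1)) ≤ a / (8 * C) := by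
    refine sqrt_le_iff.2 ⟨by positivity, (div_le_iff₀ (by positivity)).2 (a3.trans ?_)⟩
    refine le_trans (le_of_eq ?_) (mul_le_mul_of_nonneg_left a4 (sq_nonneg _))
    field_simp
    norm_num
  have a6 : C * (a / (8 * C)) = a / 8 := by field_simp
  linarith [mul_le_mul_of_nonneg_left a5 (zero_le_one.trans hC)]

end Pool.Agent.MP_8c549f_pr.L2

end
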